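import Pool.Agent.H33.EL.HypA
import Mathlib.LinearAlgebra.Matrix.Cartan

/-!
# EL-55/56: the list of the 240 roots of type E_8

`HypR_R8` is a list of lists of eight integers, computable in the kernel; `HypR_mem`: the simple
root coordinates of every root are in the list.  The doubled coordinates of a root have the same
parity, square sum 8, so they are all `±1` or all in `{-2, 0, 2}`.
-/

namespace Pool.Agent.H33.EL

/-- the lists of length `k` with entries in `S` -/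
def HypR_seqs (S : List ℤ) : ℕ → List (List ℤ)
  | 0 => [[]]
  | k + 1 => S.flatMap fun s => (HypR_seqs S k).map (s :: ·)

theorem HypR_seqs_mem (S : List ℤ) : ∀ l : List ℤ, (∀ s ∈ l, s ∈ S) →
    l ∈ HypR_seqs S l.length := by
  intro l
  induction l with
  | nil => intro _; exact List.mem_singleton.mpr rfl
  | cons s l ih =>
    intro h
    show s :: l ∈ S.flatMap fun s => (HypR_seqs S l.length).map (s :: ·)
    rw [List.mem_flatMap]
    exact ⟨s, h s List.mem_cons_self, List.mem_map.mpr ⟨l, ih (fun t ht =>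
      h t (List.mem_cons_of_mem _ ht)), rfl⟩⟩

theorem HypR_seqs_mem' (S : List ℤ) (k : ℕ) (l : List ℤ) (hl : l.length = k)
    (h : ∀ s ∈ l, s ∈ S) : l ∈ HypR_seqs S k := hl ▸ HypR_seqs_mem S l h

/-- the condition on the doubled coordinates -/
def HypR_cond : List ℤ → Bool
  | [y1, y2, y3, y4, y5, y6, y7, y8] =>
    (y1 * y1 + y2 * y2 + y3 * y3 + y4 * y4 + y5 * y5 + y6 * y6 + y7 * y7 + y8 * y8 == 8) &&
      ((y1 + y2 + y3 + y4 + y5 + y6 + y7 + 5 * y8) % 4 == 0)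
  | _ => false

/-- from the doubled coordinates to the simple root coordinates -/
def HypR_toX : List ℤ → List ℤ
  | [y1, y2, y3, y4, y5, y6, y7, y8] =>
    [y8, (y1 + y2 + y3 + y4 + y5 + y6 + y7 + 5 * y8) / 4,
      (-y1 + y2 + y3 + y4 + y5 + y6 + y7 + 7 * y8) / 4,
      (y3 + y4 + y5 + y6 + y7 + 5 * y8) / 2, (y4 + y5 + y6 + y7 + 4 * y8) / 2,
      (y5 + y6 + y7 + 3 * y8) / 2, (y6 + y7 + 2 * y8) / 2, (y7 + y8) / 2]
  | _ => []

/-- the roots of type E_8 in simple root coordinates -/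
def HypR_R8 : List (List ℤ) :=
  ((HypR_seqs [1, -1] 8 ++ HypR_seqs [2, 0, -2] 8).filter HypR_cond).map HypR_toX

/-- the form on lists -/
def HypR_B : List ℤ → List ℤ → ℤ
  | [x1, x2, x3, x4, x5, x6, x7, x8], [y1, y2, y3, y4, y5, y6, y7, y8] =>
    2 * (x1 * y1 + x2 * y2 + x3 * y3 + x4 * y4 + x5 * y5 + x6 * y6 + x7 * y7 + x8 * y8) -
      (x1 * y3 + x3 * y1) - (x2 * y4 + x4 * y2) - (x3 * y4 + x4 * y3) - (x4 * y5 + x5 * y4) -
      (x5 * y6 + x6 * y5) - (x6 * y7 + x7 * y6) - (x7 * y8 + x8 * y7)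
  | _, _ => 0

/-- the list of coordinates -/
def HypR_tl (x : Fin 8 → ℤ) : List ℤ := [x 0, x 1, x 2, x 3, x 4, x 5, x 6, x 7]

/-- the vector of a list -/
def HypR_ff (l : List ℤ) : Fin 8 → ℤ := fun i => l.getD i.1 0

theorem HypR_ip (x y : Fin 8 → ℤ) :
    ip CartanMatrix.E₈ x y = HypR_B (HypR_tl x) (HypR_tl y) := by
  simp only [ip, Fin.sum_univ_eight, HypR_B, HypR_tl, CartanMatrix.E₈, Matrix.of_apply,
    Matrix.cons_val', Matrix.cons_val_zero, Matrix.cons_val_one, Matrix.cons_val,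
    Matrix.cons_val_fin_one]
  ring

theorem HypR_tl_inj : Function.Injective HypR_tl := by
  intro x y h
  simp only [HypR_tl, List.cons.injEq, and_true] at h
  funext i
  fin_cases i <;> simp <;> tauto

/-- the doubled coordinates -/
theorem HypR_sq (x : Fin 8 → ℤ) :
    4 * ip CartanMatrix.E₈ x x =
      (x 0 + 2 * x 1 - 2 * x 2) ^ 2 + (-x 0 + 2 * x 1 + 2 * x 2 - 2 * x 3) ^ 2 +
      (-x 0 + 2 * x 3 - 2 * x 4) ^ 2 + (-x 0 + 2 * x 4 - 2 * x 5) ^ 2 +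
      (-x 0 + 2 * x 5 - 2 * x 6) ^ 2 + (-x 0 + 2 * x 6 - 2 * x 7) ^ 2 +
      (-x 0 + 2 * x 7) ^ 2 + (x 0) ^ 2 := by
  rw [HypR_ip]
  simp only [HypR_B, HypR_tl]
  ring

theorem HypR_zero {a b c d e f g h : ℤ} (hs : a ^ 2 + b ^ 2 + c ^ 2 + d ^ 2 + e ^ 2 + f ^ 2 +
    g ^ 2 + h ^ 2 ≤ 0) :
    a = 0 ∧ b = 0 ∧ c = 0 ∧ d = 0 ∧ e = 0 ∧ f = 0 ∧ g = 0 ∧ h = 0 := by
  have a1 := sq_nonneg a
  have a2 := sq_nonneg b
  have a3 := sq_nonneg c
  have a4 := sq_nonneg d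
  have a5 := sq_nonneg e
  have a6 := sq_nonneg f
  have a7 := sq_nonneg g
  have a8 := sq_nonneg h
  refine ⟨?_, ?_, ?_, ?_, ?_, ?_, ?_, ?_⟩ <;>
    exact pow_eq_zero_iff (two_ne_zero) |>.mp (by linarith)

theorem HypR_pos (x : Fin 8 → ℤ) (hx : x ≠ 0) : 0 < ip CartanMatrix.E₈ x x := by
  by_contra h
  apply hx
  have h1 := HypR_sq x
  obtain ⟨b1, b2, b3, b4, b5, b6, b7, b8⟩ := HypR_zero (h1.symm.le.trans (by linarith))
  clear h h1 hx
  funext i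
  show x i = 0
  have c7 : x 7 = 0 := by linarith
  have c6 : x 6 = 0 := by linarith
  have c5 : x 5 = 0 := by linarith
  have c4 : x 4 = 0 := by linarith
  have c3 : x 3 = 0 := by linarith
  have c2 : x 2 = 0 := by linarith
  have c1 : x 1 = 0 := by linarith
  fin_cases i <;> assumption

theorem HypR_abs {a b c d e f g h : ℤ} (hs : a ^ 2 + b ^ 2 + c ^ 2 + d ^ 2 + e ^ 2 + f ^ 2 +
    g ^ 2 + h ^ 2 = 8) {y : ℤ} (hy : y = a ∨ y = b ∨ y = c ∨ y = d ∨ y = e ∨ y = f ∨ y = g ∨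
    y = h) : -2 ≤ y ∧ y ≤ 2 := by
  have a1 := sq_nonneg a
  have a2 := sq_nonneg b
  have a3 := sq_nonneg c
  have a4 := sq_nonneg d
  have a5 := sq_nonneg e
  have a6 := sq_nonneg f
  have a7 := sq_nonneg g
  have a8 := sq_nonneg h
  have h1 : y ^ 2 ≤ 8 := by
    rcases hy with rfl | rfl | rfl | rfl | rfl | rfl | rfl | rfl <;> linarith
  constructor <;> nlinarith

/-- the list of doubled coordinates -/
def HypR_yl (x : Fin 8 → ℤ) : List ℤ :=
  [x 0 + 2 * x 1 - 2 * x 2, -x 0 + 2 * x 1 + 2 * x 2 - 2 * x 3,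
    -x 0 + 2 * x 3 - 2 * x 4, -x 0 + 2 * x 4 - 2 * x 5, -x 0 + 2 * x 5 - 2 * x 6,
    -x 0 + 2 * x 6 - 2 * x 7, -x 0 + 2 * x 7, x 0]

theorem HypR_yl_bound (x : Fin 8 → ℤ) (h : ip CartanMatrix.E₈ x x = 2) {s : ℤ}
    (hs : s ∈ HypR_yl x) : -2 ≤ s ∧ s ≤ 2 := by
  have h1 := HypR_sq x
  rw [h] at h1
  refine HypR_abs (h1.symm.trans (by norm_num)) ?_
  simpa only [HypR_yl, List.mem_cons, List.not_mem_nil, or_false] using hs

theorem HypR_yl_par (x : Fin 8 → ℤ) {s : ℤ} (hs : s ∈ HypR_yl x) : ∃ m : ℤ, s = x 0 + 2 * m := by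
  simp only [HypR_yl, List.mem_cons, List.not_mem_nil, or_false] at hs
  rcases hs with hs | hs | hs | hs | hs | hs | hs | hs
  · exact ⟨x 1 - x 2, by rw [hs]; ring⟩
  · exact ⟨-x 0 + x 1 + x 2 - x 3, by rw [hs]; ring⟩
  · exact ⟨-x 0 + x 3 - x 4, by rw [hs]; ring⟩
  · exact ⟨-x 0 + x 4 - x 5, by rw [hs]; ring⟩
  · exact ⟨-x 0 + x 5 - x 6, by rw [hs]; ring⟩
  · exact ⟨-x 0 + x 6 - x 7, by rw [hs]; ring⟩
  · exact ⟨-x 0 + x 7, by rw [hs]; ring⟩
  · exact ⟨0, by rw [hs]; ring⟩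

theorem HypR_yl_mem (x : Fin 8 → ℤ) (h : ip CartanMatrix.E₈ x x = 2) :
    HypR_yl x ∈ HypR_seqs [1, -1] 8 ∨ HypR_yl x ∈ HypR_seqs [2, 0, -2] 8 := by
  rcases Int.even_or_odd' (x 0) with ⟨m, hm | hm⟩
  · right
    refine HypR_seqs_mem' _ _ _ rfl ?_
    intro s hs
    obtain ⟨k, hk⟩ := HypR_yl_par x hs
    obtain ⟨h1, h2⟩ := HypR_yl_bound x h hs
    simp only [List.mem_cons, List.not_mem_nil, or_false]
    omega
  · left
    refine HypR_seqs_mem' _ _ _ rfl ?_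
    intro s hs
    obtain ⟨k, hk⟩ := HypR_yl_par x hs
    obtain ⟨h1, h2⟩ := HypR_yl_bound x h hs
    simp only [List.mem_cons, List.not_mem_nil, or_false]
    omega

theorem HypR_yl_cond (x : Fin 8 → ℤ) (h : ip CartanMatrix.E₈ x x = 2) :
    HypR_cond (HypR_yl x) = true := by
  have h1 := HypR_sq x
  rw [h] at h1
  simp only [HypR_yl, HypR_cond, Bool.and_eq_true, beq_iff_eq]
  constructor
  · linear_combination -h1
  · clear h h1
    omega

theorem HypR_yl_toX (x : Fin 8 → ℤ) : HypR_toX (HypR_yl x) = HypR_tl x := by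
  simp only [HypR_yl, HypR_toX, HypR_tl, List.cons.injEq, and_true, true_and]
  refine ⟨?_, ?_, ?_, ?_, ?_, ?_, ?_⟩ <;> omega

/-- every root is in the list -/
theorem HypR_mem (x : Fin 8 → ℤ) (h : ip CartanMatrix.E₈ x x = 2) :
    HypR_tl x ∈ HypR_R8 := by
  rw [HypR_R8, List.mem_map]
  refine ⟨HypR_yl x, ?_, HypR_yl_toX x⟩
  rw [List.mem_filter, List.mem_append]
  exact ⟨HypR_yl_mem x h, HypR_yl_cond x h⟩

end Pool.Agent.H33.EL
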