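import Pool.Agent.H33.EL.CCf

/-!
# EL-47: the cases A_1 and 2 A_1; see the last part of the header of `CCf`
-/

namespace Pool.Agent.H33.EL

variable {n : ℕ} {C : Matrix (Fin n) (Fin n) ℤ} {K : Type} [Field K] [Fintype (Rt C)]
variable {F : Subgroup (LL C K ≃ₗ[K] LL C K)}

private theorem g_e_mem (a : Rt C) : e K a ∈ S2 K a :=
  Submodule.subset_span (by simp)

private theorem g_eng_mem (a : Rt C) : e K (ng a) ∈ S2 K a :=
  Submodule.subset_span (by simp)

private theorem g_hh_mem (a : Rt C) : hh C (zk a.1) ∈ S2 K a :=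
  Submodule.subset_span (by simp)

private theorem g_S2_ng (a : Rt C) : S2 K (ng a) ≤ S2 K a := by
  unfold S2
  rw [Submodule.span_le]
  intro x hx
  simp only [Set.mem_insert_iff, Set.mem_singleton_iff] at hx
  rcases hx with h | h | h
  · rw [h]; exact g_eng_mem a
  · rw [h, ng_ng]; exact g_e_mem a
  · rw [h, ng_val, zk_neg, hh_neg]
    exact Submodule.neg_mem _ (g_hh_mem a)

private theorem g_xr_mem (H : Hyp C K) (a : Rt C) (k t : K) :
    k • xr a t (e K (ng a)) ∈ S2 K a := by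
  rw [xr_e_ng H]
  exact Submodule.smul_mem _ _ (Submodule.add_mem _ (Submodule.sub_mem _ (g_eng_mem a)
    (Submodule.smul_mem _ _ (g_hh_mem a))) (Submodule.smul_mem _ _ (g_e_mem a)))

/-- coordinates of the elements of `S2` -/
private theorem g_coord (a : Rt C) {x : LL C K} (hx : x ∈ S2 K a) :
    (∃ c : K, x.1 = c • zk a.1) ∧ ∀ d, d ≠ a → d ≠ ng a → x.2 d = 0 := by
  unfold S2 at hx
  induction hx using Submodule.span_induction with
  | mem y hy =>
    simp only [Set.mem_insert_iff, Set.mem_singleton_iff] at hy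
    rcases hy with h | h | h
    · rw [h]
      exact ⟨⟨0, by rw [e_fst, zero_smul]⟩, fun d h1 _ => e_snd_ne h1⟩
    · rw [h]
      exact ⟨⟨0, by rw [e_fst, zero_smul]⟩, fun d _ h2 => e_snd_ne h2⟩
    · rw [h]
      exact ⟨⟨1, by rw [hh_fst, one_smul]⟩, fun d _ _ => hh_snd _ _⟩
  | zero => exact ⟨⟨0, by rw [zero_smul]; rfl⟩, fun d _ _ => rfl⟩
  | add y z _ _ hy hz =>
    obtain ⟨⟨c, hc⟩, h1⟩ := hy
    obtain ⟨⟨c', hc'⟩, h2⟩ := hz
    refine ⟨⟨c + c', by rw [Prod.fst_add, hc, hc', add_smul]⟩, fun d h3 h4 => ?_⟩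
    show y.2 d + z.2 d = 0
    rw [h1 d h3 h4, h2 d h3 h4, add_zero]
  | smul k y _ hy =>
    obtain ⟨⟨c, hc⟩, h1⟩ := hy
    refine ⟨⟨k * c, by rw [Prod.smul_fst, hc, smul_smul]⟩, fun d h3 h4 => ?_⟩
    show k * y.2 d = 0
    rw [h1 d h3 h4, mul_zero]

private theorem g_br_gen (H : Hyp C K) (a : Rt C) {x y : LL C K}
    (hx : x ∈ ({e K a, e K (ng a), hh C (zk a.1)} : Set (LL C K)))
    (hy : y ∈ ({e K a, e K (ng a), hh C (zk a.1)} : Set (LL C K))) : br x y ∈ S2 K a := by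
  simp only [Set.mem_insert_iff, Set.mem_singleton_iff] at hx hy
  have e1 : br (e K (ng a)) (e K a) = hh C (zk a.1) := by
    rw [br_skew H, br_e_ng H, neg_neg]
  rcases hx with h | h | h <;> rcases hy with h' | h' | h' <;> rw [h, h']
  · rw [br_self H]; exact Submodule.zero_mem _
  · rw [br_e_ng H]; exact Submodule.neg_mem _ (g_hh_mem a)
  · rw [br_e_hh]; exact Submodule.smul_mem _ _ (g_e_mem a)
  · rw [e1]; exact g_hh_mem a
  · rw [br_self H]; exact Submodule.zero_mem _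
  · rw [br_e_hh]; exact Submodule.smul_mem _ _ (g_eng_mem a)
  · rw [br_hh_e]; exact Submodule.smul_mem _ _ (g_e_mem a)
  · rw [br_hh_e]; exact Submodule.smul_mem _ _ (g_eng_mem a)
  · rw [br_hh_hh]; exact Submodule.zero_mem _

private theorem g_br (H : Hyp C K) (a : Rt C) {x y : LL C K} (hx : x ∈ S2 K a)
    (hy : y ∈ S2 K a) : br x y ∈ S2 K a := by
  have h1 : ∀ x ∈ ({e K a, e K (ng a), hh C (zk a.1)} : Set (LL C K)), br x y ∈ S2 K a := by
    intro x hx
    unfold S2 at hy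
    induction hy using Submodule.span_induction with
    | mem y hy => exact g_br_gen H a hx hy
    | zero => rw [map_zero]; exact Submodule.zero_mem _
    | add y z _ _ hy hz => rw [map_add]; exact Submodule.add_mem _ hy hz
    | smul k y _ hy => rw [map_smul]; exact Submodule.smul_mem _ _ hy
  unfold S2 at hx
  induction hx using Submodule.span_induction with
  | mem x hx => exact h1 x hx
  | zero => rw [map_zero, LinearMap.zero_apply]; exact Submodule.zero_mem _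
  | add x z _ _ hx hz => rw [map_add, LinearMap.add_apply]; exact Submodule.add_mem _ hx hz
  | smul k x _ hx => rw [map_smul, LinearMap.smul_apply]; exact Submodule.smul_mem _ _ hx

/-- an automorphism which maps `e_c`, `e_(-c)` into `S2 d` maps `S2 c` into `S2 d` -/
private theorem g_map (H : Hyp C K) {f : LL C K ≃ₗ[K] LL C K} (hf : f ∈ GG C K) {c d : Rt C}
    (h1 : f (e K c) ∈ S2 K d) (h2 : f (e K (ng c)) ∈ S2 K d) : ∀ x ∈ S2 K c, f x ∈ S2 K d := by
  intro x hx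
  unfold S2 at hx
  induction hx using Submodule.span_induction with
  | mem x hx =>
    simp only [Set.mem_insert_iff, Set.mem_singleton_iff] at hx
    rcases hx with h | h | h
    · rw [h]; exact h1
    · rw [h]; exact h2
    · have h3 : hh C (zk c.1 : Fin n → K) = -br (e K c) (e K (ng c)) := by
        rw [br_e_ng H, neg_neg]
      rw [h, h3, map_neg, hf.1]
      exact Submodule.neg_mem _ (g_br H d h1 h2)
  | zero => rw [map_zero]; exact Submodule.zero_mem _
  | add x z _ _ hx hz => rw [map_add]; exact Submodule.add_mem _ hx hz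
  | smul k x _ hx => rw [map_smul]; exact Submodule.smul_mem _ _ hx

private theorem g_ne (H : Hyp C K) {a b : Rt C} (hab : ip C a.1 b.1 = 0) :
    b ≠ a ∧ b ≠ ng a ∧ a ≠ b ∧ a ≠ ng b ∧ ng b ≠ a ∧ ng a ≠ b ∧ ng a ≠ ng b := by
  have h1 : ip C a.1 a.1 = 2 := a.2
  have h2 : ip C b.1 b.1 = 2 := b.2
  have hba : ip C b.1 a.1 = 0 := by rw [ip_comm H.symm, hab]
  refine ⟨?_, ?_, ?_, ?_, ?_, ?_, ?_⟩
  · rintro rfl
    omega
  · rintro rfl
    rw [ng_val, ip_neg_right, h1] at hab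
    norm_num at hab
  · rintro rfl
    omega
  · rintro rfl
    rw [ng_val, ip_neg_left, h2] at hab
    norm_num at hab
  · rintro rfl
    rw [ng_val, ip_neg_left, h2] at hab
    norm_num at hab
  · rintro rfl
    rw [ng_val, ip_neg_right, h1] at hab
    norm_num at hab
  · intro h
    have h3 : a = b := by
      rw [← ng_ng a, h, ng_ng]
    rw [h3] at hab
    omega

/-- `S2 a` and `S2 b` are orthogonal if `a` and `b` are -/
private theorem g_orth (H : Hyp C K) {a b : Rt C} (hab : ip C a.1 b.1 = 0) {x y : LL C K}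
    (hx : x ∈ S2 K a) (hy : y ∈ S2 K b) : fm x y = 0 := by
  obtain ⟨n1, n2, n3, n4, n5, n6, n7⟩ := g_ne H hab
  obtain ⟨⟨c, hc⟩, h1⟩ := g_coord a hx
  unfold S2 at hy
  induction hy using Submodule.span_induction with
  | mem y hy =>
    simp only [Set.mem_insert_iff, Set.mem_singleton_iff] at hy
    rcases hy with h | h | h
    · rw [h, fm_e_right, h1 (ng b) n5 (fun h => n7 h.symm), neg_zero]
    · rw [h, fm_e_right, ng_ng, h1 b n1 n2, neg_zero]
    · rw [h, fm_hh_right, hc, fk_smul_left, fk_zk_zk, hab, Int.cast_zero, mul_zero]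
  | zero => rw [map_zero]
  | add y z _ _ hy hz => rw [map_add, hy, hz, add_zero]
  | smul k y _ hy => rw [map_smul, hy, smul_zero]

theorem case1 (H : Hyp C K) {p : ℕ} [Fact p.Prime] [CharP K p] (X : Ctx F) {a : Rt C}
    (h : PZ F = {a, ng a}) : False := by
  have ha : a ∈ PZ F := by rw [h]; simp
  have hna : ng a ∈ PZ F := by rw [h]; simp
  have hinv : ∀ f ∈ F, ∀ c ∈ PZ F, f (e K c) ∈ S2 K a := by
    intro f hf c hc
    have h1 : IsExt (f (e K c)) := (isExt_e H c).map (X.hF hf)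
    have h2 : f (e K c) ≠ 0 := fun h => e_ne_zero (K := K) c ((LinearEquiv.map_eq_zero_iff f).1 h)
    have h3 := mZ_inv H X hf (x := e K c) (fun d hd => e_snd_ne (by
      rintro rfl
      exact hd hc))
    have h4 : ∀ d : Rt C, d ≠ a → d ≠ ng a → (f (e K c)).2 d = 0 := by
      intro d hd1 hd2
      apply h3
      rw [h]
      simp [hd1, hd2]
    rcases ext_sl2 H h1 h2 a h4 with ⟨k, -, hk⟩ | ⟨k, t, -, hk⟩
    · rw [hk]
      exact Submodule.smul_mem _ _ (g_e_mem a)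
    · rw [hk]
      exact g_xr_mem H a k t
  have hr := rank1 H (p := p) X ha (fun f hf => ⟨hinv f hf a ha, hinv f hf (ng a) hna⟩)
  apply X.hN
  intro f hf
  refine mem_NN_of_lines H (X.hF hf) (PZ F) (fun b hb => PZ_ng H X hb)
    (fun x hx => mZ_inv H X hf hx) ?_
  intro b hb
  rw [h] at hb
  rcases hr f hf with ⟨⟨k, hk⟩, ⟨l, hl⟩⟩ | ⟨⟨k, hk⟩, ⟨l, hl⟩⟩
  · rcases hb with hb | hb
    · rw [hb]
      exact ⟨a, ha, k, hk⟩
    · rw [Set.mem_singleton_iff.1 hb]
      exact ⟨ng a, hna, l, hl⟩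
  · rcases hb with hb | hb
    · rw [hb]
      exact ⟨ng a, hna, l, hl⟩
    · rw [Set.mem_singleton_iff.1 hb]
      exact ⟨a, ha, k, hk⟩

theorem case2 (H : Hyp C K) {p : ℕ} [Fact p.Prime] [CharP K p] (X : Ctx F) {a b : Rt C}
    (hab : ip C a.1 b.1 = 0) (h : PZ F = {a, ng a, b, ng b}) : False := by
  have hba : ip C b.1 a.1 = 0 := by rw [ip_comm H.symm, hab]
  obtain ⟨n1, n2, n3, n4, n5, n6, n7⟩ := g_ne H hab
  have ha : a ∈ PZ F := by rw [h]; simp
  have hna : ng a ∈ PZ F := by rw [h]; simp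
  have hb : b ∈ PZ F := by rw [h]; simp
  have hnb : ng b ∈ PZ F := by rw [h]; simp
  have haa : ip C a.1 a.1 = 2 := a.2
  have hbb : ip C b.1 b.1 = 2 := b.2
  -- products of elements of `PZ F`
  have hprod : ∀ c ∈ PZ F, ∀ d ∈ PZ F, ip C c.1 d.1 ≠ -1 := by
    intro c hc d hd
    rw [h] at hc hd
    simp only [Set.mem_insert_iff, Set.mem_singleton_iff] at hc hd
    rcases hc with hc | hc | hc | hc <;> rcases hd with hd | hd | hd | hd <;> rw [hc, hd] <;>
      simp [ng_val, ip_neg_left, ip_neg_right, haa, hbb, hab, hba]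
  -- the images of root vectors
  have him : ∀ f ∈ F, ∀ c ∈ PZ F, f (e K c) ∈ S2 K a ∨ f (e K c) ∈ S2 K b := by
    intro f hf c hc
    have h1 : IsExt (f (e K c)) := (isExt_e H c).map (X.hF hf)
    have h2 : f (e K c) ≠ 0 := fun h => e_ne_zero (K := K) c ((LinearEquiv.map_eq_zero_iff f).1 h)
    have h3 := mZ_inv H X hf (x := e K c) (fun d hd => e_snd_ne (by
      rintro rfl
      exact hd hc))
    obtain ⟨d, hd⟩ := ext_root_coord H h1 h2
    have hnd : ng d ∈ PZ F := by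
      by_contra hcon
      exact hd (h3 _ hcon)
    have hdP : d ∈ PZ F := by
      have := PZ_ng H X hnd
      rwa [ng_ng] at this
    obtain ⟨r, hr, t, ht⟩ := xd H h1 d hd
    have h5 : {g : LL C K ≃ₗ[K] LL C K | ∃ (b' d' : Rt C) (s : K),
        ip C b'.1 d.1 = 1 ∧ d'.1 = b'.1 - d.1 ∧ (f (e K c)).2 d' ≠ 0 ∧ g = xr b' s} = ∅ := by
      rw [Set.eq_empty_iff_forall_notMem]
      rintro g ⟨b', d', s, hb', hd', hv, -⟩
      have h6 : d' ∈ PZ F := by
        by_contra hcon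
        exact hv (h3 _ hcon)
      refine hprod d' h6 d hdP ?_
      rw [hd', ip_sub_left, hb', (d.2 : ip C d.1 d.1 = 2)]
      norm_num
    rw [h5, Subgroup.closure_empty, Subgroup.mem_bot] at hr
    have h7 : f (e K c) ∈ S2 K d := by
      rw [ht, hr]
      exact g_xr_mem H d _ t
    rw [h] at hdP
    simp only [Set.mem_insert_iff, Set.mem_singleton_iff] at hdP
    rcases hdP with hd' | hd' | hd' | hd'
    · rw [hd'] at h7; exact Or.inl h7
    · rw [hd'] at h7; exact Or.inl (g_S2_ng a h7)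
    · rw [hd'] at h7; exact Or.inr h7
    · rw [hd'] at h7; exact Or.inr (g_S2_ng b h7)
  -- `S2 c` is mapped to `S2 a` or to `S2 b`
  have hmap : ∀ f ∈ F, ∀ c ∈ PZ F, (∀ x ∈ S2 K c, f x ∈ S2 K a) ∨ ∀ x ∈ S2 K c, f x ∈ S2 K b := by
    intro f hf c hc
    have hnc : ng c ∈ PZ F := PZ_ng H X hc
    have hfm : fm (f (e K c)) (f (e K (ng c))) ≠ 0 := by
      rw [(X.hF hf).2, fm_e_left, e_snd_self]
      exact neg_ne_zero.2 one_ne_zero
    rcases him f hf c hc with h1 | h1 <;> rcases him f hf (ng c) hnc with h2 | h2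
    · exact Or.inl (g_map H (X.hF hf) h1 h2)
    · exact absurd (g_orth H hab h1 h2) hfm
    · exact absurd (g_orth H hba h1 h2) hfm
    · exact Or.inr (g_map H (X.hF hf) h1 h2)
  have hea : e K a ∉ S2 K b := by
    intro hx
    have := (g_coord b hx).2 a n3 n4
    rw [e_snd_self] at this
    exact one_ne_zero this
  have heb : e K b ∉ S2 K a := by
    intro hx
    have := (g_coord a hx).2 b n1 n2
    rw [e_snd_self] at this
    exact one_ne_zero this
  have happ : ∀ (f : LL C K ≃ₗ[K] LL C K) (x : LL C K), f (f⁻¹ x) = x := nor_inv_apply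
  have happ' : ∀ (f : LL C K ≃ₗ[K] LL C K) (x : LL C K), f⁻¹ (f x) = x := nor_apply_inv
  -- if `f` preserves `S2 a` then so does `f⁻¹`, and `f` preserves `S2 b`
  have hA1 : ∀ f ∈ F, (∀ x ∈ S2 K a, f x ∈ S2 K a) → ∀ x ∈ S2 K a, f⁻¹ x ∈ S2 K a := by
    intro f hf hfa
    rcases hmap f⁻¹ (inv_mem hf) a ha with h1 | h1
    · exact h1
    · exfalso
      apply hea
      have := h1 _ (hfa _ (g_e_mem a))
      rwa [happ'] at this
  have hA2 : ∀ f ∈ F, (∀ x ∈ S2 K a, f x ∈ S2 K a) → ∀ x ∈ S2 K b, f x ∈ S2 K b := by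
    intro f hf hfa
    rcases hmap f hf b hb with h1 | h1
    · exfalso
      apply heb
      have := hA1 f hf hfa _ (h1 _ (g_e_mem b))
      rwa [happ'] at this
    · exact h1
  let F' : Subgroup (LL C K ≃ₗ[K] LL C K) :=
    { carrier := {f | f ∈ F ∧ ∀ x ∈ S2 K a, f x ∈ S2 K a}
      one_mem' := ⟨one_mem _, fun x hx => hx⟩
      mul_mem' := by
        rintro f g ⟨hf, hf'⟩ ⟨hg, hg'⟩
        exact ⟨mul_mem hf hg, fun x hx => hf' _ (hg' _ hx)⟩
      inv_mem' := by
        rintro f ⟨hf, hf'⟩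
        exact ⟨inv_mem hf, hA1 f hf hf'⟩ }
  have hF' : F' = F := by
    apply no_normal H X F' (fun f hf => hf.1)
    · intro t ht
      refine ⟨X.hT ht, g_map H (T1_le_TT H ht).1 ?_ ?_⟩
      · rw [TT_e H (T1_le_TT H ht)]
        exact Submodule.smul_mem _ _ (g_e_mem a)
      · rw [TT_e H (T1_le_TT H ht)]
        exact Submodule.smul_mem _ _ (g_eng_mem a)
    · rintro f hf u ⟨hu, hu'⟩
      refine ⟨mul_mem (mul_mem hf hu) (inv_mem hf), fun x hx => ?_⟩
      show f (u (f⁻¹ x)) ∈ S2 K a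
      rcases hmap f⁻¹ (inv_mem hf) a ha with h1 | h1
      · have h2 : ∀ x ∈ S2 K a, f x ∈ S2 K a := by
          have := hA1 f⁻¹ (inv_mem hf) h1
          rwa [inv_inv] at this
        exact h2 _ (hu' _ (h1 _ hx))
      · rcases hmap f hf b hb with h2 | h2
        · exact h2 _ (hA2 u hu hu' _ (h1 _ hx))
        · exfalso
          apply hea
          have := h2 _ (h1 _ (g_e_mem a))
          rwa [happ] at this
  have hFa : ∀ f ∈ F, ∀ x ∈ S2 K a, f x ∈ S2 K a := by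
    intro f hf
    rw [← hF'] at hf
    exact hf.2
  have hFb : ∀ f ∈ F, ∀ x ∈ S2 K b, f x ∈ S2 K b := fun f hf => hA2 f hf (hFa f hf)
  have ra := rank1 H (p := p) X ha
    (fun f hf => ⟨hFa f hf _ (g_e_mem a), hFa f hf _ (g_eng_mem a)⟩)
  have rb := rank1 H (p := p) X hb
    (fun f hf => ⟨hFb f hf _ (g_e_mem b), hFb f hf _ (g_eng_mem b)⟩)
  apply X.hN
  intro f hf
  refine mem_NN_of_lines H (X.hF hf) (PZ F) (fun b hb => PZ_ng H X hb)
    (fun x hx => mZ_inv H X hf hx) ?_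
  intro d hd
  rw [h] at hd
  simp only [Set.mem_insert_iff, Set.mem_singleton_iff] at hd
  rcases hd with hd | hd | hd | hd
  · rw [hd]
    rcases ra f hf with ⟨⟨k, hk⟩, ⟨l, hl⟩⟩ | ⟨⟨k, hk⟩, ⟨l, hl⟩⟩
    · exact ⟨a, ha, k, hk⟩
    · exact ⟨ng a, hna, l, hl⟩
  · rw [hd]
    rcases ra f hf with ⟨⟨k, hk⟩, ⟨l, hl⟩⟩ | ⟨⟨k, hk⟩, ⟨l, hl⟩⟩
    · exact ⟨ng a, hna, l, hl⟩
    · exact ⟨a, ha, k, hk⟩
  · rw [hd]
    rcases rb f hf with ⟨⟨k, hk⟩, ⟨l, hl⟩⟩ | ⟨⟨k, hk⟩, ⟨l, hl⟩⟩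
    · exact ⟨b, hb, k, hk⟩
    · exact ⟨ng b, hnb, l, hl⟩
  · rw [hd]
    rcases rb f hf with ⟨⟨k, hk⟩, ⟨l, hl⟩⟩ | ⟨⟨k, hk⟩, ⟨l, hl⟩⟩
    · exact ⟨ng b, hnb, l, hl⟩
    · exact ⟨b, hb, k, hk⟩

end Pool.Agent.H33.EL
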