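import Mathlib

/-!
# EL-19: conjugacy of complements (Schur-Zassenhaus, `p`-group kernel)

`Q` a `p`-group normalised by the `p'`-groups `A` and `B`, `QA = QB`.  Then `B = u A u⁻¹`,
`u ∈ Q`.  (In the application `A`, `B` are abelian.)

Proof.  Induction on `|Q|`.  `Q = 1`: clear.  `Q ≠ 1`: `V = Z(Q) ≠ 1` (center as a subgroup of
the ambient group), it is normalised by `A`, `B` and `Q`.
If `V = Q` (abelian case): `A ∩ V = 1 = B ∩ V` by orders.  For `a ∈ A` there is a unique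
`b(a) ∈ B` with `b(a) ∈ V a`; `a ↦ b(a)` is a homomorphism.  Put `c(a) = b(a) a⁻¹ ∈ V`;
`c(a a') = c(a) · a c(a') a⁻¹`.  `v = ∏_(a ∈ A) c(a)` satisfies
`v = c(a)^|A| · a v a⁻¹` for every `a ∈ A` (reindex).  Let `|A| k = 1` mod `|V|`, `u = v^k`:
`u = c(a) · a u a⁻¹`, i.e. `u a u⁻¹ = c(a) a = b(a)`.
If `V < Q`: work in `H = Q A` (a subgroup), `H/V`: by induction (`|Q/V| < |Q|`) there is
`u1 ∈ Q` with `u1 A u1⁻¹ V = B V`; now apply induction (`|V| < |Q|`) to `V`,
`A1 = u1 A u1⁻¹`, `B`.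
-/

namespace Pool.Agent.H33.EL

theorem sz_ab {G : Type} [Group G] [Finite G] (Q A B : Subgroup G)
    (hcop : Nat.Coprime (Nat.card Q) (Nat.card A)) (hQB : Q ⊓ B = ⊥)
    (hc : ∀ x ∈ Q, ∀ y ∈ Q, x * y = y * x)
    (hAn : ∀ a ∈ A, ∀ u ∈ Q, a * u * a⁻¹ ∈ Q)
    (hAB : ∀ a ∈ A, ∃ u ∈ Q, ∃ b ∈ B, a = u * b) :
    ∃ u ∈ Q, ∀ a ∈ A, u * a * u⁻¹ ∈ B := by
  classical
  -- the cocycle
  have h1 : ∀ a : A, ∃ c : Q, (c : G) * (a : G) ∈ B := by
    intro a
    obtain ⟨u, hu, b, hb, hab⟩ := hAB a a.2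
    refine ⟨⟨u⁻¹, Q.inv_mem hu⟩, ?_⟩
    show u⁻¹ * (a : G) ∈ B
    rw [hab]
    simpa using hb
  choose c hcB using h1
  letI : CommGroup Q := { (inferInstance : Group Q) with
    mul_comm := fun x y => Subtype.ext (hc x x.2 y y.2) }
  -- conjugation
  let φ : A → (Q →* Q) := fun a =>
    { toFun := fun u => ⟨(a : G) * u * (a : G)⁻¹, hAn a a.2 u u.2⟩
      map_one' := by
        apply Subtype.ext
        show (a : G) * 1 * (a : G)⁻¹ = 1
        group
      map_mul' := by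
        intro x y
        apply Subtype.ext
        show (a : G) * (x * y) * (a : G)⁻¹ = ((a : G) * x * (a : G)⁻¹) * ((a : G) * y * (a : G)⁻¹)
        group }
  have hφ : ∀ a u, ((φ a u : Q) : G) = (a : G) * u * (a : G)⁻¹ := fun a u => rfl
  have hcoc : ∀ a a' : A, c (a * a') = c a * φ a (c a') := by
    intro a a'
    have h2 : ((c a * φ a (c a') * (c (a * a'))⁻¹ : Q) : G) ∈ Q ⊓ B := by
      refine Subgroup.mem_inf.mpr ⟨Subtype.property _, ?_⟩
      have h3 : ((c a * φ a (c a') * (c (a * a'))⁻¹ : Q) : G)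
          = ((c a : G) * a) * ((c a' : G) * a') * ((c (a * a') : G) * ((a * a' : A) : G))⁻¹ := by
        show (c a : G) * ((a : G) * (c a') * (a : G)⁻¹) * (c (a * a') : G)⁻¹ = _
        rw [Subgroup.coe_mul]
        group
      rw [h3]
      exact B.mul_mem (B.mul_mem (hcB a) (hcB a')) (B.inv_mem (hcB (a * a')))
    rw [hQB, Subgroup.mem_bot] at h2
    have h4 : c a * φ a (c a') * (c (a * a'))⁻¹ = 1 := Subtype.ext h2
    exact (mul_inv_eq_one.mp h4).symm
  haveI : Fintype A := Fintype.ofFinite A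
  let v : Q := ∏ a : A, c a
  have hv : ∀ a : A, v = c a ^ Nat.card A * φ a v := by
    intro a
    have h5 : v = ∏ a' : A, c (a * a') := by
      symm
      exact Fintype.prod_equiv (Equiv.mulLeft a) _ _ (fun x => rfl)
    refine h5.trans ?_
    simp_rw [hcoc]
    rw [Finset.prod_mul_distrib, Finset.prod_const, Finset.card_univ, ← Nat.card_eq_fintype_card,
      ← map_prod]
  -- k
  obtain ⟨k, hk⟩ : ∃ k : ℕ, ∀ x : Q, x ^ (Nat.card A * k) = x := by
    by_cases hQ1 : Nat.card Q = 1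
    · refine ⟨1, fun x => ?_⟩
      have : Subsingleton Q := (Nat.card_eq_one_iff_unique.mp hQ1).1
      exact Subsingleton.elim _ _
    · obtain ⟨k, hk⟩ := Nat.exists_mul_mod_eq_one_of_coprime hcop.symm (by
        have : 0 < Nat.card Q := Nat.card_pos
        omega)
      refine ⟨k, fun x => ?_⟩
      rw [← pow_mod_natCard, hk.2, pow_one]
  refine ⟨((v ^ k : Q) : G), Subtype.property _, ?_⟩
  intro a ha
  have h6 : v ^ k = c ⟨a, ha⟩ * φ ⟨a, ha⟩ (v ^ k) := by
    conv_lhs => rw [hv ⟨a, ha⟩]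
    rw [mul_pow, ← pow_mul, hk, map_pow]
  have h7 : ((v ^ k : Q) : G) = (c ⟨a, ha⟩ : G) * (a * ((v ^ k : Q) : G) * a⁻¹) := by
    have := congrArg (Subtype.val) h6
    exact this
  have h8 : ((v ^ k : Q) : G) * a * ((v ^ k : Q) : G)⁻¹ = (c ⟨a, ha⟩ : G) * a := by
    nth_rw 1 [h7]
    group
  rw [h8]
  exact hcB ⟨a, ha⟩

theorem sz_normal {p : ℕ} [Fact p.Prime] : ∀ n : ℕ, ∀ (G : Type) [Group G] [Finite G]
    (Q A B : Subgroup G) [Q.Normal], Nat.card Q ≤ n → IsPGroup p Q → ¬ p ∣ Nat.card A →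
    ¬ p ∣ Nat.card B → (∀ a ∈ A, ∃ u ∈ Q, ∃ b ∈ B, a = u * b) →
    ∃ u ∈ Q, ∀ a ∈ A, u * a * u⁻¹ ∈ B := by
  intro n
  induction n with
  | zero =>
    intro G _ _ Q A B _ hn
    have : 0 < Nat.card Q := Nat.card_pos
    omega
  | succ n ih =>
    intro G _ _ Q A B hQn hn hQ hA hB hAB
    by_cases hbot : Q = ⊥
    · refine ⟨1, Q.one_mem, fun a ha => ?_⟩
      obtain ⟨u, hu, b, hb, hab⟩ := hAB a ha
      rw [hbot, Subgroup.mem_bot] at hu
      rw [hu, one_mul] at hab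
      simpa [hab] using hb
    have hcopA : Nat.Coprime (Nat.card Q) (Nat.card A) := by
      obtain ⟨k, hk⟩ := IsPGroup.iff_card.mp hQ
      rw [hk]
      exact Nat.Coprime.pow_left k ((Nat.Prime.coprime_iff_not_dvd Fact.out).mpr hA)
    have hcopB : Nat.Coprime (Nat.card Q) (Nat.card B) := by
      obtain ⟨k, hk⟩ := IsPGroup.iff_card.mp hQ
      rw [hk]
      exact Nat.Coprime.pow_left k ((Nat.Prime.coprime_iff_not_dvd Fact.out).mpr hB)
    have hQB : Q ⊓ B = ⊥ := Subgroup.inf_eq_bot_of_coprime hcopB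
    let V : Subgroup G := (Subgroup.center Q).map Q.subtype
    haveI hVn : V.Normal := ConjAct.normal_of_characteristic_of_normal
    have hVQ : V ≤ Q := by
      rintro x ⟨y, _, rfl⟩
      exact y.2
    have hVp : IsPGroup p V := hQ.to_le hVQ
    by_cases hVeq : V = Q
    · -- abelian case
      have hc : ∀ x ∈ Q, ∀ y ∈ Q, x * y = y * x := by
        intro x hx y hy
        have hx' : x ∈ V := by rw [hVeq]; exact hx
        obtain ⟨x', hx', rfl⟩ := hx'
        have := (Subgroup.mem_center_iff.mp hx') ⟨y, hy⟩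
        have h2 := congrArg Subtype.val this
        exact h2.symm
      exact sz_ab Q A B hcopA hQB hc (fun a _ u hu => hQn.conj_mem u hu a) hAB
    · have hVlt : V < Q := lt_of_le_of_ne hVQ hVeq
      have hcardV : Nat.card V < Nat.card Q :=
        Set.ncard_lt_ncard (SetLike.coe_ssubset_coe.mpr hVlt) (Set.toFinite _)
      have hVnt : 1 < Nat.card V := by
        haveI : Nontrivial Q := (Subgroup.nontrivial_iff_ne_bot Q).mpr hbot
        have h1 : Nontrivial (Subgroup.center Q) := IsPGroup.center_nontrivial hQ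
        have h2 : Nat.card V = Nat.card (Subgroup.center Q) :=
          Subgroup.card_map_of_injective Q.subtype_injective
        rw [h2]
        exact Finite.one_lt_card
      -- quotient
      let f := QuotientGroup.mk' V
      have hcQ : Nat.card (Q.map f) < Nat.card Q := by
        have h1 : Nat.card (Q.map f) * Nat.card V = Nat.card Q := by
          have h3 : Nat.card (Q.map f) = V.relIndex Q := by
            rw [← Subgroup.relIndex_bot_left, ← Subgroup.map_bot f]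
            rw [Subgroup.relIndex_map_map]
            rw [QuotientGroup.ker_mk', bot_sup_eq, sup_eq_left.mpr hVQ]
          rw [h3, mul_comm]
          have := Subgroup.relIndex_mul_relIndex (⊥ : Subgroup G) V Q bot_le hVQ
          rw [Subgroup.relIndex_bot_left, Subgroup.relIndex_bot_left] at this
          exact this
        have h2 : 0 < Nat.card (Q.map f) := Nat.card_pos
        nlinarith
      haveI : (Q.map f).Normal := hQn.map f (QuotientGroup.mk'_surjective V)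
      obtain ⟨u', hu', hu'A⟩ := ih (G ⧸ V) (Q.map f) (A.map f) (B.map f)
        (by omega) (hQ.map f)
        (fun h => hA (h.trans (Subgroup.card_map_dvd A f)))
        (fun h => hB (h.trans (Subgroup.card_map_dvd B f)))
        (by
          rintro _ ⟨a, ha, rfl⟩
          obtain ⟨u, hu, b, hb, hab⟩ := hAB a ha
          exact ⟨f u, ⟨u, hu, rfl⟩, f b, ⟨b, hb, rfl⟩, by rw [hab, map_mul]⟩)
      obtain ⟨u1, hu1, rfl⟩ := hu'
      let A1 : Subgroup G := A.map (MulAut.conj u1).toMonoidHom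
      have hcA1 : Nat.card A1 = Nat.card A :=
        Subgroup.card_map_of_injective (MulAut.conj u1).injective
      obtain ⟨u2, hu2, hu2A⟩ := ih G V A1 B (by omega) hVp (by rw [hcA1]; exact hA) hB
        (by
          rintro _ ⟨a, ha, rfl⟩
          obtain ⟨b, hb, hab⟩ := hu'A (f a) ⟨a, ha, rfl⟩
          have h1 : f b = f (u1 * a * u1⁻¹) := by
            rw [hab]; simp
          have h2 : u1 * a * u1⁻¹ * b⁻¹ ∈ V := by
            have h3 : f (u1 * a * u1⁻¹ * b⁻¹) = 1 := by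
              rw [map_mul, ← h1, map_inv, mul_inv_cancel]
            exact (QuotientGroup.eq_one_iff _).mp h3
          refine ⟨u1 * a * u1⁻¹ * b⁻¹, h2, b, hb, ?_⟩
          show u1 * a * u1⁻¹ = _
          group)
      refine ⟨u2 * u1, Q.mul_mem (hVQ hu2) hu1, fun a ha => ?_⟩
      have := hu2A (u1 * a * u1⁻¹) ⟨a, ha, rfl⟩
      have h9 : u2 * u1 * a * (u2 * u1)⁻¹ = u2 * (u1 * a * u1⁻¹) * u2⁻¹ := by group
      rw [h9]
      exact this

theorem sz_conj {G : Type} [Group G] [Finite G] {p : ℕ} [Fact p.Prime] (Q A B : Subgroup G)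
    (hQ : IsPGroup p Q) (hA : ¬ p ∣ Nat.card A) (hB : ¬ p ∣ Nat.card B)
    (hAn : ∀ a ∈ A, ∀ u ∈ Q, a * u * a⁻¹ ∈ Q)
    (hBA : ∀ b ∈ B, ∃ u ∈ Q, ∃ a ∈ A, b = u * a)
    (hAB : ∀ a ∈ A, ∃ u ∈ Q, ∃ b ∈ B, a = u * b) :
    ∃ u ∈ Q, (∀ a ∈ A, u * a * u⁻¹ ∈ B) ∧ ∀ b ∈ B, u⁻¹ * b * u ∈ A := by
  let N : Subgroup G := Subgroup.normalizer Q
  have hQN : Q ≤ N := Subgroup.le_normalizer
  have hAN : A ≤ N := by
    intro a ha
    rw [Subgroup.mem_normalizer_iff]
    intro u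
    constructor
    · exact hAn a ha u
    · intro h
      have := hAn a⁻¹ (A.inv_mem ha) _ h
      simpa [mul_assoc] using this
  have hBN : B ≤ N := by
    intro b hb
    obtain ⟨u, hu, a, ha, rfl⟩ := hBA b hb
    exact N.mul_mem (hQN hu) (hAN ha)
  have hcA : Nat.card (A.subgroupOf N) = Nat.card A :=
    Nat.card_congr (Subgroup.subgroupOfEquivOfLe hAN).toEquiv
  have hcB : Nat.card (B.subgroupOf N) = Nat.card B :=
    Nat.card_congr (Subgroup.subgroupOfEquivOfLe hBN).toEquiv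
  haveI : (Q.subgroupOf N).Normal := Subgroup.normal_in_normalizer
  obtain ⟨u, hu, huA⟩ := sz_normal (p := p) (Nat.card (Q.subgroupOf N)) N (Q.subgroupOf N)
    (A.subgroupOf N) (B.subgroupOf N) le_rfl
    (hQ.of_equiv (Subgroup.subgroupOfEquivOfLe hQN).symm)
    (by rw [hcA]; exact hA) (by rw [hcB]; exact hB)
    (by
      intro a ha
      obtain ⟨u, hu, b, hb, hab⟩ := hAB a ha
      exact ⟨⟨u, hQN hu⟩, hu, ⟨b, hBN hb⟩, hb, Subtype.ext hab⟩)
  have huA' : ∀ a ∈ A, (u : G) * a * (u : G)⁻¹ ∈ B := by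
    intro a ha
    exact huA ⟨a, hAN ha⟩ ha
  have hcopB : Nat.Coprime (Nat.card Q) (Nat.card B) := by
    obtain ⟨k, hk⟩ := IsPGroup.iff_card.mp hQ
    rw [hk]
    exact Nat.Coprime.pow_left k ((Nat.Prime.coprime_iff_not_dvd Fact.out).mpr hB)
  have hQB : Q ⊓ B = ⊥ := Subgroup.inf_eq_bot_of_coprime hcopB
  have huQ : (u : G) ∈ Q := hu
  refine ⟨u, huQ, huA', ?_⟩
  intro b hb
  obtain ⟨w, hw, a, ha, hba⟩ := hBA b hb
  have h1 : b * ((u : G) * a * (u : G)⁻¹)⁻¹ ∈ Q ⊓ B := by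
    refine Subgroup.mem_inf.mpr ⟨?_, B.mul_mem hb (B.inv_mem (huA' a ha))⟩
    have h2 : b * ((u : G) * a * (u : G)⁻¹)⁻¹ = w * (a * u * a⁻¹) * (u : G)⁻¹ := by
      rw [hba]; group
    rw [h2]
    exact Q.mul_mem (Q.mul_mem hw (hAn a ha _ huQ)) (Q.inv_mem huQ)
  rw [hQB, Subgroup.mem_bot] at h1
  have h3 : b = (u : G) * a * (u : G)⁻¹ := mul_inv_eq_one.mp h1
  rw [h3]
  have h4 : (u : G)⁻¹ * ((u : G) * a * (u : G)⁻¹) * u = a := by group
  rw [h4]
  exact ha

end Pool.Agent.H33.EL
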