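import Pool.Agent.H33.EL.Fil

/-!
# EL-51: stabilisers of singular lines are parabolic

`u, v` roots with `ip u v = 1`, `f ∈ GG` maps the plane `V = K e_u + K e_v` to itself.  Then
`f ∈ Par (u + v)`.

`w = u - v` is a root (`root_sub`), `ip w u = 1`, `ip w v = -1`, `ip w (u+v) = 0`, so
`xr w s`, `xr (ng w) s` are in `Par (u+v)` (`xr_mem_Par`), and `xr w s (e v) = e v ± s e u`,
`xr w s (e u) = e u`, `xr (ng w) s (e u) = e u ± s e v`, `xr (ng w) s (e v) = e v`.
There is a product `r` of such elements such that `f' = r⁻¹ f` satisfies `f' (e u) ∈ K e_u`,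
`f' (e v) ∈ K e_v` (invertible 2x2 matrices are elementary times diagonal:
`f (e u) = x e_u + y e_v`; if `x = 0` apply first `xr w 1` to make the first coordinate non zero,
then `xr (ng w) s` kills the second; then `f (e v) = x' e_u + y' e_v`, `y' ≠ 0`, and
`xr w s` kills `x'`, without changing `K e_u`).
By `Fil_map`, `f'` maps `Fil u i` to itself and `Fil v j` to itself for all `i`, `j`.  For a root
`b` with `i = ip u b`, `j = ip v b`: `f' (e b) ∈ Fil u i ⊓ Fil v j ⊆ Fil (u+v) (i+j)`: a root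
`d` in the support has `ip u d ≥ i`, `ip v d ≥ j`; if `i + j > 0` then `i > 0` or `j > 0` so the
toral part is 0.  `mem_Par_of_root`.
-/

namespace Pool.Agent.H33.EL

variable {n : ℕ} {C : Matrix (Fin n) (Fin n) ℤ} {K : Type} [Field K] [Fintype (Rt C)]

theorem CCk_diag (H : Hyp C K) {u v : Rt C} {f : LL C K ≃ₗ[K] LL C K} (hf : f ∈ GG C K)
    {k l : K} (h1 : f (e K u) = k • e K u) (h2 : f (e K v) = l • e K v) :
    f ∈ Par C K (u.1 + v.1) := by
  apply mem_Par_of_root H hf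
  intro b
  have e1 : f (e K b) ∈ Fil C K u.1 (ip C u.1 b.1) :=
    (Fil_map H hf h1 _ _).2 (Fil_e_fil u.1 b le_rfl)
  have e2 : f (e K b) ∈ Fil C K v.1 (ip C v.1 b.1) :=
    (Fil_map H hf h2 _ _).2 (Fil_e_fil v.1 b le_rfl)
  refine ⟨fun d hd => ?_, fun hk => ?_⟩
  · rw [ip_add_left, ip_add_left] at hd
    by_cases hu : ip C u.1 d.1 < ip C u.1 b.1
    · exact e1.1 d hu
    · exact e2.1 d (by omega)
  · rw [ip_add_left] at hk
    by_cases hu : 0 < ip C u.1 b.1
    · exact e1.2 hu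
    · exact e2.2 (by omega)

/-- data of the two opposite root groups -/
structure CCkD (H : Hyp C K) (u v : Rt C) (w w' : Rt C) (c c' : K) : Prop where
  c0 : c ≠ 0
  c1 : c' ≠ 0
  par : ∀ s : K, xr w s ∈ Par C K (u.1 + v.1)
  par' : ∀ s : K, xr w' s ∈ Par C K (u.1 + v.1)
  eu : ∀ s : K, xr w s (e K u) = e K u
  ev : ∀ s : K, xr w s (e K v) = e K v + (s * c) • e K u
  eu' : ∀ s : K, xr w' s (e K u) = e K u + (s * c') • e K v
  ev' : ∀ s : K, xr w' s (e K v) = e K v

theorem CCk_data (H : Hyp C K) {u v : Rt C} (huv : ip C u.1 v.1 = 1) :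
    ∃ w w' c c', CCkD H u v w w' c c' := by
  have huu : ip C u.1 u.1 = 2 := u.2
  have hvv : ip C v.1 v.1 = 2 := v.2
  have hvu : ip C v.1 u.1 = 1 := by rw [ip_comm H.symm]; exact huv
  have a1 : ip C (u.1 - v.1) u.1 = 1 := by rw [ip_sub_left]; omega
  have a2 : ip C (u.1 - v.1) v.1 = -1 := by rw [ip_sub_left]; omega
  have a3 : ip C (v.1 - u.1) u.1 = -1 := by rw [ip_sub_left]; omega
  have a4 : ip C (v.1 - u.1) v.1 = 1 := by rw [ip_sub_left]; omega
  have a5 : ip C (u.1 + v.1) (u.1 - v.1) = 0 := by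
    rw [ip_add_left, ip_sub_right, ip_sub_right]; omega
  have a6 : ip C (u.1 + v.1) (v.1 - u.1) = 0 := by
    rw [ip_add_left, ip_sub_right, ip_sub_right]; omega
  set w : Rt C := ⟨u.1 - v.1, root_sub H huv⟩ with hw
  set w' : Rt C := ⟨v.1 - u.1, root_sub H hvu⟩ with hw'
  refine ⟨w, w', ek K C w.1 v.1, ek K C w'.1 u.1, ek_ne_zero _ _, ek_ne_zero _ _,
    fun s => xr_mem_Par H _ w s a5.ge, fun s => xr_mem_Par H _ w' s a6.ge,
    fun s => xr_e_nonneg H w s ?_, fun s => xr_e_add H w s ?_, fun s => xr_e_add H w' s ?_,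
    fun s => xr_e_nonneg H w' s ?_⟩
  · show 0 ≤ ip C (u.1 - v.1) u.1
    omega
  · show u.1 = u.1 - v.1 + v.1
    abel
  · show v.1 = v.1 - u.1 + u.1
    abel
  · show 0 ≤ ip C (v.1 - u.1) v.1
    omega

theorem CCk_par {d : Fin n → ℤ} {f r : LL C K ≃ₗ[K] LL C K}
    (hr : r ∈ Par C K d) (h : r * f ∈ Par C K d) : f ∈ Par C K d :=
  (Subgroup.mul_mem_cancel_left _ hr).1 h

theorem CCk_tri (H : Hyp C K) {u v w w' : Rt C} {c c' : K} (D : CCkD H u v w w' c c')
    {f : LL C K ≃ₗ[K] LL C K} (hf : f ∈ GG C K) {k x y : K} (h1 : f (e K u) = k • e K u)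
    (h2 : f (e K v) = x • e K u + y • e K v) (huv : u ≠ v) : f ∈ Par C K (u.1 + v.1) := by
  have hk : k ≠ 0 := by
    rintro rfl
    rw [zero_smul] at h1
    exact e_ne_zero u (f.map_eq_zero_iff.1 h1)
  have hy : y ≠ 0 := by
    rintro rfl
    rw [zero_smul, add_zero] at h2
    have h3 : f (e K v - (x * k⁻¹) • e K u) = 0 := by
      rw [map_sub, map_smul, h1, h2, smul_smul, mul_assoc, inv_mul_cancel₀ hk, mul_one, sub_self]
    have h4 := f.map_eq_zero_iff.1 h3
    have h5 := congrArg (fun z : LL C K => z.2 v) h4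
    simp only [Prod.snd_sub, Pi.sub_apply, Prod.smul_snd, Pi.smul_apply] at h5
    rw [e_snd_self, e_snd_ne huv.symm, smul_zero, sub_zero] at h5
    exact one_ne_zero h5
  have hc := D.c0
  refine CCk_par (D.par (-(x / (y * c)))) ?_
  have hr : xr w (-(x / (y * c))) ∈ GG C K := xr_mem_GG H _ _
  refine CCk_diag H (mul_mem hr hf) (k := k) (l := y) ?_ ?_
  · rw [LinearEquiv.mul_apply, h1, map_smul, D.eu]
  · rw [LinearEquiv.mul_apply, h2, map_add, map_smul, map_smul, D.eu, D.ev, smul_add, smul_smul,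
      add_comm (y • e K v), ← add_assoc, ← add_smul]
    have : x + y * (-(x / (y * c)) * c) = 0 := by
      field_simp
      ring
    rw [this, zero_smul, zero_add]

theorem CCk_ne (H : Hyp C K) {u v w w' : Rt C} {c c' : K} (D : CCkD H u v w w' c c')
    {f : LL C K ≃ₗ[K] LL C K} (hf : f ∈ GG C K) {x y x' y' : K} (hx : x ≠ 0)
    (h1 : f (e K u) = x • e K u + y • e K v)
    (h2 : f (e K v) = x' • e K u + y' • e K v) (huv : u ≠ v) : f ∈ Par C K (u.1 + v.1) := by
  have hc := D.c1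
  refine CCk_par (D.par' (-(y / (x * c')))) ?_
  have hr : xr w' (-(y / (x * c'))) ∈ GG C K := xr_mem_GG H _ _
  refine CCk_tri H D (mul_mem hr hf) (k := x) (x := x')
    (y := x' * (-(y / (x * c')) * c') + y') ?_ ?_ huv
  · rw [LinearEquiv.mul_apply, h1, map_add, map_smul, map_smul, D.eu', D.ev', smul_add,
      smul_smul, add_assoc, ← add_smul]
    have : x * (-(y / (x * c')) * c') + y = 0 := by
      field_simp
      ring
    rw [this, zero_smul, add_zero]
  · rw [LinearEquiv.mul_apply, h2, map_add, map_smul, map_smul, D.eu', D.ev', smul_add,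
      smul_smul, add_assoc, ← add_smul]

theorem par_line (H : Hyp C K) {u v : Rt C} (huv : ip C u.1 v.1 = 1)
    {f : LL C K ≃ₗ[K] LL C K} (hf : f ∈ GG C K)
    (h1 : f (e K u) ∈ Submodule.span K {e K u, e K v})
    (h2 : f (e K v) ∈ Submodule.span K {e K u, e K v}) : f ∈ Par C K (u.1 + v.1) := by
  obtain ⟨x, y, hxy⟩ := Submodule.mem_span_pair.1 h1
  obtain ⟨x', y', hxy'⟩ := Submodule.mem_span_pair.1 h2
  obtain ⟨w, w', c, c', D⟩ := CCk_data H huv
  have hne : u ≠ v := by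
    rintro rfl
    have huu : ip C u.1 u.1 = 2 := u.2
    omega
  by_cases hx : x = 0
  · have hy : y ≠ 0 := by
      rintro rfl
      rw [hx, zero_smul, zero_smul, add_zero] at hxy
      exact e_ne_zero u (f.map_eq_zero_iff.1 hxy.symm)
    have hr : xr w (1 : K) ∈ GG C K := xr_mem_GG H _ _
    refine CCk_par (D.par 1) (CCk_ne H D (mul_mem hr hf) (x := y * c) (y := y)
      (x' := x' + y' * c) (y' := y') (mul_ne_zero hy D.c0) ?_ ?_ hne)
    · rw [LinearEquiv.mul_apply, ← hxy, hx, zero_smul, zero_add, map_smul, D.ev, smul_add,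
        smul_smul, one_mul, add_comm]
    · rw [LinearEquiv.mul_apply, ← hxy', map_add, map_smul, map_smul, D.eu, D.ev, smul_add,
        smul_smul, one_mul, add_comm (y' • e K v), ← add_assoc, ← add_smul]
  · exact CCk_ne H D hf hx hxy.symm hxy'.symm hne

end Pool.Agent.H33.EL
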