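import Mathlib

/-!
# EL-48: the plane theorem

`K` a finite field with at least 7 elements, `Γ ≤ GL_3(K)` containing all diagonal matrices.
(F1) an element of `Γ` which fixes a coordinate point `[e_j]` is monomial; (F3) if `g ∈ Γ`, `d`
diagonal not scalar and `g⁻¹ d g` diagonal then `g` is monomial.  Then all elements of `Γ` are
monomial.

Proof.  Suppose `g0 ∈ Γ` is not monomial; choose a column `i` of `g0` with at least two non zero
entries, `y = g0 e_i`.  Call a non zero vector of `K^3` (point of the plane) a vertex, side point,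
interior point if it has exactly 1, 2, 3 non zero coordinates.
(1) For `g ∈ Γ` no `g e_j` is a side point.  Let `g e_j` have exactly one zero coordinate, the
two non zero coordinates in the places `k, l`.  Let `d = diag` with `d_k = d_l = 1` and the third
entry `z` with `z² ≠ 1`, `z ≠ 0`.  `d g e_j = g e_j`, so `g⁻¹ d g` fixes `e_j`, so it is monomial
(F1), and its permutation fixes `j`, so its square `g⁻¹ d² g` is diagonal (the permutation is
trivial or a transposition).  `d²` is not scalar, so `g` is monomial by (F3), but then `g e_j` is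
a vertex, contradiction.
(2) So `y` is interior.  Let `O = {v : v is a non zero multiple of g e_i, g ∈ Γ}`.  All interior
vectors are in `O`: `v = d y` with `d` diagonal.  No side point is in `O`.
(3) For `λ ≠ 0` let `W_λ` be the plane spanned by `e_i` and `w_λ = e_k + λ e_l`
(`{i,k,l} = {0,1,2}`).  The points of `W_λ` not in `O` are at most one: a vector `x e_i + y w_λ`
with `x, y ≠ 0` is interior, `e_i ∈ O`; so only the multiples of `w_λ` remain.
`g0 W_λ` also has at most one point not in `O`.  If `g0 W_λ` contains no vertex, then it meets each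
of the three coordinate planes `{v_m = 0}` in exactly one point, which is a side point; these three
points are different (a common point of two coordinate planes is a vertex), contradiction (they
are not in `O`).  So `g0 W_λ` contains a vertex `e_(j(λ))`.  There are `|K| - 1 ≥ 4` values of `λ`,
so there are `λ ≠ μ` with `j(λ) = j(μ)`; `y` and `e_(j(λ))` are independent, so
`g0 W_λ = g0 W_μ`, `W_λ = W_μ`, contradiction.
-/

namespace Pool.Agent.H33.EL

/-- monomial matrix: at most one non zero entry in each column -/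
def Mono {K : Type} [Field K] (g : Matrix (Fin 3) (Fin 3) K) : Prop :=
  ∀ j, ∃ i, ∀ k, k ≠ i → g k j = 0

theorem GrpT_ex {K : Type} [Field K] [Finite K] (hq : 7 ≤ Nat.card K) (a b c d : K) :
    ∃ t : K, t ≠ a ∧ t ≠ b ∧ t ≠ c ∧ t ≠ d := by
  classical
  have := Fintype.ofFinite K
  by_contra hcon
  have hsub : (Finset.univ : Finset K) ⊆ {a, b, c, d} := by
    intro t _
    by_contra ht
    simp only [Finset.mem_insert, Finset.mem_singleton, not_or] at ht
    exact hcon ⟨t, ht⟩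
  have h1 := Finset.card_le_card hsub
  have h2 : ({a, b, c, d} : Finset K).card ≤ 4 := Finset.card_le_four
  rw [Finset.card_univ, ← Nat.card_eq_fintype_card] at h1
  omega

/-- the invertible diagonal matrix -/
def GrpT_d {K : Type} [Field K] (v : Fin 3 → K) (hv : ∀ i, v i ≠ 0) :
    (Matrix (Fin 3) (Fin 3) K)ˣ where
  val := Matrix.diagonal v
  inv := Matrix.diagonal fun i => (v i)⁻¹
  val_inv := by
    rw [Matrix.diagonal_mul_diagonal, ← Matrix.diagonal_one]
    congr 1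
    funext i
    exact mul_inv_cancel₀ (hv i)
  inv_val := by
    rw [Matrix.diagonal_mul_diagonal, ← Matrix.diagonal_one]
    congr 1
    funext i
    exact inv_mul_cancel₀ (hv i)

theorem GrpT_fin : ∀ s : Fin 3 → Fin 3, (∀ a b, s a = s b → a = b) → ∀ j, s j = j →
    ∀ b, s (s b) = b := by
  decide

theorem GrpT_zero {K : Type} [Field K] [Finite K] (hq : 7 ≤ Nat.card K)
    (Γ : Subgroup (Matrix (Fin 3) (Fin 3) K)ˣ)
    (hD : ∀ g : (Matrix (Fin 3) (Fin 3) K)ˣ, (g : Matrix (Fin 3) (Fin 3) K).IsDiag → g ∈ Γ)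
    (h1 : ∀ g ∈ Γ, ∀ j : Fin 3, (∀ k, k ≠ j → (g : Matrix (Fin 3) (Fin 3) K) k j = 0) →
      Mono (g : Matrix (Fin 3) (Fin 3) K))
    (h3 : ∀ g ∈ Γ, ∀ d : (Matrix (Fin 3) (Fin 3) K)ˣ,
      (d : Matrix (Fin 3) (Fin 3) K).IsDiag →
      (∃ i j, (d : Matrix (Fin 3) (Fin 3) K) i i ≠ (d : Matrix (Fin 3) (Fin 3) K) j j) →
      ((g⁻¹ * d * g : (Matrix (Fin 3) (Fin 3) K)ˣ) : Matrix (Fin 3) (Fin 3) K).IsDiag →
      Mono (g : Matrix (Fin 3) (Fin 3) K))
    (g : (Matrix (Fin 3) (Fin 3) K)ˣ) (hg : g ∈ Γ) (m j : Fin 3)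
    (h0 : (g : Matrix (Fin 3) (Fin 3) K) m j = 0) : Mono (g : Matrix (Fin 3) (Fin 3) K) := by
  obtain ⟨z, hz0, hz1, hz2, -⟩ := GrpT_ex hq 0 1 (-1) 0
  have hv : ∀ i : Fin 3, (fun t : Fin 3 => if t = m then z else 1) i ≠ 0 := by
    intro i
    by_cases hi : i = m
    · simp [hi, hz0]
    · simp [hi]
  set d := GrpT_d (fun t : Fin 3 => if t = m then z else 1) hv with hd
  have hdv : (d : Matrix (Fin 3) (Fin 3) K) =
      Matrix.diagonal (fun t : Fin 3 => if t = m then z else 1) := rfl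
  set h := g⁻¹ * d * g with hh
  have hdm : d ∈ Γ := hD d (by rw [hdv]; exact Matrix.isDiag_diagonal _)
  have hm : h ∈ Γ := Γ.mul_mem (Γ.mul_mem (Γ.inv_mem hg) hdm) hg
  have hcol : ∀ k, (h : Matrix (Fin 3) (Fin 3) K) k j = (1 : Matrix (Fin 3) (Fin 3) K) k j := by
    intro k
    have e1 : (1 : Matrix (Fin 3) (Fin 3) K) =
        ((g⁻¹ : (Matrix (Fin 3) (Fin 3) K)ˣ) : Matrix (Fin 3) (Fin 3) K) *
          (g : Matrix (Fin 3) (Fin 3) K) := (Units.inv_mul g).symm
    have e2 : (h : Matrix (Fin 3) (Fin 3) K) =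
        ((g⁻¹ : (Matrix (Fin 3) (Fin 3) K)ˣ) : Matrix (Fin 3) (Fin 3) K) *
          ((d : Matrix (Fin 3) (Fin 3) K) * (g : Matrix (Fin 3) (Fin 3) K)) := by
      rw [hh, Units.val_mul, Units.val_mul, Matrix.mul_assoc]
    rw [e1, e2, Matrix.mul_apply, Matrix.mul_apply]
    refine Finset.sum_congr rfl fun c _ => ?_
    have e3 : ((d : Matrix (Fin 3) (Fin 3) K) * (g : Matrix (Fin 3) (Fin 3) K)) c j =
        (g : Matrix (Fin 3) (Fin 3) K) c j := by
      rw [hdv, Matrix.diagonal_mul]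
      by_cases hc : c = m
      · rw [hc, h0, mul_zero]
      · rw [if_neg hc, one_mul]
    rw [e3]
  have hmono := h1 h hm j (fun k hk => by rw [hcol, Matrix.one_apply_ne hk])
  choose s hs using hmono
  have hmul : ∀ (N : Matrix (Fin 3) (Fin 3) K) (a b : Fin 3),
      (N * (h : Matrix (Fin 3) (Fin 3) K)) a b =
        N a (s b) * (h : Matrix (Fin 3) (Fin 3) K) (s b) b := by
    intro N a b
    rw [Matrix.mul_apply]
    refine Finset.sum_eq_single (s b) ?_ ?_
    · intro c _ hc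
      rw [hs b c hc, mul_zero]
    · intro hc
      exact absurd (Finset.mem_univ _) hc
  have hii : ((h⁻¹ : (Matrix (Fin 3) (Fin 3) K)ˣ) : Matrix (Fin 3) (Fin 3) K) *
      (h : Matrix (Fin 3) (Fin 3) K) = 1 := Units.inv_mul h
  have hinj : ∀ a b, s a = s b → a = b := by
    intro b c hbc
    by_contra hne
    have e1 := hmul ((h⁻¹ : (Matrix (Fin 3) (Fin 3) K)ˣ) : Matrix (Fin 3) (Fin 3) K) c b
    have e2 := hmul ((h⁻¹ : (Matrix (Fin 3) (Fin 3) K)ˣ) : Matrix (Fin 3) (Fin 3) K) b b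
    have e3 := hmul ((h⁻¹ : (Matrix (Fin 3) (Fin 3) K)ˣ) : Matrix (Fin 3) (Fin 3) K) c c
    rw [hii, Matrix.one_apply_ne (fun e => hne e.symm)] at e1
    rw [hii, Matrix.one_apply_eq] at e2
    rw [hii, Matrix.one_apply_eq, ← hbc] at e3
    have e4 : (h : Matrix (Fin 3) (Fin 3) K) (s b) b ≠ 0 := by
      intro e
      rw [e, mul_zero] at e2
      exact one_ne_zero e2
    have e5 := (mul_eq_zero.1 e1.symm).resolve_right e4
    rw [e5, zero_mul] at e3
    exact one_ne_zero e3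
  have hsj : s j = j := by
    by_contra hne
    have e1 := hs j j (fun e => hne e.symm)
    rw [hcol, Matrix.one_apply_eq] at e1
    exact one_ne_zero e1
  have hss := GrpT_fin s hinj j hsj
  have hsq : ((h * h : (Matrix (Fin 3) (Fin 3) K)ˣ) : Matrix (Fin 3) (Fin 3) K).IsDiag := by
    intro a b hab
    rw [Units.val_mul, hmul]
    have : (h : Matrix (Fin 3) (Fin 3) K) a (s b) = 0 := by
      apply hs
      rw [hss]
      exact hab
    rw [this, zero_mul]
  have hgrp : g⁻¹ * (d * d) * g = h * h := by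
    rw [hh]
    group
  refine h3 g hg (d * d) ?_ ?_ ?_
  · rw [Units.val_mul, hdv, Matrix.diagonal_mul_diagonal]
    exact Matrix.isDiag_diagonal _
  · obtain ⟨l, hl⟩ : ∃ l : Fin 3, l ≠ m := exists_ne m
    refine ⟨m, l, ?_⟩
    rw [Units.val_mul, hdv, Matrix.diagonal_mul_diagonal, Matrix.diagonal_apply_eq,
      Matrix.diagonal_apply_eq, if_pos rfl, if_neg hl]
    intro e
    have e1 : (z - 1) * (z + 1) = 0 := by linear_combination e
    rcases mul_eq_zero.1 e1 with e2 | e2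
    · exact hz1 (sub_eq_zero.1 e2)
    · exact hz2 (eq_neg_of_add_eq_zero_left e2)
  · rw [hgrp]
    exact hsq

theorem plane {K : Type} [Field K] [Finite K] (hq : 7 ≤ Nat.card K)
    (Γ : Subgroup (Matrix (Fin 3) (Fin 3) K)ˣ)
    (hD : ∀ g : (Matrix (Fin 3) (Fin 3) K)ˣ, (g : Matrix (Fin 3) (Fin 3) K).IsDiag → g ∈ Γ)
    (h1 : ∀ g ∈ Γ, ∀ j : Fin 3, (∀ k, k ≠ j → (g : Matrix (Fin 3) (Fin 3) K) k j = 0) →
      Mono (g : Matrix (Fin 3) (Fin 3) K))
    (h3 : ∀ g ∈ Γ, ∀ d : (Matrix (Fin 3) (Fin 3) K)ˣ,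
      (d : Matrix (Fin 3) (Fin 3) K).IsDiag →
      (∃ i j, (d : Matrix (Fin 3) (Fin 3) K) i i ≠ (d : Matrix (Fin 3) (Fin 3) K) j j) →
      ((g⁻¹ * d * g : (Matrix (Fin 3) (Fin 3) K)ˣ) : Matrix (Fin 3) (Fin 3) K).IsDiag →
      Mono (g : Matrix (Fin 3) (Fin 3) K)) :
    ∀ g ∈ Γ, Mono (g : Matrix (Fin 3) (Fin 3) K) := by
  intro g hg
  by_contra hnot
  have hz := GrpT_zero hq Γ hD h1 h3
  have hnz : ∀ a b, (g : Matrix (Fin 3) (Fin 3) K) a b ≠ 0 := fun a b h => hnot (hz g hg a b h)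
  set G : Matrix (Fin 3) (Fin 3) K := (g : Matrix (Fin 3) (Fin 3) K) with hG
  -- the affine functions
  let A : Fin 3 → K := fun k => G k 0 - G k 2 * G 0 0 / G 0 2
  let B : Fin 3 → K := fun k => G k 1 - G k 2 * G 0 1 / G 0 2
  have hAB : ∀ k : Fin 3, k ≠ 0 → ¬ (A k = 0 ∧ B k = 0) := by
    rintro k hk ⟨hA, hB⟩
    have hrow : ∀ j : Fin 3, G k j = G k 2 / G 0 2 * G 0 j := by
      intro j
      have h02 := hnz 0 2
      fin_cases j
      · change G k 0 = G k 2 / G 0 2 * G 0 0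
        have : G k 0 - G k 2 * G 0 0 / G 0 2 = 0 := hA
        rw [sub_eq_zero] at this
        rw [this]
        ring
      · change G k 1 = G k 2 / G 0 2 * G 0 1
        have : G k 1 - G k 2 * G 0 1 / G 0 2 = 0 := hB
        rw [sub_eq_zero] at this
        rw [this]
        ring
      · change G k 2 = G k 2 / G 0 2 * G 0 2
        field_simp
    have hinv : G * ((g⁻¹ : (Matrix (Fin 3) (Fin 3) K)ˣ) : Matrix (Fin 3) (Fin 3) K) = 1 :=
      Units.mul_inv g
    have hlin : ∀ j : Fin 3, (1 : Matrix (Fin 3) (Fin 3) K) k j =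
        G k 2 / G 0 2 * (1 : Matrix (Fin 3) (Fin 3) K) 0 j := by
      intro j
      rw [← hinv, Matrix.mul_apply, Matrix.mul_apply, Finset.mul_sum]
      refine Finset.sum_congr rfl fun c _ => ?_
      rw [hrow c]
      ring
    have e1 := hlin 0
    rw [Matrix.one_apply_ne hk, Matrix.one_apply_eq, mul_one] at e1
    have e2 := hlin k
    rw [← e1, zero_mul, Matrix.one_apply_eq] at e2
    exact one_ne_zero e2
  obtain ⟨t, ht0, ht1, ht2, ht3⟩ := GrpT_ex hq 0 (-(G 0 0) / G 0 1) (-(A 1) / B 1) (-(A 2) / B 2)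
  have hw : G 0 0 + G 0 1 * t ≠ 0 := by
    intro e
    apply ht1
    rw [eq_div_iff (hnz 0 1)]
    linear_combination e
  have hk : ∀ k : Fin 3, k ≠ 0 → t ≠ -(A k) / B k → A k + B k * t ≠ 0 := by
    intro k hk hne e
    by_cases hB : B k = 0
    · rw [hB, zero_mul, add_zero] at e
      exact hAB k hk ⟨e, hB⟩
    · apply hne
      rw [eq_div_iff hB]
      linear_combination e
  let v : Fin 3 → K := ![1 / G 0 0, t / G 1 0, -(G 0 0 + G 0 1 * t) / G 0 2 / G 2 0]
  have hv : ∀ i, v i ≠ 0 := by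
    intro i
    fin_cases i
    · exact div_ne_zero one_ne_zero (hnz 0 0)
    · exact div_ne_zero ht0 (hnz 1 0)
    · exact div_ne_zero (div_ne_zero (neg_ne_zero.2 hw) (hnz 0 2)) (hnz 2 0)
  have hdm : GrpT_d v hv ∈ Γ := hD _ (Matrix.isDiag_diagonal v)
  have hγ : g * GrpT_d v hv * g ∈ Γ := Γ.mul_mem (Γ.mul_mem hg hdm) hg
  have hent : ∀ k : Fin 3, ((g * GrpT_d v hv * g : (Matrix (Fin 3) (Fin 3) K)ˣ) :
      Matrix (Fin 3) (Fin 3) K) k 0 = A k + B k * t := by
    intro k
    have e0 : ((g * GrpT_d v hv * g : (Matrix (Fin 3) (Fin 3) K)ˣ) :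
      Matrix (Fin 3) (Fin 3) K) = G * Matrix.diagonal v * G := by
      rw [Units.val_mul, Units.val_mul]
      rfl
    rw [e0, Matrix.mul_apply, Fin.sum_univ_three, Matrix.mul_diagonal, Matrix.mul_diagonal,
      Matrix.mul_diagonal]
    change G k 0 * (1 / G 0 0) * G 0 0 + G k 1 * (t / G 1 0) * G 1 0 +
      G k 2 * (-(G 0 0 + G 0 1 * t) / G 0 2 / G 2 0) * G 2 0 =
      (G k 0 - G k 2 * G 0 0 / G 0 2) + (G k 1 - G k 2 * G 0 1 / G 0 2) * t
    have a0 := hnz 0 0
    have a1 := hnz 1 0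
    have a2 := hnz 2 0
    have a3 := hnz 0 2
    field_simp
    ring
  have h00 : ((g * GrpT_d v hv * g : (Matrix (Fin 3) (Fin 3) K)ˣ) :
      Matrix (Fin 3) (Fin 3) K) 0 0 = 0 := by
    rw [hent]
    change (G 0 0 - G 0 2 * G 0 0 / G 0 2) + (G 0 1 - G 0 2 * G 0 1 / G 0 2) * t = 0
    have a3 := hnz 0 2
    field_simp
    ring
  obtain ⟨i, hi⟩ := hz _ hγ 0 0 h00 0
  have b1 := hk 1 (by decide) ht2
  have b2 := hk 2 (by decide) ht3
  rw [← hent] at b1 b2
  by_cases hi1 : (1 : Fin 3) = i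
  · have : (2 : Fin 3) ≠ i := by
      rw [← hi1]
      decide
    exact b2 (hi 2 this)
  · exact b1 (hi 1 hi1)

end Pool.Agent.H33.EL
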