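import Pool.Agent.H33.EL.CCi
import Pool.Agent.H33.EL.CCk
import Pool.Agent.H33.EL.GrpT

/-!
# EL-52: the case A_2

`PZ F = {±a,±b,±c}`, `c = a + b`.  By `mZ_inv` and `conj_or_graph` every `f ∈ F` is of type `Cj` or
`Aj`.  `F+ = {f ∈ F : ∃ g, Cj g f}` is a subgroup, normal in `F` (`Aj f`: `f u f⁻¹` is of type `Cj`
for `u` of type `Cj`), contains `T1` (`J_TT`, choose `g` diagonal with the given ratios), so
`F+ = F` (`no_normal`).
`Γ = {g : ∃ f ∈ F, Cj g f}` is a subgroup of `GL_3(K)` (`Cj_mul`, `Cj_inv`, `Cj_one`).  It contains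
all diagonal matrices (`T1_surj2` for `a`, `b`, `ip a b = -1`; `J_TT`).
`mono_iff`: if `Cj g f`, `f ∈ F`: `f ∈ NN` implies `Mono g`: `f` maps root vectors to multiples of
root vectors (`NN_perm`, `PZ_perm`), so `g E_ij g⁻¹` is a multiple of a matrix unit for all
`i ≠ j` (`J_root`, `J_unit`, `J_inj`), and the columns of `g E_ij g⁻¹` are multiples of the column
`i` of `g`: so it has one non zero entry.  Conversely `Mono g` implies that `f` permutes the six
root lines, so `f ∈ NN` (`mem_NN_of_lines`, `mZ_inv`).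
(F1) Let `j : Fin 3`, `F_j = {f ∈ F : ∃ g, Cj g f ∧ g fixes the point [e_j]}`, a subgroup which
contains `T1`.  If `F_j = F`: `f ∈ F` maps `V_j = {Jm (x) : x has only row j, x_jj = 0}` to itself
(`g E_jk g⁻¹` has only row `j` non zero as `g e_j ∝ e_j`, and trace 0), `V_j = K e_u + K e_v` with
`(u,v) = (a,c), (ng a, b), (ng c, ng b)` for `j = 0,1,2`, `ip u v = 1`.  By `par_line`
`F ≤ Par (u+v)`, by `fp` `hd (u+v) x ∈ Z` for all `x`, so its weight `x^3` at `u ∈ PZ F` is 1 for all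
`x ≠ 0`, contradiction to `|K^*| ≥ 6`.  So `F_j ≠ F`, `F_j ≤ NN` (`hmin`), and for `g ∈ Γ`
fixing `[e_j]`: `Mono g` (`mono_iff`; note: for `g ∈ Γ`, `f ∈ F` with `Cj g f`: `f ∈ F_j`).
(F3) Let `g ∈ Γ`, `Cj g f`, `d` diagonal not scalar, `g⁻¹ d g` diagonal, `t ∈ T1` with `Cj d t`.
`t ∉ Z` (a weight `d_i/d_j ≠ 1` at a root in `PZ F`).  `s = f⁻¹ t f` is `Cj (g⁻¹ d g)`, so it maps
each root vector in `PZ F` to a multiple of itself, `s ∈ NN` (`mem_NN_of_lines`).  Suppose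
`f ∉ NN`; then `f⁻¹ ∉ NN`.  For `t' ∈ T1`: `t' s t'⁻¹ s⁻¹ ∈ TT` has weight 1 at all `u ∈ PZ F`
(`wt_conj`), so it is in `Z` (`t0`); by `c3a` (`x = f⁻¹`, `s := t`) `f t' f⁻¹ ∈ NN` for all
`t' ∈ T1`, contradiction to `c3b` for `x = f⁻¹`.  So `f ∈ NN` and `Mono g`.
`plane` gives: all `g ∈ Γ` are monomial, so `F ≤ NN`: contradiction.
-/

namespace Pool.Agent.H33.EL

variable {n : ℕ} {C : Matrix (Fin n) (Fin n) ℤ} {K : Type} [Field K] [Fintype (Rt C)]
variable {F : Subgroup (LL C K ≃ₗ[K] LL C K)}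

theorem CCj_diag_ne {g : (Matrix (Fin 3) (Fin 3) K)ˣ}
    (hg : (g : Matrix (Fin 3) (Fin 3) K).IsDiag) (i : Fin 3) :
    (g : Matrix (Fin 3) (Fin 3) K) i i ≠ 0 := by
  intro h0
  have h1 : ((g : Matrix (Fin 3) (Fin 3) K) *
      ((g⁻¹ : (Matrix (Fin 3) (Fin 3) K)ˣ) : Matrix (Fin 3) (Fin 3) K)) i i = 1 := by
    rw [Units.mul_inv, Matrix.one_apply_eq]
  rw [Matrix.mul_apply, Finset.sum_eq_zero] at h1
  · exact zero_ne_one h1
  · intro k _
    by_cases hk : k = i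
    · rw [hk, h0, zero_mul]
    · rw [hg (Ne.symm hk), zero_mul]

theorem CCj_unit (v : Fin 3 → K) (hv : ∀ i, v i ≠ 0) :
    ∃ g : (Matrix (Fin 3) (Fin 3) K)ˣ, (g : Matrix (Fin 3) (Fin 3) K) = Matrix.diagonal v := by
  have h : IsUnit (Matrix.diagonal v) := by
    rw [Matrix.isUnit_iff_isUnit_det, Matrix.det_diagonal, isUnit_iff_ne_zero]
    exact Finset.prod_ne_zero_iff.mpr fun i _ => hv i
  exact ⟨h.unit, rfl⟩

theorem CCj_conj (g : (Matrix (Fin 3) (Fin 3) K)ˣ) {M N : Matrix (Fin 3) (Fin 3) K}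
    (h : (g : Matrix (Fin 3) (Fin 3) K) * M = N * g) :
    (g : Matrix (Fin 3) (Fin 3) K) * M * ((g⁻¹ : (Matrix (Fin 3) (Fin 3) K)ˣ) :
      Matrix (Fin 3) (Fin 3) K) = N := by
  rw [h, mul_assoc, Units.mul_inv, mul_one]

theorem CCj_col {g : (Matrix (Fin 3) (Fin 3) K)ˣ} {i j : Fin 3}
    (h : ∀ k, k ≠ i → (g : Matrix (Fin 3) (Fin 3) K) k j = 0) :
    (g : Matrix (Fin 3) (Fin 3) K) i j ≠ 0 := by
  intro h0
  have h1 : (((g⁻¹ : (Matrix (Fin 3) (Fin 3) K)ˣ) : Matrix (Fin 3) (Fin 3) K) *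
      (g : Matrix (Fin 3) (Fin 3) K)) j j = 1 := by
    rw [Units.inv_mul, Matrix.one_apply_eq]
  rw [Matrix.mul_apply, Finset.sum_eq_zero] at h1
  · exact zero_ne_one h1
  · intro k _
    by_cases hk : k = i
    · rw [hk, h0, mul_zero]
    · rw [h k hk, mul_zero]

theorem CCj_perm {g : (Matrix (Fin 3) (Fin 3) K)ˣ} (hg : Mono (g : Matrix (Fin 3) (Fin 3) K)) :
    ∃ π : Fin 3 → Fin 3, Function.Bijective π ∧
      ∀ i j, i ≠ π j → (g : Matrix (Fin 3) (Fin 3) K) i j = 0 := by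
  choose π hπ using hg
  have hs : Function.Surjective π := by
    intro i
    by_contra hcon
    push Not at hcon
    have h1 : ((g : Matrix (Fin 3) (Fin 3) K) *
        ((g⁻¹ : (Matrix (Fin 3) (Fin 3) K)ˣ) : Matrix (Fin 3) (Fin 3) K)) i i = 1 := by
      rw [Units.mul_inv, Matrix.one_apply_eq]
    rw [Matrix.mul_apply, Finset.sum_eq_zero] at h1
    · exact zero_ne_one h1
    · intro k _
      rw [hπ k i (hcon k).symm, zero_mul]
  exact ⟨π, ⟨Finite.injective_iff_surjective.mpr hs, hs⟩, fun i j hij => hπ j i hij⟩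

theorem CCj_perm_conj {g : (Matrix (Fin 3) (Fin 3) K)ˣ} {π : Fin 3 → Fin 3}
    (hπi : Function.Injective π)
    (hπ : ∀ i j, i ≠ π j → (g : Matrix (Fin 3) (Fin 3) K) i j = 0) (l m : Fin 3) :
    ∃ k : K, (g : Matrix (Fin 3) (Fin 3) K) * Matrix.single l m 1 *
      ((g⁻¹ : (Matrix (Fin 3) (Fin 3) K)ˣ) : Matrix (Fin 3) (Fin 3) K) =
        k • Matrix.single (π l) (π m) 1 := by
  have hm : (g : Matrix (Fin 3) (Fin 3) K) (π m) m ≠ 0 := CCj_col (fun k hk => hπ k m hk)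
  refine ⟨(g : Matrix (Fin 3) (Fin 3) K) (π l) l / (g : Matrix (Fin 3) (Fin 3) K) (π m) m,
    CCj_conj g ?_⟩
  ext i j
  rw [Matrix.smul_mul, Matrix.smul_apply, smul_eq_mul]
  by_cases hj : j = m
  · subst hj
    rw [Matrix.mul_single_apply_same, mul_one]
    by_cases hi : i = π l
    · subst hi
      rw [Matrix.single_mul_apply_same, one_mul, div_mul_cancel₀ _ hm]
    · rw [Matrix.single_mul_apply_of_ne _ _ _ _ _ hi, mul_zero, hπ i l hi]
  · rw [Matrix.mul_single_apply_of_ne _ _ _ _ _ hj]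
    by_cases hi : i = π l
    · subst hi
      rw [Matrix.single_mul_apply_same, hπ (π m) j (fun h => hj (hπi h).symm), mul_zero, mul_zero]
    · rw [Matrix.single_mul_apply_of_ne _ _ _ _ _ hi, mul_zero]

theorem CCj_mono (H : Hyp C K) (X : Ctx F) {a b c : Rt C} (hc : c.1 = a.1 + b.1)
    (h : PZ F = {a, ng a, b, ng b, c, ng c}) {g : (Matrix (Fin 3) (Fin 3) K)ˣ}
    {f : LL C K ≃ₗ[K] LL C K} (hf : f ∈ F) (hfN : f ∈ NN C K) (hg : Cj a b c g f) :
    Mono (g : Matrix (Fin 3) (Fin 3) K) := by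
  obtain ⟨w, k, hk, hw, -⟩ := NN_perm H hfN
  intro j
  obtain ⟨k', hk'⟩ : ∃ k' : Fin 3, k' ≠ j := exists_ne j
  obtain ⟨d, hd, κ, hκ, hJ⟩ := J_unit (K := K) H hc (Ne.symm hk')
  have hwd : w d ∈ ({a, ng a, b, ng b, c, ng c} : Set (Rt C)) := by
    rw [← h] at hd ⊢
    exact (PZ_perm H X hf (hw d)).mp hd
  obtain ⟨i', j', κ', hij', hκ', hR⟩ := J_root (K := K) H hc hwd
  have h1 : f (Jm K a b c (Matrix.single j k' 1)) =
      Jm K a b c ((κ * (k d * κ')) • Matrix.single i' j' 1) := by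
    rw [hJ, map_smul, hw, hR, map_smul, smul_smul, smul_smul, mul_assoc]
  have h2 := hg (Matrix.single j k' 1) (Matrix.trace_single_eq_of_ne _ _ _ (Ne.symm hk'))
  rw [h1] at h2
  have h3 : (κ * (k d * κ')) • Matrix.single i' j' 1 - (g : Matrix (Fin 3) (Fin 3) K) *
      Matrix.single j k' 1 * ((g⁻¹ : (Matrix (Fin 3) (Fin 3) K)ˣ) :
        Matrix (Fin 3) (Fin 3) K) = 0 := by
    refine J_inj H hc ?_ ?_
    · rw [Matrix.trace_sub, Matrix.trace_smul, Matrix.trace_units_conj,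
        Matrix.trace_single_eq_of_ne _ _ _ (Ne.symm hk'), Matrix.trace_single_eq_of_ne _ _ _ hij',
        smul_zero, sub_zero]
    · rw [map_sub, h2, sub_self]
  have h4 : (g : Matrix (Fin 3) (Fin 3) K) * Matrix.single j k' 1 =
      (κ * (k d * κ')) • Matrix.single i' j' 1 * (g : Matrix (Fin 3) (Fin 3) K) := by
    rw [sub_eq_zero.mp h3, mul_assoc, Units.inv_mul, mul_one]
  refine ⟨i', fun q hq => ?_⟩
  have h5 := congrFun (congrFun h4 q) k'
  rw [Matrix.mul_single_apply_same, mul_one, Matrix.smul_mul, Matrix.smul_apply,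
    Matrix.single_mul_apply_of_ne _ _ _ _ _ hq, smul_zero] at h5
  exact h5

theorem CCj_hm (H : Hyp C K) (X : Ctx F) {a b c : Rt C}
    (h : PZ F = {a, ng a, b, ng b, c, ng c}) {f : LL C K ≃ₗ[K] LL C K} (hf : f ∈ F) :
    ∀ x : LL C K, (∀ d, d ∉ ({a, ng a, b, ng b, c, ng c} : Set (Rt C)) → x.2 d = 0) →
      ∀ d, d ∉ ({a, ng a, b, ng b, c, ng c} : Set (Rt C)) → (f x).2 d = 0 := by
  intro x hx
  rw [← h] at hx ⊢
  exact mZ_inv H X hf hx

theorem CCj_NN_of (H : Hyp C K) (X : Ctx F) {a b c : Rt C}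
    (h : PZ F = {a, ng a, b, ng b, c, ng c}) {f : LL C K ≃ₗ[K] LL C K} (hf : f ∈ F)
    (hl : ∀ b' ∈ ({a, ng a, b, ng b, c, ng c} : Set (Rt C)),
      ∃ d ∈ ({a, ng a, b, ng b, c, ng c} : Set (Rt C)), ∃ k : K, f (e K d) = k • e K b') :
    f ∈ NN C K :=
  mem_NN_of_lines H (X.hF hf) _ (fun b' hb' => by
    rw [← h] at hb' ⊢
    exact PZ_ng H X hb') (CCj_hm H X h hf) hl

theorem CCj_NN (H : Hyp C K) (X : Ctx F) {a b c : Rt C} (hc : c.1 = a.1 + b.1)
    (h : PZ F = {a, ng a, b, ng b, c, ng c}) {g : (Matrix (Fin 3) (Fin 3) K)ˣ}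
    {f : LL C K ≃ₗ[K] LL C K} (hf : f ∈ F) (hg : Cj a b c g f)
    (hm : Mono (g : Matrix (Fin 3) (Fin 3) K)) : f ∈ NN C K := by
  refine CCj_NN_of H X h hf fun b' hb' => ?_
  obtain ⟨π, hπb, hπ⟩ := CCj_perm hm
  obtain ⟨i, j, κ, hij, hκ, hR⟩ := J_root (K := K) H hc hb'
  obtain ⟨l, rfl⟩ := hπb.2 i
  obtain ⟨m, rfl⟩ := hπb.2 j
  have hlm : l ≠ m := fun h => hij (by rw [h])
  obtain ⟨d, hd, κ', hκ', hJ⟩ := J_unit (K := K) H hc hlm
  obtain ⟨ν, hν⟩ := CCj_perm_conj hπb.1 hπ l m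
  have h1 := hg (Matrix.single l m 1) (Matrix.trace_single_eq_of_ne _ _ _ hlm)
  rw [hν, hJ, map_smul, map_smul] at h1
  refine ⟨d, hd, κ'⁻¹ * (ν * κ⁻¹), ?_⟩
  have h2 : f (e K d) = κ'⁻¹ • ν • Jm K a b c (Matrix.single (π l) (π m) 1) := by
    rw [← h1, smul_smul, inv_mul_cancel₀ hκ', one_smul]
  rw [h2, hR, smul_smul, smul_smul, mul_assoc, mul_assoc, inv_mul_cancel₀ hκ, mul_one]

theorem CCj_ip (H : Hyp C K) {a b c : Rt C} (hc : c.1 = a.1 + b.1) : ip C a.1 b.1 = -1 := by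
  apply ip_of_root_add H
  rw [← hc]
  exact c.2

theorem CCj_diag_T1 (H : Hyp C K) {a b c : Rt C} (hc : c.1 = a.1 + b.1)
    {g : (Matrix (Fin 3) (Fin 3) K)ˣ} (hg : (g : Matrix (Fin 3) (Fin 3) K).IsDiag) :
    ∃ t ∈ T1 C K, Cj a b c g t := by
  have h0 := CCj_diag_ne hg 0
  have h1 := CCj_diag_ne hg 1
  have h2 := CCj_diag_ne hg 2
  obtain ⟨t, ht, hta, htb⟩ := T1_surj2 H (Or.inr (Or.inr (CCj_ip H hc)))
    (div_ne_zero h0 h1) (div_ne_zero h1 h2)
  refine ⟨t, ht, J_TT H hc (T1_le_TT H ht) hg ?_ ?_⟩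
  · rw [hta, div_mul_cancel₀ _ h1]
  · rw [htb, div_mul_cancel₀ _ h2]

theorem CCj_T1_diag (H : Hyp C K) {a b c : Rt C} (hc : c.1 = a.1 + b.1)
    {t : LL C K ≃ₗ[K] LL C K} (ht : t ∈ T1 C K) :
    ∃ g : (Matrix (Fin 3) (Fin 3) K)ˣ, (g : Matrix (Fin 3) (Fin 3) K).IsDiag ∧
      Cj a b c g t := by
  have hT := T1_le_TT H ht
  have ha := wt_ne_zero H hT a
  have hb := wt_ne_zero H hT b
  obtain ⟨g, hg⟩ := CCj_unit (K := K) ![wt t a * wt t b, wt t b, 1] (by
    intro i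
    fin_cases i
    · exact mul_ne_zero ha hb
    · exact hb
    · exact one_ne_zero)
  have hgd : (g : Matrix (Fin 3) (Fin 3) K).IsDiag := by
    rw [hg]
    exact Matrix.isDiag_diagonal _
  refine ⟨g, hgd, J_TT H hc hT hgd ?_ ?_⟩
  · rw [hg]
    simp
  · rw [hg]
    simp

/-- all elements of `F` are of conjugation type -/
theorem CCj_all (H : Hyp C K) (X : Ctx F) {a b c : Rt C} (hc : c.1 = a.1 + b.1)
    (h : PZ F = {a, ng a, b, ng b, c, ng c}) :
    ∀ f ∈ F, ∃ g, Cj a b c g f := by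
  obtain ⟨Fp, hFp⟩ : ∃ Fp : Subgroup (LL C K ≃ₗ[K] LL C K), ∀ f, f ∈ Fp ↔
      f ∈ F ∧ ∃ g, Cj a b c g f := by
    refine ⟨{ carrier := {f | f ∈ F ∧ ∃ g, Cj a b c g f}
              one_mem' := ⟨one_mem _, 1, Cj_one⟩
              mul_mem' := ?_
              inv_mem' := ?_ }, fun f => Iff.rfl⟩
    · rintro f f' ⟨hf, g, hg⟩ ⟨hf', g', hg'⟩
      exact ⟨mul_mem hf hf', g * g', Cj_mul hg hg'⟩
    · rintro f ⟨hf, g, hg⟩
      exact ⟨inv_mem hf, g⁻¹, Cj_inv hg⟩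
  have h1 : Fp = F := by
    apply no_normal H X
    · intro f hf
      exact ((hFp f).mp hf).1
    · intro t ht
      obtain ⟨g, -, hg⟩ := CCj_T1_diag H hc ht
      exact (hFp t).mpr ⟨X.hT ht, g, hg⟩
    · intro f hf u hu
      obtain ⟨hu, g', hg'⟩ := (hFp u).mp hu
      refine (hFp _).mpr ⟨mul_mem (mul_mem hf hu) (inv_mem hf), ?_⟩
      rcases conj_or_graph H hc (X.hF hf) (CCj_hm H X h hf) with ⟨g, hg⟩ | ⟨g, hg⟩
      · exact ⟨g * g' * g⁻¹, Cj_mul (Cj_mul hg hg') (Cj_inv hg)⟩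
      · obtain ⟨g1, hg1⟩ := Aj_Cj hg hg'
        obtain ⟨g2, hg2⟩ := Aj_inv hg
        exact Aj_Aj hg1 hg2
  intro f hf
  rw [← h1] at hf
  exact ((hFp f).mp hf).2

/-- step (F1) -/
theorem CCj_F1 (H : Hyp C K) {p : ℕ} [Fact p.Prime] [CharP K p] (X : Ctx F) {a b c : Rt C}
    (hc : c.1 = a.1 + b.1) (h : PZ F = {a, ng a, b, ng b, c, ng c}) {j k k' : Fin 3}
    (hjk : j ≠ k) (hjk' : j ≠ k') (hkk' : k ≠ k') {u v : Rt C} (huP : u ∈ PZ F)
    (huv : ip C u.1 v.1 = 1) {κ κ' : K} (hκ : κ ≠ 0) (hκ' : κ' ≠ 0)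
    (hu : Jm K a b c (Matrix.single j k 1) = κ • e K u)
    (hv : Jm K a b c (Matrix.single j k' 1) = κ' • e K v)
    {g : (Matrix (Fin 3) (Fin 3) K)ˣ} {f : LL C K ≃ₗ[K] LL C K} (hf : f ∈ F)
    (hg : Cj a b c g f) (hgj : ∀ i, i ≠ j → (g : Matrix (Fin 3) (Fin 3) K) i j = 0) :
    Mono (g : Matrix (Fin 3) (Fin 3) K) := by
  obtain ⟨Fj, hFj⟩ : ∃ Fj : Subgroup (LL C K ≃ₗ[K] LL C K), ∀ f, f ∈ Fj ↔
      f ∈ F ∧ ∃ g : (Matrix (Fin 3) (Fin 3) K)ˣ, Cj a b c g f ∧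
        ∀ i, i ≠ j → (g : Matrix (Fin 3) (Fin 3) K) i j = 0 := by
    refine ⟨{ carrier := {f | f ∈ F ∧ ∃ g : (Matrix (Fin 3) (Fin 3) K)ˣ, Cj a b c g f ∧
                ∀ i, i ≠ j → (g : Matrix (Fin 3) (Fin 3) K) i j = 0}
              one_mem' := ⟨one_mem _, 1, Cj_one, fun i hi => Matrix.one_apply_ne hi⟩
              mul_mem' := ?_
              inv_mem' := ?_ }, fun f => Iff.rfl⟩
    · rintro f f' ⟨hf, g, hg, h1⟩ ⟨hf', g', hg', h1'⟩
      refine ⟨mul_mem hf hf', g * g', Cj_mul hg hg', fun i hi => ?_⟩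
      rw [Units.val_mul, Matrix.mul_apply, Finset.sum_eq_single j]
      · rw [h1 i hi, zero_mul]
      · intro q _ hq
        rw [h1' q hq, mul_zero]
      · intro hj
        exact absurd (Finset.mem_univ j) hj
    · rintro f ⟨hf, g, hg, h1⟩
      refine ⟨inv_mem hf, g⁻¹, Cj_inv hg, fun i hi => ?_⟩
      have h2 : (((g⁻¹ : (Matrix (Fin 3) (Fin 3) K)ˣ) : Matrix (Fin 3) (Fin 3) K) *
          (g : Matrix (Fin 3) (Fin 3) K)) i j = 0 := by
        rw [Units.inv_mul, Matrix.one_apply_ne hi]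
      rw [Matrix.mul_apply, Finset.sum_eq_single j] at h2
      · exact (mul_eq_zero.mp h2).resolve_right (CCj_col h1)
      · intro q _ hq
        rw [h1 q hq, mul_zero]
      · intro hj
        exact absurd (Finset.mem_univ j) hj
  have hle : Fj ≤ F := fun f hf => ((hFj f).mp hf).1
  have hT : T1 C K ≤ Fj := by
    intro t ht
    obtain ⟨g, hgd, hg⟩ := CCj_T1_diag H hc ht
    exact (hFj t).mpr ⟨X.hT ht, g, hg, fun i hi => hgd hi⟩
  by_cases hFF : Fj = F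
  · exfalso
    have key : F ≤ Par C K (u.1 + v.1) := by
      intro f hf
      rw [← hFF] at hf
      obtain ⟨hf, g, hg, h1⟩ := (hFj f).mp hf
      have key2 : ∀ q : Fin 3, j ≠ q →
          f (Jm K a b c (Matrix.single j q 1)) ∈ Submodule.span K {e K u, e K v} := by
        intro q hq
        rw [hg _ (Matrix.trace_single_eq_of_ne _ _ _ hq)]
        obtain ⟨P, hP⟩ : ∃ P : Matrix (Fin 3) (Fin 3) K, P = (g : Matrix (Fin 3) (Fin 3) K) *
          Matrix.single j q 1 * ((g⁻¹ : (Matrix (Fin 3) (Fin 3) K)ˣ) :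
            Matrix (Fin 3) (Fin 3) K) := ⟨_, rfl⟩
        rw [← hP]
        have h2 : ∀ i m, i ≠ j → P i m = 0 := by
          intro i m hi
          rw [hP, mul_assoc, Matrix.mul_apply, Finset.sum_eq_single j]
          · rw [h1 i hi, zero_mul]
          · intro r _ hr
            rw [Matrix.single_mul_apply_of_ne _ _ _ _ _ hr, mul_zero]
          · intro hj
            exact absurd (Finset.mem_univ j) hj
        have h3 : P j j = 0 := by
          have h4 : P.trace = 0 := by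
            rw [hP, Matrix.trace_units_conj, Matrix.trace_single_eq_of_ne _ _ _ hq]
          rw [Matrix.trace, Finset.sum_eq_single j] at h4
          · exact h4
          · intro r _ hr
            exact h2 r r hr
          · intro hj
            exact absurd (Finset.mem_univ j) hj
        have h5 : P = P j k • Matrix.single j k 1 + P j k' • Matrix.single j k' 1 := by
          ext i m
          rw [Matrix.add_apply, Matrix.smul_apply, Matrix.smul_apply]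
          by_cases hi : i = j
          · subst hi
            have h6 : m = i ∨ m = k ∨ m = k' := by omega
            rcases h6 with rfl | rfl | rfl
            · rw [h3]
              simp [Matrix.single, hjk.symm, hjk'.symm]
            · simp [Matrix.single, hkk'.symm]
            · simp [Matrix.single, hkk']
          · rw [h2 i m hi]
            simp [Matrix.single, Ne.symm hi]
        rw [h5, map_add, map_smul, map_smul, hu, hv]
        refine Submodule.add_mem _ (Submodule.smul_mem _ _ (Submodule.smul_mem _ _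
          (Submodule.subset_span (by simp)))) (Submodule.smul_mem _ _ (Submodule.smul_mem _ _
          (Submodule.subset_span (by simp))))
      refine par_line H huv (X.hF hf) ?_ ?_
      · have h2 : f (e K u) = κ⁻¹ • f (Jm K a b c (Matrix.single j k 1)) := by
          rw [hu, map_smul, smul_smul, inv_mul_cancel₀ hκ, one_smul]
        rw [h2]
        exact Submodule.smul_mem _ _ (key2 k hjk)
      · have h2 : f (e K v) = κ'⁻¹ • f (Jm K a b c (Matrix.single j k' 1)) := by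
          rw [hv, map_smul, smul_smul, inv_mul_cancel₀ hκ', one_smul]
        rw [h2]
        exact Submodule.smul_mem _ _ (key2 k' hjk')
    have h3 : ∀ x : Kˣ, x ^ 3 = 1 := by
      intro x
      have h4 := fp H (p := p) X (u.1 + v.1) key x
      have h5 := huP _ h4
      rw [wt_hd, ip_add_left, (u.2 : ip C u.1 u.1 = 2), ip_comm H.symm v.1 u.1, huv] at h5
      have h6 : x ^ (2 + 1 : ℤ) = 1 := Units.ext h5
      exact_mod_cast h6
    have _ : Finite K := by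
      apply Nat.finite_of_card_ne_zero
      rcases H.card with h | h | h <;> omega
    obtain ⟨γ, hγ⟩ := IsCyclic.exists_generator (α := Kˣ)
    have h4 := orderOf_eq_card_of_forall_mem_zpowers hγ
    have h5 := Nat.le_of_dvd (by norm_num) (orderOf_dvd_of_pow_eq_one (h3 γ))
    rw [h4, Nat.card_units] at h5
    rcases H.card with h | h | h <;> omega
  · exact CCj_mono H X hc h hf (X.hmin Fj hle hT hFF ((hFj f).mpr ⟨hf, g, hg, hgj⟩)) hg

/-- step (F3) -/
theorem CCj_F3 (H : Hyp C K) (X : Ctx F) {a b c : Rt C}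
    (hc : c.1 = a.1 + b.1) (h : PZ F = {a, ng a, b, ng b, c, ng c})
    {g : (Matrix (Fin 3) (Fin 3) K)ˣ} {f : LL C K ≃ₗ[K] LL C K} (hf : f ∈ F)
    (hg : Cj a b c g f) {d : (Matrix (Fin 3) (Fin 3) K)ˣ}
    (hd : (d : Matrix (Fin 3) (Fin 3) K).IsDiag) {i j : Fin 3}
    (hij : (d : Matrix (Fin 3) (Fin 3) K) i i ≠ (d : Matrix (Fin 3) (Fin 3) K) j j)
    (hd' : ((g⁻¹ * d * g : (Matrix (Fin 3) (Fin 3) K)ˣ) : Matrix (Fin 3) (Fin 3) K).IsDiag) :
    f ∈ NN C K := by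
  have hdc : ∀ (d : (Matrix (Fin 3) (Fin 3) K)ˣ), (d : Matrix (Fin 3) (Fin 3) K).IsDiag →
      ∀ i j : Fin 3, (d : Matrix (Fin 3) (Fin 3) K) * Matrix.single i j 1 *
        ((d⁻¹ : (Matrix (Fin 3) (Fin 3) K)ˣ) : Matrix (Fin 3) (Fin 3) K) =
        ((d : Matrix (Fin 3) (Fin 3) K) i i / (d : Matrix (Fin 3) (Fin 3) K) j j) •
          Matrix.single i j 1 := by
    intro d hd i j
    apply CCj_conj
    ext r m
    rw [Matrix.smul_mul, Matrix.smul_apply, smul_eq_mul]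
    by_cases hm : m = j
    · subst hm
      rw [Matrix.mul_single_apply_same, mul_one]
      by_cases hr : r = i
      · subst hr
        rw [Matrix.single_mul_apply_same, one_mul, div_mul_cancel₀ _ (CCj_diag_ne hd m)]
      · rw [Matrix.single_mul_apply_of_ne _ _ _ _ _ hr, mul_zero, hd hr]
    · rw [Matrix.mul_single_apply_of_ne _ _ _ _ _ hm]
      by_cases hr : r = i
      · subst hr
        rw [Matrix.single_mul_apply_same, hd (Ne.symm hm), mul_zero, mul_zero]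
      · rw [Matrix.single_mul_apply_of_ne _ _ _ _ _ hr, mul_zero]
  obtain ⟨t, ht, hdt⟩ := CCj_diag_T1 H hc hd
  have htT := T1_le_TT H ht
  have hij' : i ≠ j := fun h => hij (by rw [h])
  have htZ : t ∉ Zc F := by
    intro htZ
    obtain ⟨u, hu, κ, hκ, hJ⟩ := J_unit (K := K) H hc hij'
    have h1 := hdt _ (Matrix.trace_single_eq_of_ne i j (1 : K) hij')
    rw [hdc d hd, map_smul, hJ, map_smul, TT_e H htT] at h1
    have hw : wt t u = 1 := by
      rw [← h] at hu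
      exact hu t htZ
    rw [hw, one_smul] at h1
    have h2 := congrArg (fun x : LL C K => x.2 u) h1
    simp only [Prod.smul_snd, Pi.smul_apply, e_snd_self, smul_eq_mul, mul_one] at h2
    have h3 : (d : Matrix (Fin 3) (Fin 3) K) i i / (d : Matrix (Fin 3) (Fin 3) K) j j = 1 :=
      mul_right_cancel₀ hκ (by rw [one_mul]; exact h2.symm)
    exact hij (eq_of_div_eq_one h3)
  have hs : ∀ u ∈ ({a, ng a, b, ng b, c, ng c} : Set (Rt C)),
      ∃ k : K, (f⁻¹ * t * f) (e K u) = k • e K u := by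
    intro u hu
    have hCs : Cj a b c (g⁻¹ * d * g) (f⁻¹ * t * f) := Cj_mul (Cj_mul (Cj_inv hg) hdt) hg
    obtain ⟨i, j, κ, hij, hκ, hR⟩ := J_root (K := K) H hc hu
    have h1 := hCs _ (Matrix.trace_single_eq_of_ne i j (1 : K) hij)
    rw [hdc _ hd', map_smul] at h1
    refine ⟨((g⁻¹ * d * g : (Matrix (Fin 3) (Fin 3) K)ˣ) : Matrix (Fin 3) (Fin 3) K) i i /
      ((g⁻¹ * d * g : (Matrix (Fin 3) (Fin 3) K)ˣ) : Matrix (Fin 3) (Fin 3) K) j j, ?_⟩
    rw [hR, map_smul, h1, smul_comm]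
  have htF : t ∈ F := X.hT ht
  have hsF : f⁻¹ * t * f ∈ F := mul_mem (mul_mem (inv_mem hf) htF) hf
  have hsN : f⁻¹ * t * f ∈ NN C K := CCj_NN_of H X h hsF fun u hu => ⟨u, hu, hs u hu⟩
  by_contra hfN
  have hxN : f⁻¹ ∉ NN C K := fun h1 => hfN (inv_mem_iff.mp h1)
  obtain ⟨t', ht', hN⟩ := c3b H X (inv_mem hf) hxN
  apply hN
  have ht'T := T1_le_TT H ht'
  have ht'F := X.hT ht'
  refine (c3a H X (inv_mem hf) hxN htF htT htZ (by rw [inv_inv]; exact hsN) ht'F ht'T).mp ?_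
  rw [inv_inv]
  have h1 : t' * (f⁻¹ * t * f) * t'⁻¹ * (f⁻¹ * t * f)⁻¹ =
      t' * ((f⁻¹ * t * f) * t'⁻¹ * (f⁻¹ * t * f)⁻¹) := by
    group
  have h2 : (f⁻¹ * t * f) * t'⁻¹ * (f⁻¹ * t * f)⁻¹ ∈ TT C K :=
    NN_conj_TT H hsN _ (inv_mem ht'T)
  refine t0 H X ?_ ?_ ?_
  · exact mul_mem (mul_mem (mul_mem ht'F hsF) (inv_mem ht'F)) (inv_mem hsF)
  · rw [h1]
    exact mul_mem ht'T h2
  · intro u hu
    rw [h1, wt_mul H ht'T h2]
    rw [h] at hu
    obtain ⟨k, hk⟩ := hs u hu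
    rw [wt_conj H hsN (inv_mem ht'T) hk, wt_inv H ht'T, mul_inv_cancel₀ (wt_ne_zero H ht'T u)]

theorem case3 (H : Hyp C K) {p : ℕ} [Fact p.Prime] [CharP K p] (X : Ctx F) {a b c : Rt C}
    (hc : c.1 = a.1 + b.1) (h : PZ F = {a, ng a, b, ng b, c, ng c}) : False := by
  have _ : Finite K := by
    apply Nat.finite_of_card_ne_zero
    rcases H.card with h | h | h <;> omega
  have hq : 7 ≤ Nat.card K := by
    rcases H.card with h | h | h <;> omega
  have hab := CCj_ip H hc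
  have ha2 : ip C a.1 a.1 = 2 := a.2
  have hb2 : ip C b.1 b.1 = 2 := b.2
  have hba : ip C b.1 a.1 = -1 := by rw [ip_comm H.symm, hab]
  obtain ⟨Γ, hΓ⟩ : ∃ Γ : Subgroup (Matrix (Fin 3) (Fin 3) K)ˣ, ∀ g, g ∈ Γ ↔
      ∃ f ∈ F, Cj a b c g f := by
    refine ⟨{ carrier := {g | ∃ f ∈ F, Cj a b c g f}
              one_mem' := ⟨1, one_mem _, Cj_one⟩
              mul_mem' := ?_
              inv_mem' := ?_ }, fun f => Iff.rfl⟩
    · rintro g g' ⟨f, hf, hg⟩ ⟨f', hf', hg'⟩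
      exact ⟨f * f', mul_mem hf hf', Cj_mul hg hg'⟩
    · rintro g ⟨f, hf, hg⟩
      exact ⟨f⁻¹, inv_mem hf, Cj_inv hg⟩
  have key := plane hq Γ (by
      intro g hg
      obtain ⟨t, ht, hgt⟩ := CCj_diag_T1 H hc hg
      exact (hΓ g).mpr ⟨t, X.hT ht, hgt⟩)
    (by
      intro g hg j hj
      obtain ⟨f, hf, hgf⟩ := (hΓ g).mp hg
      fin_cases j
      · refine CCj_F1 H (p := p) X hc h (j := 0) (k := 1) (k' := 2) (by decide) (by decide)
          (by decide) (u := a) (v := c) (by rw [h]; simp) ?_ (κ := 1) (κ' := ek K C a.1 b.1)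
          one_ne_zero (ek_ne_zero _ _) ?_ ?_ hf hgf hj
        · rw [hc, ip_add_right, ha2, hab]
          norm_num
        · simp [Jm, Matrix.single]
        · simp [Jm, Matrix.single]
      · refine CCj_F1 H (p := p) X hc h (j := 1) (k := 0) (k' := 2) (by decide) (by decide)
          (by decide) (u := ng a) (v := b) (by rw [h]; simp) ?_ (κ := -1) (κ' := 1)
          (neg_ne_zero.mpr one_ne_zero) one_ne_zero ?_ ?_ hf hgf hj
        · rw [ng_val, ip_neg_left, hab]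
          norm_num
        · simp [Jm, Matrix.single]
        · simp [Jm, Matrix.single]
      · refine CCj_F1 H (p := p) X hc h (j := 2) (k := 0) (k' := 1) (by decide) (by decide)
          (by decide) (u := ng c) (v := ng b) (by rw [h]; simp) ?_ (κ := ek K C b.1 a.1)
          (κ' := -1) (ek_ne_zero _ _) (neg_ne_zero.mpr one_ne_zero) ?_ ?_ hf hgf hj
        · rw [ng_val, ng_val, ip_neg_left, ip_neg_right, neg_neg, hc, ip_add_left, hab, hb2]
          norm_num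
        · simp [Jm, Matrix.single]
        · simp [Jm, Matrix.single])
    (by
      rintro g hg d hd ⟨i, j, hij⟩ hd'
      obtain ⟨f, hf, hgf⟩ := (hΓ g).mp hg
      exact CCj_mono H X hc h hf (CCj_F3 H X hc h hf hgf hd hij hd') hgf)
  apply X.hN
  intro f hf
  obtain ⟨g, hg⟩ := CCj_all H X hc h f hf
  exact CCj_NN H X hc h hf hg (key g ((hΓ g).mpr ⟨f, hf, hg⟩))

end Pool.Agent.H33.EL
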