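import Mathlib

/-!
# EL-18: Theorem S (finite groups)

`F` finite, `M < F`, `E ≤ M` elementary abelian 2-group normalised by `M`, and
(H): `e ∈ E`, `e ≠ 1`, `x e x⁻¹ ∈ M` imply `x ∈ M`.  Then `M` is transitive on `E \ {1}`.

Proof by strong induction on `|F|`.  Fix `x ∉ M`, `e, f ∈ E \ {1}`, put `f' = x f x⁻¹`, an
involution, and `t = e f'`.
* `t` of odd order `2j+1`: `t^(-j) f' t^j = e`, so `t^(-j) x ∈ M` conjugates `f` to `e`.
* `t` of even order `2j`: `z = t^j` is an involution which commutes with `e` and `f'`, so `z ∈ M`.
  If `z` is central, pass to `F/⟨z⟩`.  Otherwise pass to `C = C_F(z)`: every 2-subgroup of `C`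
  which contains `e` lies in `M` (normaliser condition), and a Sylow 2-subgroup of `C` containing
  `e` is conjugate in `C` to one containing `f'`.
-/

open scoped Pointwise

namespace Pool.Agent.H33.EL

/-- A `p`-subgroup which contains `e` lies in `M`, if `M` contains everything that conjugates
`e` into `M`. -/
theorem pgroup_le_of_conj {G : Type} [Group G] [Finite G] {p : ℕ} [Fact p.Prime]
    (M P : Subgroup G) (hP : IsPGroup p P) (e : G) (heP : e ∈ P) (heM : e ∈ M)
    (hH : ∀ x : G, x * e * x⁻¹ ∈ M → x ∈ M) : P ≤ M := by
  have hnil : Group.IsNilpotent P := hP.isNilpotent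
  have hnc : NormalizerCondition P := Group.normalizerCondition_of_isNilpotent
  by_contra hle
  have hQ : M.subgroupOf P < ⊤ := by
    refine lt_top_iff_ne_top.mpr fun h => hle ?_
    exact Subgroup.subgroupOf_eq_top.mp h
  obtain ⟨y, hyN, hyQ⟩ := SetLike.exists_of_lt (hnc _ hQ)
  apply hyQ
  rw [Subgroup.mem_normalizer_iff] at hyN
  have h1 : (⟨e, heP⟩ : P) ∈ M.subgroupOf P := by
    rw [Subgroup.mem_subgroupOf]; exact heM
  have h2 := (hyN ⟨e, heP⟩).mp h1
  rw [Subgroup.mem_subgroupOf] at h2 ⊢
  exact hH _ (by simpa using h2)

/-- The induction. -/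
theorem thmS_aux (n : ℕ) : ∀ (F : Type) (_ : Group F) (_ : Finite F), Nat.card F ≤ n →
    ∀ (M E : Subgroup F), M ≠ ⊤ → E ≤ M →
    (∀ m ∈ M, ∀ e ∈ E, m * e * m⁻¹ ∈ E) → (∀ e ∈ E, e * e = 1) →
    (∀ e ∈ E, e ≠ 1 → ∀ x : F, x * e * x⁻¹ ∈ M → x ∈ M) →
    ∀ e ∈ E, e ≠ 1 → ∀ f ∈ E, f ≠ 1 → ∃ m ∈ M, m * e * m⁻¹ = f := by
  induction n with
  | zero =>
    intro F _ _ hc
    have : 0 < Nat.card F := Nat.card_pos
    omega
  | succ n ih =>
    intro F iG iF hcard M E hM hEM hn h2 hH e he he1 f hf hf1
    obtain ⟨x, hx⟩ : ∃ x, x ∉ M := by
      by_contra hcon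
      push Not at hcon
      exact hM (Subgroup.eq_top_iff' M |>.mpr hcon)
    -- the involution `f' = x f x⁻¹`
    set f' : F := x * f * x⁻¹ with hf'
    have hee : e * e = 1 := h2 e he
    have hff : f * f = 1 := h2 f hf
    have hf'f' : f' * f' = 1 := by
      have : f' * f' = x * (f * f) * x⁻¹ := by rw [hf']; group
      rw [this, hff]; group
    have heinv : e⁻¹ = e := inv_eq_of_mul_eq_one_left hee
    have hf'inv : f'⁻¹ = f' := inv_eq_of_mul_eq_one_left hf'f'
    set t : F := e * f' with ht
    have htinv : t⁻¹ = f' * e := by rw [ht, mul_inv_rev, heinv, hf'inv]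
    -- conjugation of powers of `t`
    have hft : f' * t * f'⁻¹ = t⁻¹ := by
      rw [htinv, hf'inv, ht]
      calc f' * (e * f') * f' = f' * e * (f' * f') := by group
        _ = f' * e := by rw [hf'f', mul_one]
    have het : e * t * e⁻¹ = t⁻¹ := by
      rw [htinv, heinv, ht]
      calc e * (e * f') * e = (e * e) * (f' * e) := by group
        _ = f' * e := by rw [hee, one_mul]
    have hftj : ∀ j : ℕ, f' * t ^ j * f'⁻¹ = (t ^ j)⁻¹ := by
      intro j
      rw [← conj_pow, hft, inv_pow]
    have hetj : ∀ j : ℕ, e * t ^ j * e⁻¹ = (t ^ j)⁻¹ := by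
      intro j
      rw [← conj_pow, het, inv_pow]
    rcases Nat.even_or_odd (orderOf t) with hev | hodd
    · -- even order
      obtain ⟨j, hj⟩ := hev
      have hpos : 0 < orderOf t := orderOf_pos t
      have hj0 : 0 < j := by omega
      set z : F := t ^ j with hz
      have hz1 : z ≠ 1 := by
        intro h
        have : orderOf t ∣ j := orderOf_dvd_of_pow_eq_one h
        have := Nat.le_of_dvd hj0 this
        omega
      have hzz : z * z = 1 := by
        rw [hz, ← pow_add, ← hj, pow_orderOf_eq_one]
      have hzinv : z⁻¹ = z := inv_eq_of_mul_eq_one_left hzz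
      have hez : e * z * e⁻¹ = z := by rw [hz, hetj, ← hz, hzinv]
      have hfz : f' * z * f'⁻¹ = z := by rw [hz, hftj, ← hz, hzinv]
      have hez' : e * z = z * e := by
        have := congrArg (· * e) hez
        simpa [mul_assoc] using this
      have hfz' : f' * z = z * f' := by
        have := congrArg (· * f') hfz
        simpa [mul_assoc] using this
      have hzM : z ∈ M := by
        apply hH e he he1 z
        have : z * e * z⁻¹ = e := by rw [← hez']; group
        rw [this]; exact hEM he
      by_cases hcen : ∀ g : F, g * z = z * g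
      · -- central
        have hzE : z ∉ E := by
          intro hzE
          apply hM
          rw [Subgroup.eq_top_iff']
          intro y
          apply hH z hzE hz1 y
          have : y * z * y⁻¹ = z := by rw [hcen y]; group
          rw [this]; exact hzM
        have hNmem : ∀ g : F, g ∈ Subgroup.zpowers z ↔ g = 1 ∨ g = z := by
          intro g
          constructor
          · rintro ⟨k, rfl⟩
            rcases Int.even_or_odd k with hk | hk
            · left
              obtain ⟨a, rfl⟩ := hk
              simp only
              rw [← two_mul, zpow_mul]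
              have : z ^ (2 : ℤ) = 1 := by
                rw [zpow_ofNat, pow_two]; exact hzz
              rw [this, one_zpow]
            · right
              obtain ⟨a, rfl⟩ := hk
              simp only
              rw [zpow_add, zpow_mul]
              have : z ^ (2 : ℤ) = 1 := by
                rw [zpow_ofNat, pow_two]; exact hzz
              rw [this, one_zpow, one_mul, zpow_one]
          · rintro (rfl | rfl)
            · exact Subgroup.one_mem _
            · exact Subgroup.mem_zpowers _
        have hNnorm : (Subgroup.zpowers z).Normal := by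
          constructor
          intro g hg y
          rcases (hNmem g).mp hg with rfl | rfl
          · simp
          · have : y * z * y⁻¹ = z := by rw [hcen y]; group
            rw [this]; exact Subgroup.mem_zpowers z
        have hNM : Subgroup.zpowers z ≤ M := by
          rw [Subgroup.zpowers_le]; exact hzM
        let π : F →* F ⧸ Subgroup.zpowers z := QuotientGroup.mk' (Subgroup.zpowers z)
        have hπM : ∀ g : F, π g ∈ M.map π → g ∈ M := by
          intro g hg
          obtain ⟨m, hm, hmg⟩ := hg
          have : m⁻¹ * g ∈ Subgroup.zpowers z := (QuotientGroup.eq).mp hmg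
          have h3 := M.mul_mem hm (hNM this)
          simpa [mul_assoc] using h3
        have hcard' : Nat.card (F ⧸ Subgroup.zpowers z) ≤ n := by
          have h3 : Nat.card F = Nat.card (F ⧸ Subgroup.zpowers z) *
              Nat.card (Subgroup.zpowers z) := Subgroup.card_eq_card_quotient_mul_card_subgroup _
          have h4 : 1 < Nat.card (Subgroup.zpowers z) := by
            rw [Nat.card_zpowers]
            have : orderOf z ≠ 1 := by
              intro h; exact hz1 (orderOf_eq_one_iff.mp h)
            have : 0 < orderOf z := orderOf_pos z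
            omega
          have h5 : 0 < Nat.card (F ⧸ Subgroup.zpowers z) := Nat.card_pos
          nlinarith
        have key := ih (F ⧸ Subgroup.zpowers z) inferInstance inferInstance hcard'
          (M.map π) (E.map π)
          (by
            intro htop
            apply hx
            apply hπM
            rw [htop]; exact Subgroup.mem_top _)
          (Subgroup.map_mono hEM)
          (by
            rintro _ ⟨m, hm, rfl⟩ _ ⟨a, ha, rfl⟩
            refine ⟨m * a * m⁻¹, hn m hm a ha, ?_⟩
            simp)
          (by
            rintro _ ⟨a, ha, rfl⟩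
            rw [← map_mul, h2 a ha, map_one])
          (by
            rintro _ ⟨a, ha, rfl⟩ ha1 y hy
            obtain ⟨y, rfl⟩ := QuotientGroup.mk'_surjective (Subgroup.zpowers z) y
            have h3 : y * a * y⁻¹ ∈ M := by
              apply hπM
              simpa [π] using hy
            have ha1' : a ≠ 1 := by
              rintro rfl
              exact ha1 (map_one _)
            exact ⟨y, hH a ha ha1' y h3, rfl⟩)
          (π e) ⟨e, he, rfl⟩
          (by
            intro h
            have : e ∈ Subgroup.zpowers z := (QuotientGroup.eq_one_iff e).mp h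
            rcases (hNmem e).mp this with h3 | h3
            · exact he1 h3
            · exact hzE (h3 ▸ he))
          (π f) ⟨f, hf, rfl⟩
          (by
            intro h
            have : f ∈ Subgroup.zpowers z := (QuotientGroup.eq_one_iff f).mp h
            rcases (hNmem f).mp this with h3 | h3
            · exact hf1 h3
            · exact hzE (h3 ▸ hf))
        obtain ⟨_, ⟨m, hm, rfl⟩, hmf⟩ := key
        have hmf' : π (m * e * m⁻¹) = π f := by simpa using hmf
        have h3 : (m * e * m⁻¹)⁻¹ * f ∈ Subgroup.zpowers z := (QuotientGroup.eq).mp hmf'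
        have h4 : (m * e * m⁻¹)⁻¹ * f ∈ E := E.mul_mem (E.inv_mem (hn m hm e he)) hf
        rcases (hNmem _).mp h3 with h5 | h5
        · refine ⟨m, hm, ?_⟩
          exact inv_mul_eq_one.mp h5
        · exact absurd (h5 ▸ h4) hzE
      · -- not central
        push Not at hcen
        obtain ⟨g0, hg0⟩ := hcen
        set C : Subgroup F := Subgroup.centralizer {z} with hC
        have hCmem : ∀ g : F, g ∈ C ↔ g * z = z * g := by
          intro g
          rw [hC, Subgroup.mem_centralizer_singleton_iff]
        have hcardC : Nat.card C ≤ n := by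
          have h3 : Nat.card C < Nat.card F := by
            have hne : C ≠ ⊤ := by
              intro h
              apply hg0
              rw [← hCmem, h]
              exact Subgroup.mem_top _
            have h4 := Subgroup.card_le_card_group C
            rcases h4.lt_or_eq with h5 | h5
            · exact h5
            · exact absurd (Subgroup.eq_top_of_card_eq C h5) hne
          omega
        have heC : e ∈ C := (hCmem e).mpr hez'
        have hf'C : f' ∈ C := (hCmem f').mpr hfz'
        have : Fact (Nat.Prime 2) := ⟨Nat.prime_two⟩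
        have hpow : ∀ a : C, a * a = 1 → IsPGroup 2 (Subgroup.zpowers a) := by
          intro a ha
          rintro ⟨b, hb⟩
          obtain ⟨k, rfl⟩ := hb
          refine ⟨1, ?_⟩
          have h3 : (a ^ k) ^ 2 = 1 := by
            rw [← zpow_natCast, ← zpow_mul, mul_comm, zpow_mul]
            have : a ^ ((2 : ℕ) : ℤ) = 1 := by rw [zpow_natCast, pow_two, ha]
            rw [this, one_zpow]
          apply Subtype.ext
          simpa using h3
        obtain ⟨P, hP⟩ := (hpow ⟨e, heC⟩ (by ext; exact hee)).exists_le_sylow
        obtain ⟨P', hP'⟩ := (hpow ⟨f', hf'C⟩ (by ext; exact hf'f')).exists_le_sylow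
        obtain ⟨c, hc⟩ := MulAction.exists_smul_eq C P P'
        have heP : (⟨e, heC⟩ : C) ∈ (P : Subgroup C) := hP (Subgroup.mem_zpowers _)
        have hfP' : (⟨f', hf'C⟩ : C) ∈ (P' : Subgroup C) := hP' (Subgroup.mem_zpowers _)
        have hPM : (P : Subgroup C) ≤ M.subgroupOf C := by
          refine pgroup_le_of_conj (M.subgroupOf C) P P.isPGroup' ⟨e, heC⟩ heP ?_ ?_
          · rw [Subgroup.mem_subgroupOf]; exact hEM he
          · intro y hy
            rw [Subgroup.mem_subgroupOf] at hy ⊢
            exact hH e he he1 _ (by simpa using hy)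
        have hcf : c⁻¹ * ⟨f', hf'C⟩ * c ∈ (P : Subgroup C) := by
          rw [← hc] at hfP'
          have h3 : (⟨f', hf'C⟩ : C) ∈ MulAut.conj c • (P : Subgroup C) := by
            rw [Sylow.smul_def, Sylow.pointwise_smul_def] at hfP'
            exact hfP'
          rw [Subgroup.mem_pointwise_smul_iff_inv_smul_mem] at h3
          simpa [MulAut.smul_def, MulAut.conj_inv_apply] using h3
        have hcfM : (c : F)⁻¹ * f' * c ∈ M := by
          have := hPM hcf
          rw [Subgroup.mem_subgroupOf] at this
          simpa using this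
        have hμ : (c : F)⁻¹ * x ∈ M := by
          apply hH f hf hf1
          have : (c : F)⁻¹ * x * f * ((c : F)⁻¹ * x)⁻¹ = (c : F)⁻¹ * f' * c := by
            rw [hf']; group
          rw [this]; exact hcfM
        have hcM : (c : F) ∉ M := by
          intro h
          apply hx
          have := M.mul_mem h hμ
          simpa using this
        have hf1E : (c : F)⁻¹ * f' * c ∈ E := by
          have : (c : F)⁻¹ * f' * c = ((c : F)⁻¹ * x) * f * ((c : F)⁻¹ * x)⁻¹ := by
            rw [hf']; group
          rw [this]; exact hn _ hμ f hf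
        have hf1C : (c : F)⁻¹ * f' * c ∈ C :=
          C.mul_mem (C.mul_mem (C.inv_mem c.2) hf'C) c.2
        have hf11 : (c : F)⁻¹ * f' * c ≠ 1 := by
          intro h
          apply hf1
          have h3 : f = x⁻¹ * c * ((c : F)⁻¹ * f' * c) * (x⁻¹ * c)⁻¹ := by
            rw [hf']; group
          rw [h3, h]; group
        obtain ⟨m, hm, hmf⟩ := ih C inferInstance inferInstance hcardC
          (M.subgroupOf C) (E.subgroupOf C)
          (by
            intro htop
            apply hcM
            have : c ∈ M.subgroupOf C := by rw [htop]; exact Subgroup.mem_top _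
            exact Subgroup.mem_subgroupOf.mp this)
          (by
            intro a ha
            rw [Subgroup.mem_subgroupOf] at ha ⊢
            exact hEM ha)
          (by
            intro m hm a ha
            rw [Subgroup.mem_subgroupOf] at hm ha ⊢
            simpa using hn _ hm _ ha)
          (by
            intro a ha
            rw [Subgroup.mem_subgroupOf] at ha
            ext
            simpa using h2 _ ha)
          (by
            intro a ha ha1 y hy
            rw [Subgroup.mem_subgroupOf] at ha hy ⊢
            refine hH _ ha ?_ _ (by simpa using hy)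
            intro h
            apply ha1
            ext
            simpa using h)
          ⟨e, heC⟩ (by rw [Subgroup.mem_subgroupOf]; exact he)
          (by
            intro h
            apply he1
            simpa using congrArg Subtype.val h)
          ⟨(c : F)⁻¹ * f' * c, hf1C⟩ (by rw [Subgroup.mem_subgroupOf]; exact hf1E)
          (by
            intro h
            apply hf11
            simpa using congrArg Subtype.val h)
        have hmf' : (m : F) * e * (m : F)⁻¹ = (c : F)⁻¹ * f' * c := by
          simpa using congrArg Subtype.val hmf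
        have hmM : (m : F) ∈ M := Subgroup.mem_subgroupOf.mp hm
        refine ⟨((c : F)⁻¹ * x)⁻¹ * m, M.mul_mem (M.inv_mem hμ) hmM, ?_⟩
        have h3 : ((c : F)⁻¹ * x)⁻¹ * m * e * (((c : F)⁻¹ * x)⁻¹ * m)⁻¹
            = ((c : F)⁻¹ * x)⁻¹ * (m * e * (m : F)⁻¹) * ((c : F)⁻¹ * x) := by group
        rw [h3, hmf', hf']
        group
    · -- odd order
      obtain ⟨j, hj⟩ := hodd
      have hpow : t ^ (2 * j + 1) = 1 := by rw [← hj]; exact pow_orderOf_eq_one t
      have h4 : (t ^ j)⁻¹ * f' * t ^ j = e := by
        have h5 : f' * t ^ j = (t ^ j)⁻¹ * f' := by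
          have := congrArg (· * f') (hftj j)
          simpa [mul_assoc] using this
        have h6 : (t ^ j)⁻¹ * (t ^ j)⁻¹ = t := by
          rw [← mul_inv_rev, ← pow_add, inv_eq_iff_mul_eq_one, ← pow_succ, ← two_mul]
          exact hpow
        calc (t ^ j)⁻¹ * f' * t ^ j = (t ^ j)⁻¹ * (f' * t ^ j) := by group
          _ = ((t ^ j)⁻¹ * (t ^ j)⁻¹) * f' := by rw [h5]; group
          _ = t * f' := by rw [h6]
          _ = e * (f' * f') := by rw [ht]; group
          _ = e := by rw [hf'f', mul_one]
      have h5 : (t ^ j)⁻¹ * x * f * ((t ^ j)⁻¹ * x)⁻¹ = e := by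
        have : (t ^ j)⁻¹ * x * f * ((t ^ j)⁻¹ * x)⁻¹ = (t ^ j)⁻¹ * f' * t ^ j := by
          rw [hf']; group
        rw [this, h4]
      have h6 : (t ^ j)⁻¹ * x ∈ M := by
        apply hH f hf hf1
        rw [h5]; exact hEM he
      refine ⟨((t ^ j)⁻¹ * x)⁻¹, M.inv_mem h6, ?_⟩
      rw [← h5]; group

theorem thmS {F : Type} [Group F] [Finite F] (M E : Subgroup F) (hM : M ≠ ⊤) (hEM : E ≤ M)
    (hn : ∀ m ∈ M, ∀ e ∈ E, m * e * m⁻¹ ∈ E) (h2 : ∀ e ∈ E, e * e = 1)
    (hH : ∀ e ∈ E, e ≠ 1 → ∀ x : F, x * e * x⁻¹ ∈ M → x ∈ M) :
    ∀ e ∈ E, e ≠ 1 → ∀ f ∈ E, f ≠ 1 → ∃ m ∈ M, m * e * m⁻¹ = f :=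
  thmS_aux (Nat.card F) F inferInstance inferInstance le_rfl M E hM hEM hn h2 hH

end Pool.Agent.H33.EL
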