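import Pool.Agent.H33.EL.CCa
import Pool.Agent.H33.EL.GrpS

/-!
# EL-41, EL-42: property (H) and transitivity

`EE F` is the group of all `e ∈ F ⊓ TT` with `e² ∈ Z`.  `Ind3 F`: three elements independent
modulo `Z`.

EL-41 (`hprop`).  Let `e ∈ EE F`, `e ∉ Z`, `x ∈ F`, `b = x e x⁻¹ ∈ NN` and suppose `x ∉ NN`.
`b` normalises `EE F` and `b² ∈ Z`.  Let `U = EE F / Z`, an elementary abelian 2-group with at
least 8 elements; `b` acts on `U` by conjugation with square the identity.  The homomorphism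
`U → U`, `u ↦ u^b u` has image contained in its kernel `C_U(b)` so `|C_U(b)|² ≥ |U| ≥ 8`,
`|C_U(b)| ≥ 4`: there are `a1, a2 ∈ EE F` with `a1, a2, a1 a2 ∉ Z` and
`a_i b a_i⁻¹ b⁻¹ ∈ Z`.  (With `Ind3` one can argue by hand: if for `e1,e2,e3` ... choose two
independent elements in the kernel among the products.)
By `c3a` (`t = a_i`): `b_i = x⁻¹ a_i x ∈ NN`, also `x⁻¹ (a1 a2) x ∈ NN`.  Apply `c3a` with
`x⁻¹` in the place of `x` (`x⁻¹ ∉ NN`) and `s = a1, a2, a1 a2`: for `t ∈ F ⊓ TT`,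
`t b' t⁻¹ b'⁻¹ ∈ Z ↔ x t x⁻¹ ∈ NN` for each of `b' = b1, b2, b1 b2`.  Let
`A'' = {t ∈ F ⊓ TT : x t x⁻¹ ∈ NN}`, a subgroup.  For `t ∈ T1` and such a `b'`: `b'² ∈ Z`, so
`t (b' t b'⁻¹)` commutes with `b'` modulo `Z` (`TT` is abelian, normalised by `b'`), so it is in
`A''`: `b' t b'⁻¹ ∈ t⁻¹ A''`.  So `(b1 b2) t (b1 b2)⁻¹ = b1 (b2 t b2⁻¹) b1⁻¹ ∈ b1 t⁻¹ A'' b1⁻¹`
`= t A''` (`b1 A'' b1⁻¹ = A''`: elements of `A''` commute with `b1` mod `Z`, `Z ≤ A''`), and it is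
in `t⁻¹ A''`.  So `t² ∈ A''` for all `t ∈ T1`: `t² b1 t⁻² b1⁻¹ ∈ Z`, contradiction to `w1`
(for `x⁻¹`, `s = a1`).

EL-42 (`trans`): `thmS` for the finite group `F / Z` (`↥F ⧸ (Zc F).subgroupOf F`), `M` the image of
`F ⊓ NN`, `E` the image of `EE F`.
-/

namespace Pool.Agent.H33.EL

variable {n : ℕ} {C : Matrix (Fin n) (Fin n) ℤ} {K : Type} [Field K] [Fintype (Rt C)]

/-- elements of `F ⊓ TT` with central square -/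
def EE (F : Subgroup (LL C K ≃ₗ[K] LL C K)) : Set (LL C K ≃ₗ[K] LL C K) :=
  {e | e ∈ F ∧ e ∈ TT C K ∧ e * e ∈ Zc F}

/-- three independent elements of `EE F` modulo the centre -/
def Ind3 (F : Subgroup (LL C K ≃ₗ[K] LL C K)) : Prop :=
  ∃ e1 ∈ EE F, ∃ e2 ∈ EE F, ∃ e3 ∈ EE F, e1 ∉ Zc F ∧ e2 ∉ Zc F ∧ e3 ∉ Zc F ∧
    e1 * e2 ∉ Zc F ∧ e1 * e3 ∉ Zc F ∧ e2 * e3 ∉ Zc F ∧ e1 * e2 * e3 ∉ Zc F

variable {F : Subgroup (LL C K ≃ₗ[K] LL C K)}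

theorem CCb_two {Q : Type*} [Group Q] (U : Subgroup Q) (b : Q)
    (hc : ∀ u ∈ U, ∀ v ∈ U, u * v = v * u) (h2 : ∀ u ∈ U, u * u = 1)
    (hb : ∀ u ∈ U, b * u * b⁻¹ ∈ U) (hbb : b * b = 1) {e1 e2 e3 : Q} (m1 : e1 ∈ U)
    (m2 : e2 ∈ U) (m3 : e3 ∈ U) (n1 : e1 ≠ 1) (n2 : e2 ≠ 1) (n3 : e3 ≠ 1)
    (n12 : e1 * e2 ≠ 1) (n13 : e1 * e3 ≠ 1) (n23 : e2 * e3 ≠ 1) (n123 : e1 * e2 * e3 ≠ 1) :
    ∃ a1 ∈ U, ∃ a2 ∈ U, a1 ≠ 1 ∧ a2 ≠ 1 ∧ a1 * a2 ≠ 1 ∧ b * a1 * b⁻¹ = a1 ∧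
      b * a2 * b⁻¹ = a2 := by
  have hbi : b⁻¹ = b := inv_eq_of_mul_eq_one_left hbb
  have hinv : ∀ u ∈ U, u⁻¹ = u := fun u hu => inv_eq_of_mul_eq_one_left (h2 u hu)
  let p : Q → Q := fun u => b * u * b⁻¹ * u
  have hp : ∀ u ∈ U, p u ∈ U := fun u hu => mul_mem (hb u hu) hu
  have hfix : ∀ u ∈ U, b * p u * b⁻¹ = p u := by
    intro u hu
    have h3 : b * p u * b⁻¹ = (b * b) * u * (b * b) * (b * u * b⁻¹) := by
      show b * (b * u * b⁻¹ * u) * b⁻¹ = _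
      rw [hbi]
      have : b * (b * u * b * u) * b = (b * b) * u * (b * u * b) := by group
      rw [this, hbb, mul_one]
    rw [h3, hbb, one_mul, mul_one, hc u hu _ (hb u hu)]
  have hone : ∀ u ∈ U, p u = 1 → b * u * b⁻¹ = u := by
    intro u hu h
    have h3 : b * u * b⁻¹ * u = 1 := h
    rw [eq_inv_of_mul_eq_one_left h3, hinv u hu]
  have hmul : ∀ u ∈ U, ∀ v ∈ U, p (u * v) = p u * p v := by
    intro u hu v hv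
    show b * (u * v) * b⁻¹ * (u * v) = b * u * b⁻¹ * u * (b * v * b⁻¹ * v)
    calc b * (u * v) * b⁻¹ * (u * v) = (b * u * b⁻¹) * ((b * v * b⁻¹) * u) * v := by group
      _ = (b * u * b⁻¹) * (u * (b * v * b⁻¹)) * v := by rw [hc _ (hb v hv) u hu]
      _ = b * u * b⁻¹ * u * (b * v * b⁻¹ * v) := by group
  have same : ∀ u ∈ U, ∀ v ∈ U, p u = p v → b * (u * v) * b⁻¹ = u * v := by
    intro u hu v hv h
    apply hone _ (mul_mem hu hv)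
    rw [hmul u hu v hv, h, h2 _ (hp v hv)]
  have pair : ∀ u ∈ U, ∀ v ∈ U, p u ≠ 1 → p v ≠ 1 → p u ≠ p v →
      ∃ a1 ∈ U, ∃ a2 ∈ U, a1 ≠ 1 ∧ a2 ≠ 1 ∧ a1 * a2 ≠ 1 ∧ b * a1 * b⁻¹ = a1 ∧
      b * a2 * b⁻¹ = a2 := by
    intro u hu v hv hu1 hv1 huv
    refine ⟨p u, hp u hu, p v, hp v hv, hu1, hv1, ?_, hfix u hu, hfix v hv⟩
    intro h
    apply huv
    rw [eq_inv_of_mul_eq_one_left h, hinv _ (hp v hv)]
  have one3 : ∀ u ∈ U, ∀ v ∈ U, ∀ w ∈ U, p u = 1 → p v ≠ 1 → p w ≠ 1 → u ≠ 1 → v * w ≠ 1 →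
      u * (v * w) ≠ 1 → ∃ a1 ∈ U, ∃ a2 ∈ U, a1 ≠ 1 ∧ a2 ≠ 1 ∧ a1 * a2 ≠ 1 ∧
      b * a1 * b⁻¹ = a1 ∧ b * a2 * b⁻¹ = a2 := by
    intro u hu v hv w hw hu1 hv1 hw1 k1 k2 k3
    by_cases h : p v = p w
    · exact ⟨u, hu, v * w, mul_mem hv hw, k1, k2, k3, hone u hu hu1, same v hv w hw h⟩
    · exact pair v hv w hw hv1 hw1 h
  by_cases q1 : p e1 = 1
  · by_cases q2 : p e2 = 1
    · exact ⟨e1, m1, e2, m2, n1, n2, n12, hone e1 m1 q1, hone e2 m2 q2⟩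
    · by_cases q3 : p e3 = 1
      · exact ⟨e1, m1, e3, m3, n1, n3, n13, hone e1 m1 q1, hone e3 m3 q3⟩
      · exact one3 e1 m1 e2 m2 e3 m3 q1 q2 q3 n1 n23 (by rw [← mul_assoc]; exact n123)
  · by_cases q2 : p e2 = 1
    · by_cases q3 : p e3 = 1
      · exact ⟨e2, m2, e3, m3, n2, n3, n23, hone e2 m2 q2, hone e3 m3 q3⟩
      · refine one3 e2 m2 e1 m1 e3 m3 q2 q1 q3 n2 n13 ?_
        rw [← mul_assoc, hc e2 m2 e1 m1]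
        exact n123
    · by_cases q3 : p e3 = 1
      · refine one3 e3 m3 e1 m1 e2 m2 q3 q1 q2 n3 n12 ?_
        rw [hc e3 m3 _ (mul_mem m1 m2)]
        exact n123
      · by_cases q12 : p e1 = p e2
        · by_cases q13 : p e1 = p e3
          · refine ⟨e1 * e2, mul_mem m1 m2, e1 * e3, mul_mem m1 m3, n12, n13, ?_,
              same e1 m1 e2 m2 q12, same e1 m1 e3 m3 q13⟩
            have h4 : e1 * e2 * (e1 * e3) = e2 * e3 := by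
              rw [hc e1 m1 e2 m2]
              calc e2 * e1 * (e1 * e3) = e2 * (e1 * e1) * e3 := by group
                _ = e2 * e3 := by rw [h2 e1 m1, mul_one]
            rw [h4]
            exact n23
          · exact pair e1 m1 e3 m3 q1 q3 q13
        · exact pair e1 m1 e2 m2 q1 q2 q12

theorem CCb_abs {G : Type*} [Group G] (F T N T1 Z : Subgroup G)
    (hTc : ∀ s ∈ T, ∀ t ∈ T, s * t = t * s) (hTN : T ≤ N)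
    (hNT : ∀ g ∈ N, ∀ t ∈ T, g * t * g⁻¹ ∈ T) (hZT : Z ≤ T)
    (hZc : ∀ z ∈ Z, ∀ f ∈ F, f * z = z * f) (hT1F : T1 ≤ F) (hT1T : T1 ≤ T)
    (c3 : ∀ x s t : G, x ∈ F → x ∉ N → s ∈ F → s ∈ T → s ∉ Z → x * s * x⁻¹ ∈ N → t ∈ F →
      t ∈ T → (t * (x * s * x⁻¹) * t⁻¹ * (x * s * x⁻¹)⁻¹ ∈ Z ↔ x⁻¹ * t * x ∈ N))
    (w : ∀ x s : G, x ∈ F → x ∉ N → s ∈ F → s ∈ T → s ∉ Z → x * s * x⁻¹ ∈ N →
      ∃ t ∈ T1, (t * t) * (x * s * x⁻¹) * (t * t)⁻¹ * (x * s * x⁻¹)⁻¹ ∉ Z)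
    {a1 a2 x : G} (ha1 : a1 ∈ F) (ha1T : a1 ∈ T) (hz1 : a1 * a1 ∈ Z) (n1 : a1 ∉ Z)
    (ha2 : a2 ∈ F) (ha2T : a2 ∈ T) (hz2 : a2 * a2 ∈ Z) (n2 : a2 ∉ Z) (n12 : a1 * a2 ∉ Z)
    (hx : x ∈ F) (hxN : x ∉ N) (hb1 : x⁻¹ * a1 * x ∈ N) (hb2 : x⁻¹ * a2 * x ∈ N) : False := by
  have hx' : x⁻¹ ∈ F := inv_mem hx
  have hxN' : x⁻¹ ∉ N := fun h => hxN (by simpa using inv_mem h)
  have c3' : ∀ s t : G, s ∈ F → s ∈ T → s ∉ Z → x⁻¹ * s * x ∈ N → t ∈ F → t ∈ T →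
      (t * (x⁻¹ * s * x) * t⁻¹ * (x⁻¹ * s * x)⁻¹ ∈ Z ↔ x * t * x⁻¹ ∈ N) := by
    intro s t h1 h2 h3 h4 h5 h6
    have h7 := c3 x⁻¹ s t hx' hxN' h1 h2 h3 (by rw [inv_inv]; exact h4) h5 h6
    rw [inv_inv] at h7
    exact h7
  have R1 : ∀ s : G, s ∈ F → s ∈ T → s * s ∈ Z → s ∉ Z → x⁻¹ * s * x ∈ N → ∀ t ∈ F, t ∈ T →
      x * (t * ((x⁻¹ * s * x) * t * (x⁻¹ * s * x)⁻¹)) * x⁻¹ ∈ N := by
    intro s hs hsT hss hsZ hsN t ht htT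
    have hcc : (x⁻¹ * s * x) * (x⁻¹ * s * x) = s * s := by
      have h1 : (x⁻¹ * s * x) * (x⁻¹ * s * x) = x⁻¹ * (s * s) * x := by group
      rw [h1, hZc _ hss _ hx', mul_assoc, inv_mul_cancel, mul_one]
    have hcF : x⁻¹ * s * x ∈ F := mul_mem (mul_mem hx' hs) hx
    have htF' : (x⁻¹ * s * x) * t * (x⁻¹ * s * x)⁻¹ ∈ F := mul_mem (mul_mem hcF ht) (inv_mem hcF)
    have htT' : (x⁻¹ * s * x) * t * (x⁻¹ * s * x)⁻¹ ∈ T := hNT _ hsN t htT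
    refine (c3' s _ hs hsT hsZ hsN (mul_mem ht htF') (mul_mem htT htT')).1 ?_
    have hkey : (x⁻¹ * s * x) * (t * ((x⁻¹ * s * x) * t * (x⁻¹ * s * x)⁻¹)) * (x⁻¹ * s * x)⁻¹ =
        t * ((x⁻¹ * s * x) * t * (x⁻¹ * s * x)⁻¹) := by
      generalize x⁻¹ * s * x = c at hcc htT' ⊢
      have h1 : c * (t * (c * t * c⁻¹)) * c⁻¹ = (c * t * c⁻¹) * ((c * c) * t * (c * c)⁻¹) := by
        group
      have h2 : (c * c) * t * (c * c)⁻¹ = t := by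
        rw [hcc, ← hZc _ hss _ ht, mul_inv_cancel_right]
      rw [h1, h2, hTc _ htT' _ htT]
    have h3 : t * ((x⁻¹ * s * x) * t * (x⁻¹ * s * x)⁻¹) * (x⁻¹ * s * x) *
        (t * ((x⁻¹ * s * x) * t * (x⁻¹ * s * x)⁻¹))⁻¹ * (x⁻¹ * s * x)⁻¹ = 1 := by
      generalize x⁻¹ * s * x = c at hkey ⊢
      generalize t * (c * t * c⁻¹) = y at hkey ⊢
      have h4 : c * y = y * c := by
        rw [mul_inv_eq_iff_eq_mul] at hkey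
        exact hkey
      rw [← h4]
      group
    rw [h3]
    exact one_mem _
  have R2 : ∀ u ∈ F, u ∈ T → x * u * x⁻¹ ∈ N →
      x * ((x⁻¹ * a1 * x) * u * (x⁻¹ * a1 * x)⁻¹) * x⁻¹ ∈ N := by
    intro u hu huT huN
    have hz := (c3' a1 u ha1 ha1T n1 hb1 hu huT).2 huN
    generalize x⁻¹ * a1 * x = c at hz ⊢
    have h1 : c * u * c⁻¹ = (u * c * u⁻¹ * c⁻¹)⁻¹ * u := by group
    have h2 : x * (c * u * c⁻¹) * x⁻¹ = (u * c * u⁻¹ * c⁻¹)⁻¹ * (x * u * x⁻¹) := by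
      rw [h1, ← mul_assoc x, hZc _ (inv_mem hz) _ hx]
      group
    rw [h2]
    exact mul_mem (hTN (hZT (inv_mem hz))) huN
  have hb12 : x⁻¹ * (a1 * a2) * x = (x⁻¹ * a1 * x) * (x⁻¹ * a2 * x) := by group
  have hz12 : (a1 * a2) * (a1 * a2) ∈ Z := by
    have h1 : (a1 * a2) * (a1 * a2) = (a1 * a1) * (a2 * a2) := by
      calc (a1 * a2) * (a1 * a2) = a1 * (a2 * a1) * a2 := by group
        _ = a1 * (a1 * a2) * a2 := by rw [hTc a2 ha2T a1 ha1T]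
        _ = (a1 * a1) * (a2 * a2) := by group
    rw [h1]
    exact mul_mem hz1 hz2
  obtain ⟨t, ht1, hw⟩ := w x⁻¹ a1 hx' hxN' ha1 ha1T n1 (by rw [inv_inv]; exact hb1)
  apply hw
  rw [inv_inv]
  have ht : t ∈ F := hT1F ht1
  have htT : t ∈ T := hT1T ht1
  refine (c3' a1 (t * t) ha1 ha1T n1 hb1 (mul_mem ht ht) (mul_mem htT htT)).2 ?_
  have e1 := R1 a1 ha1 ha1T hz1 n1 hb1 t ht htT
  have e2 := R1 a2 ha2 ha2T hz2 n2 hb2 t ht htT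
  have e3 := R1 (a1 * a2) (mul_mem ha1 ha2) (mul_mem ha1T ha2T) hz12 n12
    (by rw [hb12]; exact mul_mem hb1 hb2) t ht htT
  have hcF1 : x⁻¹ * a1 * x ∈ F := mul_mem (mul_mem hx' ha1) hx
  have hcF2 : x⁻¹ * a2 * x ∈ F := mul_mem (mul_mem hx' ha2) hx
  have hvT : (x⁻¹ * a1 * x) * t * (x⁻¹ * a1 * x)⁻¹ ∈ T := hNT _ hb1 t htT
  have huT : (x⁻¹ * a2 * x) * t * (x⁻¹ * a2 * x)⁻¹ ∈ T := hNT _ hb2 t htT
  have huF : (x⁻¹ * a2 * x) * t * (x⁻¹ * a2 * x)⁻¹ ∈ F := mul_mem (mul_mem hcF2 ht) (inv_mem hcF2)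
  have e4 := R2 _ (mul_mem ht huF) (mul_mem htT huT) e2
  have hu'T := hNT _ hb1 _ (mul_mem htT huT)
  rw [hb12] at e3
  generalize x⁻¹ * a1 * x = c at e1 e3 e4 hvT hu'T
  generalize x⁻¹ * a2 * x = d at e2 e3 e4 huT hu'T
  have h5 : t * ((c * d) * t * (c * d)⁻¹) =
      (t * t) * (t * (c * t * c⁻¹))⁻¹ * (c * (t * (d * t * d⁻¹)) * c⁻¹) := by
    have h6 : (c * d) * t * (c * d)⁻¹ =
        (c * t * c⁻¹)⁻¹ * (c * (t * (d * t * d⁻¹)) * c⁻¹) := by group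
    rw [h6]
    have h7 : (t * t) * (t * (c * t * c⁻¹))⁻¹ = t * (c * t * c⁻¹)⁻¹ := by
      have h8 : (t * (c * t * c⁻¹))⁻¹ = t⁻¹ * (c * t * c⁻¹)⁻¹ := by
        rw [hTc t htT _ hvT, mul_inv_rev]
      rw [h8]
      group
    rw [h7]
    group
  have h9 : x * (t * t) * x⁻¹ = (x * (t * ((c * d) * t * (c * d)⁻¹)) * x⁻¹) *
      (x * (c * (t * (d * t * d⁻¹)) * c⁻¹) * x⁻¹)⁻¹ * (x * (t * (c * t * c⁻¹)) * x⁻¹) := by
    rw [h5]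
    group
  rw [h9]
  exact mul_mem (mul_mem e3 (inv_mem e4)) e1

/-- job EL-41 -/
theorem hprop (H : Hyp C K) (X : Ctx F) (h3 : Ind3 F) {s x : LL C K ≃ₗ[K] LL C K}
    (hs : s ∈ EE F) (hsZ : s ∉ Zc F) (hx : x ∈ F) (hb : x * s * x⁻¹ ∈ NN C K) :
    x ∈ NN C K := by
  by_contra hxN
  have hZT : Zc F ≤ TT C K := Zc_le_TT H X
  have hZc : ∀ z ∈ Zc F, ∀ f ∈ F, f * z = z * f := by
    intro z hz f hf
    exact (Subgroup.mem_centralizer_iff.1 hz.2 f hf)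
  have hZF : Zc F ≤ F := inf_le_left
  have hTc : ∀ s ∈ TT C K, ∀ t ∈ TT C K, s * t = t * s := fun s hs t ht => TT_comm H hs ht
  have hbF : x * s * x⁻¹ ∈ F := mul_mem (mul_mem hx hs.1) (inv_mem hx)
  have hbb : (x * s * x⁻¹) * (x * s * x⁻¹) ∈ Zc F := by
    have h1 : (x * s * x⁻¹) * (x * s * x⁻¹) = x * (s * s) * x⁻¹ := by group
    rw [h1, hZc _ hs.2.2 _ hx, mul_inv_cancel_right]
    exact hs.2.2
  let Z' : Subgroup F := (Zc F).subgroupOf F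
  have hnorm : Z'.Normal := by
    constructor
    intro z hz f
    rw [Subgroup.mem_subgroupOf] at hz ⊢
    have h1 : ((f * z * f⁻¹ : F) : LL C K ≃ₗ[K] LL C K) = (z : LL C K ≃ₗ[K] LL C K) := by
      show (f : LL C K ≃ₗ[K] LL C K) * z * (f : LL C K ≃ₗ[K] LL C K)⁻¹ = z
      rw [hZc _ hz _ f.2, mul_inv_cancel_right]
    rw [h1]
    exact hz
  let π : F →* F ⧸ Z' := QuotientGroup.mk' Z'
  have hπ : ∀ u : F, π u = 1 ↔ (u : LL C K ≃ₗ[K] LL C K) ∈ Zc F := by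
    intro u
    show (QuotientGroup.mk u : F ⧸ Z') = 1 ↔ _
    rw [QuotientGroup.eq_one_iff, Subgroup.mem_subgroupOf]
  let E : Subgroup F :=
    { carrier := {e | (e : LL C K ≃ₗ[K] LL C K) ∈ EE F}
      one_mem' := by
        refine ⟨one_mem _, one_mem _, ?_⟩
        show ((1 : F) : LL C K ≃ₗ[K] LL C K) * ((1 : F) : LL C K ≃ₗ[K] LL C K) ∈ Zc F
        rw [Subgroup.coe_one, mul_one]
        exact one_mem _
      mul_mem' := by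
        rintro a b ⟨ha, haT, ha2⟩ ⟨hb, hbT, hb2⟩
        refine ⟨mul_mem ha hb, mul_mem haT hbT, ?_⟩
        have h1 : ((a : LL C K ≃ₗ[K] LL C K) * b) * (a * b) = (a * a) * (b * b) := by
          calc ((a : LL C K ≃ₗ[K] LL C K) * b) * (a * b) = a * (b * a) * b := by group
            _ = a * (a * b) * b := by rw [hTc _ hbT _ haT]
            _ = (a * a) * (b * b) := by group
        show ((a : LL C K ≃ₗ[K] LL C K) * b) * (a * b) ∈ Zc F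
        rw [h1]
        exact mul_mem ha2 hb2
      inv_mem' := by
        rintro a ⟨ha, haT, ha2⟩
        refine ⟨inv_mem ha, inv_mem haT, ?_⟩
        show (a : LL C K ≃ₗ[K] LL C K)⁻¹ * (a : LL C K ≃ₗ[K] LL C K)⁻¹ ∈ Zc F
        rw [← mul_inv_rev]
        exact inv_mem ha2 }
  let b : F := ⟨x * s * x⁻¹, hbF⟩
  obtain ⟨e1, he1, e2, he2, e3, he3, k1, k2, k3, k12, k13, k23, k123⟩ := h3
  have hne : ∀ u : F, (u : LL C K ≃ₗ[K] LL C K) ∉ Zc F → π u ≠ 1 := fun u hu h => hu ((hπ u).1 h)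
  obtain ⟨A1, hA1, A2, hA2, j1, j2, j12, f1, f2⟩ := CCb_two (E.map π) (π b)
    (by
      rintro _ ⟨u, hu, rfl⟩ _ ⟨v, hv, rfl⟩
      rw [← map_mul, ← map_mul]
      congr 1
      exact Subtype.ext (hTc _ hu.2.1 _ hv.2.1))
    (by
      rintro _ ⟨u, hu, rfl⟩
      rw [← map_mul]
      exact (hπ _).2 hu.2.2)
    (by
      rintro _ ⟨u, hu, rfl⟩
      refine ⟨b * u * b⁻¹, ?_, by simp⟩
      refine ⟨(b * u * b⁻¹).2, NN_conj_TT H hb _ hu.2.1, ?_⟩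
      have h1 : ((b * u * b⁻¹ : F) : LL C K ≃ₗ[K] LL C K) * ((b * u * b⁻¹ : F) : LL C K ≃ₗ[K] LL C K)
          = (u : LL C K ≃ₗ[K] LL C K) * u := by
        have h2 : ((b * u * b⁻¹ : F) : LL C K ≃ₗ[K] LL C K) * ((b * u * b⁻¹ : F) : LL C K ≃ₗ[K] LL C K)
          = (b : LL C K ≃ₗ[K] LL C K) * (u * u) * (b : LL C K ≃ₗ[K] LL C K)⁻¹ := by
          show (b : LL C K ≃ₗ[K] LL C K) * u * (b : LL C K ≃ₗ[K] LL C K)⁻¹ *
            ((b : LL C K ≃ₗ[K] LL C K) * u * (b : LL C K ≃ₗ[K] LL C K)⁻¹) = _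
          group
        rw [h2, hZc _ hu.2.2 _ b.2, mul_inv_cancel_right]
      rw [h1]
      exact hu.2.2)
    (by
      rw [← map_mul]
      exact (hπ _).2 hbb)
    (e1 := π ⟨e1, he1.1⟩) (e2 := π ⟨e2, he2.1⟩) (e3 := π ⟨e3, he3.1⟩)
    ⟨_, he1, rfl⟩ ⟨_, he2, rfl⟩ ⟨_, he3, rfl⟩ (hne _ k1) (hne _ k2) (hne _ k3)
    (by rw [← map_mul]; exact hne _ k12) (by rw [← map_mul]; exact hne _ k13)
    (by rw [← map_mul]; exact hne _ k23) (by rw [← map_mul, ← map_mul]; exact hne _ k123)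
  obtain ⟨a1, ha1, rfl⟩ := hA1
  obtain ⟨a2, ha2, rfl⟩ := hA2
  have hcomm : ∀ a : F, π b * π a * (π b)⁻¹ = π a →
      (a : LL C K ≃ₗ[K] LL C K) * (x * s * x⁻¹) * (a : LL C K ≃ₗ[K] LL C K)⁻¹ *
        (x * s * x⁻¹)⁻¹ ∈ Zc F := by
    intro a h
    have h1 : π (a * b * a⁻¹ * b⁻¹) = 1 := by
      rw [map_mul, map_mul, map_mul, map_inv, map_inv]
      have h2 : π b * π a = π a * π b := by
        rw [mul_inv_eq_iff_eq_mul] at h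
        exact h
      rw [← h2]
      group
    exact (hπ _).1 h1
  have hN1 : x⁻¹ * (a1 : LL C K ≃ₗ[K] LL C K) * x ∈ NN C K :=
    (c3a H X hx hxN hs.1 hs.2.1 hsZ hb ha1.1 ha1.2.1).1 (hcomm a1 f1)
  have hN2 : x⁻¹ * (a2 : LL C K ≃ₗ[K] LL C K) * x ∈ NN C K :=
    (c3a H X hx hxN hs.1 hs.2.1 hsZ hb ha2.1 ha2.2.1).1 (hcomm a2 f2)
  refine CCb_abs F (TT C K) (NN C K) (T1 C K) (Zc F) hTc TT_le_NN
    (fun g hg t ht => NN_conj_TT H hg t ht) hZT hZc X.hT (T1_le_TT H)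
    (fun x s t h1 h2 h3 h4 h5 h6 h7 h8 => c3a H X h1 h2 h3 h4 h5 h6 h7 h8)
    (fun x s h1 h2 h3 h4 h5 h6 => w1 H X h1 h2 h3 h4 h5 h6)
    ha1.1 ha1.2.1 ha1.2.2 (fun h => j1 ((hπ _).2 h)) ha2.1 ha2.2.1 ha2.2.2
    (fun h => j2 ((hπ _).2 h)) (fun h => j12 ?_) hx hxN hN1 hN2
  rw [← map_mul]
  exact (hπ _).2 h

end Pool.Agent.H33.EL
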