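import Mathlib

/-!
# EL-20: coprime action of an abelian group: generation

`P` a `p`-group, `A` an abelian `p'`-group normalising `P`.  Then `P` is generated by the
elements `u ∈ P` which commute with some `B ≤ A` with `A/B` cyclic.

Proof.  Induction on `|P|`.  Let `P ≠ 1`.  Let `Ω` be the set of elements of order dividing `p`
in the center of `P`; it is a non trivial elementary abelian group normalised by `A`.  Let `V`
be a minimal non trivial `A`-invariant subgroup of `Ω`.  `V` is normal in `P` (central).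
(1) `A` acts on `V` through a cyclic quotient: let `B` be the kernel.  Let `R` be the subring
of `End(V)` generated by the image of `A`; it is commutative and `V` is a simple `R`-module
(`R`-submodules are `A`-invariant subgroups), so for `0 ≠ v ∈ V`, `R → V`, `r ↦ r v` is onto
with kernel a maximal ideal `I`; `I` annihilates `V = R v` (commutative), so `R` is a field
(finite), and `A/B` is a subgroup of the cyclic group `R^*`.
(Alternative without rings: Schur's lemma for the module; or choose `B` as follows.)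
So all of `V` commutes with `B`, `A/B` cyclic.
(2) Induction for `P/V` with the action of `A`: `P/V` is generated by the classes `uV` with
`b u b⁻¹ ∈ u V` for all `b ∈ B_u`, `A/B_u` cyclic.  For such `u`: `c(b) = u⁻¹ b u b⁻¹ ∈ V`
satisfies `c(b b') = c(b) · b c(b') b⁻¹` (`V` central in `P`); averaging over `B_u`
(`|B_u|` prime to `p`) gives `v ∈ V` with `c(b) = v (b v b⁻¹)⁻¹` (as in the abelian case of
Schur-Zassenhaus), so `u v` commutes with `B_u`.  So `P` is generated by `V` and such elements.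
To avoid quotients one can instead prove by induction on `|P/W|` ... as preferred.
`A/B` cyclic is expressed by `∃ z ∈ A, ∀ a ∈ A, ∃ k : ℤ, z ^ k * a ∈ B`.
-/

namespace Pool.Agent.H33.EL

/-- A homomorphism from a finite group to a domain has cyclic image. -/
private theorem grpC_cyc {A R : Type} [Group A] [Finite A] [Ring R] [IsDomain R]
    (hR : ∀ x y : R, x * y = y * x) (f : A →* R) :
    ∃ z : A, ∀ a : A, ∃ k : ℤ, f (z ^ k * a) = 1 := by
  letI : CommRing R := { (inferInstance : Ring R) with mul_comm := hR }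
  let g : A →* Rˣ := f.toHomUnits
  have hfin : Finite g.range := Finite.of_surjective g.rangeRestrict g.rangeRestrict_surjective
  have hcyc : IsCyclic g.range :=
    isCyclic_of_injective_ringHom ((Units.coeHom R).comp g.range.subtype)
      (Units.val_injective.comp Subtype.val_injective)
  obtain ⟨⟨w, hw⟩, hg⟩ := IsCyclic.exists_generator (α := g.range)
  obtain ⟨z, rfl⟩ := hw
  refine ⟨z, fun a => ?_⟩
  obtain ⟨j, hj⟩ := Subgroup.mem_zpowers_iff.1 (hg ⟨g a, ⟨a, rfl⟩⟩)
  have h1 : g z ^ j = g a := congrArg Subtype.val hj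
  refine ⟨-j, ?_⟩
  have h2 : g (z ^ (-j) * a) = 1 := by
    rw [map_mul, map_zpow, zpow_neg, h1, inv_mul_cancel]
  have h3 : ((g (z ^ (-j) * a) : Rˣ) : R) = 1 := by
    rw [h2, Units.val_one]
  exact h3

/-- An irreducible action of an abelian group on a finite abelian group has cyclic image. -/
private theorem grpC_irr {V A : Type} [AddCommGroup V] [Nontrivial V] [Group A] [Finite A]
    (hcomm : ∀ a b : A, a * b = b * a) (ψ : A →* AddMonoid.End V)
    (hmin : ∀ W : AddSubgroup V, (∀ a, ∀ w ∈ W, ψ a w ∈ W) → W = ⊥ ∨ W = ⊤) :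
    ∃ z : A, ∀ a : A, ∃ k : ℤ, ψ (z ^ k * a) = 1 := by
  classical
  have hc : ∀ x ∈ Set.range ψ, ∀ y ∈ Set.range ψ, x * y = y * x := by
    rintro _ ⟨a, rfl⟩ _ ⟨b, rfl⟩
    rw [← map_mul, ← map_mul, hcomm]
  have hcm : IsMulCommutative (Subring.closure (Set.range ψ)) :=
    Subring.isMulCommutative_closure hc
  have hinj : ∀ x : Subring.closure (Set.range ψ), x ≠ 0 →
      ∀ v : V, (x : AddMonoid.End V) v = 0 → v = 0 := by
    intro x hx v hv
    have hW := hmin (AddMonoidHom.ker (x : AddMonoid.End V)) (by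
      intro a w hw
      have hw' : (x : AddMonoid.End V) w = 0 := hw
      have h1 : x * ⟨ψ a, Subring.subset_closure ⟨a, rfl⟩⟩
          = ⟨ψ a, Subring.subset_closure ⟨a, rfl⟩⟩ * x := hcm.is_comm.comm _ _
      have h2 : (x : AddMonoid.End V) * ψ a = ψ a * (x : AddMonoid.End V) :=
        congrArg Subtype.val h1
      change (x : AddMonoid.End V) (ψ a w) = 0
      have h3 : ((x : AddMonoid.End V) * ψ a) w = (ψ a * (x : AddMonoid.End V)) w := by rw [h2]
      change (x : AddMonoid.End V) (ψ a w) = ψ a ((x : AddMonoid.End V) w) at h3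
      rw [h3, hw', map_zero])
    rcases hW with hW | hW
    · have : v ∈ AddMonoidHom.ker (x : AddMonoid.End V) := hv
      rw [hW] at this
      exact this
    · exfalso
      apply hx
      apply Subtype.ext
      apply AddMonoidHom.ext
      intro w
      have : w ∈ AddMonoidHom.ker (x : AddMonoid.End V) := by
        rw [hW]
        exact AddSubgroup.mem_top w
      exact this
  obtain ⟨v0, hv0⟩ := exists_ne (0 : V)
  have hnt : Nontrivial (Subring.closure (Set.range ψ)) := by
    refine ⟨⟨0, 1, fun h => hv0 ?_⟩⟩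
    have h1 : ((0 : Subring.closure (Set.range ψ)) : AddMonoid.End V) v0
        = ((1 : Subring.closure (Set.range ψ)) : AddMonoid.End V) v0 := by rw [h]
    exact h1.symm
  have hnz : NoZeroDivisors (Subring.closure (Set.range ψ)) := by
    refine ⟨fun {x y} hxy => ?_⟩
    by_contra hne
    rw [not_or] at hne
    apply hv0
    apply hinj y hne.2
    apply hinj x hne.1
    have h1 : ((x * y : Subring.closure (Set.range ψ)) : AddMonoid.End V) v0
        = ((0 : Subring.closure (Set.range ψ)) : AddMonoid.End V) v0 := by rw [hxy]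
    exact h1
  have hdom : IsDomain (Subring.closure (Set.range ψ)) := NoZeroDivisors.to_isDomain _
  let f : A →* Subring.closure (Set.range ψ) :=
    { toFun := fun a => ⟨ψ a, Subring.subset_closure ⟨a, rfl⟩⟩
      map_one' := by
        apply Subtype.ext
        exact map_one ψ
      map_mul' := fun a b => by
        apply Subtype.ext
        exact map_mul ψ a b }
  obtain ⟨z, hz⟩ := grpC_cyc (fun x y => hcm.is_comm.comm x y) f
  refine ⟨z, fun a => ?_⟩
  obtain ⟨k, hk⟩ := hz a
  exact ⟨k, congrArg Subtype.val hk⟩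

/-- averaging -/
private theorem grpC_avg {P A : Type} [Group P] [Finite P] [Group A] [Finite A] {p : ℕ}
    [hp : Fact p.Prime] (hP : IsPGroup p P) (φ : A →* MulAut P) (V : Subgroup P)
    (hVc : V ≤ Subgroup.center P) (hV : ∀ a, ∀ v ∈ V, φ a v ∈ V) (B : Subgroup A)
    (hB : ¬ p ∣ Nat.card B) (u : P) (hu : ∀ b ∈ B, u⁻¹ * φ b u ∈ V) :
    ∃ v ∈ V, ∀ b ∈ B, φ b (u * v) = u * v := by
  classical
  letI : CommGroup V := { (inferInstance : Group V) with
    mul_comm := fun x y => by
      apply Subtype.ext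
      exact (Subgroup.mem_center_iff.1 (hVc x.2) y.1).symm }
  haveI : Fintype B := Fintype.ofFinite B
  let c : B → V := fun b => ⟨u⁻¹ * φ b u, hu b b.2⟩
  let F : A → (V →* V) := fun a =>
    { toFun := fun v => ⟨φ a v, hV a v v.2⟩
      map_one' := by
        apply Subtype.ext
        exact map_one (φ a)
      map_mul' := fun v w => by
        apply Subtype.ext
        exact map_mul (φ a) v.1 w.1 }
  have hcoc : ∀ b b' : B, c (b * b') = c b * F b (c b') := by
    intro b b'
    apply Subtype.ext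
    change u⁻¹ * φ (b.1 * b'.1) u = u⁻¹ * φ b.1 u * φ b.1 (u⁻¹ * φ b'.1 u)
    rw [map_mul φ, MulAut.mul_apply, map_mul (φ b.1), map_inv]
    group
  let s : V := ∏ b : B, c b
  have hs : ∀ b : B, s = c b ^ Nat.card B * F b s := by
    intro b
    calc s = ∏ b' : B, c (b * b') := (Fintype.prod_equiv (Equiv.mulLeft b) _ _ fun _ => rfl).symm
      _ = ∏ b' : B, c b * F b (c b') := Finset.prod_congr rfl fun b' _ => hcoc b b'
      _ = c b ^ Nat.card B * F b s := by
        rw [Finset.prod_mul_distrib, Finset.prod_const, Finset.card_univ, map_prod,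
          Nat.card_eq_fintype_card]
  have hcop : Nat.Coprime (Nat.card B) (Nat.card V) := by
    obtain ⟨m, hm⟩ := IsPGroup.iff_card.1 (hP.to_subgroup V)
    rw [hm]
    exact (((Nat.Prime.coprime_iff_not_dvd hp.out).2 hB).symm).pow_right m
  have hbez := Nat.gcd_eq_gcd_ab (Nat.card B) (Nat.card V)
  rw [hcop.gcd_eq_one] at hbez
  set a := Nat.gcdA (Nat.card B) (Nat.card V) with ha
  set e := Nat.gcdB (Nat.card B) (Nat.card V) with he
  have hpow : ∀ x : V, (x ^ Nat.card B) ^ a = x := by
    intro x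
    have h1 : (x ^ Nat.card B) ^ a = x ^ ((Nat.card B : ℤ) * a) := by
      rw [zpow_mul, zpow_natCast]
    have h2 : (Nat.card B : ℤ) * a = 1 - (Nat.card V : ℤ) * e := by
      push_cast at hbez
      linarith
    rw [h1, h2, zpow_sub, zpow_one, zpow_mul, zpow_natCast, pow_card_eq_one', one_zpow]
    simp
  refine ⟨(s ^ a : V), (s ^ a : V).2, fun b hb => ?_⟩
  have h1 : s ^ a = c ⟨b, hb⟩ * F b (s ^ a) := by
    have h2 := hs ⟨b, hb⟩
    calc s ^ a = (c ⟨b, hb⟩ ^ Nat.card B * F b s) ^ a := by
          conv_lhs => rw [h2]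
      _ = c ⟨b, hb⟩ * F b (s ^ a) := by
        rw [mul_zpow, hpow, map_zpow]
  have h3 : ((s ^ a : V) : P) = u⁻¹ * φ b u * φ b ((s ^ a : V) : P) := congrArg Subtype.val h1
  rw [map_mul]
  calc φ b u * φ b ((s ^ a : V) : P) = u * (u⁻¹ * φ b u * φ b ((s ^ a : V) : P)) := by group
    _ = u * ((s ^ a : V) : P) := by rw [← h3]

private theorem grpC_abs {p : ℕ} [hp : Fact p.Prime] (n : ℕ) :
    ∀ (P : Type) [Group P] [Finite P] (A : Type) [Group A] [Finite A] (_ : Nat.card P = n)
      (_ : IsPGroup p P) (_ : ¬ p ∣ Nat.card A) (_ : ∀ a b : A, a * b = b * a)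
      (φ : A →* MulAut P),
    Subgroup.closure {u : P | ∃ B : Subgroup A, (∃ z : A, ∀ a : A, ∃ k : ℤ, z ^ k * a ∈ B) ∧
      ∀ b ∈ B, φ b u = u} = ⊤ := by
  induction n using Nat.strong_induction_on with
  | _ n ih =>
  intro P _ _ A _ _ hcard hP hA hcomm φ
  rcases subsingleton_or_nontrivial P with hs | hs
  · rw [eq_top_iff]
    intro x _
    rw [Subsingleton.elim x 1]
    exact one_mem _
  let S : Set (Subgroup P) :=
    {W | W ≠ ⊥ ∧ W ≤ Subgroup.center P ∧ ∀ a, ∀ w ∈ W, φ a w ∈ W}
  have hS : (Subgroup.center P) ∈ S := by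
    refine ⟨hP.bot_lt_center.ne', le_rfl, fun a w hw => ?_⟩
    have h1 : Subgroup.center P ≤ (Subgroup.center P).comap (φ a).toMonoidHom :=
      Subgroup.characteristic_iff_le_comap.1 inferInstance (φ a)
    exact h1 hw
  obtain ⟨V, ⟨hVb, hVc, hV⟩, hVmin⟩ :=
    WellFounded.has_min (wellFounded_lt : WellFounded ((· < ·) : Subgroup P → Subgroup P → Prop))
      S ⟨_, hS⟩
  have hVn : V.Normal := ⟨fun v hv g => by
    have h1 := Subgroup.mem_center_iff.1 (hVc hv) g
    rw [h1, mul_inv_cancel_right]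
    exact hv⟩
  -- the elements of `V`
  have hVS : ∃ B : Subgroup A, (∃ z : A, ∀ a : A, ∃ k : ℤ, z ^ k * a ∈ B) ∧
      ∀ v ∈ V, ∀ b ∈ B, φ b v = v := by
    letI : CommGroup V := { (inferInstance : Group V) with
      mul_comm := fun x y => by
        apply Subtype.ext
        exact (Subgroup.mem_center_iff.1 (hVc x.2) y.1).symm }
    haveI : Nontrivial V := (Subgroup.nontrivial_iff_ne_bot V).2 hVb
    let F : A → (V →* V) := fun a =>
      { toFun := fun v => ⟨φ a v, hV a v v.2⟩
        map_one' := by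
          apply Subtype.ext
          exact map_one (φ a)
        map_mul' := fun v w => by
          apply Subtype.ext
          exact map_mul (φ a) v.1 w.1 }
    let ψ : A →* AddMonoid.End (Additive V) :=
      { toFun := fun a => MonoidHom.toAdditive (F a)
        map_one' := by
          apply AddMonoidHom.ext
          intro v
          change Additive.ofMul (F 1 v.toMul) = v
          have : F 1 v.toMul = v.toMul := by
            apply Subtype.ext
            change φ 1 _ = _
            rw [map_one]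
            rfl
          rw [this]
          rfl
        map_mul' := fun a b => by
          apply AddMonoidHom.ext
          intro v
          change Additive.ofMul (F (a * b) v.toMul) = Additive.ofMul (F a (F b v.toMul))
          have : F (a * b) v.toMul = F a (F b v.toMul) := by
            apply Subtype.ext
            change φ (a * b) _ = φ a (φ b _)
            rw [map_mul]
            rfl
          rw [this] }
    obtain ⟨z, hz⟩ := grpC_irr hcomm ψ (by
      intro W hW
      let W' : Subgroup P :=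
        { carrier := {x | ∃ h : x ∈ V, Additive.ofMul (⟨x, h⟩ : V) ∈ W}
          one_mem' := ⟨one_mem V, W.zero_mem⟩
          mul_mem' := fun {x y} hx hy => by
            obtain ⟨h1, h2⟩ := hx
            obtain ⟨h3, h4⟩ := hy
            exact ⟨mul_mem h1 h3, W.add_mem h2 h4⟩
          inv_mem' := fun {x} hx => by
            obtain ⟨h1, h2⟩ := hx
            exact ⟨inv_mem h1, W.neg_mem h2⟩ }
      have hW'V : W' ≤ V := fun x hx => hx.1
      by_cases hb : W' = ⊥
      · left
        rw [eq_bot_iff]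
        intro w hw
        have h1 : (w.toMul : P) ∈ W' := ⟨w.toMul.2, hw⟩
        rw [hb, Subgroup.mem_bot] at h1
        have h2 : w.toMul = 1 := Subtype.ext h1
        change w = 0
        exact h2
      · right
        have hmem : W' ∈ S := by
          refine ⟨hb, hW'V.trans hVc, fun a w hw => ?_⟩
          obtain ⟨h1, h2⟩ := hw
          exact ⟨hV a w h1, hW a _ h2⟩
        have hnlt := hVmin W' hmem
        have heq : W' = V := by
          by_contra hne
          exact hnlt (lt_of_le_of_ne hW'V hne)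
        rw [eq_top_iff]
        intro w _
        have h1 : (w.toMul : P) ∈ W' := by
          rw [heq]
          exact w.toMul.2
        obtain ⟨h2, h3⟩ := h1
        exact h3)
    refine ⟨ψ.ker, ⟨z, fun a => ?_⟩, fun v hv b hb => ?_⟩
    · obtain ⟨k, hk⟩ := hz a
      exact ⟨k, hk⟩
    · have h1 : ψ b = 1 := hb
      have h2 : ψ b (Additive.ofMul (⟨v, hv⟩ : V)) = Additive.ofMul (⟨v, hv⟩ : V) := by
        rw [h1]
        rfl
      have h3 : F b ⟨v, hv⟩ = ⟨v, hv⟩ := h2
      exact congrArg Subtype.val h3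
  -- the action on the quotient
  have hmap : ∀ a, V.map (φ a).toMonoidHom = V := by
    intro a
    apply le_antisymm
    · rintro _ ⟨v, hv, rfl⟩
      exact hV a v hv
    · intro v hv
      refine ⟨φ a⁻¹ v, hV a⁻¹ v hv, ?_⟩
      change φ a (φ a⁻¹ v) = v
      rw [← MulAut.mul_apply, ← map_mul, mul_inv_cancel, map_one]
      rfl
  let φ' : A →* MulAut (P ⧸ V) := MonoidHom.mk' (fun a => QuotientGroup.congr V V (φ a) (hmap a))
    (by
      intro a b
      apply MulEquiv.ext
      intro x
      obtain ⟨y, rfl⟩ := QuotientGroup.mk_surjective x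
      change ((φ (a * b) y : P) : P ⧸ V) = ((φ a (φ b y) : P) : P ⧸ V)
      rw [map_mul]
      rfl)
  have hφ' : ∀ (a : A) (x : P), φ' a (x : P ⧸ V) = ((φ a x : P) : P ⧸ V) := fun a x => rfl
  have hlt : Nat.card (P ⧸ V) < n := by
    have h1 := Subgroup.card_eq_card_quotient_mul_card_subgroup V
    have h2 : 1 < Nat.card V := (Subgroup.one_lt_card_iff_ne_bot V).2 hVb
    have h3 : 0 < Nat.card (P ⧸ V) := Nat.card_pos
    rw [← hcard, h1]
    nlinarith
  have hquot := ih (Nat.card (P ⧸ V)) hlt (P ⧸ V) A rfl (hP.to_quotient V) hA hcomm φ'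
  set C := Subgroup.closure {u : P | ∃ B : Subgroup A,
    (∃ z : A, ∀ a : A, ∃ k : ℤ, z ^ k * a ∈ B) ∧ ∀ b ∈ B, φ b u = u} with hC
  have hVC : V ≤ C := by
    intro v hv
    obtain ⟨B, hB1, hB2⟩ := hVS
    exact Subgroup.subset_closure ⟨B, hB1, hB2 v hv⟩
  have hle : (⊤ : Subgroup (P ⧸ V)) ≤ C.map (QuotientGroup.mk' V) := by
    rw [← hquot, Subgroup.closure_le]
    rintro x ⟨B, hB1, hB2⟩
    obtain ⟨u, rfl⟩ := QuotientGroup.mk_surjective x
    have hBp : ¬ p ∣ Nat.card B := fun h => hA (h.trans (Subgroup.card_subgroup_dvd_card B))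
    obtain ⟨v, hv, hv2⟩ := grpC_avg hP φ V hVc hV B hBp u (fun b hb => by
      have h1 := hB2 b hb
      rw [hφ'] at h1
      exact QuotientGroup.eq.1 h1.symm)
    refine ⟨u * v, Subgroup.subset_closure ⟨B, hB1, hv2⟩, ?_⟩
    change ((u * v : P) : P ⧸ V) = (u : P ⧸ V)
    exact (QuotientGroup.eq.2 (by simpa using hv)).symm
  rw [eq_top_iff]
  intro x _
  obtain ⟨y, hy, hxy⟩ := hle (Subgroup.mem_top (x : P ⧸ V))
  have h1 : y⁻¹ * x ∈ V := QuotientGroup.eq.1 hxy
  have h2 : x = y * (y⁻¹ * x) := by group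
  rw [h2]
  exact mul_mem hy (hVC h1)

theorem cop_gen {G : Type} [Group G] [Finite G] {p : ℕ} [Fact p.Prime] (P A : Subgroup G)
    (hP : IsPGroup p P) (hA : ¬ p ∣ Nat.card A) (hc : ∀ a ∈ A, ∀ b ∈ A, a * b = b * a)
    (hn : ∀ a ∈ A, ∀ u ∈ P, a * u * a⁻¹ ∈ P) :
    P ≤ Subgroup.closure {u | u ∈ P ∧ ∃ B ≤ A, (∃ z ∈ A, ∀ a ∈ A, ∃ k : ℤ, z ^ k * a ∈ B) ∧
      ∀ b ∈ B, b * u = u * b} := by
  let φ : A →* MulAut P := MonoidHom.mk' (fun a =>
    { toFun := fun u => ⟨a * u * a⁻¹, hn a a.2 u u.2⟩
      invFun := fun u => ⟨(a : G)⁻¹ * u * a, by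
        have := hn (a : G)⁻¹ (inv_mem a.2) u u.2
        rw [inv_inv] at this
        exact this⟩
      left_inv := fun u => by
        apply Subtype.ext
        change (a : G)⁻¹ * (a * u * (a : G)⁻¹) * a = u
        group
      right_inv := fun u => by
        apply Subtype.ext
        change (a : G) * ((a : G)⁻¹ * u * a) * (a : G)⁻¹ = u
        group
      map_mul' := fun u v => by
        apply Subtype.ext
        change (a : G) * (u * v) * (a : G)⁻¹ = (a * u * (a : G)⁻¹) * (a * v * (a : G)⁻¹)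
        group })
    (fun a b => by
      apply MulEquiv.ext
      intro u
      apply Subtype.ext
      change ((a : G) * b) * u * ((a : G) * b)⁻¹ = a * (b * u * (b : G)⁻¹) * (a : G)⁻¹
      group)
  have h := grpC_abs (Nat.card P) P A rfl hP hA
    (fun a b => Subtype.ext (hc a a.2 b b.2)) φ
  intro x hx
  have hx' : (⟨x, hx⟩ : P) ∈ Subgroup.closure {u : P | ∃ B : Subgroup A,
      (∃ z : A, ∀ a : A, ∃ k : ℤ, z ^ k * a ∈ B) ∧ ∀ b ∈ B, φ b u = u} := by
    rw [h]
    exact Subgroup.mem_top _
  have h2 : (P.subtype) ⟨x, hx⟩ ∈ (Subgroup.closure {u : P | ∃ B : Subgroup A,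
      (∃ z : A, ∀ a : A, ∃ k : ℤ, z ^ k * a ∈ B) ∧ ∀ b ∈ B, φ b u = u}).map P.subtype :=
    ⟨_, hx', rfl⟩
  rw [MonoidHom.map_closure] at h2
  refine Subgroup.closure_mono ?_ h2
  rintro _ ⟨u, ⟨B, ⟨z, hz⟩, hB⟩, rfl⟩
  refine ⟨u.2, B.map A.subtype, ?_, ⟨z, z.2, fun a ha => ?_⟩, ?_⟩
  · rintro _ ⟨b, -, rfl⟩
    exact b.2
  · obtain ⟨k, hk⟩ := hz ⟨a, ha⟩
    exact ⟨k, ⟨z ^ k * ⟨a, ha⟩, hk, by simp⟩⟩
  · rintro _ ⟨b, hb, rfl⟩
    have h3 : (b : G) * u * (b : G)⁻¹ = u := congrArg Subtype.val (hB b hb)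
    change (b : G) * u = u * b
    calc (b : G) * u = (b * u * (b : G)⁻¹) * b := by group
      _ = u * b := by rw [h3]

end Pool.Agent.H33.EL
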