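import Pool.Agent.H33.EL.Std

/-!
# The final statement in terms of permutations of the Lie algebra (helper33, MP_a408f4_al)

The Chevalley group as a group of permutations of the (finite) Lie algebra `LL C K`, given by
explicit formulas.
-/

namespace Pool.Agent.H33.EL

variable {n : ℕ}

/-- `exp(s ad e_a) x = x + s [e_a,x] + (s²/2) [e_a,[e_a,x]]` -/
def xf {C : Matrix (Fin n) (Fin n) ℤ} [Fintype (Rt C)] {K : Type} [Field K] (a : Rt C) (s : K)
    (x : LL C K) : LL C K :=
  x + s • brf (e K a) x + (s ^ 2 / 2) • brf (e K a) (brf (e K a) x)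

/-- `h_a(c)`: multiplication by `c^(a,b)` on `e_b`, identity on the toral part -/
def tf {C : Matrix (Fin n) (Fin n) ℤ} {K : Type} [Field K] (a : Rt C) (c : K)
    (x : LL C K) : LL C K := (x.1, fun b => c ^ ip C a.1 b.1 * x.2 b)

/-- the root subgroup -/
def XP {C : Matrix (Fin n) (Fin n) ℤ} [Fintype (Rt C)] (K : Type) [Field K] (a : Rt C) :
    Subgroup (Equiv.Perm (LL C K)) :=
  Subgroup.closure {g | ∃ s : K, ∀ x, g x = xf a s x}

/-- the split torus -/
def TP (C : Matrix (Fin n) (Fin n) ℤ) (K : Type) [Field K] :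
    Subgroup (Equiv.Perm (LL C K)) :=
  Subgroup.closure {g | ∃ (a : Rt C) (c : K), c ≠ 0 ∧ ∀ x, g x = tf a c x}

/-- the adjoint Chevalley group -/
def GP (C : Matrix (Fin n) (Fin n) ℤ) [Fintype (Rt C)] (K : Type) [Field K] :
    Subgroup (Equiv.Perm (LL C K)) := ⨆ a : Rt C, XP K a

/-- every overgroup of the torus has a standard description, for all groups `G` over `GP C K` -/
def AllStd (C : Matrix (Fin n) (Fin n) ℤ) [Fintype (Rt C)] (K : Type) [Field K] : Prop :=
  TP C K ≤ GP C K ∧
  ∀ (G : Type) [Group G] (π : G →* Equiv.Perm (LL C K)), π.range = GP C K →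
    ∀ (T : Subgroup G) (X : Rt C → Subgroup G), T.map π = TP C K → π.ker ≤ T →
      (∀ a, (X a).map π = XP K a) → ∀ F : Subgroup G, T ≤ F → StdDesc T X F

section
variable {C : Matrix (Fin n) (Fin n) ℤ} {K : Type} [Field K] [Fintype (Rt C)]

/-- linear automorphisms as permutations -/
def toP (C : Matrix (Fin n) (Fin n) ℤ) (K : Type) [Field K] :
    (LL C K ≃ₗ[K] LL C K) →* Equiv.Perm (LL C K) where
  toFun g := g.toEquiv
  map_one' := rfl
  map_mul' _ _ := rfl

theorem toP_apply (g : LL C K ≃ₗ[K] LL C K) (x : LL C K) : toP C K g x = g x := rfl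

theorem toP_inj : Function.Injective (toP C K) := by
  intro g h hgh
  ext1 x
  rw [← toP_apply, hgh, toP_apply]

theorem xf_eq (H : Hyp C K) (a : Rt C) (s : K) (x : LL C K) : xf a s x = xr a s x := by
  have h := ex_apply H ((isExt_e H a).smul s) x
  unfold xr
  rw [h]
  unfold xf
  have h1 : ∀ y z : LL C K, brf y z = br y z := fun _ _ => rfl
  rw [h1, h1, map_smul, LinearMap.smul_apply, LinearMap.smul_apply, map_smul, smul_smul,
    smul_smul]
  congr 2
  rw [div_eq_mul_inv, pow_two]
  ring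

theorem XP_eq (H : Hyp C K) (a : Rt C) : XP K a = (Xg K a).map (toP C K) := by
  unfold XP Xg
  rw [MonoidHom.map_closure]
  congr 1
  ext g
  constructor
  · rintro ⟨s, hs⟩
    refine ⟨xr a s, ⟨s, rfl⟩, ?_⟩
    ext1 x
    rw [toP_apply, hs, xf_eq H]
  · rintro ⟨_, ⟨s, rfl⟩, rfl⟩
    exact ⟨s, fun x => by rw [toP_apply, xf_eq H]⟩

theorem GP_eq (H : Hyp C K) : GP C K = (Gr C K).map (toP C K) := by
  unfold GP Gr
  rw [Subgroup.map_iSup]
  exact iSup_congr fun a => XP_eq H a

theorem TP_eq : TP C K = (T1 C K).map (toP C K) := by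
  unfold TP T1
  rw [MonoidHom.map_closure]
  congr 1
  ext g
  constructor
  · rintro ⟨a, c, hc, hs⟩
    refine ⟨hd C a.1 (Units.mk0 c hc), ⟨a, _, rfl⟩, ?_⟩
    ext1 x
    rw [toP_apply, hs]
    refine Prod.ext rfl (funext fun b => ?_)
    simp [tf, hd]
  · rintro ⟨_, ⟨a, c, rfl⟩, rfl⟩
    refine ⟨a, (c : K), c.ne_zero, fun x => ?_⟩
    rw [toP_apply]
    refine Prod.ext rfl (funext fun b => ?_)
    simp [tf, hd]

theorem allStd (H : Hyp C K) : AllStd C K := by
  refine ⟨?_, ?_⟩
  · rw [TP_eq, GP_eq H]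
    exact Subgroup.map_mono (T1_le_Gr H)
  · intro G _ π hπ T X hT hk hX F hF
    -- lift `π` to the linear group
    have hr : ∀ g : G, π g ∈ (toP C K).range := by
      intro g
      have h1 : π g ∈ GP C K := hπ ▸ ⟨g, rfl⟩
      rw [GP_eq H] at h1
      obtain ⟨y, -, hy⟩ := h1
      exact ⟨y, hy⟩
    let π' : G →* (LL C K ≃ₗ[K] LL C K) :=
      ((MonoidHom.ofInjective (toP_inj (C := C) (K := K))).symm.toMonoidHom).comp
        (π.codRestrict (toP C K).range hr)
    have hπ' : ∀ g, toP C K (π' g) = π g := by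
      intro g
      have := (MonoidHom.ofInjective (toP_inj (C := C) (K := K))).apply_symm_apply
        ⟨π g, hr g⟩
      exact congrArg Subtype.val this
    have hcomp : (toP C K).comp π' = π := MonoidHom.ext hπ'
    have hmap : ∀ D : Subgroup G, (D.map π').map (toP C K) = D.map π := by
      intro D
      rw [Subgroup.map_map, hcomp]
    have hinj := Subgroup.map_injective (toP_inj (C := C) (K := K))
    refine std_gen H π' ?_ T ?_ ?_ X ?_ F hF
    · rintro x ⟨g, rfl⟩
      have h1 : π g ∈ GP C K := hπ ▸ ⟨g, rfl⟩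
      rw [GP_eq H] at h1
      obtain ⟨y, hy, hy'⟩ := h1
      have h2 : π' g = y := toP_inj (by rw [hπ', hy'])
      rw [h2]
      exact hy
    · apply hinj
      show (T.map π').map (toP C K) = (T1 C K).map (toP C K)
      rw [hmap, hT, TP_eq]
    · intro g hg
      apply hk
      rw [MonoidHom.mem_ker] at hg ⊢
      rw [← hπ' g, hg, map_one]
    · intro a
      apply hinj
      show ((X a).map π').map (toP C K) = (Xg K a).map (toP C K)
      rw [hmap, hX, XP_eq H]

end

end Pool.Agent.H33.EL
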