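import Pool.Agent.H33.EL.Std0

/-!
# The standard description over a larger torus

As `Std0`, for a torus `D` with `T1 ≤ D ≤ TT` which is normalised by `NN`; for `D = TT` this is the
adjoint group.
-/

namespace Pool.Agent.H33.EL

variable {n : ℕ} {C : Matrix (Fin n) (Fin n) ℤ} {K : Type} [Field K] [Fintype (Rt C)]

theorem Adj_le {D : Subgroup (LL C K ≃ₗ[K] LL C K)} {S : Set (Rt C)}
    {E : Subgroup (LL C K ≃ₗ[K] LL C K)} (h1 : D ≤ E)
    (h2 : ∀ a ∈ S, ∀ s : K, xr a s ∈ E) : GSt D (fun a : Rt C => Xg K a) S ≤ E := by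
  unfold GSt
  refine sup_le h1 (iSup₂_le fun a ha => ?_)
  show Subgroup.closure {g | ∃ s : K, g = xr a s} ≤ E
  rw [Subgroup.closure_le]
  rintro _ ⟨s, rfl⟩
  exact h2 a ha s

theorem Adj_T {D : Subgroup (LL C K ≃ₗ[K] LL C K)} {S : Set (Rt C)} :
    D ≤ GSt D (fun a : Rt C => Xg K a) S := le_sup_left

theorem Adj_xr {D : Subgroup (LL C K ≃ₗ[K] LL C K)} {S : Set (Rt C)} {a : Rt C} (ha : a ∈ S)
    (s : K) : xr a s ∈ GSt D (fun a : Rt C => Xg K a) S := by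
  have h1 : Xg K a ≤ GSt D (fun a : Rt C => Xg K a) S := by
    unfold GSt
    refine le_trans ?_ le_sup_right
    exact le_iSup₂ (f := fun (a : Rt C) (_ : a ∈ S) => Xg K a) a ha
  exact h1 (Subgroup.subset_closure ⟨s, rfl⟩)

theorem Adj_conj (H : Hyp C K) {D : Subgroup (LL C K ≃ₗ[K] LL C K)}
    (hD : ∀ m ∈ NN C K, ∀ t ∈ D, m * t * m⁻¹ ∈ D) (F : Subgroup (LL C K ≃ₗ[K] LL C K))
    {m : LL C K ≃ₗ[K] LL C K} (hm : m ∈ NN C K) (hmF : m ∈ F) :
    ∀ x ∈ GSt D (fun a : Rt C => Xg K a) (SF F),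
      m * x * m⁻¹ ∈ GSt D (fun a : Rt C => Xg K a) (SF F) := by
  have key : GSt D (fun a : Rt C => Xg K a) (SF F) ≤
      (GSt D (fun a : Rt C => Xg K a) (SF F)).comap (MulAut.conj m).toMonoidHom := by
    refine Adj_le ?_ ?_
    · intro t ht
      show m * t * m⁻¹ ∈ GSt D (fun a : Rt C => Xg K a) (SF F)
      exact Adj_T (hD m hm t ht)
    · intro a ha s
      show m * xr a s * m⁻¹ ∈ GSt D (fun a : Rt C => Xg K a) (SF F)
      obtain ⟨w, k, hk, hw, -, -, -⟩ := NN_perm H hm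
      rw [xr_conj H (NN_le_GG hm) (hw a)]
      refine Adj_xr ?_ _
      intro s'
      have h1 : xr (w a) s' = m * xr a ((k a)⁻¹ * s') * m⁻¹ := by
        rw [xr_conj H (NN_le_GG hm) (hw a), mul_inv_cancel_left₀ (hk a)]
      rw [h1]
      exact F.mul_mem (F.mul_mem hmF (ha _)) (F.inv_mem hmF)
  intro x hx
  exact key hx

theorem Adj_norm (H : Hyp C K) {D : Subgroup (LL C K ≃ₗ[K] LL C K)}
    (hD : ∀ m ∈ NN C K, ∀ t ∈ D, m * t * m⁻¹ ∈ D) (F : Subgroup (LL C K ≃ₗ[K] LL C K))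
    {m : LL C K ≃ₗ[K] LL C K} (hm : m ∈ NN C K) (hmF : m ∈ F) :
    m ∈ Subgroup.normalizer
      (GSt D (fun a : Rt C => Xg K a) (SF F) : Set (LL C K ≃ₗ[K] LL C K)) := by
  rw [Subgroup.mem_normalizer_iff]
  intro x
  constructor
  · exact Adj_conj H hD F hm hmF x
  · intro hx
    have h1 := Adj_conj H hD F ((NN C K).inv_mem hm) (F.inv_mem hmF) _ hx
    have h2 : m⁻¹ * (m * x * m⁻¹) * m⁻¹⁻¹ = x := by group
    rw [h2] at h1
    exact h1

theorem Adj_Fo_norm (H : Hyp C K) {D : Subgroup (LL C K ≃ₗ[K] LL C K)}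
    (hD : ∀ m ∈ NN C K, ∀ t ∈ D, m * t * m⁻¹ ∈ D) (F : Subgroup (LL C K ≃ₗ[K] LL C K)) :
    Fo F ≤ Subgroup.normalizer
      (GSt D (fun a : Rt C => Xg K a) (SF F) : Set (LL C K ≃ₗ[K] LL C K)) := by
  unfold Fo
  rw [Subgroup.closure_le]
  rintro x (⟨hx, hx'⟩ | ⟨a, ha, s, rfl⟩)
  · exact Adj_norm H hD F (TT_le_NN hx') hx
  · exact Subgroup.le_normalizer (Adj_xr ha s)

theorem Adj_le_stab (H : Hyp C K) {D : Subgroup (LL C K ≃ₗ[K] LL C K)} (hDT : D ≤ TT C K)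
    {S : Set (Rt C)} (hS : ClosedRt S) :
    GSt D (fun a : Rt C => Xg K a) S ≤ Std0_stab (C := C) (K := K) S := by
  refine Adj_le ?_ ?_
  · intro t ht
    exact Std0_stab_of (Std0_TTU H (hDT ht)) (Std0_TTU H ((TT C K).inv_mem (hDT ht)))
  · intro b hb s
    refine Std0_stab_of (Std0_xrU H hS hb s) ?_
    rw [← xr_neg H]
    exact Std0_xrU H hS hb (-s)

theorem adj0 (H : Hyp C K) {p : ℕ} [Fact p.Prime] [CharP K p]
    {D : Subgroup (LL C K ≃ₗ[K] LL C K)} (h1D : T1 C K ≤ D) (hDT : D ≤ TT C K)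
    (hD : ∀ m ∈ NN C K, ∀ t ∈ D, m * t * m⁻¹ ∈ D)
    (F : Subgroup (LL C K ≃ₗ[K] LL C K)) (hF : F ≤ GG C K) (hT : D ≤ F) :
    StdDesc D (fun a : Rt C => Xg K a) F := by
  have hd := dst_all H (p := p) F hF (h1D.trans hT)
  refine ⟨SF F, ⟨?_, ?_, ?_⟩, ?_⟩
  · intro a ha b hb c hc
    exact SF_closed H F hc ha hb
  · exact Adj_le hT fun a ha s => ha s
  · intro f hf
    obtain ⟨c, hc, hm⟩ := hd f (hF hf) (by
      intro t ht
      rw [mem_cj]
      exact F.mul_mem (F.mul_mem hf (hT (h1D ht))) (F.inv_mem hf))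
    have hcF := Std0_Fo_le F hc
    have h1 : f ∈ Subgroup.normalizer
        (GSt D (fun a : Rt C => Xg K a) (SF F) : Set (LL C K ≃ₗ[K] LL C K)) := by
      have h2 : f = c * (c⁻¹ * f) := by group
      rw [h2]
      exact Subgroup.mul_mem _ (Adj_Fo_norm H hD F hc)
        (Adj_norm H hD F hm (F.mul_mem (F.inv_mem hcF) hf))
    exact Subgroup.mem_normalizer_iff.1 h1
  · rintro S2 ⟨hS2, hle, hn⟩
    apply Set.Subset.antisymm
    · intro a ha s
      exact hle (Adj_xr ha s)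
    · intro a ha
      obtain ⟨t, ht, hta⟩ := T1_sep0 H a
      have h1 : xr a 1 * t * (xr a 1)⁻¹ ∈ GSt D (fun a : Rt C => Xg K a) S2 :=
        (hn _ (ha 1) t).1 (Adj_T (h1D ht))
      have h2 : xr a (1 - wt t a) ∈ GSt D (fun a : Rt C => Xg K a) S2 := by
        have h3 : xr a (1 - wt t a) = xr a 1 * t * (xr a 1)⁻¹ * t⁻¹ := by
          have h4 := TT_conj_xr H (T1_le_TT H ht) a (-1 : K)
          rw [mul_neg_one, xr_neg H a 1] at h4
          rw [sub_eq_add_neg, xr_add H, ← h4]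
          group
        rw [h3]
        exact Subgroup.mul_mem _ h1 (Subgroup.inv_mem _ (Adj_T (h1D ht)))
      obtain ⟨y, hy⟩ := exists_one H a
      have h5 : (hh C (zk y.1) : LL C K) ∈ Std0_U (K := K) S2 := fun d _ => rfl
      have h6 := (Adj_le_stab H hDT hS2 h2 _).2 h5
      by_contra haS
      have h7 := h6 a haS
      rw [xr_hh H, fk_zk_zk, hy, Int.cast_one, mul_one] at h7
      have h8 : (hh C (zk y.1) - (1 - wt t a) • e K a : LL C K).2 a =
          (hh C (zk y.1) : LL C K).2 a - (1 - wt t a) * (e K a).2 a := rfl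
      rw [h8, hh_snd, e_snd_self, mul_one, zero_sub, neg_eq_zero, sub_eq_zero] at h7
      exact hta h7.symm

end Pool.Agent.H33.EL
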