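import Pool.Agent.H33.EL.Hyp6a

/-!
# EL-56: the hypotheses for the Cartan matrix of type E_6, `|K| = 7`

`C = CartanMatrix.E₆` (Bourbaki numbering).  Let `M` be the `8 × 6` integer matrix whose columns are
the doubled coordinates of the simple roots
`α1 = (1,-1,-1,-1,-1,-1,-1,1)`, `α2 = (2,2,0,…)`, `α3 = (-2,2,0,…)`, `α4 = (0,-2,2,0,…)`,
`α5 = (0,0,-2,2,0,…)`, `α6 = (0,0,0,-2,2,0,0,0)`.  `Mᵀ M = 4 C`, so
`4 ip x y = (M x) · (M y)`.  `D C = 3` for an integer matrix `D` (`det E₆ = 3`), and `3 ≠ 0` in `K`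
(`|K| = 7`).
* `nd`: `D (C h) = 3 h`.  `r0`: `3 y = D (C y)` has even coordinates, so `y` too.
* roots: 72; `y = M x` with `∑ y_k² = 8`, `y_6 = y_7 = -y_8` (`k = 6,7,8`): 40 vectors
  `±2 e_i ± 2 e_j` (`1 ≤ i < j ≤ 5`) and 32 vectors `±(1,…)` with `y_8 = ±1`.  List
  of the 72 vectors `x`, completeness, `ra`, `rb` by kernel computation on 72² pairs.
  (For product 0 in `rb` and products in `{0,1,-1}` in `ra`.)
-/

namespace Pool.Agent.H33.EL

theorem Hyp6_mem5 {y : ℤ} (h1 : -2 ≤ y) (h2 : y ≤ 2) : y ∈ ([-2, -1, 0, 1, 2] : List ℤ) := by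
  have : y = -2 ∨ y = -1 ∨ y = 0 ∨ y = 1 ∨ y = 2 := by omega
  simpa using this

theorem Hyp6_bd {y s : ℤ} (h : y * y + s = 8) (hs : 0 ≤ s) : -2 ≤ y ∧ y ≤ 2 := by
  constructor
  · by_contra hc
    push Not at hc
    nlinarith
  · by_contra hc
    push Not at hc
    nlinarith

theorem Hyp6_mem (x : Fin 6 → ℤ) (h : ip CartanMatrix.E₆ x x = 2) : Hyp6tup x ∈ Hyp6L := by
  rw [Hyp6_ip] at h
  generalize Hyp6tup x = t0 at *
  obtain ⟨a, b, c, d, e, f⟩ := t0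
  have h' := h
  simp only [Hyp6dot, Hyp6pre] at h
  have hq : (a + 2 * b - 2 * c) * (a + 2 * b - 2 * c) +
      (-a + 2 * b + 2 * c - 2 * d) * (-a + 2 * b + 2 * c - 2 * d) +
      (-a + 2 * d - 2 * e) * (-a + 2 * d - 2 * e) + (-a + 2 * e - 2 * f) * (-a + 2 * e - 2 * f) +
      (-a + 2 * f) * (-a + 2 * f) + 3 * (a * a) = 8 := by linear_combination 4 * h
  obtain ⟨y1, hy1⟩ : ∃ y, y = a + 2 * b - 2 * c := ⟨_, rfl⟩
  obtain ⟨y2, hy2⟩ : ∃ y, y = -a + 2 * b + 2 * c - 2 * d := ⟨_, rfl⟩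
  obtain ⟨y3, hy3⟩ : ∃ y, y = -a + 2 * d - 2 * e := ⟨_, rfl⟩
  obtain ⟨y4, hy4⟩ : ∃ y, y = -a + 2 * e - 2 * f := ⟨_, rfl⟩
  obtain ⟨y5, hy5⟩ : ∃ y, y = -a + 2 * f := ⟨_, rfl⟩
  rw [← hy1, ← hy2, ← hy3, ← hy4, ← hy5] at hq
  have n1 := mul_self_nonneg y1
  have n2 := mul_self_nonneg y2
  have n3 := mul_self_nonneg y3
  have n4 := mul_self_nonneg y4
  have n5 := mul_self_nonneg y5
  have na := mul_self_nonneg a
  have b1 : -2 ≤ y1 ∧ y1 ≤ 2 :=
    Hyp6_bd (s := y2 * y2 + y3 * y3 + y4 * y4 + y5 * y5 + 3 * (a * a)) (by linarith)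
      (by linarith)
  have b2 : -2 ≤ y2 ∧ y2 ≤ 2 :=
    Hyp6_bd (s := y1 * y1 + y3 * y3 + y4 * y4 + y5 * y5 + 3 * (a * a)) (by linarith)
      (by linarith)
  have b3 : -2 ≤ y3 ∧ y3 ≤ 2 :=
    Hyp6_bd (s := y1 * y1 + y2 * y2 + y4 * y4 + y5 * y5 + 3 * (a * a)) (by linarith)
      (by linarith)
  have b4 : -2 ≤ y4 ∧ y4 ≤ 2 :=
    Hyp6_bd (s := y1 * y1 + y2 * y2 + y3 * y3 + y5 * y5 + 3 * (a * a)) (by linarith)
      (by linarith)
  have b5 : -2 ≤ y5 ∧ y5 ≤ 2 :=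
    Hyp6_bd (s := y1 * y1 + y2 * y2 + y3 * y3 + y4 * y4 + 3 * (a * a)) (by linarith)
      (by linarith)
  have ba : -1 ≤ a ∧ a ≤ 1 := by
    constructor
    · by_contra hc
      push Not at hc
      nlinarith
    · by_contra hc
      push Not at hc
      nlinarith
  have ma : a ∈ ([-1, 0, 1] : List ℤ) := by
    have : a = -1 ∨ a = 0 ∨ a = 1 := by omega
    simpa using this
  have hc := Hyp6_cmp
  unfold Hyp6cmp at hc
  have hc1 := List.all_eq_true.1 hc a ma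
  have hc2 := List.all_eq_true.1 hc1 y1 (Hyp6_mem5 b1.1 b1.2)
  have hc3 := List.all_eq_true.1 hc2 y2 (Hyp6_mem5 b2.1 b2.2)
  have hc4 := List.all_eq_true.1 hc3 y3 (Hyp6_mem5 b3.1 b3.2)
  have hc5 := List.all_eq_true.1 hc4 y4 (Hyp6_mem5 b4.1 b4.2)
  have hc6 := List.all_eq_true.1 hc5 y5 (Hyp6_mem5 b5.1 b5.2)
  have hrec : Hyp6rec a y1 y2 y3 y4 y5 = (a, b, c, d, e, f) := by
    simp only [Hyp6rec]
    have r6 : (y5 + a) / 2 = f := by omega
    rw [r6]
    have r5 : (y4 + a) / 2 + f = e := by omega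
    rw [r5]
    have r4 : (y3 + a) / 2 + e = d := by omega
    rw [r4]
    have r2 : (y1 + y2 + 2 * d) / 4 = b := by omega
    have r3 : (y2 - y1 + 2 * a + 2 * d) / 4 = c := by omega
    rw [r2, r3]
  rw [hrec] at hc6
  dsimp only at hc6
  rw [h', hq] at hc6
  have m1 : (y1 - a) % 2 = 0 := by omega
  have m2 : (y2 - a) % 2 = 0 := by omega
  have m3 : (y3 - a) % 2 = 0 := by omega
  have m4 : (y4 - a) % 2 = 0 := by omega
  have m5 : (y5 - a) % 2 = 0 := by omega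
  rw [m1, m2, m3, m4, m5] at hc6
  simpa using hc6

theorem Hyp6_of_mem {t : Hyp6T} (ht : t ∈ Hyp6L) :
    ip CartanMatrix.E₆ (Hyp6vec t) (Hyp6vec t) = 2 := by
  rw [Hyp6_ip]
  have h := List.all_eq_true.1 Hyp6_two t ht
  have h2 : Hyp6tup (Hyp6vec t) = t := rfl
  rw [h2]
  simpa using h

theorem finite_Rt6 : Finite (Rt CartanMatrix.E₆) := by
  have h : Function.Injective (fun a : Rt CartanMatrix.E₆ =>
      (⟨Hyp6tup a.1, by
        rw [List.mem_toFinset]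
        exact Hyp6_mem a.1 a.2⟩ : {t : Hyp6T // t ∈ Hyp6L.toFinset})) := by
    intro a b hab
    have h1 : Hyp6tup a.1 = Hyp6tup b.1 := congrArg Subtype.val hab
    apply Subtype.ext
    rw [← Hyp6_vec_tup a.1, h1, Hyp6_vec_tup]
  exact Finite.of_injective _ h

noncomputable instance instFintypeRt6 : Fintype (Rt CartanMatrix.E₆) :=
  haveI := finite_Rt6
  Fintype.ofFinite _

theorem Hyp6_exists {t : Hyp6T} (ht : t ∈ Hyp6L) (a : Rt CartanMatrix.E₆) {k : ℤ}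
    (h : Hyp6dot t (Hyp6pre (Hyp6tup a.1)) = k) :
    ip CartanMatrix.E₆ (⟨Hyp6vec t, Hyp6_of_mem ht⟩ : Rt CartanMatrix.E₆).1 a.1 = k := by
  rw [Hyp6_ip]
  exact h

theorem e6_even (y : Fin 6 → ℤ) (hy : ∀ i, Even (∑ j, CartanMatrix.E₆ i j * y j)) :
    ∀ i, Even (y i) := by
  have g0 := hy 0
  have g1 := hy 1
  have g2 := hy 2
  have g3 := hy 3
  have g4 := hy 4
  have g5 := hy 5
  simp [CartanMatrix.E₆, Fin.sum_univ_succ] at g0 g1 g2 g3 g4 g5
  rw [Int.even_iff] at g0 g1 g2 g3 g4 g5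
  have k0 : Even (y 0) := by
    rw [Int.even_iff]
    omega
  have k1 : Even (y 1) := by
    rw [Int.even_iff]
    omega
  have k2 : Even (y 2) := by
    rw [Int.even_iff]
    omega
  have k3 : Even (y 3) := by
    rw [Int.even_iff]
    omega
  have k4 : Even (y 4) := by
    rw [Int.even_iff]
    omega
  have k5 : Even (y 5) := by
    rw [Int.even_iff]
    omega
  intro i
  fin_cases i
  · exact k0
  · exact k1
  · exact k2
  · exact k3
  · exact k4
  · exact k5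

theorem hyp6 (K : Type) [Field K] (hK : Nat.card K = 7) : Hyp CartanMatrix.E₆ K := by
  haveI : Finite K := Nat.finite_of_card_ne_zero (by rw [hK]; norm_num)
  letI : Fintype K := Fintype.ofFinite K
  have hcard : Fintype.card K = 7 := by rw [← Nat.card_eq_fintype_card, hK]
  have h7 : (7 : K) = 0 := by
    have := FiniteField.cast_card_eq_zero K
    rw [hcard] at this
    exact_mod_cast this
  have h3 : (3 : K) ≠ 0 := by
    intro h
    have h1 : (1 : K) = 7 - 2 * 3 := by norm_num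
    rw [h7, h, mul_zero, sub_zero] at h1
    exact one_ne_zero h1
  refine ⟨?_, ?_, ?_, ?_, ?_, ?_, ?_, ?_, Or.inl hK⟩
  · intro i j
    fin_cases i <;> fin_cases j <;> rfl
  · intro i
    fin_cases i <;> rfl
  · intro x hx
    rw [Hyp6_ip]
    have hx' : Hyp6tup x ≠ (0, 0, 0, 0, 0, 0) := by
      intro h
      apply hx
      rw [← Hyp6_vec_tup x, h]
      funext i
      fin_cases i <;> rfl
    generalize Hyp6tup x = t0 at *
    obtain ⟨a, b, c, d, e, f⟩ := t0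
    simp only [Hyp6dot, Hyp6pre]
    by_contra hcon
    push Not at hcon
    have hq : (a + 2 * b - 2 * c) ^ 2 +
      (-a + 2 * b + 2 * c - 2 * d) ^ 2 +
      (-a + 2 * d - 2 * e) ^ 2 + (-a + 2 * e - 2 * f) ^ 2 +
      (-a + 2 * f) ^ 2 + 3 * a ^ 2 ≤ 0 := by linarith
    have s1 := sq_nonneg (a + 2 * b - 2 * c)
    have s2 := sq_nonneg (-a + 2 * b + 2 * c - 2 * d)
    have s3 := sq_nonneg (-a + 2 * d - 2 * e)
    have s4 := sq_nonneg (-a + 2 * e - 2 * f)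
    have s5 := sq_nonneg (-a + 2 * f)
    have s6 := sq_nonneg a
    have z6 : a ^ 2 = 0 := by linarith
    have z1 : (-a + 2 * f) ^ 2 = 0 := by linarith
    have z2 : (-a + 2 * e - 2 * f) ^ 2 = 0 := by linarith
    have z3 : (-a + 2 * d - 2 * e) ^ 2 = 0 := by linarith
    have z4 : (-a + 2 * b + 2 * c - 2 * d) ^ 2 = 0 := by linarith
    have z5 : (a + 2 * b - 2 * c) ^ 2 = 0 := by linarith
    have w0 : a = 0 := (pow_eq_zero_iff (two_ne_zero)).1 z6
    have w1 := pow_eq_zero_iff (two_ne_zero) |>.1 z1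
    have w2 := pow_eq_zero_iff (two_ne_zero) |>.1 z2
    have w3 := pow_eq_zero_iff (two_ne_zero) |>.1 z3
    have w4 := pow_eq_zero_iff (two_ne_zero) |>.1 z4
    have w5 := pow_eq_zero_iff (two_ne_zero) |>.1 z5
    apply hx'
    have e1 : f = 0 := by omega
    have e2 : e = 0 := by omega
    have e3 : d = 0 := by omega
    have e4 : b = 0 := by omega
    have e5 : c = 0 := by omega
    rw [w0, e1, e2, e3, e4, e5]
  · intro h hh
    have g0 := hh 0
    have g1 := hh 1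
    have g2 := hh 2
    have g3 := hh 3
    have g4 := hh 4
    have g5 := hh 5
    simp [CartanMatrix.E₆, Fin.sum_univ_succ] at g0 g1 g2 g3 g4 g5
    have k0 : 3 * h 0 = 0 := by
      linear_combination 4 * g0 + 3 * g1 + 5 * g2 + 6 * g3 + 4 * g4 + 2 * g5
    have k1 : 3 * h 1 = 0 := by
      linear_combination 3 * g0 + 6 * g1 + 6 * g2 + 9 * g3 + 6 * g4 + 3 * g5
    have k2 : 3 * h 2 = 0 := by
      linear_combination 5 * g0 + 6 * g1 + 10 * g2 + 12 * g3 + 8 * g4 + 4 * g5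
    have k3 : 3 * h 3 = 0 := by
      linear_combination 6 * g0 + 9 * g1 + 12 * g2 + 18 * g3 + 12 * g4 + 6 * g5
    have k4 : 3 * h 4 = 0 := by
      linear_combination 4 * g0 + 6 * g1 + 8 * g2 + 12 * g3 + 10 * g4 + 5 * g5
    have k5 : 3 * h 5 = 0 := by
      linear_combination 2 * g0 + 3 * g1 + 4 * g2 + 6 * g3 + 5 * g4 + 4 * g5
    funext i
    fin_cases i
    · exact (mul_eq_zero.1 k0).resolve_left h3
    · exact (mul_eq_zero.1 k1).resolve_left h3
    · exact (mul_eq_zero.1 k2).resolve_left h3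
    · exact (mul_eq_zero.1 k3).resolve_left h3
    · exact (mul_eq_zero.1 k4).resolve_left h3
    · exact (mul_eq_zero.1 k5).resolve_left h3
  · exact fun y hy => Or.inl (e6_even y hy)
  · exact Or.inl e6_even
  · intro a b hab
    have h1 := List.all_eq_true.1 Hyp6_ra (Hyp6tup a.1) (Hyp6_mem a.1 a.2)
    have h2 := List.all_eq_true.1 h1 (Hyp6tup b.1) (Hyp6_mem b.1 b.2)
    rw [Hyp6_ip] at hab
    have h3 : Hyp6L.any (fun y => Hyp6dot y (Hyp6pre (Hyp6tup a.1)) == 1 &&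
        Hyp6dot y (Hyp6pre (Hyp6tup b.1)) == 0) = true := by
      rcases hab with h | h | h <;> · simp only [h] at h2; simpa using h2
    obtain ⟨t, ht, h4⟩ := List.any_eq_true.1 h3
    simp only [Bool.and_eq_true, beq_iff_eq] at h4
    exact ⟨⟨Hyp6vec t, Hyp6_of_mem ht⟩, Hyp6_exists ht a h4.1, Hyp6_exists ht b h4.2⟩
  · intro a b hab
    have h1 := List.all_eq_true.1 Hyp6_rb (Hyp6tup a.1) (Hyp6_mem a.1 a.2)
    have h2 := List.all_eq_true.1 h1 (Hyp6tup b.1) (Hyp6_mem b.1 b.2)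
    rw [Hyp6_ip] at hab
    have h3 : Hyp6L.any (fun y => Hyp6dot y (Hyp6pre (Hyp6tup a.1)) == 1 &&
        Hyp6dot y (Hyp6pre (Hyp6tup b.1)) == -1) = true := by
      simp only [hab] at h2
      simpa using h2
    obtain ⟨t, ht, h4⟩ := List.any_eq_true.1 h3
    simp only [Bool.and_eq_true, beq_iff_eq] at h4
    exact ⟨⟨Hyp6vec t, Hyp6_of_mem ht⟩, Hyp6_exists ht a h4.1, Hyp6_exists ht b h4.2⟩

end Pool.Agent.H33.EL
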