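import Pool.Agent.H33.EL.HypR

/-!
# EL-55: the hypotheses for the Cartan matrix of type E_8

`C = CartanMatrix.E₈` (Bourbaki numbering).  The list of the 240 roots and its completeness are in
`HypR`, the reduction of `ra`, `rb` to one root `a` in `HypA`.  `Hyp8_a` is the last simple root,
and `Hyp8_W` is a list of roots `y` with `(y,a) = 1` which contains the witnesses.
-/

namespace Pool.Agent.H33.EL

theorem finite_Rt8 : Finite (Rt CartanMatrix.E₈) := by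
  have h1 : Finite {l : List ℤ // l ∈ HypR_R8} := (List.finite_toSet HypR_R8).to_subtype
  exact Finite.of_injective (fun x : Rt CartanMatrix.E₈ =>
    (⟨HypR_tl x.1, HypR_mem x.1 x.2⟩ : {l : List ℤ // l ∈ HypR_R8}))
    (fun x y h => Subtype.ext (HypR_tl_inj (Subtype.mk.inj h)))

noncomputable instance instFintypeRt8 : Fintype (Rt CartanMatrix.E₈) :=
  haveI := finite_Rt8
  Fintype.ofFinite _

/-- the last simple root -/
def Hyp8_a : List ℤ := [0, 0, 0, 0, 0, 0, 0, 1]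

/-- roots with product 1 with the last simple root -/
def Hyp8_W : List (List ℤ) :=
  [[-1, 0, -1, -1, -1, -1, -1, 0],
    [1, 1, 1, 1, 1, 1, 1, 1],
    [1, 1, 2, 3, 2, 1, 1, 1],
    [-1, -2, -2, -3, -2, -1, -1, 0],
    [1, 2, 2, 3, 2, 2, 1, 1],
    [-1, -1, -2, -2, -2, -2, -1, 0],
    [-1, -1, -1, -2, -1, -1, -1, 0],
    [-1, -1, -2, -3, -3, -2, -1, 0],
    [1, 2, 2, 3, 3, 2, 1, 1],
    [0, 1, 0, 1, 1, 1, 1, 1],
    [0, 0, -1, -1, -1, -1, -1, 0]]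

/-- the check of one root -/
def Hyp8_chk (b : List ℤ) : Bool :=
  (if HypR_B Hyp8_a b == 0 || HypR_B Hyp8_a b == 1 || HypR_B Hyp8_a b == -1 then
    Hyp8_W.any (fun w => HypR_B w b == 0) else true) &&
  (if HypR_B Hyp8_a b == 0 then Hyp8_W.any (fun w => HypR_B w b == -1) else true)

theorem Hyp8_chk_all : HypR_R8.all Hyp8_chk = true := by decide +kernel

theorem Hyp8_W_all : Hyp8_W.all (fun w => HypR_B w w == 2 && HypR_B w Hyp8_a == 1 &&
    HypR_tl (HypR_ff w) == w) = true := by decide +kernel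

theorem Hyp8_symm (i j : Fin 8) : CartanMatrix.E₈ i j = CartanMatrix.E₈ j i :=
  CartanMatrix.E₈_isSymm.apply j i

/-- the last simple root as a root -/
def Hyp8_root : Rt CartanMatrix.E₈ := ⟨HypR_ff Hyp8_a, by rw [HypR_ip]; decide +kernel⟩

theorem Hyp8_P : HypA_P CartanMatrix.E₈ Hyp8_root := by
  intro b
  have h1 := List.all_eq_true.mp Hyp8_chk_all _ (HypR_mem b.1 b.2)
  have h2 : HypR_tl Hyp8_root.1 = Hyp8_a := by decide +kernel
  have h3 : ip CartanMatrix.E₈ Hyp8_root.1 b.1 = HypR_B Hyp8_a (HypR_tl b.1) := by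
    rw [HypR_ip, h2]
  have hw : ∀ w ∈ Hyp8_W, ∃ y : Rt CartanMatrix.E₈, HypR_tl y.1 = w ∧
      ip CartanMatrix.E₈ y.1 Hyp8_root.1 = 1 := by
    intro w hw
    have h4 := List.all_eq_true.mp Hyp8_W_all w hw
    simp only [Bool.and_eq_true, beq_iff_eq] at h4
    obtain ⟨⟨h5, h6⟩, h7⟩ := h4
    refine ⟨⟨HypR_ff w, ?_⟩, h7, ?_⟩
    · rw [HypR_ip, h7]
      exact h5
    · show ip CartanMatrix.E₈ (HypR_ff w) Hyp8_root.1 = 1
      rw [HypR_ip, h7, h2]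
      exact h6
  rw [h3]
  simp only [Hyp8_chk, Bool.and_eq_true] at h1
  obtain ⟨h4, h5⟩ := h1
  constructor
  · intro h6
    rw [if_pos (by simpa [or_assoc] using h6), List.any_eq_true] at h4
    obtain ⟨w, hw1, hw2⟩ := h4
    obtain ⟨y, hy1, hy2⟩ := hw w hw1
    refine ⟨y, hy2, ?_⟩
    rw [HypR_ip, hy1]
    exact beq_iff_eq.mp hw2
  · intro h6
    rw [if_pos (by simpa using h6), List.any_eq_true] at h5
    obtain ⟨w, hw1, hw2⟩ := h5
    obtain ⟨y, hy1, hy2⟩ := hw w hw1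
    refine ⟨y, hy2, ?_⟩
    rw [HypR_ip, hy1]
    exact beq_iff_eq.mp hw2

theorem e8_even (y : Fin 8 → ℤ) (hy : ∀ i, Even (∑ j, CartanMatrix.E₈ i j * y j)) :
    ∀ i, Even (y i) := by
  have h0 := hy 0
  have h1 := hy 1
  have h2 := hy 2
  have h3 := hy 3
  have h4 := hy 4
  have h5 := hy 5
  have h6 := hy 6
  have h7 := hy 7
  simp only [Fin.sum_univ_eight, CartanMatrix.E₈, Matrix.of_apply,
    Matrix.cons_val', Matrix.cons_val_zero, Matrix.cons_val_one, Matrix.cons_val,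
    Matrix.cons_val_fin_one, zero_mul, add_zero, zero_add] at h0 h1 h2 h3 h4 h5 h6 h7
  obtain ⟨k0, h0⟩ := h0
  obtain ⟨k1, h1⟩ := h1
  obtain ⟨k2, h2⟩ := h2
  obtain ⟨k3, h3⟩ := h3
  obtain ⟨k4, h4⟩ := h4
  obtain ⟨k5, h5⟩ := h5
  obtain ⟨k6, h6⟩ := h6
  obtain ⟨k7, h7⟩ := h7
  intro i
  fin_cases i
  · exact ⟨4 * k0 + 5 * k1 + 7 * k2 + 10 * k3 + 8 * k4 + 6 * k5 + 4 * k6 + 2 * k7, by
      show y 0 = _
      linear_combination 4 * h0 + 5 * h1 + 7 * h2 + 10 * h3 + 8 * h4 + 6 * h5 + 4 * h6 + 2 * h7⟩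
  · exact ⟨5 * k0 + 8 * k1 + 10 * k2 + 15 * k3 + 12 * k4 + 9 * k5 + 6 * k6 + 3 * k7, by
      show y 1 = _
      linear_combination 5 * h0 + 8 * h1 + 10 * h2 + 15 * h3 + 12 * h4 + 9 * h5 + 6 * h6 + 3 * h7⟩
  · exact ⟨7 * k0 + 10 * k1 + 14 * k2 + 20 * k3 + 16 * k4 + 12 * k5 + 8 * k6 + 4 * k7, by
      show y 2 = _
      linear_combination 7 * h0 + 10 * h1 + 14 * h2 + 20 * h3 + 16 * h4 + 12 * h5 + 8 * h6 + 4 * h7⟩
  · exact ⟨10 * k0 + 15 * k1 + 20 * k2 + 30 * k3 + 24 * k4 + 18 * k5 + 12 * k6 + 6 * k7, by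
      show y 3 = _
      linear_combination 10 * h0 + 15 * h1 + 20 * h2 + 30 * h3 + 24 * h4 + 18 * h5 + 12 * h6 + 6 * h7⟩
  · exact ⟨8 * k0 + 12 * k1 + 16 * k2 + 24 * k3 + 20 * k4 + 15 * k5 + 10 * k6 + 5 * k7, by
      show y 4 = _
      linear_combination 8 * h0 + 12 * h1 + 16 * h2 + 24 * h3 + 20 * h4 + 15 * h5 + 10 * h6 + 5 * h7⟩
  · exact ⟨6 * k0 + 9 * k1 + 12 * k2 + 18 * k3 + 15 * k4 + 12 * k5 + 8 * k6 + 4 * k7, by
      show y 5 = _
      linear_combination 6 * h0 + 9 * h1 + 12 * h2 + 18 * h3 + 15 * h4 + 12 * h5 + 8 * h6 + 4 * h7⟩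
  · exact ⟨4 * k0 + 6 * k1 + 8 * k2 + 12 * k3 + 10 * k4 + 8 * k5 + 6 * k6 + 3 * k7, by
      show y 6 = _
      linear_combination 4 * h0 + 6 * h1 + 8 * h2 + 12 * h3 + 10 * h4 + 8 * h5 + 6 * h6 + 3 * h7⟩
  · exact ⟨2 * k0 + 3 * k1 + 4 * k2 + 6 * k3 + 5 * k4 + 4 * k5 + 3 * k6 + 2 * k7, by
      show y 7 = _
      linear_combination 2 * h0 + 3 * h1 + 4 * h2 + 6 * h3 + 5 * h4 + 4 * h5 + 3 * h6 + 2 * h7⟩

theorem hyp8 (K : Type) [Field K]
    (hK : Nat.card K = 7 ∨ Nat.card K = 9 ∨ Nat.card K = 11) :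
    Hyp CartanMatrix.E₈ K where
  symm := Hyp8_symm
  diag := CartanMatrix.E₈_diag
  pos := HypR_pos
  nd := by
    intro h hh
    have h0 := hh 0
    have h1 := hh 1
    have h2 := hh 2
    have h3 := hh 3
    have h4 := hh 4
    have h5 := hh 5
    have h6 := hh 6
    have h7 := hh 7
    simp only [Fin.sum_univ_eight, CartanMatrix.E₈, Matrix.of_apply,
      Matrix.cons_val', Matrix.cons_val_zero, Matrix.cons_val_one, Matrix.cons_val,
      Matrix.cons_val_fin_one, Int.cast_ofNat, Int.cast_zero, Int.cast_neg, Int.cast_one,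
      zero_mul, add_zero, zero_add] at h0 h1 h2 h3 h4 h5 h6 h7
    funext i
    show h i = 0
    fin_cases i
    · show h 0 = 0
      linear_combination 4 * h0 + 5 * h1 + 7 * h2 + 10 * h3 + 8 * h4 + 6 * h5 + 4 * h6 + 2 * h7
    · show h 1 = 0
      linear_combination 5 * h0 + 8 * h1 + 10 * h2 + 15 * h3 + 12 * h4 + 9 * h5 + 6 * h6 + 3 * h7
    · show h 2 = 0
      linear_combination 7 * h0 + 10 * h1 + 14 * h2 + 20 * h3 + 16 * h4 + 12 * h5 + 8 * h6 + 4 * h7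
    · show h 3 = 0
      linear_combination 10 * h0 + 15 * h1 + 20 * h2 + 30 * h3 + 24 * h4 + 18 * h5 + 12 * h6 + 6 * h7
    · show h 4 = 0
      linear_combination 8 * h0 + 12 * h1 + 16 * h2 + 24 * h3 + 20 * h4 + 15 * h5 + 10 * h6 + 5 * h7
    · show h 5 = 0
      linear_combination 6 * h0 + 9 * h1 + 12 * h2 + 18 * h3 + 15 * h4 + 12 * h5 + 8 * h6 + 4 * h7
    · show h 6 = 0
      linear_combination 4 * h0 + 6 * h1 + 8 * h2 + 12 * h3 + 10 * h4 + 8 * h5 + 6 * h6 + 3 * h7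
    · show h 7 = 0
      linear_combination 2 * h0 + 3 * h1 + 4 * h2 + 6 * h3 + 5 * h4 + 4 * h5 + 3 * h6 + 2 * h7
  r0 := fun y hy => Or.inl (e8_even y hy)
  r1 := Or.inl e8_even
  ra := fun a b h => ((HypA_all Hyp8_symm HypR_pos Hyp8_root Hyp8_P a) b).1 h
  rb := fun a b h => ((HypA_all Hyp8_symm HypR_pos Hyp8_root Hyp8_P a) b).2 h
  card := hK

end Pool.Agent.H33.EL
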