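import Pool.Agent.H33.EL.Ip

/-!
# EL-28: combinatorics of closed sets and refining functionals

`delta_pos`: `S` finite closed set of roots without opposite roots, `δ = ∑_(b ∈ S) b`, `a ∈ S`.
`ip δ a = 2 + ∑_(b ∈ S, b ≠ a) ip b a`, `b ≠ -a`, the terms are in `{-1,0,1}`.  For `ip b a = -1`
`a + b ∈ S` has `ip (a+b) a = 1`; `b ↦ a + b` is injective.  So the sum is `≥ 0`.

`exists_refine`: let `R` be a bound for all `|x_i|`, `x` a root, `B = 4 R + 3`,
`ℓ0 x = ∑ B^i x_i`; `ℓ0` is injective on vectors with coordinates `≤ 2R` in absolute value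
in the sense `ℓ0 x = 0 → x = 0`.  `ℓ x = N * ip δ x + ℓ0 x` with `N` larger than
`2 |ℓ0 x|` for all roots `x`.  Any other construction is fine.
-/

namespace Pool.Agent.H33.EL

variable {n : ℕ} {C : Matrix (Fin n) (Fin n) ℤ} {K : Type} [Field K] [Fintype (Rt C)]

theorem CAb_ip_ne {a b : Rt C} (H : Hyp C K) (h1 : b ≠ a) (h2 : b ≠ ng a) :
    ip C b.1 a.1 = -1 ∨ ip C b.1 a.1 = 0 ∨ ip C b.1 a.1 = 1 := by
  rw [ip_comm H.symm]
  rcases ip_cases H a b with h | h | h | h | h
  · exact absurd h h2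
  · exact Or.inl h
  · exact Or.inr (Or.inl h)
  · exact Or.inr (Or.inr h)
  · exact absurd h h1

theorem delta_pos (H : Hyp C K) (S : Finset (Rt C))
    (hcl : ∀ a ∈ S, ∀ b ∈ S, ∀ c : Rt C, c.1 = a.1 + b.1 → c ∈ S)
    (hop : ∀ a ∈ S, ng a ∉ S) {a : Rt C} (ha : a ∈ S) :
    2 ≤ ip C (∑ b ∈ S, b.1) a.1 := by
  classical
  have haa : ip C a.1 a.1 = 2 := a.2
  rw [ip_sum_left, ← Finset.add_sum_erase S _ ha, haa]
  have hval : ∀ b ∈ S.erase a, ip C b.1 a.1 =
      (if ip C b.1 a.1 = 1 then (1 : ℤ) else 0) - (if ip C b.1 a.1 = -1 then (1 : ℤ) else 0) := by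
    intro b hb
    rw [Finset.mem_erase] at hb
    have h2 : b ≠ ng a := by
      rintro rfl
      exact hop a ha hb.2
    rcases CAb_ip_ne H hb.1 h2 with h | h | h <;> rw [h] <;> norm_num
  rw [Finset.sum_congr rfl hval, Finset.sum_sub_distrib, ← Finset.natCast_card_filter,
    ← Finset.natCast_card_filter]
  have hcard : ((S.erase a).filter (fun b => ip C b.1 a.1 = -1)).card ≤
      ((S.erase a).filter (fun b => ip C b.1 a.1 = 1)).card := by
    let g : Rt C → Rt C := fun b =>
      if h : ip C (a.1 + b.1) (a.1 + b.1) = 2 then ⟨a.1 + b.1, h⟩ else b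
    have hg : ∀ b : Rt C, ip C b.1 a.1 = -1 → (g b).1 = a.1 + b.1 := by
      intro b hb
      have h : ip C (a.1 + b.1) (a.1 + b.1) = 2 := root_add H (by rw [ip_comm H.symm]; exact hb)
      simp only [g, h, dif_pos]
    apply Finset.card_le_card_of_injOn g
    · intro b hb
      simp only [Finset.coe_filter, Finset.mem_erase, Set.mem_ofPred_eq] at hb ⊢
      obtain ⟨⟨hba, hbS⟩, hb1⟩ := hb
      have h1 := hg b hb1
      refine ⟨⟨?_, hcl a ha b hbS _ h1⟩, ?_⟩
      · intro h2
        rw [h2] at h1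
        have h3 : b.1 = 0 := by
          have h4 : a.1 + b.1 = a.1 + 0 := by rw [← h1, add_zero]
          exact add_left_cancel h4
        have h5 : ip C b.1 b.1 = 2 := b.2
        rw [h3, ip_zero_left] at h5
        norm_num at h5
      · rw [h1, ip_add_left, haa, hb1]
        norm_num
    · intro b hb b' hb' hbb
      simp only [Finset.coe_filter, Finset.mem_erase, Set.mem_ofPred_eq] at hb hb'
      have h1 := hg b hb.2
      have h2 := hg b' hb'.2
      rw [hbb] at h1
      exact Subtype.ext (add_left_cancel (h1.symm.trans h2))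
  have h3 : (((S.erase a).filter (fun b => ip C b.1 a.1 = -1)).card : ℤ) ≤
      ((S.erase a).filter (fun b => ip C b.1 a.1 = 1)).card := by exact_mod_cast hcard
  linarith

/-- finitely many nonzero integral vectors: a functional that does not vanish on any of them -/
theorem CAb_functional (F : Finset (Fin n → ℤ)) (hF : ∀ x ∈ F, x ≠ 0) :
    ∃ l : (Fin n → ℤ) →+ ℤ, ∀ x ∈ F, l x ≠ 0 := by
  classical
  let P : (Fin n → ℤ) → Polynomial ℤ := fun x =>
    ∑ i : Fin n, Polynomial.monomial (i : ℕ) (x i)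
  have hcoef : ∀ x (j : Fin n), (P x).coeff (j : ℕ) = x j := by
    intro x j
    simp only [P, Polynomial.finset_sum_coeff, Polynomial.coeff_monomial]
    rw [Finset.sum_eq_single j]
    · simp
    · intro i _ hij
      rw [if_neg]
      intro h
      exact hij (Fin.ext h)
    · intro h
      exact absurd (Finset.mem_univ j) h
  have hP : ∀ x ∈ F, P x ≠ 0 := by
    intro x hx h
    apply hF x hx
    funext j
    have h1 := hcoef x j
    rw [h, Polynomial.coeff_zero] at h1
    exact h1.symm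
  have hQ : (∏ x ∈ F, P x) ≠ 0 := Finset.prod_ne_zero_iff.2 hP
  obtain ⟨B, hB⟩ : ∃ B : ℤ, B ∉ (∏ x ∈ F, P x).roots.toFinset :=
    Infinite.exists_notMem_finset _
  rw [Multiset.mem_toFinset, Polynomial.mem_roots hQ, Polynomial.IsRoot.def,
    Polynomial.eval_prod] at hB
  have hB2 := Finset.prod_ne_zero_iff.1 hB
  refine ⟨{ toFun := fun x => ∑ i : Fin n, x i * B ^ (i : ℕ), map_zero' := by simp,
            map_add' := fun x y => by simp [add_mul, Finset.sum_add_distrib] }, ?_⟩
  intro x hx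
  have h1 := hB2 x hx
  simp only [P, Polynomial.eval_finset_sum, Polynomial.eval_monomial] at h1
  exact h1

theorem exists_refine (H : Hyp C K) (d : Fin n → ℤ) :
    ∃ l : (Fin n → ℤ) →+ ℤ, (∀ a b : Rt C, ip C d a.1 < ip C d b.1 → l a.1 < l b.1) ∧
      (∀ a : Rt C, 0 < ip C d a.1 → 0 < l a.1) ∧ (∀ a : Rt C, l a.1 ≠ 0) ∧
      ∀ a b : Rt C, l a.1 = l b.1 → a = b := by
  classical
  let F : Finset (Fin n → ℤ) := (Finset.univ.image (fun a : Rt C => a.1)) ∪
    ((Finset.univ.filter (fun p : Rt C × Rt C => p.1 ≠ p.2)).image (fun p => p.1.1 - p.2.1))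
  have hF : ∀ x ∈ F, x ≠ 0 := by
    intro x hx h0
    simp only [F, Finset.mem_union, Finset.mem_image, Finset.mem_univ, true_and,
      Finset.mem_filter] at hx
    rcases hx with ⟨a, ha⟩ | ⟨p, hp, hpx⟩
    · have h1 : ip C a.1 a.1 = 2 := a.2
      rw [ha, h0, ip_zero_left] at h1
      norm_num at h1
    · rw [h0] at hpx
      exact hp (Subtype.ext (sub_eq_zero.1 hpx))
  obtain ⟨l0, hl0⟩ := CAb_functional F hF
  have hne : ∀ a : Rt C, l0 a.1 ≠ 0 := fun a => hl0 _ (by
    simp only [F, Finset.mem_union, Finset.mem_image, Finset.mem_univ, true_and]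
    exact Or.inl ⟨a, rfl⟩)
  have hinj : ∀ a b : Rt C, l0 a.1 = l0 b.1 → a = b := by
    intro a b hab
    by_contra hne
    have h1 := hl0 (a.1 - b.1) (by
      simp only [F, Finset.mem_union, Finset.mem_image, Finset.mem_univ, true_and,
        Finset.mem_filter]
      exact Or.inr ⟨(a, b), hne, rfl⟩)
    rw [map_sub, hab, sub_self] at h1
    exact h1 rfl
  let N : ℤ := 1 + 2 * ∑ a : Rt C, |l0 a.1|
  have hN : ∀ a : Rt C, 2 * |l0 a.1| < N := by
    intro a
    have h1 : |l0 a.1| ≤ ∑ a : Rt C, |l0 a.1| :=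
      Finset.single_le_sum (f := fun a : Rt C => |l0 a.1|) (fun b _ => abs_nonneg _)
        (Finset.mem_univ a)
    simp only [N]
    linarith
  have hN0 : 0 < N := by
    have : 0 ≤ ∑ a : Rt C, |l0 a.1| := Finset.sum_nonneg (fun b _ => abs_nonneg _)
    simp only [N]
    linarith
  let l : (Fin n → ℤ) →+ ℤ :=
    { toFun := fun x => N * ip C d x + l0 x
      map_zero' := by simp [ip_zero_right]
      map_add' := fun x y => by
        rw [ip_add_right, map_add]
        ring }
  have hl : ∀ x, l x = N * ip C d x + l0 x := fun x => rfl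
  have hlt : ∀ a b : Rt C, ip C d a.1 < ip C d b.1 → l a.1 < l b.1 := by
    intro a b hab
    rw [hl, hl]
    have h1 := hN a
    have h2 := hN b
    have h3 : N * 1 ≤ N * (ip C d b.1 - ip C d a.1) :=
      mul_le_mul_of_nonneg_left (by omega) hN0.le
    have h4 := le_abs_self (l0 a.1)
    have h5 := neg_abs_le (l0 b.1)
    linarith
  refine ⟨l, hlt, ?_, ?_, ?_⟩
  · intro a ha
    rw [hl]
    have h1 := hN a
    have h3 : N * 1 ≤ N * ip C d a.1 := mul_le_mul_of_nonneg_left (by omega) hN0.le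
    have h5 := neg_abs_le (l0 a.1)
    have h6 := abs_nonneg (l0 a.1)
    linarith
  · intro a h0
    rw [hl] at h0
    have h1 := hN a
    rcases lt_trichotomy (ip C d a.1) 0 with h | h | h
    · have h3 : N * ip C d a.1 ≤ N * (-1) := mul_le_mul_of_nonneg_left (by omega) hN0.le
      have h5 := le_abs_self (l0 a.1)
      have h6 := abs_nonneg (l0 a.1)
      linarith
    · rw [h, mul_zero, zero_add] at h0
      exact hne a h0
    · have h3 : N * 1 ≤ N * ip C d a.1 := mul_le_mul_of_nonneg_left (by omega) hN0.le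
      have h5 := neg_abs_le (l0 a.1)
      have h6 := abs_nonneg (l0 a.1)
      linarith
  · intro a b hab
    rcases lt_trichotomy (ip C d a.1) (ip C d b.1) with h | h | h
    · exact absurd hab (hlt a b h).ne
    · rw [hl, hl, h] at hab
      exact hinj a b (by linarith)
    · exact absurd hab (hlt b a h).ne'

end Pool.Agent.H33.EL
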