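import Pool.Agent.H33.EL.Nor

/-!
# EL-25, EL-26: filtrations, parabolic subgroups and the graded group

`Fil d k`: coordinates only at roots `b` with `ip d b ≥ k`, toral part zero if `k > 0`.
`Grd d k`: coordinates only at roots with `ip d b = k`, toral part zero if `k ≠ 0`.
`Par d`: automorphisms preserving the filtration; `Rad d`: those acting trivially on the
graded pieces.
EL-25 (`gr_exists`, `mem_Par`, `mem_Par_of_root`): for `g ∈ Par d` let `gr g x = ∑_k pr_k (g (pr_k x))` with the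
projections `pr_k` onto `Grd d k` (finitely many `k`).  For `x ∈ Grd d k`,
`g x - gr g x ∈ Fil d (k+1)`.  It is multiplicative in `g` (for `x ∈ Grd d k`:
`g (h x) = g (gr h x) + g (Fil (k+1))`, take degree `k` parts), so it is a homomorphism
to linear automorphisms; it preserves bracket and form since
`[Fil k, Fil l] ⊆ Fil (k+l)` and `fm (Fil k) (Fil l) = 0` for `k + l > 0`, and homogeneous
parts of `g [x,y] = [g x, g y]`, `fm (g x) (g y) = fm x y` for homogeneous `x`, `y`.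
EL-26: the rest (file `Fil`).
* `Fi a i` (`i = -1,0,1,2`) is `Fil a.1 i`; if `g (e a) = k e b` then `g` maps
  `Fil a.1 i` onto `Fil b.1 i`: `Fil a 2 = K e_a`, `Fil a 1 = {[e_a,x] : fm e_a x = 0}`,
  `Fil a 0 = {x : [e_a,x] ∈ K e_a}`, `Fil a (-1) = {x : fm e_a x = 0}`, everything for `i ≤ -2`,
  zero for `i ≥ 3`.
* `Rad d` is a `p`-group: it acts trivially on the quotients of a finite filtration:
  `(g - 1)^N = 0`, so `(g - 1)^(p^k) = 0`, `g^(p^k) = 1`.
-/

namespace Pool.Agent.H33.EL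

variable {n : ℕ} {C : Matrix (Fin n) (Fin n) ℤ} {K : Type} [Field K] [Fintype (Rt C)]

/-- the filtration -/
def Fil (C : Matrix (Fin n) (Fin n) ℤ) (K : Type) [Field K] (d : Fin n → ℤ) (k : ℤ) :
    Submodule K (LL C K) where
  carrier := {x | (∀ b : Rt C, ip C d b.1 < k → x.2 b = 0) ∧ (0 < k → x.1 = 0)}
  add_mem' := by
    rintro x y ⟨h1, h2⟩ ⟨h3, h4⟩
    refine ⟨fun b hb => ?_, fun hk => ?_⟩
    · simp [h1 b hb, h3 b hb]
    · simp [h2 hk, h4 hk]
  zero_mem' := ⟨fun _ _ => rfl, fun _ => rfl⟩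
  smul_mem' := by
    rintro c x ⟨h1, h2⟩
    refine ⟨fun b hb => ?_, fun hk => ?_⟩
    · simp [h1 b hb]
    · simp [h2 hk]

/-- the graded pieces -/
def Grd (C : Matrix (Fin n) (Fin n) ℤ) (K : Type) [Field K] (d : Fin n → ℤ) (k : ℤ) :
    Submodule K (LL C K) where
  carrier := {x | (∀ b : Rt C, ip C d b.1 ≠ k → x.2 b = 0) ∧ (k ≠ 0 → x.1 = 0)}
  add_mem' := by
    rintro x y ⟨h1, h2⟩ ⟨h3, h4⟩
    refine ⟨fun b hb => ?_, fun hk => ?_⟩
    · simp [h1 b hb, h3 b hb]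
    · simp [h2 hk, h4 hk]
  zero_mem' := ⟨fun _ _ => rfl, fun _ => rfl⟩
  smul_mem' := by
    rintro c x ⟨h1, h2⟩
    refine ⟨fun b hb => ?_, fun hk => ?_⟩
    · simp [h1 b hb]
    · simp [h2 hk]

/-- automorphisms preserving the filtration (iff, so that it is a subgroup) -/
def Par (C : Matrix (Fin n) (Fin n) ℤ) (K : Type) [Field K] [Fintype (Rt C)]
    (d : Fin n → ℤ) : Subgroup (LL C K ≃ₗ[K] LL C K) where
  carrier := {g | g ∈ GG C K ∧ ∀ k x, g x ∈ Fil C K d k ↔ x ∈ Fil C K d k}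
  one_mem' := ⟨one_mem _, fun _ _ => Iff.rfl⟩
  mul_mem' := by
    rintro a b ⟨ha, ha'⟩ ⟨hb, hb'⟩
    exact ⟨mul_mem ha hb, fun k x => by
      rw [LinearEquiv.mul_apply, ha', hb']⟩
  inv_mem' := by
    rintro a ⟨ha, ha'⟩
    refine ⟨inv_mem ha, fun k x => ?_⟩
    rw [← ha']
    have h1 : a (a⁻¹ x) = x := a.apply_symm_apply x
    rw [h1]

theorem FilA_ip_ng (d : Fin n → ℤ) (a : Rt C) : ip C d (ng a).1 = -ip C d a.1 := by
  rw [ng_val, ip_neg_right]

theorem FilA_anti {d : Fin n → ℤ} {k l : ℤ} (h : k ≤ l) : Fil C K d l ≤ Fil C K d k := by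
  rintro x ⟨h1, h2⟩
  exact ⟨fun b hb => h1 b (lt_of_lt_of_le hb h), fun hk => h2 (lt_of_lt_of_le hk h)⟩

theorem FilA_grd_le (d : Fin n → ℤ) (k : ℤ) : Grd C K d k ≤ Fil C K d k := by
  rintro x ⟨h1, h2⟩
  exact ⟨fun b hb => h1 b hb.ne, fun hk => h2 hk.ne'⟩

theorem FilA_grd_eq {d : Fin n → ℤ} {k : ℤ} {x y : LL C K} (hx : x ∈ Grd C K d k)
    (hy : y ∈ Grd C K d k) (h : x - y ∈ Fil C K d (k + 1)) : x = y := by
  obtain ⟨h1, h2⟩ := hx
  obtain ⟨h3, h4⟩ := hy
  obtain ⟨h5, h6⟩ := h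
  refine Prod.ext ?_ (funext fun b => ?_)
  · by_cases hk : k = 0
    · have := h6 (by omega)
      exact sub_eq_zero.1 this
    · rw [h2 hk, h4 hk]
  · by_cases hb : ip C d b.1 = k
    · have := h5 b (by omega)
      exact sub_eq_zero.1 this
    · rw [h1 b hb, h3 b hb]

theorem FilA_br_fil {d : Fin n → ℤ} {k l : ℤ} {x y : LL C K} (hx : x ∈ Fil C K d k)
    (hy : y ∈ Fil C K d l) : br x y ∈ Fil C K d (k + l) := by
  obtain ⟨h1, h2⟩ := hx
  obtain ⟨h3, h4⟩ := hy
  show (∀ b : Rt C, ip C d b.1 < k + l → (brf x y).2 b = 0) ∧ (0 < k + l → (brf x y).1 = 0)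
  constructor
  · intro r hr
    have t1 : fk C x.1 (zk r.1) * y.2 r = 0 := by
      by_cases hk : 0 < k
      · rw [h2 hk, fk_zero_left, zero_mul]
      · rw [h3 r (by omega), mul_zero]
    have t2 : fk C y.1 (zk r.1) * x.2 r = 0 := by
      by_cases hk : 0 < l
      · rw [h4 hk, fk_zero_left, zero_mul]
      · rw [h1 r (by omega), mul_zero]
    have t3 : (∑ a : Rt C, if h : ip C (r.1 - a.1) (r.1 - a.1) = 2 then
         ek K C a.1 (r.1 - a.1) * (x.2 a * y.2 ⟨r.1 - a.1, h⟩) else 0) = 0 := by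
      refine Finset.sum_eq_zero fun a _ => ?_
      split_ifs with h
      · by_cases ha : ip C d a.1 < k
        · rw [h1 a ha, zero_mul, mul_zero]
        · rw [h3 ⟨r.1 - a.1, h⟩ (by
            show ip C d (r.1 - a.1) < l
            rw [ip_sub_right]
            omega), mul_zero, mul_zero]
      · rfl
    show fk C x.1 (zk r.1) * y.2 r - fk C y.1 (zk r.1) * x.2 r
      + (∑ a : Rt C, if h : ip C (r.1 - a.1) (r.1 - a.1) = 2 then
         ek K C a.1 (r.1 - a.1) * (x.2 a * y.2 ⟨r.1 - a.1, h⟩) else 0) = 0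
    rw [t1, t2, t3, sub_zero, add_zero]
  · intro hkl
    show -∑ a : Rt C, (x.2 a * y.2 (ng a)) • (zk a.1 : Fin n → K) = 0
    rw [Finset.sum_eq_zero, neg_zero]
    intro a _
    by_cases ha : ip C d a.1 < k
    · rw [h1 a ha, zero_mul, zero_smul]
    · rw [h3 (ng a) (by rw [FilA_ip_ng]; omega), mul_zero, zero_smul]

theorem FilA_br_grd {d : Fin n → ℤ} {k l : ℤ} {x y : LL C K} (hx : x ∈ Grd C K d k)
    (hy : y ∈ Grd C K d l) : br x y ∈ Grd C K d (k + l) := by
  obtain ⟨h1, h2⟩ := hx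
  obtain ⟨h3, h4⟩ := hy
  show (∀ b : Rt C, ip C d b.1 ≠ k + l → (brf x y).2 b = 0) ∧ (k + l ≠ 0 → (brf x y).1 = 0)
  constructor
  · intro r hr
    have t1 : fk C x.1 (zk r.1) * y.2 r = 0 := by
      by_cases hk : k = 0
      · rw [h3 r (by omega), mul_zero]
      · rw [h2 hk, fk_zero_left, zero_mul]
    have t2 : fk C y.1 (zk r.1) * x.2 r = 0 := by
      by_cases hk : l = 0
      · rw [h1 r (by omega), mul_zero]
      · rw [h4 hk, fk_zero_left, zero_mul]
    have t3 : (∑ a : Rt C, if h : ip C (r.1 - a.1) (r.1 - a.1) = 2 then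
         ek K C a.1 (r.1 - a.1) * (x.2 a * y.2 ⟨r.1 - a.1, h⟩) else 0) = 0 := by
      refine Finset.sum_eq_zero fun a _ => ?_
      split_ifs with h
      · by_cases ha : ip C d a.1 = k
        · rw [h3 ⟨r.1 - a.1, h⟩ (by
            show ip C d (r.1 - a.1) ≠ l
            rw [ip_sub_right]
            omega), mul_zero, mul_zero]
        · rw [h1 a ha, zero_mul, mul_zero]
      · rfl
    show fk C x.1 (zk r.1) * y.2 r - fk C y.1 (zk r.1) * x.2 r
      + (∑ a : Rt C, if h : ip C (r.1 - a.1) (r.1 - a.1) = 2 then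
         ek K C a.1 (r.1 - a.1) * (x.2 a * y.2 ⟨r.1 - a.1, h⟩) else 0) = 0
    rw [t1, t2, t3, sub_zero, add_zero]
  · intro hkl
    show -∑ a : Rt C, (x.2 a * y.2 (ng a)) • (zk a.1 : Fin n → K) = 0
    rw [Finset.sum_eq_zero, neg_zero]
    intro a _
    by_cases ha : ip C d a.1 = k
    · rw [h3 (ng a) (by rw [FilA_ip_ng]; omega), mul_zero, zero_smul]
    · rw [h1 a ha, zero_mul, zero_smul]

theorem FilA_fm_fil {d : Fin n → ℤ} {k l : ℤ} {x y : LL C K} (hx : x ∈ Fil C K d k)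
    (hy : y ∈ Fil C K d l) (hkl : 0 < k + l) : fm x y = 0 := by
  obtain ⟨h1, h2⟩ := hx
  obtain ⟨h3, h4⟩ := hy
  show fk C x.1 y.1 - ∑ a : Rt C, x.2 a * y.2 (ng a) = 0
  have t1 : fk C x.1 y.1 = 0 := by
    by_cases hk : 0 < k
    · rw [h2 hk, fk_zero_left]
    · rw [h4 (by omega), fk_zero_right]
  rw [t1, Finset.sum_eq_zero, sub_zero]
  intro a _
  by_cases ha : ip C d a.1 < k
  · rw [h1 a ha, zero_mul]
  · rw [h3 (ng a) (by rw [FilA_ip_ng]; omega), mul_zero]

theorem FilA_fm_grd {d : Fin n → ℤ} {k l : ℤ} {x y : LL C K} (hx : x ∈ Grd C K d k)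
    (hy : y ∈ Grd C K d l) (hkl : k + l ≠ 0) : fm x y = 0 := by
  obtain ⟨h1, h2⟩ := hx
  obtain ⟨h3, h4⟩ := hy
  show fk C x.1 y.1 - ∑ a : Rt C, x.2 a * y.2 (ng a) = 0
  have t1 : fk C x.1 y.1 = 0 := by
    by_cases hk : k = 0
    · rw [h4 (by omega), fk_zero_right]
    · rw [h2 hk, fk_zero_left]
  rw [t1, Finset.sum_eq_zero, sub_zero]
  intro a _
  by_cases ha : ip C d a.1 = k
  · rw [h3 (ng a) (by rw [FilA_ip_ng]; omega), mul_zero]
  · rw [h1 a ha, zero_mul]

theorem FilA_hh_grd (d : Fin n → ℤ) (h : Fin n → K) : hh C h ∈ Grd C K d 0 :=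
  ⟨fun _ _ => rfl, fun h0 => absurd rfl h0⟩

theorem FilA_e_grd (d : Fin n → ℤ) (a : Rt C) : e K a ∈ Grd C K d (ip C d a.1) :=
  ⟨fun b hb => by
    have hab : b ≠ a := fun h => hb (by rw [h])
    exact Pi.single_eq_of_ne hab _, fun _ => rfl⟩

/-- a finite-dimensionality remark: one inclusion is enough -/
theorem mem_Par (H : Hyp C K) {d : Fin n → ℤ} {g : LL C K ≃ₗ[K] LL C K} (hg : g ∈ GG C K)
    (h : ∀ k, ∀ x ∈ Fil C K d k, g x ∈ Fil C K d k) : g ∈ Par C K d := by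
  refine ⟨hg, fun k x => ⟨fun hx => ?_, h k x⟩⟩
  have h1 : (Fil C K d k).map (g : LL C K →ₗ[K] LL C K) ≤ Fil C K d k := by
    rintro _ ⟨y, hy, rfl⟩
    exact h k y hy
  have h2 : (Fil C K d k).map (g : LL C K →ₗ[K] LL C K) = Fil C K d k :=
    Submodule.eq_of_le_of_finrank_eq h1 (LinearEquiv.finrank_map_eq g _)
  rw [← h2] at hx
  obtain ⟨y, hy, hxy⟩ := hx
  have h3 : y = x := g.injective hxy
  rw [← h3]
  exact hy

/-- enough on root vectors -/
theorem mem_Par_of_root (H : Hyp C K) {d : Fin n → ℤ} {g : LL C K ≃ₗ[K] LL C K}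
    (hg : g ∈ GG C K) (h : ∀ a : Rt C, g (e K a) ∈ Fil C K d (ip C d a.1)) :
    g ∈ Par C K d := by
  apply mem_Par H hg
  have hh0 : ∀ k : Fin n → K, g (hh C k) ∈ Fil C K d 0 := by
    intro k
    have hk := zk_span H k
    induction hk using Submodule.span_induction with
    | mem x hx =>
      obtain ⟨a, rfl⟩ := hx
      have h1 : hh C (zk a.1 : Fin n → K) = -br (e K a) (e K (ng a)) := by
        rw [br_e_ng H, neg_neg]
      rw [h1, map_neg, hg.1]
      have h2 := FilA_br_fil (h a) (h (ng a))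
      rw [FilA_ip_ng, add_neg_cancel] at h2
      exact neg_mem h2
    | zero =>
      rw [hh_zero, map_zero]
      exact zero_mem _
    | add x y _ _ hx hy =>
      rw [hh_add, map_add]
      exact add_mem hx hy
    | smul c x _ hx =>
      rw [hh_smul, map_smul]
      exact Submodule.smul_mem _ _ hx
  intro k x hx
  rw [decomp x, map_add, map_sum]
  refine add_mem ?_ (sum_mem fun a _ => ?_)
  · by_cases hk : 0 < k
    · rw [hx.2 hk, hh_zero, map_zero]
      exact zero_mem _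
    · exact FilA_anti (not_lt.1 hk) (hh0 _)
  · rw [map_smul]
    by_cases ha : ip C d a.1 < k
    · rw [hx.1 a ha, zero_smul]
      exact zero_mem _
    · exact Submodule.smul_mem _ _ (FilA_anti (not_lt.1 ha) (h a))

/-- the projection to the graded piece -/
def FilA_pr (C : Matrix (Fin n) (Fin n) ℤ) (K : Type) [Field K] (d : Fin n → ℤ) (k : ℤ) :
    LL C K →ₗ[K] LL C K where
  toFun x := (if k = 0 then x.1 else 0, fun b => if ip C d b.1 = k then x.2 b else 0)
  map_add' x y := by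
    refine Prod.ext ?_ (funext fun b => ?_)
    · show (if k = 0 then x.1 + y.1 else 0) = (if k = 0 then x.1 else 0) +
        (if k = 0 then y.1 else 0)
      split_ifs
      · rfl
      · rw [add_zero]
    · show (if ip C d b.1 = k then x.2 b + y.2 b else 0) =
        (if ip C d b.1 = k then x.2 b else 0) + (if ip C d b.1 = k then y.2 b else 0)
      split_ifs
      · rfl
      · rw [add_zero]
  map_smul' c x := by
    refine Prod.ext ?_ (funext fun b => ?_)
    · show (if k = 0 then c • x.1 else 0) = c • (if k = 0 then x.1 else 0)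
      split_ifs
      · rfl
      · rw [smul_zero]
    · show (if ip C d b.1 = k then c * x.2 b else 0) =
        c * (if ip C d b.1 = k then x.2 b else 0)
      split_ifs
      · rfl
      · rw [mul_zero]

theorem FilA_pr_mem (d : Fin n → ℤ) (k : ℤ) (x : LL C K) :
    FilA_pr C K d k x ∈ Grd C K d k := by
  constructor
  · intro b hb
    exact if_neg hb
  · intro hk
    exact if_neg hk

theorem FilA_pr_sub {d : Fin n → ℤ} {k : ℤ} {x : LL C K} (hx : x ∈ Fil C K d k) :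
    x - FilA_pr C K d k x ∈ Fil C K d (k + 1) := by
  obtain ⟨h1, h2⟩ := hx
  constructor
  · intro b hb
    show x.2 b - (if ip C d b.1 = k then x.2 b else 0) = 0
    split_ifs with h
    · rw [sub_self]
    · rw [h1 b (by omega), sub_zero]
  · intro hk
    show x.1 - (if k = 0 then x.1 else 0) = 0
    split_ifs with h
    · rw [sub_self]
    · rw [h2 (by omega), sub_zero]

theorem FilA_pr_self {d : Fin n → ℤ} {k : ℤ} {x : LL C K} (hx : x ∈ Grd C K d k) :
    FilA_pr C K d k x = x := by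
  obtain ⟨h1, h2⟩ := hx
  refine Prod.ext ?_ (funext fun b => ?_)
  · show (if k = 0 then x.1 else 0) = x.1
    split_ifs with h
    · rfl
    · rw [h2 h]
  · show (if ip C d b.1 = k then x.2 b else 0) = x.2 b
    split_ifs with h
    · rfl
    · rw [h1 b h]

theorem FilA_pr_ne {d : Fin n → ℤ} {k l : ℤ} (hkl : l ≠ k) {x : LL C K}
    (hx : x ∈ Grd C K d k) : FilA_pr C K d l x = 0 := by
  obtain ⟨h1, h2⟩ := hx
  refine Prod.ext ?_ (funext fun b => ?_)
  · show (if l = 0 then x.1 else 0) = 0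
    split_ifs with h
    · rw [h2 (by omega)]
    · rfl
  · show (if ip C d b.1 = l then x.2 b else 0) = 0
    split_ifs with h
    · rw [h1 b (by omega)]
    · rfl

/-- the graded part of a linear map -/
def FilA_gr (d : Fin n → ℤ) (g : LL C K →ₗ[K] LL C K) : LL C K →ₗ[K] LL C K :=
  LinearMap.prod ((LinearMap.fst K (Fin n → K) (Rt C → K)).comp (g.comp (FilA_pr C K d 0)))
    (LinearMap.pi fun b => (LinearMap.proj b).comp
      ((LinearMap.snd K (Fin n → K) (Rt C → K)).comp (g.comp (FilA_pr C K d (ip C d b.1)))))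

theorem FilA_gr_apply {d : Fin n → ℤ} (g : LL C K →ₗ[K] LL C K) {k : ℤ} {x : LL C K}
    (hx : x ∈ Grd C K d k) : FilA_gr d g x = FilA_pr C K d k (g x) := by
  refine Prod.ext ?_ (funext fun b => ?_)
  · show (g (FilA_pr C K d 0 x)).1 = (if k = 0 then (g x).1 else 0)
    split_ifs with h
    · subst h
      rw [FilA_pr_self hx]
    · rw [FilA_pr_ne (Ne.symm h) hx, map_zero]
      rfl
  · show (g (FilA_pr C K d (ip C d b.1) x)).2 b = (if ip C d b.1 = k then (g x).2 b else 0)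
    split_ifs with h
    · rw [h, FilA_pr_self hx]
    · rw [FilA_pr_ne h hx, map_zero]
      rfl

theorem FilA_gr_mem {d : Fin n → ℤ} (g : LL C K →ₗ[K] LL C K) {k : ℤ} {x : LL C K}
    (hx : x ∈ Grd C K d k) : FilA_gr d g x ∈ Grd C K d k := by
  rw [FilA_gr_apply g hx]
  exact FilA_pr_mem d k _

theorem FilA_gr_sub {d : Fin n → ℤ} (g : Par C K d) {k : ℤ} {x : LL C K}
    (hx : x ∈ Grd C K d k) : (g : LL C K ≃ₗ[K] LL C K) x -
      FilA_gr d ((g : LL C K ≃ₗ[K] LL C K) : LL C K →ₗ[K] LL C K) x ∈ Fil C K d (k + 1) := by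
  rw [FilA_gr_apply _ hx]
  exact FilA_pr_sub ((g.2.2 k x).2 (FilA_grd_le d k hx))

theorem FilA_gr_mul {d : Fin n → ℤ} (g h : Par C K d) :
    FilA_gr d (((g * h : Par C K d) : LL C K ≃ₗ[K] LL C K) : LL C K →ₗ[K] LL C K) =
      FilA_gr d ((g : LL C K ≃ₗ[K] LL C K) : LL C K →ₗ[K] LL C K) *
      FilA_gr d ((h : LL C K ≃ₗ[K] LL C K) : LL C K →ₗ[K] LL C K) := by
  have key : ∀ (k : ℤ) (x : LL C K), x ∈ Grd C K d k →
      FilA_gr d (((g * h : Par C K d) : LL C K ≃ₗ[K] LL C K) : LL C K →ₗ[K] LL C K) x =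
      (FilA_gr d ((g : LL C K ≃ₗ[K] LL C K) : LL C K →ₗ[K] LL C K) *
      FilA_gr d ((h : LL C K ≃ₗ[K] LL C K) : LL C K →ₗ[K] LL C K)) x := by
    intro k x hx
    rw [Module.End.mul_apply]
    have m1 := FilA_gr_mem ((h : LL C K ≃ₗ[K] LL C K) : LL C K →ₗ[K] LL C K) hx
    refine FilA_grd_eq (FilA_gr_mem _ hx) (FilA_gr_mem _ m1) ?_
    have s1 := FilA_gr_sub (g * h) hx
    have s2 := FilA_gr_sub h hx
    have s3 := (g.2.2 (k + 1) _).2 s2
    have s4 := FilA_gr_sub g m1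
    rw [map_sub] at s3
    have s5 := add_mem (sub_mem s3 s1) s4
    convert s5 using 1
    have e1 : ((g * h : Par C K d) : LL C K ≃ₗ[K] LL C K) x =
      (g : LL C K ≃ₗ[K] LL C K) ((h : LL C K ≃ₗ[K] LL C K) x) := rfl
    rw [e1]
    abel
  exact ext_basis (fun k => key 0 _ (FilA_hh_grd d k)) (fun a => key _ _ (FilA_e_grd d a))

theorem FilA_gr_one (d : Fin n → ℤ) :
    FilA_gr d (((1 : Par C K d) : LL C K ≃ₗ[K] LL C K) : LL C K →ₗ[K] LL C K) = 1 := by
  have key : ∀ (k : ℤ) (x : LL C K), x ∈ Grd C K d k →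
      FilA_gr d (((1 : Par C K d) : LL C K ≃ₗ[K] LL C K) : LL C K →ₗ[K] LL C K) x =
        (1 : LL C K →ₗ[K] LL C K) x := by
    intro k x hx
    rw [FilA_gr_apply _ hx]
    exact FilA_pr_self hx
  exact ext_basis (fun k => key 0 _ (FilA_hh_grd d k)) (fun a => key _ _ (FilA_e_grd d a))

/-- the graded homomorphism to endomorphisms -/
def FilA_hom (d : Fin n → ℤ) : Par C K d →* Module.End K (LL C K) where
  toFun g := FilA_gr d ((g : LL C K ≃ₗ[K] LL C K) : LL C K →ₗ[K] LL C K)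
  map_one' := FilA_gr_one d
  map_mul' := FilA_gr_mul

theorem FilA_gr_GG {d : Fin n → ℤ} (g : Par C K d) (φ : LL C K ≃ₗ[K] LL C K)
    (hφ : ∀ x, φ x = FilA_gr d ((g : LL C K ≃ₗ[K] LL C K) : LL C K →ₗ[K] LL C K) x) :
    φ ∈ GG C K := by
  have hm : ∀ {k : ℤ} {x : LL C K}, x ∈ Grd C K d k → φ x ∈ Grd C K d k := by
    intro k x hx
    rw [hφ]
    exact FilA_gr_mem _ hx
  have hs : ∀ {k : ℤ} {x : LL C K}, x ∈ Grd C K d k →
      (g : LL C K ≃ₗ[K] LL C K) x - φ x ∈ Fil C K d (k + 1) := by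
    intro k x hx
    rw [hφ]
    exact FilA_gr_sub g hx
  have hg : ∀ {k : ℤ} {x : LL C K}, x ∈ Grd C K d k →
      (g : LL C K ≃ₗ[K] LL C K) x ∈ Fil C K d k :=
    fun {k x} hx => (g.2.2 k x).2 (FilA_grd_le d k hx)
  have kb : ∀ (k l : ℤ) (x y : LL C K), x ∈ Grd C K d k → y ∈ Grd C K d l →
      φ (br x y) = br (φ x) (φ y) := by
    intro k l x y hx hy
    refine FilA_grd_eq (hm (FilA_br_grd hx hy)) (FilA_br_grd (hm hx) (hm hy)) ?_
    have s1 := hs (FilA_br_grd hx hy)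
    have s2 := FilA_br_fil (hs hx) (hg hy)
    have s3 := FilA_br_fil (FilA_grd_le d k (hm hx)) (hs hy)
    rw [show k + 1 + l = k + l + 1 by ring] at s2
    rw [show k + (l + 1) = k + l + 1 by ring] at s3
    have s4 := sub_mem (add_mem s2 s3) s1
    convert s4 using 1
    rw [g.2.1.1, map_sub, map_sub, LinearMap.sub_apply]
    abel
  have kf : ∀ (k l : ℤ) (x y : LL C K), x ∈ Grd C K d k → y ∈ Grd C K d l →
      fm (φ x) (φ y) = fm x y := by
    intro k l x y hx hy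
    by_cases hkl : k + l = 0
    · have s2 := FilA_fm_fil (hs hx) (hg hy) (by omega)
      have s3 := FilA_fm_fil (FilA_grd_le d k (hm hx)) (hs hy) (by omega)
      rw [map_sub, LinearMap.sub_apply, sub_eq_zero] at s2
      rw [map_sub, sub_eq_zero] at s3
      rw [← s3, ← s2, g.2.1.2]
    · rw [FilA_fm_grd hx hy hkl, FilA_fm_grd (hm hx) (hm hy) hkl]
  constructor
  · intro x y
    have h1 : ∀ (k : ℤ) (x : LL C K), x ∈ Grd C K d k →
        (φ : LL C K →ₗ[K] LL C K).comp (br x) =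
          (br (φ x)).comp (φ : LL C K →ₗ[K] LL C K) := by
      intro k x hx
      exact ext_basis (fun h => kb k 0 x _ hx (FilA_hh_grd d h))
        (fun a => kb k _ x _ hx (FilA_e_grd d a))
    have h2 : (br : LL C K →ₗ[K] LL C K →ₗ[K] LL C K).compr₂ (φ : LL C K →ₗ[K] LL C K) =
        (br : LL C K →ₗ[K] LL C K →ₗ[K] LL C K).compl₁₂ (φ : LL C K →ₗ[K] LL C K)
          (φ : LL C K →ₗ[K] LL C K) :=
      ext_basis (fun h => h1 0 _ (FilA_hh_grd d h)) (fun a => h1 _ _ (FilA_e_grd d a))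
    exact congrArg (fun f => f x y) h2
  · intro x y
    have h1 : ∀ (k : ℤ) (x : LL C K), x ∈ Grd C K d k →
        (fm (φ x)).comp (φ : LL C K →ₗ[K] LL C K) = fm x := by
      intro k x hx
      exact ext_basis (fun h => kf k 0 x _ hx (FilA_hh_grd d h))
        (fun a => kf k _ x _ hx (FilA_e_grd d a))
    have h2 : (fm : LL C K →ₗ[K] LL C K →ₗ[K] K).compl₁₂ (φ : LL C K →ₗ[K] LL C K)
          (φ : LL C K →ₗ[K] LL C K) = fm :=
      ext_basis (fun h => h1 0 _ (FilA_hh_grd d h)) (fun a => h1 _ _ (FilA_e_grd d a))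
    exact congrArg (fun f => f x y) h2

/-- job EL-25: the associated graded automorphism -/
theorem gr_exists (H : Hyp C K) (d : Fin n → ℤ) :
    ∃ φ : Par C K d →* (LL C K ≃ₗ[K] LL C K), (∀ g : Par C K d, φ g ∈ GG C K) ∧
      (∀ (g : Par C K d) (k : ℤ), ∀ x ∈ Grd C K d k, φ g x ∈ Grd C K d k) ∧
      (∀ (g : Par C K d) (k : ℤ), ∀ x ∈ Grd C K d k,
        (g : LL C K ≃ₗ[K] LL C K) x - φ g x ∈ Fil C K d (k + 1)) := by
  obtain ⟨φ, hφ⟩ : ∃ φ : Par C K d →* (LL C K ≃ₗ[K] LL C K), ∀ (g : Par C K d) (x : LL C K),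
      φ g x = FilA_gr d ((g : LL C K ≃ₗ[K] LL C K) : LL C K →ₗ[K] LL C K) x :=
    ⟨(LinearMap.GeneralLinearGroup.generalLinearEquiv K (LL C K)).toMonoidHom.comp
      (FilA_hom d).toHomUnits, fun g x => rfl⟩
  refine ⟨φ, fun g => FilA_gr_GG g (φ g) (hφ g), ?_, ?_⟩
  · intro g k x hx
    rw [hφ]
    exact FilA_gr_mem _ hx
  · intro g k x hx
    rw [hφ]
    exact FilA_gr_sub g hx

end Pool.Agent.H33.EL
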