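import Pool.Agent.H33.EL.CAa
import Pool.Agent.H33.EL.CAb
import Pool.Agent.H33.EL.FilA

/-!
# EL-29: the dimension inequality

`sp_Fil_dim`: `sp S ⊓ Fil c i = sp {s ∈ S : i ≤ ip c s}`, dimension the number of roots.

`pos_act`: for `r` in the group generated by the `xr b s` with `l b > 0` and a root `d`:
`r (e d) - e d` has non zero root coordinates only at roots `b` with `l b > l d`, and toral
part zero if `l d ≥ 0`... (precisely: toral part non zero implies `0 > l d`);
for `x ∈ L0`, `r x - x` has toral part 0 and root coordinates only at `b` with `l b > 0`.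
Put `W m = {x : x.2 b ≠ 0 → l b > m; x.1 ≠ 0 → 0 > m}` (a submodule); each generator maps
`W m` to itself and `(r - 1)` maps `e d` into `W (l d)`, `L0` into `W 0`.

`tri_dim`: let `U = {u ∈ Fil c i : r u ∈ sp S}`; `r` maps `U` onto `sp S ⊓ r (Fil c i)`.
Claim: the linear map `U → (T → K)`, `u ↦ (u.2 s)_(s ∈ T)`, `T = {s ∈ S : i ≤ ip c s}` is
injective.  Let `u ∈ U`, `u ≠ 0`, let `m` be the smallest `l`-value among the weights of `u`
(roots `b` with `u.2 b ≠ 0`, and `0` if `u.1 ≠ 0`; `l` is injective on the roots and `0`).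
Then `r u = (part of u of weight m) + W m`.  If the weight is `0` then `(r u).1 = u.1 ≠ 0`,
contradiction to `r u ∈ sp S`.  So it is a root `b`, `(r u).2 b = u.2 b ≠ 0`, so `b ∈ S`, and
`u ∈ Fil c i` gives `i ≤ ip c b`.  So `b ∈ T` and the image of `u` is non zero.
-/

namespace Pool.Agent.H33.EL

variable {n : ℕ} {C : Matrix (Fin n) (Fin n) ℤ} {K : Type} [Field K] [Fintype (Rt C)]

open Classical in
theorem sp_Fil_dim (H : Hyp C K) (S : Finset (Rt C)) (c : Fin n → ℤ) (i : ℤ) :
    Module.finrank K (sp C K (S : Set (Rt C)) ⊓ Fil C K c i : Submodule K (LL C K)) =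
      (S.filter fun s => i ≤ ip C c s.1).card := by
  have hT : ∀ b : Rt C, b ∉ (S.filter fun s => i ≤ ip C c s.1) →
      ∀ v ∈ (sp C K (S : Set (Rt C)) ⊓ Fil C K c i : Submodule K (LL C K)), v.2 b = 0 := by
    intro b hb v hv
    rw [Finset.mem_filter, not_and_or, not_le] at hb
    rcases hb with hb | hb
    · exact hv.1.2 b (by simpa using hb)
    · exact hv.2.1 b hb
  apply le_antisymm
  · let f : (sp C K (S : Set (Rt C)) ⊓ Fil C K c i : Submodule K (LL C K)) →ₗ[K]
        ((S.filter fun s => i ≤ ip C c s.1 : Finset (Rt C)) → K) :=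
      { toFun := fun v s => v.1.2 s.1
        map_add' := fun _ _ => rfl
        map_smul' := fun _ _ => rfl }
    have hf : Function.Injective f := by
      rw [injective_iff_map_eq_zero]
      rintro ⟨v, hv⟩ h0
      apply Subtype.ext
      refine Prod.ext hv.1.1 (funext fun b => ?_)
      by_cases hb : b ∈ (S.filter fun s => i ≤ ip C c s.1)
      · exact congrFun h0 ⟨b, hb⟩
      · exact hT b hb v hv
    have h2 := LinearMap.finrank_le_finrank_of_injective hf
    rwa [Module.finrank_fintype_fun_eq_card, Fintype.card_coe] at h2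
  · have hmem : ∀ s : (S.filter fun s => i ≤ ip C c s.1 : Finset (Rt C)),
        e K s.1 ∈ (sp C K (S : Set (Rt C)) ⊓ Fil C K c i : Submodule K (LL C K)) := by
      intro s
      have hs := Finset.mem_filter.1 s.2
      refine ⟨⟨rfl, fun b hb => ?_⟩, fun b hb => ?_, fun _ => rfl⟩
      · apply e_snd_ne
        rintro rfl
        exact hb (by simpa using hs.1)
      · apply e_snd_ne
        rintro rfl
        exact absurd hs.2 (not_le.2 hb)
    have hli : LinearIndependent K
        (fun s : (S.filter fun s => i ≤ ip C c s.1 : Finset (Rt C)) =>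
          (⟨e K s.1, hmem s⟩ :
            (sp C K (S : Set (Rt C)) ⊓ Fil C K c i : Submodule K (LL C K)))) := by
      rw [Fintype.linearIndependent_iff]
      intro g hg t
      have h1 := congrArg (fun v : (sp C K (S : Set (Rt C)) ⊓ Fil C K c i :
        Submodule K (LL C K)) => v.1) hg
      simp only [Submodule.coe_sum, Submodule.coe_smul, Submodule.coe_zero] at h1
      have h2 := congrArg (fun v : LL C K => v.2 t.1) h1
      simp only [Prod.snd_sum, Finset.sum_apply, Prod.smul_snd, Pi.smul_apply, smul_eq_mul,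
        Prod.snd_zero, Pi.zero_apply] at h2
      rw [Finset.sum_eq_single t] at h2
      · rwa [e_snd_self, mul_one] at h2
      · intro b _ hbt
        rw [e_snd_ne, mul_zero]
        intro h3
        exact hbt (Subtype.ext h3.symm)
      · intro h3
        exact absurd (Finset.mem_univ t) h3
    have h2 := hli.fintype_card_le_finrank
    rwa [Fintype.card_coe] at h2

/-- the filtration by `l` -/
def Wl (C : Matrix (Fin n) (Fin n) ℤ) (K : Type) [Field K] (l : (Fin n → ℤ) →+ ℤ) (m : ℤ) :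
    Submodule K (LL C K) where
  carrier := {x | (∀ b : Rt C, l b.1 ≤ m → x.2 b = 0) ∧ (0 ≤ m → x.1 = 0)}
  add_mem' := by
    rintro x y ⟨h1, h2⟩ ⟨h3, h4⟩
    refine ⟨fun b hb => ?_, fun hk => ?_⟩
    · simp [h1 b hb, h3 b hb]
    · simp [h2 hk, h4 hk]
  zero_mem' := ⟨fun _ _ => rfl, fun _ => rfl⟩
  smul_mem' := by
    rintro c x ⟨h1, h2⟩
    refine ⟨fun b hb => ?_, fun hk => ?_⟩
    · simp [h1 b hb]
    · simp [h2 hk]

omit [Fintype (Rt C)] in
theorem CAc_anti (l : (Fin n → ℤ) →+ ℤ) {m m' : ℤ} (h : m ≤ m') {x : LL C K}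
    (hx : x ∈ Wl C K l m') : x ∈ Wl C K l m :=
  ⟨fun b hb => hx.1 b (by omega), fun hk => hx.2 (by omega)⟩

omit [Fintype (Rt C)] in
theorem CAc_e (l : (Fin n → ℤ) →+ ℤ) {m : ℤ} {a : Rt C} (h : m < l a.1) :
    e K a ∈ Wl C K l m := by
  refine ⟨fun b hb => ?_, fun _ => rfl⟩
  apply e_snd_ne
  rintro rfl
  omega

omit [Fintype (Rt C)] in
theorem CAc_hh (l : (Fin n → ℤ) →+ ℤ) {m : ℤ} (h : m < 0) (k : Fin n → K) :
    hh C k ∈ Wl C K l m :=
  ⟨fun _ _ => rfl, fun hk => by omega⟩

theorem CAc_gen_e (H : Hyp C K) (l : (Fin n → ℤ) →+ ℤ) {b : Rt C} (s : K) (hb : 0 < l b.1)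
    (d : Rt C) : xr b s (e K d) - e K d ∈ Wl C K l (l d.1) := by
  rcases ip_cases H b d with h | h | h | h | h
  · subst h
    have h0 : l (ng b).1 = -l b.1 := by
      rw [ng_val, map_neg]
    rw [xr_e_ng H]
    have h1 : e K (ng b) - s • hh C (zk b.1) + (s ^ 2) • e K b - e K (ng b) =
        -(s • hh C (zk b.1)) + (s ^ 2) • e K b := by abel
    rw [h1, h0]
    exact add_mem (neg_mem (Submodule.smul_mem _ _ (CAc_hh l (by omega) _)))
      (Submodule.smul_mem _ _ (CAc_e l (by omega)))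
  · have hc := root_add H h
    rw [xr_e_add H b s (c := ⟨b.1 + d.1, hc⟩) rfl, add_sub_cancel_left]
    apply Submodule.smul_mem
    apply CAc_e
    show _ < l (b.1 + d.1)
    rw [map_add]
    omega
  · rw [xr_e_nonneg H b s (by omega), sub_self]
    exact zero_mem _
  · rw [xr_e_nonneg H b s (by omega), sub_self]
    exact zero_mem _
  · subst h
    rw [xr_e_nonneg H d s (by rw [d.2]; norm_num), sub_self]
    exact zero_mem _

theorem CAc_gen_hh (H : Hyp C K) (l : (Fin n → ℤ) →+ ℤ) {b : Rt C} (s : K) (hb : 0 < l b.1)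
    (h : Fin n → K) : xr b s (hh C h) - hh C h ∈ Wl C K l 0 := by
  rw [xr_hh H]
  have h1 : hh C h - (s * fk C h (zk b.1)) • e K b - hh C h =
      -((s * fk C h (zk b.1)) • e K b) := by abel
  rw [h1]
  exact neg_mem (Submodule.smul_mem _ _ (CAc_e l hb))

/-- the property of unipotent elements -/
def CAcP (l : (Fin n → ℤ) →+ ℤ) (r : LL C K ≃ₗ[K] LL C K) : Prop :=
  (∀ d : Rt C, r (e K d) - e K d ∈ Wl C K l (l d.1)) ∧
    ∀ h : Fin n → K, r (hh C h) - hh C h ∈ Wl C K l 0

theorem CAc_raise {l : (Fin n → ℤ) →+ ℤ} {r : LL C K ≃ₗ[K] LL C K} (hr : CAcP l r) {m : ℤ}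
    {x : LL C K} (hx : x ∈ Wl C K l m) : r x - x ∈ Wl C K l (m + 1) := by
  have h1 : r x - x = (r (hh C x.1) - hh C x.1) + ∑ a : Rt C, x.2 a • (r (e K a) - e K a) := by
    conv_lhs => rw [decomp x]
    simp only [map_add, map_sum, map_smul, smul_sub, Finset.sum_sub_distrib]
    abel
  rw [h1]
  refine add_mem ?_ (Submodule.sum_mem _ fun a _ => ?_)
  · by_cases hm : 0 ≤ m
    · rw [hx.2 hm, hh_zero, map_zero, sub_zero]
      exact zero_mem _
    · exact CAc_anti l (by omega) (hr.2 _)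
  · by_cases ha : l a.1 ≤ m
    · rw [hx.1 a ha, zero_smul]
      exact zero_mem _
    · exact Submodule.smul_mem _ _ (CAc_anti l (by omega) (hr.1 a))

theorem CAc_map {l : (Fin n → ℤ) →+ ℤ} {r : LL C K ≃ₗ[K] LL C K} (hr : CAcP l r) {m : ℤ}
    {x : LL C K} (hx : x ∈ Wl C K l m) : r x ∈ Wl C K l m := by
  have h1 : r x = (r x - x) + x := by abel
  rw [h1]
  exact add_mem (CAc_anti l (by omega) (CAc_raise hr hx)) hx

theorem CAc_mul {l : (Fin n → ℤ) →+ ℤ} {r t : LL C K ≃ₗ[K] LL C K} (hr : CAcP l r)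
    (ht : CAcP l t) : CAcP l (r * t) := by
  constructor
  · intro d
    have h1 : (r * t) (e K d) - e K d = r (t (e K d) - e K d) + (r (e K d) - e K d) := by
      rw [LinearEquiv.mul_apply, map_sub]
      abel
    rw [h1]
    exact add_mem (CAc_map hr (ht.1 d)) (hr.1 d)
  · intro h
    have h1 : (r * t) (hh C h) - hh C h = r (t (hh C h) - hh C h) + (r (hh C h) - hh C h) := by
      rw [LinearEquiv.mul_apply, map_sub]
      abel
    rw [h1]
    exact add_mem (CAc_map hr (ht.2 h)) (hr.2 h)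

theorem CAc_P (H : Hyp C K) (l : (Fin n → ℤ) →+ ℤ) {r : LL C K ≃ₗ[K] LL C K}
    (hr : r ∈ Subgroup.closure {g | ∃ (b : Rt C) (s : K), 0 < l b.1 ∧ g = xr b s}) :
    CAcP l r ∧ CAcP l r⁻¹ := by
  induction hr using Subgroup.closure_induction with
  | mem x hx =>
    obtain ⟨b, s, hb, rfl⟩ := hx
    refine ⟨⟨CAc_gen_e H l s hb, CAc_gen_hh H l s hb⟩, ?_⟩
    rw [← xr_neg H]
    exact ⟨CAc_gen_e H l (-s) hb, CAc_gen_hh H l (-s) hb⟩
  | one =>
    have h1 : CAcP l (1 : LL C K ≃ₗ[K] LL C K) := by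
      refine ⟨fun d => ?_, fun h => ?_⟩
      · show e K d - e K d ∈ _
        rw [sub_self]
        exact zero_mem _
      · show hh C h - hh C h ∈ _
        rw [sub_self]
        exact zero_mem _
    rw [inv_one]
    exact ⟨h1, h1⟩
  | mul x y _ _ hx hy =>
    rw [mul_inv_rev]
    exact ⟨CAc_mul hx.1 hy.1, CAc_mul hy.2 hx.2⟩
  | inv x _ hx =>
    rw [inv_inv]
    exact ⟨hx.2, hx.1⟩

theorem pos_act (H : Hyp C K) (l : (Fin n → ℤ) →+ ℤ)
    {r : LL C K ≃ₗ[K] LL C K}
    (hr : r ∈ Subgroup.closure {g | ∃ (b : Rt C) (s : K), 0 < l b.1 ∧ g = xr b s}) :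
    (∀ m, ∀ x ∈ Wl C K l m, r x ∈ Wl C K l m) ∧
      (∀ d : Rt C, r (e K d) - e K d ∈ Wl C K l (l d.1)) ∧
      ∀ h : Fin n → K, r (hh C h) - hh C h ∈ Wl C K l 0 := by
  have h1 := (CAc_P H l hr).1
  exact ⟨fun m x hx => CAc_map h1 hx, h1.1, h1.2⟩

open Classical in
theorem tri_dim (H : Hyp C K) (S : Finset (Rt C)) (c : Fin n → ℤ) (i : ℤ)
    (l : (Fin n → ℤ) →+ ℤ) (hl0 : ∀ a : Rt C, l a.1 ≠ 0)
    (hl : ∀ a b : Rt C, l a.1 = l b.1 → a = b) {r : LL C K ≃ₗ[K] LL C K}
    (hr : r ∈ Subgroup.closure {g | ∃ (b : Rt C) (s : K), 0 < l b.1 ∧ g = xr b s}) :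
    Module.finrank K (sp C K (S : Set (Rt C)) ⊓
        (Fil C K c i).map (r : LL C K →ₗ[K] LL C K) : Submodule K (LL C K)) ≤
      (S.filter fun s => i ≤ ip C c s.1).card := by
  have hP := (CAc_P H l hr).1
  have key : ∀ u : LL C K, u ∈ Fil C K c i → r u ∈ sp C K (S : Set (Rt C)) →
      (∀ s ∈ (S.filter fun s => i ≤ ip C c s.1), u.2 s = 0) → u = 0 := by
    intro u hu hru hs
    have step : ∀ m : ℤ, u ∈ Wl C K l m → u ∈ Wl C K l (m + 1) := by
      intro m hm
      have h1 := CAc_raise hP hm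
      refine ⟨fun b hb => ?_, fun hk => ?_⟩
      · have h2 : (r u - u).2 b = 0 := h1.1 b hb
        have h3 : (r u).2 b = u.2 b := sub_eq_zero.1 h2
        by_cases hbS : b ∈ S
        · by_cases hi : i ≤ ip C c b.1
          · exact hs b (Finset.mem_filter.2 ⟨hbS, hi⟩)
          · exact hu.1 b (not_le.1 hi)
        · rw [← h3]
          exact hru.2 b (by simpa using hbS)
      · have h2 : (r u - u).1 = 0 := h1.2 hk
        have h3 : (r u).1 = u.1 := sub_eq_zero.1 h2
        rw [← h3]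
        exact hru.1
    obtain ⟨M, hM⟩ : ∃ M : ℕ, ∀ a : Rt C, |l a.1| < (M : ℤ) := by
      refine ⟨(∑ a : Rt C, (l a.1).natAbs) + 1, fun a => ?_⟩
      have h1 : (l a.1).natAbs ≤ ∑ a : Rt C, (l a.1).natAbs :=
        Finset.single_le_sum (f := fun a : Rt C => (l a.1).natAbs)
          (fun _ _ => Nat.zero_le _) (Finset.mem_univ a)
      rw [Int.abs_eq_natAbs]
      exact_mod_cast Nat.lt_succ_of_le h1
    have hall : ∀ N : ℕ, u ∈ Wl C K l (-(M : ℤ) - 1 + N) := by
      intro N
      induction N with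
      | zero =>
        refine ⟨fun b hb => ?_, fun hk => ?_⟩
        · have h2 := hM b
          rw [abs_lt] at h2
          omega
        · omega
      | succ N ih =>
        have h1 := step _ ih
        have h2 : (-(M : ℤ) - 1 + N) + 1 = -(M : ℤ) - 1 + ((N + 1 : ℕ) : ℤ) := by
          push_cast
          ring
        rw [h2] at h1
        exact h1
    have h1 := hall (2 * M + 1)
    refine Prod.ext (h1.2 (by omega)) (funext fun b => h1.1 b ?_)
    have h3 := hM b
    rw [abs_lt] at h3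
    omega
  let f : (sp C K (S : Set (Rt C)) ⊓
        (Fil C K c i).map (r : LL C K →ₗ[K] LL C K) : Submodule K (LL C K)) →ₗ[K]
      ((S.filter fun s => i ≤ ip C c s.1 : Finset (Rt C)) → K) :=
    { toFun := fun v s => (r.symm v.1).2 s.1
      map_add' := fun v w => by
        funext s
        show (r.symm (v.1 + w.1)).2 s.1 = (r.symm v.1).2 s.1 + (r.symm w.1).2 s.1
        rw [map_add]
        rfl
      map_smul' := fun k v => by
        funext s
        show (r.symm (k • v.1)).2 s.1 = k * (r.symm v.1).2 s.1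
        rw [map_smul]
        rfl }
  have hf : Function.Injective f := by
    rw [injective_iff_map_eq_zero]
    rintro ⟨v, hv1, hv2⟩ hv
    obtain ⟨u, hu, rfl⟩ := hv2
    have h1 : u = 0 := by
      apply key u hu hv1
      intro s hs
      have h2 := congrFun hv ⟨s, hs⟩
      have h3 : (r.symm (r u)).2 s = 0 := h2
      rwa [LinearEquiv.symm_apply_apply] at h3
    apply Subtype.ext
    show r u = 0
    rw [h1, map_zero]
  have h2 := LinearMap.finrank_le_finrank_of_injective hf
  rwa [Module.finrank_fintype_fun_eq_card, Fintype.card_coe] at h2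

end Pool.Agent.H33.EL
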