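import Pool.Agent.H33.EL.CAa
import Pool.Agent.H33.EL.Fil
import Pool.Agent.H33.EL.GrpZ

/-!
# EL-31: the graded image of a subgroup of `Par d`

`F ≤ Par d`, `T1 ≤ F`, `grF H d F` the image of `F` under `gr`.
(i) `grF_TT`: let `t = gr f ∈ TT`, `f ∈ F`.  `R = F ⊓ Rad d` is a `p`-group normalised by `F`.
For `a ∈ T1`: `gr (f a f⁻¹) = t a t⁻¹ = a` so `f a f⁻¹ a⁻¹ ∈ R`.  By `sz_conj` for
`Q = R`, `A = T1`, `B = f T1 f⁻¹` (orders prime to `p`: `T1_card`) there is `u ∈ R` with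
`u T1 u⁻¹ = f T1 f⁻¹`.  So `n = u⁻¹ f` normalises `T1`, `n ∈ NN` (`mem_NN_of_conj`), `n ∈ Par d`,
`gr n = n` (`gr_NN`), and `gr n = gr f = t`.  So `t = n ∈ F`.
(ii) `grF_SF`: let `a ∈ SF (grF H d F)`.  `xr a 1 = gr f` preserves the grading; it maps
`e (ng a)` to `e (ng a) - hh (zk a) + e a`, so `ip d a = 0`.  Let
`P = {f ∈ F : gr f ∈ {xr a s : s ∈ K}}`, a subgroup (as a subgroup of the ambient group:
`(F.subgroupOf (Par d) ⊓ comap …).map`), `T1`-invariant, a `p`-group (it has the normal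
`p`-subgroup `F ⊓ Rad d`, and the quotient embeds into `{xr a s}`); some `f ∈ P` has
`gr f = xr a 1 ≠ 1`.  By `pg` `P` is generated by `xr b s`, `b ∈ SF P`; `xr b s ∈ Par d` forces
`ip d b ≥ 0` (look at `e (ng b)`); not all of the generators are in the kernel of `gr`, so there
is `b ∈ SF P` with `ip d b = 0` (`gr_xr_pos`), and `gr (xr b s) = xr b s` (`gr_xr_zero`)
is some `xr a s'`; for `s = 1` this gives `b = a` (act on `e (ng b)`: toral part).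
So `a ∈ SF P ⊆ SF F`.
(iii) `grF_card`: the kernel of `gr` on `F` is `F ⊓ Rad d ≠ 1`.
-/

namespace Pool.Agent.H33.EL

variable {n : ℕ} {C : Matrix (Fin n) (Fin n) ℤ} {K : Type} [Field K] [Fintype (Rt C)]

/-- the graded image -/
noncomputable def grF (H : Hyp C K) (d : Fin n → ℤ) (F : Subgroup (LL C K ≃ₗ[K] LL C K)) :
    Subgroup (LL C K ≃ₗ[K] LL C K) := (F.subgroupOf (Par C K d)).map (gr H d)

theorem mem_grF (H : Hyp C K) (d : Fin n → ℤ) (F : Subgroup (LL C K ≃ₗ[K] LL C K))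
    (x : LL C K ≃ₗ[K] LL C K) :
    x ∈ grF H d F ↔ ∃ g : Par C K d, (g : LL C K ≃ₗ[K] LL C K) ∈ F ∧ gr H d g = x := by
  simp [grF, Subgroup.mem_map, Subgroup.mem_subgroupOf]

theorem grF_le (H : Hyp C K) (d : Fin n → ℤ) (F : Subgroup (LL C K ≃ₗ[K] LL C K)) :
    grF H d F ≤ GG C K := by
  intro x hx
  obtain ⟨g, -, rfl⟩ := (mem_grF H d F x).1 hx
  exact gr_mem_GG H g

theorem T1_le_grF (H : Hyp C K) (d : Fin n → ℤ) (F : Subgroup (LL C K ≃ₗ[K] LL C K))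
    (hT : T1 C K ≤ F) : T1 C K ≤ grF H d F := by
  intro t ht
  exact (mem_grF H d F t).2 ⟨⟨t, TT_le_Par H d (T1_le_TT H ht)⟩, hT ht,
    gr_TT H (T1_le_TT H ht)⟩

theorem CAe_conj_Rad (H : Hyp C K) {d : Fin n → ℤ} {g u : LL C K ≃ₗ[K] LL C K}
    (hg : g ∈ Par C K d) (hu : u ∈ Rad H d) : g * u * g⁻¹ ∈ Rad H d := by
  have hu' : gr H d ⟨u, Rad_le H d hu⟩ = 1 := (mem_Rad H ⟨u, Rad_le H d hu⟩).1 hu
  have h1 := (mem_Rad H (⟨g, hg⟩ * ⟨u, Rad_le H d hu⟩ * ⟨g, hg⟩⁻¹ : Par C K d)).2 (by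
    rw [map_mul, map_mul, hu', mul_one, ← map_mul, mul_inv_cancel, map_one])
  exact h1

theorem grF_TT (H : Hyp C K) {p : ℕ} [Fact p.Prime] [CharP K p] (d : Fin n → ℤ)
    (F : Subgroup (LL C K ≃ₗ[K] LL C K)) (hT : T1 C K ≤ F) {t : LL C K ≃ₗ[K] LL C K}
    (ht : t ∈ grF H d F) (ht' : t ∈ TT C K) : t ∈ F := by
  haveI := finite_group H
  obtain ⟨f, hfF, hft⟩ := (mem_grF H d F t).1 ht
  let R : Subgroup (LL C K ≃ₗ[K] LL C K) := F ⊓ Rad H d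
  have hRp : IsPGroup p R := (Rad_pgroup H d).to_le inf_le_right
  let B : Subgroup (LL C K ≃ₗ[K] LL C K) :=
    (T1 C K).map (MulAut.conj (f : LL C K ≃ₗ[K] LL C K)).toMonoidHom
  have hcB : Nat.card B = Nat.card (T1 C K) :=
    Subgroup.card_map_of_injective (MulAut.conj (f : LL C K ≃ₗ[K] LL C K)).injective
  have hPar : ∀ a ∈ T1 C K, a ∈ Par C K d := fun a ha => TT_le_Par H d (T1_le_TT H ha)
  have hcomm : ∀ a ∈ T1 C K,
      (f : LL C K ≃ₗ[K] LL C K) * a * (f : LL C K ≃ₗ[K] LL C K)⁻¹ * a⁻¹ ∈ R := by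
    intro a ha
    refine Subgroup.mem_inf.2 ⟨mul_mem (mul_mem (mul_mem hfF (hT ha)) (inv_mem hfF))
      (inv_mem (hT ha)), ?_⟩
    have h1 := (mem_Rad H (f * ⟨a, hPar a ha⟩ * f⁻¹ * ⟨a, hPar a ha⟩⁻¹ : Par C K d)).2 (by
      have h2 : gr H d ⟨a, hPar a ha⟩ = a := gr_TT H (T1_le_TT H ha)
      rw [map_mul, map_mul, map_mul, map_inv, map_inv, h2, hft,
        TT_comm H ht' (T1_le_TT H ha), mul_inv_cancel_right, mul_inv_cancel])
    exact h1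
  obtain ⟨u, hu, -, huB⟩ := sz_conj (p := p) R (T1 C K) B hRp (T1_card H)
    (by rw [hcB]; exact T1_card H)
    (by
      intro a ha u hu
      exact Subgroup.mem_inf.2 ⟨mul_mem (mul_mem (hT ha) (Subgroup.mem_inf.1 hu).1)
        (inv_mem (hT ha)), CAe_conj_Rad H (hPar a ha) (Subgroup.mem_inf.1 hu).2⟩)
    (by
      rintro _ ⟨a, ha, rfl⟩
      refine ⟨_, hcomm a ha, a, ha, ?_⟩
      show (f : LL C K ≃ₗ[K] LL C K) * a * (f : LL C K ≃ₗ[K] LL C K)⁻¹ = _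
      rw [inv_mul_cancel_right])
    (by
      intro a ha
      refine ⟨_, inv_mem (hcomm a ha), _, ⟨a, ha, rfl⟩, ?_⟩
      show a = _ * ((f : LL C K ≃ₗ[K] LL C K) * a * (f : LL C K ≃ₗ[K] LL C K)⁻¹)
      group)
  have huP : u ∈ Par C K d := Rad_le H d (Subgroup.mem_inf.1 hu).2
  have hnN : u⁻¹ * (f : LL C K ≃ₗ[K] LL C K) ∈ NN C K := by
    refine mem_NN_of_conj H (mul_mem (inv_mem huP.1) f.2.1) fun a ha => ?_
    have h1 := huB _ ⟨a, ha, rfl⟩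
    have h2 : u⁻¹ * (f : LL C K ≃ₗ[K] LL C K) * a * (u⁻¹ * (f : LL C K ≃ₗ[K] LL C K))⁻¹ =
        u⁻¹ * ((f : LL C K ≃ₗ[K] LL C K) * a * (f : LL C K ≃ₗ[K] LL C K)⁻¹) * u := by
      group
    rw [h2]
    exact h1
  have hu1 : gr H d ⟨u, huP⟩ = 1 := (mem_Rad H ⟨u, huP⟩).1 (Subgroup.mem_inf.1 hu).2
  have h3 : gr H d ((⟨u, huP⟩ : Par C K d)⁻¹ * f) = u⁻¹ * (f : LL C K ≃ₗ[K] LL C K) :=
    gr_NN H ((⟨u, huP⟩ : Par C K d)⁻¹ * f) hnN
  rw [map_mul, map_inv, hu1, inv_one, one_mul, hft] at h3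
  rw [h3]
  exact mul_mem (inv_mem (Subgroup.mem_inf.1 hu).1) hfF

theorem CAe_root_zero (H : Hyp C K) (d : Fin n → ℤ) {a : Rt C}
    (h : xr a (1 : K) (e K (ng a)) ∈ Grd C K d (ip C d (ng a).1)) : ip C d a.1 = 0 := by
  have h2 : ip C d (ng a).1 = -ip C d a.1 := by
    rw [ng_val, ip_neg_right]
  by_contra hne
  have h3 := h.1 a (by rw [h2]; omega)
  rw [xr_e_ng H] at h3
  simp only [Prod.smul_snd, Prod.snd_add, Prod.snd_sub, Pi.smul_apply, Pi.add_apply,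
    Pi.sub_apply, hh_snd, e_snd_self, e_snd_ne (ng_ne H a).symm, smul_eq_mul] at h3
  norm_num at h3

theorem CAe_root_nonneg (H : Hyp C K) (d : Fin n → ℤ) {a : Rt C}
    (h : xr a (1 : K) ∈ Par C K d) : 0 ≤ ip C d a.1 := by
  have h2 : ip C d (ng a).1 = -ip C d a.1 := by
    rw [ng_val, ip_neg_right]
  have h1 := (h.2 (ip C d (ng a).1) (e K (ng a))).2 (Fil_e_fil d (ng a) le_rfl)
  by_contra hne
  have h3 := h1.1 a (by rw [h2]; omega)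
  rw [xr_e_ng H] at h3
  simp only [Prod.smul_snd, Prod.snd_add, Prod.snd_sub, Pi.smul_apply, Pi.add_apply,
    Pi.sub_apply, hh_snd, e_snd_self, e_snd_ne (ng_ne H a).symm, smul_eq_mul] at h3
  norm_num at h3

theorem grF_SF_deg (H : Hyp C K) (d : Fin n → ℤ) (F : Subgroup (LL C K ≃ₗ[K] LL C K))
    {a : Rt C} (ha : a ∈ SF (grF H d F)) : ip C d a.1 = 0 := by
  obtain ⟨g, -, hg⟩ := (mem_grF H d F _).1 (ha 1)
  apply CAe_root_zero H d
  rw [← hg]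
  exact gr_grd H g (Fil_e_grd d (ng a))

/-- the elements of `F` whose graded part is in the root group of `a` -/
def CAe_P (H : Hyp C K) (d : Fin n → ℤ) (F : Subgroup (LL C K ≃ₗ[K] LL C K)) (a : Rt C) :
    Subgroup (LL C K ≃ₗ[K] LL C K) where
  carrier := {g | g ∈ F ∧ ∃ h : g ∈ Par C K d, ∃ s : K, gr H d ⟨g, h⟩ = xr a s}
  one_mem' := ⟨one_mem _, one_mem _, 0, by
    rw [xr_zero H]
    exact map_one (gr H d)⟩
  mul_mem' := by
    rintro g g' ⟨h1, h2, s, h3⟩ ⟨h1', h2', s', h3'⟩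
    refine ⟨mul_mem h1 h1', mul_mem h2 h2', s + s', ?_⟩
    rw [xr_add H, ← h3, ← h3', ← map_mul]
    rfl
  inv_mem' := by
    rintro g ⟨h1, h2, s, h3⟩
    refine ⟨inv_mem h1, inv_mem h2, -s, ?_⟩
    rw [xr_neg H, ← h3, ← map_inv]
    rfl

theorem CAe_P_pgroup (H : Hyp C K) {p : ℕ} [Fact p.Prime] [CharP K p] (d : Fin n → ℤ)
    (F : Subgroup (LL C K ≃ₗ[K] LL C K)) (a : Rt C) : IsPGroup p (CAe_P H d F a) := by
  rintro ⟨g, hg⟩
  obtain ⟨-, h2, s, h3⟩ := hg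
  have h4 : gr H d (⟨g, h2⟩ ^ p) = 1 := by
    rw [map_pow, h3, xr_pow H, CharP.cast_eq_zero, zero_mul, xr_zero H]
  have h5 : g ^ p ∈ Rad H d := (mem_Rad H ((⟨g, h2⟩ : Par C K d) ^ p)).2 h4
  obtain ⟨k, hk⟩ := Rad_pgroup H (p := p) d ⟨g ^ p, h5⟩
  refine ⟨k + 1, Subtype.ext ?_⟩
  have h6 : (g ^ p) ^ p ^ k = 1 := congrArg Subtype.val hk
  show g ^ p ^ (k + 1) = 1
  rw [pow_succ', pow_mul, h6]

theorem grF_SF (H : Hyp C K) {p : ℕ} [Fact p.Prime] [CharP K p] (d : Fin n → ℤ)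
    (F : Subgroup (LL C K ≃ₗ[K] LL C K)) (hT : T1 C K ≤ F) {a : Rt C}
    (ha : a ∈ SF (grF H d F)) : a ∈ SF F := by
  have hda := grF_SF_deg H d F ha
  have hPG : CAe_P H d F a ≤ GG C K := fun g hg => hg.2.1.1
  have hTP : ∀ t ∈ T1 C K, ∀ u ∈ CAe_P H d F a, t * u * t⁻¹ ∈ CAe_P H d F a := by
    rintro t ht u ⟨h1, h2, s, h3⟩
    have ht1 := T1_le_TT H ht
    have ht2 := TT_le_Par H d ht1
    refine ⟨mul_mem (mul_mem (hT ht) h1) (inv_mem (hT ht)),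
      mul_mem (mul_mem ht2 h2) (inv_mem ht2), wt t a * s, ?_⟩
    rw [← TT_conj_xr H ht1, ← h3]
    have h4 : gr H d ⟨t, ht2⟩ = t := gr_TT H ht1
    conv_rhs => rw [← h4]
    rw [← map_inv, ← map_mul, ← map_mul]
    rfl
  have hpg := pg H (CAe_P H d F a) (CAe_P_pgroup (p := p) H d F a) hPG hTP
  obtain ⟨f, hfF, hf⟩ := (mem_grF H d F _).1 (ha 1)
  have hfP : (f : LL C K ≃ₗ[K] LL C K) ∈ CAe_P H d F a := ⟨hfF, f.2, 1, hf⟩
  -- some root of degree zero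
  obtain ⟨b, hb, hb0⟩ : ∃ b ∈ SF (CAe_P H d F a), ip C d b.1 = 0 := by
    by_contra hcon
    push Not at hcon
    have h1 : CAe_P H d F a ≤ Rad H d := by
      refine hpg.trans ?_
      rw [Subgroup.closure_le]
      rintro _ ⟨b, hb, s, rfl⟩
      have h2 := CAe_root_nonneg H d (hb 1).2.1
      have h3 : 0 < ip C d b.1 := lt_of_le_of_ne h2 (Ne.symm (hcon b hb))
      exact (mem_Rad H ⟨xr b s, xr_mem_Par H d b s h3.le⟩).2 (gr_xr_pos H d b s h3)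
    have h2 := (mem_Rad H f).1 (h1 hfP)
    rw [hf, ← xr_zero H a] at h2
    exact one_ne_zero (xr_inj H a h2)
  obtain ⟨-, h2, s, h3⟩ := hb 1
  have h4 : xr b (1 : K) = xr a s := by
    rw [← h3]
    exact (gr_xr_zero H d b 1 hb0).symm
  have hba : b = a := by
    by_contra hne
    have h5 := congrArg (fun g : LL C K ≃ₗ[K] LL C K => (g (e K (ng b))).1) h4
    have h6 : ng a ≠ ng b := by
      intro h7
      apply hne
      rw [← ng_ng b, ← ng_ng a, h7]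
    simp only [xr_fst H, e_fst, e_snd_self, e_snd_ne h6, mul_one, mul_zero, zero_smul,
      sub_zero, zero_sub, neg_eq_zero] at h5
    exact one_ne_zero (Sl2_smul_zk H b h5)
  intro s'
  rw [← hba]
  exact (hb s').1

theorem grF_card (H : Hyp C K) (d : Fin n → ℤ) (F : Subgroup (LL C K ≃ₗ[K] LL C K))
    (hF : F ≤ Par C K d) (hR : F ⊓ Rad H d ≠ ⊥) :
    Nat.card (grF H d F) < Nat.card F := by
  haveI := finite_group H
  by_contra hcon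
  push Not at hcon
  let φ : F → grF H d F := fun x =>
    ⟨gr H d ⟨x, hF x.2⟩, (mem_grF H d F _).2 ⟨⟨x, hF x.2⟩, x.2, rfl⟩⟩
  have hφ : Function.Surjective φ := by
    rintro ⟨y, hy⟩
    obtain ⟨g, hg, rfl⟩ := (mem_grF H d F y).1 hy
    exact ⟨⟨g, hg⟩, rfl⟩
  have hφ' : Function.Injective φ := (hφ.bijective_of_nat_card_le hcon).1
  apply hR
  rw [eq_bot_iff]
  rintro x ⟨hx1, hx2⟩
  have h1 : φ ⟨x, hx1⟩ = φ ⟨1, one_mem F⟩ := by
    apply Subtype.ext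
    show gr H d ⟨x, hF hx1⟩ = gr H d ⟨1, hF (one_mem F)⟩
    rw [(mem_Rad H ⟨x, hF hx1⟩).1 hx2]
    exact (map_one (gr H d)).symm
  have h2 := congrArg Subtype.val (hφ' h1)
  exact Subgroup.mem_bot.2 h2

end Pool.Agent.H33.EL
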