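import Mathlib

/-!
# EL-21: the Baer-Suzuki theorem

`F` finite, `x ∈ F`, and for all `g ∈ F` the group `⟨x, g x g⁻¹⟩` is a `p`-group.  Then `x` is in
a normal `p`-subgroup of `F`.

Proof (Alperin-Lyons).  Let `C` be the conjugacy class of `x`.  Every two elements of `C`
generate a `p`-group (conjugate).  Suppose that `⟨C⟩` is not a `p`-group (if it is, we are done:
it is normal).  For a `p`-subgroup `P` write `P_C = C ∩ P`.  There are Sylow
`p`-subgroups `P, Q` with `P_C ≠ Q_C`: otherwise `P_C` is the same set `D` for all Sylow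
`p`-subgroups, every element of `C` is in some Sylow subgroup so `D = C ⊆ P`, contradiction.
Choose such a pair with `|P_C ∩ Q_C|` maximal, `D = P_C ∩ Q_C`.  WLOG.. note
`|P_C| = |Q_C|` as `P`, `Q` are conjugate, so `D ≠ P_C` and `D ≠ Q_C`.
Claim: there is `u ∈ P_C \ D` normalising `⟨D⟩`.  Take a chain from `⟨D⟩` to `P`: if
`N_P(⟨D⟩)` contains no element of `P_C \ D`: consider `⟨D⟩ = P_0 < P_1 < … < P_k = P` with `P_i`
normal in `P_(i+1)` (`p`-group).  Let `i` be minimal with `P_(i+1)` containing an element `u` of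
`C \ D` (exists as `P_C ≠ D`); then `P_i ∩ C = D` (`D ⊆ P_i`), `u` normalises `P_i`, so it
normalises the set `D = P_i ∩ C` (class is invariant), so it normalises `⟨D⟩`.  Similarly
`v ∈ Q_C \ D` normalising the set `D`.  Now `⟨u,v⟩` is a `p`-group which normalises `⟨D⟩`, so
`⟨D, u, v⟩` is a `p`-group, contained in a Sylow subgroup `R`.  `R_C ∩ P_C ⊇ D ∪ {u}` so
`R_C = P_C` by maximality; `R_C ∩ Q_C ⊇ D ∪ {v}` so `R_C = Q_C`.  Contradiction.
Then give the relative version for a subgroup `F` of an ambient group.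
-/

namespace Pool.Agent.H33.EL

open Subgroup

theorem grpB_isPGroup_map_conj {H : Type} [Group H] {p : ℕ} (K : Subgroup H) (hK : IsPGroup p K)
    (a : H) : IsPGroup p (K.map (MulAut.conj a).toMonoidHom) :=
  hK.map _

/-- every two conjugates of `x` generate a `p`-group -/
theorem grpB_pair {H : Type} [Group H] {p : ℕ} (x : H)
    (h : ∀ g : H, IsPGroup p (closure ({x, g * x * g⁻¹} : Set H))) (a b : H) :
    IsPGroup p (closure ({a * x * a⁻¹, b * x * b⁻¹} : Set H)) := by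
  have h1 := grpB_isPGroup_map_conj _ (h (a⁻¹ * b)) a
  rw [MonoidHom.map_closure] at h1
  have h2 : ((MulAut.conj a).toMonoidHom '' ({x, a⁻¹ * b * x * (a⁻¹ * b)⁻¹} : Set H)) =
      ({a * x * a⁻¹, b * x * b⁻¹} : Set H) := by
    simp [Set.image_insert_eq, Set.image_singleton, MulAut.conj_apply, mul_assoc]
  rw [h2] at h1
  exact h1

/-- The normaliser step. -/
theorem grpB_step {H : Type} [Group H] [Finite H] {p : ℕ} [Fact p.Prime] (C : Set H)
    (hC : ∀ g : H, ∀ y ∈ C, g * y * g⁻¹ ∈ C) (P K₀ : Subgroup H) (hP : IsPGroup p P)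
    (hK₀ : K₀ ≤ P) (hne : C ∩ (K₀ : Set H) ≠ C ∩ (P : Set H)) :
    ∃ u ∈ C ∩ (P : Set H), u ∉ K₀ ∧ ∀ d, d ∈ C ∩ (K₀ : Set H) ↔ u * d * u⁻¹ ∈ C ∩ (K₀ : Set H) := by
  classical
  have hfin : (Set.univ : Set (Subgroup H)).Finite := Set.toFinite _
  obtain ⟨K, ⟨hKP, hKC⟩, hmax⟩ := Set.exists_max_image
    {K : Subgroup H | K ≤ P ∧ C ∩ (K : Set H) = C ∩ (K₀ : Set H)}
    (fun K => Nat.card K) (Set.toFinite _) ⟨K₀, hK₀, rfl⟩
  have hlt : K.subgroupOf P < ⊤ := by
    rw [lt_top_iff_ne_top]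
    intro h
    rw [Subgroup.subgroupOf_eq_top] at h
    have : K = P := le_antisymm hKP h
    rw [this] at hKC
    exact hne hKC.symm
  have : Group.IsNilpotent P := hP.isNilpotent
  have h1 := (Group.normalizerCondition_of_isNilpotent (G := P)) _ hlt
  set N : Subgroup P := normalizer (K.subgroupOf P : Subgroup P) with hN
  have hKN : K ≤ N.map P.subtype := by
    intro k hk
    exact ⟨⟨k, hKP hk⟩, h1.le (by simpa [Subgroup.mem_subgroupOf] using hk), rfl⟩
  have hNP : N.map P.subtype ≤ P := by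
    rintro _ ⟨y, -, rfl⟩
    exact y.2
  have hne2 : K ≠ N.map P.subtype := by
    intro h
    apply h1.ne
    have h2 : (N.map P.subtype).subgroupOf P = N := by
      ext y
      simp [Subgroup.mem_subgroupOf]
    rw [← h2, ← h]
  have hcard : Nat.card K < Nat.card (N.map P.subtype) := by
    have hss : (K : Set H) ⊂ (N.map P.subtype : Subgroup H) := by
      refine Set.ssubset_iff_subset_ne.2 ⟨hKN, fun h => hne2 (SetLike.coe_injective h)⟩
    exact Set.ncard_lt_ncard hss (Set.toFinite _)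
  have hnot : ¬ (C ∩ ((N.map P.subtype : Subgroup H) : Set H) = C ∩ (K₀ : Set H)) := by
    intro h
    have := hmax _ ⟨hNP, h⟩
    omega
  have hsub : C ∩ (K₀ : Set H) ⊆ C ∩ ((N.map P.subtype : Subgroup H) : Set H) := by
    rw [← hKC]
    exact Set.inter_subset_inter_right _ hKN
  obtain ⟨u, ⟨huC, huN⟩, hu⟩ : ∃ u ∈ C ∩ ((N.map P.subtype : Subgroup H) : Set H),
      u ∉ C ∩ (K₀ : Set H) := by
    by_contra hcon
    push Not at hcon
    exact hnot (Set.Subset.antisymm hcon hsub)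
  obtain ⟨u', hu'N, rfl⟩ := huN
  have hconj : ∀ d : H, d ∈ K ↔ (u' : H) * d * (u' : H)⁻¹ ∈ K := by
    intro d
    have h3 := Subgroup.mem_normalizer_iff.1 hu'N
    constructor
    · intro hd
      have h4 := (h3 ⟨d, hKP hd⟩).1 (by simpa [Subgroup.mem_subgroupOf] using hd)
      simpa [Subgroup.mem_subgroupOf] using h4
    · intro hd
      have hdP : d ∈ P := by
        have h5 := P.mul_mem (P.mul_mem (P.inv_mem u'.2) (hKP hd)) u'.2
        simpa [mul_assoc] using h5
      have h4 := (h3 ⟨d, hdP⟩).2 (by simpa [Subgroup.mem_subgroupOf] using hd)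
      simpa [Subgroup.mem_subgroupOf] using h4
  refine ⟨u', ⟨huC, u'.2⟩, fun h => hu ⟨huC, h⟩, fun d => ?_⟩
  rw [← hKC]
  constructor
  · rintro ⟨hd1, hd2⟩
    exact ⟨hC _ _ hd1, (hconj d).1 hd2⟩
  · rintro ⟨hd1, hd2⟩
    refine ⟨?_, (hconj d).2 hd2⟩
    have := hC ((u' : H)⁻¹) _ hd1
    simpa [mul_assoc] using this

theorem grpB_whole {H : Type} [Group H] [Finite H] {p : ℕ} [Fact p.Prime] (x : H)
    (h : ∀ g : H, IsPGroup p (closure ({x, g * x * g⁻¹} : Set H))) :
    ∃ N : Subgroup H, N.Normal ∧ IsPGroup p N ∧ x ∈ N := by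
  classical
  by_contra hcon
  push Not at hcon
  set C : Set H := {y | ∃ a : H, y = a * x * a⁻¹} with hCdef
  have hC : ∀ g : H, ∀ y ∈ C, g * y * g⁻¹ ∈ C := by
    rintro g _ ⟨a, rfl⟩
    exact ⟨g * a, by simp [mul_assoc]⟩
  have hxC : x ∈ C := ⟨1, by simp⟩
  have hpair : ∀ u ∈ C, ∀ v ∈ C, IsPGroup p (closure ({u, v} : Set H)) := by
    rintro _ ⟨a, rfl⟩ _ ⟨b, rfl⟩
    exact grpB_pair x h a b
  -- there are two Sylow subgroups with different intersections with the class
  have hex : ∃ P Q : Sylow p H, C ∩ (P : Set H) ≠ C ∩ (Q : Set H) := by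
    by_contra hall
    push Not at hall
    obtain ⟨P, hP⟩ := (hpair x hxC x hxC).exists_le_sylow
    have hCP : C ⊆ (P : Set H) := by
      intro y hy
      obtain ⟨Q, hQ⟩ := (hpair y hy y hy).exists_le_sylow
      have hyQ : y ∈ C ∩ (Q : Set H) := ⟨hy, hQ (subset_closure (by simp))⟩
      rw [← hall P Q] at hyQ
      exact hyQ.2
    have hle : normalClosure ({x} : Set H) ≤ (P : Subgroup H) := by
      rw [normalClosure, closure_le]
      intro y hy
      rw [Group.mem_conjugatesOfSet_iff] at hy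
      obtain ⟨a, ha, hay⟩ := hy
      rw [Set.mem_singleton_iff] at ha
      subst ha
      obtain ⟨c, hc⟩ := isConj_iff.1 hay
      exact hCP ⟨c, hc.symm⟩
    refine hcon (normalClosure ({x} : Set H)) inferInstance (P.2.to_le hle) ?_
    exact subset_normalClosure (by simp)
  obtain ⟨P₀, Q₀, hPQ₀⟩ := hex
  obtain ⟨⟨P, Q⟩, hPQ, hmax⟩ := Set.exists_max_image
    {pq : Sylow p H × Sylow p H | C ∩ (pq.1 : Set H) ≠ C ∩ (pq.2 : Set H)}
    (fun pq => (C ∩ (((pq.1 : Subgroup H) ⊓ (pq.2 : Subgroup H) : Subgroup H) : Set H)).ncard)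
    (Set.toFinite _) ⟨(P₀, Q₀), hPQ₀⟩
  simp only [Set.mem_ofPred_eq] at hPQ hmax
  set K₀ : Subgroup H := (P : Subgroup H) ⊓ (Q : Subgroup H) with hK₀
  -- equal cardinalities
  have hcardeq : (C ∩ (P : Set H)).ncard = (C ∩ (Q : Set H)).ncard := by
    obtain ⟨g, hg⟩ := MulAction.exists_smul_eq H P Q
    have himg : C ∩ (Q : Set H) = (fun y => g * y * g⁻¹) '' (C ∩ (P : Set H)) := by
      ext y
      have hQmem : y ∈ (Q : Set H) ↔ g⁻¹ * y * g ∈ (P : Set H) := by
        rw [← hg]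
        have := @Subgroup.mem_pointwise_smul_iff_inv_smul_mem (α := MulAut H) H _ _ _
          (MulAut.conj g) (P : Subgroup H) y
        rw [← map_inv, MulAut.smul_def, MulAut.conj_apply, inv_inv] at this
        exact this
      constructor
      · rintro ⟨hy1, hy2⟩
        refine ⟨g⁻¹ * y * g, ⟨?_, hQmem.1 hy2⟩, by simp [mul_assoc]⟩
        have := hC g⁻¹ y hy1
        simpa using this
      · rintro ⟨z, ⟨hz1, hz2⟩, rfl⟩
        refine ⟨hC g z hz1, hQmem.2 ?_⟩
        have : g⁻¹ * (g * z * g⁻¹) * g = z := by group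
        rw [this]
        exact hz2
    rw [himg, Set.ncard_image_of_injective]
    intro y z hyz
    simpa using hyz
  have hne1 : C ∩ (K₀ : Set H) ≠ C ∩ (P : Set H) := by
    intro he
    have hsub : C ∩ (P : Set H) ⊆ C ∩ (Q : Set H) := by
      rw [← he]
      exact Set.inter_subset_inter_right _ (show (K₀ : Set H) ⊆ Q from
        SetLike.coe_subset_coe.2 inf_le_right)
    exact hPQ (Set.eq_of_subset_of_ncard_le hsub hcardeq.ge (Set.toFinite _))
  have hne2 : C ∩ (K₀ : Set H) ≠ C ∩ (Q : Set H) := by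
    intro he
    have hsub : C ∩ (Q : Set H) ⊆ C ∩ (P : Set H) := by
      rw [← he]
      exact Set.inter_subset_inter_right _ (show (K₀ : Set H) ⊆ P from
        SetLike.coe_subset_coe.2 inf_le_left)
    exact hPQ (Set.eq_of_subset_of_ncard_le hsub hcardeq.le (Set.toFinite _)).symm
  obtain ⟨u, ⟨huC, huP⟩, huK, hu⟩ := grpB_step C hC P K₀ P.2 inf_le_left hne1
  obtain ⟨v, ⟨hvC, hvQ⟩, hvK, hv⟩ := grpB_step C hC Q K₀ Q.2 inf_le_right hne2
  set D : Set H := C ∩ (K₀ : Set H) with hD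
  have hDK : closure D ≤ K₀ := (closure_le _).2 Set.inter_subset_right
  have hDp : IsPGroup p (closure D) := P.2.to_le (hDK.trans inf_le_left)
  have hnorm : ∀ w : H, (∀ d, d ∈ D ↔ w * d * w⁻¹ ∈ D) →
      w ∈ normalizer (closure D : Subgroup H) := by
    intro w hw
    rw [Subgroup.mem_normalizer_iff_map_conj_eq, MonoidHom.map_closure]
    congr 1
    ext y
    constructor
    · rintro ⟨d, hd, rfl⟩
      exact (hw d).1 hd
    · intro hy
      refine ⟨w⁻¹ * y * w, ?_, by simp [mul_assoc]⟩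
      rw [hw]
      simpa [mul_assoc] using hy
  have hle : closure ({u, v} : Set H) ≤ normalizer (closure D : Subgroup H) := by
    rw [closure_le]
    intro w hw
    rcases hw with rfl | hw
    · exact hnorm _ hu
    · rw [Set.mem_singleton_iff] at hw
      subst hw
      exact hnorm _ hv
  have hsup := hDp.to_sup_of_normal_left' (hpair u huC v hvC) hle
  obtain ⟨R, hR⟩ := hsup.exists_le_sylow
  have hDR : D ⊆ (R : Set H) := fun d hd => hR (le_sup_left (a := closure D) (subset_closure hd))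
  have huR : u ∈ (R : Set H) :=
    hR (le_sup_right (a := closure D) (b := closure ({u, v} : Set H)) (subset_closure (by simp)))
  have hvR : v ∈ (R : Set H) :=
    hR (le_sup_right (a := closure D) (b := closure ({u, v} : Set H)) (subset_closure (by simp)))
  have hRP : C ∩ (R : Set H) = C ∩ (P : Set H) := by
    by_contra hne
    have h1 := hmax (R, P) hne
    simp only at h1
    have h2 : D ⊂ C ∩ (((R : Subgroup H) ⊓ (P : Subgroup H) : Subgroup H) : Set H) := by
      have h3 : D ⊆ C ∩ (((R : Subgroup H) ⊓ (P : Subgroup H) : Subgroup H) : Set H) :=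
        fun d hd => ⟨hd.1, hDR hd, (inf_le_left : K₀ ≤ (P : Subgroup H)) hd.2⟩
      exact (Set.ssubset_iff_of_subset h3).2 ⟨u, ⟨huC, huR, huP⟩, fun h => huK h.2⟩
    have h3 := Set.ncard_lt_ncard h2 (Set.toFinite _)
    omega
  have hRQ : C ∩ (R : Set H) = C ∩ (Q : Set H) := by
    by_contra hne
    have h1 := hmax (R, Q) hne
    simp only at h1
    have h2 : D ⊂ C ∩ (((R : Subgroup H) ⊓ (Q : Subgroup H) : Subgroup H) : Set H) := by
      have h3 : D ⊆ C ∩ (((R : Subgroup H) ⊓ (Q : Subgroup H) : Subgroup H) : Set H) :=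
        fun d hd => ⟨hd.1, hDR hd, (inf_le_right : K₀ ≤ (Q : Subgroup H)) hd.2⟩
      exact (Set.ssubset_iff_of_subset h3).2 ⟨v, ⟨hvC, hvR, hvQ⟩, fun h => hvK h.2⟩
    have h3 := Set.ncard_lt_ncard h2 (Set.toFinite _)
    omega
  exact hPQ (hRP.symm.trans hRQ)

theorem baer_suzuki {G : Type} [Group G] [Finite G] {p : ℕ} [Fact p.Prime] (F : Subgroup G)
    (x : G) (hx : x ∈ F)
    (h : ∀ g ∈ F, IsPGroup p (Subgroup.closure ({x, g * x * g⁻¹} : Set G))) :
    ∃ N : Subgroup G, N ≤ F ∧ (∀ f ∈ F, ∀ u ∈ N, f * u * f⁻¹ ∈ N) ∧ IsPGroup p N ∧ x ∈ N := by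
  obtain ⟨N, hN, hNp, hxN⟩ := grpB_whole (p := p) (⟨x, hx⟩ : F) (by
    intro g
    have h1 := h g g.2
    have h2 : (closure ({⟨x, hx⟩, g * ⟨x, hx⟩ * g⁻¹} : Set F)).map F.subtype =
        closure ({x, (g : G) * x * (g : G)⁻¹} : Set G) := by
      rw [MonoidHom.map_closure]
      congr 1
      simp [Set.image_insert_eq, Set.image_singleton]
    rw [← h2] at h1
    exact h1.of_equiv (Subgroup.equivMapOfInjective _ _ F.subtype_injective).symm)
  refine ⟨N.map F.subtype, ?_, ?_, hNp.map _, ⟨⟨x, hx⟩, hxN, rfl⟩⟩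
  · rintro _ ⟨y, -, rfl⟩
    exact y.2
  · rintro f hf _ ⟨u, hu, rfl⟩
    exact ⟨⟨f, hf⟩ * u * ⟨f, hf⟩⁻¹, hN.conj_mem u hu ⟨f, hf⟩, rfl⟩

end Pool.Agent.H33.EL
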