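import Pool.Agent.H33.EL.CBb
import Pool.Agent.H33.EL.GrpB

/-!
# EL-34: opposite roots (Baer-Suzuki)

`pair_p`: `v`, `w` extremal with `fm v w = 0`, `z = [v,w]`.  `[v,z] = -2 fm v w v = 0`,
`[w,z] = 0`.  `w + s z = ex (s v) w` is extremal for all `s`; adding the identities for
`s = 1, -1` and subtracting twice the one for `w`: `[z,[z,x]] = -2 fm z x z`, so `z` is extremal
(or 0).  `ex (s v) ex w ex (-s v) = ex (w + s z) = ex w ex (s z)` (`ex_add_comm`:
`[w,z] = 0`; `fm w z = 0` by invariance), and `ex (s z)` commutes with `ex v`, `ex w`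
(`ex_commute`).  So the group generated by `ex v`, `ex w` consists of the products
`ex (i v) ex (j w) ex (k z)` with `i, j, k` in the prime field (integers mod `p`): it has at most
`p^3` elements, and every element has order dividing `p` or `p^2`: e.g. the set
`{ex (i v) ex (j w) ex (k z) : i j k : K}` is a subgroup all of whose elements
satisfy `g^p = 1` or `g^(p^2) = 1` (class 2).  Any argument for a `p`-group is fine, e.g. the
quotient by the central elementary abelian subgroup `{ex (k z)}` is abelian of exponent `p`.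

`opp_mem`: `x = xr b 1`.  If `⟨x, f x f⁻¹⟩` is a `p`-group for all `f ∈ F`, then by
`baer_suzuki` `x` lies in a normal `p`-subgroup of `F`, which is trivial; contradiction (`xr_inj`).
So for some `f ∈ F` it is not a `p`-group; `f x f⁻¹ = ex v`, `v = f (e b)`; by `pair_p`
`fm (e b) v ≠ 0`, so `v.2 (ng b) ≠ 0` and `PP` applies (`ex (s • v) = f (xr b s) f⁻¹`).
-/

namespace Pool.Agent.H33.EL

variable {n : ℕ} {C : Matrix (Fin n) (Fin n) ℤ} {K : Type} [Field K] [Fintype (Rt C)]

/-! ### helper lemmas -/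

theorem CBa_zpow {G : Type} [Group G] {p : ℕ} {g : G} (h : g ^ p = 1) :
    IsPGroup p (Subgroup.zpowers g) := by
  rintro ⟨_, k, rfl⟩
  refine ⟨1, Subtype.ext ?_⟩
  show (g ^ k) ^ (p ^ 1) = 1
  rw [pow_one, ← zpow_natCast, ← zpow_mul, mul_comm, zpow_mul, zpow_natCast, h, one_zpow]

/-- a two-generator group of class two with generators of order `p` is a `p`-group -/
theorem CBa_grp {G : Type} [Group G] {p : ℕ} [Fact p.Prime] {A B Z : G}
    (h : A * B * A⁻¹ = B * Z) (hA : A * Z = Z * A) (hB : B * Z = Z * B)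
    (hAp : A ^ p = 1) (hBp : B ^ p = 1) (hZp : Z ^ p = 1) :
    IsPGroup p (Subgroup.closure ({A, B} : Set G)) := by
  have hB' : B ∈ Subgroup.normalizer (Subgroup.zpowers Z : Subgroup G) := by
    rw [Subgroup.mem_normalizer_iff]
    intro g
    have key : ∀ k : ℤ, B * Z ^ k * B⁻¹ = Z ^ k := by
      intro k
      have h1 : Commute B (Z ^ k) := Commute.zpow_right hB k
      rw [h1.eq, mul_inv_cancel_right]
    constructor
    · rintro ⟨k, rfl⟩
      exact ⟨k, (key k).symm⟩
    · rintro ⟨k, hk⟩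
      refine ⟨k, ?_⟩
      have h2 : Z ^ k = B * g * B⁻¹ := hk
      have h3 := key k
      have h4 : B * Z ^ k * B⁻¹ = B * g * B⁻¹ := by rw [h3, h2]
      exact mul_left_cancel (mul_right_cancel h4)
  have hM : IsPGroup p (Subgroup.zpowers Z ⊔ Subgroup.zpowers B : Subgroup G) :=
    (CBa_zpow hZp).to_sup_of_normal_left' (CBa_zpow hBp) (Subgroup.zpowers_le.2 hB')
  have hZM : Z ∈ (Subgroup.zpowers Z ⊔ Subgroup.zpowers B : Subgroup G) :=
    le_sup_left (a := Subgroup.zpowers Z) (Subgroup.mem_zpowers Z)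
  have hBM : B ∈ (Subgroup.zpowers Z ⊔ Subgroup.zpowers B : Subgroup G) :=
    le_sup_right (a := Subgroup.zpowers Z) (Subgroup.mem_zpowers B)
  have hMc : (Subgroup.zpowers Z ⊔ Subgroup.zpowers B : Subgroup G) =
      Subgroup.closure ({Z, B} : Set G) := by
    rw [Subgroup.zpowers_eq_closure, Subgroup.zpowers_eq_closure, ← Subgroup.closure_union]
    rfl
  have h1 : ∀ g ∈ (Subgroup.zpowers Z ⊔ Subgroup.zpowers B : Subgroup G),
      A * g * A⁻¹ ∈ (Subgroup.zpowers Z ⊔ Subgroup.zpowers B : Subgroup G) := by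
    intro g hg
    have h2 : (Subgroup.zpowers Z ⊔ Subgroup.zpowers B : Subgroup G) ≤
        (Subgroup.zpowers Z ⊔ Subgroup.zpowers B : Subgroup G).comap
          (MulAut.conj A).toMonoidHom := by
      rw [sup_le_iff, Subgroup.zpowers_le, Subgroup.zpowers_le]
      constructor
      · have h3 : A * Z * A⁻¹ ∈ (Subgroup.zpowers Z ⊔ Subgroup.zpowers B : Subgroup G) := by
          rw [hA, mul_inv_cancel_right]
          exact hZM
        exact h3
      · have h3 : A * B * A⁻¹ ∈ (Subgroup.zpowers Z ⊔ Subgroup.zpowers B : Subgroup G) := by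
          rw [h]
          exact mul_mem hBM hZM
        exact h3
    exact h2 hg
  have h2 : ∀ g ∈ (Subgroup.zpowers Z ⊔ Subgroup.zpowers B : Subgroup G),
      A⁻¹ * g * A ∈ (Subgroup.zpowers Z ⊔ Subgroup.zpowers B : Subgroup G) := by
    intro g hg
    have h3 : (Subgroup.zpowers Z ⊔ Subgroup.zpowers B : Subgroup G) ≤
        (Subgroup.zpowers Z ⊔ Subgroup.zpowers B : Subgroup G).comap
          (MulAut.conj A⁻¹).toMonoidHom := by
      rw [sup_le_iff, Subgroup.zpowers_le, Subgroup.zpowers_le]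
      have hZ' : A⁻¹ * Z * A = Z := by
        rw [mul_assoc, ← hA, inv_mul_cancel_left]
      constructor
      · have h3 : A⁻¹ * Z * A⁻¹⁻¹ ∈ (Subgroup.zpowers Z ⊔ Subgroup.zpowers B : Subgroup G) := by
          rw [inv_inv, hZ']
          exact hZM
        exact h3
      · have h3 : A⁻¹ * B * A ∈ (Subgroup.zpowers Z ⊔ Subgroup.zpowers B : Subgroup G) := ?_
        · have h7 : A⁻¹ * B * A⁻¹⁻¹ ∈
              (Subgroup.zpowers Z ⊔ Subgroup.zpowers B : Subgroup G) := by rwa [inv_inv]
          exact h7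
        have h4 : A⁻¹ * B * A = B * Z⁻¹ := by
          have h5 : A⁻¹ * (B * Z) * A = B := by
            rw [← h]
            group
          have h6 : A⁻¹ * (B * Z) * A = (A⁻¹ * B * A) * (A⁻¹ * Z * A) := by group
          rw [h6, hZ'] at h5
          rw [eq_mul_inv_iff_mul_eq, h5]
        rw [h4]
        exact mul_mem hBM (inv_mem hZM)
    have h4 := h3 hg
    have h5 : A⁻¹ * g * A⁻¹⁻¹ ∈ (Subgroup.zpowers Z ⊔ Subgroup.zpowers B : Subgroup G) := h4
    rwa [inv_inv] at h5
  have hAN : A ∈ Subgroup.normalizer (Subgroup.zpowers Z ⊔ Subgroup.zpowers B : Subgroup G) := by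
    rw [Subgroup.mem_normalizer_iff]
    intro g
    refine ⟨h1 g, fun hg => ?_⟩
    have h3 := h2 _ hg
    have h4 : A⁻¹ * (A * g * A⁻¹) * A = g := by group
    rwa [h4] at h3
  have hfin := hM.to_sup_of_normal_left' (CBa_zpow hAp) (Subgroup.zpowers_le.2 hAN)
  refine hfin.to_le ?_
  rw [Subgroup.closure_le]
  rintro g (rfl | hg)
  · exact le_sup_right (a := Subgroup.zpowers Z ⊔ Subgroup.zpowers B) (Subgroup.mem_zpowers g)
  · rw [Set.mem_singleton_iff] at hg
    rw [hg]
    exact le_sup_left (a := Subgroup.zpowers Z ⊔ Subgroup.zpowers B) hBM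

theorem CBa_fm (H : Hyp C K) (v w : LL C K) : fm w (br v w) = 0 := by
  rw [br_skew H v w, map_neg, ExG_fm_br H, neg_zero]

theorem CBa_br (H : Hyp C K) {v w : LL C K} (hw : IsExt w) (h : fm v w = 0) :
    br w (br v w) = 0 := by
  rw [br_skew H v w, map_neg, hw v, fm_comm H w v, h, mul_zero, zero_smul, neg_zero]

theorem CBa_ex (H : Hyp C K) {v w : LL C K} (hv : IsExt v) (h : fm v w = 0) (s : K) :
    ex (s • v) w = w + s • br v w := by
  rw [ex_apply' H (hv.smul s), map_smul, LinearMap.smul_apply, map_smul, LinearMap.smul_apply, h,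
    smul_zero, zero_smul, sub_zero]

theorem CBa_ext (H : Hyp C K) {v w : LL C K} (hv : IsExt v) (hw : IsExt w) (h : fm v w = 0)
    (s : K) : IsExt (w + s • br v w) := by
  rw [← CBa_ex H hv h s]
  exact hw.map (ex_mem_GG H (hv.smul s))

theorem CBa_extz (H : Hyp C K) {v w : LL C K} (hv : IsExt v) (hw : IsExt w) (h : fm v w = 0) :
    IsExt (br v w) := by
  intro x
  have h2 := two_ne H
  have h0 := hw x
  have h1 := CBa_ext H hv hw h 1 x
  have h3 := CBa_ext H hv hw h (-1) x
  rw [one_smul] at h1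
  rw [neg_one_smul] at h3
  generalize br v w = z at *
  simp only [map_add, map_neg, LinearMap.add_apply, LinearMap.neg_apply] at h1 h3
  have h4 : (2 : K) • (br z (br z x)) = (2 : K) • ((-2 * fm z x) • z) := by
    have e1 : (2 : K) • (br z (br z x)) =
        (br w (br w x) + br z (br w x) + (br w (br z x) + br z (br z x))) +
        (br w (br w x) + -br z (br w x) + -(br w (br z x) + -br z (br z x))) -
        (2 : K) • br w (br w x) := by
      rw [two_smul, two_smul]
      abel
    have h1' : br w (br w x) + br z (br w x) + (br w (br z x) + br z (br z x)) =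
        (-2 * (fm w x + fm z x)) • (w + z) := h1
    have h3' : br w (br w x) + -br z (br w x) + -(br w (br z x) + -br z (br z x)) =
        (-2 * (fm w x + -fm z x)) • (w + -z) := h3
    rw [e1, h1', h3', h0]
    module
  exact (smul_right_injective _ h2 h4)

theorem pair_p (H : Hyp C K) {p : ℕ} [Fact p.Prime] [CharP K p] {v w : LL C K}
    (hv : IsExt v) (hw : IsExt w) (h : fm v w = 0) :
    IsPGroup p (Subgroup.closure ({ex v, ex w} : Set (LL C K ≃ₗ[K] LL C K))) := by
  have hz : IsExt (br v w) := CBa_extz H hv hw h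
  have hp : ∀ u : LL C K, IsExt u → ex u ^ p = 1 := by
    intro u hu
    rw [ex_pow H hu, CharP.cast_eq_zero, zero_smul, ex_zero H]
  have hvz : br v (br v w) = 0 := by
    rw [hv w, h, mul_zero, zero_smul]
  have hwz : br w (br v w) = 0 := CBa_br H hw h
  have h1 := CBa_ex H hv h 1
  rw [one_smul, one_smul] at h1
  have h2 := CBa_ext H hv hw h 1
  rw [one_smul] at h2
  refine CBa_grp (Z := ex (br v w)) ?_ ?_ ?_ (hp v hv) (hp w hw) (hp _ hz)
  · rw [conj_ex H hw (ex_mem_GG H hv), h1]
    exact ex_add_comm H hw hz h2 hwz (CBa_fm H v w)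
  · exact ex_commute H hv hz hvz
  · exact ex_commute H hw hz hwz

theorem opp_mem (H : Hyp C K) {p : ℕ} [Fact p.Prime] [CharP K p]
    (F : Subgroup (LL C K ≃ₗ[K] LL C K)) (hF : F ≤ GG C K) (hT : T1 C K ≤ F)
    (hO : ∀ P : Subgroup (LL C K ≃ₗ[K] LL C K), P ≤ F →
      (∀ f ∈ F, ∀ u ∈ P, f * u * f⁻¹ ∈ P) → IsPGroup p P → P = ⊥)
    {b : Rt C} (hb : b ∈ SF F) : ng b ∈ SF F := by
  have hfin : Finite (LL C K ≃ₗ[K] LL C K) := finite_group H
  have hex : ∃ g ∈ F, ¬ IsPGroup p (Subgroup.closure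
      ({xr b (1 : K), g * xr b (1 : K) * g⁻¹} : Set (LL C K ≃ₗ[K] LL C K))) := by
    by_contra hcon
    push Not at hcon
    obtain ⟨N, hNF, hNn, hNp, hxN⟩ := baer_suzuki F (xr b (1 : K)) (hb 1) hcon
    have hN := hO N hNF hNn hNp
    rw [hN, Subgroup.mem_bot] at hxN
    have h1 : xr b (1 : K) = xr b (0 : K) := by rw [hxN, xr_zero H]
    exact one_ne_zero (xr_inj H b h1)
  obtain ⟨g, hg, hnp⟩ := hex
  have hgG : g ∈ GG C K := hF hg
  have hv : IsExt (g (e K b)) := (isExt_e H b).map hgG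
  have hne : (g (e K b)).2 (ng b) ≠ 0 := by
    intro h0
    apply hnp
    have h1 : fm (e K b) (g (e K b)) = 0 := by rw [fm_e_left, h0, neg_zero]
    have h2 := pair_p (p := p) H (isExt_e H b) hv h1
    have h3 : xr b (1 : K) = ex (e K b) := by
      unfold xr
      rw [one_smul]
    rw [conj_xr H hgG, one_smul, h3]
    exact h2
  refine (PP (p := p) H F hF hT hb hv (fun s => ?_) hne).1
  rw [← conj_xr H hgG]
  exact mul_mem (mul_mem hg (hb s)) (inv_mem hg)

end Pool.Agent.H33.EL
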