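import Pool.Agent.H33.EL.XDa
import Pool.Agent.H33.EL.XDb

/-!
# Decomposition of extremal vectors (assembled)
-/

namespace Pool.Agent.H33.EL

variable {n : ℕ} {C : Matrix (Fin n) (Fin n) ℤ} {K : Type} [Field K] [Fintype (Rt C)]

/-- the decomposition -/
theorem xd (H : Hyp C K) {v : LL C K} (hv : IsExt v) (a : Rt C) (hc : v.2 (ng a) ≠ 0) :
    ∃ r ∈ Subgroup.closure {g : LL C K ≃ₗ[K] LL C K | ∃ (b d : Rt C) (s : K),
        ip C b.1 a.1 = 1 ∧ d.1 = b.1 - a.1 ∧ v.2 d ≠ 0 ∧ g = xr b s},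
      ∃ t : K, v = v.2 (ng a) • r (xr a t (e K (ng a))) := by
  obtain ⟨r, hr, h1, h2⟩ := xd_step1 H v a hc
  have hrG : r ∈ GG C K := by
    have : Subgroup.closure {g : LL C K ≃ₗ[K] LL C K | ∃ (b d : Rt C) (s : K),
        ip C b.1 a.1 = 1 ∧ d.1 = b.1 - a.1 ∧ v.2 d ≠ 0 ∧ g = xr b s} ≤ GG C K := by
      rw [Subgroup.closure_le]
      rintro g ⟨b, d, s, -, -, -, rfl⟩
      exact xr_mem_GG H b s
    exact this hr
  have hv' : IsExt (r⁻¹ v) := hv.map (inv_mem hrG)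
  obtain ⟨t, ht⟩ := xd_step2 H hv' a (by rw [h1]; exact hc) h2
  refine ⟨r, hr, t, ?_⟩
  rw [h1] at ht
  calc v = r (r⁻¹ v) := (r.apply_symm_apply v).symm
    _ = r (v.2 (ng a) • xr a t (e K (ng a))) := by rw [← ht]
    _ = v.2 (ng a) • r (xr a t (e K (ng a))) := map_smul _ _ _

end Pool.Agent.H33.EL
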