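import Pool.Agent.H33.EL.CBb
import Pool.Agent.H33.EL.CAa

/-!
# EL-35: components

`S = SF F` is assumed to be closed under negatives (`hsym`); it is closed (`SF_closed`).
`cmp F b`: the roots connected to `b` in `S` under `ip ≠ 0`; `E1 F b` the group generated by their
root groups; `O1 F b` the non zero multiples of the `r (e c)`, `r ∈ E1 F b`, `c ∈ cmp F b`.

* `cmp` is contained in `S`, closed under negatives and sums.
* `O1_ext`: images of root vectors.  `ex (s • r (e c)) = r (xr c s) r⁻¹`.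
* `O1_P`: `w = k • r (e c)`; replace `v` by `v1 = r⁻¹ v` (extremal, `ex (s • v1) = r⁻¹ ex (s • v) r`
  in `F`); `fm v1 (e c) ≠ 0` says `v1.2 (ng c) ≠ 0`; `PP` with `b := c`:
  `v1 = k' • r' (e (ng c))`, and the generators `xr d s`, `d ∈ S`, `1 ≤ ip d c` of `r'` are in
  `E1 F b`; `ng c ∈ cmp F b`.
* `O1_conn`: say `x ~ y` for `x, y ∈ O1` if `fm x y ≠ 0` (symmetric), and `≈` the generated
  equivalence relation on `O1`; `≈` is invariant under `E1` and scalars do not matter: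
  `k • x ≈ x` (both `~ y` for a common `y`: `fm (r e_c) (r e_(-c)) ≠ 0`).
  `e c ≈ e (ng c)`.  For `c, d ∈ cmp` with `ip c d = -1`, `f = c + d`:
  `xr d 1 (e c) = e c ± e f` (use `xr_e_add` with `d + c`), `fm` with `e (ng c)` and with
  `e (ng f)` is non zero: `e (ng c) ≈ xr d 1 (e c) ≈ e (ng f)`.  So `e c ≈ e f` whenever
  `ip c f = 1` (`d = f - c`); if `ip c d = -1` then `ip c (ng d) = 1`.  So all `e c`,
  `c ∈ cmp F b`, are equivalent.  For a generator `u = xr d s` of `E1` and `x ≈ e d`: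
  `u x ≈ u (e d) = e d`.  So by induction `r (e c) ≈ e b` for all `r ∈ E1`.
  The statement is in terms of a set `A` closed under `~`.
* `O1_span`: `O1 ⊆ U = {x : x.2 d = 0 for d ∉ cmp}`: `U` is mapped to itself by `xr c s`,
  `c ∈ cmp`: `e_d`, `d ∈ cmp`, goes to `U`; `L0` goes to `L0 + K e_c`.
* `O1_br`: `w, w' ∈ O1`: `ex w w' = w' + [w,w'] - fm w w' w` and `ex w ∈ E1`, so `ex w w' ∈ O1`.
* `O1_hh`: `xr c 1 (e (ng c)) = e (ng c) - h_c + e c`.
-/

namespace Pool.Agent.H33.EL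

variable {n : ℕ} {C : Matrix (Fin n) (Fin n) ℤ} {K : Type} [Field K] [Fintype (Rt C)]

/-- the component of the root `b` -/
def cmp (F : Subgroup (LL C K ≃ₗ[K] LL C K)) (b : Rt C) : Set (Rt C) :=
  {c | Relation.ReflTransGen (fun x y => x ∈ SF F ∧ y ∈ SF F ∧ ip C x.1 y.1 ≠ 0) b c}

/-- the group of a component -/
def E1 (F : Subgroup (LL C K ≃ₗ[K] LL C K)) (b : Rt C) :
    Subgroup (LL C K ≃ₗ[K] LL C K) :=
  Subgroup.closure {g | ∃ (c : Rt C) (s : K), c ∈ cmp F b ∧ g = xr c s}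

/-- the orbit of root vectors of a component -/
def O1 (F : Subgroup (LL C K ≃ₗ[K] LL C K)) (b : Rt C) : Set (LL C K) :=
  {v | ∃ r ∈ E1 F b, ∃ c ∈ cmp F b, ∃ k : K, k ≠ 0 ∧ v = k • r (e K c)}

variable (F : Subgroup (LL C K ≃ₗ[K] LL C K)) (b : Rt C)

theorem cmp_sub (hb : b ∈ SF F) : cmp F b ⊆ SF F := by
  intro c hc
  rcases Relation.ReflTransGen.cases_tail hc with h | ⟨d, _, h⟩
  · rw [h]
    exact hb
  · exact h.2.1
theorem cmp_self : b ∈ cmp F b := Relation.ReflTransGen.refl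
theorem cmp_of (H : Hyp C K) (hb : b ∈ SF F) {c d : Rt C} (hc : c ∈ cmp F b)
    (hd : d ∈ SF F) (h : ip C c.1 d.1 ≠ 0) : d ∈ cmp F b :=
  Relation.ReflTransGen.tail hc ⟨cmp_sub F b hb hc, hd, h⟩
theorem cmp_ng (H : Hyp C K) (hb : b ∈ SF F) (hsym : ∀ c ∈ SF F, ng c ∈ SF F) {c : Rt C}
    (hc : c ∈ cmp F b) : ng c ∈ cmp F b := by
  refine cmp_of F b H hb hc (hsym c (cmp_sub F b hb hc)) ?_
  rw [ng_val, ip_neg_right]
  have h2 : ip C c.1 c.1 = 2 := c.2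
  omega
theorem cmp_add (H : Hyp C K) (hb : b ∈ SF F) {c d f : Rt C} (hc : c ∈ cmp F b)
    (hd : d ∈ cmp F b) (hf : f.1 = c.1 + d.1) : f ∈ cmp F b := by
  refine cmp_of F b H hb hc (SF_closed H F hf (cmp_sub F b hb hc) (cmp_sub F b hb hd)) ?_
  have h1 : ip C c.1 d.1 = -1 := ip_of_root_add H (by rw [← hf]; exact f.2)
  have h2 : ip C c.1 c.1 = 2 := c.2
  rw [hf, ip_add_right]
  omega
/-- all components of one component are equal -/
theorem cmp_eq (H : Hyp C K) (hb : b ∈ SF F) {c : Rt C} (hc : c ∈ cmp F b) :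
    cmp F c = cmp F b := by
  haveI hs : Std.Symm (fun x y : Rt C => x ∈ SF F ∧ y ∈ SF F ∧ ip C x.1 y.1 ≠ 0) := by
    refine ⟨?_⟩
    rintro x y ⟨h1, h2, h3⟩
    refine ⟨h2, h1, ?_⟩
    rwa [ip_comm H.symm]
  have hcb := Relation.ReflTransGen.stdSymm.symm _ _ hc
  ext d
  exact ⟨fun h => Relation.ReflTransGen.trans hc h, fun h => Relation.ReflTransGen.trans hcb h⟩
theorem E1_le (H : Hyp C K) (hb : b ∈ SF F) : E1 F b ≤ F := by
  refine (Subgroup.closure_le _).2 ?_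
  rintro g ⟨c, s, hc, rfl⟩
  exact cmp_sub F b hb hc s
theorem E1_le_Fo (H : Hyp C K) (hb : b ∈ SF F) : E1 F b ≤ Fo F := by
  refine (Subgroup.closure_le _).2 ?_
  rintro g ⟨c, s, hc, rfl⟩
  exact Subgroup.subset_closure (Or.inr ⟨c, cmp_sub F b hb hc, s, rfl⟩)
theorem E1_le_GG (H : Hyp C K) : E1 F b ≤ GG C K := by
  refine (Subgroup.closure_le _).2 ?_
  rintro g ⟨c, s, hc, rfl⟩
  exact xr_mem_GG H c s
theorem CBc_xr {c : Rt C} (hc : c ∈ cmp F b) (s : K) : xr c s ∈ E1 F b :=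
  Subgroup.subset_closure ⟨c, s, hc, rfl⟩
theorem e_mem_O1 (H : Hyp C K) {c : Rt C} (hc : c ∈ cmp F b) : e K c ∈ O1 F b :=
  ⟨1, one_mem _, c, hc, 1, one_ne_zero, (one_smul K (e K c)).symm⟩
theorem O1_smul {v : LL C K} (hv : v ∈ O1 F b) {k : K} (hk : k ≠ 0) : k • v ∈ O1 F b := by
  obtain ⟨r, hr, c, hc, l, hl, rfl⟩ := hv
  exact ⟨r, hr, c, hc, k * l, mul_ne_zero hk hl, smul_smul _ _ _⟩
theorem O1_E1 {v : LL C K} (hv : v ∈ O1 F b) {r : LL C K ≃ₗ[K] LL C K} (hr : r ∈ E1 F b) :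
    r v ∈ O1 F b := by
  obtain ⟨r', hr', c, hc, l, hl, rfl⟩ := hv
  refine ⟨r * r', mul_mem hr hr', c, hc, l, hl, ?_⟩
  rw [map_smul, LinearEquiv.mul_apply]
theorem CBc_T1 (H : Hyp C K) {t : LL C K ≃ₗ[K] LL C K} (ht : t ∈ T1 C K)
    {r : LL C K ≃ₗ[K] LL C K} (hr : r ∈ E1 F b) : t * r * t⁻¹ ∈ E1 F b := by
  have h1 : E1 F b ≤ (E1 F b).comap (MulAut.conj t).toMonoidHom := by
    refine (Subgroup.closure_le _).2 ?_
    rintro g ⟨c, s, hc, rfl⟩
    show t * xr c s * t⁻¹ ∈ E1 F b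
    rw [TT_conj_xr H (T1_le_TT H ht)]
    exact CBc_xr F b hc _
  exact h1 hr
/-- `T1` acts on `O1` -/
theorem O1_T1 (H : Hyp C K) {v : LL C K} (hv : v ∈ O1 F b) {t : LL C K ≃ₗ[K] LL C K}
    (ht : t ∈ T1 C K) : t v ∈ O1 F b := by
  obtain ⟨r, hr, c, hc, l, hl, rfl⟩ := hv
  refine ⟨t * r * t⁻¹, CBc_T1 F b H ht hr, c, hc, l * (wt t c)⁻¹⁻¹,
    mul_ne_zero hl (inv_ne_zero (inv_ne_zero (wt_ne_zero H (T1_le_TT H ht) c))), ?_⟩
  have h1 : t⁻¹ (e K c) = (wt t c)⁻¹ • e K c := by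
    have h2 := TT_e H (inv_mem (T1_le_TT H ht)) c
    rwa [wt_inv H (T1_le_TT H ht)] at h2
  rw [LinearEquiv.mul_apply, LinearEquiv.mul_apply, h1, map_smul, map_smul, map_smul, smul_smul,
    inv_inv, mul_assoc, mul_inv_cancel₀ (wt_ne_zero H (T1_le_TT H ht) c), mul_one]
theorem O1_ext (H : Hyp C K) {v : LL C K} (hv : v ∈ O1 F b) :
    IsExt v ∧ v ≠ 0 ∧ ∀ s : K, ex (s • v) ∈ E1 F b := by
  obtain ⟨r, hr, c, hc, l, hl, rfl⟩ := hv
  have hG := E1_le_GG F b H hr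
  refine ⟨((isExt_e H c).map hG).smul l, ?_, fun s => ?_⟩
  · refine smul_ne_zero hl ?_
    intro h
    exact e_ne_zero c (r.map_eq_zero_iff.1 h)
  · rw [smul_smul, ← conj_xr H hG]
    exact mul_mem (mul_mem hr (CBc_xr F b hc _)) (inv_mem hr)

theorem O1_P (H : Hyp C K) {p : ℕ} [Fact p.Prime] [CharP K p] (hF : F ≤ GG C K)
    (hT : T1 C K ≤ F) (hb : b ∈ SF F) (hsym : ∀ c ∈ SF F, ng c ∈ SF F) {v w : LL C K}
    (hv : IsExt v) (hvF : ∀ s : K, ex (s • v) ∈ F) (hw : w ∈ O1 F b) (h : fm v w ≠ 0) :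
    v ∈ O1 F b := by
  obtain ⟨r, hr, c, hc, l, hl, rfl⟩ := hw
  have hG := E1_le_GG F b H hr
  have hrF := E1_le F b H hb hr
  have h1 : r (r⁻¹ v) = v := r.apply_symm_apply v
  have hv1 : IsExt (r⁻¹ v) := hv.map (inv_mem hG)
  have hvF1 : ∀ s : K, ex (s • r⁻¹ v) ∈ F := by
    intro s
    have h2 := conj_ex H (hv.smul s) (inv_mem hG)
    rw [map_smul] at h2
    rw [← h2]
    exact mul_mem (mul_mem (inv_mem hrF) (hvF s)) (inv_mem (inv_mem hrF))
  have hne : (r⁻¹ v).2 (ng c) ≠ 0 := by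
    intro h0
    apply h
    rw [map_smul, ← h1, hG.2, fm_e_right, h0, neg_zero, smul_zero]
  obtain ⟨h3, r', hr', k, hk, h4⟩ := PP H F hF hT (cmp_sub F b hb hc) hv1 hvF1 hne
  have h5 : r' ∈ E1 F b := by
    refine (Subgroup.closure_le (E1 F b)).2 ?_ hr'
    rintro g ⟨d, s, hd, hdc, rfl⟩
    refine CBc_xr F b (cmp_of F b H hb hc hd ?_) s
    rw [ip_comm H.symm]
    omega
  refine ⟨r * r', mul_mem hr h5, ng c, cmp_ng F b H hb hsym hc, k, hk, ?_⟩
  rw [LinearEquiv.mul_apply, ← map_smul, ← h4, h1]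

/-- the relation `fm x y ≠ 0` on `O1` -/
def CBcR (x y : LL C K) : Prop := x ∈ O1 F b ∧ y ∈ O1 F b ∧ fm x y ≠ 0

/-- the equivalence relation generated by it -/
def CBcE (x y : LL C K) : Prop := Relation.ReflTransGen (CBcR F b) x y

theorem CBcE_symm (H : Hyp C K) {x y : LL C K} (h : CBcE F b x y) : CBcE F b y x := by
  haveI hs : Std.Symm (CBcR F b) := by
    refine ⟨?_⟩
    rintro x y ⟨h1, h2, h3⟩
    exact ⟨h2, h1, by rwa [fm_comm H]⟩
  exact Relation.ReflTransGen.stdSymm.symm _ _ h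

theorem CBcE_trans {x y z : LL C K} (h : CBcE F b x y) (h' : CBcE F b y z) : CBcE F b x z :=
  Relation.ReflTransGen.trans h h'

theorem CBcE_map (H : Hyp C K) {x y : LL C K} (h : CBcE F b x y) {r : LL C K ≃ₗ[K] LL C K}
    (hr : r ∈ E1 F b) : CBcE F b (r x) (r y) := by
  refine Relation.ReflTransGen.lift (fun z => r z) ?_ _ _ h
  rintro x y ⟨h1, h2, h3⟩
  refine ⟨O1_E1 F b h1 hr, O1_E1 F b h2 hr, ?_⟩
  rwa [(E1_le_GG F b H hr).2]

theorem CBc_fm (c : Rt C) : fm (e K c) (e K (ng c)) = -1 := by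
  rw [fm_e_left, e_snd_self]

theorem CBcE_smul (H : Hyp C K) (hb : b ∈ SF F) (hsym : ∀ c ∈ SF F, ng c ∈ SF F) {c : Rt C}
    (hc : c ∈ cmp F b) {r : LL C K ≃ₗ[K] LL C K} (hr : r ∈ E1 F b) {k : K} (hk : k ≠ 0) :
    CBcE F b (k • r (e K c)) (r (e K c)) := by
  have h1 : r (e K c) ∈ O1 F b := O1_E1 F b (e_mem_O1 F b H hc) hr
  have h2 : r (e K (ng c)) ∈ O1 F b :=
    O1_E1 F b (e_mem_O1 F b H (cmp_ng F b H hb hsym hc)) hr
  have h3 : fm (r (e K c)) (r (e K (ng c))) = -1 := by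
    rw [(E1_le_GG F b H hr).2, CBc_fm]
  have h4 : CBcE F b (k • r (e K c)) (r (e K (ng c))) := by
    refine Relation.ReflTransGen.single ⟨O1_smul F b h1 hk, h2, ?_⟩
    rw [map_smul, LinearMap.smul_apply, h3, smul_eq_mul]
    exact mul_ne_zero hk (neg_ne_zero.2 one_ne_zero)
  have h5 : CBcE F b (r (e K c)) (r (e K (ng c))) := by
    refine Relation.ReflTransGen.single ⟨h1, h2, ?_⟩
    rw [h3]
    exact neg_ne_zero.2 one_ne_zero
  exact CBcE_trans F b h4 (CBcE_symm F b H h5)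

theorem CBcE_ng (H : Hyp C K) (hb : b ∈ SF F) (hsym : ∀ c ∈ SF F, ng c ∈ SF F) {c : Rt C}
    (hc : c ∈ cmp F b) : CBcE F b (e K c) (e K (ng c)) := by
  refine Relation.ReflTransGen.single ⟨e_mem_O1 F b H hc,
    e_mem_O1 F b H (cmp_ng F b H hb hsym hc), ?_⟩
  rw [CBc_fm]
  exact neg_ne_zero.2 one_ne_zero

theorem CBcE_add (H : Hyp C K) (hb : b ∈ SF F) (hsym : ∀ c ∈ SF F, ng c ∈ SF F)
    {c d f : Rt C} (hc : c ∈ cmp F b) (hd : d ∈ cmp F b) (hf : f.1 = c.1 + d.1) :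
    CBcE F b (e K c) (e K f) := by
  have hfm : f ∈ cmp F b := cmp_add F b H hb hc hd hf
  have hne : c ≠ f := by
    intro h
    have h1 : d.1 = 0 := by
      rw [← h] at hf
      exact left_eq_add.1 hf
    have h2 := d.2
    rw [h1, ip_zero_left] at h2
    exact absurd h2 (by norm_num)
  have hu := xr_e_add H d (1 : K) (b := c) (c := f) (by rw [hf, add_comm])
  have huO : xr d (1 : K) (e K c) ∈ O1 F b :=
    O1_E1 F b (e_mem_O1 F b H hc) (CBc_xr F b hd 1)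
  rw [one_mul] at hu
  have h1 : CBcE F b (xr d (1 : K) (e K c)) (e K (ng c)) := by
    refine Relation.ReflTransGen.single ⟨huO, e_mem_O1 F b H (cmp_ng F b H hb hsym hc), ?_⟩
    rw [fm_e_right, ng_ng, hu, Prod.snd_add, Pi.add_apply, Prod.smul_snd, Pi.smul_apply,
      e_snd_self, e_snd_ne hne, smul_zero, add_zero]
    exact neg_ne_zero.2 one_ne_zero
  have h2 : CBcE F b (xr d (1 : K) (e K c)) (e K (ng f)) := by
    refine Relation.ReflTransGen.single ⟨huO, e_mem_O1 F b H (cmp_ng F b H hb hsym hfm), ?_⟩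
    rw [fm_e_right, ng_ng, hu, Prod.snd_add, Pi.add_apply, Prod.smul_snd, Pi.smul_apply,
      e_snd_self, e_snd_ne hne.symm, smul_eq_mul, mul_one, zero_add]
    exact neg_ne_zero.2 (ek_ne_zero _ _)
  exact CBcE_trans F b (CBcE_trans F b (CBcE_trans F b (CBcE_ng F b H hb hsym hc)
    (CBcE_symm F b H h1)) h2) (CBcE_symm F b H (CBcE_ng F b H hb hsym hfm))

theorem CBcE_one (H : Hyp C K) (hb : b ∈ SF F) (hsym : ∀ c ∈ SF F, ng c ∈ SF F)
    {c f : Rt C} (hc : c ∈ cmp F b) (hf : f ∈ cmp F b) (h : ip C c.1 f.1 = 1) :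
    CBcE F b (e K c) (e K f) := by
  have h1 : ip C (f.1 - c.1) (f.1 - c.1) = 2 := root_sub H (by rwa [ip_comm H.symm])
  have h2 : (⟨f.1 - c.1, h1⟩ : Rt C) ∈ cmp F b := by
    refine cmp_add F b H hb hf (cmp_ng F b H hb hsym hc) ?_
    rw [ng_val]
    exact sub_eq_add_neg _ _
  exact CBcE_add F b H hb hsym hc h2 (by
    show f.1 = c.1 + (f.1 - c.1)
    abel)

theorem CBcE_adj (H : Hyp C K) (hb : b ∈ SF F) (hsym : ∀ c ∈ SF F, ng c ∈ SF F)
    {c f : Rt C} (hc : c ∈ cmp F b) (hf : f ∈ cmp F b) (h : ip C c.1 f.1 ≠ 0) :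
    CBcE F b (e K c) (e K f) := by
  rcases ip_cases H c f with h1 | h1 | h1 | h1 | h1
  · rw [h1]
    exact CBcE_ng F b H hb hsym hc
  · refine CBcE_trans F b (CBcE_one F b H hb hsym hc (cmp_ng F b H hb hsym hf) ?_)
      (CBcE_symm F b H (CBcE_ng F b H hb hsym hf))
    rw [ng_val, ip_neg_right, h1]
    norm_num
  · exact absurd h1 h
  · exact CBcE_one F b H hb hsym hc hf h1
  · rw [h1]
    exact Relation.ReflTransGen.refl

theorem CBcE_cmp (H : Hyp C K) (hb : b ∈ SF F) (hsym : ∀ c ∈ SF F, ng c ∈ SF F)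
    {c : Rt C} (hc : c ∈ cmp F b) : CBcE F b (e K b) (e K c) := by
  induction hc with
  | refl => exact Relation.ReflTransGen.refl
  | tail h1 h2 ih =>
    exact CBcE_trans F b ih (CBcE_adj F b H hb hsym h1 (Relation.ReflTransGen.tail h1 h2) h2.2.2)

theorem CBcE_E1 (H : Hyp C K) (hb : b ∈ SF F) (hsym : ∀ c ∈ SF F, ng c ∈ SF F)
    {r : LL C K ≃ₗ[K] LL C K} (hr : r ∈ E1 F b) : CBcE F b (r (e K b)) (e K b) := by
  refine Subgroup.closure_induction (p := fun r _ => CBcE F b (r (e K b)) (e K b))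
    ?_ ?_ ?_ ?_ hr
  · rintro g ⟨c, s, hc, rfl⟩
    have h1 := CBcE_map F b H (CBcE_cmp F b H hb hsym hc) (CBc_xr F b hc s)
    have h2 : xr c s (e K c) = e K c := xr_e_nonneg H c s (by
      have h3 : ip C c.1 c.1 = 2 := c.2
      omega)
    rw [h2] at h1
    exact CBcE_trans F b h1 (CBcE_symm F b H (CBcE_cmp F b H hb hsym hc))
  · exact Relation.ReflTransGen.refl
  · intro x y hx hy h1 h2
    exact CBcE_trans F b (CBcE_map F b H h2 hx) h1
  · intro x hx h1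
    have h2 := CBcE_map F b H h1 (inv_mem hx)
    have h3 : x⁻¹ (x (e K b)) = e K b := x.symm_apply_apply _
    rw [h3] at h2
    exact CBcE_symm F b H h2

theorem CBcE_all (H : Hyp C K) (hb : b ∈ SF F) (hsym : ∀ c ∈ SF F, ng c ∈ SF F)
    {w : LL C K} (hw : w ∈ O1 F b) : CBcE F b w (e K b) := by
  obtain ⟨r, hr, c, hc, l, hl, rfl⟩ := hw
  exact CBcE_trans F b (CBcE_smul F b H hb hsym hc hr hl) (CBcE_trans F b
    (CBcE_map F b H (CBcE_symm F b H (CBcE_cmp F b H hb hsym hc)) hr)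
    (CBcE_E1 F b H hb hsym hr))

theorem O1_conn (H : Hyp C K) (hb : b ∈ SF F) (hsym : ∀ c ∈ SF F, ng c ∈ SF F)
    (A : Set (LL C K)) (hA : ∀ v ∈ A, ∀ w ∈ O1 F b, fm v w ≠ 0 → w ∈ A) {v : LL C K}
    (hv : v ∈ A) (hv' : v ∈ O1 F b) : ∀ w ∈ O1 F b, w ∈ A := by
  intro w hw
  have h1 : CBcE F b v w := CBcE_trans F b (CBcE_all F b H hb hsym hv')
    (CBcE_symm F b H (CBcE_all F b H hb hsym hw))
  clear hw
  induction h1 with
  | refl => exact hv
  | tail h2 h3 ih => exact hA _ ih _ h3.2.1 h3.2.2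

/-- the vectors supported on `cmp F b` and the zero weight space -/
def CBcU : Submodule K (LL C K) where
  carrier := {x | ∀ d : Rt C, d ∉ cmp F b → x.2 d = 0}
  add_mem' := by
    intro x y hx hy d hd
    rw [Prod.snd_add, Pi.add_apply, hx d hd, hy d hd, add_zero]
  zero_mem' := fun _ _ => rfl
  smul_mem' := by
    intro c x hx d hd
    rw [Prod.smul_snd, Pi.smul_apply, hx d hd, smul_zero]

theorem CBcU_xr (H : Hyp C K) (hb : b ∈ SF F) {c : Rt C} (hc : c ∈ cmp F b) (s : K)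
    {x : LL C K} (hx : x ∈ CBcU F b) : xr c s x ∈ CBcU F b := by
  intro r hr
  have hrc : r ≠ c := by
    intro h
    rw [h] at hr
    exact hr hc
  by_cases h1 : ip C r.1 c.1 = 1
  · have h2 : ip C (r.1 - c.1) (r.1 - c.1) = 2 := root_sub H h1
    rw [xr_snd_one H c s x r ⟨r.1 - c.1, h2⟩ rfl, hx r hr, zero_add]
    have h3 : (⟨r.1 - c.1, h2⟩ : Rt C) ∉ cmp F b := by
      intro h4
      apply hr
      refine cmp_add F b H hb hc h4 ?_
      show r.1 = c.1 + (r.1 - c.1)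
      abel
    rw [hx _ h3, mul_zero]
  · rw [xr_snd_other H c s x r h1 hrc]
    exact hx r hr

theorem CBcU_E1 (H : Hyp C K) (hb : b ∈ SF F) {r : LL C K ≃ₗ[K] LL C K} (hr : r ∈ E1 F b) :
    ∀ x : LL C K, x ∈ CBcU F b ↔ r x ∈ CBcU F b := by
  refine Subgroup.closure_induction
    (p := fun r _ => ∀ x : LL C K, x ∈ CBcU F b ↔ r x ∈ CBcU F b) ?_ ?_ ?_ ?_ hr
  · rintro g ⟨c, s, hc, rfl⟩ x
    refine ⟨fun h => CBcU_xr F b H hb hc s h, fun h => ?_⟩
    have h1 := CBcU_xr F b H hb hc (-s) h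
    rw [xr_neg H] at h1
    have h2 : (xr c s)⁻¹ (xr c s x) = x := (xr c s).symm_apply_apply _
    rwa [h2] at h1
  · exact fun x => Iff.rfl
  · intro x y _ _ h1 h2 z
    rw [LinearEquiv.mul_apply, ← h1, ← h2]
  · intro g _ h1 x
    have h2 : g (g⁻¹ x) = x := g.apply_symm_apply x
    rw [h1 (g⁻¹ x), h2]

theorem O1_span (H : Hyp C K) (hb : b ∈ SF F) (hsym : ∀ c ∈ SF F, ng c ∈ SF F) {v : LL C K}
    (hv : v ∈ Submodule.span K (O1 F b)) {d : Rt C} (hd : d ∉ cmp F b) : v.2 d = 0 := by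
  have h1 : Submodule.span K (O1 F b) ≤ CBcU F b := by
    rw [Submodule.span_le]
    rintro w ⟨r, hr, c, hc, l, hl, rfl⟩
    refine Submodule.smul_mem _ _ ((CBcU_E1 F b H hb hr _).1 ?_)
    intro d hd
    apply e_snd_ne
    intro h
    rw [h] at hd
    exact hd hc
  exact h1 hv d hd

theorem O1_br (H : Hyp C K) {v w : LL C K} (hv : v ∈ O1 F b) (hw : w ∈ O1 F b) :
    br v w ∈ Submodule.span K (O1 F b) := by
  obtain ⟨h1, _, h2⟩ := O1_ext F b H hv
  have h3 := h2 1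
  rw [one_smul] at h3
  have h4 : ex v w ∈ O1 F b := O1_E1 F b hw h3
  have h5 : br v w = ex v w - w + fm v w • v := by
    rw [ex_apply' H h1]
    abel
  rw [h5]
  exact add_mem (sub_mem (Submodule.subset_span h4) (Submodule.subset_span hw))
    (Submodule.smul_mem _ _ (Submodule.subset_span hv))

theorem O1_hh (H : Hyp C K) (hb : b ∈ SF F) (hsym : ∀ c ∈ SF F, ng c ∈ SF F) {c : Rt C}
    (hc : c ∈ cmp F b) : hh C (zk c.1) ∈ Submodule.span K (O1 F b) := by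
  have h1 := xr_e_ng H c (1 : K)
  have h2 : e K (ng c) ∈ O1 F b := e_mem_O1 F b H (cmp_ng F b H hb hsym hc)
  have h3 : (hh C (zk c.1) : LL C K) = e K (ng c) + e K c - xr c (1 : K) (e K (ng c)) := by
    rw [h1, one_smul, one_pow, one_smul]
    abel
  rw [h3]
  exact sub_mem (add_mem (Submodule.subset_span h2)
    (Submodule.subset_span (e_mem_O1 F b H hc)))
    (Submodule.subset_span (O1_E1 F b h2 (CBc_xr F b hc 1)))

end Pool.Agent.H33.EL
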