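import Pool.Agent.H33.EL.CBc

/-!
# EL-36: two components are equal or commute

`F`, `G' = cj g F = g⁻¹ F g`, both contain `T1`; `b ∈ SF F`, `b' ∈ SF G'`.

Suppose first that `fm v (g w) ≠ 0` for some `v ∈ O1 F b`, `w ∈ O1 G' b'`.
`g w` is extremal, `ex (s • g w) = g (ex (s • w)) g⁻¹ ∈ F`, so `g w ∈ O1 F b` by `O1_P`.  Let
`A = {w' : g w' ∈ O1 F b}`: for `w' ∈ A`, `w'' ∈ O1 G' b'` with `fm w' w'' ≠ 0`:
`fm (g w'') (g w') ≠ 0` so `g w'' ∈ O1 F b` (`O1_P`).  By `O1_conn` for `G'`: `g w'' ∈ O1 F b` for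
all `w'' ∈ O1 G' b'`.  Symmetrically (`g⁻¹`, with `F = cj g⁻¹ G'`):
`A' = {v : g⁻¹ v ∈ O1 G' b'}`: contains `g w`; for `v' ∈ A'`, `v'' ∈ O1 F b`, `fm v' v'' ≠ 0`:
`g⁻¹ v''` is extremal, `ex (s • g⁻¹ v'') = g⁻¹ ex (s • v'') g ∈ G'`, `fm (g⁻¹ v'') (g⁻¹ v') ≠ 0`, so
`g⁻¹ v'' ∈ O1 G' b'`.  So all `v'' ∈ O1 F b` are in `A'`.  This is the first alternative.

Otherwise `fm v (g w) = 0` for all.  Let `v = k • r (e c) ∈ O1 F b`, `u = r⁻¹ (g w)`; `u` is
extremal, `ex (s • u) ∈ F`, and `fm u v' = 0` for all `v' ∈ O1 F b` (`O1_E1`), so for all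
`v'` in the span of `O1 F b`.  To show: `z = br u (e c)` is zero.
`ex u (s • e c) = s • (e c + z)` (`ex_apply'`), so `y = e c + z` is extremal and
`ex (s • y) = ex u (xr c s) (ex u)⁻¹ ∈ F`.
`fm z (e (ng c)) = fm (br u (e c)) (e (ng c)) = ± fm u (br (e c) (e (ng c))) = ± fm u (hh c) = 0`
(`fm_inv`, `O1_hh`), so `fm y (e (ng c)) = -1 ≠ 0` and `y ∈ O1 F b` by `O1_P`.  So `z` is in the
span of `O1 F b`; `z.2 d = 0` for `d ∉ cmp F b` (`O1_span`); for `d ∈ cmp F b`: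
`z.2 d = - fm z (e (ng d)) = ± fm u (br (e c) (e (ng d))) = 0` (`O1_br`).  So `z = hh h`.
Since `y = e c + hh h` is extremal: take `x = hh h'` in the definition:
`[y,[y,hh h']] = -(h',c) [y, e c] = -(h',c)(h,c) e c`, and this is `-2 (h,h') (e c + hh h)`; the
toral part: `(h,h') h = 0` for all `h'`, so `h = 0` (`fk_nondeg`).
-/

namespace Pool.Agent.H33.EL

variable {n : ℕ} {C : Matrix (Fin n) (Fin n) ℤ} {K : Type} [Field K] [Fintype (Rt C)]

omit [Fintype (Rt C)] in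
theorem CBd_mem_cj {F : Subgroup (LL C K ≃ₗ[K] LL C K)} {g u : LL C K ≃ₗ[K] LL C K} :
    u ∈ cj g F ↔ g * u * g⁻¹ ∈ F := Iff.rfl

omit [Fintype (Rt C)] in
theorem CBd_inv_apply (g : LL C K ≃ₗ[K] LL C K) (x : LL C K) : g (g⁻¹ x) = x :=
  g.apply_symm_apply x

omit [Fintype (Rt C)] in
theorem CBd_inv_apply' (g : LL C K ≃ₗ[K] LL C K) (x : LL C K) : g⁻¹ (g x) = x :=
  g.symm_apply_apply x

theorem CBd_ex (H : Hyp C K) {v : LL C K} (hv : IsExt v) {g : LL C K ≃ₗ[K] LL C K}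
    (hg : g ∈ GG C K) (s : K) : g * ex (s • v) * g⁻¹ = ex (s • g v) := by
  rw [conj_ex H (hv.smul s) hg, map_smul]

theorem CBd_cj_le {F : Subgroup (LL C K ≃ₗ[K] LL C K)} (hF : F ≤ GG C K)
    {g : LL C K ≃ₗ[K] LL C K} (hg : g ∈ GG C K) : cj g F ≤ GG C K := by
  intro u hu
  have h1 : g * u * g⁻¹ ∈ GG C K := hF (CBd_mem_cj.1 hu)
  have h2 : u = g⁻¹ * (g * u * g⁻¹) * g := by group
  rw [h2]
  exact mul_mem (mul_mem (inv_mem hg) h1) hg

/-- the form vanishes on the span -/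
theorem CBd_span {A : Set (LL C K)} {u : LL C K} (h : ∀ v ∈ A, fm u v = 0) {x : LL C K}
    (hx : x ∈ Submodule.span K A) : fm u x = 0 := by
  have h1 : Submodule.span K A ≤ LinearMap.ker (fm u) := by
    rw [Submodule.span_le]
    intro v hv
    exact LinearMap.mem_ker.2 (h v hv)
  exact LinearMap.mem_ker.1 (h1 hx)

/-- moving the bracket -/
theorem CBd_fm (H : Hyp C K) (u x y : LL C K) : fm (br u x) y = fm u (br x y) := by
  rw [br_skew H u x, map_neg, LinearMap.neg_apply, fm_inv H, neg_neg]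

/-- `e c + h` is extremal only for `h = 0` -/
theorem CBd_hh (H : Hyp C K) {c : Rt C} {h : Fin n → K} (hy : IsExt (e K c + hh C h)) :
    h = 0 := by
  by_contra hne
  apply hne
  apply fk_nondeg H
  intro a
  have h1 := hy (hh C (zk a.1))
  have h2 : br (e K c + hh C h) (hh C (zk a.1 : Fin n → K)) =
      -(fk C (zk a.1 : Fin n → K) (zk c.1)) • e K c := by
    rw [map_add, LinearMap.add_apply, br_e_hh, br_hh_hh, add_zero]
  rw [h2, map_smul, map_add, LinearMap.add_apply, br_self H, br_hh_e, zero_add] at h1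
  have h3 := congrArg Prod.fst h1
  simp only [Prod.smul_fst, e_fst, Prod.fst_add, hh_fst, smul_zero, zero_add] at h3
  have h4 := h3.symm
  rw [smul_eq_zero] at h4
  rcases h4 with h4 | h4
  · rw [fm_hh_right] at h4
    simp only [Prod.fst_add, e_fst, hh_fst, zero_add] at h4
    rcases mul_eq_zero.1 h4 with h5 | h5
    · exact absurd (neg_eq_zero.1 h5) (two_ne H)
    · exact h5
  · exact absurd h4 hne

/-- the second alternative: an extremal `u` orthogonal to the component commutes with it -/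
theorem CBd_zero (H : Hyp C K) {p : ℕ} [Fact p.Prime] [CharP K p]
    (F : Subgroup (LL C K ≃ₗ[K] LL C K)) (hF : F ≤ GG C K) (hT : T1 C K ≤ F)
    (hsym : ∀ c ∈ SF F, ng c ∈ SF F) {b : Rt C} (hb : b ∈ SF F) {u : LL C K} (hu : IsExt u)
    (huF : ∀ s : K, ex (s • u) ∈ F) (hfm : ∀ v ∈ O1 F b, fm u v = 0) {c : Rt C}
    (hc : c ∈ cmp F b) : br u (e K c) = 0 := by
  have hcS : c ∈ SF F := cmp_sub F b hb hc
  have hec : e K c ∈ O1 F b := e_mem_O1 F b H hc
  have hspan : ∀ x ∈ Submodule.span K (O1 F b), fm u x = 0 := fun x hx => CBd_span hfm hx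
  have huG : ex u ∈ GG C K := ex_mem_GG H hu
  have huF1 : ex u ∈ F := by
    have := huF 1
    rwa [one_smul] at this
  have hy1 : ex u (e K c) = e K c + br u (e K c) := by
    rw [ex_apply' H hu, hfm _ hec, zero_smul, sub_zero]
  have hyE : IsExt (e K c + br u (e K c)) := by
    rw [← hy1]
    exact (isExt_e H c).map huG
  have hyF : ∀ s : K, ex (s • (e K c + br u (e K c))) ∈ F := by
    intro s
    rw [← hy1, ← CBd_ex H (isExt_e H c) huG]
    exact mul_mem (mul_mem huF1 (hcS s)) (inv_mem huF1)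
  have hngc : ng c ∈ cmp F b := cmp_ng F b H hb hsym hc
  have hz1 : fm (br u (e K c)) (e K (ng c)) = 0 := by
    rw [CBd_fm H, br_e_ng H, map_neg, hspan _ (O1_hh F b H hb hsym hc), neg_zero]
  have hy2 : fm (e K c + br u (e K c)) (e K (ng c)) ≠ 0 := by
    rw [map_add, LinearMap.add_apply, hz1, add_zero, fm_e_left, e_snd_self]
    exact neg_ne_zero.2 one_ne_zero
  have hyO : e K c + br u (e K c) ∈ O1 F b :=
    O1_P F b H hF hT hb hsym hyE hyF (e_mem_O1 F b H hngc) hy2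
  have hzs : br u (e K c) ∈ Submodule.span K (O1 F b) := by
    have h1 : br u (e K c) = (e K c + br u (e K c)) - e K c := by abel
    rw [h1]
    exact Submodule.sub_mem _ (Submodule.subset_span hyO) (Submodule.subset_span hec)
  have hz2 : ∀ d : Rt C, (br u (e K c)).2 d = 0 := by
    intro d
    by_cases hd : d ∈ cmp F b
    · have hngd : ng d ∈ cmp F b := cmp_ng F b H hb hsym hd
      have h1 : fm (br u (e K c)) (e K (ng d)) = 0 := by
        rw [CBd_fm H]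
        exact hspan _ (O1_br F b H hec (e_mem_O1 F b H hngd))
      rw [fm_e_right, ng_ng] at h1
      exact neg_eq_zero.1 h1
    · exact O1_span F b H hb hsym hzs hd
  have hz3 : br u (e K c) = hh C (br u (e K c)).1 :=
    eq_hh_of_mem ((mem_L0 _).2 (funext hz2))
  rw [hz3] at hyE
  have h4 := CBd_hh H hyE
  rw [hz3, h4, hh_zero]

theorem dich (H : Hyp C K) {p : ℕ} [Fact p.Prime] [CharP K p]
    (F : Subgroup (LL C K ≃ₗ[K] LL C K)) (hF : F ≤ GG C K) (hT : T1 C K ≤ F)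
    {g : LL C K ≃ₗ[K] LL C K} (hg : g ∈ GG C K) (hgT : T1 C K ≤ cj g F)
    (hsym : ∀ c ∈ SF F, ng c ∈ SF F) (hsym' : ∀ c ∈ SF (cj g F), ng c ∈ SF (cj g F))
    {b b' : Rt C} (hb : b ∈ SF F) (hb' : b' ∈ SF (cj g F)) :
    (∀ v : LL C K, g v ∈ O1 F b ↔ v ∈ O1 (cj g F) b') ∨
      ∀ v ∈ O1 F b, ∀ w ∈ O1 (cj g F) b', br v (g w) = 0 ∧ fm v (g w) = 0 := by
  have hGG : cj g F ≤ GG C K := CBd_cj_le hF hg
  have hgi : g⁻¹ ∈ GG C K := inv_mem hg
  -- images of the elements of the second component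
  have hA : ∀ w ∈ O1 (cj g F) b', IsExt (g w) ∧ ∀ s : K, ex (s • g w) ∈ F := by
    intro w hw
    obtain ⟨h1, -, h3⟩ := O1_ext (cj g F) b' H hw
    refine ⟨h1.map hg, fun s => ?_⟩
    rw [← CBd_ex H h1 hg]
    exact CBd_mem_cj.1 (E1_le (cj g F) b' H hb' (h3 s))
  have hB : ∀ v ∈ O1 F b, IsExt (g⁻¹ v) ∧ ∀ s : K, ex (s • g⁻¹ v) ∈ cj g F := by
    intro v hv
    obtain ⟨h1, -, h3⟩ := O1_ext F b H hv
    refine ⟨h1.map hgi, fun s => ?_⟩
    rw [CBd_mem_cj, CBd_ex H (h1.map hgi) hg, CBd_inv_apply]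
    exact E1_le F b H hb (h3 s)
  by_cases hcase : ∃ v ∈ O1 F b, ∃ w ∈ O1 (cj g F) b', fm v (g w) ≠ 0
  · left
    obtain ⟨v0, hv0, w0, hw0, h0⟩ := hcase
    have hgw0 : g w0 ∈ O1 F b :=
      O1_P F b H hF hT hb hsym (hA w0 hw0).1 (hA w0 hw0).2 hv0 (by rwa [fm_comm H])
    have h1 : ∀ w ∈ O1 (cj g F) b', w ∈ {w' : LL C K | g w' ∈ O1 F b} := by
      refine O1_conn (cj g F) b' H hb' hsym' _ ?_ (v := w0) hgw0 hw0
      intro w' hw' w'' hw'' hne
      refine O1_P F b H hF hT hb hsym (hA w'' hw'').1 (hA w'' hw'').2 hw' ?_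
      rw [hg.2, fm_comm H]
      exact hne
    have h2 : ∀ v ∈ O1 F b, v ∈ {v' : LL C K | g⁻¹ v' ∈ O1 (cj g F) b'} := by
      refine O1_conn F b H hb hsym _ ?_ (v := g w0) ?_ hgw0
      · intro v' hv' v'' hv'' hne
        refine O1_P (cj g F) b' H hGG hgT hb' hsym' (hB v'' hv'').1 (hB v'' hv'').2 hv' ?_
        rw [hgi.2, fm_comm H]
        exact hne
      · show g⁻¹ (g w0) ∈ O1 (cj g F) b'
        rw [CBd_inv_apply']
        exact hw0
    intro v
    constructor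
    · intro hv
      have h3 : g⁻¹ (g v) ∈ O1 (cj g F) b' := h2 _ hv
      rwa [CBd_inv_apply'] at h3
    · intro hv
      exact h1 v hv
  · right
    push Not at hcase
    intro v hv w hw
    refine ⟨?_, hcase v hv w hw⟩
    obtain ⟨r, hr, c, hc, k, hk, rfl⟩ := hv
    have hrG : r ∈ GG C K := E1_le_GG F b H hr
    have hrF : r ∈ F := E1_le F b H hb hr
    have hri : r⁻¹ ∈ GG C K := inv_mem hrG
    obtain ⟨hw1, hw2⟩ := hA w hw
    have hz : br (r⁻¹ (g w)) (e K c) = 0 := by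
      refine CBd_zero H F hF hT hsym hb (hw1.map hri) ?_ ?_ hc
      · intro s
        rw [← CBd_ex H hw1 hri, inv_inv]
        exact mul_mem (mul_mem (inv_mem hrF) (hw2 s)) hrF
      · intro v' hv'
        have h1 : fm (r⁻¹ (g w)) v' = fm (g w) (r v') := by
          rw [← hrG.2, CBd_inv_apply]
        rw [h1, fm_comm H]
        exact hcase _ (O1_E1 F b hv' hr) w hw
    have h2 : br (r (e K c)) (g w) = r (br (e K c) (r⁻¹ (g w))) := by
      rw [hrG.1, CBd_inv_apply]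
    rw [map_smul, LinearMap.smul_apply, h2, br_skew H, hz, neg_zero, map_zero, smul_zero]

end Pool.Agent.H33.EL
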