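import Pool.Agent.H33.EL.CBc
import Pool.Agent.H33.EL.HdX

/-!
# EL-37: Case B, equal components

`g (e b')` is in `O1 F b`: `g (e b') = k • r (e c)`, `r ∈ E1 F b`, `c ∈ cmp F b`.
`g1 = r⁻¹ g`, `g1 (e b') = k • e c`.  `v = g1 (e (ng b'))`: extremal,
`ex (s • v) = g1 (xr (ng b') s) g1⁻¹ ∈ F` (`xr (ng b') s ∈ cj g F` by `hsym'`), and
`fm (g1 e_b') v = -1` so `v.2 (ng c) ≠ 0`.  `PP` with `b := c`: `v = k' • r' (e (ng c))`, `r'` in the
group generated by `xr d s`, `d ∈ SF F`, `1 ≤ ip d c`; so `r' ∈ Fo F`, `r' (e c) = e c`.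
`g2 = r'⁻¹ g1`: `g2 (e b') = k • e c`, `g2 (e (ng b')) = k' • e (ng c)`, `k k' = 1` (form).
By `xr_conj`: `g2 (xr b' s) g2⁻¹ = xr c (k s)`, `g2 (xr (ng b') s) g2⁻¹ = xr (ng c) (k' s)`, so with
`w_c(x) = xr c x * xr (ng c) x⁻¹ * xr c x`: `g2 (hd b' z) g2⁻¹ = w_c(k z) w_c(k)⁻¹ =
hd c (k z) (hd c k)⁻¹ = hd c z` (`hd_eq`).
Let `z` be a generator of `K^*`, `F1 = F ⊓ centralizer {hd c z}`.  `T1 ≤ F1` (`TT_comm`);
`xr c 1 ∈ F` is not in `F1` (`z² ≠ 1`), so `|F1| < |F|`; `g2 T1 g2⁻¹ ≤ F1`: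
`g2 t g2⁻¹ = (r r')⁻¹ (g t g⁻¹) (r r') ∈ F` commutes with `g2 (hd b' z) g2⁻¹`.
`Dst F1`: `c1 ∈ Fo F1 ≤ Fo F` with `c1⁻¹ g2 ∈ NN`.  `r r' c1 ∈ Fo F`,
`(r r' c1)⁻¹ g = c1⁻¹ g2`.
-/

namespace Pool.Agent.H33.EL

variable {n : ℕ} {C : Matrix (Fin n) (Fin n) ℤ} {K : Type} [Field K] [Fintype (Rt C)]

theorem hd_mul_unit (y : Fin n → ℤ) (c d : Kˣ) :
    (hd C y (c * d) : LL C K ≃ₗ[K] LL C K) = hd C y c * hd C y d := by
  refine LinearEquiv.ext fun u => ?_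
  refine Prod.ext rfl (funext fun b => ?_)
  change (((c * d) ^ (ip C y b.1) : Kˣ) : K) * u.2 b =
    ((c ^ (ip C y b.1) : Kˣ) : K) * (((d ^ (ip C y b.1) : Kˣ) : K) * u.2 b)
  rw [mul_zpow, Units.val_mul, mul_assoc]

theorem cbe_mem_cj {F : Subgroup (LL C K ≃ₗ[K] LL C K)} {g x : LL C K ≃ₗ[K] LL C K} :
    x ∈ cj g F ↔ g * x * g⁻¹ ∈ F := Iff.rfl

/-- conjugation of `h_b(z)` by an automorphism which maps the root lines of `b`, `-b` to those of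
`c`, `-c` -/
theorem cbe_conj_hd (H : Hyp C K) {g : LL C K ≃ₗ[K] LL C K} (hg : g ∈ GG C K) {b c : Rt C}
    (κ : Kˣ) (h1 : g (e K b) = (κ : K) • e K c)
    (h2 : g (e K (ng b)) = ((κ⁻¹ : Kˣ) : K) • e K (ng c)) (z : Kˣ) :
    g * hd C b.1 z * g⁻¹ = hd C c.1 z := by
  have hw : ∀ x : Kˣ, g * (xr b (x : K) * xr (ng b) ((x⁻¹ : Kˣ) : K) * xr b (x : K)) * g⁻¹ =
      xr c ((κ * x : Kˣ) : K) * xr (ng c) (((κ * x)⁻¹ : Kˣ) : K) * xr c ((κ * x : Kˣ) : K) := by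
    intro x
    have e1 := xr_conj H hg h1 (x : K)
    have e2 := xr_conj H hg h2 ((x⁻¹ : Kˣ) : K)
    have e3 : g * (xr b (x : K) * xr (ng b) ((x⁻¹ : Kˣ) : K) * xr b (x : K)) * g⁻¹ =
        (g * xr b (x : K) * g⁻¹) * (g * xr (ng b) ((x⁻¹ : Kˣ) : K) * g⁻¹) *
          (g * xr b (x : K) * g⁻¹) := by group
    rw [e3, e1, e2, ← Units.val_mul, ← Units.val_mul, mul_inv]
  have h3 := hw z
  have h4 := hw 1
  rw [inv_one, Units.val_one, mul_one] at h4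
  have h5 : g * hd C b.1 z * g⁻¹ =
      (g * (xr b (z : K) * xr (ng b) ((z⁻¹ : Kˣ) : K) * xr b (z : K)) * g⁻¹) *
      (g * (xr b (1 : K) * xr (ng b) (1 : K) * xr b (1 : K)) * g⁻¹)⁻¹ := by
    rw [hd_eq H b z]
    group
  have h6 := hd_eq H c (κ * z)
  have h7 := hd_eq H c κ
  have h8 : hd C c.1 (κ * z) = hd C c.1 z * (hd C c.1 κ : LL C K ≃ₗ[K] LL C K) := by
    rw [mul_comm, hd_mul_unit]
  have h9 : (hd C c.1 z : LL C K ≃ₗ[K] LL C K) = hd C c.1 (κ * z) * (hd C c.1 κ)⁻¹ := by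
    rw [h8, mul_inv_cancel_right]
  rw [h5, h3, h4, h9, h6, h7]
  group

theorem cbe_finite_K (H : Hyp C K) : Finite K := by
  apply Nat.finite_of_card_ne_zero
  rcases H.card with h | h | h <;> omega

theorem cbe_gen (H : Hyp C K) : ∃ z : Kˣ, z ^ 2 ≠ 1 := by
  haveI := cbe_finite_K H
  haveI : Fintype K := Fintype.ofFinite K
  obtain ⟨z, hz⟩ := IsCyclic.exists_generator (α := Kˣ)
  refine ⟨z, fun h => ?_⟩
  have h1 : orderOf z = Nat.card Kˣ := orderOf_eq_card_of_forall_mem_zpowers hz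
  have h2 : orderOf z ≤ 2 := Nat.le_of_dvd (by norm_num) (orderOf_dvd_of_pow_eq_one h)
  have h3 : Nat.card K = Nat.card Kˣ + 1 := by
    rw [Nat.card_units]
    have : 0 < Nat.card K := Nat.card_pos
    omega
  rcases H.card with h4 | h4 | h4 <;> omega

theorem caseB1 (H : Hyp C K) {p : ℕ} [Fact p.Prime] [CharP K p]
    (F : Subgroup (LL C K ≃ₗ[K] LL C K)) (hF : F ≤ GG C K) (hT : T1 C K ≤ F)
    {g : LL C K ≃ₗ[K] LL C K} (hg : g ∈ GG C K) (hgT : T1 C K ≤ cj g F)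
    (hsym : ∀ c ∈ SF F, ng c ∈ SF F) (hsym' : ∀ c ∈ SF (cj g F), ng c ∈ SF (cj g F))
    {b b' : Rt C} (hb : b ∈ SF F) (hb' : b' ∈ SF (cj g F))
    (heq : ∀ v : LL C K, g v ∈ O1 F b ↔ v ∈ O1 (cj g F) b')
    (IH : ∀ F' : Subgroup (LL C K ≃ₗ[K] LL C K), F' ≤ GG C K → T1 C K ≤ F' →
      Nat.card F' < Nat.card F → Dst F') : ∃ c ∈ Fo F, c⁻¹ * g ∈ NN C K := by
  have h0 : g (e K b') ∈ O1 F b := (heq _).2 (e_mem_O1 _ _ H (cmp_self _ _))
  obtain ⟨r, hr, c, hc, k, hk, hge⟩ := h0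
  have hrF : r ∈ F := E1_le F b H hb hr
  have hrFo : r ∈ Fo F := E1_le_Fo F b H hb hr
  have hrG : r ∈ GG C K := hF hrF
  have hg1 : r⁻¹ * g ∈ GG C K := mul_mem (inv_mem hrG) hg
  have hge1 : (r⁻¹ * g) (e K b') = k • e K c := by
    rw [LinearEquiv.mul_apply, hge, map_smul, nor_apply_inv]
  set v : LL C K := (r⁻¹ * g) (e K (ng b')) with hvdef
  have hv : IsExt v := (isExt_e H (ng b')).map hg1
  have hvF : ∀ s : K, ex (s • v) ∈ F := by
    intro s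
    rw [hvdef, ← conj_xr H hg1]
    have h1 : g * xr (ng b') s * g⁻¹ ∈ F := cbe_mem_cj.1 (hsym' b' hb' s)
    have h2 : r⁻¹ * g * xr (ng b') s * (r⁻¹ * g)⁻¹ = r⁻¹ * (g * xr (ng b') s * g⁻¹) * r := by
      group
    rw [h2]
    exact mul_mem (mul_mem (inv_mem hrF) h1) hrF
  have hfm0 : fm (e K b') (e K (ng b')) = (-1 : K) := by
    rw [fm_e_left, e_snd_self]
  have hfm1 : k * v.2 (ng c) = 1 := by
    have h1 := hg1.2 (e K b') (e K (ng b'))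
    rw [hge1, hfm0, map_smul, LinearMap.smul_apply, fm_e_left, smul_eq_mul] at h1
    linear_combination -h1
  have hne : v.2 (ng c) ≠ 0 := right_ne_zero_of_mul_eq_one hfm1
  have hcS : c ∈ SF F := cmp_sub F b hb hc
  obtain ⟨-, r', hr', k', hk', hvk⟩ := PP H F hF hT hcS hv hvF hne
  have hr'Fo : r' ∈ Fo F := by
    refine (Subgroup.closure_le _).2 ?_ hr'
    rintro x ⟨d, s, hd, -, rfl⟩
    exact Subgroup.subset_closure (Or.inr ⟨d, hd, s, rfl⟩)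
  have hr'F : r' ∈ F := by
    refine (Subgroup.closure_le _).2 ?_ hr'
    rintro x ⟨d, s, hd, -, rfl⟩
    exact hd s
  have hr'c : r' (e K c) = e K c := by
    refine Subgroup.closure_induction (p := fun x _ => x (e K c) = e K c) ?_ ?_ ?_ ?_ hr'
    · rintro x ⟨d, s, -, hd, rfl⟩
      exact xr_e_nonneg H d s (by omega)
    · rfl
    · intro x y _ _ hx hy
      rw [LinearEquiv.mul_apply, hy, hx]
    · intro x _ hx
      rw [← hx, nor_apply_inv, hx]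
  have hr'c' : r'⁻¹ (e K c) = e K c := by
    conv_lhs => rw [← hr'c]
    exact nor_apply_inv r' _
  have hg2 : r'⁻¹ * (r⁻¹ * g) ∈ GG C K := mul_mem (inv_mem (hF hr'F)) hg1
  set g2 : LL C K ≃ₗ[K] LL C K := r'⁻¹ * (r⁻¹ * g) with hg2def
  have hge2 : g2 (e K b') = k • e K c := by
    rw [hg2def, LinearEquiv.mul_apply, hge1, map_smul, hr'c']
  have hge3 : g2 (e K (ng b')) = k' • e K (ng c) := by
    rw [hg2def, LinearEquiv.mul_apply, ← hvdef, hvk, map_smul, nor_apply_inv]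
  have hkk : k * k' = 1 := by
    have h1 := hg2.2 (e K b') (e K (ng b'))
    rw [hge2, hge3, hfm0, map_smul, map_smul, LinearMap.smul_apply, fm_e_left, e_snd_self,
      smul_eq_mul, smul_eq_mul] at h1
    linear_combination -h1
  set κ : Kˣ := Units.mk0 k hk with hκ
  have hκ1 : (κ : K) = k := rfl
  have hκ2 : ((κ⁻¹ : Kˣ) : K) = k' := by
    rw [Units.val_inv_eq_inv_val, hκ1]
    exact inv_eq_of_mul_eq_one_right hkk
  have hconj : ∀ z : Kˣ, g2 * hd C b'.1 z * g2⁻¹ = hd C c.1 z := fun z =>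
    cbe_conj_hd H hg2 κ (by rw [hκ1]; exact hge2) (by rw [hκ2]; exact hge3) z
  obtain ⟨z, hz⟩ := cbe_gen H
  set F1 : Subgroup (LL C K ≃ₗ[K] LL C K) := F ⊓ Subgroup.centralizer {hd C c.1 z} with hF1
  have hF1G : F1 ≤ GG C K := inf_le_left.trans hF
  have hTF1 : T1 C K ≤ F1 := by
    intro t ht
    refine Subgroup.mem_inf.2 ⟨hT ht, Subgroup.mem_centralizer_iff.2 ?_⟩
    rintro x hx
    rw [Set.mem_singleton_iff] at hx
    rw [hx]
    exact TT_comm H (hd_mem_TT H _ _) (T1_le_TT H ht)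
  haveI := finite_group H
  have hcard : Nat.card F1 < Nat.card F := by
    by_contra hcon
    push Not at hcon
    have h1 : F1 = F := Subgroup.eq_of_le_of_card_ge inf_le_left hcon
    have h2 : xr c (1 : K) ∈ F1 := by
      rw [h1]
      exact hcS 1
    have h3 := (Subgroup.mem_centralizer_iff.1 (Subgroup.mem_inf.1 h2).2) (hd C c.1 z)
      (Set.mem_singleton _)
    have h4 := TT_conj_xr H (hd_mem_TT H c.1 z) c (1 : K)
    rw [h3, mul_inv_cancel_right, wt_hd, c.2, mul_one] at h4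
    have h5 := xr_inj H c h4
    apply hz
    have h6 : ((z ^ (2 : ℤ) : Kˣ) : K) = ((1 : Kˣ) : K) := by
      rw [Units.val_one]
      exact h5.symm
    have h7 := Units.ext h6
    exact_mod_cast h7
  have hT2 : T1 C K ≤ cj g2 F1 := by
    intro t ht
    rw [cbe_mem_cj]
    refine Subgroup.mem_inf.2 ⟨?_, Subgroup.mem_centralizer_iff.2 ?_⟩
    · have h1 : g * t * g⁻¹ ∈ F := cbe_mem_cj.1 (hgT ht)
      have h2 : g2 * t * g2⁻¹ = r'⁻¹ * (r⁻¹ * (g * t * g⁻¹) * r) * r' := by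
        rw [hg2def]
        group
      rw [h2]
      exact mul_mem (mul_mem (inv_mem hr'F) (mul_mem (mul_mem (inv_mem hrF) h1) hrF)) hr'F
    · rintro x hx
      rw [Set.mem_singleton_iff] at hx
      rw [hx, ← hconj z]
      have h1 : hd C b'.1 z * t = t * hd C b'.1 z :=
        TT_comm H (hd_mem_TT H _ _) (T1_le_TT H ht)
      have h2 : g2 * hd C b'.1 z * g2⁻¹ * (g2 * t * g2⁻¹) =
          g2 * (hd C b'.1 z * t) * g2⁻¹ := by group
      have h3 : g2 * t * g2⁻¹ * (g2 * hd C b'.1 z * g2⁻¹) =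
          g2 * (t * hd C b'.1 z) * g2⁻¹ := by group
      rw [h2, h3, h1]
  obtain ⟨c1, hc1, hc1N⟩ := IH F1 hF1G hTF1 hcard g2 hg2 hT2
  have hFo : Fo F1 ≤ Fo F := by
    refine Subgroup.closure_mono ?_
    rintro x (⟨h1, h2⟩ | ⟨a, ha, s, rfl⟩)
    · exact Or.inl ⟨(Subgroup.mem_inf.1 h1).1, h2⟩
    · exact Or.inr ⟨a, fun t => (Subgroup.mem_inf.1 (ha t)).1, s, rfl⟩
  refine ⟨r * r' * c1, mul_mem (mul_mem hrFo hr'Fo) (hFo hc1), ?_⟩
  have h1 : (r * r' * c1)⁻¹ * g = c1⁻¹ * g2 := by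
    rw [hg2def]
    group
  rw [h1]
  exact hc1N

end Pool.Agent.H33.EL
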