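import Pool.Agent.H33.EL.CBc
import Pool.Agent.H33.EL.CAb

/-!
# EL-38, EL-39: Case B, commuting components (header for both; this file: EL-39)

EL-39 (`mono_rank`, this file).
EL-38 (`caseB2`, file `CBg`).  `G' = cj g F`, `A = g T1 g⁻¹` (the map of `T1`), `E1 = E1 F b`,
`D = closure {t e t⁻¹ : t ∈ A, e ∈ E1}`, `F1 = A ⊔ E1`.  `D` is normal in `F1`, `F1 = D A`,
`E1 ≤ D`.
(1) For `c ∈ SF G'` and `s`: `y = g (xr c s) g⁻¹ = ex (s • g (e c))` commutes with `E1`
(`hcomm` for `b' = c`, `e c ∈ O1 G' c`; `ex_commute`) and for `t ∈ A`, `t⁻¹ y t` is again of this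
form; so `y` commutes with `D`.
(2) `F1 = F` is impossible: take `c ∈ SF G'`; `Y = {g (xr c s) g⁻¹ : s ∈ K}` is a non trivial
`p`-subgroup of `F`, normalised by `A` and centralised by `D`, so normal in `F1 = F`, against `hO`.
(3) So `|F1| < |F|`.  `G1 = cj g F1` contains `T1`, `|G1| = |F1|`; by `IH`: `Dst G1`.  Let
`S' = SF G1 ⊆ SF G'`, `D' = cj g D` (`= g⁻¹ D g`, normal in `G1`, `G1 = D' T1`).  `G1/D'` is a
`p'`-group so all `p`-elements of `G1` are in `D'`.  So for `c ∈ S'`: `xr c s ∈ D'` and it commutes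
with `D'` (1).  `K' = closure {xr c s : c ∈ S'}` is an abelian group of exponent `p`, central in
`D'`, normalised by `TT`.
(4) Let `x = xr b 1 ∈ E1 ≤ F1` and `x' = g⁻¹ x g ∈ D' ≤ G1`.  `Dst G1` for the element `x'`:
`k ∈ Fo G1`, `k⁻¹ x' ∈ NN`.  `k = k' τ`, `k' ∈ K'`, `τ ∈ TT ⊓ G1` (`Fo G1 = K' (TT ⊓ G1)`).
`y' = k'⁻¹ x' = τ k⁻¹ x' ∈ NN`, in `G1`; `y'^p = 1` (`x'^p = 1`, `k'^p = 1`, they commute).
`y'` permutes the root lines, and `S'` (`y' (xr c s) y'⁻¹ ∈ G1`).
(5) `δ = ∑_(c ∈ S') c`.  For `c, d ∈ S'`, `ip c d ≥ 0` since `xr c s`, `xr d t` commute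
(`xr_conj_add`, `xr_ng_not_comm`), so `ip δ c ≥ 2`; `K' ≤ Rad δ`.  `y' ∈ Par δ` and `y'` preserves
the grading: `w` permutes `S'` so `ip δ (w a) = ip (w δ) (w a) = ip δ a`.  So `gr x' = gr y' = y'`.
(6) `mono_rank` (EL-39) applied to `x'`, `y'`, `v0 = g⁻¹ (e b)`: gives that `y'` fixes all root
lines: `(x' - 1)² u = g⁻¹ (x - 1)² g u` is a multiple of `v0` for all `u` since `(x-1)²` has
image `K e_b` (`(xr b 1 - 1)² = ad(e_b)²`, `xr_apply`).  So `y' ∈ TT` (`mem_TT_of`), `y' = 1`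
(`TT_order`), `x' = k' ∈ K'` is central in `D'`, so `x` is central in `D`, but `xr (ng b) 1 ∈ E1`
does not commute with `x` (`xr_ng_not_comm`).  Contradiction.
-/

namespace Pool.Agent.H33.EL

variable {n : ℕ} {C : Matrix (Fin n) (Fin n) ℤ} {K : Type} [Field K] [Fintype (Rt C)]

theorem CBf_per {α : Type} (w : α → α) {p : ℕ} (hp : p.Prime) (h2 : p ≠ 2) {a : α}
    (h : w^[p] a = a) (h4 : w^[4] a = a) : w a = a := by
  have h5 : Function.IsPeriodicPt w (Nat.gcd p 4) a := Function.IsPeriodicPt.gcd h h4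
  have h6 : Nat.gcd p 4 = 1 := by
    have h7 : Nat.Coprime p (2 ^ 2) :=
      Nat.Coprime.pow_right 2 ((Nat.coprime_primes hp Nat.prime_two).2 h2)
    exact h7
  rw [h6] at h5
  exact h5

/-- job EL-39: let `y` be in `NN`, `y^p = 1`, preserving the grading by `δ`, and let `x` be an
automorphism with `x u - y u ∈ Fil (k+1)` for `u ∈ Grd k`, such that all `(x-1)² u` are multiples
of one vector `v0`.  Then `y` fixes all root lines.

Proof.  `w` the permutation of `y` (`NN_perm`), `w^p = 1`.  Suppose `w c ≠ c`.  Then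
`c, w c, w² c` are pairwise different (`p` odd prime, `w^p c = c`).  `j = ip δ c`.
`(y-1)² e_c` is a combination of `e_c` (coefficient 1), `e_(wc)`, `e_(w²c)`, non zero, degree `j`
(all these have degree `j`).  `(x-1)² e_c = λ v0` is congruent to it modulo `Fil (j+1)`
(`x`, `y` preserve `Fil`).  So `λ ≠ 0`, `v0 ∈ Fil j`, its part of degree `j` is non zero and
supported in `{c, wc, w²c}`.  The same for `-c` (`w (-c) = -wc`): `v0 ∈ Fil (-j)`, its part of
degree `-j` is non zero with support in `{-c,-wc,-w²c}`.  If `j ≠ 0` one of `±j` is larger and then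
the part of the other degree is zero, contradiction.  If `j = 0`: the non zero degree 0 part has
support in `{c,wc,w²c} ∩ {-c,-wc,-w²c}`, which is empty: `-w^i c = w^k c` gives
`w^(2(i-k)) c = c` so `p ∣ i - k` or the orbit of `c` is trivial..., `-c = c`, impossible. -/
theorem mono_rank (H : Hyp C K) {p : ℕ} [Fact p.Prime] [CharP K p] (d : Fin n → ℤ)
    {x y : LL C K ≃ₗ[K] LL C K} (hy : y ∈ NN C K) (hyp : y ^ p = 1)
    (hgr : ∀ k : ℤ, ∀ u ∈ Grd C K d k, y u ∈ Grd C K d k)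
    (hx : ∀ k : ℤ, ∀ u ∈ Fil C K d k, x u ∈ Fil C K d k)
    (hxy : ∀ k : ℤ, ∀ u ∈ Grd C K d k, x u - y u ∈ Fil C K d (k + 1)) (v0 : LL C K)
    (h2 : ∀ u : LL C K, ∃ l : K, x (x u) - 2 • x u + u = l • v0) (a : Rt C) :
    ∃ k : K, y (e K a) = k • e K a := by
  obtain ⟨w, kk, hk, hw, -, hng, -⟩ := NN_perm H hy
  have hp : p.Prime := Fact.out
  have hp2 : p ≠ 2 := by
    rintro rfl
    exact two_ne H (by exact_mod_cast CharP.cast_eq_zero K 2)
  have hpow : ∀ (m : ℕ) (b : Rt C), ∃ c : K, (y ^ m) (e K b) = c • e K (w^[m] b) := by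
    intro m
    induction m with
    | zero => exact fun b => ⟨1, (one_smul K _).symm⟩
    | succ m ih =>
      intro b
      obtain ⟨c, hc⟩ := ih b
      refine ⟨c * kk (w^[m] b), ?_⟩
      rw [pow_succ', Function.iterate_succ_apply']
      show y ((y ^ m) (e K b)) = _
      rw [hc, map_smul, hw, smul_smul]
  have hper : ∀ b : Rt C, w^[p] b = b := by
    intro b
    obtain ⟨c, hc⟩ := hpow p b
    rw [hyp] at hc
    have h3 : (e K b).2 b = (c • e K (w^[p] b)).2 b := by
      rw [← hc]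
      rfl
    by_contra hne
    have h4 : (c • e K (w^[p] b)).2 b = c * (e K (w^[p] b)).2 b := rfl
    rw [h4, e_snd_self, e_snd_ne (Ne.symm hne), mul_zero] at h3
    exact one_ne_zero h3
  have hdeg : ∀ b : Rt C, ip C d (w b).1 = ip C d b.1 := by
    intro b
    by_contra hne
    have h3 := hgr _ _ (Fil_e_grd (K := K) d b)
    rw [hw] at h3
    have h4 : kk b * (e K (w b)).2 (w b) = 0 := h3.1 (w b) hne
    rw [e_snd_self, mul_one] at h4
    exact hk b h4
  have key : ∀ b : Rt C, w b ≠ b → w (w b) ≠ b → v0.2 b ≠ 0 ∧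
      ∀ r : Rt C, ip C d r.1 ≤ ip C d b.1 → r ≠ b → r ≠ w b → r ≠ w (w b) → v0.2 r = 0 := by
    intro b hb1 hb2
    obtain ⟨l, hl⟩ := h2 (e K b)
    have g1 := hxy _ _ (Fil_e_grd (K := K) d b)
    have g2 := hgr _ _ (Fil_e_grd (K := K) d b)
    have g3 := hxy _ _ g2
    have g4 := hx _ _ g1
    have g5 : l • v0 - (y (y (e K b)) - 2 • y (e K b) + e K b) ∈
        Fil C K d (ip C d b.1 + 1) := by
      have h3 : l • v0 - (y (y (e K b)) - 2 • y (e K b) + e K b) =
          x (x (e K b) - y (e K b)) + (x (y (e K b)) - y (y (e K b)))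
            - 2 • (x (e K b) - y (e K b)) := by
        rw [← hl, map_sub, smul_sub]
        abel
      rw [h3]
      exact sub_mem (add_mem g4 g3) (nsmul_mem g1 2)
    have g6 : ∀ r : Rt C, ip C d r.1 ≤ ip C d b.1 → l * v0.2 r =
        kk b * (kk (w b) * (e K (w (w b))).2 r) - 2 * (kk b * (e K (w b)).2 r) +
          (e K b).2 r := by
      intro r hr
      have h3 := g5.1 r (by omega)
      rw [hw, map_smul, hw] at h3
      have h4 : l * v0.2 r - (kk b * (kk (w b) * (e K (w (w b))).2 r) -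
          2 • (kk b * (e K (w b)).2 r) + (e K b).2 r) = 0 := h3
      rw [nsmul_eq_mul] at h4
      push_cast at h4
      exact sub_eq_zero.1 h4
    have g7 := g6 b le_rfl
    rw [e_snd_ne (Ne.symm hb2), e_snd_ne (Ne.symm hb1), e_snd_self] at g7
    have g8 : l * v0.2 b = 1 := by
      rw [g7]
      ring
    refine ⟨fun h3 => ?_, fun r hr h3 h4 h5 => ?_⟩
    · rw [h3, mul_zero] at g8
      exact zero_ne_one g8
    · have g9 := g6 r hr
      rw [e_snd_ne h5, e_snd_ne h4, e_snd_ne h3] at g9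
      have g10 : l * v0.2 r = 0 := by
        rw [g9]
        ring
      rcases mul_eq_zero.1 g10 with h6 | h6
      · rw [h6, zero_mul] at g8
        exact absurd g8 zero_ne_one
      · exact h6
  by_cases hwa : w a = a
  · exact ⟨kk a, by rw [hw, hwa]⟩
  exfalso
  have h4 : w (w (w (w a))) ≠ a := fun h => hwa (CBf_per w hp hp2 (hper a) h)
  have ha2 : w (w a) ≠ a := by
    intro h
    apply h4
    rw [h, h]
  have hn1 : ng a ≠ w a := by
    intro h
    apply ha2
    rw [← h, hng, ← h, ng_ng]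
  have hn2 : ng a ≠ w (w a) := by
    intro h
    apply h4
    rw [← h, hng, hng, ← h, ng_ng]
  have hn3 : w (ng a) ≠ ng a := by
    rw [hng]
    intro h
    apply hwa
    rw [← ng_ng (w a), h, ng_ng]
  have hn4 : w (w (ng a)) ≠ ng a := by
    rw [hng, hng]
    intro h
    apply ha2
    rw [← ng_ng (w (w a)), h, ng_ng]
  obtain ⟨k1, k2⟩ := key a hwa ha2
  obtain ⟨k3, k4⟩ := key (ng a) hn3 hn4
  have hj : ip C d (ng a).1 = -ip C d a.1 := by
    rw [ng_val, ip_neg_right]
  rcases le_total 0 (ip C d a.1) with hj0 | hj0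
  · exact k3 (k2 (ng a) (by omega) (ng_ne H a) hn1 hn2)
  · refine k1 (k4 a (by omega) (Ne.symm (ng_ne H a)) ?_ ?_)
    · rw [hng]
      intro h
      have h5 := congrArg ng h
      rw [ng_ng] at h5
      exact hn1 h5
    · rw [hng, hng]
      intro h
      have h5 := congrArg ng h
      rw [ng_ng] at h5
      exact hn2 h5

end Pool.Agent.H33.EL
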