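import Pool.Agent.H33.EL.LemC
import Pool.Agent.H33.EL.PG
import Pool.Agent.H33.EL.Fil

/-!
# EL-40: Proposition C, basics

Context: `F` contains `T1` and no root group, every proper subgroup of `F` containing `T1` is in
`NN`, and `F` is not.  `Z = Zc F` the centre.

* `Zc_le_TT`: `mem_TT_of_comm`.
* `c1`: if `s ∉ Z` then `F' = F ⊓ centralizer {s} ≠ F` contains `T1` (`TT_comm`) and `x T1 x⁻¹`
  (`s` and `x t x⁻¹` commute as `x⁻¹ s x ∈ TT`).  So `F' ≤ NN`, `x T1 x⁻¹ ≤ NN`, and `lemC` gives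
  `x ∈ NN`, contradiction.
* `c2`: `F' = {f ∈ F : f s f⁻¹ s⁻¹ ∈ Z}` is a subgroup (preimage of a centraliser modulo `Z`,
  direct check) containing `T1`.  If `F' = F` then for `x ∈ F`, `x ∉ NN` (exists):
  `x⁻¹ s x ∈ s Z ⊆ TT`, so `s ∈ Z` by `c1`.  So `F' ≠ F`, `F' ≤ NN`.
* `c3a`: `b = x s x⁻¹`.  `t b t⁻¹ b⁻¹ ∈ Z` iff (conjugating by `x`; `Z` is normal)
  `t' s t'⁻¹ s⁻¹ ∈ Z`, `t' = x⁻¹ t x`; so `t' ∈ NN` by `c2`.  Conversely let `t' ∈ NN`:
  `t b t⁻¹ b⁻¹ ∈ TT` since `b ∈ NN` normalises `TT`; and `x⁻¹ (t b t⁻¹ b⁻¹) x = t' s t'⁻¹ s⁻¹ ∈ TT`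
  since `t' ∈ NN`; so it is in `Z` by `c1`.
* `c3b`: otherwise `x⁻¹ T1 x ≤ NN`, `lemC` gives `x⁻¹ ∈ NN`.
* `mZ_iff`: `z x = x` for all `z ∈ Z` iff the coordinates outside `PZ F` vanish.
* `t0`: the set `F'' = {f ∈ F : f x = x for all x with coordinates in PZ F}` is normal in `F`
  (`F` preserves this space, `mZ_inv`) and contained in `TT` (it fixes `L0`).  `t ∈ F''`; for
  `x ∉ NN`, `x⁻¹ t x ∈ F'' ≤ TT`, so `t ∈ Z` by `c1`.
* `PZ_nonempty`: otherwise `F` preserves `L0` (`mZ_inv`).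
* `fp`: `F ⊓ Rad d` is a `T1`-invariant `p`-group (`T1 ≤ F`, `Rad_normal`), so trivial by `pg` since
  `SF F` is empty.  For `f ∈ F`, `h = hd d c`: `gr (f h f⁻¹ h⁻¹) = 1` (`gr_comm_hd`, `gr_TT`), so
  `f h f⁻¹ h⁻¹ = 1`.
* `w1`: suppose `t² b t⁻² b⁻¹ ∈ Z` for all `t ∈ T1`.  Let `w` be the permutation of `b`
  (`NN_perm`), `b (e c) = k e (w c)`.  For `a ∈ PZ F` there is `c` with `w c = a`, and the weight
  of `t² b t⁻² b⁻¹` at `a` is `wt t a ^ 2 * (wt t c ^ 2)⁻¹` (`wt_conj`); it is 1, so `a = c`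
  by `no_sign`.  So `w a = a` for `a ∈ PZ F` and then `t b t⁻¹ b⁻¹` has weight 1 at all
  `a ∈ PZ F` for all `t ∈ T1`; so it is in `Z` by `t0`; by `c3a` `x⁻¹ t x ∈ NN` for all `t ∈ T1`,
  contradiction to `c3b`.
-/

namespace Pool.Agent.H33.EL

variable {n : ℕ} {C : Matrix (Fin n) (Fin n) ℤ} {K : Type} [Field K] [Fintype (Rt C)]

/-- the context of Proposition C -/
structure Ctx (F : Subgroup (LL C K ≃ₗ[K] LL C K)) : Prop where
  hF : F ≤ GG C K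
  hT : T1 C K ≤ F
  hS : ∀ a : Rt C, a ∉ SF F
  hmin : ∀ F' : Subgroup (LL C K ≃ₗ[K] LL C K), F' ≤ F → T1 C K ≤ F' → F' ≠ F →
    F' ≤ NN C K
  hN : ¬ F ≤ NN C K

/-- the roots which are trivial on the centre of `F` -/
def PZ (F : Subgroup (LL C K ≃ₗ[K] LL C K)) : Set (Rt C) := {a | ∀ z ∈ Zc F, wt z a = 1}

variable {F : Subgroup (LL C K ≃ₗ[K] LL C K)}

theorem CCa_comm {z f : LL C K ≃ₗ[K] LL C K} (hz : z ∈ Zc F) (hf : f ∈ F) : f * z = z * f :=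
  (Subgroup.mem_centralizer_iff.1 hz.2) f hf

theorem CCa_mk {z : LL C K ≃ₗ[K] LL C K} (hz : z ∈ F) (h : ∀ f ∈ F, f * z = z * f) :
    z ∈ Zc F :=
  ⟨hz, Subgroup.mem_centralizer_iff.2 h⟩

theorem Zc_le_TT (H : Hyp C K) (X : Ctx F) : Zc F ≤ TT C K := by
  intro z hz
  refine mem_TT_of_comm H (X.hF hz.1) fun t ht => ?_
  exact (CCa_comm hz (X.hT ht)).symm

theorem CCa_ex (X : Ctx F) : ∃ x ∈ F, x ∉ NN C K := by
  by_contra h
  push Not at h
  exact X.hN h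

theorem c1 (H : Hyp C K) (X : Ctx F) {x s : LL C K ≃ₗ[K] LL C K} (hx : x ∈ F)
    (hxN : x ∉ NN C K) (hs : s ∈ F) (hs' : s ∈ TT C K) (h : x⁻¹ * s * x ∈ TT C K) :
    s ∈ Zc F := by
  by_contra hsZ
  apply hxN
  have hT : T1 C K ≤ F ⊓ Subgroup.centralizer {s} := by
    intro t ht
    refine Subgroup.mem_inf.2 ⟨X.hT ht, ?_⟩
    rw [Subgroup.mem_centralizer_singleton_iff]
    exact TT_comm H (T1_le_TT H ht) hs'
  have hne : F ⊓ Subgroup.centralizer {s} ≠ F := by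
    intro he
    apply hsZ
    refine CCa_mk hs fun f hf => ?_
    rw [← he] at hf
    exact Subgroup.mem_centralizer_singleton_iff.1 hf.2
  have hle := X.hmin _ inf_le_left hT hne
  refine lemC H (X.hF hx) fun t ht => hle (Subgroup.mem_inf.2 ⟨?_, ?_⟩)
  · exact mul_mem (mul_mem hx (X.hT ht)) (inv_mem hx)
  · rw [Subgroup.mem_centralizer_singleton_iff]
    have h1 := TT_comm H (T1_le_TT H ht) h
    have h2 : x * (t * (x⁻¹ * s * x)) * x⁻¹ = x * (x⁻¹ * s * x * t) * x⁻¹ := by rw [h1]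
    simpa [mul_assoc] using h2

theorem c2 (H : Hyp C K) (X : Ctx F) {f s : LL C K ≃ₗ[K] LL C K} (hs : s ∈ F)
    (hs' : s ∈ TT C K) (hsZ : s ∉ Zc F) (hf : f ∈ F) (h : f * s * f⁻¹ * s⁻¹ ∈ Zc F) :
    f ∈ NN C K := by
  let F' : Subgroup (LL C K ≃ₗ[K] LL C K) :=
    { carrier := {g | g ∈ F ∧ ∃ z ∈ Zc F, g * s * g⁻¹ = z * s}
      one_mem' := ⟨one_mem _, 1, one_mem _, by group⟩
      mul_mem' := by
        rintro a b ⟨ha, z, hz, hz'⟩ ⟨hb, y, hy, hy'⟩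
        refine ⟨mul_mem ha hb, z * y, mul_mem hz hy, ?_⟩
        calc a * b * s * (a * b)⁻¹ = a * (b * s * b⁻¹) * a⁻¹ := by group
          _ = a * y * s * a⁻¹ := by rw [hy', ← mul_assoc a]
          _ = y * (a * s * a⁻¹) := by rw [CCa_comm hy ha]; group
          _ = y * (z * s) := by rw [hz']
          _ = z * y * s := by rw [← mul_assoc, CCa_comm hz hy.1]
      inv_mem' := by
        rintro a ⟨ha, z, hz, hz'⟩
        refine ⟨inv_mem ha, z⁻¹, inv_mem hz, ?_⟩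
        have h1 : a * s = z * s * a := by
          rw [← hz']
          group
        have h2 : a⁻¹ * (z * s * a) = s := by
          rw [← h1]
          group
        have h3 : a⁻¹ * z = z * a⁻¹ := CCa_comm hz (inv_mem ha)
        calc a⁻¹ * s * a⁻¹⁻¹ = z⁻¹ * (z * a⁻¹ * s * a) := by group
          _ = z⁻¹ * (a⁻¹ * (z * s * a)) := by rw [← h3]; group
          _ = z⁻¹ * s := by rw [h2] }
  have hT : T1 C K ≤ F' := by
    intro t ht
    refine ⟨X.hT ht, 1, one_mem _, ?_⟩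
    rw [TT_comm H (T1_le_TT H ht) hs', mul_inv_cancel_right, one_mul]
  have hne : F' ≠ F := by
    intro he
    obtain ⟨x, hx, hxN⟩ := CCa_ex X
    have hx' : x⁻¹ ∈ F' := by
      rw [he]
      exact inv_mem hx
    obtain ⟨-, z, hz, hz'⟩ := hx'
    rw [inv_inv] at hz'
    apply hsZ
    refine c1 H X hx hxN hs hs' ?_
    rw [hz']
    exact mul_mem (Zc_le_TT H X hz) hs'
  have hle := X.hmin F' (fun g hg => hg.1) hT hne
  exact hle ⟨hf, _, h, by group⟩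

theorem CCa_comm_mem (H : Hyp C K) (X : Ctx F) {b t : LL C K ≃ₗ[K] LL C K} (hbF : b ∈ F)
    (hb : b ∈ NN C K) (ht : t ∈ F) (ht' : t ∈ TT C K) :
    t * b * t⁻¹ * b⁻¹ ∈ F ∧ t * b * t⁻¹ * b⁻¹ ∈ TT C K := by
  refine ⟨mul_mem (mul_mem (mul_mem ht hbF) (inv_mem ht)) (inv_mem hbF), ?_⟩
  have h1 : t * b * t⁻¹ * b⁻¹ = t * (b * t⁻¹ * b⁻¹) := by group
  rw [h1]
  exact mul_mem ht' (NN_conj_TT H hb _ (inv_mem ht'))

theorem c3a (H : Hyp C K) (X : Ctx F) {x s t : LL C K ≃ₗ[K] LL C K} (hx : x ∈ F)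
    (hxN : x ∉ NN C K) (hs : s ∈ F) (hs' : s ∈ TT C K) (hsZ : s ∉ Zc F)
    (hb : x * s * x⁻¹ ∈ NN C K) (ht : t ∈ F) (ht' : t ∈ TT C K) :
    t * (x * s * x⁻¹) * t⁻¹ * (x * s * x⁻¹)⁻¹ ∈ Zc F ↔ x⁻¹ * t * x ∈ NN C K := by
  have key : x⁻¹ * (t * (x * s * x⁻¹) * t⁻¹ * (x * s * x⁻¹)⁻¹) * x =
      (x⁻¹ * t * x) * s * (x⁻¹ * t * x)⁻¹ * s⁻¹ := by group
  have ht'F : x⁻¹ * t * x ∈ F := mul_mem (mul_mem (inv_mem hx) ht) hx
  constructor
  · intro h
    refine c2 H X hs hs' hsZ ht'F ?_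
    rw [← key, CCa_comm h (inv_mem hx), inv_mul_cancel_right]
    exact h
  · intro h
    obtain ⟨h1, h2⟩ := CCa_comm_mem H X (mul_mem (mul_mem hx hs) (inv_mem hx)) hb ht ht'
    refine c1 H X hx hxN h1 h2 ?_
    rw [key]
    exact mul_mem (NN_conj_TT H h s hs') (inv_mem hs')

theorem c3b (H : Hyp C K) (X : Ctx F) {x : LL C K ≃ₗ[K] LL C K} (hx : x ∈ F)
    (hxN : x ∉ NN C K) : ∃ t ∈ T1 C K, x⁻¹ * t * x ∉ NN C K := by
  by_contra hcon
  push Not at hcon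
  apply hxN
  have h1 : x⁻¹ ∈ NN C K := by
    refine lemC H (inv_mem (X.hF hx)) fun t ht => ?_
    rw [inv_inv]
    exact hcon t ht
  exact inv_mem_iff.1 h1

theorem mZ_iff (H : Hyp C K) (X : Ctx F) (x : LL C K) :
    (∀ z ∈ Zc F, z x = x) ↔ ∀ d, d ∉ PZ F → x.2 d = 0 := by
  constructor
  · intro h d hd
    have h1 : ∃ z ∈ Zc F, wt z d ≠ 1 := by
      by_contra hcon
      push Not at hcon
      exact hd hcon
    obtain ⟨z, hz, hzd⟩ := h1
    have h2 := h z hz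
    rw [nor_coord H (Zc_le_TT H X hz)] at h2
    have h3 : wt z d * x.2 d = x.2 d := congrFun (congrArg Prod.snd h2) d
    have h4 : (wt z d - 1) * x.2 d = 0 := by
      rw [sub_mul, one_mul, h3, sub_self]
    rcases mul_eq_zero.1 h4 with h5 | h5
    · exact absurd (sub_eq_zero.1 h5) hzd
    · exact h5
  · intro h z hz
    rw [nor_coord H (Zc_le_TT H X hz)]
    refine Prod.ext rfl (funext fun b => ?_)
    show wt z b * x.2 b = x.2 b
    by_cases hb : b ∈ PZ F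
    · rw [hb z hz, one_mul]
    · rw [h b hb, mul_zero]

theorem mZ_inv (H : Hyp C K) (X : Ctx F) {f : LL C K ≃ₗ[K] LL C K} (hf : f ∈ F) {x : LL C K}
    (hx : ∀ d, d ∉ PZ F → x.2 d = 0) : ∀ d, d ∉ PZ F → (f x).2 d = 0 := by
  rw [← mZ_iff H X] at hx ⊢
  intro z hz
  have h1 : (f * z) x = (z * f) x := by rw [CCa_comm hz hf]
  rw [LinearEquiv.mul_apply, LinearEquiv.mul_apply, hx z hz] at h1
  exact h1.symm

theorem t0 (H : Hyp C K) (X : Ctx F) {t : LL C K ≃ₗ[K] LL C K} (ht : t ∈ F)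
    (ht' : t ∈ TT C K) (h : ∀ a ∈ PZ F, wt t a = 1) : t ∈ Zc F := by
  obtain ⟨x, hx, hxN⟩ := CCa_ex X
  refine c1 H X hx hxN ht ht' ⟨?_, ?_⟩
  · exact mul_mem (mul_mem (inv_mem (X.hF hx)) (X.hF ht)) (X.hF hx)
  · intro v hv
    have hv2 : v.2 = 0 := hv
    have h1 := mZ_inv H X hx (x := v) (fun d _ => by rw [hv2]; rfl)
    have h2 : t (x v) = x v := by
      rw [nor_coord H ht']
      refine Prod.ext rfl (funext fun b => ?_)
      show wt t b * (x v).2 b = (x v).2 b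
      by_cases hb : b ∈ PZ F
      · rw [h b hb, one_mul]
      · rw [h1 b hb, mul_zero]
    rw [LinearEquiv.mul_apply, LinearEquiv.mul_apply, h2, nor_apply_inv]

theorem PZ_ng (H : Hyp C K) (X : Ctx F) {a : Rt C} (ha : a ∈ PZ F) : ng a ∈ PZ F := by
  intro z hz
  rw [wt_ng H (Zc_le_TT H X hz), ha z hz, inv_one]

theorem PZ_add (H : Hyp C K) (X : Ctx F) {a b c : Rt C} (ha : a ∈ PZ F) (hb : b ∈ PZ F)
    (hc : c.1 = a.1 + b.1) : c ∈ PZ F := by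
  intro z hz
  rw [wt_add H (Zc_le_TT H X hz) hc, ha z hz, hb z hz, one_mul]

theorem PZ_nonempty (H : Hyp C K) (X : Ctx F) : ∃ a, a ∈ PZ F := by
  by_contra hcon
  push Not at hcon
  apply X.hN
  have h1 : ∀ f ∈ F, ∀ x ∈ L0 C K, f x ∈ L0 C K := by
    intro f hf x hx
    have hx2 : x.2 = 0 := hx
    have h2 := mZ_inv H X hf (x := x) (fun d _ => by rw [hx2]; rfl)
    show (f x).2 = 0
    exact funext fun d => h2 d (hcon d)
  intro f hf
  refine ⟨X.hF hf, fun x => ⟨fun h => ?_, h1 f hf x⟩⟩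
  have h3 := h1 f⁻¹ (inv_mem hf) _ h
  rwa [nor_apply_inv] at h3

theorem PZ_perm (H : Hyp C K) (X : Ctx F) {f : LL C K ≃ₗ[K] LL C K} (hf : f ∈ F) {a b : Rt C}
    {k : K} (h : f (e K a) = k • e K b) : a ∈ PZ F ↔ b ∈ PZ F := by
  have he : ∀ c : Rt C, (e K c : LL C K).2 c = 1 := fun c => e_snd_self c
  have hk : k ≠ 0 := by
    intro h0
    rw [h0, zero_smul] at h
    have h1 : e K a = (0 : LL C K) := f.injective (by rw [h, map_zero])
    have h2 := he a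
    rw [h1] at h2
    exact zero_ne_one h2
  have key : ∀ z ∈ Zc F, wt z a = wt z b := by
    intro z hz
    have hT := Zc_le_TT H X hz
    have h1 : (f * z) (e K a) = (z * f) (e K a) := by rw [CCa_comm hz hf]
    rw [LinearEquiv.mul_apply, LinearEquiv.mul_apply, TT_e H hT, map_smul, h, map_smul,
      TT_e H hT, smul_smul, smul_smul] at h1
    have h2 := congrFun (congrArg Prod.snd h1) b
    have h3 : wt z a * k * (e K b : LL C K).2 b = k * wt z b * (e K b : LL C K).2 b := h2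
    rw [he, mul_one, mul_one, mul_comm] at h3
    exact mul_left_cancel₀ hk h3
  constructor
  · intro ha z hz
    rw [← key z hz, ha z hz]
  · intro hb z hz
    rw [key z hz, hb z hz]

theorem fp (H : Hyp C K) {p : ℕ} [Fact p.Prime] [CharP K p] (X : Ctx F) (d : Fin n → ℤ)
    (hd' : F ≤ Par C K d) (c : Kˣ) : hd C d c ∈ Zc F := by
  have hh1 : hd C d c ∈ T1 C K := hd_mem_T1 H d c
  have hbot : F ⊓ Rad H d = ⊥ := by
    have h1 := pg H (p := p) (F ⊓ Rad H d) ((Rad_pgroup H d).to_le inf_le_right)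
      (inf_le_left.trans X.hF) (fun t ht u hu =>
        Subgroup.mem_inf.2 ⟨mul_mem (mul_mem (X.hT ht) hu.1) (inv_mem (X.hT ht)),
          Rad_normal H (hd' (X.hT ht)) hu.2⟩)
    rw [eq_bot_iff]
    refine h1.trans ?_
    rw [Subgroup.closure_le]
    rintro g ⟨b, hb, s, rfl⟩
    exact absurd (fun s => (hb s).1) (X.hS b)
  refine CCa_mk (X.hT hh1) fun f hf => ?_
  have hfP : f ∈ Par C K d := hd' hf
  have hhP : hd C d c ∈ Par C K d := hd' (X.hT hh1)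
  have h2 : f * hd C d c * f⁻¹ * (hd C d c)⁻¹ ∈ F ⊓ Rad H d := by
    refine Subgroup.mem_inf.2
      ⟨mul_mem (mul_mem (mul_mem hf (X.hT hh1)) (inv_mem hf)) (inv_mem (X.hT hh1)), ?_⟩
    let f' : Par C K d := ⟨f, hfP⟩
    let h' : Par C K d := ⟨hd C d c, hhP⟩
    show ((f' * h' * f'⁻¹ * h'⁻¹ : Par C K d) : LL C K ≃ₗ[K] LL C K) ∈ Rad H d
    rw [mem_Rad, map_mul, map_mul, map_mul, map_inv, map_inv]
    have h3 : gr H d h' = hd C d c := gr_TT H (hd_mem_TT H d c)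
    rw [h3, gr_comm_hd]
    group
  rw [hbot, Subgroup.mem_bot] at h2
  have h4 : f * hd C d c * f⁻¹ = hd C d c := by
    rwa [mul_inv_eq_one] at h2
  rw [mul_inv_eq_iff_eq_mul] at h4
  exact h4

/-- a subgroup of index 2: if `F' ≤ F` contains `T1`, is normal in `F` and not equal to `F` we get a
contradiction (`F' ≤ NN`, so `f T1 f⁻¹ ≤ NN` for all `f ∈ F`, `lemC`) -/
theorem no_normal (H : Hyp C K) (X : Ctx F) (F' : Subgroup (LL C K ≃ₗ[K] LL C K))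
    (h1 : F' ≤ F) (h2 : T1 C K ≤ F') (h3 : ∀ f ∈ F, ∀ u ∈ F', f * u * f⁻¹ ∈ F') : F' = F := by
  by_contra hne
  have hle := X.hmin F' h1 h2 hne
  obtain ⟨x, hx, hxN⟩ := CCa_ex X
  exact hxN (lemC H (X.hF hx) fun t ht => hle (h3 x hx t (h2 ht)))

theorem w1 (H : Hyp C K) (X : Ctx F) {x s : LL C K ≃ₗ[K] LL C K} (hx : x ∈ F)
    (hxN : x ∉ NN C K) (hs : s ∈ F) (hs' : s ∈ TT C K) (hsZ : s ∉ Zc F)
    (hb : x * s * x⁻¹ ∈ NN C K) :
    ∃ t ∈ T1 C K, (t * t) * (x * s * x⁻¹) * (t * t)⁻¹ * (x * s * x⁻¹)⁻¹ ∉ Zc F := by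
  by_contra hcon
  push Not at hcon
  obtain ⟨t, ht, htN⟩ := c3b H X hx hxN
  apply htN
  have hbF : x * s * x⁻¹ ∈ F := mul_mem (mul_mem hx hs) (inv_mem hx)
  rw [← c3a H X hx hxN hs hs' hsZ hb (X.hT ht) (T1_le_TT H ht)]
  set b := x * s * x⁻¹ with hbdef
  obtain ⟨w, k, -, hw, -, -, -⟩ := NN_perm H hb
  have key : ∀ u ∈ T1 C K, ∀ a : Rt C,
      wt (u * b * u⁻¹ * b⁻¹) a = wt u a * (wt u (w.symm a))⁻¹ := by
    intro u hu a
    have hu' := T1_le_TT H hu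
    have h1 : u * b * u⁻¹ * b⁻¹ = u * (b * u⁻¹ * b⁻¹) := by group
    have h2 : b (e K (w.symm a)) = k (w.symm a) • e K a := by
      rw [hw, Equiv.apply_symm_apply]
    rw [h1, wt_mul H hu' (NN_conj_TT H hb _ (inv_mem hu')), wt_conj H hb (inv_mem hu') h2,
      wt_inv H hu']
  obtain ⟨h1, h2⟩ := CCa_comm_mem H X hbF hb (X.hT ht) (T1_le_TT H ht)
  refine t0 H X h1 h2 fun a ha => ?_
  have hfix : w.symm a = a := by
    by_contra hne
    obtain ⟨u, hu, hu2⟩ := no_sign H (x := some a) (y := some (w.symm a)) (by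
      intro h
      exact hne (Option.some.inj h).symm)
    apply hu2
    show wt u a ^ 2 = wt u (w.symm a) ^ 2
    have h3 := ha _ (hcon u hu)
    have hu' := T1_le_TT H hu
    rw [key _ (mul_mem hu hu), wt_mul H hu' hu', wt_mul H hu' hu'] at h3
    have h4 := wt_ne_zero H hu' (w.symm a)
    rw [pow_two, pow_two]
    rwa [mul_inv_eq_one₀ (mul_ne_zero h4 h4)] at h3
  rw [key t ht, hfix, mul_inv_cancel₀ (wt_ne_zero H (T1_le_TT H ht) a)]

end Pool.Agent.H33.EL
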