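import Pool.Agent.H33.EL.CCb

/-!
# EL-42: transitivity.  Apply `thmS` to the finite group `F / Z`
(`↥F ⧸ (Zc F).subgroupOf F`), `M` the image of `F ⊓ NN`, `E` the image of `EE F` (a group:
`TT` is abelian), with `hprop`.  `M ≠ F/Z` since `Z ≤ NN` and `F ≰ NN`.
-/

namespace Pool.Agent.H33.EL

variable {n : ℕ} {C : Matrix (Fin n) (Fin n) ℤ} {K : Type} [Field K] [Fintype (Rt C)]
variable {F : Subgroup (LL C K ≃ₗ[K] LL C K)}

private theorem ccc_central {z f : LL C K ≃ₗ[K] LL C K} (hz : z ∈ Zc F) (hf : f ∈ F) :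
    f * z * f⁻¹ = z := by
  have h := (Subgroup.mem_centralizer_iff.1 (Subgroup.mem_inf.1 hz).2) f hf
  rw [h, mul_assoc, mul_inv_cancel, mul_one]

private theorem ccc_normal (F : Subgroup (LL C K ≃ₗ[K] LL C K)) :
    ((Zc F).subgroupOf F).Normal := by
  refine ⟨fun z hz f => ?_⟩
  rw [Subgroup.mem_subgroupOf] at hz ⊢
  show (f : LL C K ≃ₗ[K] LL C K) * z * (f : LL C K ≃ₗ[K] LL C K)⁻¹ ∈ Zc F
  rw [ccc_central hz f.2]
  exact hz

private theorem ccc_mem {G : Type*} [Group G] (Z A F : Subgroup G) [(Z.subgroupOf F).Normal]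
    (hZ : Z ≤ A) (x : F) :
    QuotientGroup.mk' (Z.subgroupOf F) x ∈ (A.subgroupOf F).map
      (QuotientGroup.mk' (Z.subgroupOf F)) ↔ (x : G) ∈ A := by
  constructor
  · rintro ⟨y, hy, hyx⟩
    have hy' : (y : G) ∈ A := hy
    have h1 : (y : F)⁻¹ * x ∈ Z.subgroupOf F := QuotientGroup.eq.1 hyx
    rw [Subgroup.mem_subgroupOf] at h1
    have h2 : (y : G) * ((y⁻¹ * x : F) : G) ∈ A := A.mul_mem hy' (hZ h1)
    simpa using h2
  · intro hx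
    exact ⟨x, hx, rfl⟩

/-- the group of the elements of `EE F` -/
private def cccE (H : Hyp C K) (F : Subgroup (LL C K ≃ₗ[K] LL C K)) :
    Subgroup (LL C K ≃ₗ[K] LL C K) where
  carrier := EE F
  one_mem' := ⟨one_mem _, one_mem _, by rw [mul_one]; exact one_mem _⟩
  mul_mem' := by
    rintro a b ⟨ha, ha', ha2⟩ ⟨hb, hb', hb2⟩
    refine ⟨mul_mem ha hb, mul_mem ha' hb', ?_⟩
    have h1 : a * b * (a * b) = (a * a) * (b * b) := by
      calc a * b * (a * b) = a * (b * a) * b := by group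
        _ = a * (a * b) * b := by rw [TT_comm H hb' ha']
        _ = (a * a) * (b * b) := by group
    rw [h1]
    exact mul_mem ha2 hb2
  inv_mem' := by
    rintro a ⟨ha, ha', ha2⟩
    refine ⟨inv_mem ha, inv_mem ha', ?_⟩
    have h1 : a⁻¹ * a⁻¹ = (a * a)⁻¹ := by group
    rw [h1]
    exact inv_mem ha2

theorem trans (H : Hyp C K) (X : Ctx F) (h3 : Ind3 F) {s t : LL C K ≃ₗ[K] LL C K}
    (hs : s ∈ EE F) (hsZ : s ∉ Zc F) (ht : t ∈ EE F) (htZ : t ∉ Zc F) :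
    ∃ m ∈ F, m ∈ NN C K ∧ m * s * m⁻¹ * t⁻¹ ∈ Zc F := by
  have hfin : Finite (LL C K ≃ₗ[K] LL C K) := finite_group H
  have hnorm : ((Zc F).subgroupOf F).Normal := ccc_normal F
  have hZN : Zc F ≤ NN C K := (Zc_le_TT H X).trans TT_le_NN
  have hZE : Zc F ≤ cccE H F := fun z hz =>
    ⟨(Subgroup.mem_inf.1 hz).1, Zc_le_TT H X hz, mul_mem hz hz⟩
  have key := thmS (F := ↥F ⧸ (Zc F).subgroupOf F)
    (((NN C K).subgroupOf F).map (QuotientGroup.mk' ((Zc F).subgroupOf F)))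
    (((cccE H F).subgroupOf F).map (QuotientGroup.mk' ((Zc F).subgroupOf F))) ?_ ?_ ?_ ?_ ?_
  · have hs1 : QuotientGroup.mk' ((Zc F).subgroupOf F) ⟨s, hs.1⟩ ≠ 1 := by
      intro h
      exact hsZ ((QuotientGroup.eq_one_iff (N := (Zc F).subgroupOf F) _).1 h)
    have ht1 : QuotientGroup.mk' ((Zc F).subgroupOf F) ⟨t, ht.1⟩ ≠ 1 := by
      intro h
      exact htZ ((QuotientGroup.eq_one_iff (N := (Zc F).subgroupOf F) _).1 h)
    obtain ⟨m, hm, hmst⟩ := key _ ((ccc_mem (Zc F) (cccE H F) F hZE ⟨s, hs.1⟩).2 hs) hs1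
      _ ((ccc_mem (Zc F) (cccE H F) F hZE ⟨t, ht.1⟩).2 ht) ht1
    obtain ⟨m', rfl⟩ := QuotientGroup.mk'_surjective _ m
    rw [ccc_mem (Zc F) (NN C K) F hZN] at hm
    refine ⟨m', m'.2, hm, ?_⟩
    have h1 : QuotientGroup.mk' ((Zc F).subgroupOf F)
        (m' * ⟨s, hs.1⟩ * m'⁻¹ * (⟨t, ht.1⟩ : F)⁻¹) = 1 := by
      rw [map_mul, map_mul, map_mul, map_inv, map_inv, hmst, mul_inv_cancel]
    exact (QuotientGroup.eq_one_iff (N := (Zc F).subgroupOf F) _).1 h1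
  · -- M ≠ ⊤
    intro htop
    apply X.hN
    intro x hx
    rw [← ccc_mem (Zc F) (NN C K) F hZN ⟨x, hx⟩, htop]
    exact Subgroup.mem_top _
  · -- E ≤ M
    rintro _ ⟨y, hy, rfl⟩
    have hy' : (y : LL C K ≃ₗ[K] LL C K) ∈ EE F := hy
    exact ⟨y, TT_le_NN hy'.2.1, rfl⟩
  · -- normal
    rintro _ ⟨m, hm, rfl⟩ _ ⟨y, hy, rfl⟩
    have hm' : (m : LL C K ≃ₗ[K] LL C K) ∈ NN C K := hm
    have hy' : (y : LL C K ≃ₗ[K] LL C K) ∈ EE F := hy
    rw [← map_inv, ← map_mul, ← map_mul]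
    refine ⟨m * y * m⁻¹, ?_, rfl⟩
    show (m : LL C K ≃ₗ[K] LL C K) * y * (m : LL C K ≃ₗ[K] LL C K)⁻¹ ∈ EE F
    refine ⟨mul_mem (mul_mem m.2 y.2) (inv_mem m.2), NN_conj_TT H hm' _ hy'.2.1, ?_⟩
    have h1 : (m : LL C K ≃ₗ[K] LL C K) * y * (m : LL C K ≃ₗ[K] LL C K)⁻¹ *
        ((m : LL C K ≃ₗ[K] LL C K) * y * (m : LL C K ≃ₗ[K] LL C K)⁻¹) =
        (m : LL C K ≃ₗ[K] LL C K) * (y * y) * (m : LL C K ≃ₗ[K] LL C K)⁻¹ := by group
    rw [h1, ccc_central hy'.2.2 m.2]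
    exact hy'.2.2
  · -- squares
    rintro _ ⟨y, hy, rfl⟩
    have hy' : (y : LL C K ≃ₗ[K] LL C K) ∈ EE F := hy
    rw [← map_mul]
    exact (QuotientGroup.eq_one_iff (N := (Zc F).subgroupOf F) _).2 hy'.2.2
  · -- property (H)
    rintro _ ⟨y, hy, rfl⟩ hy1 x hx
    obtain ⟨x', rfl⟩ := QuotientGroup.mk'_surjective _ x
    have hy' : (y : LL C K ≃ₗ[K] LL C K) ∈ EE F := hy
    have hyZ : (y : LL C K ≃ₗ[K] LL C K) ∉ Zc F := fun h =>
      hy1 ((QuotientGroup.eq_one_iff (N := (Zc F).subgroupOf F) _).2 h)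
    rw [← map_inv, ← map_mul, ← map_mul, ccc_mem (Zc F) (NN C K) F hZN] at hx
    rw [ccc_mem (Zc F) (NN C K) F hZN]
    exact hprop H X h3 hy' hyZ x'.2 hx

end Pool.Agent.H33.EL
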