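import Pool.Agent.H33.EL.CCc

/-!
# EL-43: every product of two characters is a root character

`prod_char`: `a, b ∈ PZ F` and `wt · a * wt · b` not trivial on `EE F`; then it is `wt · c` on
`EE F` for some `c ∈ PZ F`.

For `e ∈ EE F` and `c ∈ PZ F`: `wt e c ^ 2 = wt (e*e) c = 1`, so `wt e c = ±1`; let
`σ e c ∈ {1,-1} ⊆ ℤ` be the sign.  `σ` is multiplicative in `e`.  `EE F` is a finite group `E`
(`TT` abelian) containing `Z = Zc F`; `σ e c = 1` for `e ∈ Z`.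
For `e ∈ E`, `e ∉ Z`, the number `c0` of `c ∈ PZ F` with `σ e c = -1` does not depend on `e`: by
`trans` `m e m⁻¹ ∈ e' Z`, and `σ (m e m⁻¹) (w c) = σ e c` for the permutation `w` of `m`
(`wt_conj`), `w` permutes `PZ F` (`PZ_perm`).  `c0 > 0` by `t0`.
Let `χ e = σ e a * σ e b`, and suppose that it is different from all `σ · c`, `c ∈ PZ F`, on
`E`.  Then `∑_(e ∈ E) χ e * σ e c = 0` for all `c ∈ PZ F` (a non trivial sign character of a finite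
group sums to zero).  So `0 = ∑_e χ e ∑_(c ∈ PZ) σ e c`; the inner sum is `N = |PZ|` for `e ∈ Z`
and `N - 2 c0` otherwise, `χ = 1` on `Z`, `∑_e χ e = 0` (`χ` is not trivial):
`0 = |Z| N + (N - 2 c0)(0 - |Z|) = 2 c0 |Z| > 0`.  Contradiction.
-/

namespace Pool.Agent.H33.EL

variable {n : ℕ} {C : Matrix (Fin n) (Fin n) ℤ} {K : Type} [Field K] [Fintype (Rt C)]
variable {F : Subgroup (LL C K ≃ₗ[K] LL C K)}

/-- `EE F` as a subgroup -/
def CCd_E (H : Hyp C K) (F : Subgroup (LL C K ≃ₗ[K] LL C K)) :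
    Subgroup (LL C K ≃ₗ[K] LL C K) where
  carrier := EE F
  one_mem' := ⟨one_mem _, one_mem _, by rw [one_mul]; exact one_mem _⟩
  mul_mem' := by
    rintro s t ⟨hs1, hs2, hs3⟩ ⟨ht1, ht2, ht3⟩
    refine ⟨mul_mem hs1 ht1, mul_mem hs2 ht2, ?_⟩
    have h1 : s * t * (s * t) = s * s * (t * t) := by
      rw [mul_assoc, ← mul_assoc t s t, TT_comm H ht2 hs2, mul_assoc s t t, ← mul_assoc s s]
    rw [h1]
    exact mul_mem hs3 ht3
  inv_mem' := by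
    rintro s ⟨hs1, hs2, hs3⟩
    refine ⟨inv_mem hs1, inv_mem hs2, ?_⟩
    rw [← mul_inv_rev]
    exact inv_mem hs3

theorem CCd_mem (H : Hyp C K) {s : LL C K ≃ₗ[K] LL C K} : s ∈ CCd_E H F ↔ s ∈ EE F := Iff.rfl

theorem CCd_Z (H : Hyp C K) (X : Ctx F) {s : LL C K ≃ₗ[K] LL C K} (hs : s ∈ Zc F) :
    s ∈ EE F := ⟨hs.1, Zc_le_TT H X hs, mul_mem hs hs⟩

theorem CCd_sq (H : Hyp C K) {s : LL C K ≃ₗ[K] LL C K} (hs : s ∈ EE F) {c : Rt C}
    (hc : c ∈ PZ F) : wt s c = 1 ∨ wt s c = -1 := by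
  apply mul_self_eq_one_iff.1
  rw [← wt_mul H hs.2.1 hs.2.1]
  exact hc _ hs.2.2

open Classical in
/-- the sign character of a root -/
noncomputable def CCd_s (H : Hyp C K) (F : Subgroup (LL C K ≃ₗ[K] LL C K))
    (c : {c : Rt C // c ∈ PZ F}) : CCd_E H F →* ℤ where
  toFun s := if wt (s : LL C K ≃ₗ[K] LL C K) c.1 = 1 then 1 else -1
  map_one' := by
    rw [if_pos]
    exact wt_one _
  map_mul' := by
    intro s t
    have h2 : (-1 : K) ≠ 1 := by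
      intro h
      have := two_ne H
      apply this
      linear_combination -h
    have h1 : wt ((s * t : CCd_E H F) : LL C K ≃ₗ[K] LL C K) c.1 =
        wt (s : LL C K ≃ₗ[K] LL C K) c.1 * wt (t : LL C K ≃ₗ[K] LL C K) c.1 :=
      wt_mul H s.2.2.1 t.2.2.1 _
    rcases CCd_sq H s.2 c.2 with hs | hs <;> rcases CCd_sq H t.2 c.2 with ht | ht <;>
      rw [h1, hs, ht] <;> simp [h2]

theorem CCd_s_one (H : Hyp C K) (c : {c : Rt C // c ∈ PZ F}) (s : CCd_E H F)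
    (h : wt (s : LL C K ≃ₗ[K] LL C K) c.1 = 1) : CCd_s H F c s = 1 := if_pos h

theorem CCd_s_neg (H : Hyp C K) (c : {c : Rt C // c ∈ PZ F}) (s : CCd_E H F)
    (h : wt (s : LL C K ≃ₗ[K] LL C K) c.1 ≠ 1) : CCd_s H F c s = -1 := if_neg h

theorem CCd_s_sq (H : Hyp C K) (c : {c : Rt C // c ∈ PZ F}) (s : CCd_E H F) :
    CCd_s H F c s * CCd_s H F c s = 1 := by
  by_cases h : wt (s : LL C K ≃ₗ[K] LL C K) c.1 = 1
  · rw [CCd_s_one H c s h, one_mul]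
  · rw [CCd_s_neg H c s h]
    norm_num

theorem CCd_eq (H : Hyp C K) (a b c : {c : Rt C // c ∈ PZ F}) (s : CCd_E H F)
    (h : CCd_s H F c s = CCd_s H F a s * CCd_s H F b s) :
    wt (s : LL C K ≃ₗ[K] LL C K) c.1 =
      wt (s : LL C K ≃ₗ[K] LL C K) a.1 * wt (s : LL C K ≃ₗ[K] LL C K) b.1 := by
  have h2 : (-1 : K) ≠ 1 := by
    intro h
    have := two_ne H
    apply this
    linear_combination -h
  have key : ∀ d : {c : Rt C // c ∈ PZ F},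
      (wt (s : LL C K ≃ₗ[K] LL C K) d.1 = 1 ∧ CCd_s H F d s = 1) ∨
      (wt (s : LL C K ≃ₗ[K] LL C K) d.1 = -1 ∧ CCd_s H F d s = -1) := by
    intro d
    rcases CCd_sq H s.2 d.2 with hs | hs
    · exact Or.inl ⟨hs, CCd_s_one H d s hs⟩
    · exact Or.inr ⟨hs, CCd_s_neg H d s (by rw [hs]; exact h2)⟩
  rcases key a with ⟨ha1, ha2⟩ | ⟨ha1, ha2⟩ <;> rcases key b with ⟨hb1, hb2⟩ | ⟨hb1, hb2⟩ <;>
    rcases key c with ⟨hc1, hc2⟩ | ⟨hc1, hc2⟩ <;> rw [ha2, hb2, hc2] at h <;>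
    rw [ha1, hb1, hc1] <;> first | (norm_num at h; done) | norm_num

/-- the sum of the sign characters is constant outside the centre -/
theorem CCd_const (H : Hyp C K) (X : Ctx F) (h3 : Ind3 F)
    [Fintype {c : Rt C // c ∈ PZ F}] {s t : CCd_E H F}
    (hs : (s : LL C K ≃ₗ[K] LL C K) ∉ Zc F) (ht : (t : LL C K ≃ₗ[K] LL C K) ∉ Zc F) :
    ∑ c, CCd_s H F c s = ∑ c, CCd_s H F c t := by
  obtain ⟨m, hm, hmN, hz⟩ := trans H X h3 s.2 hs t.2 ht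
  obtain ⟨w, k, hk, hw, -, -, -⟩ := NN_perm H hmN
  have hP : ∀ c, c ∈ PZ F ↔ w c ∈ PZ F := fun c => PZ_perm H X hm (hw c)
  rw [← (w.subtypeEquiv hP).sum_comp (fun c => CCd_s H F c t)]
  refine Finset.sum_congr rfl fun c _ => ?_
  have h1 : wt (m * (s : LL C K ≃ₗ[K] LL C K) * m⁻¹) (w c.1) = wt (s : LL C K ≃ₗ[K] LL C K) c.1 :=
    wt_conj H hmN s.2.2.1 (hw c.1)
  have h4 : wt (t : LL C K ≃ₗ[K] LL C K) (w c.1) = wt (s : LL C K ≃ₗ[K] LL C K) c.1 := by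
    rw [← h1]
    have h5 : m * (s : LL C K ≃ₗ[K] LL C K) * m⁻¹ = (m * (s : LL C K ≃ₗ[K] LL C K) * m⁻¹ * (t : LL C K ≃ₗ[K] LL C K)⁻¹) *
        (t : LL C K ≃ₗ[K] LL C K) := by
      rw [inv_mul_cancel_right]
    rw [h5, wt_mul H (Zc_le_TT H X hz) t.2.2.1, (hP c.1).1 c.2 _ hz, one_mul]
  have h6 : wt (t : LL C K ≃ₗ[K] LL C K) ((w.subtypeEquiv hP) c).1 =
      wt (s : LL C K ≃ₗ[K] LL C K) c.1 := h4
  by_cases h7 : wt (s : LL C K ≃ₗ[K] LL C K) c.1 = 1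
  · rw [CCd_s_one H c s h7, CCd_s_one H _ t (h6.trans h7)]
  · rw [CCd_s_neg H c s h7, CCd_s_neg H _ t (by rw [h6]; exact h7)]

theorem prod_char (H : Hyp C K) (X : Ctx F) (h3 : Ind3 F) {a b : Rt C} (ha : a ∈ PZ F)
    (hb : b ∈ PZ F) (hab : ∃ s ∈ EE F, wt s a * wt s b ≠ 1) :
    ∃ c ∈ PZ F, ∀ s ∈ EE F, wt s c = wt s a * wt s b := by
  classical
  by_contra hcon
  push Not at hcon
  have := finite_group H
  have : Fintype (CCd_E H F) := Fintype.ofFinite _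
  have : Fintype {c : Rt C // c ∈ PZ F} := Fintype.ofFinite _
  set χ : CCd_E H F →* ℤ := CCd_s H F ⟨a, ha⟩ * CCd_s H F ⟨b, hb⟩ with hχ
  have hχv : ∀ s, χ s = CCd_s H F ⟨a, ha⟩ s * CCd_s H F ⟨b, hb⟩ s := fun s => rfl
  have hχZ : ∀ s : CCd_E H F, (s : LL C K ≃ₗ[K] LL C K) ∈ Zc F → χ s = 1 := by
    intro s hs
    rw [hχv, CCd_s_one H _ s (ha _ hs), CCd_s_one H _ s (hb _ hs), one_mul]
  obtain ⟨s0, hs0, hne⟩ := hab
  have hχ0 : χ ⟨s0, hs0⟩ ≠ 1 := by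
    intro h
    apply hne
    have h1 := hχv ⟨s0, hs0⟩
    rw [h] at h1
    rcases CCd_sq H hs0 ha with h2 | h2 <;> rcases CCd_sq H hs0 hb with h4 | h4 <;>
      rw [h2, h4]
    · norm_num
    · rw [CCd_s_one H ⟨a, ha⟩ ⟨s0, hs0⟩ h2] at h1
      by_contra h5
      rw [CCd_s_neg H ⟨b, hb⟩ ⟨s0, hs0⟩ (by rw [← h4, one_mul] at h5; exact h5)] at h1
      norm_num at h1
    · rw [CCd_s_one H ⟨b, hb⟩ ⟨s0, hs0⟩ h4] at h1
      by_contra h5
      rw [CCd_s_neg H ⟨a, ha⟩ ⟨s0, hs0⟩ (by rw [← h2, mul_one] at h5; exact h5)] at h1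
      norm_num at h1
    · norm_num
  have hs0Z : s0 ∉ Zc F := fun h => hχ0 (hχZ _ h)
  have hχ1 : ∑ s, χ s = 0 := sum_hom_units_eq_zero χ (fun h => hχ0 (by rw [h]; rfl))
  have hσ : ∀ c : {c : Rt C // c ∈ PZ F}, ∑ s, χ s * CCd_s H F c s = 0 := by
    intro c
    refine sum_hom_units_eq_zero (χ * CCd_s H F c) (fun h => ?_)
    obtain ⟨s, hs, h4⟩ := hcon c.1 c.2
    apply h4
    refine CCd_eq H ⟨a, ha⟩ ⟨b, hb⟩ c ⟨s, hs⟩ ?_
    have h5 : χ ⟨s, hs⟩ * CCd_s H F c ⟨s, hs⟩ = 1 := by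
      have := DFunLike.congr_fun h ⟨s, hs⟩
      exact this
    rw [← hχv]
    have h6 := CCd_s_sq H c ⟨s, hs⟩
    calc CCd_s H F c ⟨s, hs⟩ = (χ ⟨s, hs⟩ * CCd_s H F c ⟨s, hs⟩) * CCd_s H F c ⟨s, hs⟩ := by
          rw [h5, one_mul]
      _ = χ ⟨s, hs⟩ := by rw [mul_assoc, h6, mul_one]
  have hsum : ∑ s, χ s * ∑ c, CCd_s H F c s = 0 := by
    simp_rw [Finset.mul_sum]
    rw [Finset.sum_comm]
    exact Finset.sum_eq_zero fun c _ => hσ c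
  set M : ℤ := ∑ c, CCd_s H F c ⟨s0, hs0⟩ with hM
  have hsum2 : ∑ s, χ s * (∑ c, CCd_s H F c s - M) = 0 := by
    simp_rw [mul_sub]
    rw [Finset.sum_sub_distrib, hsum, ← Finset.sum_mul, hχ1]
    ring
  have hMlt : M < ∑ c : {c : Rt C // c ∈ PZ F}, (1 : ℤ) := by
    rw [hM]
    obtain ⟨c, hc, h4⟩ : ∃ c ∈ PZ F, wt s0 c ≠ 1 := by
      by_contra h
      push Not at h
      exact hs0Z (t0 H X hs0.1 hs0.2.1 h)
    refine Finset.sum_lt_sum (fun d _ => ?_) ⟨⟨c, hc⟩, Finset.mem_univ _, ?_⟩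
    · by_cases h5 : wt ((⟨s0, hs0⟩ : CCd_E H F) : LL C K ≃ₗ[K] LL C K) d.1 = 1
      · rw [CCd_s_one H d _ h5]
      · rw [CCd_s_neg H d _ h5]
        norm_num
    · rw [CCd_s_neg H ⟨c, hc⟩ _ h4]
      norm_num
  have hpos : 0 < ∑ s, χ s * (∑ c, CCd_s H F c s - M) := by
    have hZc : ∀ s : CCd_E H F, (s : LL C K ≃ₗ[K] LL C K) ∈ Zc F →
        0 < χ s * (∑ c, CCd_s H F c s - M) := by
      intro s hs
      rw [hχZ s hs, one_mul]
      have h5 : ∑ c, CCd_s H F c s = ∑ c : {c : Rt C // c ∈ PZ F}, (1 : ℤ) :=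
        Finset.sum_congr rfl fun c _ => CCd_s_one H c s (c.2 _ hs)
      rw [h5]
      linarith
    refine Finset.sum_pos' (fun s _ => ?_) ⟨1, Finset.mem_univ _, hZc 1 (one_mem _)⟩
    by_cases hs : (s : LL C K ≃ₗ[K] LL C K) ∈ Zc F
    · exact (hZc s hs).le
    · have h5 := CCd_const H X h3 (s := s) (t := ⟨s0, hs0⟩) hs hs0Z
      rw [h5, ← hM, sub_self, mul_zero]
  exact absurd hsum2 (ne_of_gt hpos)

end Pool.Agent.H33.EL
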