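import Pool.Agent.H33.EL.CCd

/-!
# EL-44: classification of `PZ F`

`hd_neg_mem`: `hd a.1 (-1) ∈ EE F` for every root `a` (it is in `T1 ≤ F`, its square is 1), its
weight at `c` is `(-1)^(ip a c)`.
`Q8 F`: if `wt s a * wt s b * wt s c = 1` for all `s ∈ EE F` then the norm of `a + b + c` is
divisible by 8.  Under the strong form of `r0` this holds (`q8_of_strong`): all coordinates of
`a + b + c` are even, so `a + b + c = 2 y`.
`even3`: if `wt s a * wt s b * wt s c = 1` for all `s ∈ EE F` then `ip g a + ip g b + ip g c` is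
even for all roots `g`, and by `Q8 F` the norm `6 + 2 (ip a b + ip a c + ip b c)` is divisible by 8.
Also `ip a (a+b+c) = 2 + ip a b + ip a c` is even etc., so the three products have the same
parity.  If `b ≠ ±a`, `c ≠ ±a`, `c ≠ ±b` the products are in `{-1,0,1}`; they are not all 0 since
6 is not divisible by 8; so all are odd.
`even2`: `wt s a = wt s b` for all `s ∈ EE F` implies `b = ±a`: `a - b ∈ 2 ℤ^n`, norm
`4 - 2 ip a b` divisible by 8.  A single `wt · a` is not trivial: `a ∈ 2ℤ^n`, norm 2.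
`no_ind3`: suppose `Ind3 F`.  There are three roots `a1, a2, a3 ∈ PZ F` whose characters on
`EE F` are independent (no product of some of them trivial): otherwise
all characters `wt · a`, `a ∈ PZ F` lie in a group of order `≤ 4` of characters, and their common
kernel in `EE F`, which is `Z` by `t0`, has index `≤ 4`, against `Ind3`.  By `prod_char`:
`wt a4 = wt a1 * wt a2` on `EE F`, `a4 ∈ PZ F`.  `even3` for `a1,a2,a4`: so
`ip a1 a3 + ip a2 a3 + ip a4 a3` is even.  By `prod_char` and `even3` any two roots in `PZ F` with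
different characters have odd product: (`a1`,`a3`: `wt a1 * wt a3` is non trivial, so it is
`wt a5`, and `ip a1 a3` is odd).  The characters of `a1,a3`; `a2,a3`; `a4,a3` are different, so
the sum of three odd numbers is even, contradiction.
`classify`: `a ∈ PZ F` exists.  If `PZ F = {±a}`: first case.  Let `b ∈ PZ F`, `b ≠ ±a`.  For any
`c ∈ PZ F` different from `±a, ±b` the product `wt a * wt b * wt c` is trivial on `EE F`, otherwise
the characters of `a, b, c` are independent (`even2`) and then `EE F → {±1}³` is onto and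
`Ind3 F` holds (choose preimages of the unit vectors; a product of some of
them has a non trivial weight at `a`, `b` or `c`, so is not in `Z`).  So by `even3` all products of
`a, b, c` are odd.  Case `ip a b = 0`: then no such `c`: `PZ F = {±a, ±b}`.  Case
`ip a b = ±1`: replace `b` by `ng b` to get `ip a b = -1`, `d = a + b ∈ PZ F`; if `c` is a root
in `PZ F` different from `±a, ±b` then `a + b + c ∈ 2ℤ^n`, i.e. `d + c ∈ 2ℤ^n`, norm
`4 + 2 ip d c` divisible by 8: `c = ±d`.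
-/

namespace Pool.Agent.H33.EL

variable {n : ℕ} {C : Matrix (Fin n) (Fin n) ℤ} {K : Type} [Field K] [Fintype (Rt C)]
variable {F : Subgroup (LL C K ≃ₗ[K] LL C K)}

theorem CCe_neg_pow (H : Hyp C K) (k : ℤ) : (((-1 : Kˣ) ^ k : Kˣ) : K) = 1 ↔ Even k := by
  constructor
  · intro h
    by_contra ho
    rw [Int.not_even_iff_odd] at ho
    rw [ho.neg_one_zpow, Units.val_neg, Units.val_one] at h
    exact two_ne H (by linear_combination -h)
  · intro h
    rw [h.neg_one_zpow, Units.val_one]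

theorem hd_neg_mem (H : Hyp C K) (X : Ctx F) (a : Rt C) : hd C a.1 (-1) ∈ EE F := by
  have h1 : hd C a.1 (-1) ∈ T1 C K := hd_mem_T1 H _ _
  have h2 := T1_le_TT H h1
  refine ⟨X.hT h1, h2, ?_⟩
  have h3 : (hd C a.1 (-1) : LL C K ≃ₗ[K] LL C K) * hd C a.1 (-1) = 1 := by
    refine TT_ext H (mul_mem h2 h2) (one_mem _) fun b => ?_
    rw [wt_mul H h2 h2, wt_hd, wt_one, ← Units.val_mul, ← mul_zpow]
    simp
  rw [h3]
  exact one_mem _

theorem CCe_mul (H : Hyp C K) {s t : LL C K ≃ₗ[K] LL C K} (hs : s ∈ EE F) (ht : t ∈ EE F) :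
    s * t ∈ EE F := by
  refine ⟨mul_mem hs.1 ht.1, mul_mem hs.2.1 ht.2.1, ?_⟩
  have h1 : s * t * (s * t) = (s * s) * (t * t) := by
    calc s * t * (s * t) = s * (t * s) * t := by group
      _ = s * (s * t) * t := by rw [TT_comm H ht.2.1 hs.2.1]
      _ = (s * s) * (t * t) := by group
  rw [h1]
  exact mul_mem hs.2.2 ht.2.2

theorem CCe_wt_mul (H : Hyp C K) {s t : LL C K ≃ₗ[K] LL C K} (hs : s ∈ EE F) (ht : t ∈ EE F)
    (a : Rt C) : wt (s * t) a = wt s a * wt t a := wt_mul H hs.2.1 ht.2.1 a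

theorem CCe_sq (H : Hyp C K) {s : LL C K ≃ₗ[K] LL C K} (hs : s ∈ EE F) {a : Rt C}
    (ha : a ∈ PZ F) : wt s a * wt s a = 1 := by
  rw [← wt_mul H hs.2.1 hs.2.1]
  exact ha _ hs.2.2

theorem CCe_pm (H : Hyp C K) {s : LL C K ≃ₗ[K] LL C K} (hs : s ∈ EE F) {a : Rt C}
    (ha : a ∈ PZ F) : wt s a = 1 ∨ wt s a = -1 := mul_self_eq_one_iff.1 (CCe_sq H hs ha)

theorem CCe_ne (H : Hyp C K) : (-1 : K) ≠ 1 := by
  intro h
  exact two_ne H (by linear_combination -h)

theorem CCe_ng (H : Hyp C K) {s : LL C K ≃ₗ[K] LL C K} (hs : s ∈ EE F) {a : Rt C}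
    (ha : a ∈ PZ F) : wt s (ng a) = wt s a := by
  rw [wt_ng H hs.2.1]
  exact inv_eq_of_mul_eq_one_left (CCe_sq H hs ha)

theorem CCe_par (H : Hyp C K) (y : Fin n → ℤ) (h : ∀ g : Rt C, Even (ip C y g.1)) :
    ∀ i, Even (∑ j, C i j * y j) := by
  intro i
  obtain ⟨s, hs⟩ : ∃ s : Rt C, s.1 = Pi.single i 1 := ⟨⟨Pi.single i 1, ip_simple H i⟩, rfl⟩
  have h2 := h s
  rw [ip_comm H.symm, hs, ip_single_left] at h2
  exact h2

theorem CCe_norm_of_even (H : Hyp C K) (y : Fin n → ℤ) (h : ∀ i, Even (y i)) :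
    ∃ k : ℤ, ip C y y = 8 * k := by
  choose z hz using h
  have hz' : y = z + z := funext hz
  obtain ⟨k, hk⟩ := even_norm H z
  refine ⟨k, ?_⟩
  rw [hz', ip_add_left, ip_add_right, hk]
  ring

theorem CCe_norm (H : Hyp C K) (y : Fin n → ℤ) (h : ∀ g : Rt C, Even (ip C y g.1)) :
    (∃ k : ℤ, ip C y y = 8 * k) ∨ ip C y y % 8 = 6 := by
  rcases H.r0 y (CCe_par H y h) with h1 | h1
  · exact Or.inl (CCe_norm_of_even H y h1)
  · exact Or.inr h1

/-- relations between three characters of `EE F` come from vectors of norm divisible by 8 -/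
def Q8 (F : Subgroup (LL C K ≃ₗ[K] LL C K)) : Prop :=
  ∀ a b c : Rt C, (∀ s ∈ EE F, wt s a * wt s b * wt s c = 1) →
    ∃ k : ℤ, ip C (a.1 + b.1 + c.1) (a.1 + b.1 + c.1) = 8 * k

theorem CCe_key3 (H : Hyp C K) (X : Ctx F) {a b c : Rt C}
    (h : ∀ s ∈ EE F, wt s a * wt s b * wt s c = 1) (g : Rt C) :
    Even (ip C a.1 g.1 + ip C b.1 g.1 + ip C c.1 g.1) := by
  have h1 := h _ (hd_neg_mem H X g)
  rw [wt_hd, wt_hd, wt_hd, ← Units.val_mul, ← Units.val_mul, ← zpow_add, ← zpow_add,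
    CCe_neg_pow H] at h1
  rw [ip_comm H.symm a.1 g.1, ip_comm H.symm b.1 g.1, ip_comm H.symm c.1 g.1]
  exact h1

/-- odd determinant -/
theorem q8_of_strong (H : Hyp C K) (X : Ctx F)
    (hr : ∀ y : Fin n → ℤ, (∀ i, Even (∑ j, C i j * y j)) → ∀ i, Even (y i)) : Q8 F := by
  intro a b c h
  refine CCe_norm_of_even H _ (hr _ (CCe_par H _ fun g => ?_))
  rw [ip_add_left, ip_add_left]
  exact CCe_key3 H X h g

theorem even3 (H : Hyp C K) (X : Ctx F) (hq : Q8 F) {a b c : Rt C} (hab : b ≠ a) (hab' : b ≠ ng a)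
    (hac : c ≠ a) (hac' : c ≠ ng a) (hbc : c ≠ b) (hbc' : c ≠ ng b)
    (h : ∀ s ∈ EE F, wt s a * wt s b * wt s c = 1) :
    (∀ g : Rt C, Even (ip C a.1 g.1 + ip C b.1 g.1 + ip C c.1 g.1)) ∧
      Odd (ip C a.1 b.1) ∧ Odd (ip C a.1 c.1) ∧ Odd (ip C b.1 c.1) := by
  have key : ∀ g : Rt C, Even (ip C a.1 g.1 + ip C b.1 g.1 + ip C c.1 g.1) := CCe_key3 H X h
  refine ⟨key, ?_⟩
  have ha2 : ip C a.1 a.1 = 2 := a.2
  have hb2 : ip C b.1 b.1 = 2 := b.2
  have hc2 : ip C c.1 c.1 = 2 := c.2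
  obtain ⟨k, hk⟩ := hq a b c h
  have hn : ip C (a.1 + b.1 + c.1) (a.1 + b.1 + c.1) =
      6 + 2 * (ip C a.1 b.1 + ip C a.1 c.1 + ip C b.1 c.1) := by
    rw [ip_add_left, ip_add_left, ip_add_right, ip_add_right, ip_add_right, ip_add_right,
      ip_add_right, ip_add_right, ip_comm H.symm b.1 a.1, ip_comm H.symm c.1 a.1,
      ip_comm H.symm c.1 b.1, ha2, hb2, hc2]
    ring
  have k1 := key a
  have k2 := key b
  rw [ip_comm H.symm b.1 a.1, ip_comm H.symm c.1 a.1, ha2] at k1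
  rw [ip_comm H.symm c.1 b.1, hb2] at k2
  rw [hn] at hk
  rw [Int.even_iff] at k1 k2
  rw [Int.odd_iff, Int.odd_iff, Int.odd_iff]
  rcases ip_cases H a b with h1 | h1 | h1 | h1 | h1
  · exact absurd h1 hab'
  · omega
  · rcases ip_cases H a c with h2 | h2 | h2 | h2 | h2
    · exact absurd h2 hac'
    · omega
    · rcases ip_cases H b c with h3 | h3 | h3 | h3 | h3
      · exact absurd h3 hbc'
      · omega
      · omega
      · omega
      · exact absurd h3 hbc
    · omega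
    · exact absurd h2 hac
  · omega
  · exact absurd h1 hab

theorem even2 (H : Hyp C K) (X : Ctx F) {a b : Rt C} (h : ∀ s ∈ EE F, wt s a = wt s b) :
    b = a ∨ b = ng a := by
  have key : ∀ g : Rt C, Even (ip C (a.1 + b.1) g.1) := by
    intro g
    have h1 := h _ (hd_neg_mem H X g)
    have h2 : (((-1 : Kˣ) ^ (ip C g.1 a.1 + ip C g.1 b.1) : Kˣ) : K) = 1 := by
      rw [wt_hd, wt_hd] at h1
      rw [zpow_add, Units.val_mul, h1, ← Units.val_mul, ← mul_zpow]
      simp
    rw [CCe_neg_pow H] at h2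
    rw [ip_add_left, ip_comm H.symm a.1 g.1, ip_comm H.symm b.1 g.1]
    exact h2
  have k1 := key a
  rw [ip_add_left, show ip C a.1 a.1 = 2 from a.2, ip_comm H.symm b.1 a.1, Int.even_iff] at k1
  have hk : ip C (a.1 + b.1) (a.1 + b.1) % 8 = 0 ∨ ip C (a.1 + b.1) (a.1 + b.1) % 8 = 6 := by
    rcases CCe_norm H (a.1 + b.1) key with ⟨k, hk⟩ | hk
    · left
      omega
    · exact Or.inr hk
  rw [Ip_norm_add H] at hk
  rcases ip_cases H a b with h1 | h1 | h1 | h1 | h1
  · exact Or.inr h1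
  · omega
  · omega
  · omega
  · exact Or.inl h1

theorem even1 (H : Hyp C K) (X : Ctx F) (a : Rt C) : ∃ s ∈ EE F, wt s a ≠ 1 := by
  obtain ⟨y, hy⟩ := exists_one H a
  refine ⟨_, hd_neg_mem H X y, ?_⟩
  rw [wt_hd]
  intro h
  rw [CCe_neg_pow H, hy] at h
  exact absurd h (by decide)

/-- two roots with different characters have odd product -/
theorem CCe_odd (H : Hyp C K) (X : Ctx F) (hq : Q8 F) (h3 : Ind3 F) {a b : Rt C} (ha : a ∈ PZ F)
    (hb : b ∈ PZ F) (hab : ∃ s ∈ EE F, wt s a ≠ wt s b) :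
    Odd (ip C a.1 b.1) := by
  obtain ⟨s, hs, hsab⟩ := hab
  obtain ⟨c, hc, hcw⟩ := prod_char H X h3 ha hb ⟨s, hs, fun h => hsab (by
    have h1 := CCe_sq H hs hb
    calc wt s a = wt s a * (wt s b * wt s b) := by rw [h1, mul_one]
      _ = (wt s a * wt s b) * wt s b := by ring
      _ = wt s b := by rw [h, one_mul])⟩
  have hba : b ≠ a := by
    rintro rfl
    exact hsab rfl
  have hba' : b ≠ ng a := by
    rintro rfl
    exact hsab (CCe_ng H hs ha).symm
  have hca0 : ∀ t ∈ EE F, wt t c = wt t a → wt t b = 1 := by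
    intro t ht h
    rw [hcw t ht] at h
    have h1 := CCe_sq H ht ha
    calc wt t b = (wt t a * wt t a) * wt t b := by rw [h1, one_mul]
      _ = wt t a * (wt t a * wt t b) := by ring
      _ = 1 := by rw [h, h1]
  have hcb0 : ∀ t ∈ EE F, wt t c = wt t b → wt t a = 1 := by
    intro t ht h
    rw [hcw t ht] at h
    have h1 := CCe_sq H ht hb
    calc wt t a = (wt t a * wt t b) * wt t b := by rw [mul_assoc, h1, mul_one]
      _ = 1 := by rw [h, h1]
  obtain ⟨u, hu, hua⟩ := even1 H X a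
  obtain ⟨v, hv, hvb⟩ := even1 H X b
  refine (even3 H X hq (c := c) hba hba' ?_ ?_ ?_ ?_ ?_).2.1
  · rintro rfl
    exact hvb (hca0 v hv rfl)
  · rintro rfl
    exact hvb (hca0 v hv (CCe_ng H hv ha))
  · rintro rfl
    exact hua (hcb0 u hu rfl)
  · rintro rfl
    exact hua (hcb0 u hu (CCe_ng H hu hb))
  · intro t ht
    rw [hcw t ht]
    have h1 := CCe_sq H ht ha
    have h2 := CCe_sq H ht hb
    calc wt t a * wt t b * (wt t a * wt t b) = (wt t a * wt t a) * (wt t b * wt t b) := by ring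
      _ = 1 := by rw [h1, h2, mul_one]

theorem CCe_exists_neg (H : Hyp C K) (X : Ctx F) {s : LL C K ≃ₗ[K] LL C K} (hs : s ∈ EE F)
    (hsZ : s ∉ Zc F) : ∃ a ∈ PZ F, wt s a = -1 := by
  by_contra hcon
  push Not at hcon
  exact hsZ (t0 H X hs.1 hs.2.1 fun a ha => (CCe_pm H hs ha).resolve_right (hcon a ha))

/-- a product of two elements is not in `Z` if the product with a square is not -/
theorem CCe_notZ {s t : LL C K ≃ₗ[K] LL C K} (hs : s ∈ EE F)
    (h : t ∉ Zc F) : s * s * t ∉ Zc F := by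
  intro h1
  exact h ((Subgroup.mul_mem_cancel_left _ hs.2.2).1 h1)

theorem no_ind3 (H : Hyp C K) (X : Ctx F) (hq : Q8 F) : ¬ Ind3 F := by
  intro h3
  obtain ⟨e1, h1, e2, h2, e3, h3', n1, n2, n3, n12, n13, n23, n123⟩ := id h3
  obtain ⟨a1, ha1, w1⟩ := CCe_exists_neg H X h1 n1
  have c12 := TT_comm H h1.2.1 h2.2.1
  have c13 := TT_comm H h1.2.1 h3'.2.1
  have c23 := TT_comm H h2.2.1 h3'.2.1
  -- two independent elements of the kernel of the first character
  obtain ⟨f, hf, f', hf', wf, wf', nf, nf', nff⟩ : ∃ f ∈ EE F, ∃ f' ∈ EE F, wt f a1 = 1 ∧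
      wt f' a1 = 1 ∧ f ∉ Zc F ∧ f' ∉ Zc F ∧ f * f' ∉ Zc F := by
    rcases CCe_pm H h2 ha1 with w2 | w2 <;> rcases CCe_pm H h3' ha1 with w3 | w3
    · exact ⟨e2, h2, e3, h3', w2, w3, n2, n3, n23⟩
    · refine ⟨e2, h2, e1 * e3, CCe_mul H h1 h3', w2, ?_, n2, n13, ?_⟩
      · rw [CCe_wt_mul H h1 h3', w1, w3]
        ring
      · have : e2 * (e1 * e3) = e1 * e2 * e3 := by
          rw [← mul_assoc, ← c12]
        rw [this]
        exact n123
    · refine ⟨e1 * e2, CCe_mul H h1 h2, e3, h3', ?_, w3, n12, n3, n123⟩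
      rw [CCe_wt_mul H h1 h2, w1, w2]
      ring
    · refine ⟨e1 * e2, CCe_mul H h1 h2, e1 * e3, CCe_mul H h1 h3', ?_, ?_, n12, n13, ?_⟩
      · rw [CCe_wt_mul H h1 h2, w1, w2]
        ring
      · rw [CCe_wt_mul H h1 h3', w1, w3]
        ring
      · have : e1 * e2 * (e1 * e3) = e1 * e1 * (e2 * e3) := by
          calc e1 * e2 * (e1 * e3) = e1 * (e2 * e1) * e3 := by group
            _ = e1 * (e1 * e2) * e3 := by rw [c12]
            _ = e1 * e1 * (e2 * e3) := by group
        rw [this]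
        exact CCe_notZ h1 n23
  obtain ⟨a2, ha2, w2⟩ := CCe_exists_neg H X hf nf
  obtain ⟨g, hg, wg1, wg2, ng'⟩ : ∃ g ∈ EE F, wt g a1 = 1 ∧ wt g a2 = 1 ∧ g ∉ Zc F := by
    rcases CCe_pm H hf' ha2 with w | w
    · exact ⟨f', hf', wf', w, nf'⟩
    · refine ⟨f * f', CCe_mul H hf hf', ?_, ?_, nff⟩
      · rw [CCe_wt_mul H hf hf', wf, wf', one_mul]
      · rw [CCe_wt_mul H hf hf', w2, w]
        ring
  obtain ⟨a3, ha3, w3⟩ := CCe_exists_neg H X hg ng'
  have hne := CCe_ne H (C := C)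
  obtain ⟨a4, ha4, hw4⟩ := prod_char H X h3 ha1 ha2 ⟨f, hf, by
    rw [wf, w2, one_mul]
    exact hne⟩
  have o1 := CCe_odd H X hq h3 ha1 ha3 ⟨g, hg, by
    rw [wg1, w3]
    exact hne.symm⟩
  have o2 := CCe_odd H X hq h3 ha2 ha3 ⟨g, hg, by
    rw [wg2, w3]
    exact hne.symm⟩
  have o4 := CCe_odd H X hq h3 ha4 ha3 ⟨g, hg, by
    rw [hw4 g hg, wg1, wg2, w3, one_mul]
    exact hne.symm⟩
  have q1 : ∀ t ∈ EE F, ∀ x ∈ PZ F, ∀ y ∈ PZ F, wt t x ≠ wt t y → y ≠ x ∧ y ≠ ng x := by
    intro t ht x hx y hy hxy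
    constructor
    · rintro rfl
      exact hxy rfl
    · rintro rfl
      exact hxy (CCe_ng H ht hx).symm
  obtain ⟨r1, r2⟩ := q1 f hf a1 ha1 a2 ha2 (by
    rw [wf, w2]
    exact hne.symm)
  obtain ⟨r3, r4⟩ := q1 f hf a1 ha1 a4 ha4 (by
    rw [hw4 f hf, wf, w2, one_mul]
    exact hne.symm)
  obtain ⟨r5, r6⟩ := q1 e1 h1 a2 ha2 a4 ha4 (by
    rw [hw4 e1 h1, w1]
    intro h
    rcases CCe_pm H h1 ha2 with h5 | h5
    · rw [h5, mul_one] at h
      exact hne h.symm
    · rw [h5] at h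
      exact hne (by linear_combination h))
  have key := (even3 H X hq r1 r2 r3 r4 r5 r6 (fun t ht => by
    rw [hw4 t ht]
    have h1 := CCe_sq H ht ha1
    have h2 := CCe_sq H ht ha2
    calc wt t a1 * wt t a2 * (wt t a1 * wt t a2) =
          (wt t a1 * wt t a1) * (wt t a2 * wt t a2) := by ring
      _ = 1 := by rw [h1, h2, mul_one])).1 a3
  rw [Int.even_iff] at key
  rw [Int.odd_iff] at o1 o2 o4
  omega

/-- four roots with independent characters would give `Ind3` -/
theorem CCe_triple (H : Hyp C K) (X : Ctx F) (hi : ¬ Ind3 F) {a b c : Rt C} (ha : a ∈ PZ F) (hb : b ∈ PZ F)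
    (hc : c ∈ PZ F) (hab : b ≠ a) (hab' : b ≠ ng a) (hac : c ≠ a) (hac' : c ≠ ng a)
    (hbc : c ≠ b) (hbc' : c ≠ ng b) : ∀ s ∈ EE F, wt s a * wt s b * wt s c = 1 := by
  by_contra hcon
  push Not at hcon
  obtain ⟨t, ht, hwt⟩ := hcon
  have hne := CCe_ne H (C := C)
  have hnotZ : ∀ s : LL C K ≃ₗ[K] LL C K, ∀ x ∈ PZ F, wt s x = -1 → s ∉ Zc F := by
    intro s x hx hw hsZ
    rw [hx s hsZ] at hw
    exact hne hw.symm
  obtain ⟨u, hu, hub⟩ := even1 H X b
  replace hub := (CCe_pm H hu hb).resolve_left hub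
  obtain ⟨v, hv, hvab⟩ : ∃ s ∈ EE F, wt s a ≠ wt s b := by
    by_contra h
    push Not at h
    rcases even2 H X h with h | h
    · exact hab h
    · exact hab' h
  -- `s2`: trivial at `a`, not at `b`
  obtain ⟨s2, hs2, w2a, w2b⟩ : ∃ s ∈ EE F, wt s a = 1 ∧ wt s b = -1 := by
    rcases CCe_pm H hu ha with h | h
    · exact ⟨u, hu, h, hub⟩
    · rcases CCe_pm H hv ha with h' | h'
      · refine ⟨v, hv, h', (CCe_pm H hv hb).resolve_left fun h'' => hvab ?_⟩
        rw [h', h'']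
      · have h'' := (CCe_pm H hv hb).resolve_right fun h'' => hvab (by rw [h', h''])
        refine ⟨u * v, CCe_mul H hu hv, ?_, ?_⟩
        · rw [CCe_wt_mul H hu hv, h, h']
          ring
        · rw [CCe_wt_mul H hu hv, hub, h'', mul_one]
  -- `s1`: trivial at `b`, not at `a`
  obtain ⟨s1, hs1, w1a, w1b⟩ : ∃ s ∈ EE F, wt s a = -1 ∧ wt s b = 1 := by
    obtain ⟨u', hu', hua⟩ := even1 H X a
    replace hua := (CCe_pm H hu' ha).resolve_left hua
    rcases CCe_pm H hu' hb with h | h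
    · exact ⟨u', hu', hua, h⟩
    · refine ⟨u' * s2, CCe_mul H hu' hs2, ?_, ?_⟩
      · rw [CCe_wt_mul H hu' hs2, hua, w2a, mul_one]
      · rw [CCe_wt_mul H hu' hs2, h, w2b]
        ring
  -- `s3`: trivial at `a` and `b`, not at `c`
  obtain ⟨s3, hs3, w3a, w3b, w3c⟩ : ∃ s ∈ EE F, wt s a = 1 ∧ wt s b = 1 ∧ wt s c = -1 := by
    by_contra hno
    push Not at hno
    have hker : ∀ s ∈ EE F, wt s a = 1 → wt s b = 1 → wt s c = 1 := by
      intro s hs h1 h2
      exact (CCe_pm H hs hc).resolve_right (hno s hs h1 h2)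
    -- the value at `c` is determined by the values at `a` and `b`
    have hval : ∀ s ∈ EE F,
        (wt s a = 1 → wt s b = 1 → wt s c = 1) ∧
        (wt s a = -1 → wt s b = 1 → wt s c = wt s1 c) ∧
        (wt s a = 1 → wt s b = -1 → wt s c = wt s2 c) ∧
        (wt s a = -1 → wt s b = -1 → wt s c = wt s1 c * wt s2 c) := by
      intro s hs
      have q1 := CCe_sq H hs1 hc
      have q2 := CCe_sq H hs2 hc
      refine ⟨hker s hs, fun h1 h2 => ?_, fun h1 h2 => ?_, fun h1 h2 => ?_⟩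
      · have h3 := hker (s * s1) (CCe_mul H hs hs1)
          (by rw [CCe_wt_mul H hs hs1, h1, w1a]; ring)
          (by rw [CCe_wt_mul H hs hs1, h2, w1b]; ring)
        rw [CCe_wt_mul H hs hs1] at h3
        calc wt s c = (wt s c * wt s1 c) * wt s1 c := by rw [mul_assoc, q1, mul_one]
          _ = wt s1 c := by rw [h3, one_mul]
      · have h3 := hker (s * s2) (CCe_mul H hs hs2)
          (by rw [CCe_wt_mul H hs hs2, h1, w2a]; ring)
          (by rw [CCe_wt_mul H hs hs2, h2, w2b]; ring)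
        rw [CCe_wt_mul H hs hs2] at h3
        calc wt s c = (wt s c * wt s2 c) * wt s2 c := by rw [mul_assoc, q2, mul_one]
          _ = wt s2 c := by rw [h3, one_mul]
      · have hs12 := CCe_mul H hs1 hs2
        have h3 := hker (s * (s1 * s2)) (CCe_mul H hs hs12)
          (by rw [CCe_wt_mul H hs hs12, CCe_wt_mul H hs1 hs2, h1, w1a, w2a]; ring)
          (by rw [CCe_wt_mul H hs hs12, CCe_wt_mul H hs1 hs2, h2, w1b, w2b]; ring)
        rw [CCe_wt_mul H hs hs12, CCe_wt_mul H hs1 hs2] at h3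
        calc wt s c = (wt s c * (wt s1 c * wt s2 c)) *
              (wt s1 c * wt s2 c) := by
                linear_combination (-(wt s c * (wt s2 c * wt s2 c))) * q1 - wt s c * q2
          _ = wt s1 c * wt s2 c := by rw [h3, one_mul]
    rcases CCe_pm H hs1 hc with k1 | k1 <;> rcases CCe_pm H hs2 hc with k2 | k2
    · -- trivial
      obtain ⟨y, hy, hyc⟩ := even1 H X c
      apply hyc
      obtain ⟨v1, v2, v3, v4⟩ := hval y hy
      rcases CCe_pm H hy ha with h | h <;> rcases CCe_pm H hy hb with h' | h'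
      · exact v1 h h'
      · rw [v3 h h', k2]
      · rw [v2 h h', k1]
      · rw [v4 h h', k1, k2, one_mul]
    · -- equal to the character of `b`
      have : ∀ s ∈ EE F, wt s b = wt s c := by
        intro y hy
        obtain ⟨v1, v2, v3, v4⟩ := hval y hy
        rcases CCe_pm H hy ha with h | h <;> rcases CCe_pm H hy hb with h' | h'
        · rw [v1 h h', h']
        · rw [v3 h h', k2, h']
        · rw [v2 h h', k1, h']
        · rw [v4 h h', k1, k2, one_mul, h']
      rcases even2 H X this with h | h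
      · exact hbc h
      · exact hbc' h
    · -- equal to the character of `a`
      have : ∀ s ∈ EE F, wt s a = wt s c := by
        intro y hy
        obtain ⟨v1, v2, v3, v4⟩ := hval y hy
        rcases CCe_pm H hy ha with h | h <;> rcases CCe_pm H hy hb with h' | h'
        · rw [v1 h h', h]
        · rw [v3 h h', k2, h]
        · rw [v2 h h', k1, h]
        · rw [v4 h h', k1, k2, mul_one, h]
      rcases even2 H X this with h | h
      · exact hac h
      · exact hac' h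
    · -- the product
      apply hwt
      obtain ⟨v1, v2, v3, v4⟩ := hval t ht
      rcases CCe_pm H ht ha with h | h <;> rcases CCe_pm H ht hb with h' | h'
      · rw [v1 h h', h, h']; ring
      · rw [v3 h h', k2, h, h']; ring
      · rw [v2 h h', k1, h, h']; ring
      · rw [v4 h h', k1, k2, h, h']; ring
  refine hi ⟨s1, hs1, s2, hs2, s3, hs3, hnotZ s1 a ha w1a, hnotZ s2 b hb w2b,
    hnotZ s3 c hc w3c, hnotZ _ a ha ?_, hnotZ _ a ha ?_, hnotZ _ b hb ?_, hnotZ _ a ha ?_⟩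
  · rw [CCe_wt_mul H hs1 hs2, w1a, w2a, mul_one]
  · rw [CCe_wt_mul H hs1 hs3, w1a, w3a, mul_one]
  · rw [CCe_wt_mul H hs2 hs3, w2b, w3b, mul_one]
  · rw [CCe_wt_mul H (CCe_mul H hs1 hs2) hs3, CCe_wt_mul H hs1 hs2, w1a, w2a, w3a, mul_one,
      mul_one]

/-- without three independent characters, two roots with product `-1` give everything -/
theorem classify3 (H : Hyp C K) (X : Ctx F) (hi : ¬ Ind3 F) {a b : Rt C} (ha : a ∈ PZ F)
    (hb : b ∈ PZ F) (h2 : ip C a.1 b.1 = -1) :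
    ∃ a b c : Rt C, c.1 = a.1 + b.1 ∧ PZ F = {a, ng a, b, ng b, c, ng c} := by
  have ha' := PZ_ng H X ha
  have hb' := PZ_ng H X hb
  have ha2 : ip C a.1 a.1 = 2 := a.2
  have hba : b ≠ a := by
    rintro rfl
    rw [ha2] at h2
    omega
  have hba' : b ≠ ng a := by
    rintro rfl
    rw [ng_val, ip_neg_right, ha2] at h2
    omega
  obtain ⟨d, hd⟩ : ∃ d : Rt C, d.1 = a.1 + b.1 := ⟨⟨a.1 + b.1, root_add H h2⟩, rfl⟩
  have hdP := PZ_add H X ha hb hd
  have hdP' := PZ_ng H X hdP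
  refine ⟨a, b, d, hd, ?_⟩
  ext x
  simp only [Set.mem_insert_iff, Set.mem_singleton_iff]
  constructor
  · intro hx
    by_contra hcon
    push Not at hcon
    obtain ⟨x1, x2, x3, x4, x5, x6⟩ := hcon
    have h3 := CCe_triple H X hi ha hb hx hba hba' x1 x2 x3 x4
    have h4 : ∀ s ∈ EE F, wt s d = wt s x := by
      intro s hs
      rw [wt_add H hs.2.1 hd]
      have h5 := CCe_sq H hs hx
      calc wt s a * wt s b = wt s a * wt s b * (wt s x * wt s x) := by rw [h5, mul_one]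
        _ = (wt s a * wt s b * wt s x) * wt s x := by ring
        _ = wt s x := by rw [h3 s hs, one_mul]
    rcases even2 H X h4 with h | h
    · exact x5 h
    · exact x6 h
  · rintro (rfl | rfl | rfl | rfl | rfl | rfl)
    · exact ha
    · exact ha'
    · exact hb
    · exact hb'
    · exact hdP
    · exact hdP'

theorem classify (H : Hyp C K) (X : Ctx F) (hq : Q8 F) :
    (∃ a : Rt C, PZ F = {a, ng a}) ∨
    (∃ a b : Rt C, ip C a.1 b.1 = 0 ∧ PZ F = {a, ng a, b, ng b}) ∨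
    ∃ a b c : Rt C, c.1 = a.1 + b.1 ∧ PZ F = {a, ng a, b, ng b, c, ng c} := by
  obtain ⟨a, ha⟩ := PZ_nonempty H X
  have ha' := PZ_ng H X ha
  by_cases h1 : PZ F = {a, ng a}
  · exact Or.inl ⟨a, h1⟩
  right
  obtain ⟨b, hb, hba, hba'⟩ : ∃ b ∈ PZ F, b ≠ a ∧ b ≠ ng a := by
    by_contra hcon
    push Not at hcon
    apply h1
    ext x
    simp only [Set.mem_insert_iff, Set.mem_singleton_iff]
    constructor
    · intro hx
      by_cases hxa : x = a
      · exact Or.inl hxa
      · exact Or.inr (hcon x hx hxa)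
    · rintro (rfl | rfl)
      · exact ha
      · exact ha'
  have hb' := PZ_ng H X hb
  have hi := no_ind3 H X hq
  rcases ip_cases H a b with h2 | h2 | h2 | h2 | h2
  · exact absurd h2 hba'
  · exact Or.inr (classify3 H X hi ha hb h2)
  · left
    refine ⟨a, b, h2, ?_⟩
    ext x
    simp only [Set.mem_insert_iff, Set.mem_singleton_iff]
    constructor
    · intro hx
      by_contra hcon
      push Not at hcon
      obtain ⟨x1, x2, x3, x4⟩ := hcon
      have h3 := (even3 H X hq hba hba' x1 x2 x3 x4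
        (CCe_triple H X hi ha hb hx hba hba' x1 x2 x3 x4)).2.1
      rw [h2] at h3
      exact absurd h3 (by decide)
    · rintro (rfl | rfl | rfl | rfl)
      · exact ha
      · exact ha'
      · exact hb
      · exact hb'
  · refine Or.inr (classify3 H X hi ha hb' ?_)
    rw [ng_val, ip_neg_right, h2]
  · exact absurd h2 hba

end Pool.Agent.H33.EL
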