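import Mathlib

/-!
# EL-45: the partner lemma (permutation groups)

`G` acts on `Y`, `F ≤ G` acts on the finite set `X ⊆ Y`, `T ≤ F` is commutative, `x0 ≠ x1` in `X`,
`T` fixes `x0`, `x1` and is transitive on `X \ {x0,x1}`, `F` is transitive on `X`, the stabiliser
in `F` of `x0` fixes `x1`, an element of `F` with at least three fixed points in `X`
fixes all points of `X`; `|X| ≥ 8`.  Contradiction.

Proof.  For `x ∈ X` choose `f ∈ F` with `f x0 = x`, put `π x = f x1`; well defined: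
`f x0 = f' x0` gives `f⁻¹ f' x0 = x0`, so `f⁻¹ f' x1 = x1`.  `π (f x) = f (π x)` for `f ∈ F`.
`π x0 = x1`.  `π x1 = x0`: let `f x0 = x1`, `π x1 = f x1`; `T` fixes `x1 = f x0`, so
`f⁻¹ T f` fixes `x0`, hence fixes `x1`, so `T` fixes `f x1`; the only fixed points of `T` in
`X` are `x0`, `x1` (transitive on the rest, which has at least 2 elements), and `f x1 ≠ f x0 = x1`;
so `f x1 = x0`.  By equivariance and transitivity `π (π x) = x` for all `x ∈ X`, `π x ≠ x`.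
Let `x ∈ X \ {x0,x1}`; `π x` is not `x0` or `x1` either.  There is `τ ∈ T` with
`τ x = π x`; for every `y ∈ X \ {x0,x1}`, `y = t x`, `t ∈ T`: `π y = t π x = t τ x = τ t x = τ y`.
Let `f ∈ F`, `f x0 = x`, so `f x1 = π x`; `τ' = f τ f⁻¹` fixes `x` and `π x`, and for
`y ∈ X \ {x, π x}`: `τ' y = f (τ (f⁻¹ y)) = f (π (f⁻¹ y)) = π y`.
`g = τ τ'`: for `y ∈ X` different from `x0, x1, x, π x`: `τ' y = π y ∉ {x0,x1}`,
`g y = τ (π y) = π (π y) = y`.  So `g` has at least `|X| - 4 ≥ 4` fixed points in `X`, hence fixes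
`X` pointwise; but `τ' x0 = π x0 = x1` and `g x0 = τ x1 = x1 ≠ x0`.
-/

namespace Pool.Agent.H33.EL

theorem GrpP_ex {Y : Type} {X : Set Y} (hX8 : 8 ≤ X.ncard) (l : List Y) (hl : l.length < 8) :
    ∃ y ∈ X, y ∉ l := by
  classical
  by_contra hcon
  push Not at hcon
  have h1 : X ⊆ (l.toFinset : Set Y) := by
    intro y hy
    rw [Finset.mem_coe, List.mem_toFinset]
    exact hcon y hy
  have h2 := Set.ncard_le_ncard h1 (Finset.finite_toSet _)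
  rw [Set.ncard_coe_finset] at h2
  have h3 := l.toFinset_card_le
  omega

theorem partner {G Y : Type} [Group G] [MulAction G Y] (F T : Subgroup G) (hTF : T ≤ F)
    (hTc : ∀ s ∈ T, ∀ t ∈ T, s * t = t * s) (X : Set Y) (hXf : X.Finite)
    (hX8 : 8 ≤ X.ncard) (hXF : ∀ f ∈ F, ∀ x ∈ X, f • x ∈ X) {x0 x1 : Y} (h0 : x0 ∈ X)
    (h1 : x1 ∈ X) (h01 : x0 ≠ x1) (hT0 : ∀ t ∈ T, t • x0 = x0) (hT1 : ∀ t ∈ T, t • x1 = x1)
    (hTt : ∀ x ∈ X, ∀ y ∈ X, x ≠ x0 → x ≠ x1 → y ≠ x0 → y ≠ x1 → ∃ t ∈ T, t • x = y)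
    (hFt : ∀ x ∈ X, ∃ f ∈ F, f • x0 = x)
    (hst : ∀ f ∈ F, f • x0 = x0 → f • x1 = x1)
    (h3 : ∀ f ∈ F, (∃ a ∈ X, ∃ b ∈ X, ∃ c ∈ X, a ≠ b ∧ a ≠ c ∧ b ≠ c ∧ f • a = a ∧
      f • b = b ∧ f • c = c) → ∀ x ∈ X, f • x = x) : False := by
  classical
  choose! φ hφF hφ using hFt
  obtain ⟨π, hπ⟩ : ∃ π : Y → Y, ∀ f ∈ F, π (f • x0) = f • x1 := by
    refine ⟨fun x => φ x • x1, fun f hf => ?_⟩
    have hx : f • x0 ∈ X := hXF f hf x0 h0
    have e1 : (f⁻¹ * φ (f • x0)) • x0 = x0 := by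
      rw [mul_smul, hφ _ hx, inv_smul_smul]
    have e2 := hst _ (F.mul_mem (F.inv_mem hf) (hφF _ hx)) e1
    rw [mul_smul, inv_smul_eq_iff] at e2
    exact e2
  have hφ' : ∀ x ∈ X, ∃ f ∈ F, f • x0 = x := fun x hx => ⟨φ x, hφF x hx, hφ x hx⟩
  have hπF : ∀ f ∈ F, ∀ x ∈ X, π (f • x) = f • π x := by
    intro f hf x hx
    obtain ⟨f', hf', rfl⟩ := hφ' x hx
    rw [← mul_smul, hπ _ (F.mul_mem hf hf'), hπ _ hf', mul_smul]
  have hπ0 : π x0 = x1 := by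
    have e1 := hπ 1 F.one_mem
    rw [one_smul, one_smul] at e1
    exact e1
  have hfixT : ∀ y ∈ X, (∀ t ∈ T, t • y = y) → y = x0 ∨ y = x1 := by
    intro y hy hyT
    by_contra hcon
    push Not at hcon
    obtain ⟨z, hz, hzl⟩ := GrpP_ex hX8 [x0, x1, y] (by simp)
    simp only [List.mem_cons, List.not_mem_nil, or_false, not_or] at hzl
    obtain ⟨t, ht, htz⟩ := hTt y hy z hz hcon.1 hcon.2 hzl.1 hzl.2.1
    rw [hyT t ht] at htz
    exact hzl.2.2 htz.symm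
  have hπ1 : π x1 = x0 := by
    obtain ⟨f, hf, hfx⟩ := hφ' x1 h1
    have e1 : π x1 = f • x1 := by rw [← hπ f hf, hfx]
    have e2 : ∀ t ∈ T, t • (f • x1) = f • x1 := by
      intro t ht
      have e3 : (f⁻¹ * t * f) • x0 = x0 := by
        rw [mul_smul, mul_smul, hfx, hT1 t ht, ← hfx, inv_smul_smul]
      have e4 := hst _ (F.mul_mem (F.mul_mem (F.inv_mem hf) (hTF ht)) hf) e3
      rw [mul_smul, mul_smul, inv_smul_eq_iff] at e4
      exact e4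
    rcases hfixT _ (hXF f hf x1 h1) e2 with h | h
    · rw [e1, h]
    · exfalso
      apply h01
      apply MulAction.injective f
      show f • x0 = f • x1
      rw [h, hfx]
  have hπX : ∀ x ∈ X, π x ∈ X := by
    intro x hx
    obtain ⟨f, hf, rfl⟩ := hφ' x hx
    rw [hπ f hf]
    exact hXF f hf x1 h1
  have hππ : ∀ x ∈ X, π (π x) = x := by
    intro x hx
    obtain ⟨f, hf, rfl⟩ := hφ' x hx
    rw [hπ f hf, hπF f hf x1 h1, hπ1]
  have hne0 : ∀ x ∈ X, x ≠ x1 → π x ≠ x0 := by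
    intro x hx hx1 h
    apply hx1
    rw [← hππ x hx, h, hπ0]
  have hne1 : ∀ x ∈ X, x ≠ x0 → π x ≠ x1 := by
    intro x hx hx0 h
    apply hx0
    rw [← hππ x hx, h, hπ1]
  obtain ⟨x, hx, hxl⟩ := GrpP_ex hX8 [x0, x1] (by simp)
  simp only [List.mem_cons, List.not_mem_nil, or_false, not_or] at hxl
  obtain ⟨hx0, hx1⟩ := hxl
  obtain ⟨τ, hτ, hτx⟩ := hTt x hx (π x) (hπX x hx) hx0 hx1 (hne0 x hx hx1) (hne1 x hx hx0)
  have hτπ : ∀ y ∈ X, y ≠ x0 → y ≠ x1 → τ • y = π y := by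
    intro y hy hy0 hy1
    obtain ⟨t, ht, rfl⟩ := hTt x hx y hy hx0 hx1 hy0 hy1
    rw [hπF t (hTF ht) x hx, ← hτx, ← mul_smul, ← mul_smul, hTc τ hτ t ht]
  obtain ⟨f, hf, hfx⟩ := hφ' x hx
  have hfx1 : f • x1 = π x := by rw [← hπ f hf, hfx]
  obtain ⟨τ', hτ'⟩ : ∃ τ', τ' = f * τ * f⁻¹ := ⟨_, rfl⟩
  have hτ'F : τ' ∈ F := by
    rw [hτ']
    exact F.mul_mem (F.mul_mem hf (hTF hτ)) (F.inv_mem hf)
  have hτ'π : ∀ y ∈ X, y ≠ x → y ≠ π x → τ' • y = π y := by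
    intro y hy hyx hyp
    have e1 : f⁻¹ • y ∈ X := hXF _ (F.inv_mem hf) y hy
    have e2 : f⁻¹ • y ≠ x0 := by
      intro h
      rw [inv_smul_eq_iff, hfx] at h
      exact hyx h
    have e3 : f⁻¹ • y ≠ x1 := by
      intro h
      rw [inv_smul_eq_iff, hfx1] at h
      exact hyp h
    rw [hτ', mul_smul, mul_smul, hτπ _ e1 e2 e3, ← hπF f hf _ e1, smul_inv_smul]
  have hg : ∀ y ∈ X, y ≠ x0 → y ≠ x1 → y ≠ x → y ≠ π x → (τ * τ') • y = y := by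
    intro y hy hy0 hy1 hyx hyp
    rw [mul_smul, hτ'π y hy hyx hyp,
      hτπ (π y) (hπX y hy) (hne0 y hy hy1) (hne1 y hy hy0), hππ y hy]
  obtain ⟨a, ha, hal⟩ := GrpP_ex hX8 [x0, x1, x, π x] (by simp)
  simp only [List.mem_cons, List.not_mem_nil, or_false, not_or] at hal
  obtain ⟨b, hb, hbl⟩ := GrpP_ex hX8 [x0, x1, x, π x, a] (by simp)
  simp only [List.mem_cons, List.not_mem_nil, or_false, not_or] at hbl
  obtain ⟨c, hc, hcl⟩ := GrpP_ex hX8 [x0, x1, x, π x, a, b] (by simp)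
  simp only [List.mem_cons, List.not_mem_nil, or_false, not_or] at hcl
  have hgx0 : (τ * τ') • x0 = x0 := by
    refine h3 _ (F.mul_mem (hTF hτ) hτ'F) ⟨a, ha, b, hb, c, hc, Ne.symm hbl.2.2.2.2,
      Ne.symm hcl.2.2.2.2.1, Ne.symm hcl.2.2.2.2.2, ?_, ?_, ?_⟩ x0 h0
    · exact hg a ha hal.1 hal.2.1 hal.2.2.1 hal.2.2.2
    · exact hg b hb hbl.1 hbl.2.1 hbl.2.2.1 hbl.2.2.2.1
    · exact hg c hc hcl.1 hcl.2.1 hcl.2.2.1 hcl.2.2.2.1
  rw [mul_smul, hτ'π x0 h0 (Ne.symm hx0) (Ne.symm (hne0 x hx hx1)), hπ0, hT1 τ hτ] at hgx0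
  exact h01 hgx0.symm

end Pool.Agent.H33.EL
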