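import Pool.Agent.H33.EL.CCe
import Pool.Agent.H33.EL.GrpP

/-!
# EL-46: the rank one case

Context `Ctx F`, `a ∈ PZ F`, and every `f ∈ F` maps `e a` and `e (ng a)` into
`S2 = {x : x.1 ∈ K a, x.2 d = 0 for d ≠ ±a}` (the Lie algebra `sl_2(a)`).  Then every `f ∈ F`
permutes the two lines `K e_a`, `K e_(-a)`.

`f (e a)`, `f (e (ng a))` are extremal, non zero, so by `ext_sl2` every `f ∈ F` maps the set `X` of
the `q + 1` lines (submodules) `K e_a`, `K xr a t e_(-a)` (`t ∈ K`) to itself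
(`xr a t (e (ng a)) = e (ng a) - t hh a + t² e a`, and `hh a = -[e a, e (ng a)]` is mapped into
`[S2,S2] ⊆ S2`).
`fp` with `d = a.1`: if all `f ∈ F` fix the line `K e_a` then `F ≤ Par a.1` (`Fil_map`), so
`hd a c ∈ Z`, but its weight at `a ∈ PZ F` is `c²`, take `c` with `c² ≠ 1`.  So `F` does not fix
`K e_a`, and not `K e_(-a)` (`ng a ∈ PZ F`).
Suppose that some `f ∈ F` maps one of the two lines out of the pair.  `T = T1` is transitive
on the other `q - 1` lines (`TT_conj_xr`, `T1_surj`).  So the orbits of `F` on `X` are unions of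
`{K e_a}`, `{K e_(-a)}`, rest; they are not: both fixed; one fixed and one not (excluded by `fp`);
swapped (excluded by assumption); so `F` is transitive on `X`.
`F' = {f ∈ F : f (K e_a) = K e_a}` contains `T1`, is not `F`, so `F' ≤ NN` and `f ∈ F'` fixes
`K e_(-a)` (`NN_perm`: `w a = a`, `w (ng a) = ng a`).  Three lines in `X` fixed: three vectors
`v_i` spanning three different lines of `X` are a basis of `S2` with `fm v_i v_j ≠ 0` for
`i ≠ j` (`fm (xr a s e_(-a)) (xr a t e_(-a)) = -(s-t)²`, `fm (e a) (xr a t e_(-a)) = -1`);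
`f v_i = l_i v_i`, `l_i l_j = 1`, so all `l_i` are equal, to `±1`, so `f` is `±1` on `S2` and
fixes all lines.  Apply `partner` with `Y = Submodule K (LL C K)` (pointwise action or the
action by `Submodule.map`), `|X| = q + 1 ≥ 8`.
Case A_1 and 2A_1 (`case1`, `case2`).  `m = {x : x.2 d = 0 for d ∉ PZ F}` is `F`-invariant
(`mZ_inv`).
`case1`: `PZ F = {a, ng a}`: `f (e a)` is extremal with support in `{a, ng a}`, so in `S2`
(`ext_sl2`).  So `F` permutes the two lines, `mem_NN_of_lines` (with `S = PZ F`): `F ≤ NN`,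
contradiction.
`case2`: `PZ F = {±a, ±b}`, `ip a b = 0`.  `f (e c)`, `c ∈ {±a,±b}`, is extremal with support in
`PZ F`; some coordinate, at `ng d`, `d ∈ PZ F` is not zero, and `xd` gives
`v = k • xr d t (e (ng d))` (the root group generators need `b' - d ∈ PZ F` of product `-1` with
`d`: none), so `f (e c) ∈ S2 d`, `S2 d` the `sl_2` of `d`.  `fm (f e_a) (f e_(-a)) ≠ 0` so both
are in the same `S2`, either that of `a` or that of `b`.  `F' = {f ∈ F : f (e a) ∈ S2 a,
f (e (ng a)) ∈ S2 a}` is a subgroup of index `≤ 2` of `F` (then also `f (e b) ∈ S2 b`), normal,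
contains `T1`; by `no_normal` `F' = F`.  Now the rank one lemma for `a` and for `b`
and `mem_NN_of_lines` give `F ≤ NN`.
-/

namespace Pool.Agent.H33.EL

variable {n : ℕ} {C : Matrix (Fin n) (Fin n) ℤ} {K : Type} [Field K] [Fintype (Rt C)]

/-- `sl_2(a)` -/
def S2 (K : Type) [Field K] (a : Rt C) : Submodule K (LL C K) :=
  Submodule.span K {e K a, e K (ng a), hh C (zk a.1)}

variable {F : Subgroup (LL C K ≃ₗ[K] LL C K)}

open scoped Pointwise

theorem CCf_smul_span (g : LL C K ≃ₗ[K] LL C K) (v : LL C K) :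
    g • Submodule.span K {v} = Submodule.span K {g v} := by
  rw [Submodule.smul_span, Set.smul_set_singleton]
  rfl

theorem CCf_span_smul {k : K} (hk : k ≠ 0) (v : LL C K) :
    Submodule.span K {k • v} = Submodule.span K {v} :=
  Submodule.span_singleton_smul_eq (IsUnit.mk0 k hk) v

theorem CCf_eq_smul {u v : LL C K} (h : Submodule.span K {u} = Submodule.span K {v}) :
    ∃ k : K, u = k • v := by
  have h1 : u ∈ Submodule.span K {v} := by
    rw [← h]
    exact Submodule.mem_span_singleton_self u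
  obtain ⟨k, hk⟩ := Submodule.mem_span_singleton.1 h1
  exact ⟨k, hk.symm⟩

/-- the vectors spanning the lines -/
noncomputable def CCf_v (a : Rt C) : Option K → LL C K
  | none => e K a
  | some t => xr a t (e K (ng a))

/-- the lines -/
noncomputable def CCf_l (a : Rt C) (i : Option K) : Submodule K (LL C K) :=
  Submodule.span K {CCf_v a i}

theorem CCf_mem (a : Rt C) (x : LL C K) : x ∈ S2 K a ↔
    ∃ α β γ : K, x = α • e K a + β • e K (ng a) + γ • hh C (zk a.1) := by
  unfold S2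
  rw [Submodule.mem_span_triple]
  constructor
  · rintro ⟨α, β, γ, h⟩
    exact ⟨α, β, γ, h.symm⟩
  · rintro ⟨α, β, γ, h⟩
    exact ⟨α, β, γ, h.symm⟩

theorem CCf_supp {a : Rt C} {x : LL C K} (hx : x ∈ S2 K a) {d : Rt C} (h1 : d ≠ a)
    (h2 : d ≠ ng a) : x.2 d = 0 := by
  obtain ⟨α, β, γ, rfl⟩ := (CCf_mem a x).1 hx
  show α * (e K a).2 d + β * (e K (ng a)).2 d + γ * (hh C (zk a.1)).2 d = 0
  rw [e_snd_ne h1, e_snd_ne h2, hh_snd, mul_zero, mul_zero, mul_zero, add_zero, add_zero]

theorem CCf_e_mem (a : Rt C) : e K a ∈ S2 K a := Submodule.subset_span (by simp)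
theorem CCf_ng_mem (a : Rt C) : e K (ng a) ∈ S2 K a := Submodule.subset_span (by simp)
theorem CCf_hh_mem (a : Rt C) : hh C (zk a.1) ∈ S2 K a := Submodule.subset_span (by simp)

theorem CCf_ipaa (a : Rt C) : ip C a.1 a.1 = 2 := a.2

theorem CCf_br_mem (H : Hyp C K) {a : Rt C} {x y : LL C K} (hx : x ∈ S2 K a)
    (hy : y ∈ S2 K a) : br x y ∈ S2 K a := by
  obtain ⟨α, β, γ, rfl⟩ := (CCf_mem a x).1 hx
  obtain ⟨α', β', γ', rfl⟩ := (CCf_mem a y).1 hy
  have h1 : br (e K a) (e K a) = 0 := br_self H _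
  have h2 : br (e K (ng a)) (e K (ng a)) = 0 := br_self H _
  have h3 : br (e K a) (e K (ng a)) = -hh C (zk a.1) := br_e_ng H a
  have h4 : br (e K (ng a)) (e K a) = hh C (zk a.1) := by rw [br_skew H, h3, neg_neg]
  simp only [map_add, map_smul, LinearMap.add_apply, LinearMap.smul_apply, h1, h2, h3, h4,
    br_hh_hh, br_hh_e, br_e_hh]
  have m1 := CCf_e_mem (K := K) a
  have m2 := CCf_ng_mem (K := K) a
  have m3 := CCf_hh_mem (K := K) a
  have z : (0 : LL C K) ∈ S2 K a := zero_mem _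
  repeat' first
    | exact z
    | exact m1
    | exact m2
    | exact m3
    | exact neg_mem m3
    | apply add_mem
    | apply Submodule.smul_mem

theorem CCf_v_some (H : Hyp C K) (a : Rt C) (t : K) :
    CCf_v a (some t) = e K (ng a) - t • hh C (zk a.1) + (t ^ 2) • e K a := xr_e_ng H a t

theorem CCf_v_mem (H : Hyp C K) (a : Rt C) (i : Option K) : CCf_v a i ∈ S2 K a := by
  cases i with
  | none => exact CCf_e_mem a
  | some t =>
    rw [CCf_v_some H]
    exact add_mem (sub_mem (CCf_ng_mem a) (Submodule.smul_mem _ _ (CCf_hh_mem a)))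
      (Submodule.smul_mem _ _ (CCf_e_mem a))

theorem CCf_v_ext (H : Hyp C K) (a : Rt C) (i : Option K) : IsExt (CCf_v a i) := by
  cases i with
  | none => exact isExt_e H a
  | some t => exact (isExt_e H (ng a)).map (xr_mem_GG H a t)

theorem CCf_v_ne (a : Rt C) (i : Option K) : CCf_v a i ≠ (0 : LL C K) := by
  cases i with
  | none => exact e_ne_zero a
  | some t =>
    intro h
    exact e_ne_zero (ng a) ((map_eq_zero_iff (xr a t) (xr a t).injective).1 h)

theorem CCf_fm (H : Hyp C K) (a : Rt C) (α β γ : K) (i : Option K) :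
    fm (α • e K a + β • e K (ng a) + γ • hh C (zk a.1)) (CCf_v a i) =
      Option.elim i (-β) (fun t => -(α + 2 * γ * t + β * t ^ 2)) := by
  have h1 : ∀ x : LL C K, fm (α • e K a + β • e K (ng a) + γ • hh C (zk a.1)) x =
      α * -x.2 (ng a) + β * -x.2 a + γ * fk C (zk a.1) x.1 := by
    intro x
    rw [map_add, map_add, LinearMap.add_apply, LinearMap.add_apply, map_smul, map_smul, map_smul,
      LinearMap.smul_apply, LinearMap.smul_apply, LinearMap.smul_apply, fm_e_left, fm_e_left,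
      fm_hh_left, ng_ng, smul_eq_mul, smul_eq_mul, smul_eq_mul]
  rw [h1]
  cases i with
  | none =>
    show α * -(e K a).2 (ng a) + β * -(e K a).2 a + γ * fk C (zk a.1) (e K a).1 = -β
    rw [e_snd_self, e_snd_ne (ng_ne H a), e_fst, fk_zero_right]
    ring
  | some t =>
    rw [CCf_v_some H]
    have g1 : (e K (ng a) - t • hh C (zk a.1) + (t ^ 2) • e K a : LL C K).1 =
        -(t • (zk a.1 : Fin n → K)) := by
      show (e K (ng a)).1 - t • (hh C (zk a.1)).1 + (t ^ 2) • (e K a).1 = _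
      rw [e_fst, e_fst, hh_fst, smul_zero, add_zero, zero_sub]
    have g2 : fk C (zk a.1) (-(t • (zk a.1 : Fin n → K))) = -(t * 2) := by
      rw [fk_neg_right, fk_smul_right, fk_zk_zk, CCf_ipaa]
      norm_num
    rw [g1, g2]
    show α * -((e K (ng a)).2 (ng a) - t * (hh C (zk a.1)).2 (ng a) + t ^ 2 * (e K a).2 (ng a)) +
      β * -((e K (ng a)).2 a - t * (hh C (zk a.1)).2 a + t ^ 2 * (e K a).2 a) + γ * -(t * 2) =
      -(α + 2 * γ * t + β * t ^ 2)
    rw [e_snd_self, e_snd_self, e_snd_ne (ng_ne H a), e_snd_ne (ng_ne H a).symm, hh_snd, hh_snd]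
    ring

theorem CCf_fm_ne (H : Hyp C K) (a : Rt C) {i j : Option K} (hij : i ≠ j) :
    fm (CCf_v a i) (CCf_v a j) ≠ 0 := by
  cases i with
  | none =>
    have h1 := CCf_fm H a 1 0 0 j
    rw [one_smul, zero_smul, zero_smul, add_zero, add_zero] at h1
    rw [show CCf_v a none = e K a from rfl, h1]
    cases j with
    | none => exact absurd rfl hij
    | some t =>
      show -(1 + 2 * 0 * t + 0 * t ^ 2) ≠ (0 : K)
      rw [mul_zero, zero_mul, zero_mul, add_zero, add_zero]
      exact neg_ne_zero.2 one_ne_zero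
  | some s =>
    have h0 : CCf_v a (some s) = s ^ 2 • e K a + (1 : K) • e K (ng a) + (-s) • hh C (zk a.1) := by
      rw [CCf_v_some H]
      module
    rw [h0, CCf_fm H]
    cases j with
    | none => exact neg_ne_zero.2 one_ne_zero
    | some t =>
      show -(s ^ 2 + 2 * -s * t + 1 * t ^ 2) ≠ 0
      have h1 : s ≠ t := fun h => hij (by rw [h])
      rw [show -(s ^ 2 + 2 * -s * t + 1 * t ^ 2) = -((s - t) ^ 2) by ring]
      exact neg_ne_zero.2 (pow_ne_zero _ (sub_ne_zero.2 h1))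

theorem CCf_nondeg (H : Hyp C K) (a : Rt C) {u : LL C K} (hu : u ∈ S2 K a) {i j k : Option K}
    (hij : i ≠ j) (hik : i ≠ k) (hjk : j ≠ k) (h1 : fm u (CCf_v a i) = 0)
    (h2 : fm u (CCf_v a j) = 0) (h3 : fm u (CCf_v a k) = 0) : u = 0 := by
  obtain ⟨α, β, γ, rfl⟩ := (CCf_mem a u).1 hu
  rw [CCf_fm H] at h1 h2 h3
  have h2K := two_ne H
  have lin : ∀ s t : K, s ≠ t → β = 0 → -(α + 2 * γ * s + β * s ^ 2) = 0 →
      -(α + 2 * γ * t + β * t ^ 2) = 0 →
      α • e K a + β • e K (ng a) + γ • hh C (zk a.1) = 0 := by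
    intro s t hst hβ e1 e2
    have e3 : 2 * (γ * (s - t)) = 0 := by
      rw [hβ] at e1 e2
      linear_combination e2 - e1
    have e4 : γ = 0 := by
      rcases mul_eq_zero.1 e3 with e4 | e4
      · exact absurd e4 h2K
      · exact (mul_eq_zero.1 e4).resolve_right (sub_ne_zero.2 hst)
    have e5 : α = 0 := by
      rw [hβ, e4] at e1
      linear_combination -e1
    rw [hβ, e4, e5, zero_smul, zero_smul, zero_smul, add_zero, add_zero]
  have quad : ∀ r s t : K, r ≠ s → r ≠ t → s ≠ t → -(α + 2 * γ * r + β * r ^ 2) = 0 →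
      -(α + 2 * γ * s + β * s ^ 2) = 0 → -(α + 2 * γ * t + β * t ^ 2) = 0 →
      α • e K a + β • e K (ng a) + γ • hh C (zk a.1) = 0 := by
    intro r s t hrs hrt hst e1 e2 e3
    refine lin r s hrs ?_ e1 e2
    have e4 : (r - s) * (2 * γ + β * (r + s)) = 0 := by linear_combination e2 - e1
    have e5 : (r - t) * (2 * γ + β * (r + t)) = 0 := by linear_combination e3 - e1
    have e6 := (mul_eq_zero.1 e4).resolve_left (sub_ne_zero.2 hrs)
    have e7 := (mul_eq_zero.1 e5).resolve_left (sub_ne_zero.2 hrt)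
    have e8 : (s - t) * β = 0 := by linear_combination e6 - e7
    exact (mul_eq_zero.1 e8).resolve_left (sub_ne_zero.2 hst)
  cases i with
  | none =>
    have hβ : β = 0 := neg_eq_zero.1 h1
    cases j with
    | none => exact absurd rfl hij
    | some s =>
      cases k with
      | none => exact absurd rfl hik
      | some t => exact lin s t (fun h => hjk (by rw [h])) hβ h2 h3
  | some r =>
    cases j with
    | none =>
      have hβ : β = 0 := neg_eq_zero.1 h2
      cases k with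
      | none => exact absurd rfl hjk
      | some t => exact lin r t (fun h => hik (by rw [h])) hβ h1 h3
    | some s =>
      cases k with
      | none =>
        have hβ : β = 0 := neg_eq_zero.1 h3
        exact lin r s (fun h => hij (by rw [h])) hβ h1 h2
      | some t =>
        exact quad r s t (fun h => hij (by rw [h])) (fun h => hik (by rw [h]))
          (fun h => hjk (by rw [h])) h1 h2 h3

theorem CCf_inj (H : Hyp C K) (a : Rt C) {i j : Option K} (h : CCf_l a i = CCf_l a j) :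
    i = j := by
  by_contra hij
  obtain ⟨k, hk⟩ := CCf_eq_smul h
  have h1 := CCf_fm_ne H a hij
  rw [hk, map_smul, LinearMap.smul_apply, IsExt.fm_self H (CCf_v_ext H a j), smul_zero] at h1
  exact h1 rfl

theorem CCf_map_S2 (H : Hyp C K) {a : Rt C} {f : LL C K ≃ₗ[K] LL C K} (hf : f ∈ GG C K)
    (h : f (e K a) ∈ S2 K a ∧ f (e K (ng a)) ∈ S2 K a) {x : LL C K} (hx : x ∈ S2 K a) :
    f x ∈ S2 K a := by
  obtain ⟨α, β, γ, rfl⟩ := (CCf_mem a x).1 hx
  have h1 : f (hh C (zk a.1)) ∈ S2 K a := by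
    have h2 : hh C (zk a.1 : Fin n → K) = -br (e K a) (e K (ng a)) := by
      rw [br_e_ng H, neg_neg]
    rw [h2, map_neg, hf.1]
    exact neg_mem (CCf_br_mem H h.1 h.2)
  rw [map_add, map_add, map_smul, map_smul, map_smul]
  exact add_mem (add_mem (Submodule.smul_mem _ _ h.1) (Submodule.smul_mem _ _ h.2))
    (Submodule.smul_mem _ _ h1)

theorem CCf_perm (H : Hyp C K) {a : Rt C} {f : LL C K ≃ₗ[K] LL C K} (hf : f ∈ GG C K)
    (h : f (e K a) ∈ S2 K a ∧ f (e K (ng a)) ∈ S2 K a) (i : Option K) :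
    ∃ j, f • CCf_l a i = CCf_l a j := by
  have h1 : IsExt (f (CCf_v a i)) := (CCf_v_ext H a i).map hf
  have h2 : f (CCf_v a i) ≠ 0 := fun h => CCf_v_ne a i ((map_eq_zero_iff f f.injective).1 h)
  have h3 := CCf_map_S2 H hf h (CCf_v_mem H a i)
  unfold CCf_l
  rw [CCf_smul_span]
  rcases ext_sl2 H h1 h2 a (fun d hd1 hd2 => CCf_supp h3 hd1 hd2) with ⟨k, hk, h4⟩ | ⟨k, t, hk, h4⟩
  · refine ⟨none, ?_⟩
    rw [h4, CCf_span_smul hk]
    rfl
  · refine ⟨some t, ?_⟩
    rw [h4, CCf_span_smul hk]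
    rfl

theorem CCf_T (H : Hyp C K) (a : Rt C) {t : LL C K ≃ₗ[K] LL C K} (ht : t ∈ TT C K)
    (s : K) : t • CCf_l a (some s) = CCf_l a (some (wt t a * s)) := by
  unfold CCf_l
  rw [CCf_smul_span]
  have h1 : t (CCf_v a (some s)) = wt t (ng a) • CCf_v a (some (wt t a * s)) := by
    show t (xr a s (e K (ng a))) = wt t (ng a) • xr a (wt t a * s) (e K (ng a))
    rw [← TT_conj_xr H ht, ← map_smul, ← TT_e H ht]
    show t (xr a s (e K (ng a))) = t (xr a s (t⁻¹ (t (e K (ng a)))))
    rw [nor_apply_inv]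
  rw [h1, CCf_span_smul (wt_ne_zero H ht _)]

theorem CCf_T0 (H : Hyp C K) (a : Rt C) {t : LL C K ≃ₗ[K] LL C K} (ht : t ∈ TT C K) :
    t • CCf_l (K := K) a none = CCf_l (K := K) a none := by
  unfold CCf_l
  rw [CCf_smul_span]
  show Submodule.span K {t (e K a)} = Submodule.span K {e K a}
  rw [TT_e H ht, CCf_span_smul (wt_ne_zero H ht _)]

/-- `F` does not fix the line of `a` -/
theorem CCf_fp (H : Hyp C K) {p : ℕ} [Fact p.Prime] [CharP K p] (X : Ctx F) {a : Rt C}
    (ha : a ∈ PZ F) : ∃ f ∈ F, ∀ k : K, f (e K a) ≠ k • e K a := by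
  by_contra hcon
  push Not at hcon
  have h1 : F ≤ Par C K a.1 := by
    intro f hf
    obtain ⟨k, hk⟩ := hcon f hf
    exact ⟨X.hF hf, fun i x => Fil_map H (X.hF hf) hk i x⟩
  have h2 : ∀ c : Kˣ, ((c : K)) ^ 2 = 1 := by
    intro c
    have h3 := ha _ (fp (p := p) H X a.1 h1 c)
    rw [wt_hd, CCf_ipaa] at h3
    rw [← h3]
    norm_cast
  have h4 : (Set.univ : Set K) ⊆ {0, 1, -1} := by
    intro c _
    by_cases h0 : c = 0
    · exact Or.inl h0
    · have h5 := h2 (Units.mk0 c h0)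
      rw [Units.val_mk0, sq, mul_self_eq_one_iff] at h5
      exact Or.inr h5
  have h5 : (Set.univ : Set K).ncard ≤ ({0, 1, -1} : Set K).ncard :=
    Set.ncard_le_ncard h4 (Set.toFinite _)
  have h6 : ({0, 1, -1} : Set K).ncard ≤ 3 := by
    refine (Set.ncard_insert_le _ _).trans ?_
    have := Set.ncard_insert_le (1 : K) {-1}
    rw [Set.ncard_singleton] at this
    omega
  rw [Set.ncard_univ] at h5
  rcases H.card with h | h | h <;> omega

theorem CCf_x1 (H : Hyp C K) (a : Rt C) :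
    CCf_l a (some (0 : K)) = Submodule.span K {e K (ng a)} := by
  unfold CCf_l
  rw [CCf_v_some H, zero_smul, sub_zero, zero_pow two_ne_zero, zero_smul, add_zero]

/-- three fixed lines -/
theorem CCf_three (H : Hyp C K) {a : Rt C} {f : LL C K ≃ₗ[K] LL C K} (hf : f ∈ GG C K)
    (h : f (e K a) ∈ S2 K a ∧ f (e K (ng a)) ∈ S2 K a) {i j k : Option K}
    (hij : i ≠ j) (hik : i ≠ k) (hjk : j ≠ k) (h1 : f • CCf_l a i = CCf_l a i)
    (h2 : f • CCf_l a j = CCf_l a j) (h3 : f • CCf_l a k = CCf_l a k) (m : Option K) :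
    f • CCf_l a m = CCf_l a m := by
  unfold CCf_l at h1 h2 h3
  rw [CCf_smul_span] at h1 h2 h3
  obtain ⟨p, hp⟩ := CCf_eq_smul h1
  obtain ⟨q, hq⟩ := CCf_eq_smul h2
  obtain ⟨r, hr⟩ := CCf_eq_smul h3
  have pr : ∀ {s t : Option K} {x y : K}, s ≠ t → f (CCf_v a s) = x • CCf_v a s →
      f (CCf_v a t) = y • CCf_v a t → x * y = 1 := by
    intro s t x y hst hx hy
    have e1 := hf.2 (CCf_v a s) (CCf_v a t)
    rw [hx, hy, map_smul, map_smul, LinearMap.smul_apply, smul_smul, smul_eq_mul] at e1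
    have e2 := CCf_fm_ne H a hst
    have e3 : (y * x - 1) * fm (CCf_v a s) (CCf_v a t) = 0 := by linear_combination e1
    have e4 := (mul_eq_zero.1 e3).resolve_right e2
    linear_combination e4
  have epq := pr hij hp hq
  have epr := pr hik hp hr
  have eqr := pr hjk hq hr
  have hp0 : p ≠ 0 := left_ne_zero_of_mul_eq_one epq
  have hqr : q = r := mul_left_cancel₀ hp0 (epq.trans epr.symm)
  have hr0 : r ≠ 0 := right_ne_zero_of_mul_eq_one epr
  have hpq : p = q := mul_right_cancel₀ hr0 (epr.trans eqr.symm)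
  subst hqr
  subst hpq
  have key : ∀ {v : LL C K} {s : Option K}, f (CCf_v a s) = p • CCf_v a s →
      fm (f v - p • v) (CCf_v a s) = 0 := by
    intro v s hs
    have e1 := hf.2 v (CCf_v a s)
    rw [hs, map_smul, smul_eq_mul] at e1
    rw [map_sub, map_smul, LinearMap.sub_apply, LinearMap.smul_apply, smul_eq_mul]
    linear_combination p * e1 - fm (f v) (CCf_v a s) * epq
  have h4 : f (CCf_v a m) - p • CCf_v a m = 0 :=
    CCf_nondeg H a (sub_mem (CCf_map_S2 H hf h (CCf_v_mem H a m))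
      (Submodule.smul_mem _ _ (CCf_v_mem H a m))) hij hik hjk (key hp) (key hq) (key hr)
  unfold CCf_l
  rw [CCf_smul_span, sub_eq_zero.1 h4, CCf_span_smul hp0]

theorem rank1 (H : Hyp C K) {p : ℕ} [Fact p.Prime] [CharP K p] (X : Ctx F) {a : Rt C}
    (ha : a ∈ PZ F) (hinv : ∀ f ∈ F, f (e K a) ∈ S2 K a ∧ f (e K (ng a)) ∈ S2 K a) :
    ∀ f ∈ F, ((∃ k : K, f (e K a) = k • e K a) ∧ ∃ k : K, f (e K (ng a)) = k • e K (ng a)) ∨
      ((∃ k : K, f (e K a) = k • e K (ng a)) ∧ ∃ k : K, f (e K (ng a)) = k • e K a) := by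
  classical
  have hfin : Finite K := Nat.finite_of_card_ne_zero (by rcases H.card with h | h | h <;> omega)
  have x1e := CCf_x1 (K := K) H a
  have x0e : CCf_l (K := K) a none = Submodule.span K {e K a} := rfl
  have mv : ∀ f ∈ F, ∀ i, ∃ j, f • CCf_l (K := K) a i = CCf_l (K := K) a j :=
    fun f hf i => CCf_perm H (X.hF hf) (hinv f hf) i
  have T0 : ∀ t ∈ T1 C K, t • CCf_l (K := K) a none = CCf_l (K := K) a none :=
    fun t ht => CCf_T0 H a (T1_le_TT H ht)
  have Ts : ∀ t ∈ T1 C K, ∀ s : K, t • CCf_l a (some s) = CCf_l a (some (wt t a * s)) :=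
    fun t ht s => CCf_T H a (T1_le_TT H ht) s
  have T1f : ∀ t ∈ T1 C K, t • CCf_l a (some (0 : K)) = CCf_l a (some (0 : K)) := by
    intro t ht
    rw [Ts t ht, mul_zero]
  have Tt : ∀ s s' : K, s ≠ 0 → s' ≠ 0 →
      ∃ t ∈ T1 C K, t • CCf_l a (some s) = CCf_l a (some s') := by
    intro s s' hs hs'
    obtain ⟨t, ht, hw⟩ := T1_surj H a (c := s' / s) (div_ne_zero hs' hs)
    refine ⟨t, ht, ?_⟩
    rw [Ts t ht, hw, div_mul_cancel₀ _ hs]
  have h01 : CCf_l (K := K) a none ≠ CCf_l (K := K) a (some 0) := by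
    intro h
    have := CCf_inj H a h
    simp at this
  by_contra hcon
  simp only [not_forall] at hcon
  obtain ⟨f0, hf0, hb⟩ := hcon
  -- some element moves one of the two lines out of the pair
  have hA : ∃ f ∈ F, ∃ s : K, s ≠ 0 ∧ (f • CCf_l a none = CCf_l a (some s) ∨
      f • CCf_l a (some (0 : K)) = CCf_l a (some s)) := by
    by_contra hno
    have hn : ∀ s : K, s ≠ 0 → f0 • CCf_l a none ≠ CCf_l a (some s) ∧
        f0 • CCf_l a (some (0 : K)) ≠ CCf_l a (some s) := by
      intro s hs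
      exact ⟨fun h => hno ⟨f0, hf0, s, hs, Or.inl h⟩, fun h => hno ⟨f0, hf0, s, hs, Or.inr h⟩⟩
    have two : ∀ i j : Option K, f0 • CCf_l a i = CCf_l a j →
        (∀ s : K, s ≠ 0 → f0 • CCf_l a i ≠ CCf_l a (some s)) → j = none ∨ j = some 0 := by
      intro i j hj hne
      cases j with
      | none => exact Or.inl rfl
      | some s =>
        by_cases hs : s = 0
        · exact Or.inr (by rw [hs])
        · exact absurd hj (hne s hs)
    obtain ⟨j0, hj0⟩ := mv f0 hf0 none
    obtain ⟨j1, hj1⟩ := mv f0 hf0 (some 0)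
    have k0 := two _ _ hj0 fun s hs => (hn s hs).1
    have k1 := two _ _ hj1 fun s hs => (hn s hs).2
    have hne : j0 ≠ j1 := by
      intro h
      rw [h, ← hj1] at hj0
      exact h01 (smul_left_cancel f0 hj0)
    have cv : ∀ (u v : LL C K), f0 • Submodule.span K {u} = Submodule.span K {v} →
        ∃ k : K, f0 u = k • v := by
      intro u v huv
      rw [CCf_smul_span] at huv
      exact CCf_eq_smul huv
    rw [x0e] at hj0
    rw [x1e] at hj1
    rcases k0 with rfl | rfl
    · rcases k1 with rfl | rfl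
      · exact hne rfl
      · rw [x0e] at hj0
        rw [x1e] at hj1
        exact hb (Or.inl ⟨cv _ _ hj0, cv _ _ hj1⟩)
    · rcases k1 with rfl | rfl
      · rw [x1e] at hj0
        rw [x0e] at hj1
        exact hb (Or.inr ⟨cv _ _ hj0, cv _ _ hj1⟩)
      · exact hne rfl
  -- transitivity
  have hFt : ∀ j : Option K, ∃ f ∈ F, f • CCf_l a none = CCf_l a j := by
    obtain ⟨g, hg, hgn⟩ := CCf_fp (p := p) H X ha
    have hgx : g • CCf_l (K := K) a none ≠ CCf_l (K := K) a none := by
      intro h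
      rw [x0e, CCf_smul_span] at h
      obtain ⟨k, hk⟩ := CCf_eq_smul h
      exact hgn k hk
    obtain ⟨g', hg', hgn'⟩ := CCf_fp (p := p) H X (PZ_ng H X ha)
    have hgx' : g' • CCf_l a (some (0 : K)) ≠ CCf_l a (some (0 : K)) := by
      intro h
      rw [x1e, CCf_smul_span] at h
      obtain ⟨k, hk⟩ := CCf_eq_smul h
      exact hgn' k hk
    have rest : ∀ s : K, s ≠ 0 → (∃ f ∈ F, f • CCf_l a none = CCf_l a (some s)) →
        ∀ s' : K, s' ≠ 0 → ∃ f ∈ F, f • CCf_l a none = CCf_l a (some s') := by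
      rintro s hs ⟨f, hf, hfs⟩ s' hs'
      obtain ⟨t, ht, hts⟩ := Tt s s' hs hs'
      exact ⟨t * f, mul_mem (X.hT ht) hf, by rw [mul_smul, hfs, hts]⟩
    obtain ⟨j, hj⟩ := mv g hg none
    have hmain : (∃ f ∈ F, f • CCf_l a none = CCf_l a (some (0 : K))) ∧
        ∀ s' : K, s' ≠ 0 → ∃ f ∈ F, f • CCf_l a none = CCf_l a (some s') := by
      cases j with
      | none => exact absurd hj hgx
      | some s =>
        by_cases hs : s = 0
        · rw [hs] at hj
          refine ⟨⟨g, hg, hj⟩, ?_⟩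
          obtain ⟨f, hf, s1, hs1, h1 | h1⟩ := hA
          · exact rest s1 hs1 ⟨f, hf, h1⟩
          · exact rest s1 hs1 ⟨f * g, mul_mem hf hg, by rw [mul_smul, hj, h1]⟩
        · have h2 := rest s hs ⟨g, hg, hj⟩
          refine ⟨?_, h2⟩
          obtain ⟨j', hj'⟩ := mv g' hg' (some 0)
          have h3 : ∃ f ∈ F, f • CCf_l a none = CCf_l (K := K) a j' := by
            cases j' with
            | none => exact ⟨1, one_mem _, one_smul _ _⟩
            | some s1 =>
              by_cases hs1 : s1 = 0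
              · rw [hs1] at hj'
                exact absurd hj' hgx'
              · exact h2 s1 hs1
          obtain ⟨f, hf, h4⟩ := h3
          exact ⟨g'⁻¹ * f, mul_mem (inv_mem hg') hf, by
            rw [mul_smul, h4, ← hj', inv_smul_smul]⟩
    intro j
    cases j with
    | none => exact ⟨1, one_mem _, one_smul _ _⟩
    | some s =>
      by_cases hs : s = 0
      · rw [hs]
        exact hmain.1
      · exact hmain.2 s hs
  -- the stabiliser
  have hst : ∀ f ∈ F, f • CCf_l (K := K) a none = CCf_l (K := K) a none →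
      f • CCf_l a (some (0 : K)) = CCf_l a (some (0 : K)) := by
    have hle : F ⊓ MulAction.stabilizer (LL C K ≃ₗ[K] LL C K) (CCf_l (K := K) a none) ≤
        NN C K := by
      refine X.hmin _ inf_le_left (le_inf X.hT fun t ht => ?_) ?_
      · rw [MulAction.mem_stabilizer_iff]
        exact T0 t ht
      · intro h
        obtain ⟨f, hf, hfx⟩ := hFt (some 0)
        rw [← h] at hf
        have h2 := MulAction.mem_stabilizer_iff.1 hf.2
        exact h01 (h2.symm.trans hfx)
    intro f hf hfx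
    have hN : f ∈ NN C K := hle ⟨hf, MulAction.mem_stabilizer_iff.2 hfx⟩
    obtain ⟨w, k, hk, hw, -, hwn, -⟩ := NN_perm H hN
    rw [x0e, CCf_smul_span] at hfx
    obtain ⟨l, hl⟩ := CCf_eq_smul hfx
    have h1 : w a = a := nor_root_eq (hk a) ((hw a).symm.trans hl)
    have h2 : f (e K (ng a)) = k (ng a) • e K (ng a) := by
      rw [hw, hwn, h1]
    rw [x1e, CCf_smul_span, h2, CCf_span_smul (hk _)]
  refine partner F (T1 C K) X.hT (fun s hs t ht => TT_comm H (T1_le_TT H hs) (T1_le_TT H ht))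
    (Set.range (fun i : Option K => CCf_l a i)) (Set.finite_range _) ?_ ?_
    (x0 := CCf_l a none) (x1 := CCf_l a (some 0)) ⟨none, rfl⟩ ⟨some 0, rfl⟩ h01 T0 T1f ?_ ?_ hst ?_
  · rw [← Set.image_univ, Set.ncard_image_of_injective _ (fun i j h => CCf_inj H a h),
      Set.ncard_univ, Finite.card_option]
    rcases H.card with h | h | h <;> omega
  · rintro f hf _ ⟨i, rfl⟩
    obtain ⟨j, hj⟩ := mv f hf i
    exact ⟨j, hj.symm⟩
  · rintro _ ⟨i, rfl⟩ _ ⟨j, rfl⟩ hi0 hi1 hj0 hj1
    cases i with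
    | none => exact absurd rfl hi0
    | some s =>
      cases j with
      | none => exact absurd rfl hj0
      | some s' =>
        exact Tt s s' (fun h => hi1 (by rw [h])) (fun h => hj1 (by rw [h]))
  · rintro _ ⟨j, rfl⟩
    exact hFt j
  · rintro f hf ⟨_, ⟨i, rfl⟩, _, ⟨j, rfl⟩, _, ⟨k, rfl⟩, hij, hik, hjk, h1, h2, h3⟩ _ ⟨m, rfl⟩
    exact CCf_three H (X.hF hf) (hinv f hf) (fun h => hij (by rw [h])) (fun h => hik (by rw [h]))
      (fun h => hjk (by rw [h])) h1 h2 h3 m

end Pool.Agent.H33.EL
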