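import Pool.Agent.H33.EL.CCe

/-!
# EL-49: the matrix model of `sl_3`

Roots `a, b, c` with `c = a + b`.  `Jm a b c : M_3(K) → LL` maps `E01 ↦ e_a`, `E12 ↦ e_b`,
`E02 ↦ ε(a,b) e_c`, `E10 ↦ -e_(-a)`, `E21 ↦ -e_(-b)`, `E20 ↦ ε(b,a) e_(-c)`,
`E00 - E11 ↦ h_a`, `E11 - E22 ↦ h_b`; on trace zero matrices it is an injective
homomorphism of Lie algebras (`h_a`, `h_b` are independent by `H.ra`).
`Cj g f`: `f (Jm M) = Jm (g M g⁻¹)` for trace zero `M`; `Aj g f`: `f (Jm M) = -Jm (g Mᵀ g⁻¹)`.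
`J_xr`: for each of the six roots `d`, `xr d s` is conjugation by an elementary matrix:
`d = a`: `g = 1 + s E01`; `c`: `1 + s ε(a,b) E02` (`e_c = ε(a,b) Jm E02`); `-a`: `1 - s E10`;
`-c`: `1 + s ε(b,a) E20`; similarly `b`, `-b`.  It suffices: `xr d s = 1 + s ad + (s²/2) ad²` and
`(1 + s E) M (1 - s E) = M + s [E,M] - s² E M E`, `E² = 0`, `ad(E)² M = -2 E M E`, and
`Jm` is a homomorphism on trace zero matrices (`J_br`).
-/

namespace Pool.Agent.H33.EL

variable {n : ℕ} {C : Matrix (Fin n) (Fin n) ℤ} {K : Type} [Field K] [Fintype (Rt C)]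

/-- the matrix model -/
def Jm (K : Type) [Field K] (a b c : Rt C) : Matrix (Fin 3) (Fin 3) K →ₗ[K] LL C K where
  toFun M := M 0 1 • e K a + M 1 2 • e K b + (M 0 2 * ek K C a.1 b.1) • e K c
    - M 1 0 • e K (ng a) - M 2 1 • e K (ng b) + (M 2 0 * ek K C b.1 a.1) • e K (ng c)
    + M 0 0 • hh C (zk a.1) + (M 0 0 + M 1 1) • hh C (zk b.1)
  map_add' M N := by
    simp only [Matrix.add_apply, add_mul, add_smul]
    abel
  map_smul' s M := by
    simp only [Matrix.smul_apply, smul_eq_mul, RingHom.id_apply, smul_add, smul_sub, smul_smul,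
      mul_add, mul_assoc, add_smul]

/-- conjugation type -/
def Cj (a b c : Rt C) (g : (Matrix (Fin 3) (Fin 3) K)ˣ) (f : LL C K ≃ₗ[K] LL C K) : Prop :=
  ∀ M : Matrix (Fin 3) (Fin 3) K, M.trace = 0 →
    f (Jm K a b c M) = Jm K a b c ((g : Matrix (Fin 3) (Fin 3) K) * M * ((g⁻¹ :
      (Matrix (Fin 3) (Fin 3) K)ˣ) : Matrix (Fin 3) (Fin 3) K))

/-- graph type -/
def Aj (a b c : Rt C) (g : (Matrix (Fin 3) (Fin 3) K)ˣ) (f : LL C K ≃ₗ[K] LL C K) : Prop :=
  ∀ M : Matrix (Fin 3) (Fin 3) K, M.trace = 0 →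
    f (Jm K a b c M) = -Jm K a b c ((g : Matrix (Fin 3) (Fin 3) K) * M.transpose * ((g⁻¹ :
      (Matrix (Fin 3) (Fin 3) K)ˣ) : Matrix (Fin 3) (Fin 3) K))

variable {a b c : Rt C}

/-- the span of eight elements with the structure constants of `sl_3` -/
private theorem sl3_abs {L : Type*} [AddCommGroup L] [Module K L] (B : L →ₗ[K] L →ₗ[K] L)
    (sk : ∀ x y, B x y = -B y x) (sf : ∀ x, B x x = 0) {ea eb ec fa fb fc ha hb : L}
    (t1 : B ea eb = ec) (t2 : B ea ec = 0) (t3 : B ea fa = ha) (t4 : B ea fb = 0)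
    (t5 : B ea fc = -fb) (t6 : B eb ec = 0) (t7 : B eb fa = 0) (t8 : B eb fb = hb)
    (t9 : B eb fc = fa) (t10 : B ec fa = -eb) (t11 : B ec fb = ea) (t12 : B ec fc = ha + hb)
    (t13 : B fa fb = -fc) (t14 : B fa fc = 0) (t15 : B fb fc = 0)
    (s1 : B ha ea = (2 : K) • ea) (s2 : B ha eb = -eb) (s3 : B ha ec = ec)
    (s4 : B ha fa = -((2 : K) • fa)) (s5 : B ha fb = fb) (s6 : B ha fc = -fc)
    (s7 : B hb ea = -ea) (s8 : B hb eb = (2 : K) • eb) (s9 : B hb ec = ec)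
    (s10 : B hb fa = fa) (s11 : B hb fb = -((2 : K) • fb)) (s12 : B hb fc = -fc)
    (s13 : B ha hb = 0) (M N : Matrix (Fin 3) (Fin 3) K) (hM : M 2 2 = -(M 0 0 + M 1 1))
    (hN : N 2 2 = -(N 0 0 + N 1 1)) :
    B (M 0 1 • ea + M 1 2 • eb + M 0 2 • ec + M 1 0 • fa + M 2 1 • fb + M 2 0 • fc + M 0 0 • ha +
        (M 0 0 + M 1 1) • hb)
      (N 0 1 • ea + N 1 2 • eb + N 0 2 • ec + N 1 0 • fa + N 2 1 • fb + N 2 0 • fc + N 0 0 • ha +
        (N 0 0 + N 1 1) • hb) =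
      (M * N - N * M) 0 1 • ea + (M * N - N * M) 1 2 • eb + (M * N - N * M) 0 2 • ec +
        (M * N - N * M) 1 0 • fa + (M * N - N * M) 2 1 • fb + (M * N - N * M) 2 0 • fc +
        (M * N - N * M) 0 0 • ha + ((M * N - N * M) 0 0 + (M * N - N * M) 1 1) • hb := by
  have u1 : B eb ea = -ec := by rw [sk, t1]
  have u2 : B ec ea = 0 := by rw [sk, t2, neg_zero]
  have u3 : B fa ea = -ha := by rw [sk, t3]
  have u4 : B fb ea = 0 := by rw [sk, t4, neg_zero]
  have u5 : B fc ea = fb := by rw [sk, t5, neg_neg]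
  have u6 : B ec eb = 0 := by rw [sk, t6, neg_zero]
  have u7 : B fa eb = 0 := by rw [sk, t7, neg_zero]
  have u8 : B fb eb = -hb := by rw [sk, t8]
  have u9 : B fc eb = -fa := by rw [sk, t9]
  have u10 : B fa ec = eb := by rw [sk, t10, neg_neg]
  have u11 : B fb ec = -ea := by rw [sk, t11]
  have u12 : B fc ec = -(ha + hb) := by rw [sk, t12]
  have u13 : B fb fa = fc := by rw [sk, t13, neg_neg]
  have u14 : B fc fa = 0 := by rw [sk, t14, neg_zero]
  have u15 : B fc fb = 0 := by rw [sk, t15, neg_zero]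
  have v1 : B ea ha = -((2 : K) • ea) := by rw [sk, s1]
  have v2 : B eb ha = eb := by rw [sk, s2, neg_neg]
  have v3 : B ec ha = -ec := by rw [sk, s3]
  have v4 : B fa ha = (2 : K) • fa := by rw [sk, s4, neg_neg]
  have v5 : B fb ha = -fb := by rw [sk, s5]
  have v6 : B fc ha = fc := by rw [sk, s6, neg_neg]
  have v7 : B ea hb = ea := by rw [sk, s7, neg_neg]
  have v8 : B eb hb = -((2 : K) • eb) := by rw [sk, s8]
  have v9 : B ec hb = -ec := by rw [sk, s9]
  have v10 : B fa hb = -fa := by rw [sk, s10]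
  have v11 : B fb hb = (2 : K) • fb := by rw [sk, s11, neg_neg]
  have v12 : B fc hb = fc := by rw [sk, s12, neg_neg]
  have v13 : B hb ha = 0 := by rw [sk, s13, neg_zero]
  simp only [map_add, map_smul, LinearMap.add_apply, LinearMap.smul_apply, sf, t1, t2, t3, t4, t5,
    t6, t7, t8, t9, t10, t11, t12, t13, t14, t15, s1, s2, s3, s4, s5, s6, s7, s8, s9, s10, s11,
    s12, s13, u1, u2, u3, u4, u5, u6, u7, u8, u9, u10, u11, u12, u13, u14, u15, v1, v2, v3, v4,
    v5, v6, v7, v8, v9, v10, v11, v12, v13, Matrix.sub_apply, Matrix.mul_apply,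
    Fin.sum_univ_three, hM, hN]
  module

private theorem Jm_eq (M : Matrix (Fin 3) (Fin 3) K) :
    Jm K a b c M = M 0 1 • e K a + M 1 2 • e K b + M 0 2 • (ek K C a.1 b.1 • e K c) +
      M 1 0 • (-e K (ng a)) + M 2 1 • (-e K (ng b)) + M 2 0 • (ek K C b.1 a.1 • e K (ng c)) +
      M 0 0 • hh C (zk a.1) + (M 0 0 + M 1 1) • hh C (zk b.1) := by
  show M 0 1 • e K a + M 1 2 • e K b + (M 0 2 * ek K C a.1 b.1) • e K c
    - M 1 0 • e K (ng a) - M 2 1 • e K (ng b) + (M 2 0 * ek K C b.1 a.1) • e K (ng c)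
    + M 0 0 • hh C (zk a.1) + (M 0 0 + M 1 1) • hh C (zk b.1) = _
  module

/-- the inner products of the roots -/
private structure Ips (a b c : Rt C) : Prop where
  ab : ip C a.1 b.1 = -1
  ba : ip C b.1 a.1 = -1
  ac : ip C a.1 c.1 = 1
  ca : ip C c.1 a.1 = 1
  bc : ip C b.1 c.1 = 1
  cb : ip C c.1 b.1 = 1
  aa : ip C a.1 a.1 = 2
  bb : ip C b.1 b.1 = 2
  cc : ip C c.1 c.1 = 2

private theorem ips (H : Hyp C K) (hc : c.1 = a.1 + b.1) : Ips a b c := by
  have h1 : ip C a.1 b.1 = -1 := ip_of_root_add H (by rw [← hc]; exact c.2)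
  have h2 : ip C b.1 a.1 = -1 := by rw [ip_comm H.symm, h1]
  have haa : ip C a.1 a.1 = 2 := a.2
  have hbb : ip C b.1 b.1 = 2 := b.2
  have hcc : ip C c.1 c.1 = 2 := c.2
  have h3 : ip C a.1 c.1 = 1 := by rw [hc, ip_add_right, haa, h1]; norm_num
  have h4 : ip C b.1 c.1 = 1 := by rw [hc, ip_add_right, hbb, h2]; norm_num
  exact ⟨h1, h2, h3, by rw [ip_comm H.symm, h3], h4, by rw [ip_comm H.symm, h4], haa, hbb, hcc⟩

private theorem tr22 {M : Matrix (Fin 3) (Fin 3) K} (hM : M.trace = 0) :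
    M 2 2 = -(M 0 0 + M 1 1) := by
  rw [Matrix.trace_fin_three] at hM
  linear_combination hM

private theorem e_snd_if (x r : Rt C) : (e K x).2 r = if r = x then 1 else 0 := by
  by_cases h : r = x
  · rw [if_pos h, h, e_snd_self]
  · rw [if_neg h, e_snd_ne h]

private theorem Jm_snd (M : Matrix (Fin 3) (Fin 3) K) (r : Rt C) :
    (Jm K a b c M).2 r = M 0 1 * (if r = a then 1 else 0) + M 1 2 * (if r = b then 1 else 0) +
      M 0 2 * ek K C a.1 b.1 * (if r = c then 1 else 0) - M 1 0 * (if r = ng a then 1 else 0) -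
      M 2 1 * (if r = ng b then 1 else 0) +
      M 2 0 * ek K C b.1 a.1 * (if r = ng c then 1 else 0) := by
  show (M 0 1 • e K a + M 1 2 • e K b + (M 0 2 * ek K C a.1 b.1) • e K c
    - M 1 0 • e K (ng a) - M 2 1 • e K (ng b) + (M 2 0 * ek K C b.1 a.1) • e K (ng c)
    + M 0 0 • hh C (zk a.1) + (M 0 0 + M 1 1) • hh C (zk b.1)).2 r = _
  simp only [Prod.snd_add, Prod.snd_sub, Prod.smul_snd, Pi.add_apply, Pi.sub_apply,
    Pi.smul_apply, smul_eq_mul, e_snd_if, hh_snd, mul_zero, add_zero]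

private theorem Jm_fst (M : Matrix (Fin 3) (Fin 3) K) :
    (Jm K a b c M).1 = M 0 0 • zk a.1 + (M 0 0 + M 1 1) • zk b.1 := by
  show (M 0 1 • e K a + M 1 2 • e K b + (M 0 2 * ek K C a.1 b.1) • e K c
    - M 1 0 • e K (ng a) - M 2 1 • e K (ng b) + (M 2 0 * ek K C b.1 a.1) • e K (ng c)
    + M 0 0 • hh C (zk a.1) + (M 0 0 + M 1 1) • hh C (zk b.1)).1 = _
  simp only [Prod.fst_add, Prod.fst_sub, Prod.smul_fst, e_fst, hh_fst, smul_zero, add_zero,
    sub_zero, zero_add]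

/-- the values of the root coordinates -/
private theorem Jm_vals (H : Hyp C K) (hc : c.1 = a.1 + b.1) (M : Matrix (Fin 3) (Fin 3) K) :
    (Jm K a b c M).2 a = M 0 1 ∧ (Jm K a b c M).2 b = M 1 2 ∧
      (Jm K a b c M).2 c = M 0 2 * ek K C a.1 b.1 ∧ (Jm K a b c M).2 (ng a) = -M 1 0 ∧
      (Jm K a b c M).2 (ng b) = -M 2 1 ∧ (Jm K a b c M).2 (ng c) = M 2 0 * ek K C b.1 a.1 := by
  have I := ips H hc
  have hne : ∀ x y : Rt C, (ip C a.1 x.1 ≠ ip C a.1 y.1 ∨ ip C b.1 x.1 ≠ ip C b.1 y.1) →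
      ¬ x = y := by
    rintro x y h rfl
    rcases h with h | h
    · exact h rfl
    · exact h rfl
  have key : ∀ x y : Rt C, ∀ p q p' q' : ℤ, ip C a.1 x.1 = p → ip C b.1 x.1 = q →
      ip C a.1 y.1 = p' → ip C b.1 y.1 = q' → (p ≠ p' ∨ q ≠ q') → ¬ x = y := by
    rintro x y p q p' q' rfl rfl rfl rfl h
    exact hne x y h
  have a1 := I.aa
  have a2 := I.ba
  have b1 := I.ab
  have b2 := I.bb
  have c1 := I.ac
  have c2 := I.bc
  have na1 : ip C a.1 (ng a).1 = -2 := by rw [ng_val, ip_neg_right, a1]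
  have na2 : ip C b.1 (ng a).1 = 1 := by rw [ng_val, ip_neg_right, a2]; norm_num
  have nb1 : ip C a.1 (ng b).1 = 1 := by rw [ng_val, ip_neg_right, b1]; norm_num
  have nb2 : ip C b.1 (ng b).1 = -2 := by rw [ng_val, ip_neg_right, b2]
  have nc1 : ip C a.1 (ng c).1 = -1 := by rw [ng_val, ip_neg_right, c1]
  have nc2 : ip C b.1 (ng c).1 = -1 := by rw [ng_val, ip_neg_right, c2]
  have h1 := key a b _ _ _ _ a1 a2 b1 b2 (by norm_num)
  have h2 := key a c _ _ _ _ a1 a2 c1 c2 (by norm_num)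
  have h3 := key a (ng a) _ _ _ _ a1 a2 na1 na2 (by norm_num)
  have h4 := key a (ng b) _ _ _ _ a1 a2 nb1 nb2 (by norm_num)
  have h5 := key a (ng c) _ _ _ _ a1 a2 nc1 nc2 (by norm_num)
  have h6 := key b c _ _ _ _ b1 b2 c1 c2 (by norm_num)
  have h7 := key b (ng a) _ _ _ _ b1 b2 na1 na2 (by norm_num)
  have h8 := key b (ng b) _ _ _ _ b1 b2 nb1 nb2 (by norm_num)
  have h9 := key b (ng c) _ _ _ _ b1 b2 nc1 nc2 (by norm_num)
  have h10 := key c (ng a) _ _ _ _ c1 c2 na1 na2 (by norm_num)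
  have h11 := key c (ng b) _ _ _ _ c1 c2 nb1 nb2 (by norm_num)
  have h12 := key c (ng c) _ _ _ _ c1 c2 nc1 nc2 (by norm_num)
  have h13 := key (ng a) (ng b) _ _ _ _ na1 na2 nb1 nb2 (by norm_num)
  have h14 := key (ng a) (ng c) _ _ _ _ na1 na2 nc1 nc2 (by norm_num)
  have h15 := key (ng b) (ng c) _ _ _ _ nb1 nb2 nc1 nc2 (by norm_num)
  have k1 : ¬ b = a := fun h => h1 h.symm
  have k2 : ¬ c = a := fun h => h2 h.symm
  have k3 : ¬ ng a = a := fun h => h3 h.symm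
  have k4 : ¬ ng b = a := fun h => h4 h.symm
  have k5 : ¬ ng c = a := fun h => h5 h.symm
  have k6 : ¬ c = b := fun h => h6 h.symm
  have k7 : ¬ ng a = b := fun h => h7 h.symm
  have k8 : ¬ ng b = b := fun h => h8 h.symm
  have k9 : ¬ ng c = b := fun h => h9 h.symm
  have k10 : ¬ ng a = c := fun h => h10 h.symm
  have k11 : ¬ ng b = c := fun h => h11 h.symm
  have k12 : ¬ ng c = c := fun h => h12 h.symm
  have k13 : ¬ ng b = ng a := fun h => h13 h.symm
  have k14 : ¬ ng c = ng a := fun h => h14 h.symm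
  have k15 : ¬ ng c = ng b := fun h => h15 h.symm
  refine ⟨?_, ?_, ?_, ?_, ?_, ?_⟩
  · rw [Jm_snd, if_pos rfl, if_neg h1, if_neg h2, if_neg h3, if_neg h4, if_neg h5]
    ring
  · rw [Jm_snd, if_pos rfl, if_neg k1, if_neg h6, if_neg h7, if_neg h8, if_neg h9]
    ring
  · rw [Jm_snd, if_pos rfl, if_neg k2, if_neg k6, if_neg h10, if_neg h11, if_neg h12]
    ring
  · rw [Jm_snd, if_pos rfl, if_neg k3, if_neg k7, if_neg k10, if_neg h13, if_neg h14]
    ring
  · rw [Jm_snd, if_pos rfl, if_neg k4, if_neg k8, if_neg k11, if_neg k13, if_neg h15]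
    ring
  · rw [Jm_snd, if_pos rfl, if_neg k5, if_neg k9, if_neg k12, if_neg k14, if_neg k15]
    ring

theorem J_inj (H : Hyp C K) (hc : c.1 = a.1 + b.1) {M : Matrix (Fin 3) (Fin 3) K}
    (hM : M.trace = 0) (h : Jm K a b c M = 0) : M = 0 := by
  have I := ips H hc
  obtain ⟨v1, v2, v3, v4, v5, v6⟩ := Jm_vals H hc M
  rw [h] at v1 v2 v3 v4 v5 v6
  have h01 : M 0 1 = 0 := v1.symm
  have h12 : M 1 2 = 0 := v2.symm
  have h02 : M 0 2 = 0 := by
    have h1 : M 0 2 * ek K C a.1 b.1 = 0 := v3.symm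
    exact (mul_eq_zero.1 h1).resolve_right (ek_ne_zero _ _)
  have h10 : M 1 0 = 0 := neg_eq_zero.1 v4.symm
  have h21 : M 2 1 = 0 := neg_eq_zero.1 v5.symm
  have h20 : M 2 0 = 0 := by
    have h1 : M 2 0 * ek K C b.1 a.1 = 0 := v6.symm
    exact (mul_eq_zero.1 h1).resolve_right (ek_ne_zero _ _)
  have hf := Jm_fst (a := a) (b := b) (c := c) M
  rw [h] at hf
  have hf' : M 0 0 • (zk a.1 : Fin n → K) + (M 0 0 + M 1 1) • zk b.1 = 0 := hf.symm
  obtain ⟨y, hy1, hy2⟩ := H.ra a b (Or.inr (Or.inr I.ab))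
  obtain ⟨z, hz1, hz2⟩ := H.ra b a (Or.inr (Or.inr I.ba))
  have e1 := congrArg (fun w => fk C (zk y.1) w) hf'
  have e2 := congrArg (fun w => fk C (zk z.1) w) hf'
  beta_reduce at e1 e2
  rw [fk_add_right, fk_smul_right, fk_smul_right, fk_zk_zk, fk_zk_zk, hy1, hy2, fk_zero_right]
    at e1
  rw [fk_add_right, fk_smul_right, fk_smul_right, fk_zk_zk, fk_zk_zk, hz1, hz2, fk_zero_right]
    at e2
  have h00 : M 0 0 = 0 := by
    push_cast at e1
    linear_combination e1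
  have h11 : M 1 1 = 0 := by
    push_cast at e2
    linear_combination e2 - h00
  have h22 : M 2 2 = 0 := by
    rw [tr22 hM, h00, h11]
    ring
  ext i j
  fin_cases i <;> fin_cases j <;> simp [h00, h01, h02, h10, h11, h12, h20, h21, h22]

theorem J_br (H : Hyp C K) (hc : c.1 = a.1 + b.1) {M N : Matrix (Fin 3) (Fin 3) K}
    (hM : M.trace = 0) (hN : N.trace = 0) :
    br (Jm K a b c M) (Jm K a b c N) = Jm K a b c (M * N - N * M) := by
  have I := ips H hc
  have hq : ek K C b.1 a.1 = -ek K C a.1 b.1 := by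
    rw [ek_comm_odd H b.1 a.1 (by rw [I.ba]; exact ⟨-1, by norm_num⟩)]
  have hp : ek K C a.1 b.1 * ek K C a.1 b.1 = 1 := ek_mul_self _ _
  have hac : ek K C a.1 c.1 = -ek K C a.1 b.1 := by
    rw [hc, ek_add_right, ek_self H]
    ring
  have hbc : ek K C b.1 c.1 = ek K C a.1 b.1 := by
    rw [hc, ek_add_right, ek_self H, hq]
    ring
  have hca : ek K C c.1 a.1 = ek K C a.1 b.1 := by
    rw [hc, ek_add_left, ek_self H, hq]
    ring
  have hcb : ek K C c.1 b.1 = -ek K C a.1 b.1 := by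
    rw [hc, ek_add_left, ek_self H]
    ring
  have nsmul : ∀ (k : K) (x y : LL C K), br (k • x) y = k • br x y := fun k x y => by
    rw [map_smul, LinearMap.smul_apply]
  have nneg : ∀ (x y : LL C K), br (-x) y = -br x y := fun x y => by
    rw [map_neg, LinearMap.neg_apply]
  rw [Jm_eq, Jm_eq, Jm_eq]
  refine sl3_abs br (br_skew H) (br_self H) ?_ ?_ ?_ ?_ ?_ ?_ ?_ ?_ ?_ ?_ ?_ ?_ ?_ ?_ ?_ ?_ ?_ ?_
    ?_ ?_ ?_ ?_ ?_ ?_ ?_ ?_ ?_ ?_ M N (tr22 hM) (tr22 hN)
  · exact br_e_e_add H hc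
  · rw [map_smul, br_e_e_zero H (by rw [I.ac]; norm_num), smul_zero]
  · rw [map_neg, br_e_ng H, neg_neg]
  · rw [map_neg, br_e_e_zero H (by rw [ng_val, ip_neg_right, I.ab]; norm_num), neg_zero]
  · rw [map_smul, br_e_e_add H (c := ng b) (by rw [ng_val, ng_val, hc]; abel), ng_val,
      ek_neg_right, hac, smul_smul, hq, neg_neg, neg_mul_neg, hp, one_smul]
  · rw [map_smul, br_e_e_zero H (by rw [I.bc]; norm_num), smul_zero]
  · rw [map_neg, br_e_e_zero H (by rw [ng_val, ip_neg_right, I.ba]; norm_num), neg_zero]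
  · rw [map_neg, br_e_ng H, neg_neg]
  · rw [map_smul, br_e_e_add H (c := ng a) (by rw [ng_val, ng_val, hc]; abel), ng_val,
      ek_neg_right, hbc, smul_smul, hq, neg_mul, hp, neg_one_smul]
  · rw [nsmul, map_neg, br_e_e_add H (c := b) (by rw [ng_val, hc]; abel), ng_val,
      ek_neg_right, hca, smul_neg, smul_smul, hp, one_smul]
  · rw [nsmul, map_neg, br_e_e_add H (c := a) (by rw [ng_val, hc]; abel), ng_val,
      ek_neg_right, hcb, smul_neg, smul_smul, mul_neg, hp, neg_one_smul, neg_neg]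
  · rw [nsmul, map_smul, br_e_ng H, smul_smul, hq, mul_neg, hp, neg_one_smul, neg_neg, hc,
      zk_add, hh_add]
  · rw [nneg, map_neg, neg_neg, br_e_e_add H (c := ng c) (by rw [ng_val, ng_val, ng_val, hc]; abel),
      ng_val, ng_val, ek_neg_left, ek_neg_right, hq, neg_smul, neg_neg]
  · rw [nneg, map_smul, br_e_e_zero H
      (by rw [ng_val, ng_val, ip_neg_right, ip_neg_left, I.ac]; norm_num), smul_zero, neg_zero]
  · rw [nneg, map_smul, br_e_e_zero H
      (by rw [ng_val, ng_val, ip_neg_right, ip_neg_left, I.bc]; norm_num), smul_zero, neg_zero]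
  · rw [br_hh_e, fk_zk_zk, I.aa]
    norm_num
  · rw [br_hh_e, fk_zk_zk, I.ab]
    norm_num
  · rw [map_smul, br_hh_e, fk_zk_zk, I.ac]
    norm_num
  · rw [map_neg, br_hh_e, fk_zk_zk, ng_val, ip_neg_right, I.aa]
    norm_num
  · rw [map_neg, br_hh_e, fk_zk_zk, ng_val, ip_neg_right, I.ab]
    norm_num
  · rw [map_smul, br_hh_e, fk_zk_zk, ng_val, ip_neg_right, I.ac]
    norm_num
  · rw [br_hh_e, fk_zk_zk, I.ba]
    norm_num
  · rw [br_hh_e, fk_zk_zk, I.bb]
    norm_num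
  · rw [map_smul, br_hh_e, fk_zk_zk, I.bc]
    norm_num
  · rw [map_neg, br_hh_e, fk_zk_zk, ng_val, ip_neg_right, I.ba]
    norm_num
  · rw [map_neg, br_hh_e, fk_zk_zk, ng_val, ip_neg_right, I.bb]
    norm_num
  · rw [map_smul, br_hh_e, fk_zk_zk, ng_val, ip_neg_right, I.bc]
    norm_num
  · exact br_hh_hh _ _

theorem Cj_mul {g g' : (Matrix (Fin 3) (Fin 3) K)ˣ} {f f' : LL C K ≃ₗ[K] LL C K}
    (h : Cj a b c g f) (h' : Cj a b c g' f') : Cj a b c (g * g') (f * f') := by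
  intro M hM
  rw [LinearEquiv.mul_apply, h' M hM, h _ (by rw [Matrix.trace_units_conj]; exact hM),
    mul_inv_rev, Units.val_mul, Units.val_mul]
  simp only [mul_assoc]

theorem Cj_inv {g : (Matrix (Fin 3) (Fin 3) K)ˣ} {f : LL C K ≃ₗ[K] LL C K}
    (h : Cj a b c g f) : Cj a b c g⁻¹ f⁻¹ := by
  intro M hM
  apply f.injective
  have h1 : ∀ z, f (f⁻¹ z) = z := fun z => f.apply_symm_apply z
  rw [h1, inv_inv, h _ (by rw [Matrix.trace_units_conj']; exact hM)]
  congr 1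
  simp only [← mul_assoc, Units.mul_inv, one_mul]
  simp only [mul_assoc, Units.mul_inv, mul_one]

theorem Cj_one : Cj a b c (1 : (Matrix (Fin 3) (Fin 3) K)ˣ) 1 := by
  intro M _
  rw [inv_one, Units.val_one, one_mul, mul_one]
  rfl

/-- the transposed unit -/
private def tu (g : (Matrix (Fin 3) (Fin 3) K)ˣ) : (Matrix (Fin 3) (Fin 3) K)ˣ where
  val := (g : Matrix (Fin 3) (Fin 3) K).transpose
  inv := ((g⁻¹ : (Matrix (Fin 3) (Fin 3) K)ˣ) : Matrix (Fin 3) (Fin 3) K).transpose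
  val_inv := by rw [← Matrix.transpose_mul, Units.inv_mul, Matrix.transpose_one]
  inv_val := by rw [← Matrix.transpose_mul, Units.mul_inv, Matrix.transpose_one]

private theorem tu_val (g : (Matrix (Fin 3) (Fin 3) K)ˣ) :
    ((tu g : (Matrix (Fin 3) (Fin 3) K)ˣ) : Matrix (Fin 3) (Fin 3) K) =
      (g : Matrix (Fin 3) (Fin 3) K).transpose := rfl

private theorem tu_inv (g : (Matrix (Fin 3) (Fin 3) K)ˣ) :
    (((tu g)⁻¹ : (Matrix (Fin 3) (Fin 3) K)ˣ) : Matrix (Fin 3) (Fin 3) K) =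
      ((g⁻¹ : (Matrix (Fin 3) (Fin 3) K)ˣ) : Matrix (Fin 3) (Fin 3) K).transpose := rfl

/-- products of types: `Aj * Cj` is `Aj`, `Aj * Aj` is `Cj` -/
theorem Aj_Cj {g g' : (Matrix (Fin 3) (Fin 3) K)ˣ} {f f' : LL C K ≃ₗ[K] LL C K}
    (h : Aj a b c g f) (h' : Cj a b c g' f') : ∃ g'', Aj a b c g'' (f * f') := by
  refine ⟨g * tu g'⁻¹, ?_⟩
  intro M hM
  rw [LinearEquiv.mul_apply, h' M hM, h _ (by rw [Matrix.trace_units_conj]; exact hM),
    mul_inv_rev, Units.val_mul, Units.val_mul, tu_val, tu_inv, inv_inv, Matrix.transpose_mul,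
    Matrix.transpose_mul]
  simp only [mul_assoc]

theorem Cj_Aj {g g' : (Matrix (Fin 3) (Fin 3) K)ˣ} {f f' : LL C K ≃ₗ[K] LL C K}
    (h : Cj a b c g f) (h' : Aj a b c g' f') : ∃ g'', Aj a b c g'' (f * f') := by
  refine ⟨g * g', ?_⟩
  intro M hM
  rw [LinearEquiv.mul_apply, h' M hM, map_neg,
    h _ (by rw [Matrix.trace_units_conj, Matrix.trace_transpose]; exact hM),
    mul_inv_rev, Units.val_mul, Units.val_mul]
  simp only [mul_assoc]

theorem Aj_Aj {g g' : (Matrix (Fin 3) (Fin 3) K)ˣ} {f f' : LL C K ≃ₗ[K] LL C K}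
    (h : Aj a b c g f) (h' : Aj a b c g' f') : ∃ g'', Cj a b c g'' (f * f') := by
  refine ⟨g * tu g'⁻¹, ?_⟩
  intro M hM
  rw [LinearEquiv.mul_apply, h' M hM, map_neg,
    h _ (by rw [Matrix.trace_units_conj, Matrix.trace_transpose]; exact hM), neg_neg,
    mul_inv_rev, Units.val_mul, Units.val_mul, tu_val, tu_inv, inv_inv, Matrix.transpose_mul,
    Matrix.transpose_mul, Matrix.transpose_transpose]
  simp only [mul_assoc]

theorem Aj_inv {g : (Matrix (Fin 3) (Fin 3) K)ˣ} {f : LL C K ≃ₗ[K] LL C K}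
    (h : Aj a b c g f) : ∃ g', Aj a b c g' f⁻¹ := by
  refine ⟨tu g, ?_⟩
  intro M hM
  apply f.injective
  have h1 : ∀ z, f (f⁻¹ z) = z := fun z => f.apply_symm_apply z
  rw [h1, map_neg, h _ (by rw [Matrix.trace_units_conj, Matrix.trace_transpose]; exact hM),
    neg_neg, tu_val, tu_inv, Matrix.transpose_mul, Matrix.transpose_mul,
    Matrix.transpose_transpose, Matrix.transpose_transpose, Matrix.transpose_transpose]
  congr 1
  simp only [← mul_assoc, Units.mul_inv, one_mul]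
  simp only [mul_assoc, Units.mul_inv, mul_one]

private theorem tr_single {i j : Fin 3} (hij : i ≠ j) :
    (Matrix.single i j (1 : K)).trace = 0 := Matrix.trace_single_eq_of_ne i j 1 hij

/-- the values of the model at matrix units -/
private theorem Jm_unit (i j : Fin 3) (hij : i ≠ j) :
    Jm K a b c (Matrix.single i j 1) =
      (if i = 0 ∧ j = 1 then (1 : K) else 0) • e K a + (if i = 1 ∧ j = 2 then (1 : K) else 0) • e K b +
      (if i = 0 ∧ j = 2 then ek K C a.1 b.1 else 0) • e K c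
      - (if i = 1 ∧ j = 0 then (1 : K) else 0) • e K (ng a) -
      (if i = 2 ∧ j = 1 then (1 : K) else 0) • e K (ng b)
      + (if i = 2 ∧ j = 0 then ek K C b.1 a.1 else 0) • e K (ng c) := by
  rw [Jm_eq]
  simp only [Matrix.single_apply]
  fin_cases i <;> fin_cases j <;> simp at hij ⊢

/-- the root vectors, the matrix units, and the opposite coordinates -/
private theorem J_data (H : Hyp C K) (hc : c.1 = a.1 + b.1) {d : Rt C}
    (hd : d ∈ ({a, ng a, b, ng b, c, ng c} : Set (Rt C))) :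
    ∃ (i j : Fin 3) (k : K), i ≠ j ∧ k ≠ 0 ∧ e K d = k • Jm K a b c (Matrix.single i j 1) ∧
      ∀ M : Matrix (Fin 3) (Fin 3) K, (Jm K a b c M).2 (ng d) = -(k * M j i) := by
  have I := ips H hc
  have hq : ek K C b.1 a.1 = -ek K C a.1 b.1 := by
    rw [ek_comm_odd H b.1 a.1 (by rw [I.ba]; exact ⟨-1, by norm_num⟩)]
  have hp : ek K C a.1 b.1 * ek K C a.1 b.1 = 1 := ek_mul_self _ _
  have hp' : ek K C b.1 a.1 * ek K C b.1 a.1 = 1 := ek_mul_self _ _
  simp only [Set.mem_insert_iff, Set.mem_singleton_iff] at hd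
  rcases hd with rfl | rfl | rfl | rfl | rfl | rfl
  · refine ⟨0, 1, 1, by decide, one_ne_zero, ?_, fun M => ?_⟩
    · rw [Jm_unit _ _ (by decide)]
      simp
    · rw [(Jm_vals H hc M).2.2.2.1, one_mul]
  · refine ⟨1, 0, -1, by decide, neg_ne_zero.2 one_ne_zero, ?_, fun M => ?_⟩
    · rw [Jm_unit _ _ (by decide)]
      simp
    · rw [ng_ng, (Jm_vals H hc M).1]
      ring
  · refine ⟨1, 2, 1, by decide, one_ne_zero, ?_, fun M => ?_⟩
    · rw [Jm_unit _ _ (by decide)]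
      simp
    · rw [(Jm_vals H hc M).2.2.2.2.1, one_mul]
  · refine ⟨2, 1, -1, by decide, neg_ne_zero.2 one_ne_zero, ?_, fun M => ?_⟩
    · rw [Jm_unit _ _ (by decide)]
      simp
    · rw [ng_ng, (Jm_vals H hc M).2.1]
      ring
  · refine ⟨0, 2, ek K C a.1 b.1, by decide, ek_ne_zero _ _, ?_, fun M => ?_⟩
    · rw [Jm_unit _ _ (by decide)]
      simp [smul_smul, hp]
    · rw [(Jm_vals H hc M).2.2.2.2.2, hq]
      ring
  · refine ⟨2, 0, ek K C b.1 a.1, by decide, ek_ne_zero _ _, ?_, fun M => ?_⟩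
    · rw [Jm_unit _ _ (by decide)]
      simp [smul_smul, hp']
    · rw [ng_ng, (Jm_vals H hc M).2.2.1, hq]
      ring

/-- elementary matrices as units -/
private def el (i j : Fin 3) (hij : i ≠ j) (s : K) : (Matrix (Fin 3) (Fin 3) K)ˣ where
  val := Matrix.transvection i j s
  inv := Matrix.transvection i j (-s)
  val_inv := by
    rw [Matrix.transvection_mul_transvection_same _ _ hij, add_neg_cancel,
      Matrix.transvection_zero]
  inv_val := by
    rw [Matrix.transvection_mul_transvection_same _ _ hij, neg_add_cancel,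
      Matrix.transvection_zero]

theorem J_xr (H : Hyp C K) (hc : c.1 = a.1 + b.1) {d : Rt C}
    (hd : d ∈ ({a, ng a, b, ng b, c, ng c} : Set (Rt C))) (s : K) :
    ∃ g, Cj a b c g (xr d s) := by
  obtain ⟨i, j, k, hij, hk, he, hco⟩ := J_data H hc hd
  refine ⟨el i j hij (s * k), ?_⟩
  intro M hM
  have hval : ((el i j hij (s * k) : (Matrix (Fin 3) (Fin 3) K)ˣ) : Matrix (Fin 3) (Fin 3) K) =
      1 + (s * k) • Matrix.single i j 1 := by
    show Matrix.transvection i j (s * k) = _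
    rw [Matrix.transvection, Matrix.smul_single, smul_eq_mul, mul_one]
  have hinv : (((el i j hij (s * k))⁻¹ : (Matrix (Fin 3) (Fin 3) K)ˣ) :
      Matrix (Fin 3) (Fin 3) K) = 1 - (s * k) • Matrix.single i j 1 := by
    show Matrix.transvection i j (-(s * k)) = _
    rw [Matrix.transvection, Matrix.smul_single, smul_eq_mul, mul_one, sub_eq_add_neg,
      Matrix.single_neg]
  have hEME : Matrix.single i j (1 : K) * M * Matrix.single i j 1 =
      M j i • Matrix.single i j 1 := by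
    rw [Matrix.single_mul_mul_single, Matrix.smul_single, smul_eq_mul, one_mul, mul_one]
  have hg : (1 + (s * k) • Matrix.single i j (1 : K)) * M * (1 - (s * k) • Matrix.single i j 1) =
      M + (s * k) • (Matrix.single i j 1 * M - M * Matrix.single i j 1) -
        ((s * k) * (s * k) * M j i) • Matrix.single i j 1 := by
    have h1 : (1 + (s * k) • Matrix.single i j (1 : K)) * M * (1 - (s * k) • Matrix.single i j 1) =
        M + (s * k) • (Matrix.single i j 1 * M - M * Matrix.single i j 1) -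
        ((s * k) * (s * k)) • (Matrix.single i j (1 : K) * M * Matrix.single i j 1) := by
      simp only [add_mul, mul_sub, one_mul, mul_one, smul_mul_assoc, mul_smul_comm]
      module
    rw [h1, hEME, smul_smul]
  rw [hval, hinv, hg, xr_apply H, he, map_smul, LinearMap.smul_apply,
    J_br H hc (tr_single hij) hM, hco]
  simp only [map_sub, map_add, map_smul]
  module

/-- toral elements are diagonal matrices: `wt t a = g0/g1`, `wt t b = g1/g2` -/
theorem J_TT (H : Hyp C K) (hc : c.1 = a.1 + b.1) {t : LL C K ≃ₗ[K] LL C K}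
    (ht : t ∈ TT C K) {g : (Matrix (Fin 3) (Fin 3) K)ˣ}
    (hg : (g : Matrix (Fin 3) (Fin 3) K).IsDiag)
    (h1 : wt t a * (g : Matrix (Fin 3) (Fin 3) K) 1 1 = (g : Matrix (Fin 3) (Fin 3) K) 0 0)
    (h2 : wt t b * (g : Matrix (Fin 3) (Fin 3) K) 2 2 = (g : Matrix (Fin 3) (Fin 3) K) 1 1) :
    Cj a b c g t := by
  intro M hM
  obtain ⟨u, hu⟩ : ∃ u : Fin 3 → K, (g : Matrix (Fin 3) (Fin 3) K) = Matrix.diagonal u :=
    ⟨_, (hg.diagonal_diag).symm⟩
  have huu : ∀ i, u i * ((g⁻¹ : (Matrix (Fin 3) (Fin 3) K)ˣ) : Matrix (Fin 3) (Fin 3) K) i i = 1 := by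
    intro i
    have h3 := congrFun (congrFun (Units.mul_inv g) i) i
    rw [hu, Matrix.diagonal_mul, Matrix.one_apply_eq] at h3
    exact h3
  have hoff : ∀ i j, i ≠ j → ((g⁻¹ : (Matrix (Fin 3) (Fin 3) K)ˣ) :
      Matrix (Fin 3) (Fin 3) K) i j = 0 := by
    intro i j hij
    have h3 := congrFun (congrFun (Units.mul_inv g) i) j
    rw [hu, Matrix.diagonal_mul, Matrix.one_apply_ne hij] at h3
    refine (mul_eq_zero.1 h3).resolve_left (fun h0 => ?_)
    have h4 := huu i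
    rw [h0, zero_mul] at h4
    exact zero_ne_one h4
  have hu0 : ∀ i, u i ≠ 0 := by
    intro i h0
    have h4 := huu i
    rw [h0, zero_mul] at h4
    exact zero_ne_one h4
  have hinv : ((g⁻¹ : (Matrix (Fin 3) (Fin 3) K)ˣ) : Matrix (Fin 3) (Fin 3) K) =
      Matrix.diagonal (fun i => (u i)⁻¹) := by
    ext i j
    by_cases hij : i = j
    · subst hij
      rw [Matrix.diagonal_apply_eq]
      exact eq_inv_of_mul_eq_one_right (huu i)
    · rw [Matrix.diagonal_apply_ne _ hij, hoff i j hij]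
  have hent : ∀ i j, ((g : Matrix (Fin 3) (Fin 3) K) * M * ((g⁻¹ :
      (Matrix (Fin 3) (Fin 3) K)ˣ) : Matrix (Fin 3) (Fin 3) K)) i j =
      u i * M i j * (u j)⁻¹ := by
    intro i j
    rw [hinv, hu, Matrix.mul_diagonal, Matrix.diagonal_mul]
  rw [hu, Matrix.diagonal_apply_eq, Matrix.diagonal_apply_eq] at h1 h2
  have hwa : wt t a = u 0 * (u 1)⁻¹ := by
    rw [← h1, mul_assoc, mul_inv_cancel₀ (hu0 1), mul_one]
  have hwb : wt t b = u 1 * (u 2)⁻¹ := by
    rw [← h2, mul_assoc, mul_inv_cancel₀ (hu0 2), mul_one]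
  have hwc : wt t c = u 0 * (u 2)⁻¹ := by
    rw [wt_add H ht hc, hwa, hwb]
    have := hu0 1
    field_simp
  have hwna : wt t (ng a) = u 1 * (u 0)⁻¹ := by
    rw [wt_ng H ht, hwa, mul_inv_rev, inv_inv]
  have hwnb : wt t (ng b) = u 2 * (u 1)⁻¹ := by
    rw [wt_ng H ht, hwb, mul_inv_rev, inv_inv]
  have hwnc : wt t (ng c) = u 2 * (u 0)⁻¹ := by
    rw [wt_ng H ht, hwc, mul_inv_rev, inv_inv]
  have hha : t (hh C (zk a.1)) = hh C (zk a.1) := ht.2 _ (hh_mem_L0 _)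
  have hhb : t (hh C (zk b.1)) = hh C (zk b.1) := ht.2 _ (hh_mem_L0 _)
  rw [Jm_eq, Jm_eq]
  simp only [hent, map_add, map_smul, map_neg, TT_e H ht, hha, hhb, hwa, hwb, hwc, hwna, hwnb,
    hwnc, mul_right_comm (u 0) _ (u 0)⁻¹, mul_right_comm (u 1) _ (u 1)⁻¹,
    mul_inv_cancel₀ (hu0 0), mul_inv_cancel₀ (hu0 1), one_mul]
  module

/-- the root vectors are multiples of images of matrix units -/
theorem J_root (H : Hyp C K) (hc : c.1 = a.1 + b.1) {d : Rt C}
    (hd : d ∈ ({a, ng a, b, ng b, c, ng c} : Set (Rt C))) :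
    ∃ (i j : Fin 3) (k : K), i ≠ j ∧ k ≠ 0 ∧ e K d = k • Jm K a b c (Matrix.single i j 1) := by
  obtain ⟨i, j, k, hij, hk, he, _⟩ := J_data H hc hd
  exact ⟨i, j, k, hij, hk, he⟩

theorem J_unit (H : Hyp C K) (hc : c.1 = a.1 + b.1) {i j : Fin 3} (hij : i ≠ j) :
    ∃ d ∈ ({a, ng a, b, ng b, c, ng c} : Set (Rt C)), ∃ k : K, k ≠ 0 ∧
      Jm K a b c (Matrix.single i j 1) = k • e K d := by
  have _ := H
  have _ := hc
  rw [Jm_unit i j hij]
  fin_cases i <;> fin_cases j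
  · exact absurd rfl hij
  · exact ⟨a, by simp, 1, one_ne_zero, by simp⟩
  · exact ⟨c, by simp, ek K C a.1 b.1, ek_ne_zero _ _, by simp⟩
  · exact ⟨ng a, by simp, -1, neg_ne_zero.2 one_ne_zero, by simp⟩
  · exact absurd rfl hij
  · exact ⟨b, by simp, 1, one_ne_zero, by simp⟩
  · exact ⟨ng c, by simp, ek K C b.1 a.1, ek_ne_zero _ _, by simp⟩
  · exact ⟨ng b, by simp, -1, neg_ne_zero.2 one_ne_zero, by simp⟩
  · exact absurd rfl hij

end Pool.Agent.H33.EL
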