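import Pool.Agent.H33.EL.NorA

/-!
# EL-12: conjugation by `NN`

`g hd(a,c) g⁻¹` acts on `e_(w b)` by `c^(a,b) = c^(wa,wb)`, on `L0` trivially (`NN_perm`).
`mem_TT_of_comm`: `g` commuting with `T1` preserves `L0 = Fix T1` and the weight spaces
`K e_a = {x : t x = wt t a x for all t ∈ T1}` (`T1_sep`, `T1_sep0`), then `mem_TT_of`.
`NN_comm_trivial`: with `mem_TT_of_comm`, `TT_order`.
`mem_NN_of_conj`: `g x` for `x ∈ L0`: `t g x = g (g⁻¹ t g) x`; conjugation by `g` is a bijection of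
the finite group `T1`.
-/

namespace Pool.Agent.H33.EL

variable {n : ℕ} {C : Matrix (Fin n) (Fin n) ℤ} {K : Type} [Field K] [Fintype (Rt C)]

theorem nor_inv_apply (g : LL C K ≃ₗ[K] LL C K) (x : LL C K) : g (g⁻¹ x) = x :=
  g.apply_symm_apply x

theorem nor_apply_inv (g : LL C K ≃ₗ[K] LL C K) (x : LL C K) : g⁻¹ (g x) = x :=
  g.symm_apply_apply x

theorem nor_coord (H : Hyp C K) {t : LL C K ≃ₗ[K] LL C K} (ht : t ∈ TT C K) (x : LL C K) :
    t x = (x.1, fun b => wt t b * x.2 b) := by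
  have h1 := decomp x
  have h2 := decomp ((x.1, fun b => wt t b * x.2 b) : LL C K)
  rw [h2]
  conv_lhs => rw [h1]
  rw [map_add, map_sum, ht.2 _ (hh_mem_L0 x.1)]
  congr 1
  apply Finset.sum_congr rfl
  intro a _
  rw [map_smul, TT_e H ht, smul_smul, mul_comm]

theorem nor_root_eq {a b : Rt C} {k l : K} (hk : k ≠ 0) (h : k • e K b = l • e K a) :
    b = a := by
  by_contra hne
  have h1 := congrArg (fun x : LL C K => x.2 b) h
  change k * (e K b).2 b = l * (e K a).2 b at h1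
  rw [e_snd_self, e_snd_ne hne, mul_one, mul_zero] at h1
  exact hk h1

theorem NN_conj_hd (H : Hyp C K) {g : LL C K ≃ₗ[K] LL C K} (hg : g ∈ NN C K)
    {a b : Rt C} {k : K} (hab : g (e K a) = k • e K b) (hk : k ≠ 0) (c : Kˣ) :
    g * hd C a.1 c * g⁻¹ = hd C b.1 c := by
  obtain ⟨w, k', -, hw1, hw2, -, -⟩ := NN_perm H hg
  have hb : b = w a := by
    rw [hw1 a] at hab
    exact nor_root_eq hk hab.symm
  subst hb
  rw [mul_inv_eq_iff_eq_mul]
  apply LinearEquiv.toLinearMap_injective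
  apply ext_basis
  · intro h
    change g (hd C a.1 c (hh C h)) = hd C (w a).1 c (g (hh C h))
    have h1 : g (hh C h) ∈ L0 C K := (hg.2 _).2 (hh_mem_L0 h)
    rw [hd_hh, eq_hh_of_mem h1, hd_hh]
  · intro d
    change g (hd C a.1 c (e K d)) = hd C (w a).1 c (g (e K d))
    rw [hd_e, map_smul, hw1, map_smul, hd_e, hw2, smul_comm]

theorem NN_conj_T1 (H : Hyp C K) {g : LL C K ≃ₗ[K] LL C K} (hg : g ∈ NN C K) :
    ∀ t ∈ T1 C K, g * t * g⁻¹ ∈ T1 C K := by
  have h1 : T1 C K ≤ (T1 C K).comap (MulAut.conj g).toMonoidHom := by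
    unfold T1
    rw [Subgroup.closure_le]
    rintro _ ⟨a, c, rfl⟩
    change g * hd C a.1 c * g⁻¹ ∈ T1 C K
    obtain ⟨w, k', hk, hw1, -, -, -⟩ := NN_perm H hg
    rw [NN_conj_hd H hg (hw1 a) (hk a) c]
    exact hd_mem_T1 H _ _
  intro t ht
  exact h1 ht

theorem NN_conj_TT (H : Hyp C K) {g : LL C K ≃ₗ[K] LL C K} (hg : g ∈ NN C K) :
    ∀ t ∈ TT C K, g * t * g⁻¹ ∈ TT C K := by
  intro t ht
  refine ⟨mul_mem (mul_mem hg.1 ht.1) (inv_mem hg.1), ?_⟩
  intro x hx
  have h1 : g⁻¹ x ∈ L0 C K := by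
    rw [← hg.2, nor_inv_apply]
    exact hx
  change g (t (g⁻¹ x)) = x
  rw [ht.2 _ h1, nor_inv_apply]

/-- weights of a conjugate -/
theorem wt_conj (H : Hyp C K) {g t : LL C K ≃ₗ[K] LL C K} (hg : g ∈ NN C K)
    (ht : t ∈ TT C K) {a b : Rt C} {k : K} (hab : g (e K a) = k • e K b) :
    wt (g * t * g⁻¹) b = wt t a := by
  have hk : k ≠ 0 := by
    rintro rfl
    rw [zero_smul] at hab
    exact e_ne_zero a ((LinearEquiv.map_eq_zero_iff g).1 hab)
  have h1 : g⁻¹ (e K b) = k⁻¹ • e K a := by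
    apply g.injective
    rw [nor_inv_apply, map_smul, hab, smul_smul, inv_mul_cancel₀ hk, one_smul]
  have h2 : (g * t * g⁻¹) (e K b) = wt t a • e K b := by
    change g (t (g⁻¹ (e K b))) = wt t a • e K b
    rw [h1, map_smul, TT_e H ht, map_smul, map_smul, hab, smul_smul, smul_smul]
    congr 1
    field_simp
  unfold wt at h2 ⊢
  rw [h2]
  change (t (e K a)).2 a * (e K b).2 b = _
  rw [e_snd_self, mul_one]

/-- more generally: `g T1 g⁻¹ ≤ TT` is enough (`L0 ≤ Fix (g T1 g⁻¹) = g L0`, dimensions) -/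
theorem mem_NN_of_conj_TT (H : Hyp C K) {g : LL C K ≃ₗ[K] LL C K} (hg : g ∈ GG C K)
    (h : ∀ t ∈ T1 C K, g * t * g⁻¹ ∈ TT C K) : g ∈ NN C K := by
  have h1 : ∀ x ∈ L0 C K, g⁻¹ x ∈ L0 C K := by
    intro x hx
    rw [mem_L0_iff H]
    intro t ht
    have h2 : g (t (g⁻¹ x)) = x := (h t ht).2 x hx
    apply g.injective
    rw [h2, nor_inv_apply]
  have h3 : (L0 C K).map (g⁻¹ : LL C K ≃ₗ[K] LL C K).toLinearMap = L0 C K := by
    apply Submodule.eq_of_le_of_finrank_eq
    · rintro _ ⟨x, hx, rfl⟩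
      exact h1 x hx
    · exact LinearEquiv.finrank_map_eq _ _
  refine ⟨hg, fun x => ⟨fun hx => ?_, fun hx => ?_⟩⟩
  · have h4 := h1 _ hx
    rw [nor_apply_inv] at h4
    exact h4
  · rw [← h3] at hx
    obtain ⟨y, hy, hyx⟩ := hx
    have h5 : g x = y := by
      rw [← hyx]
      exact nor_inv_apply g y
    rw [h5]
    exact hy

/-- an automorphism which normalises `T1` is in `NN` (`L0` is the fixed space of `T1`; the
group of automorphisms is finite so `g T1 g⁻¹ ≤ T1` is enough) -/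
theorem mem_NN_of_conj (H : Hyp C K) {g : LL C K ≃ₗ[K] LL C K} (hg : g ∈ GG C K)
    (h : ∀ t ∈ T1 C K, g * t * g⁻¹ ∈ T1 C K) : g ∈ NN C K :=
  mem_NN_of_conj_TT H hg fun t ht => T1_le_TT H (h t ht)

/-- an automorphism commuting with `T1` is in `TT` -/
theorem mem_TT_of_comm (H : Hyp C K) {g : LL C K ≃ₗ[K] LL C K} (hg : g ∈ GG C K)
    (hc : ∀ t ∈ T1 C K, g * t = t * g) : g ∈ TT C K := by
  apply mem_TT_of H hg
  intro a
  have h1 : ∀ t ∈ T1 C K, t (g (e K a)) = wt t a • g (e K a) := by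
    intro t ht
    have h2 : t (g (e K a)) = g (t (e K a)) := by
      have := congrArg (fun f : LL C K ≃ₗ[K] LL C K => f (e K a)) (hc t ht)
      exact this.symm
    rw [h2, TT_e H (T1_le_TT H ht), map_smul]
  obtain ⟨x, hx⟩ : ∃ x, x = g (e K a) := ⟨_, rfl⟩
  rw [← hx] at h1 ⊢
  refine ⟨x.2 a, ?_⟩
  refine Prod.ext ?_ (funext fun b => ?_)
  · obtain ⟨t, ht, hta⟩ := T1_sep0 H a
    have h3 := congrArg Prod.fst (h1 t ht)
    rw [nor_coord H (T1_le_TT H ht)] at h3
    change x.1 = wt t a • x.1 at h3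
    change x.1 = x.2 a • (0 : Fin n → K)
    rw [smul_zero]
    funext i
    have h4 := congrFun h3 i
    change x.1 i = wt t a * x.1 i at h4
    have h5 : (wt t a - 1) * x.1 i = 0 := by
      rw [sub_mul, one_mul, ← h4, sub_self]
    exact (mul_eq_zero.1 h5).resolve_left (sub_ne_zero.2 hta)
  · change x.2 b = x.2 a * (e K a).2 b
    by_cases hba : b = a
    · rw [hba, e_snd_self, mul_one]
    · rw [e_snd_ne hba, mul_zero]
      obtain ⟨t, ht, hta⟩ := T1_sep H hba
      have h3 := congrArg (fun y : LL C K => y.2 b) (h1 t ht)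
      rw [nor_coord H (T1_le_TT H ht)] at h3
      change wt t b * x.2 b = wt t a * x.2 b at h3
      have h5 : (wt t b - wt t a) * x.2 b = 0 := by
        rw [sub_mul, h3, sub_self]
      exact (mul_eq_zero.1 h5).resolve_left (sub_ne_zero.2 hta)

/-- an element of `NN` of `p`-power order commuting with `T1` is trivial -/
theorem NN_comm_trivial (H : Hyp C K) {p : ℕ} [Fact p.Prime] [CharP K p]
    {g : LL C K ≃ₗ[K] LL C K} (hg : g ∈ GG C K) (hc : ∀ t ∈ T1 C K, g * t = t * g)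
    (k : ℕ) (ho : g ^ p ^ k = 1) : g = 1 :=
  TT_order H (mem_TT_of_comm H hg hc) k ho

/-- all these groups are finite -/
theorem finite_group (H : Hyp C K) : Finite (LL C K ≃ₗ[K] LL C K) := by
  have hK : Finite K := by
    apply Nat.finite_of_card_ne_zero
    rcases H.card with h | h | h <;> rw [h] <;> norm_num
  have hL : Finite (LL C K) := inferInstance
  exact Finite.of_injective (fun g : LL C K ≃ₗ[K] LL C K => (g : LL C K → LL C K))
    DFunLike.coe_injective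

end Pool.Agent.H33.EL
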