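import Pool.Agent.H33.EL.CCh
import Pool.Agent.H33.EL.Sl2
import Pool.Agent.H33.EL.HdX

/-!
# EL-50: automorphisms preserving `L0 + ∑_(6 roots)` act on `sl_3` by conjugation or graph type

`S = {±a,±b,±c}`, `c = a + b`, `m = {x : x.2 d = 0 for d ∉ S}`, `f ∈ GG` maps `m` to itself
(and so does every `xr d s`, `d ∈ S`, since `S` is closed under sums).
Let `EZ` be the group generated by the `xr d s`, `d ∈ S`; all its elements are of type `Cj` (`J_xr`,
`Cj_mul`, `Cj_inv`).  For `d, d' ∈ S` there are `r ∈ EZ`, `k ≠ 0` with `r (e d) = k • e d'`: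
`w_x = xr x 1 * xr (ng x) 1 * xr x 1` maps `K e_y` to `K e_(y - (x,y) x)` (`hd_eq`-type
computation: `y = -x`: `e_(-x) ↦ e_x`; product `-1`: `e_y ↦ ε(x,y) e_(x+y)`; product `1`, 0,
`y = x` similarly), and the reflections are transitive on `S`.
(1) `v = f (e c)` is extremal, non zero, in `m`; by `ext_root_coord` there is `d` with
`v.2 (ng d) ≠ 0`, `ng d ∈ S`, so `d ∈ S`.  `xd`: `v = k • r (xr d t (e (ng d)))` and the generators
`xr b' s` of `r` have `b' - d = d'`, `v.2 d' ≠ 0`, so `d' ∈ S`, `b' = d + d' ∈ S` (a root, sum of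
two elements of `S`).  So `f (e c) = k • r1 (e (ng d))`, `r1 ∈ EZ`, and after multiplying with a
Weyl element: there is `r2 ∈ EZ` such that `f1 = r2⁻¹ f` has `f1 (e c) = k1 • e c`.
(2) `v = f1 (e (ng c))`: `fm (f1 e_c) v = -1`, so `v.2 (ng c) ≠ 0`; `xd` with `a := c`:
`v = k • r3 (e (ng c))`, `r3` a product of `xr b' s` with `b' ∈ S`, `ip b' c ≥ 1`, so
`r3 (e c) = e c`.  `f2 = r3⁻¹ f1`: `f2 (e c) = k1 • e c`, `f2 (e (ng c)) = k1⁻¹ • e (ng c)`.
(3) `f2 (hh c) = hh c` (bracket), so `f2` preserves `ad (hh c)`-eigenspaces... in characteristic 3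
use instead: `f2` preserves `{x ∈ m : [e_c, x] = 0, fm e_c x = 0..}`; precisely
`K e_a + K e_b + K e_c = {x ∈ m : x = [e_c, y] for some y ∈ m, fm e_c y = 0}` (`Fil_map` for
`i = 1` intersected with `m`), so `f2 (e a) = x e_a + y e_b + z e_c`; and
`[e_(-c), f2 (e a)]` is a multiple of `f2 [e_(-c), e_a]`..., to get `z = 0`:
`fm (f2 e_a) (f2 e_(-c)) = fm e_a e_(-c) = 0` gives `z = 0`.
`v = x e_a + y e_b` is extremal: `[v,[v,e_(-c)]] = -2 fm v e_(-c) v = 0` and the left side is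
`-x y (ε(b,-c) h_a + ε(a,-c) h_b)`; `h_a`, `h_b` are independent, so `x y = 0`.
(4) If `f2 (e a) = x e_a` then `f2 (e b) = y e_b` (same argument, injective), and from the form
`f2 (e_(-a)) = x⁻¹ e_(-a)` (same argument for `-c`: `f2 (e (ng a))` is in
`K e_(-a) ∪ K e_(-b)`), so `f2` acts diagonally on all six root vectors; it is `Cj g` for the
diagonal `g` with `g0/g1 = x`, `g1/g2 = y`.  If `f2 (e a) = x e_b` then `f2 (e b) = y e_a` and
`f2` is of type `Aj g`, `g` antidiagonal with suitable entries: check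
`-g E01ᵀ g⁻¹ = -g E10 g⁻¹` is a multiple of `E12` for `g` antidiagonal (`g e_0 ∝ e_2`,
`g e_1 ∝ e_1`, `g e_2 ∝ e_0`); two free parameters `g0/g1, g1/g2` match `x`, `y`; the images of the
other basis elements are determined by brackets (`J_br` and `Jm` of the generators
`E01, E12, E10, E21`: both sides are Lie homomorphisms on trace zero matrices).
Then `f = r2 r3 f2` is of type `Cj` or `Aj` (`Cj_mul`, `Cj_Aj`).
-/

set_option linter.unusedSectionVars false
namespace Pool.Agent.H33.EL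

variable {n : ℕ} {C : Matrix (Fin n) (Fin n) ℤ} {K : Type} [Field K] [Fintype (Rt C)]

/-- the root `d` is an integral combination of `a` and `b` -/
def CCi_Sp (a b d : Rt C) : Prop := ∃ p q : ℤ, d.1 = p • a.1 + q • b.1

theorem CCi_ipab (H : Hyp C K) {a b c : Rt C} (hc : c.1 = a.1 + b.1) :
    ip C a.1 b.1 = -1 := by
  apply ip_of_root_add H
  rw [← hc]
  exact c.2

theorem CCi_mem_S (H : Hyp C K) {a b c : Rt C} (hc : c.1 = a.1 + b.1) (d : Rt C) :
    d ∈ ({a, ng a, b, ng b, c, ng c} : Set (Rt C)) ↔ CCi_Sp a b d := by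
  constructor
  · intro h
    simp only [Set.mem_insert_iff, Set.mem_singleton_iff] at h
    rcases h with h | h | h | h | h | h
    · exact ⟨1, 0, by rw [h, one_smul, zero_smul, add_zero]⟩
    · exact ⟨-1, 0, by rw [h, ng_val, neg_smul, one_smul, zero_smul, add_zero]⟩
    · exact ⟨0, 1, by rw [h, one_smul, zero_smul, zero_add]⟩
    · exact ⟨0, -1, by rw [h, ng_val, neg_smul, one_smul, zero_smul, zero_add]⟩
    · exact ⟨1, 1, by rw [h, one_smul, one_smul, hc]⟩
    · exact ⟨-1, -1, by rw [h, ng_val, neg_smul, neg_smul, one_smul, one_smul, hc]; abel⟩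
  · rintro ⟨p, q, hd⟩
    have h1 : ip C d.1 d.1 = 2 := d.2
    have hab := CCi_ipab H hc
    have hba : ip C b.1 a.1 = -1 := by rw [ip_comm H.symm, hab]
    have ha : ip C a.1 a.1 = 2 := a.2
    have hb : ip C b.1 b.1 = 2 := b.2
    rw [hd] at h1
    simp only [ip_add_left, ip_add_right, ip_smul_left, ip_smul_right, ha, hb, hab, hba] at h1
    have h2 : p * p - p * q + q * q = 1 := by linarith
    have hp : p ≤ 1 := by nlinarith [sq_nonneg (2 * q - p), sq_nonneg (p - 1)]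
    have hp' : -1 ≤ p := by nlinarith [sq_nonneg (2 * q - p), sq_nonneg (p + 1)]
    have hq : q ≤ 1 := by nlinarith [sq_nonneg (2 * p - q), sq_nonneg (q - 1)]
    have hq' : -1 ≤ q := by nlinarith [sq_nonneg (2 * p - q), sq_nonneg (q + 1)]
    simp only [Set.mem_insert_iff, Set.mem_singleton_iff]
    interval_cases p <;> interval_cases q <;> first
      | (exfalso; norm_num at h2; done)
      | (refine Or.inl (Subtype.ext ?_); rw [hd]; simp; done)
      | (refine Or.inr (Or.inl (Subtype.ext ?_)); rw [hd, ng_val]; simp; done)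
      | (refine Or.inr (Or.inr (Or.inl (Subtype.ext ?_))); rw [hd]; simp; done)
      | (refine Or.inr (Or.inr (Or.inr (Or.inl (Subtype.ext ?_)))); rw [hd, ng_val]; simp; done)
      | (refine Or.inr (Or.inr (Or.inr (Or.inr (Or.inl (Subtype.ext ?_))))); rw [hd, hc]; simp
         done)
      | (refine Or.inr (Or.inr (Or.inr (Or.inr (Or.inr (Subtype.ext ?_))))); rw [hd, ng_val, hc]
         simp only [neg_smul, one_smul]; abel)

theorem CCi_Sp_add {a b x y d : Rt C} (hx : CCi_Sp a b x) (hy : CCi_Sp a b y)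
    (hd : d.1 = x.1 + y.1) : CCi_Sp a b d := by
  obtain ⟨p, q, hp⟩ := hx
  obtain ⟨p', q', hp'⟩ := hy
  refine ⟨p + p', q + q', ?_⟩
  rw [hd, hp, hp', add_smul, add_smul]
  abel

theorem CCi_Sp_ng {a b x : Rt C} (hx : CCi_Sp a b x) : CCi_Sp a b (ng x) := by
  obtain ⟨p, q, hp⟩ := hx
  refine ⟨-p, -q, ?_⟩
  rw [ng_val, hp, neg_smul, neg_smul]
  abel

theorem CCi_Sp_ng_iff {a b x : Rt C} : CCi_Sp a b (ng x) ↔ CCi_Sp a b x := by
  constructor
  · intro h
    have := CCi_Sp_ng h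
    rwa [ng_ng] at this
  · exact CCi_Sp_ng

theorem CCi_Sp_swap {a b x : Rt C} : CCi_Sp b a x ↔ CCi_Sp a b x := by
  constructor
  · rintro ⟨p, q, hp⟩
    exact ⟨q, p, by rw [hp]; abel⟩
  · rintro ⟨p, q, hp⟩
    exact ⟨q, p, by rw [hp]; abel⟩

theorem CCi_Sp_ng_ng {a b x : Rt C} : CCi_Sp (ng a) (ng b) x ↔ CCi_Sp a b x := by
  constructor
  · rintro ⟨p, q, hp⟩
    exact ⟨-p, -q, by rw [hp, ng_val, ng_val]; simp⟩
  · rintro ⟨p, q, hp⟩
    exact ⟨-p, -q, by rw [hp, ng_val, ng_val]; simp⟩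

/-- support in the root system -/
def CCi_Su (a b : Rt C) (x : LL C K) : Prop := ∀ d : Rt C, ¬ CCi_Sp a b d → x.2 d = 0

/-- the group generated by the root groups -/
noncomputable def CCi_EZ (K : Type) [Field K] (a b : Rt C) : Subgroup (LL C K ≃ₗ[K] LL C K) :=
  Subgroup.closure {g | ∃ d : Rt C, CCi_Sp a b d ∧ ∃ s : K, g = xr d s}

theorem CCi_xr_mem {a b d : Rt C} (h : CCi_Sp a b d) (s : K) : xr d s ∈ CCi_EZ K a b :=
  Subgroup.subset_closure ⟨d, h, s, rfl⟩

theorem CCi_EZ_GG (H : Hyp C K) (a b : Rt C) : CCi_EZ K a b ≤ GG C K := by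
  refine (Subgroup.closure_le _).mpr ?_
  rintro g ⟨d, -, s, rfl⟩
  exact xr_mem_GG H d s

theorem CCi_xr_Su (H : Hyp C K) {a b d : Rt C} (hd : CCi_Sp a b d) (s : K) {x : LL C K}
    (hx : CCi_Su a b x) : CCi_Su a b (xr d s x) := by
  intro r hr
  by_cases h1 : ip C r.1 d.1 = 1
  · have h2 := root_sub H h1
    rw [xr_snd_one H d s x r ⟨r.1 - d.1, h2⟩ rfl, hx r hr, hx ⟨r.1 - d.1, h2⟩ (fun h3 => hr
      (CCi_Sp_add h3 hd (by show r.1 = r.1 - d.1 + d.1; abel))), mul_zero, add_zero]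
  · rw [xr_snd_other H d s x r h1 (fun h2 => hr (h2 ▸ hd))]
    exact hx r hr

theorem CCi_EZ_Su (H : Hyp C K) {a b : Rt C} {g : LL C K ≃ₗ[K] LL C K}
    (hg : g ∈ CCi_EZ K a b) : (∀ x, CCi_Su a b x → CCi_Su a b (g x)) ∧
      ∀ x, CCi_Su a b x → CCi_Su a b (g⁻¹ x) := by
  induction hg using Subgroup.closure_induction with
  | mem g hg =>
    obtain ⟨d, hd, s, rfl⟩ := hg
    refine ⟨fun x hx => CCi_xr_Su H hd s hx, fun x hx => ?_⟩
    rw [← xr_neg H]
    exact CCi_xr_Su H hd _ hx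
  | one => exact ⟨fun x hx => hx, fun x hx => by rw [inv_one]; exact hx⟩
  | mul g h _ _ hg hh =>
    refine ⟨fun x hx => hg.1 _ (hh.1 _ hx), fun x hx => ?_⟩
    rw [mul_inv_rev]
    exact hh.2 _ (hg.2 _ hx)
  | inv g _ hg => exact ⟨hg.2, fun x hx => by rw [inv_inv]; exact hg.1 x hx⟩

theorem CCi_EZ_Cj (H : Hyp C K) {a b c : Rt C} (hc : c.1 = a.1 + b.1)
    {g : LL C K ≃ₗ[K] LL C K} (hg : g ∈ CCi_EZ K a b) : ∃ u, Cj a b c u g := by
  induction hg using Subgroup.closure_induction with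
  | mem g hg =>
    obtain ⟨d, hd, s, rfl⟩ := hg
    exact J_xr H hc ((CCi_mem_S H hc d).mpr hd) s
  | one => exact ⟨1, Cj_one⟩
  | mul g h _ _ hg hh =>
    obtain ⟨u, hu⟩ := hg
    obtain ⟨v, hv⟩ := hh
    exact ⟨_, Cj_mul hu hv⟩
  | inv g _ hg =>
    obtain ⟨u, hu⟩ := hg
    exact ⟨_, Cj_inv hu⟩

theorem CCi_Sp_a (a b : Rt C) : CCi_Sp a b a := ⟨1, 0, by simp⟩

theorem CCi_Sp_b (a b : Rt C) : CCi_Sp a b b := ⟨0, 1, by simp⟩

theorem CCi_Sp_c {a b c : Rt C} (hc : c.1 = a.1 + b.1) : CCi_Sp a b c := ⟨1, 1, by simp [hc]⟩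

/-- the Weyl element -/
noncomputable def CCi_w (K : Type) [Field K] (d : Rt C) : LL C K ≃ₗ[K] LL C K :=
  xr d 1 * xr (ng d) 1 * xr d 1

theorem CCi_w_mem {a b d : Rt C} (h : CCi_Sp a b d) : CCi_w K d ∈ CCi_EZ K a b :=
  mul_mem (mul_mem (CCi_xr_mem h _) (CCi_xr_mem (CCi_Sp_ng h) _)) (CCi_xr_mem h _)

theorem CCi_w_ng (H : Hyp C K) (d : Rt C) : CCi_w K d (e K (ng d)) = e K d := by
  have := hdX_W_ng H d (c := (1 : K)) (t := 1) (one_mul 1)
  rw [one_pow, one_smul] at this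
  exact this

theorem CCi_w_add (H : Hyp C K) {x y z : Rt C} (hz : z.1 = x.1 + y.1) :
    CCi_w K x (e K y) = ek K C x.1 y.1 • e K z := by
  have := hdX_W_neg H x y z (c := (1 : K)) (t := 1) (one_mul 1) (CCi_ipab H hz) hz
  rw [one_mul] at this
  exact this

/-- every root of the system is moved to `c` by an element of `EZ` -/
theorem CCi_move (H : Hyp C K) {a b c : Rt C} (hc : c.1 = a.1 + b.1) {d : Rt C}
    (hd : CCi_Sp a b d) : ∃ r ∈ CCi_EZ K a b, ∃ k : K, k ≠ 0 ∧ r (e K d) = k • e K c := by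
  have hc' : c.1 = b.1 + a.1 := by rw [hc, add_comm]
  have h := (CCi_mem_S H hc d).mpr hd
  simp only [Set.mem_insert_iff, Set.mem_singleton_iff] at h
  rcases h with h | h | h | h | h | h
  · exact ⟨CCi_w K b, CCi_w_mem (CCi_Sp_b a b), _, ek_ne_zero _ _, by
      rw [h, CCi_w_add H hc']⟩
  · exact ⟨CCi_w K b * CCi_w K a, mul_mem (CCi_w_mem (CCi_Sp_b a b))
      (CCi_w_mem (CCi_Sp_a a b)), _, ek_ne_zero _ _, by
      rw [h, LinearEquiv.mul_apply, CCi_w_ng H, CCi_w_add H hc']⟩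
  · exact ⟨CCi_w K a, CCi_w_mem (CCi_Sp_a a b), _, ek_ne_zero _ _, by
      rw [h, CCi_w_add H hc]⟩
  · exact ⟨CCi_w K a * CCi_w K b, mul_mem (CCi_w_mem (CCi_Sp_a a b))
      (CCi_w_mem (CCi_Sp_b a b)), _, ek_ne_zero _ _, by
      rw [h, LinearEquiv.mul_apply, CCi_w_ng H, CCi_w_add H hc]⟩
  · exact ⟨1, one_mem _, 1, one_ne_zero, by rw [h, one_smul]; rfl⟩
  · exact ⟨CCi_w K c, CCi_w_mem (CCi_Sp_c hc), 1, one_ne_zero, by
      rw [h, CCi_w_ng H, one_smul]⟩

/-- the group of `xd` is contained in `EZ` -/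
theorem CCi_xd (H : Hyp C K) {a b : Rt C} {v : LL C K} (hv : IsExt v) (hs : CCi_Su a b v)
    {d : Rt C} (hd : CCi_Sp a b d) (h : v.2 (ng d) ≠ 0) :
    ∃ r ∈ CCi_EZ K a b ⊓ Subgroup.closure {g : LL C K ≃ₗ[K] LL C K | ∃ (x : Rt C) (s : K),
        0 ≤ ip C x.1 d.1 ∧ g = xr x s}, v = v.2 (ng d) • r (e K (ng d)) := by
  obtain ⟨r, hr, t, ht⟩ := xd H hv d h
  refine ⟨r * xr d t, mul_mem ?_ ⟨CCi_xr_mem hd t, Subgroup.subset_closure ⟨d, t, ?_, rfl⟩⟩, ht⟩
  · refine (Subgroup.closure_le _).mpr ?_ hr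
    rintro g ⟨x, y, s, hx, hy, hvy, rfl⟩
    have h1 : CCi_Sp a b y := by
      by_contra h2
      exact hvy (hs y h2)
    have h2 : CCi_Sp a b x := CCi_Sp_add h1 hd (by rw [hy]; abel)
    exact ⟨CCi_xr_mem h2 s, Subgroup.subset_closure ⟨x, s, by rw [hx]; norm_num, rfl⟩⟩
  · rw [(d.2 : ip C d.1 d.1 = 2)]
    norm_num

theorem CCi_fix (H : Hyp C K) {d : Rt C} {r : LL C K ≃ₗ[K] LL C K}
    (hr : r ∈ Subgroup.closure {g : LL C K ≃ₗ[K] LL C K | ∃ (x : Rt C) (s : K),
        0 ≤ ip C x.1 d.1 ∧ g = xr x s}) : r (e K d) = e K d := by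
  induction hr using Subgroup.closure_induction with
  | mem g hg =>
    obtain ⟨x, s, hx, rfl⟩ := hg
    exact xr_e_nonneg H x s hx
  | one => rfl
  | mul g h _ _ hg hh => rw [LinearEquiv.mul_apply, hh, hg]
  | inv g _ hg =>
    conv_lhs => rw [← hg]
    exact nor_apply_inv g _

/-- normalisation on `e c`, `e (-c)` -/
theorem CCi_norm (H : Hyp C K) {a b c : Rt C} (hc : c.1 = a.1 + b.1)
    {f : LL C K ≃ₗ[K] LL C K} (hf : f ∈ GG C K)
    (hm : ∀ x : LL C K, CCi_Su a b x → CCi_Su a b (f x)) :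
    ∃ r ∈ CCi_EZ K a b, ∃ k : K, k ≠ 0 ∧ (r⁻¹ * f) (e K c) = k • e K c ∧
      (r⁻¹ * f) (e K (ng c)) = k⁻¹ • e K (ng c) := by
  have hsu : ∀ d : Rt C, CCi_Sp a b d → CCi_Su a b (e K d : LL C K) := by
    intro d hd x hx
    exact e_snd_ne (fun h => hx (h ▸ hd))
  have hcS := CCi_Sp_c hc
  -- step 1
  have hv : IsExt (f (e K c)) := (isExt_e H c).map hf
  have hvs : CCi_Su a b (f (e K c)) := hm _ (hsu c hcS)
  have hv0 : f (e K c) ≠ 0 := fun h => e_ne_zero c (f.map_eq_zero_iff.mp h)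
  obtain ⟨d, hd⟩ := ext_root_coord H hv hv0
  have hdS : CCi_Sp a b d := by
    rw [← CCi_Sp_ng_iff]
    by_contra h
    exact hd (hvs _ h)
  obtain ⟨r, hr, hvr⟩ := CCi_xd H hv hvs hdS hd
  obtain ⟨r', hr', k', hk', h'⟩ := CCi_move H hc (CCi_Sp_ng hdS)
  have h1 : (r' * r⁻¹ * f) (e K c) = ((f (e K c)).2 (ng d) * k') • e K c := by
    rw [LinearEquiv.mul_apply, LinearEquiv.mul_apply]
    conv_lhs => rw [hvr]
    rw [map_smul, nor_apply_inv, map_smul, h', smul_smul]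
  have hr2 : r' * r⁻¹ ∈ CCi_EZ K a b := mul_mem hr' (inv_mem hr.1)
  generalize r' * r⁻¹ = r2 at h1 hr2
  generalize hkk : (f (e K c)).2 (ng d) * k' = k1 at h1
  have hk1 : k1 ≠ 0 := by
    rw [← hkk]
    exact mul_ne_zero hd hk'
  -- step 2
  have hf1 : r2 * f ∈ GG C K := mul_mem (CCi_EZ_GG H a b hr2) hf
  have hw : IsExt ((r2 * f) (e K (ng c))) := (isExt_e H (ng c)).map hf1
  have hws : CCi_Su a b ((r2 * f) (e K (ng c))) :=
    (CCi_EZ_Su H hr2).1 _ (hm _ (hsu _ (CCi_Sp_ng hcS)))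
  have hwc : ((r2 * f) (e K (ng c))).2 (ng c) = k1⁻¹ := by
    have h2 := hf1.2 (e K c) (e K (ng c))
    rw [h1, map_smul, LinearMap.smul_apply, fm_e_left, fm_e_left, e_snd_self, smul_eq_mul] at h2
    field_simp
    linear_combination -h2
  obtain ⟨r3, hr3, hwr⟩ := CCi_xd H hw hws hcS (by rw [hwc]; exact inv_ne_zero hk1)
  have h3 := CCi_fix H hr3.2
  refine ⟨r2⁻¹ * r3, mul_mem (inv_mem hr2) hr3.1, k1, hk1, ?_, ?_⟩
  · have : ((r2⁻¹ * r3)⁻¹ * f) (e K c) = r3⁻¹ ((r2 * f) (e K c)) := by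
      rw [mul_inv_rev, inv_inv]
      rfl
    rw [this, h1, map_smul]
    congr 1
    conv_lhs => rw [← h3]
    exact nor_apply_inv r3 _
  · have : ((r2⁻¹ * r3)⁻¹ * f) (e K (ng c)) = r3⁻¹ ((r2 * f) (e K (ng c))) := by
      rw [mul_inv_rev, inv_inv]
      rfl
    rw [this, hwr, map_smul, nor_apply_inv, hwc]

theorem CCi_ip_ng_right (x y : Rt C) : ip C x.1 (ng y).1 = -ip C x.1 y.1 := by
  rw [ng_val, ip_neg_right]

theorem CCi_ip_ng_left (x y : Rt C) : ip C (ng x).1 y.1 = -ip C x.1 y.1 := by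
  rw [ng_val, ip_neg_left]

/-- the image of `e a` -/
theorem CCi_step3 (H : Hyp C K) {a b c : Rt C} (hc : c.1 = a.1 + b.1)
    {f : LL C K ≃ₗ[K] LL C K} (hf : f ∈ GG C K) {k : K} (hk : k ≠ 0)
    (h1 : f (e K c) = k • e K c) (h2 : f (e K (ng c)) = k⁻¹ • e K (ng c))
    (hs : CCi_Su a b (f (e K a))) :
    f (e K a) = (f (e K a)).2 a • e K a + (f (e K a)).2 b • e K b := by
  have hab := CCi_ipab H hc
  have hba : ip C b.1 a.1 = -1 := by rw [ip_comm H.symm, hab]
  have ha : ip C a.1 a.1 = 2 := a.2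
  have hb : ip C b.1 b.1 = 2 := b.2
  have hcc : ip C c.1 c.1 = 2 := c.2
  have hca : ip C c.1 a.1 = 1 := by rw [hc, ip_add_left, ha, hba]; norm_num
  have hcb : ip C c.1 b.1 = 1 := by rw [hc, ip_add_left, hb, hab]; norm_num
  have hne : b ≠ a := by
    rintro rfl
    rw [ha] at hab
    norm_num at hab
  have h3 : f (hh C (zk c.1)) = hh C (zk c.1) := by
    have h4 := hf.1 (e K c) (e K (ng c))
    rw [h1, h2, map_smul, LinearMap.map_smul₂, smul_smul, inv_mul_cancel₀ hk, one_smul,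
      br_e_ng H, map_neg] at h4
    exact neg_injective h4
  have h4 : br (hh C (zk c.1)) (f (e K a)) = f (e K a) := by
    have h5 := hf.1 (hh C (zk c.1)) (e K a)
    rw [h3, br_hh_e, fk_zk_zk, hca, Int.cast_one, one_smul] at h5
    exact h5.symm
  have h5 : (f (e K a)).1 = 0 := by
    rw [← h4, br_hh_fst]
  have h6 : ∀ d : Rt C, ((ip C c.1 d.1 : ℤ) : K) * (f (e K a)).2 d = (f (e K a)).2 d := by
    intro d
    have := congrArg (fun u : LL C K => u.2 d) h4
    simp only [br_hh_snd, fk_zk_zk] at this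
    exact this
  have h7 : (f (e K a)).2 (ng c) = 0 := by
    have h8 := hf.2 (e K c) (e K a)
    rw [h1, map_smul, LinearMap.smul_apply, fm_e_left, fm_e_left, smul_eq_mul,
      e_snd_ne (a := a) (b := ng c) (by
        intro h
        have := congrArg (fun u : Rt C => ip C c.1 u.1) h
        simp only [CCi_ip_ng_right, hcc, hca] at this
        norm_num at this), neg_zero] at h8
    have h9 : k * (f (e K a)).2 (ng c) = 0 := by linear_combination -h8
    exact (mul_eq_zero.mp h9).resolve_left hk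
  have h8 : ∀ d : Rt C, d ≠ a → d ≠ b → (f (e K a)).2 d = 0 := by
    intro d hda hdb
    by_cases hd : CCi_Sp a b d
    · have h := (CCi_mem_S H hc d).mpr hd
      simp only [Set.mem_insert_iff, Set.mem_singleton_iff] at h
      have h2 := two_ne H
      rcases h with h | h | h | h | h | h
      · exact absurd h hda
      · have := h6 d
        rw [h, CCi_ip_ng_right, hca] at this
        push_cast at this
        rw [h]
        have h9 : (2 : K) * (f (e K a)).2 (ng a) = 0 := by linear_combination -this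
        exact (mul_eq_zero.mp h9).resolve_left h2
      · exact absurd h hdb
      · have := h6 d
        rw [h, CCi_ip_ng_right, hcb] at this
        push_cast at this
        rw [h]
        have h9 : (2 : K) * (f (e K a)).2 (ng b) = 0 := by linear_combination -this
        exact (mul_eq_zero.mp h9).resolve_left h2
      · have := h6 d
        rw [h, hcc] at this
        push_cast at this
        rw [h]
        linear_combination this
      · rw [h]
        exact h7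
    · exact hs d hd
  refine Prod.ext ?_ (funext fun d => ?_)
  · simp only [Prod.fst_add, Prod.smul_fst, e_fst, smul_zero, add_zero]
    exact h5
  · simp only [Prod.snd_add, Prod.smul_snd, Pi.add_apply, Pi.smul_apply, smul_eq_mul]
    by_cases hda : d = a
    · rw [hda, e_snd_self, e_snd_ne (Ne.symm hne), mul_one, mul_zero, add_zero]
    · by_cases hdb : d = b
      · rw [hdb, e_snd_self, e_snd_ne hne, mul_one, mul_zero, zero_add]
      · rw [e_snd_ne hda, e_snd_ne hdb, mul_zero, mul_zero, add_zero]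
        exact h8 d hda hdb

/-- one of the coordinates vanishes -/
theorem CCi_step3b (H : Hyp C K) {a b c : Rt C} (hc : c.1 = a.1 + b.1) {x y : K}
    (hv : IsExt (x • e K a + y • e K b : LL C K)) : x = 0 ∨ y = 0 := by
  have hab := CCi_ipab H hc
  have hba : ip C b.1 a.1 = -1 := by rw [ip_comm H.symm, hab]
  have ha : ip C a.1 a.1 = 2 := a.2
  have hb : ip C b.1 b.1 = 2 := b.2
  have hcc : ip C c.1 c.1 = 2 := c.2
  have hca : ip C c.1 a.1 = 1 := by rw [hc, ip_add_left, ha, hba]; norm_num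
  have hcb : ip C c.1 b.1 = 1 := by rw [hc, ip_add_left, hb, hab]; norm_num
  have h1 : fm (x • e K a + y • e K b : LL C K) (e K (ng c)) = 0 := by
    rw [fm_e_right, ng_ng]
    simp only [Prod.snd_add, Prod.smul_snd, Pi.add_apply, Pi.smul_apply, smul_eq_mul]
    rw [e_snd_ne (a := a) (b := c) (by
      rintro rfl
      rw [hcc] at hca
      norm_num at hca), e_snd_ne (a := b) (b := c) (by
      rintro rfl
      rw [hcc] at hcb
      norm_num at hcb)]
    ring
  have h2 := hv (e K (ng c))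
  rw [h1, mul_zero, zero_smul] at h2
  have e1 : br (e K a) (e K (ng c)) = ek K C a.1 (ng c).1 • e K (ng b) :=
    br_e_e_add H (by rw [ng_val, ng_val, hc]; abel)
  have e2 : br (e K b) (e K (ng c)) = ek K C b.1 (ng c).1 • e K (ng a) :=
    br_e_e_add H (by rw [ng_val, ng_val, hc]; abel)
  have e3 : br (e K a) (e K (ng b) : LL C K) = 0 :=
    br_e_e_zero H (by rw [CCi_ip_ng_right, hab]; norm_num)
  have e4 : br (e K b) (e K (ng a) : LL C K) = 0 :=
    br_e_e_zero H (by rw [CCi_ip_ng_right, hba]; norm_num)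
  simp only [map_add, map_smul, LinearMap.add_apply, LinearMap.smul_apply, e1, e2, e3, e4,
    br_e_ng H, smul_zero, add_zero, zero_add] at h2
  obtain ⟨z, hz1, hz2⟩ := H.ra a b (Or.inr (Or.inr hab))
  have h3 := congrArg (fun u : LL C K => fk C u.1 (zk z.1)) h2
  simp only [Prod.fst_add, Prod.smul_fst, Prod.fst_neg, hh_fst, fk_add_left, fk_smul_left,
    fk_neg_left, Prod.fst_zero, fk_zero_left, fk_zk_zk] at h3
  rw [ip_comm H.symm a.1 z.1, ip_comm H.symm b.1 z.1, hz1, hz2] at h3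
  push_cast at h3
  have h4 : x * y * ek K C b.1 (ng c).1 = 0 := by linear_combination -h3
  rcases mul_eq_zero.mp h4 with h5 | h5
  · exact mul_eq_zero.mp h5
  · exact absurd h5 (ek_ne_zero _ _)

theorem CCi_dual {a b a' b' : Rt C} (hab : a ≠ b) (hab' : a' ≠ b')
    {f : LL C K ≃ₗ[K] LL C K} (hf : f ∈ GG C K) {x y p q : K} (hx : x ≠ 0) (hy : y ≠ 0)
    (ha : f (e K a) = x • e K a') (hb : f (e K b) = y • e K b')
    (hv : f (e K (ng a)) = p • e K (ng a') + q • e K (ng b')) :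
    f (e K (ng a)) = x⁻¹ • e K (ng a') := by
  have hn : ng a' ≠ ng b' := fun h => hab' (by rw [← ng_ng a', h, ng_ng])
  have hn' : ng b ≠ ng a := fun h => hab (by rw [← ng_ng a, ← h, ng_ng])
  have h1 := hf.2 (e K a) (e K (ng a))
  have h2 := hf.2 (e K b) (e K (ng a))
  rw [ha, hv, map_smul, LinearMap.smul_apply, fm_e_left, fm_e_left, e_snd_self] at h1
  rw [hb, hv, map_smul, LinearMap.smul_apply, fm_e_left, fm_e_left, e_snd_ne hn'] at h2
  simp only [Prod.snd_add, Prod.smul_snd, Pi.add_apply, Pi.smul_apply, smul_eq_mul,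
    e_snd_self, e_snd_ne hn, e_snd_ne (Ne.symm hn)] at h1 h2
  have h3 : q = 0 := by
    have h4 : y * q = 0 := by linear_combination -h2
    exact (mul_eq_zero.mp h4).resolve_left hy
  have h4 : p = x⁻¹ := by
    field_simp
    linear_combination -h1
  rw [hv, h3, h4, zero_smul, add_zero]

theorem CCi_sum (H : Hyp C K) {u w z u' w' z' : Rt C} (hz : z.1 = u.1 + w.1)
    (hz' : z'.1 = u'.1 + w'.1) {f : LL C K ≃ₗ[K] LL C K} (hf : f ∈ GG C K) {p q : K}
    (hu : f (e K u) = p • e K u') (hw : f (e K w) = q • e K w') :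
    f (e K z) = (ek K C u.1 w.1 * ek K C u'.1 w'.1 * p * q) • e K z' := by
  have h1 : (e K z : LL C K) = ek K C u.1 w.1 • br (e K u) (e K w) := by
    rw [br_e_e_add H hz, smul_smul, ek_mul_self, one_smul]
  rw [h1, map_smul, hf.1, hu, hw, map_smul, LinearMap.map_smul₂, br_e_e_add H hz', smul_smul,
    smul_smul, smul_smul]
  congr 1
  ring

theorem CCi_hh (H : Hyp C K) {u u' : Rt C} {f : LL C K ≃ₗ[K] LL C K} (hf : f ∈ GG C K)
    {p : K} (hp : p ≠ 0) (hu : f (e K u) = p • e K u')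
    (hu' : f (e K (ng u)) = p⁻¹ • e K (ng u')) :
    f (hh C (zk u.1)) = hh C (zk u'.1) := by
  have h4 := hf.1 (e K u) (e K (ng u))
  rw [hu, hu', map_smul, LinearMap.map_smul₂, smul_smul, inv_mul_cancel₀ hp, one_smul,
    br_e_ng H, br_e_ng H, map_neg] at h4
  exact neg_injective h4

theorem CCi_J (a b c : Rt C) (M : Matrix (Fin 3) (Fin 3) K) :
    Jm K a b c M = M 0 1 • e K a + M 1 2 • e K b + (M 0 2 * ek K C a.1 b.1) • e K c
    - M 1 0 • e K (ng a) - M 2 1 • e K (ng b) + (M 2 0 * ek K C b.1 a.1) • e K (ng c)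
    + M 0 0 • hh C (zk a.1) + (M 0 0 + M 1 1) • hh C (zk b.1) := rfl

/-- the diagonal unit -/
def CCi_D {x y : K} (hx : x ≠ 0) (hy : y ≠ 0) : (Matrix (Fin 3) (Fin 3) K)ˣ where
  val := !![x * y, 0, 0; 0, y, 0; 0, 0, 1]
  inv := !![(x * y)⁻¹, 0, 0; 0, y⁻¹, 0; 0, 0, 1]
  val_inv := by
    ext i j
    fin_cases i <;> fin_cases j <;> simp [Matrix.mul_apply, Fin.sum_univ_three, hy]
    field_simp
  inv_val := by
    ext i j
    fin_cases i <;> fin_cases j <;> simp [Matrix.mul_apply, Fin.sum_univ_three, hy]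
    field_simp

/-- the antidiagonal unit -/
def CCi_A {x y : K} (hx : x ≠ 0) (hy : y ≠ 0) : (Matrix (Fin 3) (Fin 3) K)ˣ where
  val := !![0, 0, x * y; 0, -y, 0; 1, 0, 0]
  inv := !![0, 0, 1; 0, -y⁻¹, 0; (x * y)⁻¹, 0, 0]
  val_inv := by
    ext i j
    fin_cases i <;> fin_cases j <;> simp [Matrix.mul_apply, Fin.sum_univ_three, hy]
    field_simp
  inv_val := by
    ext i j
    fin_cases i <;> fin_cases j <;> simp [Matrix.mul_apply, Fin.sum_univ_three, hy]
    field_simp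

theorem CCi_caseA (H : Hyp C K) {a b c : Rt C} (hc : c.1 = a.1 + b.1)
    {f : LL C K ≃ₗ[K] LL C K} (hf : f ∈ GG C K) {x y : K} (hx : x ≠ 0) (hy : y ≠ 0)
    (ha : f (e K a) = x • e K a) (hb : f (e K b) = y • e K b)
    (ha' : f (e K (ng a)) = x⁻¹ • e K (ng a)) (hb' : f (e K (ng b)) = y⁻¹ • e K (ng b)) :
    Cj a b c (CCi_D hx hy) f := by
  intro M hM
  have hcc : f (e K c) = (x * y) • e K c := by
    rw [CCi_sum H hc hc hf ha hb, ek_mul_self, one_mul]
  have hcc' : f (e K (ng c)) = (x⁻¹ * y⁻¹) • e K (ng c) := by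
    have hn : (ng c).1 = (ng a).1 + (ng b).1 := by rw [ng_val, ng_val, ng_val, hc]; abel
    rw [CCi_sum H hn hn hf ha' hb', ek_mul_self, one_mul]
  have h1 := CCi_hh H hf hx ha ha'
  have h2 := CCi_hh H hf hy hb hb'
  rw [CCi_J, CCi_J]
  simp only [map_add, map_sub, map_smul, ha, hb, ha', hb', hcc, hcc', h1, h2]
  simp only [CCi_D, Matrix.mul_apply, Fin.sum_univ_three, Units.inv_mk, Units.val_mk]
  simp only [Matrix.of_apply, Matrix.cons_val', Matrix.cons_val_zero, Matrix.cons_val_one,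
    Matrix.cons_val, Matrix.cons_val_fin_one, zero_mul, mul_zero, add_zero, zero_add, one_mul,
    mul_one]
  match_scalars <;> field_simp

theorem CCi_caseB (H : Hyp C K) {a b c : Rt C} (hc : c.1 = a.1 + b.1)
    {f : LL C K ≃ₗ[K] LL C K} (hf : f ∈ GG C K) {x y : K} (hx : x ≠ 0) (hy : y ≠ 0)
    (ha : f (e K a) = y • e K b) (hb : f (e K b) = x • e K a)
    (ha' : f (e K (ng a)) = y⁻¹ • e K (ng b)) (hb' : f (e K (ng b)) = x⁻¹ • e K (ng a)) :
    Aj a b c (CCi_A hx hy) f := by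
  intro M hM
  have hab := CCi_ipab H hc
  have hek : ek K C b.1 a.1 = -ek K C a.1 b.1 := by
    apply ek_comm_odd H
    rw [ip_comm H.symm, hab]
    exact ⟨-1, by norm_num⟩
  have hsq := ek_mul_self (C := C) (K := K) a.1 b.1
  have hc' : c.1 = b.1 + a.1 := by rw [hc, add_comm]
  have hcc : f (e K c) = (-(x * y)) • e K c := by
    rw [CCi_sum H hc hc' hf ha hb, hek]
    congr 1
    linear_combination (-(x * y)) * hsq
  have hcc' : f (e K (ng c)) = (-(x⁻¹ * y⁻¹)) • e K (ng c) := by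
    have hn : (ng c).1 = (ng a).1 + (ng b).1 := by rw [ng_val, ng_val, ng_val, hc]; abel
    have hn' : (ng c).1 = (ng b).1 + (ng a).1 := by rw [hn, add_comm]
    rw [CCi_sum H hn hn' hf ha' hb', ng_val, ng_val, ek_neg_left, ek_neg_right, ek_neg_left,
      ek_neg_right, hek]
    congr 1
    linear_combination (-(x⁻¹ * y⁻¹)) * hsq
  have h1 := CCi_hh H hf hy ha ha'
  have h2 := CCi_hh H hf hx hb hb'
  have htr : M 2 2 = -(M 0 0) - M 1 1 := by
    rw [Matrix.trace, Fin.sum_univ_three] at hM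
    simp only [Matrix.diag_apply] at hM
    linear_combination hM
  rw [CCi_J, CCi_J, hek]
  simp only [map_add, map_sub, map_smul, ha, hb, ha', hb', hcc, hcc', h1, h2]
  simp only [CCi_A, Matrix.mul_apply, Fin.sum_univ_three, Units.inv_mk, Units.val_mk,
    Matrix.transpose_apply]
  simp only [Matrix.of_apply, Matrix.cons_val', Matrix.cons_val_zero, Matrix.cons_val_one,
    Matrix.cons_val, Matrix.cons_val_fin_one, zero_mul, mul_zero, add_zero, zero_add, one_mul,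
    mul_one, htr]
  match_scalars <;> field_simp <;> ring

theorem conj_or_graph (H : Hyp C K) {a b c : Rt C} (hc : c.1 = a.1 + b.1)
    {f : LL C K ≃ₗ[K] LL C K} (hf : f ∈ GG C K)
    (hm : ∀ x : LL C K, (∀ d, d ∉ ({a, ng a, b, ng b, c, ng c} : Set (Rt C)) → x.2 d = 0) →
      ∀ d, d ∉ ({a, ng a, b, ng b, c, ng c} : Set (Rt C)) → (f x).2 d = 0) :
    (∃ g, Cj a b c g f) ∨ ∃ g, Aj a b c g f := by
  have hm' : ∀ x : LL C K, CCi_Su a b x → CCi_Su a b (f x) := by
    intro x hx d hd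
    refine hm x (fun d hd => hx d ?_) d ?_
    · rwa [← CCi_mem_S H hc]
    · rwa [CCi_mem_S H hc]
  have hab := CCi_ipab H hc
  have ha0 : ip C a.1 a.1 = 2 := a.2
  have hne : a ≠ b := by
    rintro rfl
    rw [ha0] at hab
    norm_num at hab
  have hc' : c.1 = b.1 + a.1 := by rw [hc, add_comm]
  have hnc : (ng c).1 = (ng a).1 + (ng b).1 := by rw [ng_val, ng_val, ng_val, hc]; abel
  have hnc' : (ng c).1 = (ng b).1 + (ng a).1 := by rw [hnc, add_comm]
  have hsu : ∀ d : Rt C, CCi_Sp a b d → CCi_Su a b (e K d : LL C K) := by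
    intro d hd x hx
    exact e_snd_ne (fun h => hx (h ▸ hd))
  obtain ⟨r, hr, k, hk, h1, h2⟩ := CCi_norm H hc hf hm'
  obtain ⟨u, hu⟩ := CCi_EZ_Cj H hc hr
  have hfr : f = r * (r⁻¹ * f) := by rw [mul_inv_cancel_left]
  have hg : r⁻¹ * f ∈ GG C K := mul_mem (inv_mem (CCi_EZ_GG H a b hr)) hf
  have hgs : ∀ x : LL C K, CCi_Su a b x → CCi_Su a b ((r⁻¹ * f) x) := fun x hx =>
    (CCi_EZ_Su H hr).2 _ (hm' x hx)
  suffices hs : (∃ g, Cj a b c g (r⁻¹ * f)) ∨ ∃ g, Aj a b c g (r⁻¹ * f) by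
    rw [hfr]
    rcases hs with ⟨g, hg⟩ | ⟨g, hg⟩
    · exact Or.inl ⟨_, Cj_mul hu hg⟩
    · exact Or.inr (Cj_Aj hu hg)
  generalize r⁻¹ * f = φ at h1 h2 hg hgs
  have hk' : k⁻¹ ≠ 0 := inv_ne_zero hk
  have ha := CCi_step3 H hc hg hk h1 h2 (hgs _ (hsu _ (CCi_Sp_a a b)))
  have hb := CCi_step3 H hc' hg hk h1 h2 (fun d hd => hgs _ (hsu _ (CCi_Sp_b a b)) d
    (fun h => hd (CCi_Sp_swap.mpr h)))
  have hna := CCi_step3 H hnc hg hk' h2 (by rw [ng_ng, inv_inv]; exact h1)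
    (fun d hd => hgs _ (hsu _ (CCi_Sp_ng (CCi_Sp_a a b))) d
    (fun h => hd (CCi_Sp_ng_ng.mpr h)))
  have hnb := CCi_step3 H hnc' hg hk' h2 (by rw [ng_ng, inv_inv]; exact h1)
    (fun d hd => hgs _ (hsu _ (CCi_Sp_ng (CCi_Sp_b a b))) d
    (fun h => hd (CCi_Sp_swap.mpr (CCi_Sp_ng_ng.mpr h))))
  have hav : IsExt (φ (e K a)) := (isExt_e H a).map hg
  have hbv : IsExt (φ (e K b)) := (isExt_e H b).map hg
  have ha00 : φ (e K a) ≠ 0 := fun h => e_ne_zero a (φ.map_eq_zero_iff.mp h)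
  have hb00 : φ (e K b) ≠ 0 := fun h => e_ne_zero b (φ.map_eq_zero_iff.mp h)
  have hlin : ∀ p q : K, p ≠ 0 → ∀ z : LL C K, φ (e K a) = p • z → φ (e K b) = q • z →
      False := by
    intro p q hp z hz hz'
    have h3 : φ (e K b) = φ ((q * p⁻¹) • e K a) := by
      rw [map_smul, hz, hz', smul_smul, mul_assoc, inv_mul_cancel₀ hp, mul_one]
    have h4 := φ.injective h3
    have h5 := congrArg (fun w : LL C K => w.2 b) h4
    simp only [Prod.smul_snd, Pi.smul_apply, e_snd_self, e_snd_ne (Ne.symm hne),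
      smul_eq_mul, mul_zero] at h5
    exact one_ne_zero h5
  rw [ha] at hav
  rw [hb] at hbv
  rcases CCi_step3b H hc hav with hx | hx
  · -- case B
    rw [hx, zero_smul, zero_add] at ha
    have hy0 : (φ (e K a)).2 b ≠ 0 := by
      intro h
      rw [h, zero_smul] at ha
      exact ha00 ha
    have hb2 : (φ (e K b)).2 b = 0 := by
      rcases CCi_step3b H hc' hbv with h | h
      · exact h
      · rw [h, zero_smul, add_zero] at hb
        exact (hlin _ _ hy0 _ ha hb).elim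
    rw [hb2, zero_smul, zero_add] at hb
    have hx0 : (φ (e K b)).2 a ≠ 0 := by
      intro h
      rw [h, zero_smul] at hb
      exact hb00 hb
    refine Or.inr ⟨_, CCi_caseB H hc hg hx0 hy0 ha hb ?_ ?_⟩
    · rw [add_comm] at hna
      exact CCi_dual hne hne.symm hg hy0 hx0 ha hb hna
    · rw [add_comm] at hnb
      exact CCi_dual hne.symm hne hg hx0 hy0 hb ha hnb
  · -- case A
    rw [hx, zero_smul, add_zero] at ha
    have hx0 : (φ (e K a)).2 a ≠ 0 := by
      intro h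
      rw [h, zero_smul] at ha
      exact ha00 ha
    have hb2 : (φ (e K b)).2 a = 0 := by
      rcases CCi_step3b H hc' hbv with h | h
      · rw [h, zero_smul, zero_add] at hb
        exact (hlin _ _ hx0 _ ha hb).elim
      · exact h
    rw [hb2, zero_smul, add_zero] at hb
    have hy0 : (φ (e K b)).2 b ≠ 0 := by
      intro h
      rw [h, zero_smul] at hb
      exact hb00 hb
    exact Or.inl ⟨_, CCi_caseA H hc hg hx0 hy0 ha hb (CCi_dual hne hne hg hx0 hy0 ha hb hna)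
      (CCi_dual hne.symm hne.symm hg hy0 hx0 hb ha hnb)⟩

end Pool.Agent.H33.EL
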