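import Mathlib

/-!
# Torus overgroups in types E_8, E_7 and E_6: definitions (helper33, helper27, MP_a408f4_al)

`C` is the Gram matrix (Cartan matrix) of a simply laced root lattice `ℤ^n`, roots are the
vectors of norm two.  `LL C K = K^n × K^Φ` is the Chevalley Lie algebra with bracket `br`,
invariant form `fm`, basis `hh h`, `e a`:
`[h, e_a] = (h,a) e_a`, `[e_a, e_b] = ε(a,b) e_(a+b)`, `[e_a, e_(-a)] = -h_a`,
`fm h h' = (h,h')`, `fm e_a e_(-a) = -1`.
-/

namespace Pool.Agent.H33.EL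

variable {n : ℕ}

/-- the inner product on `ℤ^n` with Gram matrix `C` -/
def ip (C : Matrix (Fin n) (Fin n) ℤ) (x y : Fin n → ℤ) : ℤ := ∑ i, ∑ j, x i * C i j * y j

/-- lower triangular half of the form: `cc x y + cc y x = ip x y` -/
def cc (C : Matrix (Fin n) (Fin n) ℤ) (x y : Fin n → ℤ) : ℤ :=
  ∑ i, ∑ j, x i * (if j < i then C i j else if i = j then C i i / 2 else 0) * y j

/-- the sign cocycle -/
def eps (C : Matrix (Fin n) (Fin n) ℤ) (x y : Fin n → ℤ) : ℤˣ := (-1) ^ (cc C x y)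

/-- the roots: vectors of norm two -/
def Rt (C : Matrix (Fin n) (Fin n) ℤ) : Type := {x : Fin n → ℤ // ip C x x = 2}

instance (C : Matrix (Fin n) (Fin n) ℤ) : DecidableEq (Rt C) :=
  inferInstanceAs (DecidableEq {x : Fin n → ℤ // ip C x x = 2})

/-- the opposite root -/
def ng {C : Matrix (Fin n) (Fin n) ℤ} (a : Rt C) : Rt C :=
  ⟨-a.1, by
    have h := a.2
    unfold ip at h ⊢
    simpa using h⟩

/-- the radical of the root lattice modulo 2 -/
def Rad2 (C : Matrix (Fin n) (Fin n) ℤ) : AddSubgroup (Fin n → ℤ) where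
  carrier := {y | ∀ g : Rt C, Even (ip C y g.1)}
  zero_mem' := fun g => by simp [ip]
  add_mem' := by
    intro a b ha hb g
    have h : ip C (a + b) g.1 = ip C a g.1 + ip C b g.1 := by
      simp [ip, add_mul, Finset.sum_add_distrib]
    rw [h]
    exact (ha g).add (hb g)
  neg_mem' := by
    intro a ha g
    have h : ip C (-a) g.1 = -ip C a g.1 := by
      simp [ip]
    rw [h]
    exact (ha g).neg

/-- the special hypotheses for type E_7 -/
structure H7 (C : Matrix (Fin n) (Fin n) ℤ) : Prop where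
  odd : Odd n
  nrm : ∀ y ∈ Rad2 C, ip C y y % 8 = 0 ∨ ip C y y % 8 = 6
  r63 : ∀ y : Fin n → ℤ, y ∈ Rad2 C ∨ ∃ a : Rt C, y - a.1 ∈ Rad2 C
  idx : (Rad2 C).index = 64

section
variable {C : Matrix (Fin n) (Fin n) ℤ} {K : Type} [Field K]

/-- an integral vector as a vector over `K` -/
def zk (x : Fin n → ℤ) : Fin n → K := fun i => (x i : K)

/-- the sign as an element of `K` -/
def ek (K : Type) [Field K] (C : Matrix (Fin n) (Fin n) ℤ) (x y : Fin n → ℤ) : K :=
  (((eps C x y : ℤˣ) : ℤ) : K)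

/-- the form over `K` -/
def fk (C : Matrix (Fin n) (Fin n) ℤ) (h k : Fin n → K) : K :=
  ∑ i, ∑ j, h i * (C i j : K) * k j

/-- the Chevalley Lie algebra -/
abbrev LL (C : Matrix (Fin n) (Fin n) ℤ) (K : Type) : Type := (Fin n → K) × (Rt C → K)

/-- toral element -/
def hh (C : Matrix (Fin n) (Fin n) ℤ) (h : Fin n → K) : LL C K := (h, 0)

/-- root element -/
def e (K : Type) [Field K] (a : Rt C) : LL C K := (0, Pi.single a 1)

variable [Fintype (Rt C)]

/-- the bracket as a function -/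
def brf (u v : LL C K) : LL C K :=
  (-∑ a : Rt C, (u.2 a * v.2 (ng a)) • (zk a.1 : Fin n → K),
   fun r => fk C u.1 (zk r.1) * v.2 r - fk C v.1 (zk r.1) * u.2 r
     + ∑ a : Rt C, if h : ip C (r.1 - a.1) (r.1 - a.1) = 2 then
         ek K C a.1 (r.1 - a.1) * (u.2 a * v.2 ⟨r.1 - a.1, h⟩) else 0)

/-- the invariant form as a function -/
def fmf (u v : LL C K) : K := fk C u.1 v.1 - ∑ a : Rt C, u.2 a * v.2 (ng a)


/-- the bracket -/
def br : LL C K →ₗ[K] LL C K →ₗ[K] LL C K :=
  LinearMap.mk₂ K brf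
    (by
      intro u v w
      refine Prod.ext ?_ (funext fun r => ?_)
      · simp only [brf, Prod.snd_add, Pi.add_apply, add_mul, add_smul, Finset.sum_add_distrib,
          Prod.fst_add]
        abel
      · have : ∀ a : Rt C, (if h : ip C (r.1 - a.1) (r.1 - a.1) = 2 then
            ek K C a.1 (r.1 - a.1) * ((u.2 a + v.2 a) * w.2 ⟨r.1 - a.1, h⟩) else 0)
          = (if h : ip C (r.1 - a.1) (r.1 - a.1) = 2 then
            ek K C a.1 (r.1 - a.1) * (u.2 a * w.2 ⟨r.1 - a.1, h⟩) else 0)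
          + (if h : ip C (r.1 - a.1) (r.1 - a.1) = 2 then
            ek K C a.1 (r.1 - a.1) * (v.2 a * w.2 ⟨r.1 - a.1, h⟩) else 0) := by
          intro a; split_ifs <;> ring
        simp only [brf, Prod.snd_add, Pi.add_apply, Prod.fst_add, this, Finset.sum_add_distrib]
        simp only [fk, Pi.add_apply, add_mul, Finset.sum_add_distrib]
        ring)
    (by
      intro c u w
      refine Prod.ext ?_ (funext fun r => ?_)
      · simp only [brf, Prod.smul_snd, Pi.smul_apply, smul_eq_mul, Prod.smul_fst, smul_neg,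
          Finset.smul_sum, smul_smul, mul_assoc]
      · have : ∀ a : Rt C, (if h : ip C (r.1 - a.1) (r.1 - a.1) = 2 then
            ek K C a.1 (r.1 - a.1) * ((c * u.2 a) * w.2 ⟨r.1 - a.1, h⟩) else 0)
          = c * (if h : ip C (r.1 - a.1) (r.1 - a.1) = 2 then
            ek K C a.1 (r.1 - a.1) * (u.2 a * w.2 ⟨r.1 - a.1, h⟩) else 0) := by
          intro a; split_ifs <;> ring
        simp only [brf, Prod.smul_snd, Pi.smul_apply, smul_eq_mul, Prod.smul_fst, this,
          ← Finset.mul_sum]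
        simp only [fk, Pi.smul_apply, smul_eq_mul, mul_assoc, ← Finset.mul_sum]
        ring)
    (by
      intro u v w
      refine Prod.ext ?_ (funext fun r => ?_)
      · simp only [brf, Prod.snd_add, Pi.add_apply, mul_add, add_smul, Finset.sum_add_distrib,
          Prod.fst_add]
        abel
      · have : ∀ a : Rt C, (if h : ip C (r.1 - a.1) (r.1 - a.1) = 2 then
            ek K C a.1 (r.1 - a.1) * (u.2 a * (v.2 ⟨r.1 - a.1, h⟩ + w.2 ⟨r.1 - a.1, h⟩)) else 0)
          = (if h : ip C (r.1 - a.1) (r.1 - a.1) = 2 then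
            ek K C a.1 (r.1 - a.1) * (u.2 a * v.2 ⟨r.1 - a.1, h⟩) else 0)
          + (if h : ip C (r.1 - a.1) (r.1 - a.1) = 2 then
            ek K C a.1 (r.1 - a.1) * (u.2 a * w.2 ⟨r.1 - a.1, h⟩) else 0) := by
          intro a; split_ifs <;> ring
        simp only [brf, Prod.snd_add, Pi.add_apply, Prod.fst_add, this, Finset.sum_add_distrib]
        simp only [fk, Pi.add_apply, add_mul, Finset.sum_add_distrib]
        ring)
    (by
      intro c u w
      refine Prod.ext ?_ (funext fun r => ?_)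
      · simp only [brf, Prod.smul_snd, Pi.smul_apply, smul_eq_mul, Prod.smul_fst, smul_neg,
          Finset.smul_sum, smul_smul, mul_left_comm]
      · have : ∀ a : Rt C, (if h : ip C (r.1 - a.1) (r.1 - a.1) = 2 then
            ek K C a.1 (r.1 - a.1) * (u.2 a * (c * w.2 ⟨r.1 - a.1, h⟩)) else 0)
          = c * (if h : ip C (r.1 - a.1) (r.1 - a.1) = 2 then
            ek K C a.1 (r.1 - a.1) * (u.2 a * w.2 ⟨r.1 - a.1, h⟩) else 0) := by
          intro a; split_ifs <;> ring
        simp only [brf, Prod.smul_snd, Pi.smul_apply, smul_eq_mul, Prod.smul_fst, this,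
          ← Finset.mul_sum]
        simp only [fk, Pi.smul_apply, smul_eq_mul, mul_assoc, ← Finset.mul_sum]
        ring)

/-- the invariant form -/
def fm : LL C K →ₗ[K] LL C K →ₗ[K] K :=
  LinearMap.mk₂ K fmf
    (by
      intro u v w
      simp only [fmf, fk, Prod.snd_add, Pi.add_apply, Prod.fst_add, add_mul,
        Finset.sum_add_distrib]
      ring)
    (by
      intro c u w
      simp only [fmf, fk, Prod.smul_snd, Pi.smul_apply, smul_eq_mul, Prod.smul_fst, mul_assoc,
        ← Finset.mul_sum]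
      ring)
    (by
      intro u v w
      simp only [fmf, fk, Prod.snd_add, Pi.add_apply, Prod.fst_add, mul_add,
        Finset.sum_add_distrib]
      ring)
    (by
      intro c u w
      simp only [fmf, fk, Prod.smul_snd, Pi.smul_apply, smul_eq_mul, Prod.smul_fst,
        mul_left_comm _ c, ← Finset.mul_sum]
      ring)

/-- extremal vectors -/
def IsExt (v : LL C K) : Prop := ∀ x, br v (br v x) = (-2 * fm v x) • v

/-- `1 + ad v + (ad v)^2 / 2` -/
def exl (v : LL C K) : LL C K →ₗ[K] LL C K :=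
  LinearMap.id + br v + (2⁻¹ : K) • (br v).comp (br v)

open Classical in
/-- `exp (ad v)` for an extremal vector `v` (the identity if `exl v` is not invertible with
inverse `exl (-v)`) -/
noncomputable def ex (v : LL C K) : LL C K ≃ₗ[K] LL C K :=
  if h : (exl v).comp (exl (-v)) = LinearMap.id ∧ (exl (-v)).comp (exl v) = LinearMap.id then
    LinearEquiv.ofLinearMap (exl v) (exl (-v)) h.1 h.2 else LinearEquiv.refl K _

/-- the root element `x_a(s)` -/
noncomputable def xr (a : Rt C) (s : K) : LL C K ≃ₗ[K] LL C K := ex (s • e K a)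

/-- the toral element `h_y(c)`, `y` in the root lattice: `e_b ↦ c^(y,b) e_b` -/
def hd (C : Matrix (Fin n) (Fin n) ℤ) (y : Fin n → ℤ) (c : Kˣ) : LL C K ≃ₗ[K] LL C K where
  toFun u := (u.1, fun b => ((c ^ (ip C y b.1) : Kˣ) : K) * u.2 b)
  invFun u := (u.1, fun b => ((c ^ (-(ip C y b.1)) : Kˣ) : K) * u.2 b)
  map_add' u v := by
    refine Prod.ext rfl (funext fun b => ?_)
    simp [mul_add]
  map_smul' s u := by
    refine Prod.ext rfl (funext fun b => ?_)
    simp [mul_left_comm]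
  left_inv u := by
    refine Prod.ext rfl (funext fun b => ?_)
    show ((c ^ (-(ip C y b.1)) : Kˣ) : K) * (((c ^ (ip C y b.1) : Kˣ) : K) * u.2 b) = u.2 b
    rw [← mul_assoc, ← Units.val_mul, ← zpow_add, neg_add_cancel, zpow_zero, Units.val_one,
      one_mul]
  right_inv u := by
    refine Prod.ext rfl (funext fun b => ?_)
    show ((c ^ (ip C y b.1) : Kˣ) : K) * (((c ^ (-(ip C y b.1)) : Kˣ) : K) * u.2 b) = u.2 b
    rw [← mul_assoc, ← Units.val_mul, ← zpow_add, add_neg_cancel, zpow_zero, Units.val_one,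
      one_mul]

variable (C K) in
/-- the zero weight space -/
def L0 : Submodule K (LL C K) := LinearMap.ker (LinearMap.snd K (Fin n → K) (Rt C → K))

variable (C K) in
/-- automorphisms of bracket and form -/
def GG : Subgroup (LL C K ≃ₗ[K] LL C K) where
  carrier := {g | (∀ x y, g (br x y) = br (g x) (g y)) ∧ ∀ x y, fm (g x) (g y) = fm x y}
  one_mem' := ⟨fun _ _ => rfl, fun _ _ => rfl⟩
  mul_mem' := by
    rintro a b ⟨ha, ha'⟩ ⟨hb, hb'⟩
    refine ⟨fun x y => ?_, fun x y => ?_⟩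
    · simp only [LinearEquiv.mul_apply, hb, ha]
    · simp only [LinearEquiv.mul_apply, hb', ha']
  inv_mem' := by
    rintro a ⟨ha, ha'⟩
    have h1 : ∀ z, a (a⁻¹ z) = z := fun z => a.apply_symm_apply z
    refine ⟨fun x y => ?_, fun x y => ?_⟩
    · apply a.injective
      rw [h1, ha, h1, h1]
    · rw [← ha', h1, h1]

variable (C K) in
/-- the torus generated by the coroot tori -/
def T1 : Subgroup (LL C K ≃ₗ[K] LL C K) :=
  Subgroup.closure {g | ∃ (a : Rt C) (c : Kˣ), g = hd C a.1 c}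

variable (C K) in
/-- automorphisms trivial on the zero weight space -/
def TT : Subgroup (LL C K ≃ₗ[K] LL C K) where
  carrier := {g | g ∈ GG C K ∧ ∀ x ∈ L0 C K, g x = x}
  one_mem' := ⟨one_mem _, fun _ _ => rfl⟩
  mul_mem' := by
    rintro a b ⟨ha, ha'⟩ ⟨hb, hb'⟩
    exact ⟨mul_mem ha hb, fun x hx => by simp only [LinearEquiv.mul_apply, hb' x hx, ha' x hx]⟩
  inv_mem' := by
    rintro a ⟨ha, ha'⟩
    refine ⟨inv_mem ha, fun x hx => ?_⟩
    apply a.injective
    rw [ha' x hx]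
    exact a.apply_symm_apply x

variable (C K) in
/-- the stabiliser of the zero weight space -/
def NN : Subgroup (LL C K ≃ₗ[K] LL C K) where
  carrier := {g | g ∈ GG C K ∧ ∀ x, g x ∈ L0 C K ↔ x ∈ L0 C K}
  one_mem' := ⟨one_mem _, fun _ => Iff.rfl⟩
  mul_mem' := by
    rintro a b ⟨ha, ha'⟩ ⟨hb, hb'⟩
    exact ⟨mul_mem ha hb, fun x => by simp only [LinearEquiv.mul_apply, hb', ha']⟩
  inv_mem' := by
    rintro a ⟨ha, ha'⟩
    refine ⟨inv_mem ha, fun x => ?_⟩
    rw [← ha']
    have h1 : a (a⁻¹ x) = x := a.apply_symm_apply x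
    rw [h1]

/-- the set of roots whose root group lies in `F` -/
def SF (F : Subgroup (LL C K ≃ₗ[K] LL C K)) : Set (Rt C) := {a | ∀ s : K, xr a s ∈ F}

/-- the subgroup of `F` generated by its toral elements and its root groups -/
def Fo (F : Subgroup (LL C K ≃ₗ[K] LL C K)) : Subgroup (LL C K ≃ₗ[K] LL C K) :=
  Subgroup.closure {g | (g ∈ F ∧ g ∈ TT C K) ∨ ∃ a ∈ SF F, ∃ s : K, g = xr a s}

/-- the conjugate `g⁻¹ F g` -/
def cj (g : LL C K ≃ₗ[K] LL C K) (F : Subgroup (LL C K ≃ₗ[K] LL C K)) :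
    Subgroup (LL C K ≃ₗ[K] LL C K) := F.comap (MulAut.conj g).toMonoidHom

/-- the statement (D): all base tori of `F` are conjugate under `Fo F`.  Here
`T1 ≤ cj g F` says `g T1 g⁻¹ ≤ F`, and `c⁻¹ * g ∈ NN` says `g L0 = c L0`. -/
def Dst (F : Subgroup (LL C K ≃ₗ[K] LL C K)) : Prop :=
  ∀ g ∈ GG C K, T1 C K ≤ cj g F → ∃ c ∈ Fo F, c⁻¹ * g ∈ NN C K

/-- the weight of `g` at the root `a` -/
def wt (g : LL C K ≃ₗ[K] LL C K) (a : Rt C) : K := (g (e K a)).2 a

/-- the centre of `F` -/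
def Zc (F : Subgroup (LL C K ≃ₗ[K] LL C K)) : Subgroup (LL C K ≃ₗ[K] LL C K) :=
  F ⊓ Subgroup.centralizer (F : Set (LL C K ≃ₗ[K] LL C K))

/-- the standing hypotheses on the Gram matrix and the field -/
structure Hyp (C : Matrix (Fin n) (Fin n) ℤ) [Fintype (Rt C)] (K : Type) [Field K] : Prop where
  symm : ∀ i j, C i j = C j i
  diag : ∀ i, C i i = 2
  pos : ∀ x : Fin n → ℤ, x ≠ 0 → 0 < ip C x x
  nd : ∀ h : Fin n → K, (∀ i, ∑ j, (C i j : K) * h j = 0) → h = 0
  r0 : ∀ y : Fin n → ℤ, (∀ i, Even (∑ j, C i j * y j)) → (∀ i, Even (y i)) ∨ ip C y y % 8 = 6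
  r1 : (∀ y : Fin n → ℤ, (∀ i, Even (∑ j, C i j * y j)) → ∀ i, Even (y i)) ∨ H7 C
  ra : ∀ a b : Rt C, (ip C a.1 b.1 = 0 ∨ ip C a.1 b.1 = 1 ∨ ip C a.1 b.1 = -1) →
    ∃ y : Rt C, ip C y.1 a.1 = 1 ∧ ip C y.1 b.1 = 0
  rb : ∀ a b : Rt C, ip C a.1 b.1 = 0 → ∃ y : Rt C, ip C y.1 a.1 = 1 ∧ ip C y.1 b.1 = -1
  card : Nat.card K = 7 ∨ Nat.card K = 9 ∨ Nat.card K = 11

end

end Pool.Agent.H33.EL
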