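import Pool.Agent.H33.EL.Inv

/-!
# EL-06: exponentials of extremal vectors

Let `v` be extremal, `D = br v`.  `D^2 x = -2 fm v x • v`, `D v = 0`, so `D^3 = 0`.
`D` is a derivation (`jac`) and skew for `fm` (`fm_inv`).
* `exl v ∘ exl (-v) = 1`: `(1 + D + D²/2)(1 - D + D²/2) = 1 + D^4/4 = 1`.
  More generally `exl (s v) exl (t v) = exl ((s+t) v)`.
* automorphism: `[Ex x, Ex y]` minus `Ex [x,y]`: the terms of total degree 3 are
  `(1/2)([D²x,Dy] + [Dx,D²y])` and `[D²x,Dy] = -2 fm v x [v,[v,y]] = 4 fm v x fm v y v`,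
  `[Dx,D²y] = -2 fm v y [[v,x],v] = 2 fm v y [v,[v,x]] = -4 fm v x fm v y v`; sum 0 (this is why
  characteristic 3 is allowed); degree 4: `[v,v] = 0`; the degrees 0, 1, 2 are the derivation
  property (`D²[x,y] = [D²x,y] + 2[Dx,Dy] + [x,D²y]`).
* form: `fm (Dx) y + fm x (Dy) = 0`, `fm (D²x) y = -fm (Dx) (Dy) = fm x (D²y)`, and terms with
  `D^3` vanish.
* `conj_ex`: `g (br v x) = br (g v) (g x)`.
* `ex_eq_one`: `ex v = 1` gives `Dx + D²x/2 = 0` for all `x`, apply `D`: `D²x = 0`, so `Dx = 0`,
  `center_zero`.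
* `ex_pow_card`: `ex v ^ k = ex (k v)`; with `k` the characteristic it is 1.
-/

namespace Pool.Agent.H33.EL

variable {n : ℕ} {C : Matrix (Fin n) (Fin n) ℤ} {K : Type} [Field K] [Fintype (Rt C)]

theorem ExG_fm_br (H : Hyp C K) (v x : LL C K) : fm v (br v x) = 0 := by
  have h1 := fm_inv H v v x
  rw [br_self H, map_zero, LinearMap.zero_apply] at h1
  exact (neg_eq_zero.1 h1.symm)

theorem ExG_half (H : Hyp C K) (f : K) (v : LL C K) :
    (2⁻¹ : K) • ((-2 * f) • v) = -(f • v) := by
  have h2 := two_ne H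
  rw [smul_smul, ← neg_smul]
  congr 1
  field_simp

/-- the map `exl` for an extremal vector -/
theorem ExG_exl (H : Hyp C K) {v : LL C K} (hv : IsExt v) (x : LL C K) :
    exl v x = x + br v x - fm v x • v := by
  have h1 : exl v x = x + br v x + (2⁻¹ : K) • br v (br v x) := rfl
  rw [h1, hv x, ExG_half H, ← sub_eq_add_neg]

theorem ExG_exl_smul (H : Hyp C K) {v : LL C K} (hv : IsExt v) (s : K) (x : LL C K) :
    exl (s • v) x = x + s • br v x - (s * s * fm v x) • v := by
  rw [ExG_exl H (hv.smul s) x]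
  simp only [map_smul, LinearMap.smul_apply, smul_eq_mul, smul_smul]
  congr 2
  ring

theorem ExG_exl_comp (H : Hyp C K) {v : LL C K} (hv : IsExt v) (s t : K) (x : LL C K) :
    exl (s • v) (exl (t • v) x) = exl ((s + t) • v) x := by
  rw [ExG_exl_smul H hv, ExG_exl_smul H hv, ExG_exl_smul H hv]
  have e1 : br v (x + t • br v x - (t * t * fm v x) • v) = br v x + (t * (-2 * fm v x)) • v := by
    rw [map_sub, map_add, map_smul, map_smul, hv x, br_self H, smul_zero, sub_zero, smul_smul]
  have e2 : fm v (x + t • br v x - (t * t * fm v x) • v) = fm v x := by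
    rw [map_sub, map_add, map_smul, map_smul, ExG_fm_br H, hv.fm_self H, smul_zero, smul_zero,
      add_zero, sub_zero]
  rw [e1, e2]
  module

theorem ExG_inv (H : Hyp C K) {v : LL C K} (hv : IsExt v) :
    (exl v).comp (exl (-v)) = LinearMap.id ∧ (exl (-v)).comp (exl v) = LinearMap.id := by
  have h0 : ∀ x, exl ((0 : K) • v) x = x := by
    intro x
    rw [ExG_exl_smul H hv]
    simp
  constructor
  · apply LinearMap.ext
    intro x
    have h1 := ExG_exl_comp H hv 1 (-1) x
    rw [one_smul, neg_one_smul, add_neg_cancel, h0] at h1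
    exact h1
  · apply LinearMap.ext
    intro x
    have h1 := ExG_exl_comp H hv (-1) 1 x
    rw [one_smul, neg_one_smul, neg_add_cancel, h0] at h1
    exact h1

theorem ExG_ex (H : Hyp C K) {v : LL C K} (hv : IsExt v) (x : LL C K) : ex v x = exl v x := by
  unfold ex
  rw [dif_pos (ExG_inv H hv)]
  rfl

theorem ex_apply (H : Hyp C K) {v : LL C K} (hv : IsExt v) (x : LL C K) :
    ex v x = x + br v x + (2⁻¹ : K) • br v (br v x) := by
  rw [ExG_ex H hv]
  rfl

/-- the useful form -/
theorem ex_apply' (H : Hyp C K) {v : LL C K} (hv : IsExt v) (x : LL C K) :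
    ex v x = x + br v x - fm v x • v := by
  rw [ExG_ex H hv, ExG_exl H hv]

theorem ex_mem_GG (H : Hyp C K) {v : LL C K} (hv : IsExt v) : ex v ∈ GG C K := by
  have h2 := two_ne H
  refine ⟨fun x y => ?_, fun x y => ?_⟩
  · rw [ex_apply' H hv, ex_apply' H hv, ex_apply' H hv]
    have e1 : br v (br x y) = br (br v x) y + br x (br v y) := jac H v x y
    have e2 : br v (br v (br x y)) = br (br v (br v x)) y + br (br v x) (br v y) +
        (br (br v x) (br v y) + br x (br v (br v y))) := by
      rw [e1, map_add, jac H v (br v x) y, jac H v x (br v y)]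
    rw [hv, hv x, hv y] at e2
    have e3 : br x v = -br v x := br_skew H x v
    have e4 : br (br v x) v = (2 * fm v x) • v := by
      rw [br_skew H (br v x) v, hv x]
      module
    simp only [map_add, map_sub, map_smul, LinearMap.add_apply, LinearMap.sub_apply,
      LinearMap.smul_apply, br_self H, hv x, hv y, e4, e3] at e2 ⊢
    have e5 : (2 : K) • (-(fm v (br x y) • v)) =
        (2 : K) • (br (br v x) (br v y) + fm v y • br v x - fm v x • br v y) := by
      calc (2 : K) • (-(fm v (br x y) • v)) = (-2 * fm v (br x y)) • v := by module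
        _ = _ := e2
        _ = _ := by module
    have e6 := smul_right_injective _ h2 e5
    rw [e1]
    have e7 : br (br v x) (br v y) = -(fm v (br x y) • v) - fm v y • br v x +
        fm v x • br v y := by
      rw [e6]
      abel
    rw [e7]
    module
  · rw [ex_apply' H hv, ex_apply' H hv]
    have e1 : fm (br v x) y = -fm x (br v y) := fm_inv H v x y
    have e2 : fm (br v x) (br v y) = 2 * fm v x * fm v y := by
      rw [fm_inv H v x, hv y, map_smul, fm_comm H x v, smul_eq_mul]
      ring
    have e3 : fm (br v x) v = 0 := by rw [fm_comm H, ExG_fm_br H]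
    have e4 : fm v (br v y) = 0 := ExG_fm_br H v y
    simp only [map_add, map_sub, map_smul, LinearMap.add_apply, LinearMap.sub_apply,
      LinearMap.smul_apply, smul_eq_mul, e1, e2, e3, e4, hv.fm_self H, fm_comm H x v]
    ring

theorem ExG_isExt_zero : IsExt (0 : LL C K) := by
  intro x
  simp

theorem ex_zero (H : Hyp C K) : ex (0 : LL C K) = 1 := by
  apply LinearEquiv.ext
  intro x
  rw [ex_apply' H ExG_isExt_zero]
  simp

theorem ex_add (H : Hyp C K) {v : LL C K} (hv : IsExt v) (s t : K) :
    ex ((s + t) • v) = ex (s • v) * ex (t • v) := by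
  apply LinearEquiv.ext
  intro x
  rw [LinearEquiv.mul_apply, ExG_ex H (hv.smul _), ExG_ex H (hv.smul _), ExG_ex H (hv.smul _),
    ExG_exl_comp H hv]

theorem ex_neg (H : Hyp C K) {v : LL C K} (hv : IsExt v) : ex (-v) = (ex v)⁻¹ := by
  have h1 := ex_add H hv (-1) 1
  rw [neg_add_cancel, zero_smul, ex_zero H, neg_one_smul, one_smul] at h1
  exact eq_inv_of_mul_eq_one_left h1.symm

theorem conj_ex (H : Hyp C K) {v : LL C K} (hv : IsExt v) {g : LL C K ≃ₗ[K] LL C K}
    (hg : g ∈ GG C K) : g * ex v * g⁻¹ = ex (g v) := by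
  apply LinearEquiv.ext
  intro x
  have h1 : g (g⁻¹ x) = x := g.apply_symm_apply x
  rw [LinearEquiv.mul_apply, LinearEquiv.mul_apply, ex_apply' H hv, ex_apply' H (hv.map hg),
    map_sub, map_add, map_smul, hg.1, h1, ← hg.2, h1]

theorem ex_pow (H : Hyp C K) {v : LL C K} (hv : IsExt v) (k : ℕ) :
    ex v ^ k = ex ((k : K) • v) := by
  induction k with
  | zero => rw [pow_zero, Nat.cast_zero, zero_smul, ex_zero H]
  | succ k ih =>
    rw [pow_succ, ih, Nat.cast_succ, ex_add H hv, one_smul]

theorem ex_eq_one (H : Hyp C K) {v : LL C K} (hv : IsExt v) (h : ex v = 1) : v = 0 := by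
  have h2 := two_ne H
  have h1 : ∀ x, br v x = fm v x • v := by
    intro x
    have h3 : ex v x = x := by
      rw [h]
      rfl
    rw [ex_apply' H hv, add_sub_assoc, add_eq_left, sub_eq_zero] at h3
    exact h3
  apply center_zero H
  intro x
  have h3 := hv x
  rw [h1 x, map_smul, br_self H, smul_zero] at h3
  have h4 : (2 : K) • (fm v x • v) = 0 := by
    rw [← neg_eq_zero, h3]
    module
  rw [h1 x]
  exact (smul_eq_zero.1 h4).resolve_left h2

/-- commuting extremal vectors whose sum is extremal -/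
theorem ex_add_comm (H : Hyp C K) {v w : LL C K} (hv : IsExt v) (hw : IsExt w)
    (hvw : IsExt (v + w)) (hb : br v w = 0) (hf : fm v w = 0) :
    ex (v + w) = ex v * ex w := by
  have h2 := two_ne H
  apply LinearEquiv.ext
  intro x
  rw [LinearEquiv.mul_apply, ex_apply' H hv, ex_apply' H hw, ex_apply' H hvw]
  have hwv : br w v = 0 := by rw [br_skew H, hb, neg_zero]
  have e1 : br v (br w x) = br w (br v x) := by
    rw [jac H v w x, hb, map_zero, LinearMap.zero_apply, zero_add]
  have e2 := hvw x
  simp only [map_add, LinearMap.add_apply] at e2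
  rw [hv x, hw x, ← e1] at e2
  have e3 : (2 : K) • br v (br w x) = (2 : K) • (-(fm v x • w) - fm w x • v) := by
    calc (2 : K) • br v (br w x) = ((-2 * fm v x) • v + br v (br w x) + (br v (br w x) +
          (-2 * fm w x) • w)) - (-2 * fm v x) • v - (-2 * fm w x) • w := by module
      _ = ((-2 * (fm v x + fm w x)) • (v + w)) - (-2 * fm v x) • v - (-2 * fm w x) • w := by
          rw [← e2]
      _ = _ := by module
  have e4 := smul_right_injective _ h2 e3
  have e5 : fm v (br w x) = 0 := by
    have h3 := fm_inv H w v x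
    rw [hwv, map_zero, LinearMap.zero_apply] at h3
    exact neg_eq_zero.1 h3.symm
  simp only [map_add, map_sub, map_smul, LinearMap.add_apply, hb, hf, e4, e5, smul_zero,
    add_zero, sub_zero]
  module

/-- commuting extremal vectors have commuting exponentials -/
theorem ex_commute (H : Hyp C K) {v w : LL C K} (hv : IsExt v) (hw : IsExt w)
    (hb : br v w = 0) : ex v * ex w = ex w * ex v := by
  have h2 := two_ne H
  have h1 : fm v w • v = 0 := by
    have h3 := hv w
    rw [hb, map_zero] at h3
    have h4 : (2 : K) • (fm v w • v) = 0 := by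
      rw [← neg_eq_zero, h3]
      module
    exact (smul_eq_zero.1 h4).resolve_left h2
  have h5 : ex v w = w := by rw [ex_apply' H hv, hb, h1, add_zero, sub_zero]
  have h6 := conj_ex H hw (ex_mem_GG H hv)
  rw [h5] at h6
  exact mul_inv_eq_iff_eq_mul.1 h6

end Pool.Agent.H33.EL
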