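import Pool.Agent.H33.EL.Defs

/-!
# EL-56: enumeration of the roots of E_6 (auxiliary file of `Hyp6`)

`C = CartanMatrix.E₆` (Bourbaki numbering).  Let `M` be the `8 × 6` integer matrix whose columns are
the doubled coordinates of the simple roots
`α1 = (1,-1,-1,-1,-1,-1,-1,1)`, `α2 = (2,2,0,…)`, `α3 = (-2,2,0,…)`, `α4 = (0,-2,2,0,…)`,
`α5 = (0,0,-2,2,0,…)`, `α6 = (0,0,0,-2,2,0,0,0)`.  `Mᵀ M = 4 C`, so
`4 ip x y = (M x) · (M y)`.  `D C = 3` for an integer matrix `D` (`det E₆ = 3`), and `3 ≠ 0` in `K`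
(`|K| = 7`).
* `nd`: `D (C h) = 3 h`.  `r0`: `3 y = D (C y)` has even coordinates, so `y` too.
* roots: 72; `y = M x` with `∑ y_k² = 8`, `y_6 = y_7 = -y_8` (`k = 6,7,8`): 40 vectors
  `±2 e_i ± 2 e_j` (`1 ≤ i < j ≤ 5`) and 32 vectors `±(1,…)` with `y_8 = ±1`.  List
  of the 72 vectors `x`, completeness, `ra`, `rb` by kernel computation on 72² pairs.
  (For product 0 in `rb` and products in `{0,1,-1}` in `ra`.)
-/

namespace Pool.Agent.H33.EL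

/-- tuples -/
abbrev Hyp6T := ℤ × ℤ × ℤ × ℤ × ℤ × ℤ

/-- the vector of a tuple -/
def Hyp6vec (t : Hyp6T) : Fin 6 → ℤ :=
  ![t.1, t.2.1, t.2.2.1, t.2.2.2.1, t.2.2.2.2.1, t.2.2.2.2.2]

/-- the tuple of a vector -/
def Hyp6tup (x : Fin 6 → ℤ) : Hyp6T := (x 0, x 1, x 2, x 3, x 4, x 5)

theorem Hyp6_vec_tup (x : Fin 6 → ℤ) : Hyp6vec (Hyp6tup x) = x := by
  funext i
  fin_cases i <;> rfl

/-- the image under the Cartan matrix -/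
def Hyp6pre : Hyp6T → Hyp6T
  | (a, b, c, d, e, f) => (2 * a - c, 2 * b - d, 2 * c - a - d, 2 * d - b - c - e,
      2 * e - d - f, 2 * f - e)

/-- the standard product -/
def Hyp6dot : Hyp6T → Hyp6T → ℤ
  | (a, b, c, d, e, f), (a', b', c', d', e', f') =>
    a * a' + b * b' + c * c' + d * d' + e * e' + f * f'

theorem Hyp6_ip (x y : Fin 6 → ℤ) :
    ip CartanMatrix.E₆ x y = Hyp6dot (Hyp6tup x) (Hyp6pre (Hyp6tup y)) := by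
  simp only [ip, Hyp6dot, Hyp6pre, Hyp6tup, CartanMatrix.E₆, Fin.sum_univ_succ]
  simp
  ring

/-- the list of roots -/
def Hyp6L : List Hyp6T :=
  [(-1, 0, -1, -1, -1, -1),
   (1, 1, 1, 1, 0, 0),
   (-1, -1, -2, -2, -1, 0),
   (0, -1, -1, -2, -2, -1),
   (1, 1, 2, 3, 2, 1),
   (1, 1, 1, 2, 1, 1),
   (0, -1, -1, -2, -1, -1),
   (0, 1, 0, 1, 1, 0),
   (0, 0, 1, 1, 1, 0),
   (0, 1, 1, 1, 0, 0),
   (-1, 0, -1, -1, 0, 0),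
   (0, -1, -1, -1, 0, 0),
   (-1, -1, -2, -2, -2, -1),
   (0, 1, 1, 2, 2, 1),
   (1, 1, 1, 2, 2, 1),
   (-1, -1, -1, -2, -2, -1),
   (0, 1, 1, 1, 1, 0),
   (1, 1, 2, 2, 2, 1),
   (-1, -2, -2, -3, -2, -1),
   (0, 1, 0, 1, 1, 1),
   (0, 0, 0, 1, 0, 0),
   (0, 0, -1, 0, 0, 0),
   (0, 0, 0, -1, 0, 0),
   (0, 0, 0, 0, -1, -1),
   (0, -1, 0, -1, 0, 0),
   (1, 1, 1, 1, 1, 1),
   (0, 0, 1, 1, 1, 1),
   (0, 0, 0, 1, 1, 0),
   (0, -1, 0, -1, -1, 0),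
   (1, 1, 2, 2, 1, 0),
   (0, 0, 1, 1, 0, 0),
   (0, 0, 0, 1, 1, 1),
   (0, 0, 0, 0, -1, 0),
   (0, 1, 1, 1, 1, 1),
   (0, -1, 0, 0, 0, 0),
   (0, 0, 0, 0, 0, 1),
   (0, 1, 0, 1, 0, 0),
   (1, 0, 1, 0, 0, 0),
   (0, 1, 1, 2, 1, 1),
   (1, 2, 2, 3, 2, 1),
   (0, -1, 0, -1, -1, -1),
   (1, 0, 1, 1, 0, 0),
   (0, 0, 1, 0, 0, 0),
   (-1, -1, -1, -1, 0, 0),
   (0, 0, 0, 0, 1, 1),
   (0, -1, -1, -1, -1, 0),
   (1, 0, 0, 0, 0, 0),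
   (0, 0, -1, -1, 0, 0),
   (0, -1, -1, -2, -1, 0),
   (1, 1, 1, 1, 1, 0),
   (0, 0, -1, -1, -1, 0),
   (-1, -1, -1, -2, -1, 0),
   (0, 0, 0, 0, 1, 0),
   (1, 1, 2, 2, 1, 1),
   (0, -1, -1, -1, -1, -1),
   (0, 1, 1, 2, 1, 0),
   (0, 1, 0, 0, 0, 0),
   (-1, -1, -1, -1, -1, -1),
   (-1, -1, -2, -3, -2, -1),
   (-1, 0, -1, 0, 0, 0),
   (-1, 0, -1, -1, -1, 0),
   (1, 1, 1, 2, 1, 0),
   (-1, -1, -1, -2, -1, -1),
   (1, 0, 1, 1, 1, 0),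
   (-1, -1, -2, -2, -1, -1),
   (-1, 0, 0, 0, 0, 0),
   (1, 0, 1, 1, 1, 1),
   (0, 0, 0, 0, 0, -1),
   (0, 0, 0, -1, -1, -1),
   (0, 0, 0, -1, -1, 0),
   (-1, -1, -1, -1, -1, 0),
   (0, 0, -1, -1, -1, -1)]

theorem Hyp6_two : (Hyp6L.all fun t => Hyp6dot t (Hyp6pre t) == 2) = true := by
  decide +kernel

/-- check for the rule `ra` -/
def Hyp6ra (L : List Hyp6T) : Bool :=
  L.all fun a => let a' := Hyp6pre a; L.all fun b => let b' := Hyp6pre b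
    let k := Hyp6dot a b'
    !(k == 0 || k == 1 || k == -1) || L.any fun y => Hyp6dot y a' == 1 && Hyp6dot y b' == 0

/-- check for the rule `rb` -/
def Hyp6rb (L : List Hyp6T) : Bool :=
  L.all fun a => let a' := Hyp6pre a; L.all fun b => let b' := Hyp6pre b
    let k := Hyp6dot a b'
    !(k == 0) || L.any fun y => Hyp6dot y a' == 1 && Hyp6dot y b' == -1

theorem Hyp6_ra : Hyp6ra Hyp6L = true := by
  decide +kernel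

theorem Hyp6_rb : Hyp6rb Hyp6L = true := by
  decide +kernel

/-- reconstruct the tuple from the Euclidean coordinates -/
def Hyp6rec (x1 y1 y2 y3 y4 y5 : ℤ) : Hyp6T :=
  let x6 := (y5 + x1) / 2
  let x5 := (y4 + x1) / 2 + x6
  let x4 := (y3 + x1) / 2 + x5
  let x2 := (y1 + y2 + 2 * x4) / 4
  let x3 := (y2 - y1 + 2 * x1 + 2 * x4) / 4
  (x1, x2, x3, x4, x5, x6)

/-- completeness check -/
def Hyp6cmp : Bool :=
  ([-1, 0, 1] : List ℤ).all fun x1 => ([-2, -1, 0, 1, 2] : List ℤ).all fun y1 =>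
  ([-2, -1, 0, 1, 2] : List ℤ).all fun y2 => ([-2, -1, 0, 1, 2] : List ℤ).all fun y3 =>
  ([-2, -1, 0, 1, 2] : List ℤ).all fun y4 => ([-2, -1, 0, 1, 2] : List ℤ).all fun y5 =>
    !(y1 * y1 + y2 * y2 + y3 * y3 + y4 * y4 + y5 * y5 + 3 * (x1 * x1) == 8) ||
    !((y1 - x1) % 2 == 0 && (y2 - x1) % 2 == 0 && (y3 - x1) % 2 == 0 && (y4 - x1) % 2 == 0 &&
      (y5 - x1) % 2 == 0) ||
    (let t := Hyp6rec x1 y1 y2 y3 y4 y5
     !(Hyp6dot t (Hyp6pre t) == 2) || Hyp6L.contains t)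

theorem Hyp6_cmp : Hyp6cmp = true := by
  decide +kernel

end Pool.Agent.H33.EL
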