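import Pool.Agent.H33.EL.Defs

/-!
# EL-55/56: one root suffices for the hypotheses `ra`, `rb`

`HypA_P a` is the conjunction of the hypotheses `ra` and `rb` of the structure `Hyp` for the root
`a` and all roots `b`.  If it holds for one root `a0`, then for all roots: it is invariant under
reflections; if `ip a a0 = 1` then the reflection in `a - a0` maps `a` to `a0`; if `ip a a0 = 0`
then `HypA_P a0` gives a root `y` with `ip y a0 = 1`, `ip y a = -1`, and the reflection in `a + y`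
maps `a` to `-y`.
-/

namespace Pool.Agent.H33.EL

variable {n : ℕ} {C : Matrix (Fin n) (Fin n) ℤ}

theorem HypA_add_left (x y z : Fin n → ℤ) : ip C (x + y) z = ip C x z + ip C y z := by
  simp only [ip, Pi.add_apply, add_mul, Finset.sum_add_distrib]

theorem HypA_smul_left (k : ℤ) (x y : Fin n → ℤ) : ip C (k • x) y = k * ip C x y := by
  simp only [ip, Pi.smul_apply, smul_eq_mul, mul_assoc, Finset.mul_sum]

theorem HypA_neg_left (x y : Fin n → ℤ) : ip C (-x) y = -ip C x y := by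
  have := HypA_smul_left (C := C) (-1) x y
  rwa [neg_smul, one_smul, neg_mul, one_mul] at this

theorem HypA_sub_left (x y z : Fin n → ℤ) : ip C (x - y) z = ip C x z - ip C y z := by
  rw [sub_eq_add_neg, HypA_add_left, HypA_neg_left, sub_eq_add_neg]

theorem HypA_comm (hs : ∀ i j, C i j = C j i) (x y : Fin n → ℤ) : ip C x y = ip C y x := by
  simp only [ip]
  rw [Finset.sum_comm]
  refine Finset.sum_congr rfl fun i _ => Finset.sum_congr rfl fun j _ => ?_
  rw [hs]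
  ring

theorem HypA_sub_right (hs : ∀ i j, C i j = C j i) (x y z : Fin n → ℤ) :
    ip C x (y - z) = ip C x y - ip C x z := by
  rw [HypA_comm hs, HypA_sub_left, HypA_comm hs y, HypA_comm hs z]

theorem HypA_add_right (hs : ∀ i j, C i j = C j i) (x y z : Fin n → ℤ) :
    ip C x (y + z) = ip C x y + ip C x z := by
  rw [HypA_comm hs, HypA_add_left, HypA_comm hs y, HypA_comm hs z]

theorem HypA_smul_right (hs : ∀ i j, C i j = C j i) (k : ℤ) (x y : Fin n → ℤ) :
    ip C x (k • y) = k * ip C x y := by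
  rw [HypA_comm hs, HypA_smul_left, HypA_comm hs y]

theorem HypA_neg_right (hs : ∀ i j, C i j = C j i) (x y : Fin n → ℤ) :
    ip C x (-y) = -ip C x y := by
  rw [HypA_comm hs, HypA_neg_left, HypA_comm hs y]

/-- the hypotheses `ra` and `rb` for the root `a` -/
def HypA_P (C : Matrix (Fin n) (Fin n) ℤ) (a : Rt C) : Prop :=
  ∀ b : Rt C, ((ip C a.1 b.1 = 0 ∨ ip C a.1 b.1 = 1 ∨ ip C a.1 b.1 = -1) →
      ∃ y : Rt C, ip C y.1 a.1 = 1 ∧ ip C y.1 b.1 = 0) ∧
    (ip C a.1 b.1 = 0 → ∃ y : Rt C, ip C y.1 a.1 = 1 ∧ ip C y.1 b.1 = -1)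

/-- reflection -/
def HypA_sr (hs : ∀ i j, C i j = C j i) (r x : Rt C) : Rt C :=
  ⟨x.1 - ip C x.1 r.1 • r.1, by
    have h1 : ip C x.1 x.1 = 2 := x.2
    have h2 : ip C r.1 r.1 = 2 := r.2
    rw [HypA_sub_left, HypA_sub_right hs, HypA_sub_right hs, HypA_smul_left, HypA_smul_right hs,
      HypA_smul_right hs, HypA_smul_left, h1, h2, HypA_comm hs r.1 x.1]
    ring⟩

theorem HypA_sr_ip (hs : ∀ i j, C i j = C j i) (r x y : Rt C) :
    ip C (HypA_sr hs r x).1 (HypA_sr hs r y).1 = ip C x.1 y.1 := by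
  have h2 : ip C r.1 r.1 = 2 := r.2
  show ip C (x.1 - ip C x.1 r.1 • r.1) (y.1 - ip C y.1 r.1 • r.1) = ip C x.1 y.1
  rw [HypA_sub_left, HypA_sub_right hs, HypA_sub_right hs, HypA_smul_left, HypA_smul_right hs,
    HypA_smul_right hs, HypA_smul_left, h2, HypA_comm hs r.1 y.1]
  ring

theorem HypA_sr_adj (hs : ∀ i j, C i j = C j i) (r x y : Rt C) :
    ip C (HypA_sr hs r x).1 y.1 = ip C x.1 (HypA_sr hs r y).1 := by
  show ip C (x.1 - ip C x.1 r.1 • r.1) y.1 = ip C x.1 (y.1 - ip C y.1 r.1 • r.1)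
  rw [HypA_sub_left, HypA_sub_right hs, HypA_smul_left, HypA_smul_right hs,
    HypA_comm hs r.1 y.1]
  ring

theorem HypA_P_sr (hs : ∀ i j, C i j = C j i) (r a : Rt C) (h : HypA_P C (HypA_sr hs r a)) :
    HypA_P C a := by
  intro b
  have h1 := h (HypA_sr hs r b)
  rw [HypA_sr_ip] at h1
  refine ⟨fun h2 => ?_, fun h2 => ?_⟩
  · obtain ⟨y, hy, hy'⟩ := h1.1 h2
    exact ⟨HypA_sr hs r y, by rw [HypA_sr_adj, hy], by rw [HypA_sr_adj, hy']⟩
  · obtain ⟨y, hy, hy'⟩ := h1.2 h2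
    exact ⟨HypA_sr hs r y, by rw [HypA_sr_adj, hy], by rw [HypA_sr_adj, hy']⟩

theorem HypA_P_ng (hs : ∀ i j, C i j = C j i) (a : Rt C) (h : HypA_P C a) :
    HypA_P C (ng a) := by
  have h1 : ip C a.1 a.1 = 2 := a.2
  apply HypA_P_sr hs a (ng a)
  have h2 : HypA_sr hs a (ng a) = a := by
    apply Subtype.ext
    show -a.1 - ip C (-a.1) a.1 • a.1 = a.1
    rw [HypA_neg_left, h1, neg_smul, two_smul]
    abel
  rwa [h2]

theorem HypA_P_one (hs : ∀ i j, C i j = C j i) {a b : Rt C} (hab : ip C a.1 b.1 = 1)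
    (h : HypA_P C a) : HypA_P C b := by
  have h1 : ip C a.1 a.1 = 2 := a.2
  have h2 : ip C b.1 b.1 = 2 := b.2
  have hba : ip C b.1 a.1 = 1 := by rw [HypA_comm hs, hab]
  have h3 : ip C (b.1 - a.1) (b.1 - a.1) = 2 := by
    rw [HypA_sub_left, HypA_sub_right hs, HypA_sub_right hs, h1, h2, hab, hba]
    norm_num
  apply HypA_P_sr hs ⟨b.1 - a.1, h3⟩ b
  have h4 : HypA_sr hs ⟨b.1 - a.1, h3⟩ b = a := by
    apply Subtype.ext
    show b.1 - ip C b.1 (b.1 - a.1) • (b.1 - a.1) = a.1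
    rw [HypA_sub_right hs, h2, hba]
    norm_num
  rwa [h4]

theorem HypA_P_neg_one (hs : ∀ i j, C i j = C j i) {a b : Rt C} (hab : ip C a.1 b.1 = -1)
    (h : HypA_P C a) : HypA_P C b := by
  refine HypA_P_one hs (a := ng a) ?_ (HypA_P_ng hs a h)
  show ip C (-a.1) b.1 = 1
  rw [HypA_neg_left, hab, neg_neg]

theorem HypA_cases (hs : ∀ i j, C i j = C j i) (hp : ∀ x : Fin n → ℤ, x ≠ 0 → 0 < ip C x x)
    (a b : Rt C) :
    b = a ∨ b = ng a ∨ ip C a.1 b.1 = 0 ∨ ip C a.1 b.1 = 1 ∨ ip C a.1 b.1 = -1 := by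
  have h1 : ip C a.1 a.1 = 2 := a.2
  have h2 : ip C b.1 b.1 = 2 := b.2
  by_cases h3 : b.1 - a.1 = 0
  · exact Or.inl (Subtype.ext (sub_eq_zero.mp h3))
  · by_cases h4 : b.1 + a.1 = 0
    · exact Or.inr (Or.inl (Subtype.ext (by
        show b.1 = -a.1
        exact eq_neg_of_add_eq_zero_left h4)))
    · have h5 := hp _ h3
      have h6 := hp _ h4
      rw [HypA_sub_left, HypA_sub_right hs, HypA_sub_right hs, h1, h2, HypA_comm hs b.1] at h5
      rw [HypA_add_left, HypA_add_right hs, HypA_add_right hs, h1, h2, HypA_comm hs b.1] at h6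
      omega

/-- one root suffices -/
theorem HypA_all (hs : ∀ i j, C i j = C j i) (hp : ∀ x : Fin n → ℤ, x ≠ 0 → 0 < ip C x x)
    (a0 : Rt C) (h : HypA_P C a0) (a : Rt C) : HypA_P C a := by
  rcases HypA_cases hs hp a0 a with h1 | h1 | h1 | h1 | h1
  · rwa [h1]
  · rw [h1]
    exact HypA_P_ng hs a0 h
  · obtain ⟨y, hy1, hy2⟩ := (h a).2 h1
    have h2 : HypA_P C y := HypA_P_one hs (by rw [HypA_comm hs]; exact hy1) h
    exact HypA_P_neg_one hs hy2 h2
  · exact HypA_P_one hs h1 h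
  · exact HypA_P_neg_one hs h1 h

end Pool.Agent.H33.EL
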