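import Pool.Agent.H33.EL.Jac

/-!
# EL-05: the invariant form, extremality of root vectors, the centre

* `fm_comm`: reindex the sum by `ng`.
* `fm_inv`: trilinear, check basis vectors: `(e_a, e_(-a), h)`: see header of `Jac`; for
  `e_a, e_b, e_c` both sides vanish unless `a+b+c=0` and then `ε(a,b)·(-1)` against
  `ε(a,c)·(+1)`, `ε(a,c) = ε(a,-a-b) = -ε(a,b)`.
* `isExt_e`: `[e_a,[e_a,x]] = -2 fm(e_a,x) e_a = 2 x_(-a) e_a`: on `hh h`:
  `[e_a, -(h,a) e_a] = 0`; on `e_b`, `(a,b) ≥ 0`: 0; `(a,b) = -1`: `[e_a, e_(a+b)]`, product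
  `(a,a+b) = 1`, is 0; on `e_(-a)`: `[e_a,-h_a] = 2 e_a`.
* `ext` vectors: `fm v v = 0` (take `x = v` in the definition, `[v,v]=0`, char not 2).
* `ext_fst_ne`: a non zero extremal vector has a non zero root coordinate: if `v = hh h` then for
  `x = hh k`: `0 = -2 (h,k) v`, so `(h,k) = 0` for all `k`, `h = 0` by `fk_nondeg`.
-/

namespace Pool.Agent.H33.EL

variable {n : ℕ} {C : Matrix (Fin n) (Fin n) ℤ} {K : Type} [Field K] [Fintype (Rt C)]

theorem two_ne (H : Hyp C K) : (2 : K) ≠ 0 := by
  intro h2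
  have h1 : addOrderOf (1 : K) ∣ 2 := by
    rw [addOrderOf_dvd_iff_nsmul_eq_zero]
    rw [nsmul_eq_mul, mul_one]
    exact_mod_cast h2
  have h3 : addOrderOf (1 : K) ∣ Nat.card K := addOrderOf_dvd_natCard 1
  have h4 : addOrderOf (1 : K) ∣ 1 := by
    rcases H.card with h | h | h
    · rw [h] at h3
      exact (Nat.dvd_add_right (Dvd.dvd.mul_right h1 3)).mp h3
    · rw [h] at h3
      exact (Nat.dvd_add_right (Dvd.dvd.mul_right h1 4)).mp h3
    · rw [h] at h3
      exact (Nat.dvd_add_right (Dvd.dvd.mul_right h1 5)).mp h3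
  rw [addOrderOf_dvd_iff_nsmul_eq_zero, one_nsmul] at h4
  exact one_ne_zero h4

theorem fm_comm (H : Hyp C K) (x y : LL C K) : fm x y = fm y x := by
  show fmf x y = fmf y x
  unfold fmf
  rw [fk_comm H]
  congr 1
  have hi : Function.Involutive (ng : Rt C → Rt C) := ng_ng
  rw [← Equiv.sum_comp hi.toPerm]
  refine Finset.sum_congr rfl fun a _ => ?_
  show x.2 (ng a) * y.2 (ng (ng a)) = y.2 a * x.2 (ng a)
  rw [ng_ng, mul_comm]

omit [Fintype (Rt C)] in
theorem Inv_ng_ne {a b : Rt C} (h : b ≠ ng a) : ng b ≠ a := by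
  intro h1
  apply h
  rw [← h1, ng_ng]

theorem Inv_fm_inv_hh (H : Hyp C K) (h : Fin n → K) (y z : LL C K) :
    fm (br (hh C h) y) z = -fm y (br (hh C h) z) := by
  show fmf (br (hh C h) y) z = -fmf y (br (hh C h) z)
  unfold fmf
  rw [br_hh_fst, br_hh_fst, fk_zero_left, fk_zero_right]
  simp only [br_hh_snd]
  rw [zero_sub, zero_sub, neg_neg, ← Finset.sum_neg_distrib]
  refine Finset.sum_congr rfl fun a _ => ?_
  rw [ng_val, zk_neg, fk_neg_right]
  ring

theorem Inv_fm_inv_e_hh (H : Hyp C K) (a : Rt C) (k : Fin n → K) (z : LL C K) :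
    fm (br (e K a) (hh C k)) z = -fm (hh C k) (br (e K a) z) := by
  rw [br_e_hh, map_smul, LinearMap.smul_apply, fm_e_left, fm_hh_left, br_e_fst H, fk_smul_right,
    smul_eq_mul]
  ring

theorem Inv_fm_inv_e_e (H : Hyp C K) (a b : Rt C) (z : LL C K) :
    fm (br (e K a) (e K b)) z = -fm (e K b) (br (e K a) z) := by
  rw [fm_e_left, neg_neg]
  by_cases hb : b = ng a
  · rw [hb, br_e_ng H, map_neg, LinearMap.neg_apply, fm_hh_left, ng_ng, br_e_snd_self H,
      fk_comm H]
  · have hb' := Inv_ng_ne hb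
    by_cases hm : ip C a.1 b.1 = -1
    · have hc := root_add H hm
      have hz : (ng (⟨a.1 + b.1, hc⟩ : Rt C)).1 = (ng b).1 - a.1 := by
        rw [ng_val, ng_val]
        show -(a.1 + b.1) = -b.1 - a.1
        abel
      have hr : ip C (ng b).1 a.1 = 1 := by
        rw [ng_val, ip_neg_left, ip_comm H.symm, hm]
        rfl
      rw [br_e_e_add H (c := ⟨a.1 + b.1, hc⟩) rfl, map_smul, LinearMap.smul_apply, fm_e_left,
        br_e_snd H a z (ng b) hr _ hz, ng_val, ek_neg_right]
      show ek K C a.1 b.1 • -z.2 _ = ek K C a.1 (a.1 + b.1) * z.2 _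
      rw [ek_add_right, ek_self H, smul_eq_mul]
      ring
    · have h0 : 0 ≤ ip C a.1 b.1 := by
        rcases ip_cases H a b with h | h | h | h | h
        · exact absurd h hb
        · exact absurd h hm
        · rw [h]
        · rw [h]; norm_num
        · rw [h, a.2]; norm_num
      rw [br_e_e_zero H h0, map_zero, LinearMap.zero_apply]
      symm
      apply br_e_snd_zero H a z (ng b) _ hb'
      rw [ng_val, ip_neg_left, ip_comm H.symm]
      omega

theorem Inv_fm_inv_e (H : Hyp C K) (a : Rt C) (y z : LL C K) :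
    fm (br (e K a) y) z = -fm y (br (e K a) z) := by
  have key : (fm.flip z).comp (br (e K a)) = -(fm.flip (br (e K a) z)) := by
    apply ext_basis
    · intro k
      exact Inv_fm_inv_e_hh H a k z
    · intro b
      exact Inv_fm_inv_e_e H a b z
  exact LinearMap.congr_fun key y

theorem fm_inv (H : Hyp C K) (x y z : LL C K) : fm (br x y) z = -fm y (br x z) := by
  have key : (fm.flip z).comp (br.flip y) = -((fm y).comp (br.flip z)) := by
    apply ext_basis
    · intro h
      exact Inv_fm_inv_hh H h y z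
    · intro a
      exact Inv_fm_inv_e H a y z
  exact LinearMap.congr_fun key x

theorem fm_nondeg (H : Hyp C K) (x : LL C K) (h : ∀ y : LL C K, fm x y = 0) : x = 0 := by
  refine Prod.ext ?_ (funext fun a => ?_)
  · apply fk_nondeg H
    intro a
    have := h (hh C (zk a.1))
    rwa [fm_hh_right] at this
  · have := h (e K (ng a))
    rw [fm_e_right, ng_ng] at this
    exact neg_eq_zero.mp this

theorem isExt_e (H : Hyp C K) (a : Rt C) : IsExt (e K a) := by
  intro x
  have h2 : br (e K a) (e K a) = 0 := br_e_e_zero H (by rw [a.2]; norm_num)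
  have key : (br (e K a)).comp (br (e K a)) =
      ((-2 : K) • fm (e K a)).smulRight (e K a) := by
    apply ext_basis
    · intro h
      show br (e K a) (br (e K a) (hh C h)) = ((-2 : K) * fm (e K a) (hh C h)) • e K a
      rw [br_e_hh, map_smul, h2, smul_zero, fm_e_left, hh_snd, neg_zero, mul_zero, zero_smul]
    · intro b
      show br (e K a) (br (e K a) (e K b)) = ((-2 : K) * fm (e K a) (e K b)) • e K a
      rw [fm_e_left]
      by_cases hb : b = ng a
      · rw [hb, br_e_ng H, map_neg, br_e_hh, e_snd_self, fk_zk_zk, a.2, neg_smul, neg_neg]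
        norm_num
      · rw [e_snd_ne (Ne.symm hb), neg_zero, mul_zero, zero_smul]
        by_cases hm : ip C a.1 b.1 = -1
        · have hc := root_add H hm
          rw [br_e_e_add H (c := ⟨a.1 + b.1, hc⟩) rfl, map_smul, br_e_e_zero H, smul_zero]
          show 0 ≤ ip C a.1 (a.1 + b.1)
          rw [ip_add_right, a.2, hm]
          norm_num
        · have h0 : 0 ≤ ip C a.1 b.1 := by
            rcases ip_cases H a b with h | h | h | h | h
            · exact absurd h hb
            · exact absurd h hm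
            · rw [h]
            · rw [h]; norm_num
            · rw [h, a.2]; norm_num
          rw [br_e_e_zero H h0, map_zero]
  exact LinearMap.congr_fun key x

theorem IsExt.smul {v : LL C K} (hv : IsExt v) (s : K) : IsExt (s • v) := by
  intro x
  rw [map_smul, LinearMap.smul_apply, LinearMap.smul_apply, map_smul, hv, map_smul,
    LinearMap.smul_apply, smul_smul, smul_smul, smul_smul, smul_eq_mul]
  congr 1
  ring

theorem IsExt.map {v : LL C K} (hv : IsExt v) {g : LL C K ≃ₗ[K] LL C K} (hg : g ∈ GG C K) :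
    IsExt (g v) := by
  intro x
  obtain ⟨y, rfl⟩ := g.surjective x
  rw [← hg.1, ← hg.1, hv, map_smul, hg.2]

theorem IsExt.fm_self (H : Hyp C K) {v : LL C K} (hv : IsExt v) : fm v v = 0 := by
  have h1 := hv v
  rw [br_self H, map_zero] at h1
  rcases smul_eq_zero.mp h1.symm with h2 | h2
  · rcases mul_eq_zero.mp h2 with h3 | h3
    · exact absurd (neg_eq_zero.mp h3) (two_ne H)
    · exact h3
  · rw [h2, map_zero]

theorem ext_root_coord (H : Hyp C K) {v : LL C K} (hv : IsExt v) (h0 : v ≠ 0) :
    ∃ a : Rt C, v.2 (ng a) ≠ 0 := by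
  by_contra hcon
  push Not at hcon
  have h2 : v.2 = 0 := by
    funext b
    have := hcon (ng b)
    rwa [ng_ng] at this
  have h3 : v = hh C v.1 := Prod.ext rfl h2
  apply h0
  have h4 : v.1 = 0 := by
    apply fk_nondeg H
    intro a
    have h5 := hv (hh C (zk a.1))
    have h6 : br v (hh C (zk a.1)) = 0 := by
      rw [h3, br_hh_hh]
    have h7 : fm v (hh C (zk a.1)) = fk C v.1 (zk a.1) := fm_hh_right _ _
    rw [h6, map_zero, h7] at h5
    rcases smul_eq_zero.mp h5.symm with h8 | h8
    · rcases mul_eq_zero.mp h8 with h9 | h9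
      · exact absurd (neg_eq_zero.mp h9) (two_ne H)
      · exact h9
    · exact absurd h8 h0
  exact Prod.ext h4 h2

/-- the centre of the Lie algebra is zero -/
theorem center_zero (H : Hyp C K) (v : LL C K) (h : ∀ x : LL C K, br v x = 0) : v = 0 := by
  have h2 : v.2 = 0 := by
    funext r
    show v.2 r = 0
    by_contra hr
    have h3 : ∀ k : Fin n → K, fk C k (zk r.1) = 0 := by
      intro k
      have h4 : br (hh C k) v = 0 := by
        rw [br_skew H, h, neg_zero]
      have h5 := br_hh_snd k v r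
      rw [h4] at h5
      have h6 : fk C k (zk r.1) * v.2 r = 0 := h5.symm
      rcases mul_eq_zero.mp h6 with h7 | h7
      · exact h7
      · exact absurd h7 hr
    have h8 := h3 (zk r.1)
    rw [fk_zk_zk, r.2] at h8
    exact two_ne H (by exact_mod_cast h8)
  have h3 : v = hh C v.1 := Prod.ext rfl h2
  have h4 : v.1 = 0 := by
    apply fk_nondeg H
    intro a
    have h5 := h (e K a)
    rw [h3, br_hh_e] at h5
    rcases smul_eq_zero.mp h5 with h6 | h6
    · exact h6
    · exact absurd h6 (e_ne_zero a)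
  exact Prod.ext h4 h2

end Pool.Agent.H33.EL
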