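import Pool.Agent.H33.EL.LemCd

/-!
# EL-14: see part (2) of the header of `LemCd`
-/

namespace Pool.Agent.H33.EL

variable {n : ℕ} {C : Matrix (Fin n) (Fin n) ℤ} {K : Type} [Field K] [Fintype (Rt C)]

/-- the vector of a weight -/
def LemCb_vec (x : Option (Rt C)) : Fin n → ℤ :=
  match x with
  | none => 0
  | some a => a.1

theorem LemCb_wt (y : Fin n → ℤ) (c : Kˣ) (x : Option (Rt C)) :
    wt' (hd C y c : LL C K ≃ₗ[K] LL C K) x = ((c ^ (ip C y (LemCb_vec x)) : Kˣ) : K) := by
  cases x with
  | none =>
    show (1 : K) = _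
    rw [show LemCb_vec (none : Option (Rt C)) = 0 from rfl, ip_zero_right, zpow_zero,
      Units.val_one]
  | some a => exact wt_hd y c a

/-- equality of the `k`-th powers of two weights on `T1`, in terms of the form -/
theorem LemCb_dvd (H : Hyp C K) {k : ℕ} {x y : Option (Rt C)}
    (h : ∀ t ∈ T1 C K, wt' t x ^ k = wt' t y ^ k) (z : Fin n → ℤ) :
    ((Nat.card K - 1 : ℕ) : ℤ) ∣ k * (ip C z (LemCb_vec x) - ip C z (LemCb_vec y)) := by
  classical
  have hfin : Finite K := by
    apply Nat.finite_of_card_ne_zero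
    rcases H.card with h | h | h <;> rw [h] <;> norm_num
  have := Fintype.ofFinite K
  obtain ⟨c, hc⟩ := IsCyclic.exists_generator (α := Kˣ)
  have hord : orderOf c = Nat.card K - 1 := by
    rw [orderOf_eq_card_of_forall_mem_zpowers hc, Nat.card_eq_fintype_card, Fintype.card_units,
      Nat.card_eq_fintype_card]
  have h1 := h (hd C z c) (hd_mem_T1 H z c)
  rw [LemCb_wt, LemCb_wt, ← Units.val_pow_eq_pow_val, ← Units.val_pow_eq_pow_val] at h1
  have h2 := Units.ext h1
  rw [← zpow_natCast, ← zpow_natCast, ← zpow_mul, ← zpow_mul] at h2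
  have h3 : c ^ ((k : ℤ) * (ip C z (LemCb_vec x) - ip C z (LemCb_vec y))) = 1 := by
    rw [mul_sub, zpow_sub, mul_comm (k : ℤ), h2, mul_comm (k : ℤ), mul_inv_cancel]
  rw [← hord]
  exact orderOf_dvd_iff_zpow_eq_one.mpr h3

theorem LemCb_ip_le_one (H : Hyp C K) {a b : Rt C} (h : a ≠ b) : ip C a.1 b.1 ≤ 1 := by
  have h1 := ip_le_two H a b
  have h2 : ip C a.1 b.1 ≠ 2 := fun h2 => h (eq_of_ip_two H h2)
  omega

/-- job EL-14, first part: two different weights never agree up to sign -/
theorem no_sign (H : Hyp C K) {x y : Option (Rt C)} (hxy : x ≠ y) :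
    ∃ t ∈ T1 C K, wt' t x ^ 2 ≠ wt' t y ^ 2 := by
  by_contra hcon
  push Not at hcon
  have key := fun z => LemCb_dvd H (k := 2) hcon z
  have hm : ((Nat.card K - 1 : ℕ) : ℤ) = 6 ∨ ((Nat.card K - 1 : ℕ) : ℤ) = 8 ∨
      ((Nat.card K - 1 : ℕ) : ℤ) = 10 := by
    rcases H.card with h | h | h <;> rw [h] <;> norm_num
  -- a root against zero
  have h0 : ∀ a : Rt C, ¬ ((Nat.card K - 1 : ℕ) : ℤ) ∣ 2 * ip C a.1 a.1 := by
    intro a hd
    have h2 : ip C a.1 a.1 = 2 := a.2
    rw [h2] at hd
    rcases hm with h | h | h <;> rw [h] at hd <;> omega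
  cases x with
  | none =>
    cases y with
    | none => exact hxy rfl
    | some b =>
      have h1 := key b.1
      rw [show LemCb_vec (none : Option (Rt C)) = 0 from rfl,
        show LemCb_vec (some b) = b.1 from rfl, ip_zero_right, zero_sub, mul_neg,
        dvd_neg] at h1
      exact h0 b (by exact_mod_cast h1)
  | some a =>
    cases y with
    | none =>
      have h1 := key a.1
      rw [show LemCb_vec (none : Option (Rt C)) = 0 from rfl,
        show LemCb_vec (some a) = a.1 from rfl, ip_zero_right, sub_zero] at h1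
      exact h0 a (by exact_mod_cast h1)
    | some b =>
      have hab : a ≠ b := fun h => hxy (by rw [h])
      have hk : ∀ z : Fin n → ℤ, ((Nat.card K - 1 : ℕ) : ℤ) ∣ 2 * (ip C z a.1 - ip C z b.1) := by
        intro z
        exact_mod_cast key z
      have h1 := hk a.1
      have h2 : ip C a.1 a.1 = 2 := a.2
      rw [h2] at h1
      have h3 := neg_two_le_ip H a b
      have h4 := LemCb_ip_le_one H hab
      rcases hm with h | h | h
      · -- m = 6
        rw [h] at h1 hk
        have h5 : ip C a.1 b.1 = -1 := by omega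
        obtain ⟨y, hy1, hy2⟩ := H.ra a b (Or.inr (Or.inr h5))
        have h6 := hk y.1
        rw [hy1, hy2] at h6
        omega
      · -- m = 8
        rw [h] at h1 hk
        have h5 : ip C a.1 b.1 = -2 := by omega
        have h6 := eq_ng_of_ip H h5
        obtain ⟨y, hy⟩ := exists_one H a
        have h7 := hk y.1
        rw [h6, ng_val, ip_neg_right, hy] at h7
        omega
      · rw [h] at h1
        omega

/-- job EL-14, second part -/
theorem no_coset (H : Hyp C K) {r : ℕ} (hr : r.Prime) (hm : r ∣ Nat.card K - 1)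
    (γ : Fin r → Option (Rt C)) (hγ : Function.Injective γ)
    (h : ∀ i j, ∀ t ∈ T1 C K, wt' t (γ i) ^ r = wt' t (γ j) ^ r) : False := by
  have hr3 : r ≤ 10 := by
    have h1 : Nat.card K - 1 ≤ 10 ∧ 0 < Nat.card K - 1 := by
      rcases H.card with h | h | h <;> rw [h] <;> norm_num
    exact (Nat.le_of_dvd h1.2 hm).trans h1.1
  by_cases hr2 : r = 2
  · subst hr2
    have h01 : γ 0 ≠ γ 1 := fun h1 => by
      have := hγ h1
      exact absurd this (by decide)
    obtain ⟨t, ht, hne⟩ := no_sign H h01
    exact hne (h 0 1 t ht)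
  · -- r is odd, and m / r = 2
    have hmr : ((Nat.card K - 1 : ℕ) : ℤ) = r * 2 ∧ 3 ≤ r := by
      have h5 : r = 3 ∨ r = 5 ∨ r = 7 := by
        have := hr.two_le
        interval_cases r <;> first | omega | (exfalso; revert hr; norm_num) | skip
      rcases h5 with h5 | h5 | h5 <;> rcases H.card with h6 | h6 | h6 <;> subst h5 <;>
        rw [h6] at hm ⊢ <;> omega
    obtain ⟨hmr, hr3'⟩ := hmr
    have hrpos : (r : ℤ) ≠ 0 := by
      have := hr.pos
      positivity
    have key : ∀ i j, ∀ z : Fin n → ℤ,
        (2 : ℤ) ∣ ip C z (LemCb_vec (γ i)) - ip C z (LemCb_vec (γ j)) := by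
      intro i j z
      have h1 := LemCb_dvd H (h i j) z
      rw [hmr] at h1
      exact (mul_dvd_mul_iff_left hrpos).mp h1
    -- the difference is twice a vector, or its norm is 6 modulo 8
    have hnorm : ∀ i j,
        ip C (LemCb_vec (γ i) - LemCb_vec (γ j)) (LemCb_vec (γ i) - LemCb_vec (γ j)) % 8 = 0 ∨
        ip C (LemCb_vec (γ i) - LemCb_vec (γ j)) (LemCb_vec (γ i) - LemCb_vec (γ j)) % 8 = 6 := by
      intro i j
      have h1 : ∀ l, Even (∑ s, C l s * (LemCb_vec (γ i) - LemCb_vec (γ j)) s) := by
        intro l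
        rw [← ip_single_left, ip_sub_right]
        exact even_iff_two_dvd.mpr (key i j _)
      rcases H.r0 _ h1 with h2 | h2
      · left
        choose w hw using h2
        have hw' : LemCb_vec (γ i) - LemCb_vec (γ j) = w + w := funext hw
        obtain ⟨s, hs⟩ := even_norm H w
        rw [hw', ip_add_left, ip_add_right, hs]
        omega
      · exact Or.inr h2
    have hopp : ∀ i j, i ≠ j → LemCb_vec (γ j) = -LemCb_vec (γ i) ∧ LemCb_vec (γ i) ≠ 0 := by
      intro i j hij
      have hne : γ i ≠ γ j := fun h1 => hij (hγ h1)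
      have hq := hnorm i j
      cases hi : γ i with
      | none =>
        cases hj : γ j with
        | none => exact absurd (hi.trans hj.symm) hne
        | some b =>
          rw [hi, hj, show LemCb_vec (none : Option (Rt C)) = 0 from rfl,
            show LemCb_vec (some b) = b.1 from rfl, zero_sub, ip_neg_left, ip_neg_right,
            neg_neg] at hq
          have h2 : ip C b.1 b.1 = 2 := b.2
          omega
      | some a =>
        cases hj : γ j with
        | none =>
          rw [hi, hj, show LemCb_vec (none : Option (Rt C)) = 0 from rfl,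
            show LemCb_vec (some a) = a.1 from rfl, sub_zero] at hq
          have h2 : ip C a.1 a.1 = 2 := a.2
          omega
        | some b =>
          rw [hi, hj, show LemCb_vec (some a) = a.1 from rfl,
            show LemCb_vec (some b) = b.1 from rfl, Ip_norm_sub H] at hq
          have hab : a ≠ b := fun h1 => hne (by rw [hi, hj, h1])
          have h3 := neg_two_le_ip H a b
          have h4 := LemCb_ip_le_one H hab
          have h8 := key i j a.1
          rw [hi, hj, show LemCb_vec (some a) = a.1 from rfl,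
            show LemCb_vec (some b) = b.1 from rfl, show ip C a.1 a.1 = 2 from a.2] at h8
          have h5 : ip C a.1 b.1 = -2 := by omega
          have h6 := eq_ng_of_ip H h5
          refine ⟨?_, ?_⟩
          · show b.1 = -a.1
            rw [h6, ng_val]
          · show a.1 ≠ 0
            intro h7
            have h2 : ip C a.1 a.1 = 2 := a.2
            rw [h7, ip_zero_left] at h2
            omega
    have i0 : Fin r := ⟨0, by omega⟩
    obtain ⟨h1, h2⟩ := hopp ⟨0, by omega⟩ ⟨1, by omega⟩ (by simp)
    obtain ⟨h3, -⟩ := hopp ⟨0, by omega⟩ ⟨2, by omega⟩ (by simp)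
    obtain ⟨h4, -⟩ := hopp ⟨1, by omega⟩ ⟨2, by omega⟩ (by simp)
    rw [h1, neg_neg] at h4
    apply h2
    rw [h3] at h4
    funext s
    have := congrFun h4 s
    simp only [Pi.neg_apply, Pi.zero_apply] at this ⊢
    omega

end Pool.Agent.H33.EL
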