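import Pool.Agent.H33.EL.LemCa
import Pool.Agent.H33.EL.LemCb

/-!
# Lemma C' (assembled)
-/

namespace Pool.Agent.H33.EL

variable {n : ℕ} {C : Matrix (Fin n) (Fin n) ℤ} {K : Type} [Field K] [Fintype (Rt C)]

theorem lemC (H : Hyp C K) {g : LL C K ≃ₗ[K] LL C K} (hg : g ∈ GG C K)
    (h : ∀ t ∈ T1 C K, g * t * g⁻¹ ∈ NN C K) : g ∈ NN C K := by
  by_cases hmove : ∃ t ∈ T1 C K, ∃ a : Rt C, ∀ k : K, (g * t * g⁻¹) (e K a) ≠ k • e K a
  · obtain ⟨r, hr, hm, γ, hγ, h2⟩ := weights_coset H hg h hmove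
    exact (no_coset H hr hm γ hγ h2).elim
  · refine mem_NN_of_conj_TT H hg fun t ht => mem_TT_of H (NN_le_GG (h t ht)) fun a => ?_
    by_contra hcon
    exact hmove ⟨t, ht, a, fun k hk => hcon ⟨k, hk⟩⟩

end Pool.Agent.H33.EL
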