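import Pool.Agent.H33.EL.CaseA
import Pool.Agent.H33.EL.CaseB
import Pool.Agent.H33.EL.CCg
import Pool.Agent.H33.EL.CCj
import Pool.Agent.H27.E7.Cl7
import Pool.Agent.H27.E7.Orth
import Pool.Agent.H27.E7.NoBig

/-!
# The main theorem: (D) for all overgroups of `T1`
-/

namespace Pool.Agent.H33.EL

variable {n : ℕ} {C : Matrix (Fin n) (Fin n) ℤ} {K : Type} [Field K] [Fintype (Rt C)]

theorem no_ctx (H : Hyp C K) {p : ℕ} [Fact p.Prime] [CharP K p]
    {F : Subgroup (LL C K ≃ₗ[K] LL C K)} (X : Ctx F) : False := by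
  have main : Q8 F → False := by
    intro hq
    rcases classify H X hq with ⟨a, h⟩ | ⟨a, b, hab, h⟩ | ⟨a, b, c, hc, h⟩
    · exact case1 H X h
    · exact case2 H X hab h
    · exact case3 H X hc h
  rcases H.r1 with hr | h7
  · exact main (q8_of_strong H X hr)
  · by_cases hK : Nat.card K = 9
    · exact main (Pool.Agent.H27.E7.q8_nine H X h7 hK)
    · rcases Pool.Agent.H27.E7.cl7 H X with h | ⟨a, b, c, hc, h⟩ | hb
      · exact Pool.Agent.H27.E7.case_orth H (p := p) X h
      · exact case3 H X hc h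
      · refine Pool.Agent.H27.E7.no_big H X hb h7 ?_
        rcases H.card with h | h | h
        · exact Or.inl h
        · exact absurd h hK
        · exact Or.inr h

/-- Proposition C -/
theorem propC (H : Hyp C K) {p : ℕ} [Fact p.Prime] [CharP K p]
    (F : Subgroup (LL C K ≃ₗ[K] LL C K)) (hF : F ≤ GG C K) (hT : T1 C K ≤ F)
    (hS : ∀ a : Rt C, a ∉ SF F)
    (IH : ∀ F' : Subgroup (LL C K ≃ₗ[K] LL C K), F' ≤ GG C K → T1 C K ≤ F' →
      Nat.card F' < Nat.card F → Dst F') : F ≤ NN C K := by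
  by_contra hN
  have hfin : Finite (LL C K ≃ₗ[K] LL C K) := finite_group H
  refine no_ctx H (p := p) (F := F) ⟨hF, hT, hS, ?_, hN⟩
  intro F' hle hT' hne f hf
  have hcard : Nat.card F' < Nat.card F := by
    have h1 : (F' : Set (LL C K ≃ₗ[K] LL C K)) ⊂ F :=
      SetLike.coe_ssubset_coe.2 (lt_of_le_of_ne hle hne)
    exact Set.ncard_lt_ncard h1 (Set.toFinite _)
  have hD := IH F' (hle.trans hF) hT' hcard
  obtain ⟨c, hc, hc'⟩ := hD f (hF (hle hf)) (by
    intro t ht
    exact mul_mem (mul_mem hf (hT' ht)) (inv_mem hf))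
  have hFo : Fo F' ≤ NN C K := by
    unfold Fo
    rw [Subgroup.closure_le]
    rintro x (⟨-, hx⟩ | ⟨a, ha, -⟩)
    · exact TT_le_NN hx
    · exact (hS a fun s => hle (ha s)).elim
  have := mul_mem (hFo hc) hc'
  simpa using this

/-- the main theorem -/
theorem main (H : Hyp C K) {p : ℕ} [Fact p.Prime] [CharP K p] :
    ∀ (N : ℕ) (F : Subgroup (LL C K ≃ₗ[K] LL C K)), Nat.card F = N → F ≤ GG C K →
      T1 C K ≤ F → Dst F := by
  intro N
  induction N using Nat.strong_induction_on with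
  | _ N ih =>
    intro F hN hF hT
    have IH : ∀ F' : Subgroup (LL C K ≃ₗ[K] LL C K), F' ≤ GG C K → T1 C K ≤ F' →
        Nat.card F' < Nat.card F → Dst F' :=
      fun F' h1 h2 h3 => ih _ (hN ▸ h3) F' rfl h1 h2
    by_cases hO : ∀ P : Subgroup (LL C K ≃ₗ[K] LL C K), P ≤ F →
        (∀ f ∈ F, ∀ u ∈ P, f * u * f⁻¹ ∈ P) → IsPGroup p P → P = ⊥
    swap
    · push Not at hO
      obtain ⟨P, h1, h2, h3, h4⟩ := hO
      exact caseA H F P hF hT h1 h2 h3 h4 IH
    by_cases hS : ∀ g ∈ GG C K, T1 C K ≤ cj g F → (SF (cj g F)).Nonempty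
    · have h1 : cj 1 F = F := by
        ext x
        simp [mem_cj]
      have hS0 : (SF F).Nonempty := by
        have := hS 1 (one_mem _) (by rw [h1]; exact hT)
        rwa [h1] at this
      exact caseB H F hF hT hO hS0 hS IH
    · push Not at hS
      obtain ⟨g, hg, hgT, hgS⟩ := hS
      have hgS' : ∀ a : Rt C, a ∉ SF (cj g F) := by
        intro a ha
        rw [Set.eq_empty_iff_forall_notMem] at hgS
        exact hgS a ha
      have hle : cj g F ≤ NN C K := propC H (p := p) (cj g F) (cj_le_GG hg hF) hgT hgS'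
        (fun F' h1 h2 h3 => IH F' h1 h2 (by rwa [card_cj] at h3))
      -- `g ∈ NN`
      have hgN : g⁻¹ ∈ NN C K := by
        refine lemC H (inv_mem hg) fun t ht => hle ?_
        rw [mem_cj]
        simpa [mul_assoc] using hT ht
      have hgN' : g ∈ NN C K := by simpa using inv_mem hgN
      intro g' hg' hgT'
      refine ⟨1, one_mem _, ?_⟩
      have h2 : g⁻¹ * g' ∈ NN C K := by
        refine lemC H (mul_mem (inv_mem hg) hg') fun t ht => hle ?_
        rw [mem_cj]
        have := hgT' ht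
        rw [mem_cj] at this
        simpa [mul_assoc] using this
      have := mul_mem hgN' h2
      simpa using this

theorem dst_all (H : Hyp C K) {p : ℕ} [Fact p.Prime] [CharP K p]
    (F : Subgroup (LL C K ≃ₗ[K] LL C K)) (hF : F ≤ GG C K) (hT : T1 C K ≤ F) : Dst F :=
  main H (p := p) _ F rfl hF hT

end Pool.Agent.H33.EL
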