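import Pool.Agent.H33.EL.Tor

/-!
# EL-11: the stabiliser `NN` of the zero weight space

Let `g ∈ NN`.  For `h` over `K`, `[g (hh h), g (e a)] = (h,a) g (e a)`, and `g (hh h)` runs over
`L0`.  So `g (e a)` is a simultaneous eigenvector of `ad L0` with a non zero functional; the
simultaneous eigenspaces are `L0` and the `K e_b` (different functionals, see `Tor`), so
`g (e a) = k_a e_(w a)`.  `w` is injective (g is bijective), so a permutation.  From
`fm (e_a) (e_(-a)) = -1`: `w (-a) = - w a` and `k_a k_(-a) = 1`; so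
`g h_a = - g [e_a,e_(-a)] = h_(w a)`.  `fm (g h_a) (g h_b) = fm h_a h_b` gives
`ip (w a) (w b) = ip a b` in `K`; the values `±2` are taken exactly for `b = ±a`
(so for `w b = ± w a`), and `-1, 0, 1` are different in `K` (char not 2), so they agree.
-/

namespace Pool.Agent.H33.EL

variable {n : ℕ} {C : Matrix (Fin n) (Fin n) ℤ} {K : Type} [Field K] [Fintype (Rt C)]

theorem NorA_inj (H : Hyp C K) {a b : Rt C}
    (h : ∀ y : Rt C, ((ip C y.1 a.1 : ℤ) : K) = ((ip C y.1 b.1 : ℤ) : K)) : a = b := by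
  have h2 := two_ne H
  have hra : (ip C a.1 b.1 = 0 ∨ ip C a.1 b.1 = 1 ∨ ip C a.1 b.1 = -1) → a = b := by
    intro hab
    obtain ⟨y, hy1, hy2⟩ := H.ra a b hab
    have h3 := h y
    rw [hy1, hy2, Int.cast_one, Int.cast_zero] at h3
    exact absurd h3 one_ne_zero
  rcases ip_cases H a b with h1 | h1 | h1 | h1 | h1
  · obtain ⟨y, hy⟩ := exists_one H a
    have h3 := h y
    rw [h1, ng_val, ip_neg_right, hy, Int.cast_neg, Int.cast_one] at h3
    exfalso
    apply h2
    calc (2 : K) = 1 + 1 := by norm_num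
      _ = -1 + 1 := by rw [← h3]
      _ = 0 := by norm_num
  · exact hra (Or.inr (Or.inr h1))
  · exact hra (Or.inl h1)
  · exact hra (Or.inr (Or.inl h1))
  · exact h1.symm

theorem NorA_inj' (H : Hyp C K) {a b : Rt C}
    (h : ∀ k : Fin n → K, fk C k (zk a.1) = fk C k (zk b.1)) : a = b := by
  apply NorA_inj (K := K) H
  intro y
  rw [← fk_zk_zk, ← fk_zk_zk]
  exact h _

/-- the simultaneous eigenspaces of `L0` -/
theorem eigen_root (H : Hyp C K) (x : LL C K) (hx : x ≠ 0) (f : (Fin n → K) → K)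
    (hf : ∀ h : Fin n → K, br (hh C h) x = f h • x) (hf0 : ∃ h, f h ≠ 0) :
    ∃ (b : Rt C) (k : K), k ≠ 0 ∧ x = k • e K b := by
  obtain ⟨h0, hh0⟩ := hf0
  have h1 : x.1 = 0 := by
    have h3 := congrArg Prod.fst (hf h0)
    rw [br_hh_fst] at h3
    exact (smul_eq_zero.1 h3.symm).resolve_left hh0
  have h2 : ∀ h r, fk C h (zk r.1) * x.2 r = f h * x.2 r := by
    intro h r
    have h3 := congrFun (congrArg Prod.snd (hf h)) r
    rw [br_hh_snd] at h3
    exact h3
  have h3 : ∃ b, x.2 b ≠ 0 := by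
    by_contra hcon
    push Not at hcon
    exact hx (Prod.ext h1 (funext hcon))
  obtain ⟨b, hb⟩ := h3
  have h4 : ∀ h, fk C h (zk b.1) = f h := fun h => mul_right_cancel₀ hb (h2 h b)
  refine ⟨b, x.2 b, hb, ?_⟩
  refine Prod.ext ?_ (funext fun r => ?_)
  · rw [h1]
    show (0 : Fin n → K) = x.2 b • (e K b).1
    rw [e_fst, smul_zero]
  · show x.2 r = x.2 b * (e K b).2 r
    by_cases hr : r = b
    · rw [hr, e_snd_self, mul_one]
    · rw [e_snd_ne hr, mul_zero]
      by_contra hxr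
      apply hr
      apply NorA_inj' (K := K) H
      intro k
      rw [h4]
      exact mul_right_cancel₀ hxr (h2 k r)

theorem NN_perm (H : Hyp C K) {g : LL C K ≃ₗ[K] LL C K} (hg : g ∈ NN C K) :
    ∃ (w : Equiv.Perm (Rt C)) (k : Rt C → K), (∀ a, k a ≠ 0) ∧
      (∀ a, g (e K a) = k a • e K (w a)) ∧
      (∀ a b, ip C (w a).1 (w b).1 = ip C a.1 b.1) ∧ (∀ a, w (ng a) = ng (w a)) ∧
      ∀ a, g (hh C (zk a.1)) = hh C (zk (w a).1) := by
  have h2 := two_ne H
  obtain ⟨⟨hgb, hgf⟩, hgL⟩ := hg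
  have hgg : ∀ x, g (g⁻¹ x) = x := fun x => g.apply_symm_apply x
  have hgg' : ∀ x, g⁻¹ (g x) = x := fun x => g.symm_apply_apply x
  have hinvL : ∀ h : Fin n → K, g⁻¹ (hh C h) ∈ L0 C K := by
    intro h
    rw [← hgL, hgg]
    exact hh_mem_L0 h
  have hmapL : ∀ h : Fin n → K, g (hh C h) ∈ L0 C K := fun h => (hgL _).2 (hh_mem_L0 h)
  -- step 1
  have step1 : ∀ a : Rt C, ∃ (b : Rt C) (k : K), k ≠ 0 ∧ g (e K a) = k • e K b := by
    intro a
    apply eigen_root H (g (e K a)) _ (fun h => fk C (g⁻¹ (hh C h)).1 (zk a.1))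
    · intro h
      have e1 : hh C h = g (hh C (g⁻¹ (hh C h)).1) := by
        rw [← eq_hh_of_mem (hinvL h), hgg]
      calc br (hh C h) (g (e K a)) = br (g (hh C (g⁻¹ (hh C h)).1)) (g (e K a)) := by rw [← e1]
        _ = _ := by rw [← hgb, br_hh_e, map_smul]
    · obtain ⟨y, hy⟩ := exists_one H a
      refine ⟨(g (hh C (zk y.1))).1, ?_⟩
      rw [← eq_hh_of_mem (hmapL _), hgg', hh_fst, fk_zk_zk, hy, Int.cast_one]
      exact one_ne_zero
    · intro h0
      exact e_ne_zero (K := K) a ((LinearEquiv.map_eq_zero_iff g).1 h0)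
  choose w0 k hk hw0 using step1
  have hinj : Function.Injective w0 := by
    intro a b hab
    by_contra hne
    have e1 : g (k b • e K a) = g (k a • e K b) := by
      rw [map_smul, map_smul, hw0, hw0, hab, smul_smul, smul_smul, mul_comm]
    have e2 := congrFun (congrArg Prod.snd (g.injective e1)) a
    have e3 : k b * (e K a).2 a = k a * (e K b).2 a := e2
    rw [e_snd_self, e_snd_ne hne, mul_one, mul_zero] at e3
    exact hk b e3
  obtain ⟨w, hw⟩ : ∃ w : Equiv.Perm (Rt C), ∀ a, w a = w0 a :=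
    ⟨Equiv.ofBijective w0 (Finite.injective_iff_bijective.1 hinj), fun a => rfl⟩
  have hwe : ∀ a, g (e K a) = k a • e K (w a) := by
    intro a
    rw [hw0, hw]
  -- step 2
  have hform : ∀ a, k a * (k (ng a) * (e K (w (ng a))).2 (ng (w a))) = 1 := by
    intro a
    have e1 := hgf (e K a) (e K (ng a))
    rw [hwe, hwe, map_smul, map_smul, LinearMap.smul_apply, fm_e_left, fm_e_left, e_snd_self]
      at e1
    simp only [smul_eq_mul] at e1
    linear_combination -e1
  have hng : ∀ a, w (ng a) = ng (w a) := by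
    intro a
    by_contra hne
    have e1 := hform a
    rw [e_snd_ne (Ne.symm hne), mul_zero, mul_zero] at e1
    exact zero_ne_one e1
  have hkk : ∀ a, k a * k (ng a) = 1 := by
    intro a
    have e1 := hform a
    rw [hng, e_snd_self, mul_one] at e1
    exact e1
  have hh1 : ∀ a, g (hh C (zk a.1)) = hh C (zk (w a).1) := by
    intro a
    have e1 : (hh C (zk a.1) : LL C K) = -br (e K a) (e K (ng a)) := by
      rw [br_e_ng H, neg_neg]
    rw [e1, map_neg, hgb, hwe, hwe, hng, map_smul, map_smul, LinearMap.smul_apply, br_e_ng H,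
      smul_smul, mul_comm, hkk, one_smul, neg_neg]
  have hipK : ∀ a b, ((ip C (w a).1 (w b).1 : ℤ) : K) = ((ip C a.1 b.1 : ℤ) : K) := by
    intro a b
    have e1 := hgf (hh C (zk a.1)) (hh C (zk b.1))
    rw [hh1, hh1, fm_hh_left, fm_hh_left, hh_fst, hh_fst, fk_zk_zk, fk_zk_zk] at e1
    exact e1
  refine ⟨w, k, hk, hwe, ?_, hng, hh1⟩
  intro a b
  have hmid : (ip C a.1 b.1 = -1 ∨ ip C a.1 b.1 = 0 ∨ ip C a.1 b.1 = 1) →
      ip C (w a).1 (w b).1 = ip C a.1 b.1 := by
    intro hab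
    have hba : b ≠ a := by
      intro h
      rw [h] at hab
      have h3 : ip C a.1 a.1 = 2 := a.2
      omega
    have hban : b ≠ ng a := by
      intro h
      rw [h, ng_val, ip_neg_right] at hab
      have h3 : ip C a.1 a.1 = 2 := a.2
      omega
    have h1 : ip C (w a).1 (w b).1 = -1 ∨ ip C (w a).1 (w b).1 = 0 ∨
        ip C (w a).1 (w b).1 = 1 := by
      rcases ip_cases H (w a) (w b) with h | h | h | h | h
      · rw [← hng] at h
        exact absurd (w.injective h) hban
      · exact Or.inl h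
      · exact Or.inr (Or.inl h)
      · exact Or.inr (Or.inr h)
      · exact absurd (w.injective h) hba
    have h3 := hipK a b
    have h4 : ((ip C (w a).1 (w b).1 - ip C a.1 b.1 : ℤ) : K) = 0 := by
      rw [Int.cast_sub, h3, sub_self]
    have h5 : ip C (w a).1 (w b).1 - ip C a.1 b.1 = 0 ∨
        ip C (w a).1 (w b).1 - ip C a.1 b.1 = 1 ∨
        ip C (w a).1 (w b).1 - ip C a.1 b.1 = -1 ∨
        ip C (w a).1 (w b).1 - ip C a.1 b.1 = 2 ∨
        ip C (w a).1 (w b).1 - ip C a.1 b.1 = -2 := by omega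
    rcases h5 with h | h | h | h | h
    · omega
    · rw [h] at h4
      exact absurd h4 (by norm_num)
    · rw [h] at h4
      exact absurd h4 (by norm_num)
    · rw [h] at h4
      exact absurd h4 (by
        push_cast
        exact h2)
    · rw [h] at h4
      exact absurd h4 (by
        push_cast
        exact neg_ne_zero.2 h2)
  rcases ip_cases H a b with h | h | h | h | h
  · rw [h, hng, ng_val, ng_val, ip_neg_right, ip_neg_right]
    have e1 : ip C a.1 a.1 = 2 := a.2
    have e2 : ip C (w a).1 (w a).1 = 2 := (w a).2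
    rw [e1, e2]
  · exact hmid (Or.inl h)
  · exact hmid (Or.inr (Or.inl h))
  · exact hmid (Or.inr (Or.inr h))
  · rw [h]
    have e1 : ip C a.1 a.1 = 2 := a.2
    have e2 : ip C (w a).1 (w a).1 = 2 := (w a).2
    rw [e1, e2]

/-- additivity of the permutation -/
theorem perm_add (H : Hyp C K) (w : Equiv.Perm (Rt C))
    (hw : ∀ a b, ip C (w a).1 (w b).1 = ip C a.1 b.1) {a b c : Rt C}
    (hc : c.1 = a.1 + b.1) : (w c).1 = (w a).1 + (w b).1 := by
  have h1 : ip C ((w c).1 - (w a).1 - (w b).1) ((w c).1 - (w a).1 - (w b).1) =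
      ip C (c.1 - a.1 - b.1) (c.1 - a.1 - b.1) := by
    simp only [ip_sub_left, ip_sub_right, hw]
  have h3 : c.1 - a.1 - b.1 = 0 := by
    rw [hc]
    abel
  rw [h3, ip_zero_left] at h1
  have h4 := Ip_eq_zero H h1
  rw [sub_sub, sub_eq_zero] at h4
  exact h4

end Pool.Agent.H33.EL
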