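import Pool.Agent.H33.EL.Nor

/-!
# EL-22, EL-23, EL-24: `T1`-invariant `p`-subgroups are generated by root groups

EL-22 (`pg_rk1`): `B ≤ T1`, `z ∈ T1`, `T1 = ⟨z⟩ B`, roots `a`, `b` trivial on `B`.  Suppose
`b ≠ ±a`.  Then `ip a b ∈ {0,1,-1}`.  Let `γ` be a generator of `K^*` (so `γ ≠ 1`).  By `T1_surj2`
there are `t, t' ∈ T1` with `(wt t a, wt t b) = (γ, 1)`, `(wt t' a, wt t' b) = (1, γ)`.
`t = z^i` mod `B`, `t' = z^j` mod `B`, so with `α = wt z a`, `β = wt z b`: `α^i = γ`, `α^j = 1`,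
`β^i = 1`, `β^j = γ`.  `α` is a generator of `K^*` (order `m`), so `m ∣ j`, and `β^j = 1`,
contradiction.

`pg_zero`: `P ≤ NN` a `T1`-invariant `p`-group is trivial: for `u ∈ P`, `t ∈ T1`:
`t u t⁻¹ u⁻¹ ∈ P ∩ T1 = 1` (`NN_conj_T1`, `TT_order`), `NN_comm_trivial`.

EL-23 (`pg_sl2`): `P` a `T1`-invariant `p`-group, `P ≤ GG`, mapping
`m = L0 + K e_a + K e_(-a)` to itself.  By `ext_sl2` the group `P` acts on the set `X` of the
`q+1` lines `K e_a`, `K xr a t e_(-a)` (`t ∈ K`) (`g e_a` is extremal; all these vectors are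
images of root vectors).  `T1` permutes the fixed points of `P` in `X` (`P` is `T1`-invariant),
has the fixed points `K e_a`, `K e_(-a)` in `X` and is transitive on the other `q-1` lines
(`t xr a s t⁻¹ = xr a (wt t a s)`, `T1_surj`).  The number of fixed points of `P` is
congruent to `q+1`, so to 1, mod `p` (`IsPGroup.card_modEq_card_fixedPoints`), and it is one of
`0, 1, 2, q-1, q, q+1`; `p` is odd and divides `q`; so it is `1` or `q+1` and `P` fixes
`K e_a` or `K e_(-a)`; by symmetry (replace `a` by `ng a`) let it fix `K e_a`.  (If it is `q-1`,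
it would be `-1 = 1` mod `p`.)  For `g ∈ P` `fix_lines` gives `g' = xr a (-t) * g` fixing
`K e_a`, `K e_(-a)`, so `g' ∈ NN` (`mem_NN_of_lines`, `S = {a, -a}`).
`P' = P X_a = {u * xr a s}` is a `p`-group (`P` normalises `X_a` by `xr_conj`), `T1`-invariant,
and `P' ⊓ NN` is a `T1`-invariant `p`-group in `NN`, so trivial (`pg_zero`): `g' = 1`.
So `P ≤ X_a`; if `P ≠ 1` then `a ∈ SF P` by `xr_all`.

EL-24 (`pg`): `cop_gen` with `A = T1` (abelian, order prime to `p` by `TT_order`/Cauchy): `P` is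
generated by elements `u` which commute with some `B`, `T1/B` cyclic; fix `B`;
`P0 = {u ∈ P : u commutes with B}` is `T1`-invariant.  `Fix(B) = L0 + ∑ K e_b` over the roots
trivial on `B` is `P0`-invariant; by `pg_rk1` these roots are none (then `P0 ≤ NN`, `P0 = 1`)
or `{a, -a}` (then `pg_sl2`; `SF P0 ⊆ SF P`).
-/

namespace Pool.Agent.H33.EL

variable {n : ℕ} {C : Matrix (Fin n) (Fin n) ℤ} {K : Type} [Field K] [Fintype (Rt C)]

theorem T1_card (H : Hyp C K) {p : ℕ} [Fact p.Prime] [CharP K p] :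
    ¬ p ∣ Nat.card (T1 C K) := by
  intro h
  haveI : Finite (LL C K ≃ₗ[K] LL C K) := finite_group H
  obtain ⟨t, ht⟩ := exists_prime_orderOf_dvd_card' (G := T1 C K) p h
  have h1 : (t : LL C K ≃ₗ[K] LL C K) ^ p ^ 1 = 1 := by
    rw [pow_one]
    have : t ^ p = 1 := by rw [← ht]; exact pow_orderOf_eq_one t
    have h2 := congrArg Subtype.val this
    simpa using h2
  have h3 : (t : LL C K ≃ₗ[K] LL C K) = 1 := TT_order H (T1_le_TT H t.2) 1 h1
  have h4 : t = 1 := Subtype.ext h3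
  rw [h4, orderOf_one] at ht
  exact (Fact.out : p.Prime).one_lt.ne ht

theorem pg_rk1 (H : Hyp C K) (B : Subgroup (LL C K ≃ₗ[K] LL C K)) (hB : B ≤ T1 C K)
    {z : LL C K ≃ₗ[K] LL C K} (hz : z ∈ T1 C K)
    (hcyc : ∀ t ∈ T1 C K, ∃ k : ℤ, z ^ k * t ∈ B) {a b : Rt C}
    (ha : ∀ x ∈ B, wt x a = 1) (hb : ∀ x ∈ B, wt x b = 1) : b = a ∨ b = ng a := by
  by_contra hne
  push Not at hne
  have hip : ip C a.1 b.1 = 0 ∨ ip C a.1 b.1 = 1 ∨ ip C a.1 b.1 = -1 := by
    rcases ip_cases H a b with h | h | h | h | h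
    · exact absurd h hne.2
    · exact Or.inr (Or.inr h)
    · exact Or.inl h
    · exact Or.inr (Or.inl h)
    · exact absurd h hne.1
  haveI : Finite K := by
    apply Nat.finite_of_card_ne_zero
    rcases H.card with h | h | h <;> omega
  obtain ⟨γ, hγ⟩ := IsCyclic.exists_generator (α := Kˣ)
  have hγ1 : γ ≠ 1 := by
    intro h1
    have h2 : ∀ x : Kˣ, x = 1 := by
      intro x
      have := hγ x
      rw [h1, Subgroup.zpowers_one_eq_bot, Subgroup.mem_bot] at this
      exact this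
    have h3 : Nat.card Kˣ = 1 := by
      haveI : Subsingleton Kˣ := ⟨fun x y => by rw [h2 x, h2 y]⟩
      exact Nat.card_unique
    rw [Nat.card_units] at h3
    rcases H.card with h | h | h <;> omega
  obtain ⟨t, ht, hta, htb⟩ := T1_surj2 H hip (c := (γ : K)) (d := 1) γ.ne_zero one_ne_zero
  obtain ⟨t', ht', hta', htb'⟩ := T1_surj2 H hip (c := 1) (d := (γ : K)) one_ne_zero γ.ne_zero
  obtain ⟨k, hk⟩ := hcyc t ht
  obtain ⟨l, hl⟩ := hcyc t' ht'
  have hzT := T1_le_TT H hz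
  have hzk : z ^ k ∈ TT C K := (TT C K).zpow_mem hzT k
  have hzl : z ^ l ∈ TT C K := (TT C K).zpow_mem hzT l
  have e1 : wt z a ^ k * (γ : K) = 1 := by
    have := ha _ hk
    rwa [wt_mul H hzk (T1_le_TT H ht), wt_zpow H hzT, hta] at this
  have e2 : wt z a ^ l = 1 := by
    have := ha _ hl
    rwa [wt_mul H hzl (T1_le_TT H ht'), wt_zpow H hzT, hta', mul_one] at this
  have e3 : wt z b ^ l * (γ : K) = 1 := by
    have := hb _ hl
    rwa [wt_mul H hzl (T1_le_TT H ht'), wt_zpow H hzT, htb'] at this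
  let α : Kˣ := Units.mk0 (wt z a) (wt_ne_zero H hzT a)
  let β : Kˣ := Units.mk0 (wt z b) (wt_ne_zero H hzT b)
  have f1 : α ^ k * γ = 1 := by
    apply Units.ext
    simpa [α] using e1
  have f2 : α ^ l = 1 := by
    apply Units.ext
    simpa [α] using e2
  have f3 : β ^ l * γ = 1 := by
    apply Units.ext
    simpa [β] using e3
  have hγα : γ ∈ Subgroup.zpowers α := by
    have : γ = (α ^ k)⁻¹ := by
      rw [eq_comm, inv_eq_iff_mul_eq_one]
      exact f1
    rw [this]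
    exact (Subgroup.zpowers α).inv_mem ⟨k, rfl⟩
  have hall : ∀ x : Kˣ, x ∈ Subgroup.zpowers α := by
    intro x
    have h1 : Subgroup.zpowers γ ≤ Subgroup.zpowers α := by
      rw [Subgroup.zpowers_le]
      exact hγα
    exact h1 (hγ x)
  have hord : orderOf α = Nat.card Kˣ := by
    rw [← Nat.card_zpowers]
    have : Subgroup.zpowers α = ⊤ := by
      rw [eq_top_iff]
      intro x _
      exact hall x
    rw [this]
    exact Subgroup.card_top
  have h5 : (orderOf α : ℤ) ∣ l := orderOf_dvd_iff_zpow_eq_one.mpr f2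
  have h6 : β ^ l = 1 := by
    obtain ⟨m, hm⟩ := h5
    rw [hm, hord, zpow_mul, zpow_natCast]
    have : β ^ Nat.card Kˣ = 1 := pow_card_eq_one'
    rw [this, one_zpow]
  rw [h6, one_mul] at f3
  exact hγ1 f3

theorem pg_zero (H : Hyp C K) {p : ℕ} [Fact p.Prime] [CharP K p]
    (P : Subgroup (LL C K ≃ₗ[K] LL C K)) (hP : IsPGroup p P) (hPN : P ≤ NN C K)
    (hT : ∀ t ∈ T1 C K, ∀ u ∈ P, t * u * t⁻¹ ∈ P) : P = ⊥ := by
  rw [eq_bot_iff]
  intro u hu
  rw [Subgroup.mem_bot]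
  have hcomm : ∀ t ∈ T1 C K, u * t = t * u := by
    intro t ht
    have h1 : t * u * t⁻¹ * u⁻¹ ∈ P := P.mul_mem (hT t ht u hu) (P.inv_mem hu)
    have h2 : t * u * t⁻¹ * u⁻¹ ∈ T1 C K := by
      have h3 := NN_conj_T1 H (hPN hu) t⁻¹ ((T1 C K).inv_mem ht)
      have h4 := (T1 C K).mul_mem ht h3
      have h5 : t * (u * t⁻¹ * u⁻¹) = t * u * t⁻¹ * u⁻¹ := by group
      rw [h5] at h4
      exact h4
    obtain ⟨k, hk⟩ := hP ⟨_, h1⟩
    have h6 : (t * u * t⁻¹ * u⁻¹) ^ p ^ k = 1 := by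
      have := congrArg Subtype.val hk
      simpa using this
    have h7 := TT_order H (T1_le_TT H h2) k h6
    have h8 : t * u * t⁻¹ = u := mul_inv_eq_one.mp h7
    have h9 : t * u = u * t := by
      calc t * u = (t * u * t⁻¹) * t := by group
        _ = u * t := by rw [h8]
    exact h9.symm
  obtain ⟨k, hk⟩ := hP ⟨u, hu⟩
  have h6 : u ^ p ^ k = 1 := by
    have := congrArg Subtype.val hk
    simpa using this
  exact NN_comm_trivial H (NN_le_GG (hPN hu)) hcomm k h6

end Pool.Agent.H33.EL
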