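import Pool.Agent.H33.EL.Defs

/-!
# Definitions for the final statement (helper33, MP_a408f4_al)
-/

namespace Pool.Agent.H33.EL

variable {n : ℕ}

/-- the root subgroup `X_a` as a subgroup of `GL(L)` -/
def Xg {C : Matrix (Fin n) (Fin n) ℤ} [Fintype (Rt C)] (K : Type) [Field K] (a : Rt C) :
    Subgroup (LL C K ≃ₗ[K] LL C K) := Subgroup.closure {g | ∃ s : K, g = xr a s}

/-- the adjoint Chevalley group generated by all root subgroups -/
def Gr (C : Matrix (Fin n) (Fin n) ℤ) [Fintype (Rt C)] (K : Type) [Field K] :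
    Subgroup (LL C K ≃ₗ[K] LL C K) := ⨆ a : Rt C, Xg K a

/-- closed sets of roots -/
def ClosedRt {C : Matrix (Fin n) (Fin n) ℤ} (S : Set (Rt C)) : Prop :=
  ∀ a ∈ S, ∀ b ∈ S, ∀ c : Rt C, c.1 = a.1 + b.1 → c ∈ S

/-- `⟨T, X_a : a ∈ S⟩` in any group -/
def GSt {C : Matrix (Fin n) (Fin n) ℤ} {G : Type} [Group G] (T : Subgroup G)
    (X : Rt C → Subgroup G) (S : Set (Rt C)) : Subgroup G := T ⊔ ⨆ a ∈ S, X a

/-- `G(S) ≤ F ≤ N(S)` for exactly one closed `S` -/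
def StdDesc {C : Matrix (Fin n) (Fin n) ℤ} {G : Type} [Group G] (T : Subgroup G)
    (X : Rt C → Subgroup G) (F : Subgroup G) : Prop :=
  ∃! S : Set (Rt C), ClosedRt S ∧ GSt T X S ≤ F ∧ ∀ f ∈ F, ∀ x, x ∈ GSt T X S ↔
    f * x * f⁻¹ ∈ GSt T X S

end Pool.Agent.H33.EL
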