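import Pool.Agent.H33.EL.Main
import Pool.Agent.H33.EL.StdD

/-!
# EL-53: the standard description in the adjoint group

`T1 ≤ F ≤ GG`.  `S = SF F`, closed (`SF_closed`), `GSt (T1) Xg S ≤ F`.
Normality: let `f ∈ F`.  `dst_all` with `g = f` (`T1 ≤ cj f F` since `f ∈ F`): `c ∈ Fo F`,
`m = c⁻¹ f ∈ NN`.  `Fo F ≤ F`, so `m ∈ F`.  `m` normalises `T1` (`NN_conj_T1`) and for `a ∈ S`
`m (xr a s) m⁻¹ = xr (w a) (k s) ∈ F` for all `s`, so `w a ∈ S` (`NN_perm`, `xr_conj`).  The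
generators of `Fo F`: `t ∈ TT ⊓ F` centralises `T1` and normalises every `Xg a` (`TT_conj_xr`);
`xr a s`, `a ∈ S`, lies in `GSt`.  So `f` (and `f⁻¹`) normalises `GSt`; this gives the iff.
Uniqueness: let `S2` be another one.  `S2 ⊆ SF F` clear.  Let `a ∈ SF F`, `x = xr a 1`, `t ∈ T1`
with `wt t a ≠ 1` (`T1_sep0`).  `x t x⁻¹ ∈ GSt S2`, so `x t x⁻¹ t⁻¹ = xr a (1 - wt t a)` is in
`GSt S2`.  `GSt S2` maps `U = {y : y.2 d = 0 for d ∉ S2}` to itself (`xr b s`, `b ∈ S2`: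
coordinates `xr_snd_one`, `xr_snd_self`, `xr_snd_other`, closedness of `S2`; `T1` diagonal).
`xr a u (hh h) = hh h - u (h,a) e a` with `(h,a) ≠ 0`, `u ≠ 0`, so `a ∈ S2`.

# EL-54 (`std_gen`, file `Std`): pull back along `π : G → GL(L)` with kernel in `T`.
-/

namespace Pool.Agent.H33.EL

variable {n : ℕ} {C : Matrix (Fin n) (Fin n) ℤ} {K : Type} [Field K] [Fintype (Rt C)]

/-- generators of `GSt` in the adjoint group -/
theorem Std0_le {S : Set (Rt C)} {D : Subgroup (LL C K ≃ₗ[K] LL C K)} (h1 : T1 C K ≤ D)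
    (h2 : ∀ a ∈ S, ∀ s : K, xr a s ∈ D) : GSt (T1 C K) (fun a : Rt C => Xg K a) S ≤ D := by
  unfold GSt
  refine sup_le h1 (iSup₂_le fun a ha => ?_)
  show Subgroup.closure {g | ∃ s : K, g = xr a s} ≤ D
  rw [Subgroup.closure_le]
  rintro _ ⟨s, rfl⟩
  exact h2 a ha s

theorem Std0_T {S : Set (Rt C)} : T1 C K ≤ GSt (T1 C K) (fun a : Rt C => Xg K a) S := le_sup_left

theorem Std0_xr {S : Set (Rt C)} {a : Rt C} (ha : a ∈ S) (s : K) :
    xr a s ∈ GSt (T1 C K) (fun a : Rt C => Xg K a) S := by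
  have h1 : Xg K a ≤ GSt (T1 C K) (fun a : Rt C => Xg K a) S := by
    unfold GSt
    refine le_trans ?_ le_sup_right
    exact le_iSup₂ (f := fun (a : Rt C) (_ : a ∈ S) => Xg K a) a ha
  exact h1 (Subgroup.subset_closure ⟨s, rfl⟩)

/-- elements of `NN ⊓ F` conjugate `GSt (SF F)` into itself -/
theorem Std0_conj (H : Hyp C K) (F : Subgroup (LL C K ≃ₗ[K] LL C K))
    {m : LL C K ≃ₗ[K] LL C K} (hm : m ∈ NN C K) (hmF : m ∈ F) :
    ∀ x ∈ GSt (T1 C K) (fun a : Rt C => Xg K a) (SF F),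
      m * x * m⁻¹ ∈ GSt (T1 C K) (fun a : Rt C => Xg K a) (SF F) := by
  have key : GSt (T1 C K) (fun a : Rt C => Xg K a) (SF F) ≤
      (GSt (T1 C K) (fun a : Rt C => Xg K a) (SF F)).comap (MulAut.conj m).toMonoidHom := by
    refine Std0_le ?_ ?_
    · intro t ht
      show m * t * m⁻¹ ∈ GSt (T1 C K) (fun a : Rt C => Xg K a) (SF F)
      exact Std0_T (NN_conj_T1 H hm t ht)
    · intro a ha s
      show m * xr a s * m⁻¹ ∈ GSt (T1 C K) (fun a : Rt C => Xg K a) (SF F)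
      obtain ⟨w, k, hk, hw, -, -, -⟩ := NN_perm H hm
      rw [xr_conj H (NN_le_GG hm) (hw a)]
      refine Std0_xr ?_ _
      intro s'
      have h1 : xr (w a) s' = m * xr a ((k a)⁻¹ * s') * m⁻¹ := by
        rw [xr_conj H (NN_le_GG hm) (hw a), mul_inv_cancel_left₀ (hk a)]
      rw [h1]
      exact F.mul_mem (F.mul_mem hmF (ha _)) (F.inv_mem hmF)
  intro x hx
  exact key hx

theorem Std0_norm (H : Hyp C K) (F : Subgroup (LL C K ≃ₗ[K] LL C K))
    {m : LL C K ≃ₗ[K] LL C K} (hm : m ∈ NN C K) (hmF : m ∈ F) :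
    m ∈ Subgroup.normalizer
      (GSt (T1 C K) (fun a : Rt C => Xg K a) (SF F) : Set (LL C K ≃ₗ[K] LL C K)) := by
  rw [Subgroup.mem_normalizer_iff]
  intro x
  constructor
  · exact Std0_conj H F hm hmF x
  · intro hx
    have h1 := Std0_conj H F ((NN C K).inv_mem hm) (F.inv_mem hmF) _ hx
    have h2 : m⁻¹ * (m * x * m⁻¹) * m⁻¹⁻¹ = x := by group
    rw [h2] at h1
    exact h1

theorem Std0_Fo_le (F : Subgroup (LL C K ≃ₗ[K] LL C K)) : Fo F ≤ F := by
  unfold Fo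
  rw [Subgroup.closure_le]
  rintro x (⟨hx, -⟩ | ⟨a, ha, s, rfl⟩)
  · exact hx
  · exact ha s

theorem Std0_Fo_norm (H : Hyp C K) (F : Subgroup (LL C K ≃ₗ[K] LL C K)) :
    Fo F ≤ Subgroup.normalizer
      (GSt (T1 C K) (fun a : Rt C => Xg K a) (SF F) : Set (LL C K ≃ₗ[K] LL C K)) := by
  unfold Fo
  rw [Subgroup.closure_le]
  rintro x (⟨hx, hx'⟩ | ⟨a, ha, s, rfl⟩)
  · exact Std0_norm H F (TT_le_NN hx') hx
  · exact Subgroup.le_normalizer (Std0_xr ha s)

/-- the subgroup of the elements which preserve the vectors supported on `S` and `0` -/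
def Std0_U (S : Set (Rt C)) : Set (LL C K) := {y | ∀ d, d ∉ S → y.2 d = 0}

/-- the stabiliser of `Std0_U S` -/
def Std0_stab (S : Set (Rt C)) : Subgroup (LL C K ≃ₗ[K] LL C K) where
  carrier := {g | ∀ x, g x ∈ Std0_U (K := K) S ↔ x ∈ Std0_U (K := K) S}
  one_mem' := fun _ => Iff.rfl
  mul_mem' := by
    intro a b ha hb x
    rw [LinearEquiv.mul_apply, ha, hb]
  inv_mem' := by
    intro a ha x
    rw [← ha]
    have h1 : a (a⁻¹ x) = x := a.apply_symm_apply x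
    rw [h1]

theorem Std0_stab_of {S : Set (Rt C)} {g : LL C K ≃ₗ[K] LL C K}
    (h1 : ∀ x ∈ Std0_U (K := K) S, g x ∈ Std0_U (K := K) S)
    (h2 : ∀ x ∈ Std0_U (K := K) S, g⁻¹ x ∈ Std0_U (K := K) S) :
    g ∈ Std0_stab (C := C) (K := K) S := by
  intro x
  constructor
  · intro hx
    have h3 := h2 _ hx
    have h4 : g⁻¹ (g x) = x := g.symm_apply_apply x
    rw [h4] at h3
    exact h3
  · exact h1 x

theorem Std0_xrU (H : Hyp C K) {S : Set (Rt C)} (hS : ClosedRt S) {b : Rt C} (hb : b ∈ S)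
    (s : K) : ∀ x ∈ Std0_U (K := K) S, xr b s x ∈ Std0_U (K := K) S := by
  intro x hx d hd
  by_cases h1 : ip C d.1 b.1 = 1
  · obtain ⟨d', hd'⟩ : ∃ d' : Rt C, d'.1 = d.1 - b.1 := ⟨⟨d.1 - b.1, root_sub H h1⟩, rfl⟩
    have h2 : d' ∉ S := by
      intro h3
      refine hd (hS d' h3 b hb d ?_)
      rw [hd']
      abel
    rw [xr_snd_one H b s x d d' hd', hx d hd, hx d' h2, mul_zero, add_zero]
  · have h2 : d ≠ b := fun h => hd (h ▸ hb)
    rw [xr_snd_other H b s x d h1 h2]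
    exact hx d hd

theorem Std0_TTU (H : Hyp C K) {S : Set (Rt C)} {t : LL C K ≃ₗ[K] LL C K} (ht : t ∈ TT C K) :
    ∀ x ∈ Std0_U (K := K) S, t x ∈ Std0_U (K := K) S := by
  intro x hx d hd
  rw [nor_coord H ht x]
  show wt t d * x.2 d = 0
  rw [hx d hd, mul_zero]

theorem Std0_le_stab (H : Hyp C K) {S : Set (Rt C)} (hS : ClosedRt S) :
    GSt (T1 C K) (fun a : Rt C => Xg K a) S ≤ Std0_stab (C := C) (K := K) S := by
  refine Std0_le ?_ ?_
  · intro t ht
    have h1 := T1_le_TT H ht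
    exact Std0_stab_of (Std0_TTU H h1) (Std0_TTU H ((TT C K).inv_mem h1))
  · intro b hb s
    refine Std0_stab_of (Std0_xrU H hS hb s) ?_
    rw [← xr_neg H]
    exact Std0_xrU H hS hb (-s)

theorem std0 (H : Hyp C K) {p : ℕ} [Fact p.Prime] [CharP K p]
    (F : Subgroup (LL C K ≃ₗ[K] LL C K)) (hF : F ≤ GG C K) (hT : T1 C K ≤ F) :
    StdDesc (T1 C K) (fun a : Rt C => Xg K a) F := by
  have hD := dst_all H (p := p) F hF hT
  refine ⟨SF F, ⟨?_, ?_, ?_⟩, ?_⟩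
  · intro a ha b hb c hc
    exact SF_closed H F hc ha hb
  · exact Std0_le hT fun a ha s => ha s
  · intro f hf
    obtain ⟨c, hc, hm⟩ := hD f (hF hf) (by
      intro t ht
      rw [mem_cj]
      exact F.mul_mem (F.mul_mem hf (hT ht)) (F.inv_mem hf))
    have hcF := Std0_Fo_le F hc
    have h1 : f ∈ Subgroup.normalizer
        (GSt (T1 C K) (fun a : Rt C => Xg K a) (SF F) : Set (LL C K ≃ₗ[K] LL C K)) := by
      have h2 : f = c * (c⁻¹ * f) := by group
      rw [h2]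
      exact Subgroup.mul_mem _ (Std0_Fo_norm H F hc)
        (Std0_norm H F hm (F.mul_mem (F.inv_mem hcF) hf))
    exact Subgroup.mem_normalizer_iff.1 h1
  · rintro S2 ⟨hS2, hle, hn⟩
    apply Set.Subset.antisymm
    · intro a ha s
      exact hle (Std0_xr ha s)
    · intro a ha
      obtain ⟨t, ht, hta⟩ := T1_sep0 H a
      have h1 : xr a 1 * t * (xr a 1)⁻¹ ∈ GSt (T1 C K) (fun a : Rt C => Xg K a) S2 :=
        (hn _ (ha 1) t).1 (Std0_T ht)
      have h2 : xr a (1 - wt t a) ∈ GSt (T1 C K) (fun a : Rt C => Xg K a) S2 := by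
        have h3 : xr a (1 - wt t a) = xr a 1 * t * (xr a 1)⁻¹ * t⁻¹ := by
          have h4 := TT_conj_xr H (T1_le_TT H ht) a (-1 : K)
          rw [mul_neg_one, xr_neg H a 1] at h4
          rw [sub_eq_add_neg, xr_add H, ← h4]
          group
        rw [h3]
        exact Subgroup.mul_mem _ h1 (Subgroup.inv_mem _ (Std0_T ht))
      obtain ⟨y, hy⟩ := exists_one H a
      have h5 : (hh C (zk y.1) : LL C K) ∈ Std0_U (K := K) S2 := fun d _ => rfl
      have h6 := (Std0_le_stab H hS2 h2 _).2 h5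
      by_contra haS
      have h7 := h6 a haS
      rw [xr_hh H, fk_zk_zk, hy, Int.cast_one, mul_one] at h7
      have h8 : (hh C (zk y.1) - (1 - wt t a) • e K a : LL C K).2 a =
          (hh C (zk y.1) : LL C K).2 a - (1 - wt t a) * (e K a).2 a := rfl
      rw [h8, hh_snd, e_snd_self, mul_one, zero_sub, neg_eq_zero, sub_eq_zero] at h7
      exact hta h7.symm

end Pool.Agent.H33.EL
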