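import Pool.Agent.H33.EL.TorA

/-!
# EL-10: the torus, second part

* `T1_surj`, `T1_surj2`: `hd y c` with `y` from `exists_one`, `H.ra` (twice, product).
* `T1_sep`: for `ip a b ∈ {0,1,-1}` `T1_surj2` with `(c,d) = (-1,1)` (`-1 ≠ 1`); for `b = ng a`
  `wt t b = (wt t a)⁻¹` and there is `c` with `c ≠ c⁻¹` (`|K| ≥ 7`).
* `comp_mem`: the weights `1` (on `L0`) and `wt t a` are pairwise different characters of `T1`:
  apply to `x ∈ U` the operators `∏ (t_b - wt t_b b)/(wt t_b a - wt t_b b)` over all other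
  weights, where `t_b` separates `a` and `b`; each of them maps `U` to itself.
* `xr_all`: conjugate by `T1` (`TT_conj_xr`), `T1_surj`.
* `TT_order`: `t^(q-1) = 1` and `gcd (q-1, p^k) = 1` (`p ∣ q`: `q = |K|` is a power of `p`).
-/

namespace Pool.Agent.H33.EL

variable {n : ℕ} {C : Matrix (Fin n) (Fin n) ℤ} {K : Type} [Field K] [Fintype (Rt C)]

theorem T1_surj (H : Hyp C K) (a : Rt C) {c : K} (hc : c ≠ 0) :
    ∃ t ∈ T1 C K, wt t a = c := by
  obtain ⟨y, hy⟩ := exists_one H a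
  refine ⟨hd C y.1 (Units.mk0 c hc), hd_mem_T1 H _ _, ?_⟩
  rw [wt_hd, hy, zpow_one, Units.val_mk0]
theorem T1_surj2 (H : Hyp C K) {a b : Rt C}
    (hab : ip C a.1 b.1 = 0 ∨ ip C a.1 b.1 = 1 ∨ ip C a.1 b.1 = -1) {c d : K} (hc : c ≠ 0)
    (hd : d ≠ 0) : ∃ t ∈ T1 C K, wt t a = c ∧ wt t b = d := by
  obtain ⟨y, hy1, hy2⟩ := H.ra a b hab
  obtain ⟨z, hz1, hz2⟩ := H.ra b a (by rw [ip_comm H.symm]; exact hab)
  refine ⟨EL.hd C y.1 (Units.mk0 c hc) * EL.hd C z.1 (Units.mk0 d hd),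
    mul_mem (hd_mem_T1 H _ _) (hd_mem_T1 H _ _), ?_, ?_⟩
  · rw [wt_mul H (hd_mem_TT H _ _) (hd_mem_TT H _ _), wt_hd, wt_hd, hy1, hz2, zpow_one, zpow_zero,
      Units.val_mk0, Units.val_one, mul_one]
  · rw [wt_mul H (hd_mem_TT H _ _) (hd_mem_TT H _ _), wt_hd, wt_hd, hy2, hz1, zpow_one, zpow_zero,
      Units.val_mk0, Units.val_one, one_mul]

private theorem tor_exists (H : Hyp C K) : ∃ c : K, c ≠ 0 ∧ c ≠ 1 ∧ c ≠ -1 := by
  by_contra hcon
  push Not at hcon
  have h1 : (Set.univ : Set K) ⊆ {0, 1, -1} := by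
    intro c _
    by_cases h0 : c = 0
    · exact Or.inl h0
    · by_cases h1 : c = 1
      · exact Or.inr (Or.inl h1)
      · exact Or.inr (Or.inr (hcon c h0 h1))
  have h2 : (Set.univ : Set K).ncard ≤ ({0, 1, -1} : Set K).ncard :=
    Set.ncard_le_ncard h1 (Set.toFinite _)
  have h3 : ({0, 1, -1} : Set K).ncard ≤ 3 := by
    refine (Set.ncard_insert_le _ _).trans ?_
    have := Set.ncard_insert_le (1 : K) {-1}
    rw [Set.ncard_singleton] at this
    omega
  rw [Set.ncard_univ] at h2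
  rcases H.card with h | h | h <;> omega

/-- different roots have different weights -/
theorem T1_sep (H : Hyp C K) {a b : Rt C} (h : a ≠ b) : ∃ t ∈ T1 C K, wt t a ≠ wt t b := by
  obtain ⟨c, hc0, hc1, hc2⟩ := tor_exists H
  have key : (ip C a.1 b.1 = 0 ∨ ip C a.1 b.1 = 1 ∨ ip C a.1 b.1 = -1) →
      ∃ t ∈ T1 C K, wt t a ≠ wt t b := by
    intro hab
    obtain ⟨t, ht, h1, h2⟩ := T1_surj2 H hab hc0 (one_ne_zero (α := K))
    exact ⟨t, ht, by rw [h1, h2]; exact hc1⟩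
  rcases ip_cases H a b with h1 | h1 | h1 | h1 | h1
  · obtain ⟨t, ht, h2⟩ := T1_surj H a hc0
    refine ⟨t, ht, ?_⟩
    rw [h1, wt_ng H (T1_le_TT H ht), h2]
    intro h3
    have h4 : c * c = 1 := by
      nth_rewrite 1 [h3]
      exact inv_mul_cancel₀ hc0
    rcases mul_self_eq_one_iff.1 h4 with h5 | h5
    · exact hc1 h5
    · exact hc2 h5
  · exact key (Or.inr (Or.inr h1))
  · exact key (Or.inl h1)
  · exact key (Or.inr (Or.inl h1))
  · exact absurd h1.symm h
theorem T1_sep0 (H : Hyp C K) (a : Rt C) : ∃ t ∈ T1 C K, wt t a ≠ 1 := by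
  obtain ⟨c, hc0, hc1, hc2⟩ := tor_exists H
  obtain ⟨t, ht, h2⟩ := T1_surj H a hc0
  exact ⟨t, ht, by rw [h2]; exact hc1⟩

/-- components of a vector in an invariant subspace -/
private theorem tor_comp {I T M : Type*} [AddCommGroup M] [Module K M] (U : Submodule K M)
    (op : T → M →ₗ[K] M) (hU : ∀ t, ∀ x ∈ U, op t x ∈ U) (χ : I → T → K)
    (hχ : ∀ i j, i ≠ j → ∃ t, χ i t ≠ χ j t) (s : Finset I) :
    ∀ y : I → M, (∀ i t, op t (y i) = χ i t • y i) → ∑ i ∈ s, y i ∈ U → ∀ i ∈ s, y i ∈ U := by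
  classical
  induction s using Finset.induction_on with
  | empty =>
    intro y _ _ i hi
    exact absurd hi (Finset.notMem_empty i)
  | insert j s hj ih =>
    intro y hy hs
    have h1 : ∀ i ∈ s, y i ∈ U := by
      intro i hi
      obtain ⟨t, ht⟩ := hχ i j (fun h => hj (h ▸ hi))
      have h2 : ∑ l ∈ s, (χ l t - χ j t) • y l ∈ U := by
        have h3 : op t (∑ l ∈ insert j s, y l) - χ j t • ∑ l ∈ insert j s, y l
            = ∑ l ∈ s, (χ l t - χ j t) • y l := by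
          rw [map_sum, Finset.smul_sum, ← Finset.sum_sub_distrib, Finset.sum_insert hj, hy,
            sub_self, zero_add]
          refine Finset.sum_congr rfl fun l _ => ?_
          rw [hy, sub_smul]
        rw [← h3]
        exact U.sub_mem (hU t _ hs) (U.smul_mem _ hs)
      have h4 := ih (fun l => (χ l t - χ j t) • y l) (fun l t' => by
        rw [map_smul, hy, smul_comm]) h2 i hi
      have h5 := U.smul_mem (χ i t - χ j t)⁻¹ h4
      rw [smul_smul, inv_mul_cancel₀ (sub_ne_zero.2 ht), one_smul] at h5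
      exact h5
    intro i hi
    rcases Finset.mem_insert.1 hi with rfl | hi
    · rw [Finset.sum_insert hj] at hs
      have h2 : ∑ l ∈ s, y l ∈ U := U.sum_mem h1
      have h3 := U.sub_mem hs h2
      rwa [add_sub_cancel_right] at h3
    · exact h1 i hi

/-- weight decomposition of `T1`-invariant subspaces -/
theorem comp_mem (H : Hyp C K) (U : Submodule K (LL C K))
    (hU : ∀ t ∈ T1 C K, ∀ x ∈ U, t x ∈ U) {x : LL C K} (hx : x ∈ U) :
    hh C x.1 ∈ U ∧ ∀ a : Rt C, x.2 a • e K a ∈ U := by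
  have hL : ∀ t ∈ T1 C K, ∀ h : Fin n → K, t (hh C h) = hh C h := fun t ht h =>
    (T1_le_TT H ht).2 _ (hh_mem_L0 h)
  have key := tor_comp (I := Option (Rt C)) (T := T1 C K) U
    (fun t => ((t : LL C K ≃ₗ[K] LL C K) : LL C K →ₗ[K] LL C K)) (fun t x hx => hU t.1 t.2 x hx)
    (fun i t => Option.elim i 1 (fun a => wt (t : LL C K ≃ₗ[K] LL C K) a)) ?_ Finset.univ
    (fun i => Option.elim i (hh C x.1) (fun a => x.2 a • e K a)) ?_ ?_
  · exact ⟨key none (Finset.mem_univ _), fun a => key (some a) (Finset.mem_univ _)⟩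
  · rintro (_ | a) (_ | b) hij
    · exact absurd rfl hij
    · obtain ⟨t, ht, h1⟩ := T1_sep0 H b
      exact ⟨⟨t, ht⟩, fun h => h1 h.symm⟩
    · obtain ⟨t, ht, h1⟩ := T1_sep0 H a
      exact ⟨⟨t, ht⟩, h1⟩
    · obtain ⟨t, ht, h1⟩ := T1_sep H (a := a) (b := b) (fun h => hij (by rw [h]))
      exact ⟨⟨t, ht⟩, h1⟩
  · rintro (_ | a) t
    · show (t : LL C K ≃ₗ[K] LL C K) (hh C x.1) = (1 : K) • hh C x.1
      rw [hL t.1 t.2, one_smul]
    · show (t : LL C K ≃ₗ[K] LL C K) (x.2 a • e K a) =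
        wt (t : LL C K ≃ₗ[K] LL C K) a • x.2 a • e K a
      rw [map_smul, TT_e H (T1_le_TT H t.2), smul_comm]
  · rw [Fintype.sum_option]
    show hh C x.1 + ∑ a : Rt C, x.2 a • e K a ∈ U
    rw [← decomp]
    exact hx

private theorem tor_snd (H : Hyp C K) {t : LL C K ≃ₗ[K] LL C K} (ht : t ∈ TT C K) (x : LL C K)
    (a : Rt C) : (t x).2 a = wt t a * x.2 a := by
  have h1 : t x = hh C x.1 + ∑ b : Rt C, x.2 b • wt t b • e K b := by
    conv_lhs => rw [decomp x]
    rw [map_add, map_sum, ht.2 _ (hh_mem_L0 _)]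
    congr 1
    refine Finset.sum_congr rfl fun b _ => ?_
    rw [map_smul, TT_e H ht]
  rw [h1, Prod.snd_add, Prod.snd_sum, Pi.add_apply, Finset.sum_apply, hh_snd, zero_add,
    Finset.sum_eq_single a]
  · rw [Prod.smul_snd, Prod.smul_snd, Pi.smul_apply, Pi.smul_apply, e_snd_self, smul_eq_mul,
      smul_eq_mul, mul_one, mul_comm]
  · intro b _ hb
    rw [Prod.smul_snd, Prod.smul_snd, Pi.smul_apply, Pi.smul_apply, e_snd_ne hb.symm, smul_zero,
      smul_zero]
  · intro h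
    exact absurd (Finset.mem_univ a) h

theorem mem_L0_iff (H : Hyp C K) (x : LL C K) : x ∈ L0 C K ↔ ∀ t ∈ T1 C K, t x = x := by
  constructor
  · intro hx t ht
    exact (T1_le_TT H ht).2 x hx
  · intro h
    rw [mem_L0]
    funext a
    obtain ⟨t, ht, h1⟩ := T1_sep0 H a
    have h2 := tor_snd H (T1_le_TT H ht) x a
    rw [h t ht] at h2
    have h3 : (wt t a - 1) * x.2 a = 0 := by
      rw [sub_mul, one_mul, ← h2, sub_self]
    exact (mul_eq_zero.1 h3).resolve_left (sub_ne_zero.2 h1)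

/-- one non trivial root element gives the root group -/
theorem xr_all (H : Hyp C K) {F : Subgroup (LL C K ≃ₗ[K] LL C K)}
    (hF : ∀ t ∈ T1 C K, ∀ f ∈ F, t * f * t⁻¹ ∈ F) {a : Rt C} {s : K} (hs : s ≠ 0)
    (h : xr a s ∈ F) : a ∈ SF F := by
  intro s'
  by_cases h0 : s' = 0
  · rw [h0, xr_zero H]
    exact one_mem F
  · obtain ⟨t, ht, h1⟩ := T1_surj H a (div_ne_zero h0 hs)
    have h2 := hF t ht _ h
    rw [TT_conj_xr H (T1_le_TT H ht), h1, div_mul_cancel₀ _ hs] at h2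
    exact h2

/-- `T1` is central-by-nothing: orders. `p` the characteristic. -/
theorem TT_order (H : Hyp C K) {p : ℕ} [Fact p.Prime] [CharP K p] {t : LL C K ≃ₗ[K] LL C K}
    (ht : t ∈ TT C K) (k : ℕ) (h : t ^ p ^ k = 1) : t = 1 := by
  have hp : p.Prime := Fact.out
  have h1 : orderOf t ∣ Nat.card K - 1 := orderOf_dvd_of_pow_eq_one (TT_pow_card H ht)
  have h2 : orderOf t ∣ p ^ k := orderOf_dvd_of_pow_eq_one h
  have hpos : 0 < Nat.card K := by
    rcases H.card with h | h | h <;> omega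
  have hfin : Finite K := (Nat.card_pos_iff.1 hpos).2
  have h3 : p ∣ Nat.card K := by
    have := Fintype.ofFinite K
    rw [← CharP.cast_eq_zero_iff K p, Nat.card_eq_fintype_card]
    exact Nat.cast_card_eq_zero K
  have h4 : Nat.Coprime (Nat.card K - 1) (p ^ k) := by
    apply Nat.Coprime.pow_right
    rw [Nat.coprime_comm, hp.coprime_iff_not_dvd]
    intro h5
    have h6 : p ∣ 1 := by
      have := Nat.dvd_sub h3 h5
      rwa [Nat.sub_sub_self hpos] at this
    exact hp.one_lt.ne' (Nat.dvd_one.1 h6)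
  have h5 : orderOf t ∣ 1 := by
    rw [← h4]
    exact Nat.dvd_gcd h1 h2
  exact orderOf_eq_one_iff.1 (Nat.dvd_one.1 h5)

end Pool.Agent.H33.EL
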