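import Pool.Agent.H33.EL.XrA

/-!
# EL-09: the torus, first part

* `hd_mem_GG`: `c^(y,a+b) = c^(y,a) c^(y,b)` (use `ext_basis`/bilinearity, or coordinates).
* `hd_mem_T1`: `y = ∑ y_i α_i` and `hd (y+z) c = hd y c * hd z c`, `hd (k•y) c = (hd y c)^k`;
  simple roots are roots.
* `TT`: `t ∈ TT` commutes with `ad (hh h)`, so `t (e a)` is in the simultaneous eigenspace
  `{x : [hh h, x] = (h,a) x for all h} = K e_a` (the functionals `h ↦ fk h (zk b)` are
  different for different roots and non zero: for `ip a b ∈ {0,1,-1}` take `h = zk y` with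
  `(y,a)=1,(y,b)=0` by `H.ra`; for `b = -a` take `y` with `(y,a)=1`, `1 ≠ -1`).
* `wt t (a+b) = wt t a * wt t b` from `[e_a,e_b] = ± e_(a+b)`; `wt t (-a) = (wt t a)⁻¹` from the
  form.
* `wt_pow`: `|K^*| = Nat.card K - 1`.
* surjectivity: `hd y c` with `y` from `exists_one`, `H.ra`.
-/

namespace Pool.Agent.H33.EL

variable {n : ℕ} {C : Matrix (Fin n) (Fin n) ℤ} {K : Type} [Field K] [Fintype (Rt C)]

theorem hd_e (y : Fin n → ℤ) (c : Kˣ) (b : Rt C) :
    hd C y c (e K b) = ((c ^ (ip C y b.1) : Kˣ) : K) • e K b := by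
  refine Prod.ext ?_ (funext fun r => ?_)
  · show (e K b).1 = _
    rw [Prod.smul_fst, e_fst, smul_zero]
  · show ((c ^ (ip C y r.1) : Kˣ) : K) * (e K b).2 r = ((c ^ (ip C y b.1) : Kˣ) : K) * (e K b).2 r
    by_cases h : r = b
    · rw [h]
    · rw [e_snd_ne h, mul_zero, mul_zero]
theorem hd_hh (y : Fin n → ℤ) (c : Kˣ) (h : Fin n → K) : hd C y c (hh C h) = hh C h := by
  refine Prod.ext rfl (funext fun r => ?_)
  show ((c ^ (ip C y r.1) : Kˣ) : K) * (hh C h).2 r = (hh C h).2 r
  rw [hh_snd, mul_zero]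

/-- a linear equivalence which multiplies the root vectors by a multiplicative weight -/
theorem TorA_mem_GG (H : Hyp C K) (f : LL C K ≃ₗ[K] LL C K) (w : Rt C → K)
    (hf : ∀ h : Fin n → K, f (hh C h) = hh C h) (hw : ∀ a, f (e K a) = w a • e K a)
    (hng : ∀ a, w a * w (ng a) = 1)
    (hadd : ∀ a b c : Rt C, c.1 = a.1 + b.1 → w c = w a * w b) : f ∈ GG C K := by
  constructor
  · have key : (br : LL C K →ₗ[K] LL C K →ₗ[K] LL C K).compr₂ (f : LL C K →ₗ[K] LL C K) =
        (br : LL C K →ₗ[K] LL C K →ₗ[K] LL C K).compl₁₂ (f : LL C K →ₗ[K] LL C K)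
          (f : LL C K →ₗ[K] LL C K) := by
      refine ext_basis (fun h => ext_basis (fun k => ?_) (fun b => ?_))
        (fun a => ext_basis (fun k => ?_) (fun b => ?_))
      · show f (br (hh C h) (hh C k)) = br (f (hh C h)) (f (hh C k))
        rw [hf, hf, br_hh_hh, map_zero]
      · show f (br (hh C h) (e K b)) = br (f (hh C h)) (f (e K b))
        rw [hf, hw, map_smul, br_hh_e, map_smul, hw, smul_comm]
      · show f (br (e K a) (hh C k)) = br (f (e K a)) (f (hh C k))
        rw [hf, hw, map_smul, LinearMap.smul_apply, br_e_hh, map_smul, hw, smul_comm]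
      · show f (br (e K a) (e K b)) = br (f (e K a)) (f (e K b))
        rw [hw, hw, map_smul, map_smul, LinearMap.smul_apply]
        have hz : 0 ≤ ip C a.1 b.1 →
            f (br (e K a) (e K b)) = w b • w a • br (e K a) (e K b) := by
          intro h0
          rw [br_e_e_zero H h0, map_zero, smul_zero, smul_zero]
        rcases ip_cases H a b with h | h | h | h | h
        · subst h
          rw [br_e_ng H, map_neg, hf, smul_smul, mul_comm, hng, one_smul]
        · obtain ⟨c, hc⟩ : ∃ c : Rt C, c.1 = a.1 + b.1 := ⟨⟨a.1 + b.1, root_add H h⟩, rfl⟩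
          rw [br_e_e_add H hc, map_smul, hw, hadd a b c hc, smul_smul, smul_smul, smul_smul]
          congr 1
          ring
        · exact hz (by omega)
        · exact hz (by omega)
        · refine hz ?_
          rw [h]
          have : ip C a.1 a.1 = 2 := a.2
          omega
    intro x y
    exact LinearMap.congr_fun (LinearMap.congr_fun key x) y
  · have key : (fm : LL C K →ₗ[K] LL C K →ₗ[K] K).compl₁₂ (f : LL C K →ₗ[K] LL C K)
          (f : LL C K →ₗ[K] LL C K) = (fm : LL C K →ₗ[K] LL C K →ₗ[K] K) := by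
      refine ext_basis (fun h => ext_basis (fun k => ?_) (fun b => ?_))
        (fun a => ext_basis (fun k => ?_) (fun b => ?_))
      · show fm (f (hh C h)) (f (hh C k)) = fm (hh C h) (hh C k)
        rw [hf, hf]
      · show fm (f (hh C h)) (f (e K b)) = fm (hh C h) (e K b)
        rw [hf, hw, map_smul, fm_hh_left, e_fst, fk_zero_right, smul_zero]
      · show fm (f (e K a)) (f (hh C k)) = fm (e K a) (hh C k)
        rw [hf, hw, map_smul, LinearMap.smul_apply, fm_hh_right, e_fst, fk_zero_left, smul_zero]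
      · show fm (f (e K a)) (f (e K b)) = fm (e K a) (e K b)
        rw [hw, hw, map_smul, map_smul, LinearMap.smul_apply, fm_e_left]
        by_cases h : ng a = b
        · subst h
          rw [smul_smul, mul_comm, hng, one_smul]
        · rw [e_snd_ne h, neg_zero, smul_zero, smul_zero]
    intro x y
    exact LinearMap.congr_fun (LinearMap.congr_fun key x) y

theorem hd_mem_GG (H : Hyp C K) (y : Fin n → ℤ) (c : Kˣ) : hd C y c ∈ GG C K := by
  refine TorA_mem_GG H _ (fun b => ((c ^ (ip C y b.1) : Kˣ) : K)) (hd_hh y c) (hd_e y c) ?_ ?_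
  · intro a
    beta_reduce
    rw [ng_val, ip_neg_right, ← Units.val_mul, ← zpow_add, add_neg_cancel, zpow_zero,
      Units.val_one]
  · intro a b d hd
    beta_reduce
    rw [hd, ip_add_right, zpow_add, Units.val_mul]
theorem hd_mem_TT (H : Hyp C K) (y : Fin n → ℤ) (c : Kˣ) : hd C y c ∈ TT C K := by
  refine ⟨hd_mem_GG H y c, fun x hx => ?_⟩
  rw [eq_hh_of_mem hx, hd_hh]
theorem hd_add (y z : Fin n → ℤ) (c : Kˣ) :
    (hd C (y + z) c : LL C K ≃ₗ[K] LL C K) = hd C y c * hd C z c := by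
  refine LinearEquiv.ext fun x => Prod.ext rfl (funext fun r => ?_)
  show ((c ^ (ip C (y + z) r.1) : Kˣ) : K) * x.2 r =
    ((c ^ (ip C y r.1) : Kˣ) : K) * (((c ^ (ip C z r.1) : Kˣ) : K) * x.2 r)
  rw [ip_add_left, zpow_add, Units.val_mul, mul_assoc]

theorem TorA_hd_zero (c : Kˣ) : (hd C 0 c : LL C K ≃ₗ[K] LL C K) = 1 := by
  refine LinearEquiv.ext fun x => Prod.ext rfl (funext fun r => ?_)
  show ((c ^ (ip C 0 r.1) : Kˣ) : K) * x.2 r = x.2 r
  rw [ip_zero_left, zpow_zero, Units.val_one, one_mul]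

theorem hd_mem_T1 (H : Hyp C K) (y : Fin n → ℤ) (c : Kˣ) : hd C y c ∈ T1 C K := by
  let G : AddSubgroup (Fin n → ℤ) :=
    { carrier := {y | hd C y c ∈ T1 C K}
      add_mem' := by
        intro y z hy hz
        show hd C (y + z) c ∈ T1 C K
        rw [hd_add]
        exact mul_mem hy hz
      zero_mem' := by
        show hd C 0 c ∈ T1 C K
        rw [TorA_hd_zero]
        exact one_mem _
      neg_mem' := by
        intro y hy
        show hd C (-y) c ∈ T1 C K
        have h : (hd C (-y) c : LL C K ≃ₗ[K] LL C K) = (hd C y c)⁻¹ := by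
          apply eq_inv_of_mul_eq_one_left
          rw [← hd_add, neg_add_cancel, TorA_hd_zero]
        rw [h]
        exact inv_mem hy }
  have h1 : ∀ i, (Pi.single i 1 : Fin n → ℤ) ∈ G := fun i =>
    Subgroup.subset_closure ⟨⟨Pi.single i 1, ip_simple H i⟩, c, rfl⟩
  have h2 : y ∈ G := by
    rw [← Finset.univ_sum_single y]
    refine G.sum_mem fun i _ => ?_
    have h3 : (Pi.single i (y i) : Fin n → ℤ) = y i • Pi.single i 1 := by
      rw [← Pi.single_smul, smul_eq_mul, mul_one]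
    rw [h3]
    exact G.zsmul_mem (h1 i) _
  exact h2
theorem wt_hd (y : Fin n → ℤ) (c : Kˣ) (b : Rt C) :
    wt (hd C y c : LL C K ≃ₗ[K] LL C K) b = ((c ^ (ip C y b.1) : Kˣ) : K) := by
  unfold wt
  rw [hd_e, Prod.smul_snd, Pi.smul_apply, e_snd_self, smul_eq_mul, mul_one]

theorem T1_le_TT (H : Hyp C K) : T1 C K ≤ TT C K := by
  unfold T1
  rw [Subgroup.closure_le]
  rintro _ ⟨a, c, rfl⟩
  exact hd_mem_TT H _ _
theorem TT_le_NN : TT C K ≤ NN C K := by
  intro g hg
  refine ⟨hg.1, fun x => ⟨fun h => ?_, fun h => ?_⟩⟩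
  · have h1 := (inv_mem hg : g⁻¹ ∈ TT C K).2 (g x) h
    have h2 : g⁻¹ (g x) = x := g.symm_apply_apply x
    rw [h2] at h1
    rw [h1]
    exact h
  · rw [hg.2 x h]
    exact h
theorem NN_le_GG : NN C K ≤ GG C K := fun _ h => h.1
theorem TT_le_GG : TT C K ≤ GG C K := fun _ h => h.1

theorem TT_e (H : Hyp C K) {t : LL C K ≃ₗ[K] LL C K} (ht : t ∈ TT C K) (a : Rt C) :
    t (e K a) = wt t a • e K a := by
  have h1 : ∀ h : Fin n → K, fk C h (zk a.1) • t (e K a) = br (hh C h) (t (e K a)) := by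
    intro h
    have h2 := ht.1.1 (hh C h) (e K a)
    rw [br_hh_e, map_smul, ht.2 _ (hh_mem_L0 h)] at h2
    exact h2
  obtain ⟨y, hy⟩ := exists_one H a
  refine Prod.ext ?_ (funext fun r => ?_)
  · have h2 := congrArg Prod.fst (h1 (zk y.1))
    rw [br_hh_fst, fk_zk_zk, hy, Int.cast_one, one_smul] at h2
    rw [h2, Prod.smul_fst, e_fst, smul_zero]
  · show (t (e K a)).2 r = wt t a * (e K a).2 r
    have h3 : ∀ h : Fin n → K, fk C h (zk a.1) * (t (e K a)).2 r =
        fk C h (zk r.1) * (t (e K a)).2 r := by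
      intro h
      have h4 := congrFun (congrArg Prod.snd (h1 h)) r
      rw [br_hh_snd] at h4
      exact h4
    by_cases hr : r = a
    · rw [hr, e_snd_self, mul_one]
      rfl
    · rw [e_snd_ne hr, mul_zero]
      rcases ip_cases H a r with h | h | h | h | h
      · have h5 := h3 (zk y.1)
        rw [fk_zk_zk, fk_zk_zk, h, ng_val, ip_neg_right, hy, Int.cast_neg, Int.cast_one] at h5
        have h6 : (2 : K) * (t (e K a)).2 (ng a) = 0 := by linear_combination h5
        rw [h]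
        exact (mul_eq_zero.1 h6).resolve_left (two_ne H)
      all_goals first
        | exact absurd h hr
        | (obtain ⟨z, hz1, hz2⟩ := H.ra a r (by tauto)
           have h5 := h3 (zk z.1)
           rw [fk_zk_zk, fk_zk_zk, hz1, hz2, Int.cast_one, Int.cast_zero, one_mul,
             zero_mul] at h5
           exact h5)
/-- converse: an automorphism which fixes all root lines is in `TT` -/
theorem mem_TT_of (H : Hyp C K) {t : LL C K ≃ₗ[K] LL C K} (ht : t ∈ GG C K)
    (h : ∀ a : Rt C, ∃ k : K, t (e K a) = k • e K a) : t ∈ TT C K := by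
  refine ⟨ht, fun x hx => ?_⟩
  obtain ⟨v, rfl⟩ : ∃ v : Fin n → K, x = hh C v := ⟨x.1, eq_hh_of_mem hx⟩
  have h1 : ∀ a : Rt C, br (e K a) (t (hh C v)) = -(fk C v (zk a.1)) • e K a := by
    intro a
    obtain ⟨k, hk⟩ := h a
    have hk0 : k ≠ 0 := by
      intro h0
      rw [h0, zero_smul] at hk
      exact e_ne_zero a ((map_eq_zero_iff t t.injective).1 hk)
    have h2 := ht.1 (e K a) (hh C v)
    rw [br_e_hh, map_smul, hk, map_smul, LinearMap.smul_apply, smul_comm] at h2
    exact (smul_right_injective _ hk0 h2).symm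
  refine Prod.ext ?_ (funext fun r => ?_)
  · show (t (hh C v)).1 = v
    have h3 : (t (hh C v)).1 - v = 0 := by
      apply fk_nondeg H
      intro a
      have h4 := congrFun (congrArg Prod.snd (h1 a)) a
      rw [br_e_snd_self H] at h4
      have h5 : ((-(fk C v (zk a.1)) • e K a : LL C K)).2 a = -(fk C v (zk a.1)) := by
        rw [Prod.smul_snd, Pi.smul_apply, e_snd_self, smul_eq_mul, mul_one]
      rw [h5] at h4
      rw [fk_sub_left]
      linear_combination -h4
    exact sub_eq_zero.1 h3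
  · show (t (hh C v)).2 r = 0
    obtain ⟨a, rfl⟩ : ∃ a : Rt C, r = ng a := ⟨ng r, (ng_ng r).symm⟩
    obtain ⟨y, hy⟩ := exists_one H a
    have h4 := congrArg Prod.fst (h1 a)
    rw [br_e_fst H, Prod.smul_fst, e_fst, smul_zero] at h4
    have h5 := congrArg (fun z => fk C (zk y.1) z) h4
    beta_reduce at h5
    rw [fk_smul_right, fk_zk_zk, hy, Int.cast_one, mul_one, fk_zero_right] at h5
    exact neg_eq_zero.1 h5
theorem wt_ne_zero (H : Hyp C K) {t : LL C K ≃ₗ[K] LL C K} (ht : t ∈ TT C K) (a : Rt C) :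
    wt t a ≠ 0 := by
  intro h0
  have h1 := TT_e H ht a
  rw [h0, zero_smul] at h1
  exact e_ne_zero a ((map_eq_zero_iff t t.injective).1 h1)
theorem wt_mul (H : Hyp C K) {s t : LL C K ≃ₗ[K] LL C K} (hs : s ∈ TT C K) (ht : t ∈ TT C K)
    (a : Rt C) : wt (s * t) a = wt s a * wt t a := by
  have h1 : (s * t) (e K a) = (wt t a * wt s a) • e K a := by
    rw [LinearEquiv.mul_apply, TT_e H ht, map_smul, TT_e H hs, smul_smul]
  have h2 : wt (s * t) a = ((s * t) (e K a)).2 a := rfl
  rw [h2, h1, Prod.smul_snd, Pi.smul_apply, e_snd_self, smul_eq_mul, mul_one, mul_comm]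
theorem wt_one (a : Rt C) : wt (1 : LL C K ≃ₗ[K] LL C K) a = 1 := e_snd_self a
theorem wt_inv (H : Hyp C K) {t : LL C K ≃ₗ[K] LL C K} (ht : t ∈ TT C K) (a : Rt C) :
    wt t⁻¹ a = (wt t a)⁻¹ := by
  apply eq_inv_of_mul_eq_one_left
  rw [← wt_mul H (inv_mem ht) ht, inv_mul_cancel, wt_one]
theorem TorA_wt_pow (H : Hyp C K) {t : LL C K ≃ₗ[K] LL C K} (ht : t ∈ TT C K) (k : ℕ)
    (a : Rt C) : wt (t ^ k) a = wt t a ^ k := by
  induction k with
  | zero => rw [pow_zero, pow_zero, wt_one]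
  | succ k ih => rw [pow_succ, pow_succ, wt_mul H (pow_mem ht k) ht, ih]
theorem wt_zpow (H : Hyp C K) {t : LL C K ≃ₗ[K] LL C K} (ht : t ∈ TT C K) (k : ℤ)
    (a : Rt C) : wt (t ^ k) a = wt t a ^ k := by
  cases k with
  | ofNat k =>
    rw [Int.ofNat_eq_natCast, zpow_natCast, zpow_natCast, TorA_wt_pow H ht]
  | negSucc k =>
    rw [zpow_negSucc, zpow_negSucc, wt_inv H (pow_mem ht _), TorA_wt_pow H ht]
theorem wt_ng (H : Hyp C K) {t : LL C K ≃ₗ[K] LL C K} (ht : t ∈ TT C K) (a : Rt C) :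
    wt t (ng a) = (wt t a)⁻¹ := by
  apply eq_inv_of_mul_eq_one_right
  have h1 := ht.1.2 (e K a) (e K (ng a))
  rw [TT_e H ht, TT_e H ht, map_smul, map_smul, LinearMap.smul_apply, fm_e_left, e_snd_self,
    smul_eq_mul, smul_eq_mul] at h1
  linear_combination -h1
theorem wt_add (H : Hyp C K) {t : LL C K ≃ₗ[K] LL C K} (ht : t ∈ TT C K) {a b c : Rt C}
    (hc : c.1 = a.1 + b.1) : wt t c = wt t a * wt t b := by
  have h1 := ht.1.1 (e K a) (e K b)
  rw [TT_e H ht a, TT_e H ht b, map_smul, map_smul, LinearMap.smul_apply, br_e_e_add H hc,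
    map_smul, TT_e H ht c] at h1
  have h2 := congrFun (congrArg Prod.snd h1) c
  simp only [Prod.smul_snd, Pi.smul_apply, e_snd_self, smul_eq_mul, mul_one] at h2
  apply mul_left_cancel₀ (ek_ne_zero (K := K) (C := C) a.1 b.1)
  linear_combination h2
theorem wt_pow_card (H : Hyp C K) {t : LL C K ≃ₗ[K] LL C K} (ht : t ∈ TT C K) (a : Rt C) :
    wt t a ^ (Nat.card K - 1) = 1 := by
  have h1 : Finite K := by
    apply Nat.finite_of_card_ne_zero
    rcases H.card with h | h | h <;> omega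
  have : Fintype K := Fintype.ofFinite K
  rw [Nat.card_eq_fintype_card]
  exact FiniteField.pow_card_sub_one_eq_one _ (wt_ne_zero H ht a)
/-- an element of `TT` is determined by its weights -/
theorem TT_ext (H : Hyp C K) {s t : LL C K ≃ₗ[K] LL C K} (hs : s ∈ TT C K)
    (ht : t ∈ TT C K) (h : ∀ a : Rt C, wt s a = wt t a) : s = t := by
  have h1 : (s : LL C K →ₗ[K] LL C K) = t := by
    refine ext_basis (fun v => ?_) (fun a => ?_)
    · show s (hh C v) = t (hh C v)
      rw [hs.2 _ (hh_mem_L0 v), ht.2 _ (hh_mem_L0 v)]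
    · show s (e K a) = t (e K a)
      rw [TT_e H hs, TT_e H ht, h]
  exact LinearEquiv.ext fun x => LinearMap.congr_fun h1 x
theorem TT_pow_card (H : Hyp C K) {t : LL C K ≃ₗ[K] LL C K} (ht : t ∈ TT C K) :
    t ^ (Nat.card K - 1) = 1 := by
  refine TT_ext H (pow_mem ht _) (one_mem _) fun a => ?_
  rw [TorA_wt_pow H ht, wt_pow_card H ht, wt_one]
theorem TT_comm (H : Hyp C K) {s t : LL C K ≃ₗ[K] LL C K} (hs : s ∈ TT C K)
    (ht : t ∈ TT C K) : s * t = t * s := by
  refine TT_ext H (mul_mem hs ht) (mul_mem ht hs) fun a => ?_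
  rw [wt_mul H hs ht, wt_mul H ht hs, mul_comm]
theorem TT_conj_xr (H : Hyp C K) {t : LL C K ≃ₗ[K] LL C K} (ht : t ∈ TT C K) (a : Rt C)
    (s : K) : t * xr a s * t⁻¹ = xr a (wt t a * s) :=
  xr_conj H (TT_le_GG ht) (TT_e H ht a) s

end Pool.Agent.H33.EL
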